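import Mathlib

/-!
Pairings of a finite set of points and the probability that given pairs are present.
-/

namespace Pool.Agent.Lib.MP_d20c4f_pr

open Finset

set_option linter.unusedSectionVars false

variable {Ω V κ : Type} [Fintype Ω] [DecidableEq Ω]

/-- A pairing that respects the colours. -/
def IsP (col : Ω → κ) (π : Ω → Ω) : Prop := ∀ x, π (π x) = x ∧ π x ≠ x ∧ col (π x) = col x

open Classical in
/-- The set of colour-respecting pairings. -/
noncomputable def PP (col : Ω → κ) : Finset (Ω → Ω) := univ.filter (IsP col)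

theorem mem_PP {col : Ω → κ} {π : Ω → Ω} : π ∈ PP col ↔ IsP col π := by simp [PP]

theorem IsP.inj {col : Ω → κ} {π : Ω → Ω} (hπ : IsP col π) : Function.Injective π :=
  fun x y h => by rw [← (hπ x).1, h, (hπ y).1]

theorem IsP.eq_iff {col : Ω → κ} {π : Ω → Ω} (hπ : IsP col π) {x y : Ω} : π x = y ↔ x = π y :=
  ⟨fun h => by rw [← h, (hπ x).1], fun h => by rw [h, (hπ y).1]⟩

/-- The number of pairings of `n` points. -/
def MM : ℕ → ℕ
  | 0 => 1
  | 1 => 0
  | n + 2 => (n + 1) * MM n

open Classical in
theorem card_PM [Fintype κ] (col : Ω → κ) : ∀ (m : ℕ) (s : Finset Ω), s.card = m →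
    (univ.filter fun π : Ω → Ω => (∀ x ∈ s, π x ∈ s ∧ π (π x) = x ∧ π x ≠ x ∧ col (π x) = col x) ∧
      ∀ x ∉ s, π x = x).card = ∏ c, MM (s.filter fun x => col x = c).card := by
  intro m
  induction m using Nat.strong_induction_on with
  | _ m ih =>
  intro s hs
  rcases s.eq_empty_or_nonempty with rfl | ⟨x, hx⟩
  · simp only [notMem_empty, IsEmpty.forall_iff, implies_true, not_false_eq_true, forall_const,
      true_and, filter_empty, card_empty, MM, prod_const_one]
    rw [card_eq_one]
    refine ⟨id, ?_⟩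
    ext π
    simp [funext_iff]
  let T := (s.erase x).filter fun y => col y = col x
  rw [card_eq_sum_card_fiberwise (f := fun π : Ω → Ω => π x) (t := T) (by
    intro π hπ
    have := ((mem_filter.1 hπ).2.1 x hx)
    exact mem_coe.2 (mem_filter.2 ⟨mem_erase.2 ⟨this.2.2.1, this.1⟩, this.2.2.2⟩))]
  have hT : T.card + 1 = (s.filter fun y => col y = col x).card := by
    have : T = (s.filter fun y => col y = col x).erase x := by
      ext y
      simp only [T, mem_filter, mem_erase]
      tauto
    rw [this]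
    exact card_erase_add_one (mem_filter.2 ⟨hx, rfl⟩)
  have key : ∀ y ∈ T, ((univ.filter fun π : Ω → Ω => (∀ x ∈ s, π x ∈ s ∧ π (π x) = x ∧ π x ≠ x ∧
      col (π x) = col x) ∧ ∀ x ∉ s, π x = x).filter fun π => π x = y).card =
      MM (T.card - 1) * ∏ c ∈ univ.erase (col x), MM (s.filter fun x => col x = c).card := by
    intro y hy
    obtain ⟨hy1, hy2⟩ := mem_filter.1 hy
    obtain ⟨hyx, hys⟩ := mem_erase.1 hy1
    have hc : ((s.erase x).erase y).card < m := by
      rw [← hs]
      exact (card_erase_le).trans_lt (card_erase_lt_of_mem hx)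
    have h1 := ih _ hc ((s.erase x).erase y) rfl
    have h2 : ∏ c, MM (((s.erase x).erase y).filter fun x => col x = c).card =
        MM (T.card - 1) * ∏ c ∈ univ.erase (col x), MM (s.filter fun x => col x = c).card := by
      rw [← mul_prod_erase univ _ (mem_univ (col x))]
      congr 1
      · congr 1
        rw [← card_erase_of_mem hy]
        congr 1
        ext z
        simp only [T, mem_filter, mem_erase]
        tauto
      · refine prod_congr rfl fun c hc => ?_
        congr 2
        ext z
        simp only [mem_filter, mem_erase]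
        have := (mem_erase.1 hc).1
        constructor
        · tauto
        · rintro ⟨h3, h4⟩
          refine ⟨⟨fun h => this ?_, fun h => this ?_, h3⟩, h4⟩
          · rw [← h4, h, hy2]
          · rw [← h4, h]
    rw [← h2, ← h1]
    refine card_bij' (fun π _ => fun z => if z = x then x else if z = y then y else π z)
      (fun π _ => fun z => if z = x then y else if z = y then x else π z) ?_ ?_ ?_ ?_
    · intro π hπ
      simp only [mem_filter, mem_univ, true_and, mem_erase] at hπ ⊢
      obtain ⟨⟨p1, p2⟩, p3⟩ := hπ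
      have p4 : π y = x := by rw [← p3, (p1 x hx).2.1]
      refine ⟨fun z hz => ?_, fun z hz => ?_⟩
      · have q1 : π z ≠ x := fun h => hz.1 (by rw [← (p1 z hz.2.2).2.1, h, p3])
        have q2 : π z ≠ y := fun h => hz.2.1 (by rw [← (p1 z hz.2.2).2.1, h, p4])
        simp only [hz.1, hz.2.1, if_false, q1, q2]
        exact ⟨⟨q2, q1, (p1 z hz.2.2).1⟩, (p1 z hz.2.2).2⟩
      · split_ifs with q1 q2
        · exact q1.symm
        · exact q2.symm
        · exact p2 z fun h => hz ⟨q2, q1, h⟩
    · intro π hπ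
      simp only [mem_filter, mem_univ, true_and, mem_erase] at hπ ⊢
      obtain ⟨p1, p2⟩ := hπ
      refine ⟨⟨fun z hz => ?_, fun z hz => ?_⟩, by simp⟩
      · by_cases q1 : z = x
        · subst q1
          simp [hyx, hys, hy2]
        by_cases q2 : z = y
        · subst q2
          simp [hyx, hx, hy2, hyx.symm]
        obtain ⟨⟨r1, r2, r3⟩, r4⟩ := p1 z ⟨q2, q1, hz⟩
        simp only [q1, q2, if_false, r1, r2]
        exact ⟨r3, r4⟩
      · have q1 : z ≠ x := fun h => hz (h ▸ hx)
        have q2 : z ≠ y := fun h => hz (h ▸ hys)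
        simp only [q1, q2, if_false]
        exact p2 z fun h => hz h.2.2
    · intro π hπ
      simp only [mem_filter, mem_univ, true_and] at hπ
      obtain ⟨⟨p1, _⟩, p3⟩ := hπ
      have p4 : π y = x := by rw [← p3, (p1 x hx).2.1]
      funext z
      split_ifs with q1 q2
      · rw [q1, p3]
      · rw [q2, p4]
      · simp [q1, q2]
    · intro π hπ
      simp only [mem_filter, mem_univ, true_and, mem_erase] at hπ
      funext z
      split_ifs with q1 q2
      · rw [q1]
        exact (hπ.2 x (by simp)).symm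
      · rw [q2]
        exact (hπ.2 y (by simp)).symm
      · simp [q1, q2]
  rw [sum_congr rfl key, sum_const, smul_eq_mul, ← mul_prod_erase univ _ (mem_univ (col x)),
    ← mul_assoc, ← hT]
  congr 1
  rcases T.card with _ | k
  · simp [MM]
  · simp [MM]

open Classical in
/-- The size of a colour class. -/
noncomputable def NC (col : Ω → κ) (c : κ) : ℕ := (univ.filter fun x => col x = c).card

theorem card_PP [Fintype κ] (col : Ω → κ) : (PP col).card = ∏ c, MM (NC col c) := by
  classical
  have := card_PM col _ univ rfl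
  simp only [mem_univ, forall_const, true_and, not_true_eq_false, IsEmpty.forall_iff,
    implies_true, and_true] at this
  convert this using 2
  · ext π
    simp [PP, IsP]
  · unfold NC
    congr

open Classical in
/-- The number of pairings that extend a given pairing of the points of `Q`. -/
theorem card_ext [Fintype κ] (col : Ω → κ) (Q : Finset Ω) (σ : Ω → Ω)
    (hσ : ∀ x ∈ Q, σ x ∈ Q ∧ σ (σ x) = x ∧ σ x ≠ x ∧ col (σ x) = col x) :
    ((PP col).filter fun π => ∀ x ∈ Q, π x = σ x).card =
      ∏ c, MM (Qᶜ.filter fun x => col x = c).card := by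
  rw [← card_PM col _ Qᶜ rfl]
  refine card_bij' (fun π _ => fun z => if z ∈ Q then z else π z)
    (fun π _ => fun z => if z ∈ Q then σ z else π z) ?_ ?_ ?_ ?_
  · intro π hπ
    simp only [mem_filter, mem_univ, true_and, mem_compl, mem_PP, not_not] at hπ ⊢
    obtain ⟨p1, p2⟩ := hπ
    refine ⟨fun z hz => ?_, fun z hz => by simp [hz]⟩
    have q : π z ∉ Q := fun h => hz (by
      rw [← (p1 z).1, p2 _ h]
      exact (hσ _ h).1)
    simp only [hz, q, if_false, not_false_eq_true, true_and]
    exact p1 z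
  · intro π hπ
    simp only [mem_filter, mem_univ, true_and, mem_compl, mem_PP, not_not] at hπ ⊢
    obtain ⟨p1, p2⟩ := hπ
    refine ⟨fun z => ?_, fun z hz => by simp [hz]⟩
    by_cases hz : z ∈ Q
    · simp only [hz, if_true, (hσ z hz).1]
      exact (hσ z hz).2
    · simp only [hz, if_false, (p1 z hz).1]
      exact (p1 z hz).2
  · intro π hπ
    simp only [mem_filter] at hπ
    funext z
    by_cases hz : z ∈ Q
    · simp [hz, hπ.2 z hz]
    · simp [hz]
  · intro π hπ
    simp only [mem_filter, mem_univ, true_and, mem_compl, not_not] at hπ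
    funext z
    by_cases hz : z ∈ Q
    · simp [hz, hπ.2 z hz]
    · simp [hz]

theorem MM_odd {n : ℕ} (h : ¬ Even n) : MM n = 0 := by
  induction n using Nat.strong_induction_on with
  | _ n ih =>
  rcases n with _ | _ | n
  · simp at h
  · rfl
  · rw [MM, ih n (by omega) (fun h' => h (h'.add even_two)), mul_zero]

theorem MM_pos {n : ℕ} (h : Even n) : 0 < MM n := by
  obtain ⟨m, rfl⟩ := h
  induction m with
  | zero => simp [MM]
  | succ m ih =>
    rw [show m + 1 + (m + 1) = m + m + 2 by ring, MM]
    positivity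

theorem MM_ratio (n j : ℕ) : MM n * n ^ j ≤ MM (n + 2 * j) ∧ MM (n + 2 * j) ≤ MM n * (n + 2 * j) ^ j := by
  induction j with
  | zero => simp
  | succ j ih =>
    rw [show n + 2 * (j + 1) = n + 2 * j + 2 by ring, MM, pow_succ, pow_succ]
    constructor
    · rw [← mul_assoc, mul_comm]
      exact Nat.mul_le_mul (by omega) ih.1
    · rw [← mul_assoc, mul_comm]
      exact Nat.mul_le_mul (ih.2.trans (Nat.mul_le_mul_left _ (Nat.pow_le_pow_left (by omega) _)))
        (by omega)

/-- A symmetric set of ordered pairs that is a matching. -/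
def Mt (F : Finset (Ω × Ω)) : Prop := ∀ e ∈ F, e.swap ∈ F ∧ e.1 ≠ e.2 ∧ ∀ e' ∈ F, e'.1 = e.1 → e' = e

/-- All pairs are monochromatic. -/
def Mono (col : Ω → κ) (F : Finset (Ω × Ω)) : Prop := ∀ e ∈ F, col e.2 = col e.1

/-- All pairs of `F` are pairs of `π`. -/
def Has (π : Ω → Ω) (F : Finset (Ω × Ω)) : Prop := ∀ e ∈ F, π e.1 = e.2

open Classical in
/-- The proportion of pairings that contain `F`. -/
noncomputable def Pr (col : Ω → κ) (F : Finset (Ω × Ω)) : ℝ :=
  ((PP col).filter fun π => Has π F).card / (PP col).card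

open Classical in
/-- The idealised probability. -/
noncomputable def pw (col : Ω → κ) (F : Finset (Ω × Ω)) : ℝ :=
  if Mono col F then ∏ e ∈ F, (√(NC col (col e.1)))⁻¹ else 0

theorem pw_nonneg (col : Ω → κ) (F : Finset (Ω × Ω)) : 0 ≤ pw col F := by
  unfold pw
  split_ifs
  · positivity
  · rfl

theorem Pr_nonneg (col : Ω → κ) (F : Finset (Ω × Ω)) : 0 ≤ Pr col F := by
  unfold Pr
  positivity

theorem Pr_eq_zero {col : Ω → κ} {F : Finset (Ω × Ω)} (hs : ∀ e ∈ F, e.swap ∈ F)
    (h : ¬ (Mt F ∧ Mono col F)) : Pr col F = 0 := by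
  classical
  unfold Pr
  rw [div_eq_zero_iff, Nat.cast_eq_zero, card_eq_zero, filter_eq_empty_iff]
  refine Or.inl fun π hπ hF => h ⟨fun e he => ⟨hs e he, ?_, fun e' he' h1 => ?_⟩, fun e he => ?_⟩
  · rw [← hF e he]
    exact ((mem_PP.1 hπ) _).2.1.symm
  · exact Prod.ext h1 (by rw [← hF e he, ← hF e' he', h1])
  · rw [← hF e he]
    exact ((mem_PP.1 hπ) _).2.2

theorem Pr_bounds [Fintype κ] {col : Ω → κ} (hev : ∀ c, Even (NC col c)) {F : Finset (Ω × Ω)}
    (hF : Mt F) (hm : Mono col F) {θ : ℝ} (hθ : 0 < θ) (hN : ∀ c, 0 < NC col c)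
    (hc : ∀ c, (F.card : ℝ) ≤ (1 - θ) * NC col c) :
    pw col F ≤ Pr col F ∧ Pr col F ≤ ∏ e ∈ F, (√(θ * NC col (col e.1)))⁻¹ := by
  classical
  let σ : Ω → Ω := fun x => if h : ∃ e ∈ F, e.1 = x then h.choose.2 else x
  have hσ : ∀ e ∈ F, σ e.1 = e.2 := fun e he => by
    have h : ∃ e' ∈ F, e'.1 = e.1 := ⟨e, he, rfl⟩
    simp only [σ, dif_pos h]
    rw [(hF e he).2.2 _ h.choose_spec.1 h.choose_spec.2]
  let Q := F.image Prod.fst
  have hQ : ∀ x ∈ Q, σ x ∈ Q ∧ σ (σ x) = x ∧ σ x ≠ x ∧ col (σ x) = col x := by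
    intro x hx
    obtain ⟨e, he, rfl⟩ := mem_image.1 hx
    rw [hσ e he]
    exact ⟨mem_image.2 ⟨_, (hF e he).1, rfl⟩, hσ _ (hF e he).1, (hF e he).2.1.symm, hm e he⟩
  have h1 : ((PP col).filter fun π => Has π F) = (PP col).filter fun π => ∀ x ∈ Q, π x = σ x := by
    refine filter_congr fun π _ => ⟨fun h x hx => ?_, fun h e he => ?_⟩
    · obtain ⟨e, he, rfl⟩ := mem_image.1 hx
      rw [hσ e he, h e he]
    · rw [h _ (mem_image_of_mem _ he), hσ e he]
  have h2 : ∀ c, Even (Q.filter fun x => col x = c).card := by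
    intro c
    by_contra h
    have h3 := card_PM col _ Q rfl
    rw [prod_eq_zero (mem_univ c) (by convert MM_odd h), card_eq_zero, filter_eq_empty_iff] at h3
    refine h3 (mem_univ fun x => if x ∈ Q then σ x else x) ⟨fun x hx => ?_, fun x hx => by simp [hx]⟩
    simp only [hx, if_true, (hQ x hx).1, true_and]
    exact (hQ x hx).2
  choose j hj using h2
  have h3 : ∀ c, NC col c = (Qᶜ.filter fun x => col x = c).card + 2 * j c := by
    intro c
    rw [two_mul, ← hj, ← card_union_of_disjoint (disjoint_filter_filter disjoint_compl_left),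
      ← filter_union]
    unfold NC
    congr
    ext x
    simp [em']
  have h4 : ∀ g : κ → ℝ, ∏ e ∈ F, g (col e.1) = ∏ c, g c ^ (2 * j c) := by
    intro g
    rw [← prod_image (s := F) (g := Prod.fst) (f := fun x => g (col x))
      (fun e he e' he' h => ((hF e' he').2.2 e he h)), ← prod_fiberwise_of_maps_to
      (g := col) (t := univ) (fun _ _ => mem_univ _)]
    refine prod_congr rfl fun c _ => ?_
    rw [prod_congr rfl (g := fun _ => g c) (fun x hx => by rw [(mem_filter.1 hx).2]), prod_const,
      two_mul, ← hj]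
  have h5 : ∀ c, 2 * j c ≤ F.card := fun c => by
    rw [two_mul, ← hj]
    exact (card_filter_le _ _).trans card_image_le
  unfold Pr pw
  rw [if_pos hm, h4 fun c => (√(NC col c))⁻¹, h4 fun c => (√(θ * NC col c))⁻¹]
  have h6 := card_ext col Q σ hQ
  rw [← h1] at h6
  have h7 : (((PP col).filter fun π => Has π F).card : ℝ) / (PP col).card =
      ∏ c, (MM (Qᶜ.filter fun x => col x = c).card : ℝ) / MM (NC col c) := by
    rw [prod_div_distrib, card_PP, ← Nat.cast_prod, ← Nat.cast_prod, ← h6]
  have h8 : ∀ c, (0 : ℝ) < MM (NC col c) := fun c => by exact_mod_cast MM_pos (hev c)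
  have h9 : ∀ c, (0 : ℝ) < NC col c := fun c => by exact_mod_cast hN c
  rw [h7]
  constructor
  · refine prod_le_prod (fun _ _ => by positivity) fun c _ => ?_
    rw [pow_mul, inv_pow, Real.sq_sqrt (h9 c).le, inv_pow, le_div_iff₀ (h8 c), inv_mul_le_iff₀
      (pow_pos (h9 c) _), mul_comm]
    have := (MM_ratio (Qᶜ.filter fun x => col x = c).card (j c)).2
    rw [← h3] at this
    exact_mod_cast this
  · refine prod_le_prod (fun _ _ => by positivity) fun c _ => ?_
    have := h9 c
    rw [pow_mul, inv_pow, Real.sq_sqrt (by positivity), inv_pow, div_le_iff₀ (h8 c),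
      le_inv_mul_iff₀ (by positivity), mul_comm]
    have h10 := (MM_ratio (Qᶜ.filter fun x => col x = c).card (j c)).1
    rw [← h3] at h10
    refine le_trans ?_ (Nat.cast_le.2 h10)
    push_cast
    gcongr
    have h11 := hc c
    have h12 : ((2 * j c : ℕ) : ℝ) ≤ F.card := Nat.cast_le.2 (h5 c)
    have h13 : (NC col c : ℝ) = (Qᶜ.filter fun x => col x = c).card + (2 * j c : ℕ) := by
      exact_mod_cast h3 c
    linarith

end Pool.Agent.Lib.MP_d20c4f_pr
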