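import Pool.Agent.Lib.MP_d20c4f_pr.Means

/-!
The marginal of the larger graph, and the coupling for fixed degrees.
-/

namespace Pool.Agent.Lib.MP_d20c4f_pr

open Finset Filter Topology

variable {d k n : ℕ}

/-- The set of points chosen for the smaller graph. -/
def RR (S : Fin n → Finset (Fin d)) : Finset (Fin n × Fin d) := univ.filter fun p => p.2 ∈ S p.1

theorem colR_RR (S : Fin n → Finset (Fin d)) : colR (RR S) = fun p => decide (p.2 ∈ S p.1) := by
  funext p
  simp [colR, RR]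

theorem card_RR (S : Fin n → Finset (Fin d)) (v : Fin n) :
    ((RR S).filter fun p => p.1 = v).card = (S v).card := by
  symm
  refine card_bij (fun p _ => (v, p)) (by simp [RR]) (by simp) ?_
  rintro ⟨a, b⟩ h
  simp only [RR, mem_filter, mem_univ, true_and] at h
  obtain ⟨h, rfl⟩ := h
  exact ⟨b, h, rfl⟩

theorem card_fst (v : Fin n) : (univ.filter fun p : Fin n × Fin d => p.1 = v).card = d := by
  simpa [RR] using card_RR (fun _ : Fin n => (univ : Finset (Fin d))) v

theorem NC_loc {S : Finset (Fin d)} (hS : S ∈ TH d k) (b : Bool) :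
    NC (fun p => decide (p ∈ S)) b = mn d k b := by
  rw [← card_col hS]
  unfold NC
  congr

theorem NC_RR {S : Fin n → Finset (Fin d)} (hS : S ∈ Fintype.piFinset fun _ => TH d k) (b : Bool) :
    NC (colR (RR S)) b = n * mn d k b := by
  rw [colR_RR, NC_glob fun v p => decide (p ∈ S v)]
  simp [NC_loc (Fintype.mem_piFinset.1 hS _)]

theorem T_RR (h0 : 0 < k) (hk : k < d) (hn : 0 < n) {S : Fin n → Finset (Fin d)}
    (hS : S ∈ Fintype.piFinset fun _ => TH d k) :
    (fun b b' => (AT Prod.fst (colR (RR S)) b b' : ℝ) / NC (colR (RR S)) b) = T2 d k := by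
  funext b b'
  rw [NC_RR hS, colR_RR, AT_glob fun v p => decide (p ∈ S v)]
  have := (mm_bd h0 hk b).1
  simp only [Nat.cast_sum, AT_loc, NC_loc (Fintype.mem_piFinset.1 hS _), sum_const, card_univ,
    Fintype.card_fin, nsmul_eq_mul, Nat.cast_mul, mn_cast hk.le, T2]
  field_simp
  congr

theorem even_mn (hk : k ≤ d) (e1 : Even (n * k)) (e2 : Even (n * d)) (b : Bool) :
    Even (n * mn d k b) := by
  cases b
  · simp only [mn, Bool.false_eq_true, if_false, Nat.mul_sub]
    exact (Nat.even_sub (Nat.mul_le_mul_left _ hk)).2 (by simp [e1, e2])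
  · exact e1

theorem half_le (hd : 0 < d) : 1 / (2 * (d : ℝ)) ≤ 1 := by
  have : (1 : ℝ) ≤ d := by exact_mod_cast hd
  rw [div_le_one (by positivity)]
  linarith

theorem mdl1 (h0 : 0 < k) (hk : k < d) (e1 : Even (n * k)) (e2 : Even (n * d))
    {S : Fin n → Finset (Fin d)} (hS : S ∈ Fintype.piFinset fun _ => TH d k) :
    Mdl d (1 / (2 * d)) Prod.fst (colR (RR S)) := by
  refine ⟨fun v => (card_fst v).le, fun b => ?_⟩
  rw [NC_RR hS, Nat.cast_mul, mn_cast hk.le, Fintype.card_fin, mul_comm (_ : ℝ)]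
  exact ⟨even_mn hk.le e1 e2 b, mul_le_mul_of_nonneg_left ((half_le (by omega)).trans
    (mm_bd h0 hk b).1) (by positivity)⟩

theorem NC_unit : NC (fun _ : Fin n × Fin d => ()) () = n * d := by simp [NC]

theorem mdl0 (hd : 0 < d) (e2 : Even (n * d)) :
    Mdl d (1 / (2 * d)) Prod.fst fun _ : Fin n × Fin d => () := by
  refine ⟨fun v => (card_fst v).le, fun b => ?_⟩
  rw [NC_unit, Nat.cast_mul, Fintype.card_fin, mul_comm (_ : ℝ)]
  exact ⟨e2, mul_le_mul_of_nonneg_left ((half_le hd).trans (by exact_mod_cast hd)) (by positivity)⟩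

theorem IsS.isP {Ω V : Type} [Fintype Ω] [DecidableEq Ω] {vert : Ω → V} {σ : Ω → Ω}
    (h : IsS vert univ σ) : IsP (fun _ => ()) σ := fun x =>
  ⟨(h.1 x (mem_univ _)).2.1, fun e => (h.1 x (mem_univ _)).2.2.1 (by rw [e]), rfl⟩

theorem simple_bounds (hd : 0 < d) {K : ℕ} (hK : 2 ≤ K) {η : ℝ} (hη : 0 < η) :
    ∀ᶠ n : ℕ in atTop, Even (n * d) →
      ((SP (Prod.fst : Fin n × Fin d → Fin n) univ).card : ℝ) ≤
        (1 + η) * (MM (n * d) * Real.exp (E0 d K + η)) ∧
      (η < 1 → (SP (Prod.fst : Fin n × Fin d → Fin n) univ).Nonempty) := by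
  classical
  have c0 : 0 < 1 / (2 * (d : ℝ)) := by positivity
  obtain ⟨M, t1⟩ := (T1 d (2 * K) c0 zero_le_one hη).exists
  filter_upwards [t1, mean_sum d K c0 zero_le_one hη, eventually_gt_atTop 0] with n t1 m1 hn e2
  have hb : ∀ C : Finset ((Fin n × Fin d) × (Fin n × Fin d)), |fw (fun _ => 1) univ C - 1| ≤ 1 :=
    fun C => abs_le.2 ⟨by linarith [fw_bd (ρ := fun _ => 1) (by simp) univ C],
      by linarith [fw_bd (ρ := fun _ => 1) (by simp) univ C]⟩
  have a1 := abs_le.1 (t1 _ _ _ Prod.fst _ ((CYs Prod.fst K).filter fun C => C.card ≤ 4 ∧ Ins univ C)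
    (fw (fun _ => 1) univ) (by simp) (mdl0 hd e2) (fun C hC => CYs_cyc C (mem_filter.1 hC).1)
    fun C _ => hb C)
  have a2 := abs_le.1 (m1 _ _ _ Prod.fst _ (fun C => fw (fun _ => 1) univ C - 1)
    (fun j _ => if j < 2 then -1 else 0) (by simp) (mdl0 hd e2)
    (fun j _ => by split_ifs <;> simp) fun j t ht _ => by
      simp only [fw, ht.card, ite_self]
      split_ifs <;> first | omega | simp)
  rw [sum_filter_of_ne fun C _ h => ⟨by_contra fun h' => h (by simp [fw, h']), by simp [Ins]⟩] at a1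
  have a3 : ∑ j ∈ range K, PS j (fun c c' => (AT Prod.fst (fun _ : Fin n × Fin d => ()) c c' : ℝ) /
      NC (fun _ : Fin n × Fin d => ()) c) (fun _ => if j < 2 then -1 else 0) / (2 * (j + 1)) =
      E0 d K := by
    refine sum_congr rfl fun j _ => ?_
    have h1 : (AT Prod.fst (fun _ : Fin n × Fin d => ()) () () : ℝ) /
        NC (fun _ : Fin n × Fin d => ()) () = d - 1 := by
      rw [AT_glob fun _ _ => (), NC_unit, Nat.cast_sum]
      simp only [AT_loc, sum_const, card_univ, Fintype.card_fin, nsmul_eq_mul,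
        Nat.cast_mul, NC, filter_true, if_true]
      field_simp
    simp [PS, h1]
  rw [a3] at a2
  have a4 : (PP fun _ : Fin n × Fin d => ()).card = MM (n * d) := by simp [card_PP, NC_unit]
  have a5 : ∑ π ∈ PP fun _ : Fin n × Fin d => (), WW ((CYs Prod.fst K).filter fun C => C.card ≤ 4 ∧
      Ins univ C) (fw (fun _ => 1) univ) M π = (SP (Prod.fst : Fin n × Fin d → Fin n) univ).card := by
    rw [card_eq_sum_ones, Nat.cast_sum, ← sum_subset (s₁ := SP Prod.fst univ)
      (fun π hπ => mem_PP.2 (mem_SP.1 hπ).isP) fun π hπ h => ?_]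
    · exact sum_congr rfl fun π hπ => (WW_eq_one (mem_SP.1 hπ).isP (by simp) hK _ _
        (by rw [res_univ]; exact mem_SP.1 hπ)).trans (by simp)
    · rw [mem_SP, ← res_univ π, simple_iff (mem_PP.1 hπ) (by simp) hK] at h
      simp only [not_forall, not_not] at h
      obtain ⟨C, hC, h4, h5, hh⟩ := h
      unfold WW
      split_ifs
      · exact prod_eq_zero (mem_filter.2 ⟨mem_filter.2 ⟨hC, h4, h5⟩, hh⟩) (if_pos h4)
      · rfl
  rw [a4, a5] at a1
  have m0 : (0 : ℝ) < MM (n * d) := by exact_mod_cast MM_pos e2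
  have a6 := mul_pos m0 (Real.exp_pos (∑ C ∈ CYs Prod.fst K, (fw (fun _ => 1) univ C - 1) *
    pw (fun _ : Fin n × Fin d => ()) C))
  refine ⟨le_trans (by linarith [a1.2]) (mul_le_mul_of_nonneg_left (mul_le_mul_of_nonneg_left
    (Real.exp_le_exp.2 (by linarith [a2.2])) m0.le) (by linarith)), fun h => ?_⟩
  rw [← card_pos, ← Nat.cast_pos (α := ℝ)]
  nlinarith [a1.1]

theorem first_moment (h0 : 0 < k) (hk : k < d) (hd : 3 ≤ d) (K : ℕ) {η : ℝ} (hη : 0 < η)
    (hη1 : η < 1) : ∀ᶠ M : ℕ in atTop, ∀ᶠ n : ℕ in atTop, Even (n * k) → Even (n * d) →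
      ∀ S ∈ Fintype.piFinset fun _ : Fin n => TH d k,
      (1 - η) * (MM (n * k) * MM (n * (d - k)) * Real.exp (E1 d k K - η)) ≤
        ∑ π ∈ PP (colR (RR S)), WW (CYs Prod.fst K) (fw (rho d k) (RR S)) M π := by
  have c0 : 0 < 1 / (2 * (d : ℝ)) := by have : 0 < d := by omega
                                        positivity
  filter_upwards [T1 d (2 * K) c0 zero_le_one hη] with M t1
  filter_upwards [t1, mean_sum d K c0 zero_le_one hη, eventually_gt_atTop 0] with n t1 m1 hn e1 e2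
    S hS
  have hρ := rho_bd h0 hk hd
  have a1 := abs_le.1 (t1 _ _ _ Prod.fst _ _ (fw (rho d k) (RR S)) (by simp) (mdl1 h0 hk e1 e2 hS)
    CYs_cyc fun C _ => abs_le.2 ⟨by linarith [fw_bd hρ (RR S) C], by linarith [fw_bd hρ (RR S) C]⟩)
  have a2 := abs_le.1 (m1 _ _ _ Prod.fst _ (fun C => fw (rho d k) (RR S) C - 1)
    (fun j c => ph (rho d k) j c - 1) (by simp) (mdl1 h0 hk e1 e2 hS)
    (fun j c => abs_le.2 ⟨by linarith [ph_bd hρ j c], by linarith [ph_bd hρ j c]⟩)
    fun j t ht hm => by rw [fw_toSet _ _ ht hm])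
  rw [T_RR h0 hk hn hS, ← E1] at a2
  rw [card_PP, Fintype.prod_bool, NC_RR hS, NC_RR hS] at a1
  simp only [mn, if_true, Bool.false_eq_true, if_false, Nat.cast_mul] at a1
  refine le_trans (mul_le_mul_of_nonneg_left (mul_le_mul_of_nonneg_left
    (Real.exp_le_exp.2 (sub_le_iff_le_add.2 (neg_le_sub_iff_le_add.1 a2.1))) (by positivity))
    (by linarith)) (by linarith [a1.1])

theorem second_moment (h0 : 0 < k) (hk : k < d) (hd : 3 ≤ d) (K : ℕ) {η : ℝ} (hη : 0 < η) :
    ∀ᶠ M : ℕ in atTop, ∀ᶠ n : ℕ in atTop, Even (n * k) → Even (n * d) →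
      ∑ ω ∈ Fintype.piFinset fun _ : Fin n => TT d k, ∑ π ∈ PP (col2 ω), WW (CYs Prod.fst K)
        (fun C => fw (rho d k) (RR fun v => (ω v).1) C * fw (rho d k) (RR fun v => (ω v).2) C) M π ≤
      ((1 + η) * Real.exp (2 * η) * ((√(1 - 1 / (d - 1)))⁻¹ + η) + η) *
        Real.exp (E2 d k K fun c c' => T2 d k c.1 c'.1 * T2 d k c.2 c'.2 / (d - 1)) *
        ((TT d k).card ^ n * Nm d k n) := by
  classical
  have d0 : (0 : ℝ) < d := by positivity
  have d3 : (3 : ℝ) ≤ d := by exact_mod_cast hd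
  have c0 : 0 < 1 / (2 * (d : ℝ)) := by positivity
  have hρ := rho_bd h0 hk hd
  obtain ⟨δ, δ0, δ1, δ2⟩ := exists_delta h0 hk K hη
  set E := E2 d k K fun c c' => T2 d k c.1 c'.1 * T2 d k c.2 c'.2 / (d - 1) with hE
  let y : (Bool × Bool) × Option (Bool × Bool) → Finset (Fin d) × Finset (Fin d) → ℝ := fun i θ =>
    i.2.elim (NC (c2 θ) i.1 - mm d k i.1.1 * mm d k i.1.2 / d) fun c' =>
      AT (fun _ => ()) (c2 θ) i.1 c' - A1 d k i.1.1 c'.1 * A1 d k i.1.2 c'.2 / (d * (d - 1))
  have y0 : ∀ i, ∑ θ ∈ TT d k, y i θ = 0 := by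
    rintro ⟨c, _ | c'⟩
    · simp only [y, Option.elim, sum_sub_distrib, TT, sum_NC hk.le (by omega), sum_const,
        nsmul_eq_mul, sub_self]
    · simp only [y, Option.elim, sum_sub_distrib, TT, sum_AT hk.le (by omega), sum_const,
        nsmul_eq_mul, sub_self]
  filter_upwards [T1 d (2 * K) c0 (B := 3) (by norm_num) hη] with M t1
  have t2 : ∀ i, ∀ᶠ n : ℕ in atTop, Even (n * k) → Even (n * d) →
      ∑ ω ∈ (Fintype.piFinset fun _ : Fin n => TT d k).filter fun ω => δ * n ≤ |∑ v, y i (ω v)|,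
        ((PP (col2 ω)).card : ℝ) ≤ η * Real.exp E / (20 * 4 ^ M) * ((TT d k).card ^ n * Nm d k n) :=
    fun i => by
      have h1 : 0 ≤ ∑ θ ∈ TT d k, |y i θ| := sum_nonneg fun _ _ => abs_nonneg _
      exact T2b h0 hk hd (y0 i) (b := 1 + ∑ θ ∈ TT d k, |y i θ|) (by positivity) (fun θ hθ =>
        (single_le_sum (f := fun θ => |y i θ|) (fun _ _ => abs_nonneg _) hθ).trans (by linarith)) δ0
        (by linarith [half_le (show 0 < d by omega)]) (by positivity)
  filter_upwards [t1, mean_sum d K c0 (B := 3) (by norm_num) hη, eventually_gt_atTop 0,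
    eventually_all.2 t2, T2a h0 hk hd hη] with n t1 m1 hn t2 t3 e1 e2
  have n0 : (0 : ℝ) < n := by positivity
  have hb : ∀ (ω : Fin n → Finset (Fin d) × Finset (Fin d)) C,
      0 ≤ fw (rho d k) (RR fun v => (ω v).1) C * fw (rho d k) (RR fun v => (ω v).2) C ∧
      fw (rho d k) (RR fun v => (ω v).1) C * fw (rho d k) (RR fun v => (ω v).2) C ≤ 4 := fun ω C => by
    have a1 := fw_bd hρ (RR fun v => (ω v).1) C
    have a2 := fw_bd hρ (RR fun v => (ω v).2) C
    exact ⟨mul_nonneg a1.1 a2.1, by nlinarith⟩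
  rw [← sum_filter_add_sum_filter_not _ fun ω => ∀ i, |∑ v, y i (ω v)| < δ * n, add_mul, add_mul]
  refine add_le_add ?_ ?_
  · refine le_trans (sum_le_sum (g := fun ω => (1 + η) * Real.exp (2 * η) * Real.exp E *
      (PP (col2 ω)).card) fun ω hω => ?_) ?_
    · obtain ⟨hω, ty⟩ := mem_filter.1 hω
      by_cases he : ∀ c, Even (NC (col2 ω) c)
      swap
      · obtain ⟨c, hc⟩ := not_forall.1 he
        rw [card_eq_zero.1 ((card_PP _).trans (prod_eq_zero (mem_univ c) (MM_odd hc)))]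
        simp
      have ty1 : ∀ c, |(NC (col2 ω) c : ℝ) / n - mm d k c.1 * mm d k c.2 / d| < δ := fun c => by
        have := ty (c, none)
        simp only [y, Option.elim, sum_sub_distrib, sum_const, card_univ, Fintype.card_fin,
          nsmul_eq_mul] at this
        rwa [div_sub' n0.ne', abs_div, abs_of_pos n0, div_lt_iff₀ n0, NC_col2, Nat.cast_sum]
      have ty2 : ∀ c c', |(AT Prod.fst (col2 ω) c c' : ℝ) / n -
          A1 d k c.1 c'.1 * A1 d k c.2 c'.2 / (d * (d - 1))| < δ := fun c c' => by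
        have := ty (c, some c')
        simp only [y, Option.elim, sum_sub_distrib, sum_const, card_univ, Fintype.card_fin,
          nsmul_eq_mul] at this
        rwa [div_sub' n0.ne', abs_div, abs_of_pos n0, div_lt_iff₀ n0,
          show AT Prod.fst (col2 ω) c c' = _ from AT_glob (fun v => c2 (ω v)) c c', Nat.cast_sum]
      have hm : Mdl d (1 / (2 * d)) Prod.fst (col2 ω) := ⟨fun v => (card_fst v).le, fun c => ⟨he c, by
        have a1 := (abs_lt.1 (ty1 c)).1
        have a2 := (N0_bd (n := 1) h0 hk c).1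
        simp only [N0, Nat.cast_one, one_mul] at a2
        rw [Fintype.card_fin, ← le_div_iff₀ n0]
        have : 1 / (d : ℝ) = 1 / (2 * d) + 1 / (2 * d) := by field_simp; norm_num
        linarith⟩⟩
      have a1 := abs_le.1 (t1 _ _ _ Prod.fst _ _ (fun C => fw (rho d k) (RR fun v => (ω v).1) C *
        fw (rho d k) (RR fun v => (ω v).2) C) (by simp) hm CYs_cyc fun C _ =>
        abs_le.2 ⟨by linarith [hb ω C], by linarith [hb ω C]⟩)
      have a2 := abs_le.1 (m1 _ _ _ Prod.fst _ (fun C => fw (rho d k) (RR fun v => (ω v).1) C *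
        fw (rho d k) (RR fun v => (ω v).2) C - 1) (ph2 d k) (by simp) hm (fun j c => by
          have b1 := ph_bd hρ j fun i => (c i).1
          have b2 := ph_bd hρ j fun i => (c i).2
          unfold ph2
          exact abs_le.2 ⟨by nlinarith, by nlinarith⟩) fun j t ht hm => by
          rw [fw_toSet _ _ ht, fw_toSet _ _ ht, colR_RR, colR_RR]
          · rfl
          · rw [colR_RR]
            exact fun e he => congrArg Prod.snd (hm e he)
          · rw [colR_RR]
            exact fun e he => congrArg Prod.fst (hm e he))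
      have a3 := δ2 _ _ ty2 ty1
      simp only [div_div_div_cancel_right₀ n0.ne'] at a3
      rw [← E2] at a2
      have a4 := mul_le_mul_of_nonneg_left (mul_le_mul_of_nonneg_left (Real.exp_le_exp.2
        (show ∑ C ∈ CYs Prod.fst K, (fw (rho d k) (RR fun v => (ω v).1) C *
          fw (rho d k) (RR fun v => (ω v).2) C - 1) * pw (col2 ω) C ≤ 2 * η + E by linarith [a2.2]))
        (Nat.cast_nonneg (PP (col2 ω)).card)) (show 0 ≤ 1 + η by linarith)
      rw [Real.exp_add] at a4
      linarith [a1.2]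
    · rw [← mul_sum]
      refine (mul_le_mul_of_nonneg_left ((sum_le_sum_of_subset_of_nonneg (filter_subset _ _)
        fun _ _ _ => by positivity).trans (t3 e1 e2)) (by positivity)).trans (le_of_eq (by ring))
  · refine le_trans (sum_le_sum (g := fun ω => (4 : ℝ) ^ M * (PP (col2 ω)).card) fun ω _ => ?_) ?_
    · rw [mul_comm, ← nsmul_eq_mul]
      exact sum_le_card_nsmul _ _ _ fun π _ => (WW_bd (by norm_num) (hb ω) M π).2
    · rw [← mul_sum]
      have a1 := sum_biUnion_le' univ (fun i => (Fintype.piFinset fun _ : Fin n => TT d k).filter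
        fun ω => δ * n ≤ |∑ v, y i (ω v)|) (g := fun ω => ((PP (col2 ω)).card : ℝ))
        fun _ => Nat.cast_nonneg _
      have a2 := a1.trans (sum_le_card_nsmul _ _ _ fun i _ => t2 i e1 e2)
      have a3 : ((Fintype.piFinset fun _ : Fin n => TT d k).filter fun ω =>
          ¬ ∀ i, |∑ v, y i (ω v)| < δ * n) ⊆ univ.biUnion fun i =>
          (Fintype.piFinset fun _ : Fin n => TT d k).filter fun ω => δ * n ≤ |∑ v, y i (ω v)| := by
        intro ω hω
        obtain ⟨i, hi⟩ := not_forall.1 (mem_filter.1 hω).2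
        exact mem_biUnion.2 ⟨i, mem_univ _, mem_filter.2 ⟨(mem_filter.1 hω).1, not_lt.1 hi⟩⟩
      have a4 := (sum_le_sum_of_subset_of_nonneg a3 fun _ _ _ => Nat.cast_nonneg _).trans a2
      refine (mul_le_mul_of_nonneg_left a4 (by positivity)).trans (le_of_eq ?_)
      simp only [card_univ, Fintype.card_prod, Fintype.card_bool, Fintype.card_option, nsmul_eq_mul]
      field_simp
      norm_num

theorem WW_mul {Ω : Type} [Fintype Ω] [DecidableEq Ω] (A : Finset (Finset (Ω × Ω)))
    (f g : Finset (Ω × Ω) → ℝ) (M : ℕ) (π : Ω → Ω) :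
    WW A f M π * WW A g M π = WW A (fun C => f C * g C) M π := by
  unfold WW
  split_ifs
  · rw [prod_mul_distrib]
  · simp

theorem isP_col2 {S S' : Fin n → Finset (Fin d)} {π : Fin n × Fin d → Fin n × Fin d} :
    π ∈ PP (col2 fun v => (S v, S' v)) ↔ π ∈ PP (colR (RR S)) ∧ π ∈ PP (colR (RR S')) := by
  simp only [mem_PP, IsP, colR_RR, col2, c2, Prod.mk.injEq, forall_and]
  tauto

theorem cpl_main (h0 : 0 < k) (hk : k < d) (hd : 3 ≤ d) {ε : ℝ} (hε : 0 < ε) :
    ∀ᶠ n : ℕ in atTop, Even (n * k) → Even (n * d) →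
      Cpl (RG (Fin n) k) (RG (Fin n) d) (· ≤ ·) (2 * ε) := by
  classical
  have c0 : 0 < 1 / (2 * (d : ℝ)) := by have : 0 < d := by omega
                                        positivity
  have hρ := rho_bd h0 hk hd
  obtain ⟨K, hK, k1⟩ := exists_K hd hε
  rw [← E_id h0 hk hd] at k1
  set E := E2 d k K fun c c' => T2 d k c.1 c'.1 * T2 d k c.2 c'.2 / (d - 1) with hE
  have h1 : ∀ᶠ η : ℝ in 𝓝 0, Real.exp (E0 d K + E - 2 * E1 d k K) * ((1 + η) * Real.exp (3 * η) *
      ((1 + η) * Real.exp (2 * η) * ((√(1 - 1 / (d - 1)))⁻¹ + η) + η)) < (1 + ε ^ 2) * (1 - η) ^ 2 :=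
    ContinuousAt.eventually_lt (by fun_prop) (by fun_prop) (by simpa using k1)
  obtain ⟨η, ⟨h1, η1⟩, η0⟩ := (((h1.and (gt_mem_nhds one_pos)).filter_mono
    nhdsWithin_le_nhds).and (self_mem_nhdsWithin (s := Set.Ioi 0))).exists
  have η0 : 0 < η := η0
  obtain ⟨M, m1, m2, m3⟩ := ((first_moment h0 hk hd K η0 η1).and ((second_moment h0 hk hd K η0).and
    (small_side d K hK c0 hε hρ))).exists
  filter_upwards [m1, m2, m3, simple_bounds (show 0 < d by omega) hK η0] with n m1 m2 m3 m4 e1 e2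
  set P := Fintype.piFinset fun _ : Fin n => TH d k with hP
  set W := fun (S : Fin n → Finset (Fin d)) => WW (CYs Prod.fst K) (fw (rho d k) (RR S)) M with hW
  let T := (P ×ˢ SP (Prod.fst : Fin n × Fin d → Fin n) univ).filter fun x => x.2 ∈ PP (colR (RR x.1))
  have s1 : ∀ F : (Fin n → Finset (Fin d)) × (Fin n × Fin d → Fin n × Fin d) → ℝ, ∑ x ∈ T, F x =
      ∑ S ∈ P, ∑ π ∈ (PP (colR (RR S))).filter (IsS Prod.fst univ), F (S, π) := fun F => by
    rw [sum_filter, sum_product]
    refine sum_congr rfl fun S _ => ?_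
    rw [← sum_filter]
    exact sum_congr (by ext; simp [mem_SP, and_comm]) fun _ _ => rfl
  have s2 : ∀ F : (Fin n → Finset (Fin d)) × (Fin n × Fin d → Fin n × Fin d) → ℝ, ∑ x ∈ T, F x =
      ∑ π ∈ SP Prod.fst univ, ∑ S ∈ P, if π ∈ PP (colR (RR S)) then F (S, π) else 0 := fun F => by
    rw [sum_filter, sum_product_right]
  have W0 : ∀ S π, 0 ≤ W S π := fun S π => (WW_bd one_le_two (fw_bd hρ _) M π).1
  have m0 : ∀ b, (0 : ℝ) < MM (n * mn d k b) := fun b => by
    exact_mod_cast MM_pos (even_mn hk.le e1 e2 b)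
  have m5 : (0 : ℝ) < MM (n * k) := m0 true
  have m6 : (0 : ℝ) < MM (n * (d - k)) := m0 false
  have m7 : (0 : ℝ) < MM (n * d) := by exact_mod_cast MM_pos e2
  have m8 : (0 : ℝ) < (TH d k).card := by
    rw [TH, card_powersetCard, card_univ, Fintype.card_fin]
    exact_mod_cast Nat.choose_pos hk.le
  have z1 : (TH d k).card ^ n * ((1 - η) * (MM (n * k) * MM (n * (d - k)) *
      Real.exp (E1 d k K - η))) ≤ ∑ x ∈ T, W x.1 x.2 := by
    rw [s1]
    refine le_trans (le_of_eq (by simp [hP])) (card_nsmul_le_sum _ _ _ fun S hS =>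
      (m1 e1 e2 S hS).trans (le_of_eq (sum_filter_of_ne fun π hπ h => by_contra fun h' =>
        h (WW_eq_zero (mem_PP.1 hπ) hK (fun C hC => if_pos hC) M h')).symm))
  have z0 : 0 < (TH d k).card ^ n * ((1 - η) * (MM (n * k) * MM (n * (d - k)) *
      Real.exp (E1 d k K - η))) := mul_pos (by positivity) (mul_pos (by linarith) (by positivity))
  have hR : ∀ S ∈ P, ∀ v, ((RR S).filter fun p => p.1 = v).card = k := fun S hS v => by
    rw [card_RR, mem_TH.1 (Fintype.mem_piFinset.1 hS v)]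
  refine cpl_of_weights _ _ _ T (fun x => W x.1 x.2) (fun x => Gr Prod.fst (res (RR x.1) x.2))
    (fun x => Gr Prod.fst x.2) (fun x _ => W0 _ _) (z0.trans_le z1) (fun x hx => ?_) ?_ ?_
  · obtain ⟨a1, a2⟩ := mem_filter.1 hx
    obtain ⟨a3, a4⟩ := mem_product.1 a1
    exact ⟨((mem_SP.1 a4).res (mem_PP.1 a2)).reg (hR _ a3), (mem_SP.1 a4).reg card_fst,
      Gr_res_le _ _⟩
  · simp only [sum_filter (s := T), s1]
    simp only [← sum_filter, sum_div, ← sum_sub_distrib]
    refine (sum_le_sum fun G _ => abs_sum_le_sum_abs _ _).trans ?_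
    rw [sum_comm, mul_sum]
    refine sum_le_sum fun S hS => ?_
    have := m3 _ _ Prod.fst (RR S) k (by simp) (mdl1 h0 hk e1 e2 hS) (hR S hS)
    simp only [sum_div] at this
    convert this using 5
  · have y1 := s2 fun x => W x.1 x.2
    have := chi (vert := (Prod.fst : Fin n × Fin d → Fin n)) (Q := univ) card_fst
      (fun π => ∑ S ∈ P, if π ∈ PP (colR (RR S)) then W S π else 0) hε.le (y1 ▸ z0.trans_le z1) ?_
    · rw [← y1] at this
      refine le_trans (le_of_eq (sum_congr rfl fun G _ => ?_)) this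
      congr 2
      rw [sum_filter, s2, sum_filter]
      refine sum_congr rfl fun π _ => ?_
      split_ifs with h <;> simp
    rw [← y1]
    have y2 : ∑ π ∈ SP Prod.fst univ, (∑ S ∈ P, if π ∈ PP (colR (RR S)) then W S π else 0) ^ 2 ≤
        ∑ ω ∈ Fintype.piFinset fun _ : Fin n => TT d k, ∑ π ∈ PP (col2 ω), WW (CYs Prod.fst K)
        (fun C => fw (rho d k) (RR fun v => (ω v).1) C * fw (rho d k) (RR fun v => (ω v).2) C) M π := by
      refine (sum_le_sum_of_subset_of_nonneg (subset_univ _) fun _ _ _ => sq_nonneg _).trans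
        (le_of_eq ?_)
      simp only [sq, sum_mul_sum, ← sum_product' P P]
      rw [sum_comm]
      refine sum_nbij' (fun x v => (x.1 v, x.2 v)) (fun ω => (fun v => (ω v).1, fun v => (ω v).2))
        ?_ ?_ (by simp) (by simp) fun x _ => ?_
      · simp +contextual [hP, TT]
      · simp +contextual [hP, TT, forall_and]
      · rw [← univ_inter (PP (col2 _)), ← filter_mem_eq_inter, sum_filter]
        refine sum_congr rfl fun π _ => ?_
        rw [← WW_mul]
        simp only [isP_col2, ite_and]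
        split_ifs <;> simp [hW]
    calc _ ≤ _ := mul_le_mul (m4 e2).1 (y2.trans (m2 e1 e2)) (sum_nonneg fun _ _ => sq_nonneg _)
          (by positivity)
      _ = Real.exp (E0 d K + E - 2 * E1 d k K) * ((1 + η) * Real.exp (3 * η) *
          ((1 + η) * Real.exp (2 * η) * ((√(1 - 1 / (d - 1)))⁻¹ + η) + η)) * ((TH d k).card ^ n *
          (MM (n * k) * MM (n * (d - k)) * Real.exp (E1 d k K - η))) ^ 2 := by
        rw [← hE, Nm, TT, card_product, show 3 * η = η + η + η by ring, two_mul (E1 d k K)]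
        simp only [Real.exp_add, Real.exp_sub, Nat.cast_mul, mul_pow]
        field_simp
      _ ≤ (1 + ε ^ 2) * (1 - η) ^ 2 * ((TH d k).card ^ n *
          (MM (n * k) * MM (n * (d - k)) * Real.exp (E1 d k K - η))) ^ 2 :=
        mul_le_mul_of_nonneg_right h1.le (sq_nonneg _)
      _ ≤ _ := by
        rw [mul_assoc, ← mul_pow, mul_left_comm]
        exact mul_le_mul_of_nonneg_left (pow_le_pow_left₀ z0.le z1 _) (by positivity)

end Pool.Agent.Lib.MP_d20c4f_pr
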