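import Pool.Agent.Lib.MP_d20c4f_pr.Poisson

/-!
Cycles given by cyclic sequences of turns.
-/

namespace Pool.Agent.Lib.MP_d20c4f_pr

open Finset

set_option linter.unusedSectionVars false

variable {Ω V κ : Type} [Fintype Ω] [DecidableEq Ω] [Fintype V] [DecidableEq V] {vert : Ω → V}
  {k : ℕ}

/-- A cyclic sequence of turns at distinct vertices. -/
def IsT (vert : Ω → V) (t : Fin (k + 1) → Ω × Ω) : Prop :=
  (∀ i, vert (t i).2 = vert (t i).1 ∧ (t i).1 ≠ (t i).2) ∧ Function.Injective fun i => vert (t i).1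

/-- The pairs of the cycle. -/
def toSet (t : Fin (k + 1) → Ω × Ω) : Finset (Ω × Ω) :=
  (univ.image fun i => ((t i).2, (t (i + 1)).1)) ∪ univ.image fun i => ((t (i + 1)).1, (t i).2)

theorem mem_toSet {t : Fin (k + 1) → Ω × Ω} {e : Ω × Ω} :
    e ∈ toSet t ↔ ∃ i, e = ((t i).2, (t (i + 1)).1) ∨ e = ((t (i + 1)).1, (t i).2) := by
  simp only [toSet, mem_union, mem_image, mem_univ, true_and, exists_or, eq_comm]

theorem cyc_ind {P : Fin (k + 1) → Prop} (i₀ : Fin (k + 1)) (h0 : P i₀) (hs : ∀ i, P i → P (i + 1))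
    (i : Fin (k + 1)) : P i := by
  have : ∀ j : Fin (k + 1), P (i₀ + j) := by
    intro j
    induction j using Fin.induction with
    | zero => simpa using h0
    | succ j ih =>
      rw [← Fin.coeSucc_eq_succ, ← add_assoc]
      exact hs _ ih
  simpa using this (i - i₀)

variable {t : Fin (k + 1) → Ω × Ω}

theorem IsT.e11 (h : IsT vert t) {i j} (e : (t i).1 = (t j).1) : i = j := h.2 (congrArg vert e)

theorem IsT.e22 (h : IsT vert t) {i j} (e : (t i).2 = (t j).2) : i = j :=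
  h.2 (by simp only [← (h.1 _).1, e])

theorem IsT.e12 (h : IsT vert t) (i j) : (t i).1 ≠ (t j).2 := fun e => by
  have : i = j := h.2 (by simp only [e, (h.1 j).1])
  subst this
  exact (h.1 i).2 e

theorem IsT.mt (h : IsT vert t) : Mt (toSet t) := by
  intro e he
  obtain ⟨i, rfl | rfl⟩ := mem_toSet.1 he
  · refine ⟨mem_toSet.2 ⟨i, Or.inr rfl⟩, (h.e12 _ _).symm, fun e' he' h1 => ?_⟩
    obtain ⟨j, rfl | rfl⟩ := mem_toSet.1 he'
    · rw [h.e22 h1]
    · exact (h.e12 _ _ h1).elim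
  · refine ⟨mem_toSet.2 ⟨i, Or.inl rfl⟩, h.e12 _ _, fun e' he' h1 => ?_⟩
    obtain ⟨j, rfl | rfl⟩ := mem_toSet.1 he'
    · exact (h.e12 _ _ h1.symm).elim
    · rw [add_right_cancel (h.e11 h1)]

theorem IsT.at (h : IsT vert t) (i : Fin (k + 1)) :
    ((toSet t).filter fun e => vert e.1 = vert (t (i + 1)).1) =
      {((t (i + 1)).2, (t (i + 1 + 1)).1), ((t (i + 1)).1, (t i).2)} := by
  ext e
  simp only [mem_filter, mem_toSet, mem_insert, mem_singleton]
  constructor
  · rintro ⟨⟨j, rfl | rfl⟩, h1⟩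
    · rw [(h.1 j).1] at h1
      rw [h.2 h1]
      exact Or.inl rfl
    · rw [add_right_cancel (h.2 h1)]
      exact Or.inr rfl
  · rintro (rfl | rfl)
    · exact ⟨⟨_, Or.inl rfl⟩, (h.1 _).1⟩
    · exact ⟨⟨_, Or.inr rfl⟩, rfl⟩

theorem IsT.vert_mem (h : IsT vert t) {e : Ω × Ω} (he : e ∈ toSet t) :
    ∃ i, vert e.1 = vert (t (i + 1)).1 := by
  obtain ⟨i, rfl | rfl⟩ := mem_toSet.1 he
  · exact ⟨i - 1, by rw [sub_add_cancel, (h.1 i).1]⟩
  · exact ⟨i, rfl⟩

theorem IsT.two (h : IsT vert t) : TwoReg vert (toSet t) := by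
  refine ⟨h.mt, fun e he => ?_⟩
  obtain ⟨i, hi⟩ := h.vert_mem he
  rw [hi, h.at, card_pair]
  exact fun e => h.e12 _ _ (congrArg Prod.fst e).symm

theorem IsT.cyc (h : IsT vert t) : Cyc vert (toSet t) := by
  refine ⟨⟨_, mem_toSet.2 ⟨0, Or.inl rfl⟩⟩, h.two, fun C hC ⟨e, he⟩ h2 => ?_⟩
  have h3 : ∀ e ∈ C, ∀ i, vert e.1 = vert (t (i + 1)).1 →
      ((t (i + 1)).2, (t (i + 1 + 1)).1) ∈ C ∧ ((t (i + 1)).1, (t i).2) ∈ C := by
    intro e he i hi
    have h4 : (C.filter fun e' => vert e'.1 = vert e.1) = (toSet t).filter fun e' =>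
        vert e'.1 = vert e.1 := eq_of_subset_of_card_le (filter_subset_filter _ hC)
      (by rw [h2.2 e he, h.two.2 e (hC he)])
    rw [hi, h.at] at h4
    exact ⟨(mem_filter.1 (h4.ge (by simp))).1, (mem_filter.1 (h4.ge (by simp))).1⟩
  obtain ⟨i, hi⟩ := h.vert_mem (hC he)
  have h5 : ∀ j, ((t j).2, (t (j + 1)).1) ∈ C := cyc_ind (i + 1) (h3 e he i hi).1 fun j hj =>
    (h3 _ (h2.1 _ hj).1 j rfl).1
  refine hC.antisymm fun e he => ?_
  obtain ⟨j, rfl | rfl⟩ := mem_toSet.1 he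
  · exact h5 j
  · exact (h2.1 _ (h5 j)).1

theorem IsT.prod_toSet {M : Type} [CommMonoid M] (h : IsT vert t) (g : Ω × Ω → M) :
    ∏ e ∈ toSet t, g e = ∏ i, (g ((t i).2, (t (i + 1)).1) * g ((t (i + 1)).1, (t i).2)) := by
  rw [toSet, prod_union, prod_image, prod_image, prod_mul_distrib]
  · exact fun i _ j _ e => h.e22 (Prod.mk.inj e).2
  · exact fun i _ j _ e => h.e22 (Prod.mk.inj e).1
  · refine disjoint_left.2 fun e h1 h2 => ?_
    obtain ⟨i, _, rfl⟩ := mem_image.1 h1
    obtain ⟨j, _, h2⟩ := mem_image.1 h2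
    exact h.e12 _ _ (congrArg Prod.fst h2)

theorem IsT.card (h : IsT vert t) : (toSet t).card = 2 * (k + 1) := by
  have := h.prod_toSet fun _ => (2 : ℕ)
  rw [prod_const, prod_const, ← sq, ← pow_mul, card_univ, Fintype.card_fin] at this
  exact Nat.pow_right_injective le_rfl this

theorem IsT.rot (h : IsT vert t) (i : Fin (k + 1)) :
    IsT vert (fun j => t (j + i)) ∧ toSet (fun j => t (j + i)) = toSet t := by
  refine ⟨⟨fun j => h.1 _, fun a b e => add_right_cancel (h.2 e)⟩, ?_⟩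
  ext e
  simp only [mem_toSet]
  constructor
  · rintro ⟨j, hj⟩
    exact ⟨j + i, by rwa [add_right_comm j i]⟩
  · rintro ⟨j, hj⟩
    exact ⟨j - i, by rwa [add_right_comm, sub_add_cancel]⟩

theorem IsT.rev (h : IsT vert t) (i : Fin (k + 1)) :
    IsT vert (fun j => (t (i - j)).swap) ∧ toSet (fun j => (t (i - j)).swap) = toSet t := by
  refine ⟨⟨fun j => ⟨(h.1 _).1.symm, (h.1 _).2.symm⟩, fun a b e => ?_⟩, ?_⟩
  · simp only [Prod.fst_swap, (h.1 _).1] at e
    exact sub_right_injective (h.2 e)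
  ext e
  simp only [mem_toSet, Prod.fst_swap, Prod.snd_swap]
  constructor
  · rintro ⟨j, hj⟩
    exact ⟨i - (j + 1), by rw [show i - (j + 1) + 1 = i - j by abel]; exact hj.symm⟩
  · rintro ⟨j, hj⟩
    refine ⟨i - (j + 1), ?_⟩
    rw [show i - (i - (j + 1) + 1) = j by abel, sub_sub_cancel]
    exact hj.symm

open Classical in
theorem IsT.fibre (h : IsT vert t) :
    ((univ.filter (IsT vert)).filter fun s : Fin (k + 1) → Ω × Ω => toSet s = toSet t).card =
      2 * (k + 1) := by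
  rw [← h.card]
  refine card_bij (fun s _ => ((s 0).2, (s (0 + 1)).1)) (fun s hs => ?_) ?_ ?_
  · rw [← (mem_filter.1 hs).2]
    exact mem_toSet.2 ⟨0, Or.inl rfl⟩
  · intro s hs s' hs' e
    simp only [mem_filter, mem_univ, true_and] at hs hs'
    have h1 : ∀ i, (s i).2 = (s' i).2 → (s (i + 1)).1 = (s' (i + 1)).1 := fun i hi =>
      congrArg Prod.snd ((h.mt _ (hs'.2 ▸ mem_toSet.2 ⟨i, Or.inl rfl⟩)).2.2 _
        (hs.2 ▸ mem_toSet.2 ⟨i, Or.inl rfl⟩) hi)
    have h2 : ∀ i, (s i).2 = (s' i).2 := cyc_ind 0 (congrArg Prod.fst e) fun i hi => by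
      have h3 := hs.1.at i
      have h4 := hs'.1.at i
      rw [hs.2, h1 i hi] at h3
      rw [hs'.2, h3] at h4
      have h5 := h4.le (mem_insert_self _ _)
      simp only [mem_insert, mem_singleton, Prod.mk.injEq] at h5
      rcases h5 with h5 | h5
      · exact h5.1
      · exact (hs.1.e12 _ _ ((h1 i hi).trans h5.1.symm)).elim
    funext i
    refine Prod.ext ?_ (h2 i)
    simpa using h1 (i - 1) (h2 _)
  · intro e he
    obtain ⟨i, rfl | rfl⟩ := mem_toSet.1 he
    · exact ⟨fun j => t (j + i), by simpa using h.rot i, by simp [add_comm]⟩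
    · exact ⟨fun j => (t (i + 1 - j)).swap, by simpa using h.rev (i + 1), by simp⟩

open Classical in
/-- The cycles with `k + 1` edges. -/
noncomputable def CY (vert : Ω → V) (k : ℕ) : Finset (Finset (Ω × Ω)) :=
  (univ.filter (IsT (k := k) vert)).image toSet

theorem mem_CY {C : Finset (Ω × Ω)} : C ∈ CY vert k ↔ ∃ t, IsT (k := k) vert t ∧ toSet t = C := by
  simp [CY]

/-- The cycles with at most `K` edges. -/
noncomputable def CYs (vert : Ω → V) (K : ℕ) : Finset (Finset (Ω × Ω)) := (range K).biUnion (CY vert)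

theorem CY_card {C : Finset (Ω × Ω)} (h : C ∈ CY vert k) : C.card = 2 * (k + 1) := by
  obtain ⟨t, ht, rfl⟩ := mem_CY.1 h
  exact ht.card

theorem CYs_cyc {K : ℕ} : ∀ C ∈ CYs vert K, Cyc vert C ∧ C.card ≤ 2 * K := by
  intro C hC
  obtain ⟨k, hk, h⟩ := mem_biUnion.1 hC
  obtain ⟨t, ht, rfl⟩ := mem_CY.1 h
  exact ⟨ht.cyc, by rw [ht.card]; have := mem_range.1 hk; omega⟩

theorem sum_CYs {K : ℕ} (g : Finset (Ω × Ω) → ℝ) :
    ∑ C ∈ CYs vert K, g C = ∑ k ∈ range K, ∑ C ∈ CY vert k, g C := by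
  refine sum_biUnion fun a _ b _ h => disjoint_left.2 fun C h1 h2 => h ?_
  have := (CY_card h1).symm.trans (CY_card h2)
  omega

open Classical in
theorem sum_CY (g : Finset (Ω × Ω) → ℝ) :
    ∑ t ∈ univ.filter (IsT (k := k) vert), g (toSet t) = (2 * (k + 1)) * ∑ C ∈ CY vert k, g C := by
  rw [CY, sum_comp g toSet, mul_sum]
  refine sum_congr rfl fun C hC => ?_
  obtain ⟨t, ht, rfl⟩ := mem_image.1 hC
  have := (mem_filter.1 ht).2.fibre
  rw [nsmul_eq_mul]
  congr 1
  exact_mod_cast this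

open Classical in
/-- The number of turns with given colours. -/
noncomputable def AT (vert : Ω → V) (col : Ω → κ) (c c' : κ) : ℕ :=
  (univ.filter fun e : Ω × Ω => (vert e.2 = vert e.1 ∧ e.1 ≠ e.2) ∧ col e.1 = c ∧ col e.2 = c').card

/-- The sum over cyclic colour patterns. -/
noncomputable def PS [Fintype κ] (k : ℕ) (T : κ → κ → ℝ) (φ : (Fin (k + 1) → κ) → ℝ) : ℝ :=
  ∑ c : Fin (k + 1) → κ, φ c * ∏ i, T (c i) (c (i + 1))

theorem mean [Fintype κ] {col : Ω → κ} {D : ℕ}
    (hD : ∀ v, (univ.filter fun p => vert p = v).card ≤ D) {τ B : ℝ} (h0 : 0 ≤ τ) (h1 : τ ≤ 1)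
    (ht : ∀ c, (√(NC col c))⁻¹ ≤ τ) (x : Finset (Ω × Ω) → ℝ) (φ : (Fin (k + 1) → κ) → ℝ)
    (hB0 : 0 ≤ B) (hB : ∀ c, |φ c| ≤ B)
    (hx : ∀ t, IsT vert t → Mono col (toSet t) → x (toSet t) = φ fun i => col (t i).2) :
    |(2 * (k + 1)) * ∑ C ∈ CY vert k, x C * pw col C -
      PS k (fun c c' => AT vert col c c' / NC col c) φ| ≤
      B * τ * (((k + 1) * D) ^ (2 * (k + 1)) : ℕ) * Real.exp (Fintype.card V * τ ^ 2) := by
  classical
  let w : (Fin (k + 1) → Ω × Ω) → ℝ := fun t => if ∀ i, col (t (i + 1)).1 = col (t i).2 then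
    φ (fun i => col (t i).2) * ∏ i, ((NC col (col (t i).2) : ℝ))⁻¹ else 0
  let T := univ.filter fun t : Fin (k + 1) → Ω × Ω => ∀ i, vert (t i).2 = vert (t i).1 ∧
    (t i).1 ≠ (t i).2
  have s1 : (2 * (k + 1)) * ∑ C ∈ CY vert k, x C * pw col C =
      ∑ t ∈ T.filter fun t => Function.Injective fun i => vert (t i).1, w t := by
    rw [← sum_CY, filter_filter]
    refine sum_congr (by ext; simp [IsT]) fun t ht => ?_
    have h : IsT vert t := (mem_filter.1 ht).2
    have h2 : Mono col (toSet t) ↔ ∀ i, col (t (i + 1)).1 = col (t i).2 :=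
      ⟨fun h i => h _ (mem_toSet.2 ⟨i, Or.inl rfl⟩), fun h e he => by
        obtain ⟨i, rfl | rfl⟩ := mem_toSet.1 he
        · exact h i
        · exact (h i).symm⟩
    simp only [w, pw, ← h2]
    split_ifs with h3
    · rw [hx t h h3, h.prod_toSet]
      congr 1
      refine prod_congr rfl fun i _ => ?_
      simp only [h2.1 h3 i]
      rw [← mul_inv, Real.mul_self_sqrt (by positivity)]
    · simp
  have s2 : PS k (fun c c' => AT vert col c c' / NC col c) φ = ∑ t ∈ T, w t := by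
    rw [← sum_fiberwise (g := fun t i => col (t i).2) (s := T), PS]
    refine sum_congr rfl fun c _ => ?_
    rw [prod_div_distrib, ← Nat.cast_prod, ← Equiv.prod_comp (Equiv.subRight (1 : Fin (k + 1)))]
    simp only [Equiv.subRight_apply, sub_add_cancel, AT]
    rw [← Fintype.card_piFinset, sum_congr rfl (g := fun t => if ∀ i, col (t (i + 1)).1 = col (t i).2
      then φ c * ∏ i, ((NC col (c i) : ℝ))⁻¹ else 0) fun t ht => by
        simp only [w, ← (mem_filter.1 ht).2], ← sum_filter, sum_const, nsmul_eq_mul,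
      prod_inv_distrib, div_eq_mul_inv, mul_left_comm]
    congr 3
    ext t
    simp only [T, Fintype.mem_piFinset, mem_filter, mem_univ, true_and, funext_iff]
    constructor
    · intro h
      exact ⟨⟨fun i => (h i).1, fun i => (h i).2.2⟩, fun i => by
        rw [(h _).2.1, (h _).2.2, add_sub_cancel_right]⟩
    · rintro ⟨⟨h1, h2⟩, h3⟩ i
      exact ⟨h1 i, by rw [← h2, ← h3, sub_add_cancel], h2 i⟩
  rw [s1, s2, ← sum_filter_add_sum_filter_not T fun t => Function.Injective fun i => vert (t i).1,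
    sub_add_cancel_left, abs_neg]
  refine (abs_sum_le_sum_abs _ _).trans (sum_small _ (fun t => univ.image fun i => vert (t i).1) _
    (by positivity) (sq_nonneg τ) (fun U => ?_) fun t ht' => ?_)
  · rcases Nat.lt_or_ge (k + 1) U.card with h | h
    · rw [filter_eq_empty_iff.2 fun t _ e => ?_]
      · simp
      · have : U.card ≤ k + 1 := by
          rw [← e]
          exact card_image_le.trans (by simp)
        omega
    let P := univ.filter fun p => vert p ∈ U
    refine (card_le_card (t := Fintype.piFinset fun _ => P ×ˢ P) fun t ht => ?_).trans ?_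
    · obtain ⟨h2, rfl⟩ := mem_filter.1 ht
      have h3 := (mem_filter.1 (mem_filter.1 h2).1).2
      refine Fintype.mem_piFinset.2 fun i => mem_product.2 ⟨?_, ?_⟩
      · exact mem_filter.2 ⟨mem_univ _, mem_image.2 ⟨i, mem_univ _, rfl⟩⟩
      · exact mem_filter.2 ⟨mem_univ _, mem_image.2 ⟨i, mem_univ _, (h3 i).1.symm⟩⟩
    · rw [Fintype.card_piFinset, prod_const, card_product, ← sq, ← pow_mul, card_univ,
        Fintype.card_fin]
      exact Nat.pow_le_pow_left ((card_pts hD U).trans (Nat.mul_le_mul_right _ h)) _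
  · have h2 : (univ.image fun i => vert (t i).1).card ≤ k := by
      have h3 : (univ.image fun i => vert (t i).1).card ≠ (univ : Finset (Fin (k + 1))).card :=
        fun e => (mem_filter.1 ht').2 (by simpa using card_image_iff.1 e)
      have h4 := card_image_le (s := univ) (f := fun i => vert (t i).1)
      simp only [card_univ, Fintype.card_fin] at h3 h4
      omega
    have h3 : ∏ i, ((NC col (col (t i).2) : ℝ))⁻¹ ≤ (τ ^ 2) ^ (k + 1) := by
      refine (prod_le_prod (fun _ _ => by positivity) fun i _ => (?_ : _ ≤ τ ^ 2)).trans (by simp)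
      rw [← Real.sq_sqrt (Nat.cast_nonneg (NC col _)), ← inv_pow]
      exact pow_le_pow_left₀ (by positivity) (ht _) _
    have h4 : (τ ^ 2) ^ (k + 1) ≤ τ * (τ ^ 2) ^ (univ.image fun i => vert (t i).1).card := by
      rw [← pow_mul, ← pow_mul, ← pow_succ']
      exact pow_le_pow_of_le_one h0 h1 (by omega)
    simp only [w]
    split_ifs
    · rw [abs_mul, abs_of_nonneg (a := ∏ _, _) (by positivity), mul_assoc]
      exact mul_le_mul (hB _) (h3.trans h4) (by positivity) hB0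
    · rw [abs_zero]
      positivity

end Pool.Agent.Lib.MP_d20c4f_pr
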