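import Pool.Agent.Lib.MP_d20c4f_pr.Big

/-!
All bounded degrees, complements, and the passage to probability mass functions.
-/

namespace Pool.Agent.Lib.MP_d20c4f_pr

open Finset Filter Topology

theorem RG_zero {V : Type} [Fintype V] [DecidableEq V] : RG V 0 = {⊥} := by
  ext G
  simp only [mem_RG, Set.ncard_eq_zero (Set.toFinite _), mem_singleton]
  refine ⟨fun h => ?_, fun h v => by simp [h]⟩
  ext u v
  exact ⟨fun e => (h u).le e, False.elim⟩

theorem RG_nonempty (d : ℕ) : ∀ᶠ n : ℕ in atTop, Even (n * d) → (RG (Fin n) d).Nonempty := by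
  rcases d.eq_zero_or_pos with rfl | hd
  · simp [RG_zero]
  filter_upwards [simple_bounds hd le_rfl one_half_pos] with n h e
  obtain ⟨σ, hσ⟩ := (h e).2 one_half_lt_one
  exact ⟨_, (mem_SP.1 hσ).reg card_fst⟩

theorem cpl_bdd {d k : ℕ} (hk : k ≤ d) (h12 : ¬ (k = 1 ∧ d = 2)) {ε : ℝ} (hε : 0 < ε) :
    ∀ᶠ n : ℕ in atTop, Even (n * k) → Even (n * d) →
      Cpl (RG (Fin n) k) (RG (Fin n) d) (· ≤ ·) (2 * ε) := by
  classical
  have h1 : ∀ n, (RG (Fin n) d).Nonempty → ∑ x ∈ RG (Fin n) d, |∑ _j ∈ (RG (Fin n) d).filter fun j =>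
      j = x, (1 : ℝ) - (∑ _j ∈ RG (Fin n) d, 1) / (RG (Fin n) d).card| ≤
      ε * ∑ _j ∈ RG (Fin n) d, 1 := fun n h => by
    have : ((RG (Fin n) d).card : ℝ) ≠ 0 := by exact_mod_cast h.card_pos.ne'
    rw [sum_eq_zero fun x hx => by
      rw [show ((RG (Fin n) d).filter fun j => j = x) = {x} by ext; simp +contextual [hx, iff_def]]
      simp [this]]
    positivity
  rcases hk.eq_or_lt with rfl | hk
  · filter_upwards [RG_nonempty k] with n h _ e
    exact cpl_of_weights _ _ _ (RG (Fin n) k) (fun _ => 1) (fun x => x) (fun x => x) (by simp)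
      (sum_pos (by simp) (h e)) (fun j hj => ⟨hj, hj, le_rfl⟩) (by convert h1 n (h e))
      (by convert h1 n (h e))
  rcases k.eq_zero_or_pos with rfl | h0
  · filter_upwards [RG_nonempty d] with n h _ e
    exact cpl_of_weights _ _ _ (RG (Fin n) d) (fun _ => 1) (fun _ => ⊥) (fun x => x) (by simp)
      (sum_pos (by simp) (h e)) (fun j hj => ⟨by simp [RG_zero], hj, bot_le⟩)
      (by simp only [RG_zero]; simp; positivity) (by convert h1 n (h e))
  exact cpl_main h0 hk (by omega) hε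

theorem compl_RG {n a : ℕ} (ha : a ≤ n - 1) {G : SimpleGraph (Fin n)} :
    Gᶜ ∈ RG (Fin n) (n - 1 - a) ↔ G ∈ RG (Fin n) a := by
  simp only [mem_RG]
  refine forall_congr' fun v => ?_
  have h1 := Set.ncard_add_ncard_compl (insert v (G.neighborSet v))
  rw [Set.ncard_insert_of_notMem (by simp), Nat.card_eq_fintype_card, Fintype.card_fin,
    show (insert v (G.neighborSet v))ᶜ = Gᶜ.neighborSet v by ext; simp [eq_comm]] at h1
  omega

theorem Cpl.compl {n a b : ℕ} (ha : a ≤ n - 1) (hb : b ≤ n - 1) {ε : ℝ}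
    (h : Cpl (RG (Fin n) (n - 1 - b)) (RG (Fin n) (n - 1 - a)) (· ≤ ·) ε) :
    Cpl (RG (Fin n) a) (RG (Fin n) b) (· ≤ ·) ε := by
  classical
  obtain ⟨h0, μ, m0, m1, m2, m3⟩ := h
  let e : SimpleGraph (Fin n) ≃ SimpleGraph (Fin n) := ⟨Compl.compl, Compl.compl, compl_compl, compl_compl⟩
  have c : ∀ a ≤ n - 1, (RG (Fin n) (n - 1 - a)).card = (RG (Fin n) a).card := fun a ha =>
    (card_equiv e fun G => (compl_RG ha).symm).symm
  refine ⟨?_, fun x y => μ yᶜ xᶜ, fun x y => m0 _ _, fun x => ?_, fun y => ?_, ?_⟩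
  · by_contra h
    have h1 : RG (Fin n) (n - 1 - a) = ∅ := by
      rw [← card_eq_zero, c a ha, card_eq_zero]
      exact not_nonempty_iff_eq_empty.1 h
    obtain ⟨x, hx⟩ := h0
    have h2 := m1 x
    rw [if_pos hx, sum_eq_zero fun y _ => (sum_eq_zero_iff_of_nonneg fun x _ => m0 x y).1
      (by rw [m2, h1]; simp) x (mem_univ _)] at h2
    exact (inv_pos.2 (by exact_mod_cast card_pos.2 ⟨x, hx⟩)).ne h2
  · rw [← c a ha, ← if_congr (compl_RG ha) rfl rfl, ← m2]
    exact e.sum_comp fun y => μ y xᶜ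
  · rw [← c b hb, ← if_congr (compl_RG hb) rfl rfl, ← m1]
    exact e.sum_comp fun x => μ yᶜ x
  · rw [sum_comm, ← e.sum_comp] at m3
    refine m3.trans (le_of_eq (sum_congr rfl fun x _ => ?_))
    rw [← e.sum_comp]
    exact sum_congr rfl fun y _ => if_congr compl_le_compl_iff_le rfl rfl

theorem Cpl.pmf {X : Type} [Fintype X] {A B : Finset X} {r : X → X → Prop} {ε : ℝ}
    (h : Cpl A B r ε) : ∃ μ : PMF (X × X),
      (∀ G ∈ A, ∀ H ∈ A, μ.map Prod.fst G = μ.map Prod.fst H) ∧ (∀ G ∉ A, μ.map Prod.fst G = 0) ∧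
      (∀ G ∈ B, ∀ H ∈ B, μ.map Prod.snd G = μ.map Prod.snd H) ∧ (∀ G ∉ B, μ.map Prod.snd G = 0) ∧
      ENNReal.ofReal (1 - ε) ≤ μ.toOuterMeasure {p | r p.1 p.2} := by
  classical
  obtain ⟨h0, μ, m0, m1, m2, m3⟩ := h
  have s : ∑ p : X × X, ENNReal.ofReal (μ p.1 p.2) = 1 := by
    rw [← ENNReal.ofReal_sum_of_nonneg fun p _ => m0 _ _, Fintype.sum_prod_type]
    simp only [m1]
    rw [← sum_filter, filter_mem_eq_inter, univ_inter, sum_const, nsmul_eq_mul, mul_inv_cancel₀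
      (by exact_mod_cast h0.card_pos.ne'), ENNReal.ofReal_one]
  have f1 : ∀ G, (PMF.ofFintype _ s).map Prod.fst G = ENNReal.ofReal (∑ y, μ G y) := fun G => by
    rw [PMF.map_apply, tsum_fintype, Fintype.sum_prod_type, ENNReal.ofReal_sum_of_nonneg
      fun p _ => m0 _ _, sum_comm]
    simp
  have f2 : ∀ G, (PMF.ofFintype _ s).map Prod.snd G = ENNReal.ofReal (∑ y, μ y G) := fun G => by
    rw [PMF.map_apply, tsum_fintype, Fintype.sum_prod_type, ENNReal.ofReal_sum_of_nonneg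
      fun p _ => m0 _ _]
    simp
  refine ⟨PMF.ofFintype _ s, fun G hG H hH => by rw [f1, f1, m1, m1, if_pos hG, if_pos hH],
    fun G hG => by rw [f1, m1, if_neg hG, ENNReal.ofReal_zero],
    fun G hG H hH => by rw [f2, f2, m2, m2, if_pos hG, if_pos hH],
    fun G hG => by rw [f2, m2, if_neg hG, ENNReal.ofReal_zero],
    (ENNReal.ofReal_le_ofReal m3).trans (le_of_eq ?_)⟩
  rw [PMF.toOuterMeasure_apply_fintype, ← Fintype.sum_prod_type', ENNReal.ofReal_sum_of_nonneg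
    fun p _ => by split_ifs <;> simp [m0]]
  refine sum_congr rfl fun p _ => ?_
  by_cases h : r p.1 p.2 <;> simp [h, Set.indicator]

theorem cpl_all (D : ℕ) {ε : ℝ} (hε : 0 < ε) : ∀ᶠ n : ℕ in atTop, ∀ a b : ℕ,
    b ≤ D ∨ n - 1 - a ≤ D → a ≤ b → b ≤ n - 1 → ¬ (a = 1 ∧ b = 2) → ¬ (a = n - 3 ∧ b = n - 2) →
    Even (a * n) → Even (b * n) → Cpl (RG (Fin n) a) (RG (Fin n) b) (· ≤ ·) ε := by
  have h1 : ∀ᶠ n : ℕ in atTop, ∀ d ∈ range (D + 1), ∀ k ∈ range (D + 1), k ≤ d → ¬ (k = 1 ∧ d = 2) →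
      Even (n * k) → Even (n * d) → Cpl (RG (Fin n) k) (RG (Fin n) d) (· ≤ ·) (2 * (ε / 2)) := by
    simp only [eventually_all_finset, eventually_imp_distrib_left]
    exact fun d _ k _ hk h => cpl_bdd hk h (half_pos hε)
  rw [mul_div_cancel₀ _ two_ne_zero] at h1
  filter_upwards [h1] with n h1 a b hD hab hb h12 h23 e1 e2
  rw [mul_comm] at e1 e2
  rcases hD with hD | hD
  · exact h1 b (mem_range.2 (by omega)) a (mem_range.2 (by omega)) hab h12 e1 e2
  have e3 : ∀ c ≤ n - 1, Even (n * c) → Even (n * (n - 1 - c)) := fun c hc e => by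
    rw [Nat.mul_sub]
    exact (Nat.even_sub (Nat.mul_le_mul_left _ hc)).2 (by simp [e, Nat.even_mul_pred_self])
  exact (h1 _ (mem_range.2 (by omega)) _ (mem_range.2 (by omega)) (by omega) (by omega) (e3 b hb e2)
    (e3 a (by omega) e1)).compl (by omega) hb

end Pool.Agent.Lib.MP_d20c4f_pr
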