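import Pool.Agent.Lib.MP_d20c4f_pr.Cycles

/-!
From pairings to regular graphs, and from approximate to exact couplings.
-/

namespace Pool.Agent.Lib.MP_d20c4f_pr

open Finset

set_option linter.unusedSectionVars false

variable {Ω V κ : Type} [Fintype Ω] [DecidableEq Ω] [Fintype V] [DecidableEq V] {vert : Ω → V}

/-- The graph of a pairing. -/
def Gr (vert : Ω → V) (σ : Ω → Ω) : SimpleGraph V :=
  SimpleGraph.fromRel fun u v => ∃ p, vert p = u ∧ vert (σ p) = v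

/-- A pairing of the points of `Q` without loops and repeated edges. -/
def IsS (vert : Ω → V) (Q : Finset Ω) (σ : Ω → Ω) : Prop :=
  (∀ p ∈ Q, σ p ∈ Q ∧ σ (σ p) = p ∧ vert (σ p) ≠ vert p ∧
    ∀ q ∈ Q, vert q = vert p → vert (σ q) = vert (σ p) → q = p) ∧ ∀ p ∉ Q, σ p = p

open Classical in
/-- The simple pairings of `Q`. -/
noncomputable def SP (vert : Ω → V) (Q : Finset Ω) : Finset (Ω → Ω) := univ.filter (IsS vert Q)

open Classical in
/-- The regular graphs. -/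
noncomputable def RG (V : Type) [Fintype V] [DecidableEq V] (k : ℕ) : Finset (SimpleGraph V) :=
  univ.filter fun G => ∀ v, (G.neighborSet v).ncard = k

theorem mem_SP {Q : Finset Ω} {σ : Ω → Ω} : σ ∈ SP vert Q ↔ IsS vert Q σ := by simp [SP]

theorem mem_RG {k : ℕ} {G : SimpleGraph V} : G ∈ RG V k ↔ ∀ v, (G.neighborSet v).ncard = k := by
  simp [RG]

variable {Q : Finset Ω} {σ : Ω → Ω} {k : ℕ}

theorem IsS.adj (h : IsS vert Q σ) {u v : V} :
    (Gr vert σ).Adj u v ↔ ∃ p ∈ Q, vert p = u ∧ vert (σ p) = v := by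
  rw [Gr, SimpleGraph.fromRel_adj]
  constructor
  · rintro ⟨h1, ⟨p, rfl, rfl⟩ | ⟨p, rfl, rfl⟩⟩
    · exact ⟨p, by_contra fun hp => h1 (by rw [h.2 p hp]), rfl, rfl⟩
    · have hp : p ∈ Q := by_contra fun hp => h1 (by rw [h.2 p hp])
      exact ⟨σ p, (h.1 p hp).1, rfl, by rw [(h.1 p hp).2.1]⟩
  · rintro ⟨p, hp, rfl, rfl⟩
    exact ⟨(h.1 p hp).2.2.1.symm, Or.inl ⟨p, rfl, rfl⟩⟩

theorem IsS.reg (h : IsS vert Q σ) (hQ : ∀ v, (Q.filter fun p => vert p = v).card = k) :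
    Gr vert σ ∈ RG V k := by
  refine mem_RG.2 fun v => ?_
  have : (Gr vert σ).neighborSet v = ((Q.filter fun p => vert p = v).image fun p => vert (σ p) :
      Finset V) := by
    ext w
    simp [h.adj, and_assoc]
  rw [this, Set.ncard_coe_finset, card_image_of_injOn, hQ]
  intro p hp q hq e
  simp only [coe_filter, Set.mem_ofPred_eq] at hp hq
  exact (h.1 q hq.1).2.2.2 p hp.1 (hp.2.trans hq.2.symm) e

theorem exists_S (hQ : ∀ v, (Q.filter fun p => vert p = v).card = k) {H : SimpleGraph V}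
    (hH : H ∈ RG V k) (φ : Ω → V) (h1 : ∀ p ∈ Q, H.Adj (vert p) (φ p))
    (h2 : ∀ p ∈ Q, ∀ q ∈ Q, vert q = vert p → φ q = φ p → q = p) :
    ∃ σ, IsS vert Q σ ∧ Gr vert σ = H ∧ ∀ p ∈ Q, vert (σ p) = φ p := by
  classical
  have h3 : ∀ u v, H.Adj u v → ∃ q ∈ Q, vert q = u ∧ φ q = v := by
    intro u v huv
    obtain ⟨q, hq, e⟩ := surjOn_of_injOn_of_card_le (s := Q.filter fun p => vert p = u)
      (t := (H.neighborSet u).toFinset) φ (fun p hp => by
        simp only [coe_filter, Set.mem_ofPred_eq] at hp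
        simpa [← hp.2] using h1 p hp.1) (fun p hp q hq e => by
        simp only [coe_filter, Set.mem_ofPred_eq] at hp hq
        exact h2 q hq.1 p hp.1 (hp.2.trans hq.2.symm) e)
      (by rw [hQ, ← Set.ncard_eq_toFinset_card', mem_RG.1 hH]) (show v ∈ _ by simpa using huv)
    simp only [coe_filter, Set.mem_ofPred_eq] at hq
    exact ⟨q, hq.1, hq.2, e⟩
  choose! g g1 g2 g3 using fun p (hp : p ∈ Q) => h3 _ _ (h1 p hp).symm
  have h4 : IsS vert Q fun p => if p ∈ Q then g p else p := by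
    refine ⟨fun p hp => ?_, fun p hp => by simp [hp]⟩
    simp only [hp, if_true, g1 p hp, true_and]
    refine ⟨h2 p hp _ (g1 _ (g1 p hp)) ?_ ?_, ?_, fun q hq e1 e2 => h2 p hp q hq e1 ?_⟩
    · rw [g2 _ (g1 p hp), g3 p hp]
    · rw [g3 _ (g1 p hp), g2 p hp]
    · rw [g2 p hp]
      exact (h1 p hp).ne'
    · rwa [if_pos hq, g2 q hq, g2 p hp] at e2
  refine ⟨_, h4, ?_, fun p hp => by simp [hp, g2 p hp]⟩
  ext u v
  rw [h4.adj]
  constructor
  · rintro ⟨p, hp, rfl, rfl⟩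
    simpa [hp, g2 p hp] using h1 p hp
  · intro h
    obtain ⟨q, hq, e1, e2⟩ := h3 u v h
    exact ⟨q, hq, e1, by simp [hq, g2 q hq, e2]⟩

open Classical in
theorem fib_le (hQ : ∀ v, (Q.filter fun p => vert p = v).card = k) {G H : SimpleGraph V}
    (hG : G ∈ RG V k) (hH : H ∈ RG V k) :
    ((SP vert Q).filter fun σ => Gr vert σ = G).card ≤
      ((SP vert Q).filter fun σ => Gr vert σ = H).card := by
  have h1 : ∀ v, ∃ τ : V → V, G.neighborSet v ⊆ τ ⁻¹' H.neighborSet v ∧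
      Set.InjOn τ (G.neighborSet v) := fun v => by
    have : Nonempty V := ⟨v⟩
    refine (Set.toFinite _).exists_injOn_of_encard_le ?_
    rw [← (Set.toFinite _).cast_ncard_eq, ← (Set.toFinite _).cast_ncard_eq, mem_RG.1 hG, mem_RG.1 hH]
  choose τ t1 t2 using h1
  have h2 : ∀ σ ∈ (SP vert Q).filter fun σ => Gr vert σ = G, ∀ p ∈ Q,
      vert (σ p) ∈ G.neighborSet (vert p) := fun σ hσ p hp => by
    rw [← (mem_filter.1 hσ).2]
    exact (mem_SP.1 (mem_filter.1 hσ).1).adj.2 ⟨p, hp, rfl, rfl⟩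
  refine card_le_card_of_forall_subsingleton
    (fun σ σ' => ∀ p ∈ Q, vert (σ' p) = τ (vert p) (vert (σ p))) (fun σ hσ => ?_) ?_
  · obtain ⟨σ', s1, s2, s3⟩ := exists_S hQ hH (fun p => τ (vert p) (vert (σ p)))
      (fun p hp => t1 _ (h2 σ hσ p hp)) fun p hp q hq e1 e2 =>
        ((mem_SP.1 (mem_filter.1 hσ).1).1 p hp).2.2.2 q hq e1
          (t2 (vert p) (e1 ▸ h2 σ hσ q hq) (h2 σ hσ p hp) (by rwa [e1] at e2))
    exact ⟨σ', mem_filter.2 ⟨mem_SP.2 s1, s2⟩, s3⟩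
  · rintro σ' _ σ₁ ⟨a1, a2⟩ σ₂ ⟨b1, b2⟩
    have h3 : ∀ p ∈ Q, vert (σ₁ p) = vert (σ₂ p) := fun p hp =>
      t2 _ (h2 _ a1 p hp) (h2 _ b1 p hp) ((a2 p hp).symm.trans (b2 p hp))
    have a := mem_SP.1 (mem_filter.1 a1).1
    have b := mem_SP.1 (mem_filter.1 b1).1
    funext p
    by_cases hp : p ∈ Q
    · refine (a.1 _ (b.1 p hp).1).2.2.2 _ (a.1 p hp).1 (h3 p hp) ?_
      rw [(a.1 p hp).2.1, h3 _ (b.1 p hp).1, (b.1 p hp).2.1]
    · rw [a.2 p hp, b.2 p hp]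

open Classical in
theorem chi (hQ : ∀ v, (Q.filter fun p => vert p = v).card = k) (Y : (Ω → Ω) → ℝ) {ε : ℝ}
    (hε : 0 ≤ ε) (hZ : 0 < ∑ σ ∈ SP vert Q, Y σ)
    (h : (SP vert Q).card * ∑ σ ∈ SP vert Q, Y σ ^ 2 ≤ (1 + ε ^ 2) * (∑ σ ∈ SP vert Q, Y σ) ^ 2) :
    ∑ G ∈ RG V k, |∑ σ ∈ (SP vert Q).filter fun σ => Gr vert σ = G, Y σ -
      (∑ σ ∈ SP vert Q, Y σ) / (RG V k).card| ≤ ε * ∑ σ ∈ SP vert Q, Y σ := by
  set Z := ∑ σ ∈ SP vert Q, Y σ with hZd
  have hm : ∀ σ ∈ SP vert Q, Gr vert σ ∈ RG V k := fun σ hσ => (mem_SP.1 hσ).reg hQ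
  obtain ⟨σ₀, h0⟩ := nonempty_of_sum_ne_zero hZ.ne'
  have hg : (0 : ℝ) < (RG V k).card := by exact_mod_cast card_pos.2 ⟨_, hm _ h0⟩
  set a : SimpleGraph V → ℝ := fun G => ∑ σ ∈ (SP vert Q).filter fun σ => Gr vert σ = G, Y σ with ha
  have h1 : ∑ G ∈ RG V k, a G = Z := sum_fiberwise_of_maps_to hm _
  have h2 : (RG V k).card * ∑ G ∈ RG V k, a G ^ 2 ≤ (SP vert Q).card * ∑ σ ∈ SP vert Q, Y σ ^ 2 := by
    rw [← sum_fiberwise_of_maps_to hm fun σ => Y σ ^ 2, mul_sum, mul_sum]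
    refine sum_le_sum fun G hG => ?_
    refine (mul_le_mul_of_nonneg_left sq_sum_le_card_mul_sum_sq hg.le).trans ?_
    rw [← mul_assoc]
    refine mul_le_mul_of_nonneg_right ?_ (sum_nonneg fun _ _ => sq_nonneg _)
    rw [card_eq_sum_card_fiberwise hm]
    exact_mod_cast card_nsmul_le_sum _ _ _ fun H hH => fib_le hQ hG hH
  refine abs_le_of_sq_le_sq' (sq_sum_le_card_mul_sum_sq.trans ?_) (by positivity) |>.2
  simp only [sq_abs, sub_sq, sum_add_distrib, sum_sub_distrib, sum_const, nsmul_eq_mul]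
  rw [← sum_mul, ← mul_sum, h1]
  have h3 : ((RG V k).card : ℝ) * (∑ G ∈ RG V k, a G ^ 2 - 2 * Z * (Z / (RG V k).card) +
      (RG V k).card * (Z / (RG V k).card) ^ 2) = (RG V k).card * ∑ G ∈ RG V k, a G ^ 2 - Z ^ 2 := by
    field_simp
    ring
  rw [h3]
  nlinarith

open Classical in
theorem fixup {X : Type} [Fintype X] (r : X → X → Prop) (w : X → X → ℝ) (u u' : X → ℝ) {ε : ℝ}
    (hw : ∀ x y, 0 ≤ w x y) (hr : ∀ x y, ¬ r x y → w x y = 0) (h1 : ∑ x, ∑ y, w x y = 1)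
    (hu : ∀ x, 0 ≤ u x) (hu' : ∀ x, 0 ≤ u' x) (su : ∑ x, u x = 1) (su' : ∑ x, u' x = 1)
    (e1 : ∑ x, |∑ y, w x y - u x| ≤ ε) (e2 : ∑ y, |∑ x, w x y - u' y| ≤ ε) :
    ∃ μ : X → X → ℝ, (∀ x y, 0 ≤ μ x y) ∧ (∀ x, ∑ y, μ x y = u x) ∧ (∀ y, ∑ x, μ x y = u' y) ∧
      1 - 2 * ε ≤ ∑ x, ∑ y, if r x y then μ x y else 0 := by
  have aux : ∀ a u : ℝ, 0 ≤ a → 0 ≤ u → ∃ α : ℝ, 0 ≤ α ∧ α ≤ 1 ∧ a * α ≤ u ∧ a * (1 - α) ≤ |a - u| := by
    intro a u ha hu
    rcases le_or_gt a u with h | h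
    · exact ⟨1, zero_le_one, le_rfl, by linarith, by simp⟩
    · have : 0 < a := hu.trans_lt h
      refine ⟨u / a, by positivity, (div_le_one this).2 h.le, by field_simp; rfl, ?_⟩
      rw [mul_sub, mul_one, mul_div_cancel₀ _ this.ne']
      exact le_abs_self _
  choose α a0 a1 a2 a3 using fun x => aux _ _ (sum_nonneg (s := univ) fun y _ => hw x y) (hu x)
  choose β b0 b1 b2 b3 using fun y => aux _ _ (sum_nonneg (s := univ) fun x _ => hw x y) (hu' y)
  let ν : X → X → ℝ := fun x y => w x y * α x * β y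
  have n0 : ∀ x y, 0 ≤ ν x y := fun x y => mul_nonneg (mul_nonneg (hw x y) (a0 x)) (b0 y)
  have r1 : ∀ x, 0 ≤ u x - ∑ y, ν x y := fun x => sub_nonneg.2 (le_trans (by
    rw [sum_mul]
    exact sum_le_sum fun y _ => mul_le_of_le_one_right (mul_nonneg (hw x y) (a0 x)) (b1 y)) (a2 x))
  have r2 : ∀ y, 0 ≤ u' y - ∑ x, ν x y := fun y => sub_nonneg.2 (le_trans (by
    rw [sum_mul]
    exact sum_le_sum fun x _ => mul_le_mul_of_nonneg_right
      (mul_le_of_le_one_right (hw x y) (a1 x)) (b0 y)) (b2 y))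
  set δ := 1 - ∑ x, ∑ y, ν x y with hδ
  have d1 : ∑ x, (u x - ∑ y, ν x y) = δ := by rw [sum_sub_distrib, su]
  have d2 : ∑ y, (u' y - ∑ x, ν x y) = δ := by rw [sum_sub_distrib, su', sum_comm]
  have d0 : 0 ≤ δ := d1 ▸ sum_nonneg fun x _ => r1 x
  refine ⟨fun x y => ν x y + (u x - ∑ y, ν x y) * (u' y - ∑ x, ν x y) / δ, fun x y => add_nonneg
    (n0 x y) (div_nonneg (mul_nonneg (r1 x) (r2 y)) d0), fun x => ?_, fun y => ?_, ?_⟩
  · rw [sum_add_distrib, ← sum_div, ← mul_sum, d2]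
    rcases d0.eq_or_lt with h | h
    · have := (sum_eq_zero_iff_of_nonneg fun x _ => r1 x).1 (d1.trans h.symm) x (mem_univ _)
      rw [this, zero_mul, zero_div]
      linarith
    · field_simp
      ring
  · rw [sum_add_distrib, ← sum_div, ← sum_mul _ (fun x => u x - ∑ y, ν x y), d1]
    rcases d0.eq_or_lt with h | h
    · have := (sum_eq_zero_iff_of_nonneg fun x _ => r2 x).1 (d2.trans h.symm) y (mem_univ _)
      rw [this, mul_zero, zero_div]
      linarith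
    · field_simp
      ring
  · calc 1 - 2 * ε ≤ ∑ x, ∑ y, w x y - ∑ x, (∑ y, w x y) * (1 - α x) -
            ∑ y, (∑ x, w x y) * (1 - β y) := by
          have := (sum_le_sum (s := univ) fun x _ => a3 x).trans e1
          have := (sum_le_sum (s := univ) fun x _ => b3 x).trans e2
          linarith
      _ ≤ _ := by
          simp only [sum_mul]
          rw [sum_comm (f := fun y x => w x y * (1 - β y)), ← sum_sub_distrib, ← sum_sub_distrib]
          refine sum_le_sum fun x _ => ?_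
          rw [← sum_sub_distrib, ← sum_sub_distrib]
          refine sum_le_sum fun y _ => ?_
          split_ifs with h
          · refine le_trans ?_ (le_add_of_nonneg_right (div_nonneg (mul_nonneg (r1 x) (r2 y)) d0))
            have := mul_nonneg (hw x y) (mul_nonneg (sub_nonneg.2 (a1 x)) (sub_nonneg.2 (b1 y)))
            simp only [ν]
            nlinarith
          · simp [hr x y h]

open Classical in
/-- Exact couplings of uniform distributions, with real weights. -/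
def Cpl {X : Type} [Fintype X] (A B : Finset X) (r : X → X → Prop) (ε : ℝ) : Prop :=
  A.Nonempty ∧ ∃ μ : X → X → ℝ, (∀ x y, 0 ≤ μ x y) ∧
    (∀ x, ∑ y, μ x y = if x ∈ A then (A.card : ℝ)⁻¹ else 0) ∧
    (∀ y, ∑ x, μ x y = if y ∈ B then (B.card : ℝ)⁻¹ else 0) ∧
    1 - ε ≤ ∑ x, ∑ y, if r x y then μ x y else 0

open Classical in
theorem cpl_of_weights {X J : Type} [Fintype X] (A B : Finset X) (r : X → X → Prop) (T : Finset J)
    (W : J → ℝ) (g g' : J → X) {ε : ℝ} (hW : ∀ j ∈ T, 0 ≤ W j) (hZ : 0 < ∑ j ∈ T, W j)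
    (hg : ∀ j ∈ T, g j ∈ A ∧ g' j ∈ B ∧ r (g j) (g' j))
    (e1 : ∑ x ∈ A, |∑ j ∈ T.filter fun j => g j = x, W j - (∑ j ∈ T, W j) / A.card| ≤
      ε * ∑ j ∈ T, W j)
    (e2 : ∑ x ∈ B, |∑ j ∈ T.filter fun j => g' j = x, W j - (∑ j ∈ T, W j) / B.card| ≤
      ε * ∑ j ∈ T, W j) : Cpl A B r (2 * ε) := by
  set Z := ∑ j ∈ T, W j with hZd
  obtain ⟨j₀, h0⟩ := nonempty_of_sum_ne_zero hZ.ne'
  have hA : A.Nonempty := ⟨_, (hg _ h0).1⟩
  have hB : B.Nonempty := ⟨_, (hg _ h0).2.1⟩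
  have su : ∀ A : Finset X, A.Nonempty → ∑ x, (if x ∈ A then (A.card : ℝ)⁻¹ else 0) = 1 := by
    intro A hA
    rw [← sum_filter, filter_mem_eq_inter, univ_inter, sum_const, nsmul_eq_mul, mul_inv_cancel₀]
    exact_mod_cast hA.card_pos.ne'
  have ee : ∀ (A : Finset X) (g : J → X), (∀ j ∈ T, g j ∈ A) →
      ∑ x ∈ A, |∑ j ∈ T.filter fun j => g j = x, W j - Z / A.card| ≤ ε * Z →
      ∑ x, |(∑ j ∈ T.filter fun j => g j = x, W j) / Z - if x ∈ A then (A.card : ℝ)⁻¹ else 0| ≤ ε := by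
    intro A g hg e
    rw [← div_le_iff₀ hZ, sum_div] at e
    rw [← sum_subset (subset_univ A) fun x _ hx => by
      rw [filter_eq_empty_iff.2 fun j hj (e : g j = x) => hx (e ▸ hg j hj), if_neg hx]
      simp]
    refine le_trans (sum_le_sum fun x hx => le_of_eq ?_) e
    rw [if_pos hx, ← abs_of_pos hZ, ← abs_div, abs_of_pos hZ, sub_div]
    congr 2
    field_simp
  let w : X → X → ℝ := fun x y => (∑ j ∈ T.filter fun j => g j = x ∧ g' j = y, W j) / Z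
  have m1 : ∀ x, ∑ y, w x y = (∑ j ∈ T.filter fun j => g j = x, W j) / Z := fun x => by
    rw [← sum_div, ← sum_fiberwise (T.filter fun j => g j = x) g']
    simp only [filter_filter]
  have m2 : ∀ y, ∑ x, w x y = (∑ j ∈ T.filter fun j => g' j = y, W j) / Z := fun x => by
    rw [← sum_div, ← sum_fiberwise (T.filter fun j => g' j = x) g]
    simp only [filter_filter, and_comm]
  refine ⟨hA, fixup r w _ _ (fun x y => div_nonneg (sum_nonneg fun j hj => hW j (mem_filter.1 hj).1)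
    hZ.le) (fun x y h => ?_) ?_ (fun x => by positivity) (fun x => by positivity) (su A hA) (su B hB)
    ?_ ?_⟩
  · simp only [w]
    rw [filter_eq_empty_iff.2 fun j hj (e : g j = x ∧ g' j = y) => h (e.1 ▸ e.2 ▸ (hg j hj).2.2), sum_empty, zero_div]
  · simp only [m1]
    rw [← sum_div, sum_fiberwise T g W, div_self hZ.ne']
  · simp only [m1]
    exact ee A g (fun j hj => (hg j hj).1) e1
  · simp only [m2]
    exact ee B g' (fun j hj => (hg j hj).2.1) e2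

end Pool.Agent.Lib.MP_d20c4f_pr
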