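import Pool.Agent.Lib.MP_d20c4f_pr.H53Defs

/-!
Sums and products over pairs, the angle measure, elementary facts on the parameters.
-/

namespace Pool.Agent.Lib.MP_d20c4f_pr.H53

open MeasureTheory Complex Finset

section Pairs

variable {n : ℕ}

theorem card_inc (v : Fin n) :
    (univ.filter fun e : Pr2 n => e.1.1 = v ∨ e.1.2 = v).card = n - 1 := by
  have h : (univ.erase v).card = n - 1 := by simp
  rw [← h]
  refine card_bij (fun e _ => if e.1.1 = v then e.1.2 else e.1.1) ?_ ?_ ?_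
  · rintro ⟨⟨a, b⟩, hab⟩ he
    simp only [mem_filter, mem_univ, true_and] at he
    simp only [mem_erase, mem_univ, and_true]
    split_ifs with h1
    · exact (h1 ▸ hab : v < b).ne'
    · exact h1
  · rintro ⟨⟨a, b⟩, hab⟩ he ⟨⟨c, d⟩, hcd⟩ he' h
    simp only [mem_filter, mem_univ, true_and] at he he' h hab hcd
    simp only [Subtype.mk.injEq, Prod.mk.injEq]
    split_ifs at h with h1 h2 h2 <;> omega
  · intro u hu
    simp only [mem_erase, mem_univ, and_true] at hu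
    rcases lt_or_gt_of_ne hu with h | h
    · exact ⟨⟨(u, v), h⟩, by simp, by simp [hu]⟩
    · exact ⟨⟨(v, u), h⟩, by simp, by simp⟩

theorem prod_pairs_inc {M : Type} [CommMonoid M] (a : Pr2 n → Fin n → M) :
    ∏ e : Pr2 n, a e e.1.1 * a e e.1.2 =
      ∏ v, ∏ e ∈ univ.filter fun e : Pr2 n => e.1.1 = v ∨ e.1.2 = v, a e v := by
  rw [prod_comm' (t' := univ) (s' := fun e : Pr2 n => {e.1.1, e.1.2})
    (by intro v e; simp [eq_comm])]
  exact prod_congr rfl fun e _ => (prod_pair e.2.ne).symm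

theorem prod_pairs {M : Type} [CommMonoid M] (a : Fin n → M) :
    ∏ e : Pr2 n, a e.1.1 * a e.1.2 = ∏ v, a v ^ (n - 1) := by
  rw [prod_pairs_inc fun _ v => a v]
  simp only [prod_const, card_inc]

theorem sum_pairs {R : Type} [CommSemiring R] (x : Fin n → R) :
    ∑ e : Pr2 n, (x e.1.1 + x e.1.2) = ((n - 1 : ℕ) : R) * ∑ v, x v := by
  have := prod_pairs (M := Multiplicative R) fun v => Multiplicative.ofAdd (x v)
  have h2 := congrArg Multiplicative.toAdd this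
  simpa [toAdd_prod, mul_sum] using h2

theorem sum_pairs_mul {R : Type} [CommRing R] (x y : Fin n → R) :
    ∑ e : Pr2 n, (x e.1.1 * y e.1.2 + y e.1.1 * x e.1.2) =
      (∑ v, x v) * (∑ v, y v) - ∑ v, x v * y v := by
  have h1 : ∀ F : Fin n × Fin n → R, ∑ e : Pr2 n, F e.1 =
      ∑ e ∈ univ.filter fun e : Fin n × Fin n => e.1 < e.2, F e := fun F =>
    (sum_subtype _ (by simp) F).symm
  rw [h1 fun e => x e.1 * y e.2 + y e.1 * x e.2, sum_add_distrib, sum_mul_sum,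
    ← Fintype.sum_prod_type' fun i j => x i * y j, eq_sub_iff_add_eq]
  have h2 : ∑ e ∈ univ.filter fun e : Fin n × Fin n => e.1 < e.2, y e.1 * x e.2 =
      ∑ e ∈ univ.filter fun e : Fin n × Fin n => e.2 < e.1, x e.1 * y e.2 :=
    sum_equiv (Equiv.prodComm _ _) (by simp) (by simp [mul_comm])
  have h3 : ∑ v, x v * y v = ∑ e ∈ univ.filter fun e : Fin n × Fin n => e.1 = e.2, x e.1 * y e.2 := by
    rw [sum_filter, Fintype.sum_prod_type]
    simp
  rw [h2, h3, sum_filter, sum_filter, sum_filter, ← sum_add_distrib, ← sum_add_distrib]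
  refine sum_congr rfl fun e _ => ?_
  rcases lt_trichotomy e.1 e.2 with h | h | h
  · simp [h, h.ne, h.le]
  · simp [h]
  · simp [h, h.ne', h.le]

theorem card_pairs : 2 * Fintype.card (Pr2 n) = n * (n - 1) := by
  have := sum_pairs (n := n) (R := ℕ) fun _ => 1
  simpa [mul_comm] using this

theorem sum_cnt {Sg : Type} [DecidableEq Sg] [Fintype Sg] (c : Pr2 n → Sg) (v : Fin n) :
    ∑ σ, cnt c v σ = n - 1 := by
  rw [← card_inc v, card_eq_sum_card_fiberwise (f := c) (t := univ) (by simp)]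
  simp only [cnt, filter_filter]

theorem prod_cnt {Sg M : Type} [DecidableEq Sg] [Fintype Sg] [CommMonoid M] (c : Pr2 n → Sg)
    (a : Sg → Fin n → M) :
    ∏ e : Pr2 n, a (c e) e.1.1 * a (c e) e.1.2 = ∏ v, ∏ σ, a σ v ^ cnt c v σ := by
  rw [prod_pairs_inc fun e v => a (c e) v]
  refine prod_congr rfl fun v _ => ?_
  rw [← prod_fiberwise (g := c)]
  refine prod_congr rfl fun σ _ => ?_
  rw [prod_congr rfl (g := fun _ => a σ v) fun e he => by rw [(mem_filter.1 he).2], prod_const,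
    filter_filter]
  rfl

/-- The Gaussian factor splits into one-vertex and two-vertex factors. -/
theorem gauss_split {ι : Type} [Fintype ι] (g : ι → ℂ) (s : ι → Fin n → ℂ) :
    -(∑ i, (g i - ∑ v, s i v) ^ 2) / 2 = -(∑ i, g i ^ 2) / 2 +
      ∑ v, (∑ i, g i * s i v - (∑ i, s i v ^ 2) / 2) - ∑ e : Pr2 n, ∑ i, s i e.1.1 * s i e.1.2 := by
  have h : ∀ i, ∑ e : Pr2 n, s i e.1.1 * s i e.1.2 = ((∑ v, s i v) ^ 2 - ∑ v, s i v ^ 2) / 2 := by
    intro i
    have := sum_pairs_mul (s i) (s i)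
    simp only [← two_mul, ← mul_sum, ← sq] at this
    rw [← this]
    ring
  rw [sum_comm (f := fun (e : Pr2 n) i => s i e.1.1 * s i e.1.2), sum_sub_distrib, ← sum_div,
    sum_comm (f := fun v i => g i * s i v), sum_comm (f := fun v i => s i v ^ 2)]
  simp only [h, ← mul_sum, sub_sq, sum_add_distrib, sum_sub_distrib, ← sum_div, mul_assoc]
  ring

end Pairs

section Angle

instance : IsProbabilityMeasure ang := ⟨by
  have h : ENNReal.ofReal (2 * Real.pi) ≠ 0 := by simp [Real.pi_pos]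
  simp only [ang, Measure.smul_apply, MeasurableSet.univ, Measure.restrict_apply, Set.univ_inter,
    Real.volume_Ioc, smul_eq_mul]
  rw [show Real.pi - -Real.pi = 2 * Real.pi by ring]
  exact ENNReal.inv_mul_cancel h ENNReal.ofReal_ne_top⟩

instance : IsProbabilityMeasure ang3 := by unfold ang3; infer_instance

theorem integral_ang {V : Type} [NormedAddCommGroup V] [NormedSpace ℝ V] (f : ℝ → V) :
    ∫ θ, f θ ∂ang = (2 * Real.pi)⁻¹ • ∫ θ in -Real.pi..Real.pi, f θ := by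
  rw [ang, integral_smul_measure, intervalIntegral.integral_of_le (by linarith [Real.pi_pos])]
  simp [ENNReal.toReal_ofReal Real.pi_pos.le]

theorem ae_ang : ∀ᵐ θ ∂ang, |θ| ≤ Real.pi := by
  refine Measure.ae_smul_measure ?_ _
  filter_upwards [ae_restrict_mem measurableSet_Ioc] with θ h
  exact abs_le.2 ⟨h.1.le, h.2⟩

@[simp] theorem norm_E (θ : ℝ) : ‖E θ‖ = 1 := norm_exp_ofReal_mul_I θ

theorem E_ne (θ : ℝ) : E θ ≠ 0 := exp_ne_zero _

@[fun_prop] theorem continuous_E : Continuous E := by unfold E; fun_prop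

theorem E_re (θ : ℝ) : (E θ).re = Real.cos θ := exp_ofReal_mul_I_re θ

theorem norm_E_sub_one_sq (θ : ℝ) : ‖E θ - 1‖ ^ 2 = 2 * (1 - Real.cos θ) := by
  have h1 := exp_ofReal_mul_I_re θ
  have h2 := exp_ofReal_mul_I_im θ
  rw [Complex.sq_norm, normSq_apply]
  simp only [sub_re, sub_im, one_re, one_im, E, h1, h2]
  nlinarith [Real.sin_sq_add_cos_sq θ]

theorem norm_E_sub_one_le (θ : ℝ) : ‖E θ - 1‖ ≤ 2 :=
  (norm_sub_le _ _).trans (by norm_num)

@[fun_prop] theorem continuous_pt (R : ℝ) : Continuous (pt R) := by unfold pt; fun_prop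

theorem Bd.mul {Ω : Type} [MeasurableSpace Ω] {F G : Ω → ℂ} (hF : Bd F) (hG : Bd G) :
    Bd fun ω => F ω * G ω := by
  obtain ⟨h1, C, h2⟩ := hF
  obtain ⟨h3, C', h4⟩ := hG
  exact ⟨h1.mul h3, C * C', fun ω => (norm_mul_le _ _).trans
    (mul_le_mul (h2 ω) (h4 ω) (norm_nonneg _) ((norm_nonneg _).trans (h2 ω)))⟩

theorem Bd.indicator {Ω : Type} [MeasurableSpace Ω] {F : Ω → ℂ} (hF : Bd F) {S : Set Ω}
    (hS : MeasurableSet S) : Bd (S.indicator F) := by
  obtain ⟨h1, C, h2⟩ := hF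
  exact ⟨h1.indicator hS, C, fun ω => (norm_indicator_le_norm_self _ _).trans (h2 ω)⟩

theorem Bd.integrable {Ω : Type} [MeasurableSpace Ω] {F : Ω → ℂ} (hF : Bd F) (ν : Measure Ω)
    [IsFiniteMeasure ν] : Integrable F ν := by
  obtain ⟨h1, C, h2⟩ := hF
  exact Integrable.of_bound h1.aestronglyMeasurable C (.of_forall h2)

/-- A function that is continuous on the torus gives a bounded measurable function of the angles. -/
theorem Bd_pt {R : ℝ} (hR : 0 ≤ R) {F : ℂ × ℂ × ℂ → ℂ}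
    (hF : ContinuousOn F {w | ‖w.1‖ = 1 ∧ ‖w.2.1‖ = R ∧ ‖w.2.2‖ = R}) : Bd fun θ => F (pt R θ) := by
  have hm : ∀ θ, pt R θ ∈ {w : ℂ × ℂ × ℂ | ‖w.1‖ = 1 ∧ ‖w.2.1‖ = R ∧ ‖w.2.2‖ = R} := fun θ => by
    simp [pt, abs_of_nonneg hR]
  have hc : IsCompact {w : ℂ × ℂ × ℂ | ‖w.1‖ = 1 ∧ ‖w.2.1‖ = R ∧ ‖w.2.2‖ = R} := by
    convert (isCompact_sphere (0 : ℂ) 1).prod ((isCompact_sphere (0 : ℂ) R).prod
      (isCompact_sphere (0 : ℂ) R)) using 1
    ext w
    simp
  obtain ⟨C, hC⟩ := hc.exists_bound_of_continuousOn hF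
  exact ⟨(hF.comp_continuous (continuous_pt R) hm).measurable, C, fun θ => hC _ (hm θ)⟩

theorem Bd_E {R : ℝ} (hR : 0 ≤ R) {F : ℂ → ℂ} (hF : ContinuousOn F {w | ‖w‖ = R}) :
    Bd fun θ : ℝ => F (R * E θ) := by
  have hm : ∀ θ, (R : ℂ) * E θ ∈ {w : ℂ | ‖w‖ = R} := fun θ => by simp [abs_of_nonneg hR]
  have hc : IsCompact {w : ℂ | ‖w‖ = R} := by
    convert isCompact_sphere (0 : ℂ) R using 1
    ext w
    simp
  obtain ⟨C, hC⟩ := hc.exists_bound_of_continuousOn hF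
  exact ⟨(hF.comp_continuous (by fun_prop) hm).measurable, C, fun θ => hC _ (hm θ)⟩

end Angle

section Params

theorem kap_nonneg (D k : ℕ) : 0 ≤ kap D k := by unfold kap; positivity

theorem kap_pos {D k : ℕ} (h1 : 1 ≤ k) (h2 : k ≤ D) : 0 < kap D k :=
  div_pos (by exact_mod_cast h1) (by exact_mod_cast h1.trans h2)

theorem kap_le {D k c : ℕ} (hc : 1 ≤ c) (h : c * k ≤ D) : kap D k ≤ 1 / c := by
  rcases D.eq_zero_or_pos with rfl | hD
  · simp [kap]
  · rw [kap, div_le_div_iff₀ (by exact_mod_cast hD) (by exact_mod_cast hc), one_mul, mul_comm]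
    exact_mod_cast h

theorem mul_kap {D k : ℕ} (hD : 1 ≤ D) : (D : ℝ) * kap D k = k := by
  have : (D : ℝ) ≠ 0 := by positivity
  unfold kap
  field_simp

theorem lam_eq {D k : ℕ} (hD : 1 ≤ D) : lam D k = k * (1 - kap D k) := by
  rw [lam, ← mul_assoc, mul_kap hD]

theorem lam_bounds {D k : ℕ} (h1 : 1 ≤ k) (h2 : 2 * k ≤ D) :
    (k : ℝ) / 2 ≤ lam D k ∧ lam D k ≤ k := by
  have h3 := kap_le (c := 2) (by norm_num) h2
  have h4 := kap_nonneg D k
  have h5 : (0 : ℝ) ≤ k := by positivity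
  rw [lam_eq (by omega)]
  push_cast at h3
  constructor <;> nlinarith

theorem sc_nonneg (N D k : ℕ) : 0 ≤ sc N D k := Real.sqrt_nonneg _

theorem sc_sq {N D k : ℕ} (h1 : 1 ≤ k) (h2 : 2 * k ≤ D) : sc N D k ^ 2 = lam D k / N := by
  have := (lam_bounds h1 h2).1
  exact Real.sq_sqrt (div_nonneg (le_trans (by positivity) this) (by positivity))

theorem Bn_pos {D k : ℕ} (h1 : 1 ≤ k) (h2 : 2 * k ≤ D) : 0 < Bn D k := by
  have h3 := kap_le (c := 2) (by norm_num) h2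
  have h4 := kap_pos h1 (show k ≤ D by omega)
  have h5 : (0 : ℝ) < D.choose k := by exact_mod_cast Nat.choose_pos (by omega)
  have h6 : 0 < 1 - kap D k := by push_cast at h3; linarith
  unfold Bn
  positivity

theorem Af_sub_one (D k : ℕ) (w : ℂ) : Af D k w - 1 = kap D k * (w - 1) := by unfold Af; ring

theorem norm_Af_sub_one (D k : ℕ) (w : ℂ) : ‖Af D k w - 1‖ = kap D k * ‖w - 1‖ := by
  rw [Af_sub_one, norm_mul, norm_real, Real.norm_of_nonneg (kap_nonneg D k)]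

theorem Af_ne {D k : ℕ} {w : ℂ} (h : kap D k * ‖w - 1‖ < 1) : Af D k w ≠ 0 := by
  intro h0
  rw [← norm_Af_sub_one, h0] at h
  simp at h

theorem Af_ne_of_norm {D k : ℕ} {w : ℂ} {R : ℝ} (hw : ‖w‖ ≤ R) (h : kap D k * (R + 1) < 1) :
    Af D k w ≠ 0 :=
  Af_ne (lt_of_le_of_lt (mul_le_mul_of_nonneg_left ((norm_sub_le _ _).trans (by simpa using hw))
    (kap_nonneg D k)) h)

@[fun_prop] theorem continuous_Af (D k : ℕ) : Continuous (Af D k) := by unfold Af; fun_prop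

@[fun_prop] theorem differentiable_Af (D k : ℕ) : Differentiable ℂ (Af D k) := by
  unfold Af; fun_prop

namespace Par

variable {P : Par}

theorem Ok.n_eq (h : P.Ok) : P.n = P.N + 1 := by have := h.dN; unfold N; omega

theorem Ok.d4 (h : P.Ok) : 4 ≤ P.d := by have := h.k1; have := h.kd; omega

theorem Ok.dN' (h : P.Ok) : 2 * P.d ≤ P.N := by have := h.dN; unfold N; omega

theorem Ok.D1_bounds (h : P.Ok) : P.d ≤ P.D1 ∧ P.D1 ≤ P.N := by
  have h1 := h.t1; have h2 := h.u1; have h3 := h.s1; have h4 := h.dN'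
  unfold D1
  interval_cases P.t1 <;> interval_cases P.u1 <;> omega

theorem Ok.D2_bounds (h : P.Ok) : P.d ≤ P.D2 ∧ P.D2 ≤ P.N := by
  have h1 := h.t2; have h2 := h.u2; have h3 := h.s2; have h4 := h.dN'
  unfold D2
  interval_cases P.t2 <;> interval_cases P.u2 <;> omega

theorem Ok.kD1 (h : P.Ok) : 4 * P.k ≤ P.D1 := h.kd.trans h.D1_bounds.1

theorem Ok.kD2 (h : P.Ok) : 4 * P.k ≤ P.D2 := h.kd.trans h.D2_bounds.1

theorem Ok.kap0 (h : P.Ok) : 0 < kap P.N P.d ∧ kap P.N P.d ≤ 1 / 2 :=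
  ⟨kap_pos (by have := h.d4; omega) (by have := h.dN'; omega),
    by simpa using kap_le (c := 2) (by norm_num) h.dN'⟩

theorem Ok.kap1 (h : P.Ok) : 0 < kap P.D1 P.k ∧ kap P.D1 P.k ≤ 1 / 4 :=
  ⟨kap_pos h.k1 (by have := h.kD1; omega), by simpa using kap_le (c := 4) (by norm_num) h.kD1⟩

theorem Ok.kap2 (h : P.Ok) : 0 < kap P.D2 P.k ∧ kap P.D2 P.k ≤ 1 / 4 :=
  ⟨kap_pos h.k1 (by have := h.kD2; omega), by simpa using kap_le (c := 4) (by norm_num) h.kD2⟩

theorem Ok.D1_div (h : P.Ok) :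
    (P.D1 : ℝ) / P.N = (1 - kap P.N P.d) * P.t1 + kap P.N P.d * P.u1 := by
  have h1 := h.dN'
  have h2 : (P.N : ℝ) ≠ 0 := by have := h.d4; exact_mod_cast (by omega : P.N ≠ 0)
  rw [D1, kap]
  push_cast [Nat.cast_sub (show P.d ≤ P.N by omega)]
  field_simp

theorem Ok.D2_div (h : P.Ok) :
    (P.D2 : ℝ) / P.N = (1 - kap P.N P.d) * P.t2 + kap P.N P.d * P.u2 := by
  have h1 := h.dN'
  have h2 : (P.N : ℝ) ≠ 0 := by have := h.d4; exact_mod_cast (by omega : P.N ≠ 0)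
  rw [D2, kap]
  push_cast [Nat.cast_sub (show P.d ≤ P.N by omega)]
  field_simp

theorem measurableSet_box (P : Par) (δ : ℝ) : MeasurableSet (P.box δ) :=
  (isClosed_le (by fun_prop) continuous_const).measurableSet

theorem Bd_ff (P : Par) {R : ℝ} (hR : 0 ≤ R) (h1 : kap P.D1 P.k * (R + 1) < 1)
    (h2 : kap P.D2 P.k * (R + 1) < 1) (σ : Bool × Bool × Bool) : Bd fun θ => P.ff σ (pt R θ) := by
  refine Bd_pt hR ?_
  unfold ff
  refine ((continuousOn_const.mul (by fun_prop)).mul (ContinuousOn.div (by fun_prop) (by fun_prop)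
    fun w hw => pow_ne_zero _ (Af_ne_of_norm hw.2.1.le h1))).mul
    (ContinuousOn.div (by fun_prop) (by fun_prop)
    fun w hw => pow_ne_zero _ (Af_ne_of_norm hw.2.2.le h2))

theorem Bd_ss (P : Par) {R : ℝ} (hR : 0 ≤ R) (h1 : kap P.D1 P.k * (R + 1) < 1)
    (h2 : kap P.D2 P.k * (R + 1) < 1) (i : Fin 3) : Bd fun θ => P.ss i (pt R θ) := by
  refine Bd_pt hR ?_
  fin_cases i
  · simp only [ss, lamf, Fin.zero_eta, Matrix.cons_val_zero]
    refine ((by fun_prop : ContinuousOn _ _).mul (ContinuousOn.div (by fun_prop) (by fun_prop)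
      fun w hw => pow_ne_zero _ (Af_ne_of_norm hw.2.1.le h1))).mul
      (ContinuousOn.div (by fun_prop) (by fun_prop)
      fun w hw => pow_ne_zero _ (Af_ne_of_norm hw.2.2.le h2))
  · simp only [ss, Fin.mk_one, Matrix.cons_val_one, Matrix.cons_val_zero]
    fun_prop
  · simp only [ss, Fin.reduceFinMk, Matrix.cons_val]
    fun_prop

theorem Bd_rho (P : Par) : Bd fun θ => P.rho (pt 1 θ) := by
  refine Bd_pt zero_le_one ?_
  have h0 : ∀ {w : ℂ} (m : ℕ), ‖w‖ = 1 → w ^ m ≠ 0 := fun m h =>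
    pow_ne_zero _ (by rintro rfl; simp at h)
  unfold rho dens
  refine (((ContinuousOn.div (by fun_prop) (by fun_prop) fun w hw => h0 _ hw.1).div_const _).mul
    ((ContinuousOn.div (by fun_prop) (by fun_prop) fun w hw => h0 _ hw.2.1).div_const _)).mul
    ((ContinuousOn.div (by fun_prop) (by fun_prop) fun w hw => h0 _ hw.2.2).div_const _)

theorem Ok.kapR1 (h : P.Ok) : kap P.D1 P.k * (1 + 1) < 1 := by have := h.kap1; linarith

theorem Ok.kapR2 (h : P.Ok) : kap P.D2 P.k * (1 + 1) < 1 := by have := h.kap2; linarith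

theorem prod_ff (P : Par) (m : Bool × Bool × Bool → ℕ) (w : ℂ × ℂ × ℂ) :
    ∏ σ, P.ff σ w ^ m σ = (∏ σ, (P.cc σ : ℂ) ^ m σ) * w.1 ^ (∑ σ, σ.1.toNat * m σ) *
      (w.2.1 ^ (∑ σ, σ.2.1.toNat * m σ) / Af P.D1 P.k w.2.1 ^ (∑ σ, P.al1 σ.1 * m σ)) *
      (w.2.2 ^ (∑ σ, σ.2.2.toNat * m σ) / Af P.D2 P.k w.2.2 ^ (∑ σ, P.al2 σ.1 * m σ)) := by
  simp only [ff, mul_pow, div_pow, ← pow_mul, prod_mul_distrib, prod_div_distrib,
    prod_pow_eq_pow_sum]

theorem sum_al1 (P : Par) {m : Bool × Bool × Bool → ℕ} (h : ∑ σ, m σ = P.n - 1) :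
    ∑ σ, σ.1.toNat * m σ ≤ P.N ∧ ∑ σ, P.al1 σ.1 * m σ =
      P.t1 * (P.N - ∑ σ, σ.1.toNat * m σ) + P.u1 * ∑ σ, σ.1.toNat * m σ := by
  rw [N, ← h]
  simp only [Fintype.sum_prod_type, Fintype.sum_bool, al1, Bool.toNat_true, Bool.toNat_false,
    if_true, Bool.false_eq_true, if_false]
  refine ⟨by omega, ?_⟩
  rw [Nat.sub_eq_of_eq_add (c := m (false, true, true) + m (false, true, false) +
    (m (false, false, true) + m (false, false, false))) (by ring)]
  ring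

theorem sum_al2 (P : Par) {m : Bool × Bool × Bool → ℕ} (h : ∑ σ, m σ = P.n - 1) :
    ∑ σ, P.al2 σ.1 * m σ =
      P.t2 * (P.N - ∑ σ, σ.1.toNat * m σ) + P.u2 * ∑ σ, σ.1.toNat * m σ := by
  rw [N, ← h]
  simp only [Fintype.sum_prod_type, Fintype.sum_bool, al2, Bool.toNat_true, Bool.toNat_false,
    if_true, Bool.false_eq_true, if_false]
  rw [Nat.sub_eq_of_eq_add (c := m (false, true, true) + m (false, true, false) +
    (m (false, false, true) + m (false, false, false))) (by ring)]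
  ring

end Par

end Params

end Pool.Agent.Lib.MP_d20c4f_pr.H53
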