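import Pool.Agent.Lib.MP_d20c4f_pr.H53Ker

/-!
The pair kernel near the saddle point.
-/

namespace Pool.Agent.Lib.MP_d20c4f_pr.H53

open MeasureTheory Complex Finset

theorem ks_sqrt {c : ℝ} (h : 0 ≤ c) : (√c : ℂ) * (√c : ℂ) = c := by
  rw [← ofReal_mul, Real.mul_self_sqrt h]

theorem ks_one {D k al : ℕ} (hal : al ≤ 1) (h0 : 0 ≤ kap D k) (h1 : kap D k ≤ 1) {a a' : ℂ}
    (ha : Af D k a ≠ 0) (ha' : Af D k a' ≠ 0) :
    ∑ m : Bool, (hc D k al m : ℂ) * (a ^ m.toNat / Af D k a ^ al) *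
      ((hc D k al m : ℂ) * (a' ^ m.toNat / Af D k a' ^ al)) =
      1 + al * (kap D k * (1 - kap D k) * ((a - 1) / Af D k a * ((a' - 1) / Af D k a'))) := by
  have e1 := ks_sqrt h0
  have e2 := ks_sqrt (sub_nonneg.2 h1)
  interval_cases al
  · simp [hc]
  · simp only [Fintype.sum_bool, hc, if_true, Bool.toNat_true, Bool.toNat_false, pow_one, pow_zero,
      Bool.false_eq_true, if_false, Nat.cast_one, one_mul]
    push_cast at e2
    field_simp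
    rw [sq, sq, e1, e2]
    unfold Af
    ring

theorem ks_al1 {P : Par} (hP : P.Ok) (g : Bool) : P.al1 g ≤ 1 := by
  cases g
  exacts [hP.t1, hP.u1]

theorem ks_al2 {P : Par} (hP : P.Ok) (g : Bool) : P.al2 g ≤ 1 := by
  cases g
  exacts [hP.t2, hP.u2]

theorem ks_wg {P : Par} (hP : P.Ok) (g : Bool) : 0 ≤ P.wg g := by
  have := hP.kap0
  cases g <;> simp [Par.wg] <;> linarith

theorem ks_closed {P : Par} (hP : P.Ok) {w w' : ℂ × ℂ × ℂ}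
    (h1 : Af P.D1 P.k w.2.1 ≠ 0) (h2 : Af P.D2 P.k w.2.2 ≠ 0)
    (h1' : Af P.D1 P.k w'.2.1 ≠ 0) (h2' : Af P.D2 P.k w'.2.2 ≠ 0) :
    P.Ker w w' = ∑ g : Bool, P.wg g * (w.1 ^ g.toNat * w'.1 ^ g.toNat) *
      ((1 + P.al1 g * (kap P.D1 P.k * (1 - kap P.D1 P.k) * ((w.2.1 - 1) / Af P.D1 P.k w.2.1 *
        ((w'.2.1 - 1) / Af P.D1 P.k w'.2.1)))) *
      (1 + P.al2 g * (kap P.D2 P.k * (1 - kap P.D2 P.k) * ((w.2.2 - 1) / Af P.D2 P.k w.2.2 *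
        ((w'.2.2 - 1) / Af P.D2 P.k w'.2.2))))) := by
  rw [Par.Ker, Fintype.sum_prod_type]
  refine sum_congr rfl fun g _ => ?_
  rw [← ks_one (ks_al1 hP g) hP.kap1.1.le (by linarith [hP.kap1.2]) h1 h1',
    ← ks_one (ks_al2 hP g) hP.kap2.1.le (by linarith [hP.kap2.2]) h2 h2', sum_mul_sum,
    Fintype.sum_prod_type, ← ks_sqrt (ks_wg hP g), mul_sum]
  refine sum_congr rfl fun m _ => ?_
  rw [mul_sum]
  refine sum_congr rfl fun m' _ => ?_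
  have e : (if g then √(kap P.N P.d) else √(1 - kap P.N P.d)) = √(P.wg g) := by
    cases g <;> rfl
  simp only [Par.ff, Par.cc, e]
  push_cast
  ring

theorem ks_sc_sq {N D k : ℕ} (h1 : 1 ≤ k) (h2 : 2 * k ≤ D) :
    sc N D k ^ 2 = D / N * (kap D k * (1 - kap D k)) := by
  rw [sc_sq h1 h2, lam]
  ring

theorem ks_Psi_mul {N D k : ℕ} (h1 : 1 ≤ k) (h2 : 2 * k ≤ D) (a a' : ℂ) :
    Psi N D k a * Psi N D k a' = ((D / N : ℝ) : ℂ) *
      (kap D k * (1 - kap D k) * ((a - 1) / Af D k a * ((a' - 1) / Af D k a'))) := by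
  have e := congrArg (fun x : ℝ => (x : ℂ)) (ks_sc_sq (N := N) h1 h2)
  simp only [ofReal_pow, ofReal_mul, ofReal_sub, ofReal_one] at e
  unfold Psi
  linear_combination ((a - 1) / Af D k a * ((a' - 1) / Af D k a')) * e

theorem ks_N_pos {P : Par} (hP : P.Ok) : (0 : ℝ) < P.N := by
  have := hP.d4
  have := hP.dN'
  exact_mod_cast (by omega : 0 < P.N)

theorem ks_P1 {P : Par} (hP : P.Ok) : 0 < (P.D1 : ℝ) / P.N :=
  div_pos (by have := hP.d4; have := hP.D1_bounds.1; exact_mod_cast (by omega : 0 < P.D1))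
    (ks_N_pos hP)

theorem ks_P2 {P : Par} (hP : P.Ok) : 0 < (P.D2 : ℝ) / P.N :=
  div_pos (by have := hP.d4; have := hP.D2_bounds.1; exact_mod_cast (by omega : 0 < P.D2))
    (ks_N_pos hP)

theorem ks_cf {P : Par} (hP : P.Ok) (i : Fin 3) (g : Bool) : 0 ≤ P.cf i g := by
  have := ks_wg hP g
  fin_cases i <;> simp only [Par.cf] <;> simp <;> positivity

/-- The exact rank one decomposition of the normalised kernel. -/
theorem ker_eq {P : Par} (hP : P.Ok) {w w' : ℂ × ℂ × ℂ} (h0 : Af P.N P.d w.1 ≠ 0)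
    (h1 : Af P.D1 P.k w.2.1 ≠ 0) (h2 : Af P.D2 P.k w.2.2 ≠ 0) (h0' : Af P.N P.d w'.1 ≠ 0)
    (h1' : Af P.D1 P.k w'.2.1 ≠ 0) (h2' : Af P.D2 P.k w'.2.2 ≠ 0) :
    P.Ker w w' = Af P.N P.d w.1 * Af P.N P.d w'.1 * (1 + ∑ i, P.Ps i w * P.Ps i w' +
      ∑ i, (P.ph i w * P.ph' i w' + P.ph' i w * P.ph i w')) := by
  have e0 : P.Ps 0 w * P.Ps 0 w' = _ :=
    ks_Psi_mul (N := P.N) (by have := hP.d4; omega) hP.dN' w.1 w'.1
  have e1 : P.Ps 1 w * P.Ps 1 w' = _ :=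
    ks_Psi_mul (N := P.N) hP.k1 (by have := hP.kD1; omega) w.2.1 w'.2.1
  have e2 : P.Ps 2 w * P.Ps 2 w' = _ :=
    ks_Psi_mul (N := P.N) hP.k1 (by have := hP.kD2; omega) w.2.2 w'.2.2
  rw [div_self (ks_N_pos hP).ne'] at e0
  rw [ks_closed hP h1 h2 h1' h2']
  generalize (kap P.D1 P.k : ℂ) * (1 - kap P.D1 P.k) * ((w.2.1 - 1) / Af P.D1 P.k w.2.1 *
    ((w'.2.1 - 1) / Af P.D1 P.k w'.2.1)) = x at e1 ⊢
  generalize (kap P.D2 P.k : ℂ) * (1 - kap P.D2 P.k) * ((w.2.2 - 1) / Af P.D2 P.k w.2.2 *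
    ((w'.2.2 - 1) / Af P.D2 P.k w'.2.2)) = y at e2 ⊢
  have n1 : (((P.D1 : ℝ) / P.N : ℝ) : ℂ) ≠ 0 := ofReal_ne_zero.2 (ks_P1 hP).ne'
  have n2 : (((P.D2 : ℝ) / P.N : ℝ) : ℂ) ≠ 0 := ofReal_ne_zero.2 (ks_P2 hP).ne'
  have c0 : ∀ g, (P.cf 0 g : ℂ) * (((P.D1 : ℝ) / P.N : ℝ) : ℂ) = P.wg g * P.al1 g := fun g => by
    rw [show P.cf 0 g = P.wg g * P.al1 g / (P.D1 / P.N) from rfl, ofReal_div _ ((P.D1 : ℝ) / P.N),
      div_mul_cancel₀ _ n1]
    push_cast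
    rfl
  have c1 : ∀ g, (P.cf 1 g : ℂ) * (((P.D2 : ℝ) / P.N : ℝ) : ℂ) = P.wg g * P.al2 g := fun g => by
    rw [show P.cf 1 g = P.wg g * P.al2 g / (P.D2 / P.N) from rfl, ofReal_div _ ((P.D2 : ℝ) / P.N),
      div_mul_cancel₀ _ n2]
    push_cast
    rfl
  have c2 : ∀ g, (P.cf 2 g : ℂ) * ((((P.D1 : ℝ) / P.N : ℝ) : ℂ) * (((P.D2 : ℝ) / P.N : ℝ) : ℂ)) =
      P.wg g * P.al1 g * P.al2 g := fun g => by
    rw [show P.cf 2 g = P.wg g * P.al1 g * P.al2 g / (P.D1 / P.N * (P.D2 / P.N)) from rfl,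
      ofReal_div _ ((P.D1 : ℝ) / P.N * (P.D2 / P.N)), ofReal_mul ((P.D1 : ℝ) / P.N),
      div_mul_cancel₀ _ (mul_ne_zero n1 n2)]
    push_cast
    rfl
  have p0 : ∀ g, P.ph (0, g) w * P.ph' (0, g) w' + P.ph' (0, g) w * P.ph (0, g) w' =
      P.wg g * P.al1 g * x * (P.hg g w.1 * P.hg g w'.1 - 1) := fun g => by
    have s := ks_sqrt (ks_cf hP 0 g)
    simp only [Par.ph, Par.ph', Matrix.cons_val_zero]
    linear_combination (P.hg g w.1 * P.hg g w'.1 - 1) *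
      (P.Ps 1 w * P.Ps 1 w' * s + P.cf 0 g * e1 + x * c0 g)
  have p1 : ∀ g, P.ph (1, g) w * P.ph' (1, g) w' + P.ph' (1, g) w * P.ph (1, g) w' =
      P.wg g * P.al2 g * y * (P.hg g w.1 * P.hg g w'.1 - 1) := fun g => by
    have s := ks_sqrt (ks_cf hP 1 g)
    simp only [Par.ph, Par.ph', Matrix.cons_val_one, Matrix.cons_val_zero]
    linear_combination (P.hg g w.1 * P.hg g w'.1 - 1) *
      (P.Ps 2 w * P.Ps 2 w' * s + P.cf 1 g * e2 + y * c1 g)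
  have p2 : ∀ g, P.ph (2, g) w * P.ph' (2, g) w' + P.ph' (2, g) w * P.ph (2, g) w' =
      P.wg g * P.al1 g * P.al2 g * x * y * (P.hg g w.1 * P.hg g w'.1) := fun g => by
    have s := ks_sqrt (ks_cf hP 2 g)
    simp only [Par.ph, Par.ph', Matrix.cons_val]
    linear_combination (P.hg g w.1 * P.hg g w'.1) *
      (P.Ps 1 w * P.Ps 1 w' * (P.Ps 2 w * P.Ps 2 w') * s +
        P.cf 2 g * (P.Ps 2 w * P.Ps 2 w') * e1 +
        P.cf 2 g * (((P.D1 : ℝ) / P.N : ℝ) : ℂ) * x * e2 + x * y * c2 g)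
  rw [Fintype.sum_prod_type, Fin.sum_univ_three, Fin.sum_univ_three, e0, e1, e2, hP.D1_div,
    hP.D2_div]
  simp only [p0, p1, p2, Fintype.sum_bool, Par.wg, Par.al1, Par.al2, Par.hg, if_true,
    Bool.false_eq_true, if_false, Bool.toNat_true, Bool.toNat_false, pow_one, pow_zero]
  push_cast
  field_simp
  unfold Af
  ring

theorem ks_le {a b : ℝ} (hb : 0 ≤ b) (h : a ^ 2 ≤ b ^ 2) : a ≤ b := (abs_le_of_sq_le_sq' h hb).2

theorem ks_inv {D k : ℕ} {w : ℂ} {β : ℝ} (hκ : kap D k ≤ 1) (h : √(kap D k) * ‖w - 1‖ ≤ β)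
    (hβ : β ≤ 1 / 10) : kap D k * ‖w - 1‖ ≤ β ∧ Af D k w ≠ 0 ∧ ‖(Af D k w)⁻¹‖ ≤ 2 ∧
      ‖(Af D k w)⁻¹ - 1‖ ≤ 2 * β := by
  have h0 := kap_nonneg D k
  have h1 : kap D k ≤ √(kap D k) := Real.le_sqrt_of_sq_le (by nlinarith)
  have h2 : kap D k * ‖w - 1‖ ≤ β := le_trans (by gcongr) h
  have h3 : Af D k w ≠ 0 := Af_ne (by linarith)
  have h4 : ‖(Af D k w)⁻¹‖ ≤ 2 := by
    have a := norm_sub_norm_le (1 : ℂ) (Af D k w)
    rw [norm_sub_rev, norm_Af_sub_one, norm_one] at a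
    rw [norm_inv]
    exact inv_le_of_inv_le₀ (by norm_num) (by linarith)
  refine ⟨h2, h3, h4, ?_⟩
  rw [show (Af D k w)⁻¹ - 1 = -((Af D k w)⁻¹ * (Af D k w - 1)) by field_simp; ring, norm_neg,
    norm_mul, norm_Af_sub_one]
  gcongr

theorem ks_norm_Psi {N D k : ℕ} {w : ℂ} (h : ‖(Af D k w)⁻¹‖ ≤ 2) :
    ‖Psi N D k w‖ ≤ sc N D k * ‖w - 1‖ * 2 := by
  rw [Psi, div_eq_mul_inv, norm_mul, norm_mul, norm_real, Real.norm_of_nonneg (sc_nonneg _ _ _)]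
  have := sc_nonneg N D k
  gcongr

theorem ks_Psi_sub {N D k : ℕ} {w : ℂ} {β : ℝ} (h : ‖(Af D k w)⁻¹ - 1‖ ≤ 2 * β) :
    ‖Psi N D k w - sc N D k * (w - 1)‖ ≤ sc N D k * ‖w - 1‖ * (2 * β) := by
  rw [show Psi N D k w - sc N D k * (w - 1) = sc N D k * (w - 1) * ((Af D k w)⁻¹ - 1) by
    unfold Psi; ring, norm_mul, norm_mul, norm_real, Real.norm_of_nonneg (sc_nonneg _ _ _)]
  have := sc_nonneg N D k
  gcongr

theorem ks_sc0 {P : Par} (hP : P.Ok) : sc P.N P.N P.d ≤ √(kap P.N P.d) ∧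
    √(kap P.N P.d) ≤ 2 * sc P.N P.N P.d := by
  have h := ks_sc_sq (N := P.N) (by have := hP.d4; omega) hP.dN'
  obtain ⟨h1, h2⟩ := hP.kap0
  rw [div_self (ks_N_pos hP).ne'] at h
  have h3 := sc_nonneg P.N P.N P.d
  exact ⟨ks_le (Real.sqrt_nonneg _) (by rw [h, Real.sq_sqrt h1.le]; nlinarith),
    ks_le (by positivity) (by rw [mul_pow, h, Real.sq_sqrt h1.le]; nlinarith)⟩

theorem ks_scj {P : Par} (hP : P.Ok) {D : ℕ} (h1 : P.d ≤ D) (h2 : D ≤ P.N) :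
    sc P.N D P.k ≤ √(kap D P.k) ∧ √(kap P.N P.d) * √(kap D P.k) ≤ 2 * sc P.N D P.k := by
  have hk := hP.kd
  have h := ks_sc_sq (N := P.N) (D := D) hP.k1 (by omega)
  have a1 := kap_nonneg D P.k
  have a2 : kap D P.k ≤ 1 / 4 := by simpa using kap_le (c := 4) (by norm_num) (hk.trans h1)
  have hN := ks_N_pos hP
  have a3 : (D : ℝ) / P.N ≤ 1 := (div_le_one hN).2 (by exact_mod_cast h2)
  have a4 : kap P.N P.d ≤ D / P.N := by unfold kap; gcongr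
  have a5 := hP.kap0.1
  have h3 := sc_nonneg P.N D P.k
  refine ⟨ks_le (Real.sqrt_nonneg _) ?_, ks_le (by positivity) ?_⟩
  · rw [h, Real.sq_sqrt a1]
    have a6 : 0 ≤ 1 - kap D P.k := by linarith
    calc _ ≤ 1 * (kap D P.k * 1) := by gcongr; linarith
      _ = _ := by ring
  · rw [mul_pow, mul_pow, h, Real.sq_sqrt a1, Real.sq_sqrt a5.le]
    calc _ ≤ D / P.N * kap D P.k := by gcongr
      _ ≤ D / P.N * (kap D P.k * (4 * (1 - kap D P.k))) := by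
        gcongr
        exact le_mul_of_one_le_right a1 (by linarith)
      _ = _ := by ring

theorem ks_ratio {P : Par} (hP : P.Ok) : 1 ≤ √P.n / √P.d * √(kap P.N P.d) := by
  have hd : (0 : ℝ) < P.d := by have := hP.d4; exact_mod_cast (by omega : 0 < P.d)
  have hN := ks_N_pos hP
  refine ks_le (by positivity) ?_
  rw [mul_pow, div_pow, Real.sq_sqrt (by positivity), Real.sq_sqrt hd.le,
    Real.sq_sqrt hP.kap0.1.le, kap, hP.n_eq, one_pow, div_mul_div_cancel₀ hd.ne', one_le_div hN]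
  push_cast
  linarith

theorem ks_hg {P : Par} (hP : P.Ok) {z : ℂ} (hz : ‖z‖ = 1) (h0 : Af P.N P.d z ≠ 0)
    (h : ‖(Af P.N P.d z)⁻¹‖ ≤ 2) :
    (∀ g, ‖P.hg g z‖ ≤ 2) ∧ ‖P.hg true z - 1‖ ≤ ‖z - 1‖ * 2 := by
  refine ⟨fun g => ?_, ?_⟩
  · cases g <;> simpa [Par.hg, hz] using h
  · have e : P.hg true z - 1 = ((1 - kap P.N P.d : ℝ) : ℂ) * (z - 1) * (Af P.N P.d z)⁻¹ := by
      simp only [Par.hg, if_true]
      push_cast
      field_simp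
      unfold Af
      ring
    obtain ⟨h1, h2⟩ := hP.kap0
    rw [e, norm_mul, norm_mul, norm_real, Real.norm_of_nonneg (by linarith)]
    gcongr
    exact mul_le_of_le_one_left (norm_nonneg _) (by linarith)

/-- the terms of one factor -/
theorem ks_ph {P : Par} (hP : P.Ok) {D : ℕ} (hk : 2 * P.k ≤ D) {al : Bool → ℕ}
    (ha : al true ≤ 1) (hw : ∀ g, P.wg g * al g ≤ D / P.N) {z a : ℂ} {T β : ℝ}
    (hz : ‖z‖ = 1) (hβ : β ≤ 1 / 10) (b0 : √(kap P.N P.d) * ‖z - 1‖ ≤ β)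
    (b1 : √(kap D P.k) * ‖a - 1‖ ≤ β) (t0 : sc P.N P.N P.d * ‖z - 1‖ ≤ T)
    (t1 : sc P.N D P.k * ‖a - 1‖ ≤ T) (g : Bool) :
    ‖(√(P.wg g * al g / (D / P.N)) : ℂ) * (Psi P.N D P.k a * (P.hg g z + 1)) / 2‖ ≤ 3 * T ∧
    ‖(√(P.wg g * al g / (D / P.N)) : ℂ) * (Psi P.N D P.k a * (P.hg g z - 1))‖ ≤ 8 * (T * β) := by
  have k1 : kap D P.k ≤ 1 / 2 := by simpa using kap_le (c := 2) (by norm_num) hk
  have k0 := kap_nonneg D P.k
  obtain ⟨-, i1, i2, i3⟩ := ks_inv (by linarith [hP.kap0.2]) b0 hβ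
  obtain ⟨-, -, j2, -⟩ := ks_inv (by linarith) b1 hβ
  obtain ⟨g1, g2⟩ := ks_hg hP hz i1 i2
  have hD : 0 < (D : ℝ) / P.N :=
    div_pos (by have := hP.k1; exact_mod_cast (by omega : 0 < D)) (ks_N_pos hP)
  have c1 : √(P.wg g * al g / (D / P.N)) ≤ 1 := Real.sqrt_le_one.2 ((div_le_one hD).2 (hw g))
  have s0 := sc_nonneg P.N D P.k
  have s1 := sc_nonneg P.N P.N P.d
  have T0 : 0 ≤ T := le_trans (by positivity) t1
  have β0 : 0 ≤ β := le_trans (by positivity) b1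
  have q1 := ks_norm_Psi (N := P.N) j2
  have q2 : ‖Psi P.N D P.k a‖ ≤ T * 2 := q1.trans (by gcongr)
  constructor
  · have g3 : ‖P.hg g z + 1‖ ≤ 3 := (norm_add_le _ _).trans (by rw [norm_one]; linarith [g1 g])
    rw [norm_div, norm_mul, norm_mul, norm_real, Real.norm_of_nonneg (Real.sqrt_nonneg _),
      Complex.norm_two]
    calc _ ≤ 1 * (T * 2 * 3) / 2 := by gcongr
      _ = _ := by ring
  · rw [norm_mul, norm_mul, norm_real, Real.norm_of_nonneg (Real.sqrt_nonneg _)]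
    cases g
    · have g3 : ‖P.hg false z - 1‖ ≤ 2 * β := by simpa [Par.hg] using i3
      calc _ ≤ 1 * (T * 2 * (2 * β)) := by gcongr
        _ ≤ _ := by nlinarith [mul_nonneg T0 β0]
    · have p0 := hP.kap0.1.le
      have c2 : √(P.wg true * al true / (D / P.N)) * sc P.N D P.k ≤
          √(kap P.N P.d) * √(kap D P.k) := by
        refine ks_le (by positivity) ?_
        rw [mul_pow, mul_pow, Real.sq_sqrt (div_nonneg (mul_nonneg (ks_wg hP _) (by positivity))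
          hD.le), ks_sc_sq hP.k1 hk, Real.sq_sqrt p0, Real.sq_sqrt k0, ← mul_assoc,
          div_mul_cancel₀ _ hD.ne']
        have a1 : (al true : ℝ) ≤ 1 := by exact_mod_cast ha
        have a6 : 0 ≤ 1 - kap D P.k := by linarith
        calc _ ≤ kap P.N P.d * 1 * (kap D P.k * 1) := by
              rw [show P.wg true = kap P.N P.d from rfl]
              gcongr
              linarith
          _ = _ := by ring
      calc _ ≤ √(P.wg true * al true / (D / P.N)) *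
            (sc P.N D P.k * ‖a - 1‖ * 2 * (‖z - 1‖ * 2)) := by gcongr
        _ = √(P.wg true * al true / (D / P.N)) * sc P.N D P.k * (‖a - 1‖ * ‖z - 1‖ * 4) := by ring
        _ ≤ 2 * sc P.N P.N P.d * √(kap D P.k) * (‖a - 1‖ * ‖z - 1‖ * 4) := by
          refine mul_le_mul_of_nonneg_right (c2.trans ?_) (by positivity)
          exact mul_le_mul_of_nonneg_right (ks_sc0 hP).2 (Real.sqrt_nonneg _)
        _ = 8 * (sc P.N P.N P.d * ‖z - 1‖ * (√(kap D P.k) * ‖a - 1‖)) := by ring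
        _ ≤ _ := by gcongr

theorem ks_w1 {P : Par} (hP : P.Ok) (g : Bool) : P.wg g * P.al1 g ≤ P.D1 / P.N := by
  obtain ⟨h1, h2⟩ := hP.kap0
  have a1 : 0 ≤ (1 - kap P.N P.d) * P.t1 := mul_nonneg (by linarith) (by positivity)
  have a2 : 0 ≤ kap P.N P.d * P.u1 := by positivity
  rw [hP.D1_div]
  cases g <;> simp only [Par.wg, Par.al1, if_true, Bool.false_eq_true, if_false] <;> linarith

theorem ks_w2 {P : Par} (hP : P.Ok) (g : Bool) : P.wg g * P.al2 g ≤ P.D2 / P.N := by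
  obtain ⟨h1, h2⟩ := hP.kap0
  have a1 : 0 ≤ (1 - kap P.N P.d) * P.t2 := mul_nonneg (by linarith) (by positivity)
  have a2 : 0 ≤ kap P.N P.d * P.u2 := by positivity
  rw [hP.D2_div]
  cases g <;> simp only [Par.wg, Par.al2, if_true, Bool.false_eq_true, if_false] <;> linarith

theorem ks_cf2 {P : Par} (hP : P.Ok) (g : Bool) :
    √(P.cf 2 g) * sc P.N P.D2 P.k ≤ √(kap P.D2 P.k) := by
  refine ks_le (Real.sqrt_nonneg _) ?_
  obtain ⟨h1, h2⟩ := hP.kap2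
  have a1 := ks_P1 hP
  have a2 := ks_P2 hP
  have a3 : (P.al2 g : ℝ) ≤ 1 := by exact_mod_cast ks_al2 hP g
  have a4 : P.wg g * P.al1 g / (P.D1 / P.N) ≤ 1 := (div_le_one a1).2 (ks_w1 hP g)
  rw [mul_pow, Real.sq_sqrt (ks_cf hP 2 g), Real.sq_sqrt h1.le,
    ks_sc_sq hP.k1 (by have := hP.kD2; omega)]
  calc _ = P.wg g * P.al1 g / (P.D1 / P.N) * P.al2 g * (kap P.D2 P.k * (1 - kap P.D2 P.k)) := by
        rw [show P.cf 2 g = P.wg g * P.al1 g * P.al2 g / (P.D1 / P.N * (P.D2 / P.N)) from rfl]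
        generalize (P.D1 : ℝ) / P.N = A at a1
        generalize (P.D2 : ℝ) / P.N = B at a2
        field_simp
    _ ≤ 1 * 1 * (kap P.D2 P.k * 1) := by
        have a6 : 0 ≤ 1 - kap P.D2 P.k := by linarith
        gcongr
        linarith
    _ = _ := by ring

theorem ks_lam {P : Par} (hP : P.Ok) {D t u : ℕ} (ht : t ≤ 1) (hu : u ≤ 1) (hs : 1 ≤ t + u)
    (h1 : P.d ≤ D) (h2 : D ≤ P.N) {a : ℂ} {T β : ℝ} (hβ : β ≤ 1 / 10)
    (b1 : √(kap D P.k) * ‖a - 1‖ ≤ β) (t1 : sc P.N D P.k * ‖a - 1‖ ≤ T) :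
    ‖lamf D P.k t u a‖ ≤ 2 ∧ sc P.N P.N P.d * ‖lamf D P.k t u a - 1‖ ≤ 4 * (T * β) := by
  have hk := hP.kd.trans h1
  have k1 : kap D P.k ≤ 1 / 4 := by simpa using kap_le (c := 4) (by norm_num) hk
  have h := lamf_sub_one ht hu hs hk (w := a) ((ks_inv (by linarith) b1 hβ).1.trans (by linarith))
  have e : 2 * kap D P.k * ‖a - 1‖ ^ 2 = 2 * (√(kap D P.k) * ‖a - 1‖) ^ 2 := by
    rw [mul_pow, Real.sq_sqrt (kap_nonneg _ _), mul_assoc]
  rw [e] at h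
  have x0 : 0 ≤ √(kap D P.k) * ‖a - 1‖ := by positivity
  have s0 := sc_nonneg P.N D P.k
  have s1 := sc_nonneg P.N P.N P.d
  have T0 : 0 ≤ T := le_trans (by positivity) t1
  constructor
  · have := norm_le_norm_add_norm_sub' (lamf D P.k t u a) 1
    rw [norm_one] at this
    nlinarith
  · calc _ ≤ √(kap P.N P.d) * (2 * (√(kap D P.k) * ‖a - 1‖) ^ 2) := by
          gcongr
          exact (ks_sc0 hP).1
      _ = 2 * (√(kap P.N P.d) * √(kap D P.k) * ‖a - 1‖) * (√(kap D P.k) * ‖a - 1‖) := by ring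
      _ ≤ 2 * (2 * sc P.N D P.k * ‖a - 1‖) * β := by
          have := mul_le_mul_of_nonneg_right (ks_scj hP h1 h2).2 (norm_nonneg (a - 1))
          gcongr ?_ * ?_
          linarith
      _ = 4 * (sc P.N D P.k * ‖a - 1‖ * β) := by ring
      _ ≤ _ := by
          have := x0.trans b1
          gcongr

/-- Pointwise bounds near the saddle point. -/
theorem ker_small (L : ℝ) (hL : 1 ≤ L) : ∃ C : ℝ, 1 ≤ C ∧ ∀ P : Par, P.Ok →
    ∀ sb : Fin 3 → ℝ, (∀ i, |sb i - P.scv i| ≤ L / (√P.n * √P.d)) →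
    ∀ w : ℂ × ℂ × ℂ, ‖w.1‖ = 1 → P.be w ≤ 1 / 10 →
      (∀ i, ‖P.Ps i w‖ ≤ C * P.Th w ∧ ‖P.ss i w - sb i‖ ≤ C * P.Th w ∧
        ‖P.Ps i w - (P.ss i w - sb i)‖ ≤ C * (P.Th w * P.be w)) ∧
      (∀ i, ‖P.ph i w‖ ≤ C * P.Th w ∧ ‖P.ph' i w‖ ≤ C * (P.Th w * P.be w)) ∧
      P.Th w ≤ P.be w ∧ P.be w ≤ 2 * (√P.n / √P.d) * P.Th w ∧
      Af P.N P.d w.1 ≠ 0 ∧ Af P.D1 P.k w.2.1 ≠ 0 ∧ Af P.D2 P.k w.2.2 ≠ 0 := by
  refine ⟨20 + L, by linarith, fun P hP sb hsb w hz hβ => ?_⟩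
  have s0 := sc_nonneg P.N P.N P.d
  have s1 := sc_nonneg P.N P.D1 P.k
  have s2 := sc_nonneg P.N P.D2 P.k
  have x0 : 0 ≤ sc P.N P.N P.d * ‖w.1 - 1‖ := by positivity
  have x1 : 0 ≤ sc P.N P.D1 P.k * ‖w.2.1 - 1‖ := by positivity
  have x2 : 0 ≤ sc P.N P.D2 P.k * ‖w.2.2 - 1‖ := by positivity
  have x3 : 0 ≤ 1 / √(P.n : ℝ) := by positivity
  have y0 : 0 ≤ √(kap P.N P.d) * ‖w.1 - 1‖ := by positivity
  have y1 : 0 ≤ √(kap P.D1 P.k) * ‖w.2.1 - 1‖ := by positivity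
  have y2 : 0 ≤ √(kap P.D2 P.k) * ‖w.2.2 - 1‖ := by positivity
  have y3 : 0 ≤ 1 / √(P.d : ℝ) := by positivity
  have t0 : sc P.N P.N P.d * ‖w.1 - 1‖ ≤ P.Th w := by unfold Par.Th; linarith
  have t1 : sc P.N P.D1 P.k * ‖w.2.1 - 1‖ ≤ P.Th w := by unfold Par.Th; linarith
  have t2 : sc P.N P.D2 P.k * ‖w.2.2 - 1‖ ≤ P.Th w := by unfold Par.Th; linarith
  have t3 : 1 / √(P.n : ℝ) ≤ P.Th w := by unfold Par.Th; linarith
  have b0 : √(kap P.N P.d) * ‖w.1 - 1‖ ≤ P.be w := by unfold Par.be; linarith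
  have b1 : √(kap P.D1 P.k) * ‖w.2.1 - 1‖ ≤ P.be w := by unfold Par.be; linarith
  have b2 : √(kap P.D2 P.k) * ‖w.2.2 - 1‖ ≤ P.be w := by unfold Par.be; linarith
  have b3 : 1 / √(P.d : ℝ) ≤ P.be w := by unfold Par.be; linarith
  have T0 := x0.trans t0
  have β0 := y0.trans b0
  have Tβ0 := mul_nonneg T0 β0
  have Tβ : P.Th w * P.be w ≤ P.Th w * (1 / 10) := by gcongr
  obtain ⟨-, i1, i2, i3⟩ := ks_inv (by linarith [hP.kap0.2]) b0 hβ
  obtain ⟨-, j1, j2, j3⟩ := ks_inv (by linarith [hP.kap1.2]) b1 hβ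
  obtain ⟨-, l1, l2, l3⟩ := ks_inv (by linarith [hP.kap2.2]) b2 hβ
  have hs : ∀ i, ‖(P.scv i : ℂ) - sb i‖ ≤ L * (P.Th w * P.be w) := fun i => by
    rw [← ofReal_sub, norm_real, Real.norm_eq_abs, abs_sub_comm]
    refine (hsb i).trans ?_
    rw [div_eq_mul_one_div, ← one_div_mul_one_div]
    have : 0 ≤ L := by linarith
    gcongr
  have q0 : ‖P.Ps 0 w‖ ≤ P.Th w * 2 := (ks_norm_Psi i2).trans (by gcongr)
  have q1 : ‖P.Ps 1 w‖ ≤ P.Th w * 2 := (ks_norm_Psi j2).trans (by gcongr)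
  have q2 : ‖P.Ps 2 w‖ ≤ P.Th w * 2 := (ks_norm_Psi l2).trans (by gcongr)
  have r0 : ‖P.Ps 0 w - P.scv 0 * (w.1 - 1)‖ ≤ P.Th w * (2 * P.be w) :=
    (ks_Psi_sub i3).trans (by gcongr)
  have r1 : ‖P.Ps 1 w - P.scv 1 * (w.2.1 - 1)‖ ≤ P.Th w * (2 * P.be w) :=
    (ks_Psi_sub j3).trans (by gcongr)
  have r2 : ‖P.Ps 2 w - P.scv 2 * (w.2.2 - 1)‖ ≤ P.Th w * (2 * P.be w) :=
    (ks_Psi_sub l3).trans (by gcongr)
  have key : ∀ i, ‖P.Ps i w‖ ≤ P.Th w * 2 ∧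
      ‖P.Ps i w - (P.ss i w - sb i)‖ ≤ (14 + L) * (P.Th w * P.be w) := by
    refine Fin.forall_fin_succ.2 ⟨⟨q0, ?_⟩, Fin.forall_fin_two.2 ⟨⟨q1, ?_⟩, q2, ?_⟩⟩
    · obtain ⟨-, m1⟩ := ks_lam hP hP.t1 hP.u1 hP.s1 hP.D1_bounds.1 hP.D1_bounds.2 hβ b1 t1
      obtain ⟨m2, m3⟩ := ks_lam hP hP.t2 hP.u2 hP.s2 hP.D2_bounds.1 hP.D2_bounds.2 hβ b2 t2
      have e : P.Ps 0 w - (P.ss 0 w - sb 0) = P.Ps 0 w - P.scv 0 * (w.1 - 1) - (P.scv 0 - sb 0) -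
          w.1 * ((sc P.N P.N P.d : ℂ) * (lamf P.D1 P.k P.t1 P.u1 w.2.1 - 1) *
            lamf P.D2 P.k P.t2 P.u2 w.2.2 +
            (sc P.N P.N P.d : ℂ) * (lamf P.D2 P.k P.t2 P.u2 w.2.2 - 1)) := by
        simp only [Par.ss, Par.scv, Matrix.cons_val_zero]
        ring
      rw [e]
      refine (norm_sub_le _ _).trans ((add_le_add (norm_sub_le _ _) (show _ ≤
        4 * (P.Th w * P.be w) * 2 + 4 * (P.Th w * P.be w) from ?_)).trans (by linarith [hs 0]))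
      rw [norm_mul, hz, one_mul]
      refine (norm_add_le _ _).trans ?_
      rw [norm_mul, norm_mul, norm_mul, norm_real, Real.norm_of_nonneg s0]
      gcongr
    · have e : P.Ps 1 w - (P.ss 1 w - sb 1) =
          P.Ps 1 w - P.scv 1 * (w.2.1 - 1) - (P.scv 1 - sb 1) := by
        simp only [Par.ss, Par.scv, Matrix.cons_val_one, Matrix.cons_val_zero]
        ring
      exact (congrArg norm e).trans_le ((norm_sub_le _ _).trans (by linarith [hs 1]))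
    · have e : P.Ps 2 w - (P.ss 2 w - sb 2) =
          P.Ps 2 w - P.scv 2 * (w.2.2 - 1) - (P.scv 2 - sb 2) := by
        simp only [Par.ss, Par.scv, Matrix.cons_val]
        ring
      exact (congrArg norm e).trans_le ((norm_sub_le _ _).trans (by linarith [hs 2]))
  have LT : 0 ≤ L * P.Th w := mul_nonneg (by linarith) T0
  have LTβ : 0 ≤ L * (P.Th w * P.be w) := mul_nonneg (by linarith) Tβ0
  have LTβ' : L * (P.Th w * P.be w) ≤ L * (P.Th w * (1 / 10)) := by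
    have : 0 ≤ L := by linarith
    gcongr
  refine ⟨fun i => ⟨by linarith [(key i).1], ?_, by linarith [(key i).2]⟩, ?_, ?_, ?_, i1, j1, l1⟩
  · have := norm_sub_le (P.Ps i w) (P.Ps i w - (P.ss i w - sb i))
    rw [sub_sub_cancel] at this
    linarith [(key i).1, (key i).2]
  · have key2 : ∀ (i : Fin 3) (g : Bool), ‖P.ph (i, g) w‖ ≤ 3 * P.Th w ∧
        ‖P.ph' (i, g) w‖ ≤ 8 * (P.Th w * P.be w) := by
      refine Fin.forall_fin_succ.2 ⟨fun g => ?_, Fin.forall_fin_two.2 ⟨fun g => ?_, fun g => ?_⟩⟩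
      · exact ks_ph hP (by have := hP.kD1; omega) hP.u1 (ks_w1 hP) hz hβ b0 b1 t0 t1 g
      · exact ks_ph hP (by have := hP.kD2; omega) hP.u2 (ks_w2 hP) hz hβ b0 b2 t0 t2 g
      · have a : ‖P.ph' (2, g) w‖ ≤ 8 * (P.Th w * P.be w) := by
          have g1 := (ks_hg hP hz i1 i2).1 g
          have q3 : ‖P.Ps 2 w‖ ≤ sc P.N P.D2 P.k * ‖w.2.2 - 1‖ * 2 := ks_norm_Psi l2
          rw [show P.ph' (2, g) w = (√(P.cf 2 g) : ℂ) * (P.Ps 1 w * P.Ps 2 w * P.hg g w.1) from rfl,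
            norm_mul, norm_mul, norm_mul, norm_real, Real.norm_of_nonneg (Real.sqrt_nonneg _)]
          calc _ ≤ √(P.cf 2 g) * (P.Th w * 2 * (sc P.N P.D2 P.k * ‖w.2.2 - 1‖ * 2) * 2) := by gcongr
            _ = 8 * (P.Th w * (√(P.cf 2 g) * sc P.N P.D2 P.k * ‖w.2.2 - 1‖)) := by ring
            _ ≤ 8 * (P.Th w * (√(kap P.D2 P.k) * ‖w.2.2 - 1‖)) := by
              gcongr
              exact ks_cf2 hP g
            _ ≤ _ := by gcongr
        refine ⟨?_, a⟩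
        change ‖P.ph' (2, g) w / 2‖ ≤ _
        rw [norm_div, Complex.norm_two]
        linarith
    rintro ⟨i, g⟩
    exact ⟨by linarith [(key2 i g).1], by linarith [(key2 i g).2]⟩
  · have hd : (0 : ℝ) < P.d := by have := hP.d4; exact_mod_cast (by omega : 0 < P.d)
    unfold Par.Th Par.be
    gcongr
    · exact (ks_sc0 hP).1
    · exact (ks_scj hP hP.D1_bounds.1 hP.D1_bounds.2).1
    · exact (ks_scj hP hP.D2_bounds.1 hP.D2_bounds.2).1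
    · have := hP.dN
      omega
  · have hn : (0 : ℝ) < √P.n := Real.sqrt_pos.2 (by
      have := hP.dN
      exact_mod_cast (by omega : 0 < P.n))
    have r := ks_ratio hP
    have ρ0 : 0 ≤ √P.n / √(P.d : ℝ) := by positivity
    have p1 : √(kap P.N P.d) ≤ 1 := Real.sqrt_le_one.2 (by linarith [hP.kap0.2])
    have ρ1 : 1 ≤ √P.n / √(P.d : ℝ) := r.trans (mul_le_of_le_one_right ρ0 p1)
    have a : ∀ {D : ℕ}, P.d ≤ D → D ≤ P.N →
        √(kap D P.k) ≤ 2 * (√P.n / √P.d) * sc P.N D P.k := fun {D} h1 h2 =>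
      calc _ ≤ √P.n / √P.d * √(kap P.N P.d) * √(kap D P.k) :=
            le_mul_of_one_le_left (Real.sqrt_nonneg _) r
        _ ≤ √P.n / √P.d * (2 * sc P.N D P.k) := by
            rw [mul_assoc]
            exact mul_le_mul_of_nonneg_left (ks_scj hP h1 h2).2 ρ0
        _ = _ := by ring
    have a0 : √(kap P.N P.d) ≤ 2 * (√P.n / √P.d) * sc P.N P.N P.d :=
      (ks_sc0 hP).2.trans (by nlinarith)
    have a3 : 1 / √(P.d : ℝ) ≤ 2 * (√P.n / √P.d) * (1 / √P.n) := by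
      rw [show 2 * (√P.n / √P.d) * (1 / √(P.n : ℝ)) = 2 * (1 / √P.d) by field_simp]
      linarith
    unfold Par.Th Par.be
    rw [mul_add, mul_add, mul_add, ← mul_assoc, ← mul_assoc, ← mul_assoc]
    gcongr
    · exact a hP.D1_bounds.1 hP.D1_bounds.2
    · exact a hP.D2_bounds.1 hP.D2_bounds.2

end Pool.Agent.Lib.MP_d20c4f_pr.H53
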