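import Pool.Agent.Lib.MP_d20c4f_pr.H53Basic

/-!
Bounds for circle integrals.
-/

namespace Pool.Agent.Lib.MP_d20c4f_pr.H53

open MeasureTheory Complex Finset

theorem cy_norm_Af_sq (D k : ℕ) (θ : ℝ) : ‖Af D k (E θ)‖ ^ 2 =
    1 - 2 * (kap D k * (1 - kap D k)) * (1 - Real.cos θ) := by
  have h1 := exp_ofReal_mul_I_re θ
  have h2 := exp_ofReal_mul_I_im θ
  rw [Complex.sq_norm, normSq_apply]
  simp only [Af, add_re, add_im, sub_re, sub_im, one_re, one_im, mul_re, mul_im, ofReal_re,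
    ofReal_im, E, h1, h2]
  linear_combination (kap D k) ^ 2 * Real.sin_sq_add_cos_sq θ

theorem norm_Af_pow_le {D k : ℕ} (h : k ≤ D) (M : ℕ) (θ : ℝ) : ‖Af D k (E θ)‖ ^ M ≤
    Real.exp (-(M * (kap D k * (1 - kap D k)) * (1 - Real.cos θ))) := by
  have _ := h
  have h1 : ‖Af D k (E θ)‖ ≤ Real.exp (-((kap D k * (1 - kap D k)) * (1 - Real.cos θ))) := by
    refine le_of_sq_le_sq ?_ (Real.exp_pos _).le
    rw [cy_norm_Af_sq, ← Real.exp_nat_mul]
    have := Real.add_one_le_exp (((2 : ℕ) : ℝ) * -((kap D k * (1 - kap D k)) * (1 - Real.cos θ)))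
    refine le_trans (le_of_eq ?_) this
    push_cast
    ring
  refine (pow_le_pow_left₀ (norm_nonneg _) h1 M).trans (le_of_eq ?_)
  rw [← Real.exp_nat_mul]
  congr 1
  ring

theorem cy_stirling {n : ℕ} (hn : 1 ≤ n) :
    Stirling.stirlingSeq n ≤ √Real.pi * Real.exp (1 / (12 * n)) := by
  have hn' : (0 : ℝ) < n := by exact_mod_cast hn
  have key : ∀ m : ℕ, Real.log (Stirling.stirlingSeq n) - 1 / (12 * n) ≤
      Real.log (Stirling.stirlingSeq (m + n)) - 1 / (12 * ((m + n : ℕ) : ℝ)) := by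
    intro m
    induction m with
    | zero => simp
    | succ m ih =>
      have h1 := Stirling.log_stirlingSeq_sdiff_le (m + n)
      have h2 : (0 : ℝ) < ((m + n : ℕ) : ℝ) := by positivity
      have h3 : ((m + 1 + n : ℕ) : ℝ) = ((m + n : ℕ) : ℝ) + 1 := by push_cast; ring
      have h4 : 1 / (12 * ((m + n : ℕ) : ℝ) * (((m + n : ℕ) : ℝ) + 1)) =
          1 / (12 * ((m + n : ℕ) : ℝ)) - 1 / (12 * (((m + n : ℕ) : ℝ) + 1)) := by
        field_simp
        ring
      rw [h3, show m + 1 + n = m + n + 1 by ring]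
      linarith
  have hpi : (0 : ℝ) < √Real.pi := Real.sqrt_pos.2 Real.pi_pos
  have lim : Filter.Tendsto (fun m : ℕ => Real.log (Stirling.stirlingSeq (m + n))) Filter.atTop
      (nhds (Real.log √Real.pi)) :=
    (Stirling.tendsto_stirlingSeq_sqrt_pi.comp (Filter.tendsto_add_atTop_nat n)).log hpi.ne'
  have h5 : Real.log (Stirling.stirlingSeq n) - 1 / (12 * n) ≤ Real.log √Real.pi :=
    ge_of_tendsto' lim (fun m => (key m).trans (sub_le_self _ (by positivity)))
  have h6 : 0 < Stirling.stirlingSeq n := hpi.trans_le (Stirling.sqrt_pi_le_stirlingSeq (by omega))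
  rw [← Real.exp_log h6, ← Real.exp_log hpi, ← Real.exp_add]
  exact Real.exp_le_exp.2 (by linarith)

theorem cy_fact {n : ℕ} (hn : 1 ≤ n) : (n.factorial : ℝ) =
    Stirling.stirlingSeq n * (√(2 * n : ℝ) * (n / Real.exp 1) ^ n) := by
  have hn' : (0 : ℝ) < n := by exact_mod_cast hn
  rw [Stirling.stirlingSeq, div_mul_cancel₀]
  positivity

theorem cy_Bn_eq {k j : ℕ} (hk : 1 ≤ k) (hj : 1 ≤ j) :
    Bn (k + j) k * (Stirling.stirlingSeq k * Stirling.stirlingSeq j * √(2 * lam (k + j) k)) =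
      Stirling.stirlingSeq (k + j) := by
  have hk' : (0 : ℝ) < k := by exact_mod_cast hk
  have hj' : (0 : ℝ) < j := by exact_mod_cast hj
  have hD : (0 : ℝ) < ((k + j : ℕ) : ℝ) := by positivity
  have e1 : 1 - kap (k + j) k = j / ((k + j : ℕ) : ℝ) := by
    unfold kap
    field_simp
    push_cast
    ring
  have e2 : (((k + j).choose k : ℕ) : ℝ) * k.factorial * j.factorial = (k + j).factorial := by
    have := Nat.add_choose_mul_factorial_mul_factorial j k
    rw [add_comm j k] at this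
    have h2 : (k + j).choose k * k.factorial * j.factorial = (k + j).factorial := by
      rw [← this]; ring
    exact_mod_cast h2
  have e3 : √(2 * k : ℝ) * √(2 * j : ℝ) = √(2 * ((k + j : ℕ) : ℝ)) * √(2 * lam (k + j) k) := by
    rw [← Real.sqrt_mul (by positivity), ← Real.sqrt_mul (by positivity)]
    congr 1
    rw [lam, e1, kap]
    field_simp
  have e4 : ((k : ℝ) / Real.exp 1) ^ k =
      kap (k + j) k ^ k * (((k + j : ℕ) : ℝ) / Real.exp 1) ^ k := by
    rw [← mul_pow, kap]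
    congr 1
    field_simp
  have e5 : ((j : ℝ) / Real.exp 1) ^ j =
      (1 - kap (k + j) k) ^ j * (((k + j : ℕ) : ℝ) / Real.exp 1) ^ j := by
    rw [← mul_pow, e1]
    congr 1
    field_simp
  rw [cy_fact hk, cy_fact hj, cy_fact (n := k + j) (by omega), e4, e5, pow_add] at e2
  have hne : √(2 * ((k + j : ℕ) : ℝ)) * ((((k + j : ℕ) : ℝ) / Real.exp 1) ^ k *
      (((k + j : ℕ) : ℝ) / Real.exp 1) ^ j) ≠ 0 := by positivity
  refine mul_right_cancel₀ hne ?_
  rw [← e2, Bn, Nat.add_sub_cancel_left]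
  linear_combination (-(((k + j).choose k : ℕ) : ℝ) * Stirling.stirlingSeq k *
    Stirling.stirlingSeq j * kap (k + j) k ^ k * (1 - kap (k + j) k) ^ j *
    (((k + j : ℕ) : ℝ) / Real.exp 1) ^ k * (((k + j : ℕ) : ℝ) / Real.exp 1) ^ j) * e3

theorem Bn_ge {D k : ℕ} (h1 : 1 ≤ k) (h2 : 2 * k ≤ D) :
    Real.exp (-(1 / k)) / √(2 * Real.pi * lam D k) ≤ Bn D k := by
  obtain ⟨j, rfl⟩ : ∃ j, D = k + j := ⟨D - k, by omega⟩
  have hj : k ≤ j := by omega
  have hk' : (0 : ℝ) < k := by exact_mod_cast h1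
  have hj' : (k : ℝ) ≤ j := by exact_mod_cast hj
  have hl : 0 < lam (k + j) k := lt_of_lt_of_le (by positivity) (lam_bounds h1 h2).1
  have hB := Bn_pos h1 h2
  have hpi : (0 : ℝ) < √Real.pi := Real.sqrt_pos.2 Real.pi_pos
  have e := cy_Bn_eq h1 (h1.trans hj)
  have s1 := cy_stirling h1
  have s2 := cy_stirling (h1.trans hj)
  have s3 := Stirling.sqrt_pi_le_stirlingSeq (n := k + j) (by omega)
  have s4 : 0 < Stirling.stirlingSeq j :=
    hpi.trans_le (Stirling.sqrt_pi_le_stirlingSeq (by omega))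
  have s5 : Stirling.stirlingSeq k * Stirling.stirlingSeq j ≤
      √Real.pi * √Real.pi * Real.exp (1 / k) := by
    refine (mul_le_mul s1 s2 s4.le (by positivity)).trans ?_
    rw [mul_mul_mul_comm, ← Real.exp_add]
    refine mul_le_mul_of_nonneg_left (Real.exp_le_exp.2 ?_) (by positivity)
    have a1 : 1 / (12 * (j : ℝ)) ≤ 1 / (12 * k) :=
      one_div_le_one_div_of_le (by positivity) (by linarith)
    have a2 : 1 / (12 * (k : ℝ)) = 1 / k / 12 := by field_simp
    have a3 : (0 : ℝ) < 1 / k := by positivity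
    linarith
  have s6 : √Real.pi ≤ Bn (k + j) k * (√Real.pi * √Real.pi * Real.exp (1 / k) *
      √(2 * lam (k + j) k)) := by
    refine s3.trans ?_
    rw [← e]
    gcongr
  have s7 : √(2 * Real.pi * lam (k + j) k) = √Real.pi * √(2 * lam (k + j) k) := by
    rw [← Real.sqrt_mul Real.pi_pos.le]
    congr 1
    ring
  have s8 : 1 ≤ Bn (k + j) k * (√Real.pi * √(2 * lam (k + j) k)) * Real.exp (1 / k) := by
    refine le_of_mul_le_mul_left ?_ hpi
    rw [mul_one]
    refine s6.trans (le_of_eq ?_)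
    ring
  rw [div_le_iff₀ (by positivity), s7, Real.exp_neg, inv_le_iff_one_le_mul₀ (Real.exp_pos _)]
  exact s8

theorem psi_two {D k : ℕ} (h1 : 1 ≤ k) (h2 : 2 * k ≤ D) :
    ∫ θ, ‖dens D k (E θ)‖ * Real.exp (lam D k * (1 - Real.cos θ) / 2) ∂ang ≤ 7 := by
  have hk' : (1 : ℝ) ≤ k := by exact_mod_cast h1
  have hl : 0 < lam D k := lt_of_lt_of_le (by positivity) (lam_bounds h1 h2).1
  have hB := Bn_pos h1 h2
  have hpi := Real.pi_pos
  set b : ℝ := lam D k / Real.pi ^ 2 with hb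
  have hb0 : 0 < b := by positivity
  have hg : Integrable (fun θ : ℝ => Real.exp (-b * θ ^ 2)) := integrable_exp_neg_mul_sq hb0
  have hg' : Integrable (fun θ : ℝ => Real.exp (-b * θ ^ 2) / Bn D k) ang := by
    refine Integrable.div_const ?_ _
    refine Integrable.of_bound (C := 1) (by fun_prop) (.of_forall fun θ => ?_)
    rw [Real.norm_of_nonneg (Real.exp_pos _).le, Real.exp_le_one_iff]
    have := sq_nonneg θ
    nlinarith
  have step1 : ∫ θ, ‖dens D k (E θ)‖ * Real.exp (lam D k * (1 - Real.cos θ) / 2) ∂ang ≤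
      ∫ θ, Real.exp (-b * θ ^ 2) / Bn D k ∂ang := by
    refine integral_mono_of_nonneg (.of_forall fun θ => by positivity) hg' ?_
    filter_upwards [ae_ang] with θ hθ
    have a1 := norm_Af_pow_le (D := D) (k := k) (by omega) D θ
    have a2 := Real.cos_le_one_sub_mul_cos_sq hθ
    have a3 : ‖dens D k (E θ)‖ = ‖Af D k (E θ)‖ ^ D / Bn D k := by
      simp [dens, abs_of_pos hB]
    rw [a3, div_mul_eq_mul_div]
    refine div_le_div_of_nonneg_right ?_ hB.le
    refine (mul_le_mul_of_nonneg_right a1 (Real.exp_pos _).le).trans ?_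
    rw [← Real.exp_add]
    refine Real.exp_le_exp.2 ?_
    change -(lam D k * (1 - Real.cos θ)) + _ ≤ _
    have a4 : lam D k * (2 / Real.pi ^ 2 * θ ^ 2) ≤ lam D k * (1 - Real.cos θ) :=
      mul_le_mul_of_nonneg_left (by linarith) hl.le
    have a5 : lam D k * (2 / Real.pi ^ 2 * θ ^ 2) = 2 * (b * θ ^ 2) := by rw [hb]; ring
    linarith
  refine step1.trans ?_
  rw [integral_div, integral_ang, smul_eq_mul, intervalIntegral.integral_of_le (by linarith)]
  have step2 : ∫ θ in Set.Ioc (-Real.pi) Real.pi, Real.exp (-b * θ ^ 2) ≤ √(Real.pi / b) := by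
    rw [← integral_gaussian]
    exact setIntegral_le_integral hg (.of_forall fun θ => (Real.exp_pos _).le)
  have step3 := Bn_ge h1 h2
  rw [div_le_iff₀ (by positivity)] at step3
  have step4 : Real.exp (-1) ≤ Real.exp (-(1 / (k : ℝ))) :=
    Real.exp_le_exp.2 (neg_le_neg ((div_le_one (by linarith)).2 hk'))
  have step5 : √(Real.pi / b) * √(2 * Real.pi * lam D k) = √2 * Real.pi ^ 2 := by
    rw [← Real.sqrt_mul (by positivity), ← Real.sqrt_sq (x := Real.pi ^ 2) (by positivity),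
      ← Real.sqrt_mul (by positivity)]
    congr 1
    rw [hb]
    field_simp
  have step6 : √2 ≤ (3 / 2 : ℝ) := Real.sqrt_le_iff.2 ⟨by norm_num, by norm_num⟩
  have step7 : (0.36 : ℝ) ≤ Real.exp (-1) := by linarith [Real.exp_neg_one_gt_d9]
  have step8 := Real.pi_lt_d2
  have hs : 0 < √(2 * Real.pi * lam D k) := by positivity
  rw [div_le_iff₀ hB]
  refine (mul_le_mul_of_nonneg_left step2 (by positivity)).trans ?_
  refine le_of_mul_le_mul_right ?_ hs
  rw [mul_assoc, step5, mul_assoc]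
  have step9 : (2 * Real.pi)⁻¹ * (√2 * Real.pi ^ 2) = √2 * Real.pi / 2 := by field_simp
  rw [step9]
  have step10 : √2 * Real.pi ≤ 3 / 2 * 3.15 := mul_le_mul step6 step8.le hpi.le (by norm_num)
  linarith

theorem cy_ratio {ε : ℝ} (h0 : 0 < ε) (h1 : ε ≤ 1 / 1000) {D k : ℕ} (hk1 : 1 ≤ k) (hk2 : k ≤ 2)
    (hD : 2 / ε ^ 2 ≤ D) (τ θ : ℝ) :
    ‖trunc D k τ ((1 / ε : ℝ) * E θ)‖ * ε ^ k ≤
      Bn D k * ((|1 + τ * (1 - kap D k) / k| + ε) ^ k * Real.exp ε) := by
  have hD1 : 2 ≤ ε ^ 2 * D := by rwa [div_le_iff₀ (by positivity), mul_comm] at hD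
  have hD2 : (4 : ℝ) ≤ D := by
    by_contra hc
    have : ε ^ 2 ≤ 1 / 4 := by nlinarith
    have : (0 : ℝ) ≤ D := by positivity
    nlinarith
  have hD3 : 4 ≤ D := by exact_mod_cast hD2
  have hD0 : (0 : ℝ) < D := by linarith
  have hK := kap_le (D := D) (k := k) (c := 2) (by norm_num) (by omega)
  have hK0 := kap_nonneg D k
  set q : ℝ := 1 - kap D k with hq
  have hq0 : 0 < q := by push_cast at hK; linarith
  have hq1 : q ≤ 1 := by linarith
  have hw : ‖((1 / ε : ℝ) : ℂ) * E θ‖ = 1 / ε := by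
    rw [norm_mul, norm_E, mul_one, norm_real, Real.norm_of_nonneg (by positivity)]
  have hqc : (1 : ℂ) - (kap D k : ℂ) = (q : ℂ) := by rw [hq]; push_cast; ring
  have he := Real.add_one_le_exp ε
  set w : ℂ := ((1 / ε : ℝ) : ℂ) * E θ with hwd
  have hqD : q ^ D = q ^ (D - k) * q ^ k := (pow_sub_mul_pow q (by omega)).symm
  have hqp : 0 < q ^ (D - k) := by positivity
  obtain rfl | rfl : k = 1 ∨ k = 2 := by omega
  · have t1 : ‖trunc D 1 τ w‖ ≤ q ^ D * (1 + |1 / q + τ| * (1 / ε)) := by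
      rw [trunc, hqc, norm_mul, norm_pow, norm_real, Real.norm_of_nonneg hq0.le, if_neg (by norm_num),
        add_zero]
      refine mul_le_mul_of_nonneg_left ((norm_add_le _ _).trans (le_of_eq ?_)) (by positivity)
      rw [norm_one, norm_mul, hw, norm_real, Real.norm_eq_abs, Nat.cast_one]
    have t2 : Bn D 1 = q ^ (D - 1) := by
      rw [Bn, Nat.choose_one_right, pow_one, mul_kap (by omega), Nat.cast_one, one_mul]
    have t3 : q * |1 / q + τ| = |1 + τ * q| := by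
      rw [← abs_of_pos hq0, ← abs_mul, abs_of_pos hq0]
      congr 1
      field_simp
    rw [t2, pow_one, pow_one, Nat.cast_one, div_one]
    refine (mul_le_mul_of_nonneg_right t1 h0.le).trans ?_
    rw [hqD, pow_one, mul_assoc, mul_assoc]
    refine mul_le_mul_of_nonneg_left ?_ hqp.le
    have t4 : q * ((1 + |1 / q + τ| * (1 / ε)) * ε) = q * ε + |1 + τ * q| := by
      rw [← t3]
      field_simp
    rw [t4]
    have t5 := abs_nonneg (1 + τ * q)
    nlinarith [mul_nonneg (add_nonneg t5 h0.le) h0.le]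
  · have t1 : ‖trunc D 2 τ w‖ ≤ q ^ D * (1 + |2 / q + τ| * (1 / ε) +
        ((2 / q + τ) ^ 2 / 2 + (2 / q) ^ 2 / (2 * D)) * (1 / ε) ^ 2) := by
      rw [trunc, hqc, norm_mul, norm_pow, norm_real, Real.norm_of_nonneg hq0.le, if_pos rfl]
      refine mul_le_mul_of_nonneg_left ((norm_add_le _ _).trans (add_le_add
        ((norm_add_le _ _).trans (le_of_eq ?_)) ?_)) (by positivity)
      · rw [norm_one, norm_mul, hw, norm_real, Real.norm_eq_abs, Nat.cast_ofNat]
      · rw [norm_mul, norm_pow, hw, norm_real, Real.norm_eq_abs, Nat.cast_ofNat]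
        refine mul_le_mul_of_nonneg_right ((abs_sub _ _).trans (le_of_eq ?_)) (by positivity)
        rw [abs_of_nonneg (by positivity), abs_of_nonneg (by positivity)]
    have t2 : Bn D 2 = q ^ (D - 2) * (2 * (1 - 1 / D)) := by
      rw [Bn, Nat.cast_choose_two, kap, ← kap, ← hq, mul_comm, kap]
      congr 1
      push_cast
      field_simp
    set a : ℝ := |1 + τ * q / 2| with ha
    have ha0 : 0 ≤ a := abs_nonneg _
    have t3 : q * |2 / q + τ| = 2 * a := by
      rw [ha, ← abs_of_pos hq0, ← abs_mul, abs_of_pos hq0, ← abs_two, ← abs_mul, abs_two]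
      congr 1
      field_simp
    have t3' : q ^ 2 * (2 / q + τ) ^ 2 = 4 * a ^ 2 := by
      rw [← sq_abs (2 / q + τ), ← mul_pow, t3]
      ring
    rw [t2, Nat.cast_ofNat, ← ha]
    refine (mul_le_mul_of_nonneg_right t1 (by positivity)).trans ?_
    rw [hqD, mul_assoc, mul_assoc, mul_assoc]
    refine mul_le_mul_of_nonneg_left ?_ hqp.le
    have t4 : q ^ 2 * ((1 + |2 / q + τ| * (1 / ε) +
        ((2 / q + τ) ^ 2 / 2 + (2 / q) ^ 2 / (2 * D)) * (1 / ε) ^ 2) * ε ^ 2) =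
        q ^ 2 * ε ^ 2 + q * ε * (q * |2 / q + τ|) + q ^ 2 * (2 / q + τ) ^ 2 / 2 + 2 * (1 / D) := by
      field_simp
      ring
    rw [t4, t3, t3']
    have t5 : 2 * (1 / (D : ℝ)) ≤ ε ^ 2 := by
      rw [mul_one_div, div_le_iff₀ hD0]; exact hD1
    have t6 : q ^ 2 * ε ^ 2 ≤ ε ^ 2 :=
      mul_le_of_le_one_left (by positivity) (pow_le_one₀ hq0.le hq1)
    have t7 : q * ε * (2 * a) ≤ ε * (2 * a) := by
      rw [mul_assoc]; exact mul_le_of_le_one_left (by positivity) hq1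
    have t8 : 1 ≤ (1 - 1 / (D : ℝ)) * Real.exp ε := by
      have x0 : 0 < 1 / (D : ℝ) := by positivity
      have x1 : 1 / (D : ℝ) ≤ ε / 2 := by nlinarith
      have x2 : (1 - 1 / (D : ℝ)) * (ε + 1) ≤ (1 - 1 / (D : ℝ)) * Real.exp ε :=
        mul_le_mul_of_nonneg_left he (by linarith)
      nlinarith
    have t9 : 2 * (a + ε) ^ 2 ≤ 2 * (1 - 1 / (D : ℝ)) * ((a + ε) ^ 2 * Real.exp ε) := by
      have := mul_le_mul_of_nonneg_left t8 (show 0 ≤ 2 * (a + ε) ^ 2 by positivity)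
      linarith
    refine le_trans ?_ t9
    nlinarith [mul_nonneg h0.le ha0]

theorem cy_real {ε N D k K s g : ℝ} (h0 : 0 < ε) (h1 : ε ≤ 1 / 1000) (hD1 : 2 ≤ ε ^ 2 * D)
    (hN : D ≤ N) (hNp : 0 < N) (hk1 : 1 ≤ k) (hk2 : k ≤ 2) (hK0 : 0 ≤ K) (hK : K ≤ ε ^ 2)
    (hs0 : 0 ≤ s) (hs2 : s ^ 2 * N = k * (1 - K)) (hg : -((N + 1) * s * (1 + ε)) ≤ g) :
    -(1 + 3 * ε) ≤ g * s * (1 - K) / k ∧
      k * (g * s * (1 - K) / k + 7 * ε) + ε + -(g * s) ≤ g ^ 2 / (4 * (N + 1)) + 20 * ε := by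
  have hε2 : ε ^ 2 ≤ ε / 1000 := by nlinarith
  have hNε : 1 ≤ ε * N := by
    have a1 : ε ^ 2 * D ≤ ε ^ 2 * N := mul_le_mul_of_nonneg_left hN (by positivity)
    have a2 : ε ^ 2 * N ≤ ε / 1000 * N := mul_le_mul_of_nonneg_right hε2 hNp.le
    have a3 : 0 ≤ ε * N := by positivity
    linarith
  have hs3 : s ^ 2 * (N + 1) ≤ k * (1 + ε) := by
    have a0 : 0 ≤ k * K := by positivity
    have a1 : s ^ 2 * N ≤ k := by rw [hs2]; linarith
    have a2 : s ^ 2 * 1 ≤ s ^ 2 * (ε * N) := mul_le_mul_of_nonneg_left hNε (sq_nonneg s)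
    have a3 : ε * (s ^ 2 * N) ≤ ε * k := mul_le_mul_of_nonneg_left a1 h0.le
    linarith
  have hτ1 : -(k * (1 + ε) ^ 2) ≤ g * s := by
    have a1 := mul_le_mul_of_nonneg_right hg hs0
    have a2 := mul_le_mul_of_nonneg_right hs3 (show 0 ≤ 1 + ε by linarith)
    linarith
  constructor
  · rw [le_div_iff₀ (by linarith)]
    have a1 := mul_le_mul_of_nonneg_right hτ1 (show 0 ≤ 1 - K by linarith)
    have a2 : k * (1 + ε) ^ 2 * (1 - K) ≤ k * (1 + ε) ^ 2 :=
      mul_le_of_le_one_right (by positivity) (by linarith)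
    have a3 : k * (1 + ε) ^ 2 ≤ k * (1 + 3 * ε) :=
      mul_le_mul_of_nonneg_left (by linarith) (by linarith)
    linarith
  · have b1 : k * (g * s * (1 - K) / k) = g * s * (1 - K) := by field_simp
    have b2 : -(K * (g * s)) ≤ g ^ 2 / (4 * (N + 1)) + K ^ 2 * (s ^ 2 * (N + 1)) := by
      have : g ^ 2 / (4 * (N + 1)) + K ^ 2 * (s ^ 2 * (N + 1)) + K * (g * s) =
          (g + 2 * K * s * (N + 1)) ^ 2 / (4 * (N + 1)) := by
        field_simp
        ring
      have h3 : 0 ≤ (g + 2 * K * s * (N + 1)) ^ 2 / (4 * (N + 1)) := by positivity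
      linarith
    have b3 : K ^ 2 * (s ^ 2 * (N + 1)) ≤ ε := by
      have a0 : k * (1 + ε) ≤ 2 * 2 := mul_le_mul hk2 (by linarith) (by linarith) (by norm_num)
      have a2 : K ^ 2 ≤ ε / 1000 :=
        (pow_le_of_le_one hK0 (by linarith) (by norm_num)).trans (hK.trans hε2)
      have a3 : K ^ 2 * (s ^ 2 * (N + 1)) ≤ ε / 1000 * (2 * 2) :=
        mul_le_mul a2 (hs3.trans a0) (by positivity) (by positivity)
      linarith
    have b4 : k * ε ≤ 2 * ε := mul_le_mul_of_nonneg_right hk2 h0.le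
    linarith

theorem V_small {ε : ℝ} (h0 : 0 < ε) (h1 : ε ≤ 1 / 1000) : ∃ D0 : ℕ, ∀ (N D k : ℕ) (g θ : ℝ),
    1 ≤ k → k ≤ 2 → D0 ≤ D → D ≤ N → -((N + 1) * sc N D k * (1 + ε)) ≤ g →
    ‖densS D k (g * sc N D k) ((1 / ε : ℝ) * E θ)‖ *
      Real.exp (g * sc N D k * (1 / ε * Real.cos θ - 1)) ≤
      Real.exp (g ^ 2 / (4 * (N + 1)) + 20 * ε) := by
  obtain ⟨D0, hD0⟩ := exists_nat_ge (2 / ε ^ 2)
  refine ⟨D0, fun N D k g θ hk1 hk2 hD hN hg => ?_⟩
  have hD' : 2 / ε ^ 2 ≤ D := hD0.trans (by exact_mod_cast hD)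
  have hr := cy_ratio h0 h1 hk1 hk2 hD' (g * sc N D k) θ
  have hD1 : 2 ≤ ε ^ 2 * D := by rwa [div_le_iff₀ (by positivity), mul_comm] at hD'
  have hD2 : (4 : ℝ) ≤ D := by
    by_contra hc
    have : ε ^ 2 ≤ 1 / 4 := by nlinarith
    have : (0 : ℝ) ≤ D := by positivity
    nlinarith
  have hD3 : 4 ≤ D := by exact_mod_cast hD2
  have hDp : (0 : ℝ) < D := by linarith
  have hN' : (D : ℝ) ≤ N := by exact_mod_cast hN
  have hNp : (0 : ℝ) < N := by linarith
  have hk1' : (1 : ℝ) ≤ k := by exact_mod_cast hk1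
  have hk2' : (k : ℝ) ≤ 2 := by exact_mod_cast hk2
  have h2k : 2 * k ≤ D := by omega
  have hB := Bn_pos hk1 h2k
  have hK0 := kap_nonneg D k
  have hK : kap D k ≤ ε ^ 2 := by
    rw [kap, div_le_iff₀ hDp]; linarith
  have hs2 : sc N D k ^ 2 * N = k * (1 - kap D k) := by
    rw [sc_sq hk1 h2k, div_mul_cancel₀ _ hNp.ne', lam_eq (by omega)]
  obtain ⟨hv1, hfin⟩ := cy_real h0 h1 hD1 hN' hNp hk1' hk2' hK0 hK (sc_nonneg N D k) hs2 hg
  set τ : ℝ := g * sc N D k with hτ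
  set v : ℝ := τ * (1 - kap D k) / k with hv
  have hv2 : |1 + v| + ε ≤ Real.exp (v + 7 * ε) := by
    have a1 : |1 + v| ≤ 1 + v + 6 * ε := abs_le.2 ⟨by linarith, by linarith⟩
    linarith [Real.add_one_le_exp (v + 7 * ε)]
  have hv3 : (|1 + v| + ε) ^ k ≤ Real.exp (k * (v + 7 * ε)) := by
    rw [Real.exp_nat_mul]
    exact pow_le_pow_left₀ (by positivity) hv2 k
  have hw : ‖((1 / ε : ℝ) : ℂ) * E θ‖ = 1 / ε := by
    rw [norm_mul, norm_E, mul_one, norm_real, Real.norm_of_nonneg (by positivity)]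
  have hn : ‖densS D k τ ((1 / ε : ℝ) * E θ)‖ = ‖trunc D k τ ((1 / ε : ℝ) * E θ)‖ * ε ^ k *
      Real.exp (-(τ * (1 / ε * Real.cos θ))) / Bn D k := by
    rw [densS, norm_div, norm_mul, norm_div, norm_pow, hw, norm_exp, norm_real,
      Real.norm_of_nonneg hB.le, neg_re, re_ofReal_mul, re_ofReal_mul, E_re, one_div, inv_pow,
      div_inv_eq_mul]
  have hexp : Real.exp (-(τ * (1 / ε * Real.cos θ))) * Real.exp (τ * (1 / ε * Real.cos θ - 1)) =
      Real.exp (-τ) := by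
    rw [← Real.exp_add]
    congr 1
    ring
  rw [hn, div_mul_eq_mul_div, mul_assoc, hexp, div_le_iff₀ hB]
  refine (mul_le_mul_of_nonneg_right hr (Real.exp_pos _).le).trans ?_
  rw [mul_comm _ (Bn D k), mul_assoc]
  refine mul_le_mul_of_nonneg_left ?_ hB.le
  refine (mul_le_mul_of_nonneg_right (mul_le_mul_of_nonneg_right hv3 (Real.exp_pos _).le)
    (Real.exp_pos _).le).trans ?_
  rw [← Real.exp_add, ← Real.exp_add]
  exact Real.exp_le_exp.2 hfin

end Pool.Agent.Lib.MP_d20c4f_pr.H53
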