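import Pool.Agent.Lib.MP_d20c4f_pr.H53Basic

/-!
The crude bound of the pair kernel.
-/

namespace Pool.Agent.Lib.MP_d20c4f_pr.H53

open MeasureTheory Complex Finset

theorem ker_norm_ge {A : ℂ} {r : ℝ} (h : ‖A - 1‖ ≤ r) : 1 - r ≤ ‖A‖ := by
  have h1 : ‖(1 : ℂ)‖ ≤ ‖A‖ + ‖A - 1‖ := by
    calc ‖(1 : ℂ)‖ = ‖A - (A - 1)‖ := by ring_nf
      _ ≤ _ := norm_sub_le _ _
  rw [norm_one] at h1
  linarith

theorem ker_norm_le {A : ℂ} {r : ℝ} (h : ‖A - 1‖ ≤ r) : ‖A‖ ≤ 1 + r := by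
  calc ‖A‖ = ‖1 + (A - 1)‖ := by ring_nf
    _ ≤ ‖(1 : ℂ)‖ + ‖A - 1‖ := norm_add_le _ _
    _ ≤ _ := by rw [norm_one]; linarith

theorem lamf_sub_one {D k t u : ℕ} (ht : t ≤ 1) (hu : u ≤ 1) (hs : 1 ≤ t + u) (hk : 4 * k ≤ D)
    {w : ℂ} (hw : kap D k * ‖w - 1‖ ≤ 1 / 2) :
    ‖lamf D k t u w - 1‖ ≤ 2 * kap D k * ‖w - 1‖ ^ 2 := by
  have hK0 := kap_nonneg D k
  have hK : kap D k ≤ 1 / 4 := by simpa using kap_le (c := 4) (by norm_num) hk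
  have hA : Af D k w ≠ 0 := Af_ne (by linarith)
  have hA2 : 1 - 1 / 2 ≤ ‖Af D k w‖ := ker_norm_ge (by rw [norm_Af_sub_one]; exact hw)
  have hn : ‖(kap D k : ℂ)‖ = kap D k := by rw [norm_real, Real.norm_of_nonneg hK0]
  have hX : 0 ≤ kap D k * ‖w - 1‖ ^ 2 := by positivity
  interval_cases t <;> interval_cases u
  · omega
  · have e : lamf D k 0 1 w - 1 = kap D k * (w - 1) ^ 2 / (2 * Af D k w) := by
      unfold lamf
      field_simp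
      unfold Af
      push_cast
      ring
    have : ‖(2 : ℂ)‖ = 2 := by simp
    rw [e, norm_div, norm_mul, norm_mul, hn, norm_pow, this, div_le_iff₀ (by linarith)]
    nlinarith
  · have e : lamf D k 1 0 w - 1 =
        -(kap D k * (w - 1) ^ 2 / 2 * (1 + kap D k * (w - 1) + 2 * kap D k)) := by
      unfold lamf Af
      push_cast
      ring
    have h1 : ‖(1 : ℂ) + kap D k * (w - 1) + 2 * kap D k‖ ≤ 2 := by
      refine (norm_add_le _ _).trans ?_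
      have h2 := norm_add_le (1 : ℂ) (kap D k * (w - 1))
      rw [norm_mul, hn, norm_one] at h2
      have h3 : ‖(2 : ℂ) * kap D k‖ = 2 * kap D k := by rw [norm_mul, hn]; simp
      linarith
    rw [e, norm_neg, norm_mul, norm_div, norm_mul, hn, norm_pow]
    have : ‖(2 : ℂ)‖ = 2 := by simp
    rw [this]
    nlinarith
  · have e : lamf D k 1 1 w - 1 = 0 := by
      unfold lamf
      field_simp
      push_cast
      ring
    rw [e, norm_zero]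
    positivity

/-- The rank one term of one factor. -/
noncomputable def kerX (D k : ℕ) (a a' : ℂ) : ℂ :=
  (kap D k : ℂ) * (1 - kap D k) * (a - 1) * (a' - 1) / (Af D k a * Af D k a')

theorem ker_factor {D k al : ℕ} (hal : al ≤ 1) (hK : kap D k ≤ 1) {a a' : ℂ} (hA : Af D k a ≠ 0)
    (hA' : Af D k a' ≠ 0) :
    ∑ m : Bool, ((hc D k al m : ℂ) * (a ^ m.toNat / Af D k a ^ al)) *
      ((hc D k al m : ℂ) * (a' ^ m.toNat / Af D k a' ^ al)) = 1 + al * kerX D k a a' := by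
  have h1 : ((√(kap D k) : ℝ) : ℂ) * (√(kap D k) : ℝ) = kap D k := by
    rw [← ofReal_mul, Real.mul_self_sqrt (kap_nonneg D k)]
  have h2 : ((√(1 - kap D k) : ℝ) : ℂ) * (√(1 - kap D k) : ℝ) = 1 - kap D k := by
    rw [← ofReal_mul, Real.mul_self_sqrt (by linarith)]
    push_cast
    rfl
  interval_cases al
  · simp [hc]
  · simp only [Fintype.sum_bool, hc, if_true, Bool.toNat_true, Bool.toNat_false, pow_one,
      pow_zero, Bool.false_eq_true, if_false, Nat.cast_one, one_mul]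
    have e : ∀ (c x y : ℂ), c * x * (c * y) = c * c * (x * y) := fun c x y => by ring
    rw [e, e, h1, h2]
    unfold kerX
    field_simp
    unfold Af
    ring

/-- The closed form of the kernel. -/
theorem ker_closed {P : Par} (hP : P.Ok) {w w' : ℂ × ℂ × ℂ} (h1 : Af P.D1 P.k w.2.1 ≠ 0)
    (h2 : Af P.D2 P.k w.2.2 ≠ 0) (h1' : Af P.D1 P.k w'.2.1 ≠ 0) (h2' : Af P.D2 P.k w'.2.2 ≠ 0) :
    P.Ker w w' = (1 - (kap P.N P.d : ℂ)) * (1 + P.t1 * kerX P.D1 P.k w.2.1 w'.2.1) *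
        (1 + P.t2 * kerX P.D2 P.k w.2.2 w'.2.2) +
      (kap P.N P.d : ℂ) * (w.1 * w'.1) * (1 + P.u1 * kerX P.D1 P.k w.2.1 w'.2.1) *
        (1 + P.u2 * kerX P.D2 P.k w.2.2 w'.2.2) := by
  have hk0 := hP.kap0
  have hk1 : kap P.D1 P.k ≤ 1 := by linarith [hP.kap1.2]
  have hk2 : kap P.D2 P.k ≤ 1 := by linarith [hP.kap2.2]
  have e1 : ((√(kap P.N P.d) : ℝ) : ℂ) * (√(kap P.N P.d) : ℝ) = kap P.N P.d := by
    rw [← ofReal_mul, Real.mul_self_sqrt hk0.1.le]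
  have e2 : ((√(1 - kap P.N P.d) : ℝ) : ℂ) * (√(1 - kap P.N P.d) : ℝ) = 1 - kap P.N P.d := by
    rw [← ofReal_mul, Real.mul_self_sqrt (by linarith [hk0.2])]
    push_cast
    rfl
  rw [← ker_factor hP.t1 hk1 h1 h1', ← ker_factor hP.u1 hk1 h1 h1', ← ker_factor hP.t2 hk2 h2 h2',
    ← ker_factor hP.u2 hk2 h2 h2', ← e2]
  conv_rhs => rw [← e1]
  simp only [Par.Ker, Par.ff, Par.cc, Par.al1, Par.al2, Fintype.sum_prod_type, Fintype.sum_bool,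
    if_true, Bool.false_eq_true, if_false, Bool.toNat_true, Bool.toNat_false, ofReal_mul]
  ring

/-- The estimates for one of the two factor coordinates. -/
theorem ker_one {D k : ℕ} {p Q s σ ν η T T' a0 a0' Z Z' : ℝ} {a a' : ℂ} (hK : kap D k ≤ 1 / 4)
    (hp : 0 ≤ p) (hpQ : p ≤ Q) (hs0 : 0 ≤ s) (hs : s ^ 2 = Q * (kap D k * (1 - kap D k)))
    (hσ0 : 0 < σ) (hσ : σ ≤ 1 / 10) (hr : √(kap D k) * ‖a - 1‖ ≤ σ)
    (hr' : √(kap D k) * ‖a' - 1‖ ≤ σ) (hT : s * ‖a - 1‖ ≤ T) (hT' : s * ‖a' - 1‖ ≤ T')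
    (hν0 : 0 ≤ ν) (hν : ν ≤ T) (hν' : ν ≤ T') (hη : |η - s| ≤ σ * ν) (hZ0 : 0 ≤ Z) (hZ0' : 0 ≤ Z')
    (hZ : √p * Z ≤ 2 * a0) (hZ' : √p * Z' ≤ 2 * a0') (ha0 : a0 ≤ T) (ha0' : a0' ≤ T') :
    ‖(Q : ℂ) * kerX D k a a' - (s * a - η) * (s * a' - η)‖ ≤ 5 * σ * (T * T') ∧
      ‖kerX D k a a'‖ ≤ 2 * σ ^ 2 ∧ Q * ‖kerX D k a a'‖ ≤ 2 * (T * T') ∧
      p * (Z + Z') * ‖kerX D k a a'‖ ≤ 16 * σ * (T * T') := by
  have hK0 := kap_nonneg D k
  set K := kap D k with hKdef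
  have hT0 : 0 ≤ T := hν0.trans hν
  have hT0' : 0 ≤ T' := hν0.trans hν'
  have hQ0 : 0 ≤ Q := hp.trans hpQ
  have hsK : √K * √K = K := Real.mul_self_sqrt hK0
  have hsK0 : 0 ≤ √K := Real.sqrt_nonneg _
  have hsK2 : √K ≤ 1 / 2 := by
    rw [Real.sqrt_le_iff]
    constructor <;> linarith
  set α := ‖a - 1‖ with hα
  set α' := ‖a' - 1‖ with hα'
  have hα0 : 0 ≤ α := norm_nonneg _
  have hα0' : 0 ≤ α' := norm_nonneg _
  have hA1 : ‖Af D k a - 1‖ ≤ σ / 2 := by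
    rw [norm_Af_sub_one, ← hKdef, ← hα, ← hsK, mul_assoc]
    exact (mul_le_mul hsK2 hr (by positivity) (by norm_num)).trans (le_of_eq (by ring))
  have hA1' : ‖Af D k a' - 1‖ ≤ σ / 2 := by
    rw [norm_Af_sub_one, ← hKdef, ← hα', ← hsK, mul_assoc]
    exact (mul_le_mul hsK2 hr' (by positivity) (by norm_num)).trans (le_of_eq (by ring))
  have hAA : ‖Af D k a * Af D k a' - 1‖ ≤ 11 / 10 * σ := by
    have h1 := ker_norm_le hA1'
    calc ‖Af D k a * Af D k a' - 1‖ = ‖(Af D k a - 1) * Af D k a' + (Af D k a' - 1)‖ := by ring_nf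
      _ ≤ ‖Af D k a - 1‖ * ‖Af D k a'‖ + ‖Af D k a' - 1‖ := by
          rw [← norm_mul]; exact norm_add_le _ _
      _ ≤ σ / 2 * (1 + σ / 2) + σ / 2 := by gcongr
      _ ≤ _ := by nlinarith only [hσ0, hσ]
  have hM : 4 / 5 ≤ ‖Af D k a * Af D k a'‖ := le_trans (by linarith) (ker_norm_ge hAA)
  set M := Af D k a * Af D k a' with hMdef
  have hM0 : M ≠ 0 := by
    intro h
    rw [h, norm_zero] at hM
    linarith
  have hx : ‖kerX D k a a'‖ ≤ 2 * (K * (1 - K) * (α * α')) := by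
    have h1 : ‖(K : ℂ) * (1 - K)‖ = K * (1 - K) := by
      rw [show (K : ℂ) * (1 - K) = ((K * (1 - K) : ℝ) : ℂ) by push_cast; ring, norm_real,
        Real.norm_of_nonneg (mul_nonneg hK0 (by linarith))]
    have h2 : 0 ≤ K * (1 - K) * (α * α') :=
      mul_nonneg (mul_nonneg hK0 (by linarith)) (by positivity)
    unfold kerX
    rw [← hMdef, ← hKdef, norm_div, norm_mul, norm_mul, h1, ← hα, ← hα',
      div_le_iff₀ (by linarith)]
    nlinarith only [h2, hM]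
  have hx2 : ‖kerX D k a a'‖ ≤ 2 * ((√K * α) * (√K * α')) := by
    refine hx.trans ?_
    have : K * (1 - K) * (α * α') ≤ K * (α * α') := by
      have := mul_nonneg hα0 hα0'
      nlinarith only [mul_nonneg (mul_nonneg hK0 hK0) this]
    calc 2 * (K * (1 - K) * (α * α')) ≤ 2 * (K * (α * α')) := by linarith
      _ = 2 * ((√K * √K) * (α * α')) := by rw [hsK]
      _ = _ := by ring
  have hTT : (s * α) * (s * α') ≤ T * T' := mul_le_mul hT hT' (by positivity) hT0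
  have hpK : √p * √K ≤ 2 * s := by
    rw [← Real.sqrt_mul hp, Real.sqrt_le_iff]
    refine ⟨by positivity, ?_⟩
    rw [mul_pow, hs]
    have : p * K ≤ Q * K := mul_le_mul_of_nonneg_right hpQ hK0
    nlinarith only [mul_nonneg hQ0 hK0, this, hK]
  refine ⟨?_, ?_, ?_, ?_⟩
  · have e : (Q : ℂ) * kerX D k a a' - (s * a - η) * (s * a' - η) =
        -((s * (a - 1)) * (s * (a' - 1)) * ((M - 1) / M)) + (s * (a - 1)) * ((η - s : ℝ) : ℂ) +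
          ((η - s : ℝ) : ℂ) * (s * (a' - 1)) - ((η - s : ℝ) : ℂ) * ((η - s : ℝ) : ℂ) := by
      have h1 : (s : ℂ) ^ 2 = Q * (K * (1 - K)) := by exact_mod_cast hs
      have h2 : (Q : ℂ) * kerX D k a a' = s ^ 2 * (a - 1) * (a' - 1) / M := by
        unfold kerX
        rw [h1, ← hMdef, ← hKdef]
        ring
      rw [h2]
      push_cast
      field_simp
      ring
    have n1 : ‖(s : ℂ) * (a - 1)‖ = s * α := by rw [norm_mul, norm_real, Real.norm_of_nonneg hs0]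
    have n2 : ‖(s : ℂ) * (a' - 1)‖ = s * α' := by rw [norm_mul, norm_real, Real.norm_of_nonneg hs0]
    have n3 : ‖((η - s : ℝ) : ℂ)‖ ≤ σ * T := by
      rw [norm_real, Real.norm_eq_abs]
      exact hη.trans (by gcongr)
    have n4 : ‖((η - s : ℝ) : ℂ)‖ ≤ σ * T' := by
      rw [norm_real, Real.norm_eq_abs]
      exact hη.trans (by gcongr)
    have n5 : ‖(M - 1) / M‖ ≤ 2 * σ := by
      rw [norm_div, div_le_iff₀ (by linarith)]
      nlinarith only [hAA, hM, hσ0]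
    have b1 : ‖-((s * (a - 1)) * (s * (a' - 1)) * ((M - 1) / M))‖ ≤ (T * T') * (2 * σ) := by
      rw [norm_neg, norm_mul, norm_mul, n1, n2]
      exact mul_le_mul hTT n5 (norm_nonneg _) (by positivity)
    have b2 : ‖(s * (a - 1)) * ((η - s : ℝ) : ℂ)‖ ≤ T * (σ * T') := by
      rw [norm_mul, n1]
      exact mul_le_mul hT n4 (norm_nonneg _) hT0
    have b3 : ‖((η - s : ℝ) : ℂ) * (s * (a' - 1))‖ ≤ (σ * T) * T' := by
      rw [norm_mul, n2]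
      exact mul_le_mul n3 hT' (by positivity) (by positivity)
    have b4 : ‖((η - s : ℝ) : ℂ) * ((η - s : ℝ) : ℂ)‖ ≤ (σ * T) * (σ * T') := by
      rw [norm_mul]
      exact mul_le_mul n3 n4 (norm_nonneg _) (by positivity)
    have b5 : (σ * T) * (σ * T') ≤ σ * (T * T') := by
      have : 0 ≤ σ * (T * T') := by positivity
      nlinarith only [this, hσ]
    rw [e]
    refine (norm_sub_le _ _).trans ?_
    have := norm_add₃_le (a := -((s * (a - 1)) * (s * (a' - 1)) * ((M - 1) / M)))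
      (b := (s * (a - 1)) * ((η - s : ℝ) : ℂ)) (c := ((η - s : ℝ) : ℂ) * (s * (a' - 1)))
    linarith
  · refine hx2.trans ?_
    have := mul_le_mul hr hr' (by positivity) hσ0.le
    nlinarith only [this]
  · calc Q * ‖kerX D k a a'‖ ≤ Q * (2 * (K * (1 - K) * (α * α'))) := by gcongr
      _ = 2 * (s ^ 2 * (α * α')) := by rw [hs]; ring
      _ = 2 * ((s * α) * (s * α')) := by ring
      _ ≤ _ := by linarith
  · have hsp : √p * √p = p := Real.mul_self_sqrt hp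
    have hsp0 : 0 ≤ √p := Real.sqrt_nonneg _
    have c1 : √p * (√K * α) ≤ 2 * T := by
      calc √p * (√K * α) = (√p * √K) * α := by ring
        _ ≤ (2 * s) * α := by gcongr
        _ ≤ _ := by linarith
    have c2 : √p * (√K * α') ≤ 2 * T' := by
      calc √p * (√K * α') = (√p * √K) * α' := by ring
        _ ≤ (2 * s) * α' := by gcongr
        _ ≤ _ := by linarith
    have c3 : √p * Z ≤ 2 * T := by linarith
    have c4 : √p * Z' ≤ 2 * T' := by linarith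
    calc p * (Z + Z') * ‖kerX D k a a'‖ ≤ p * (Z + Z') * (2 * ((√K * α) * (√K * α'))) := by gcongr
      _ = (√p * √p) * (Z + Z') * (2 * ((√K * α) * (√K * α'))) := by rw [hsp]
      _ = 2 * ((√K * α) * ((√p * Z) * (√p * (√K * α')))) +
          2 * ((√K * α') * ((√p * (√K * α)) * (√p * Z'))) := by ring
      _ ≤ 2 * (σ * ((2 * T) * (2 * T'))) + 2 * (σ * ((2 * T) * (2 * T'))) := by gcongr
      _ = _ := by ring

theorem ker_le_exp (x : ℝ) : x ≤ Real.exp ((x ^ 2 - 1) / 2) := by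
  have := Real.add_one_le_exp ((x ^ 2 - 1) / 2)
  nlinarith [sq_nonneg (x - 1)]

theorem ker_unit_sq {z : ℂ} (hz : ‖z‖ = 1) : ‖z - 1‖ ^ 2 = 2 * (1 - z.re) := by
  have h : z.re * z.re + z.im * z.im = 1 := by
    rw [← normSq_apply, ← Complex.sq_norm, hz, one_pow]
  rw [Complex.sq_norm, normSq_apply]
  simp only [sub_re, sub_im, one_re, one_im]
  nlinarith

/-- The abstract form of the crude bound. -/
theorem ker_abs {p t1 u1 t2 u2 σ X : ℝ} {z z' x y S0 S1 S2 : ℂ} (hp0 : 0 ≤ p) (hp : p ≤ 1 / 2)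
    (ht1 : 0 ≤ t1) (hu1 : 0 ≤ u1) (hu1' : u1 ≤ 1) (ht1' : t1 ≤ 1) (ht2 : 0 ≤ t2) (ht2' : t2 ≤ 1)
    (hu2 : 0 ≤ u2) (hu2' : u2 ≤ 1) (hσ0 : 0 < σ) (hσ : σ ≤ 1 / 10) (hX : 0 ≤ X)
    (hz : ‖z‖ = 1) (hz' : ‖z'‖ = 1)
    (x1 : ‖(((1 - p) * t1 + p * u1 : ℝ) : ℂ) * x - S1‖ ≤ 5 * σ * X) (x2 : ‖x‖ ≤ 2 * σ ^ 2)
    (x3 : ((1 - p) * t1 + p * u1) * ‖x‖ ≤ 2 * X)
    (x4 : p * (‖z - 1‖ + ‖z' - 1‖) * ‖x‖ ≤ 16 * σ * X)
    (y1 : ‖(((1 - p) * t2 + p * u2 : ℝ) : ℂ) * y - S2‖ ≤ 5 * σ * X) (y2 : ‖y‖ ≤ 2 * σ ^ 2)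
    (y3 : ((1 - p) * t2 + p * u2) * ‖y‖ ≤ 2 * X)
    (y4 : p * (‖z - 1‖ + ‖z' - 1‖) * ‖y‖ ≤ 16 * σ * X)
    (z1 : ‖S0 - ((p * (1 - p) : ℝ) : ℂ) * ((z - 1) * (z' - 1))‖ ≤ 30 * σ * X) :
    (‖(1 - (p : ℂ)) * (1 + t1 * x) * (1 + t2 * y) + p * (z * z') * (1 + u1 * x) * (1 + u2 * y)‖ ^ 2
        - 1) / 2 - (S0 + S1 + S2).re ≤
      -(p * (1 - p) * ‖z - 1‖ ^ 2) / 2 - (p * (1 - p) * ‖z' - 1‖ ^ 2) / 2 + 200 * σ * X := by
  set P1 : ℝ := (1 - p) * t1 + p * u1 with hP1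
  set P2 : ℝ := (1 - p) * t2 + p * u2 with hP2
  have hq : 0 ≤ 1 - p := by linarith
  have hP10 : 0 ≤ P1 := by positivity
  have hP20 : 0 ≤ P2 := by positivity
  have hP11 : P1 ≤ 1 := by rw [hP1]; nlinarith only [hq, hp0, ht1', hu1']
  have hP21 : P2 ≤ 1 := by rw [hP2]; nlinarith only [hq, hp0, ht2', hu2']
  set ζ : ℂ := z * z' with hζ
  have hζ1 : ‖ζ‖ = 1 := by rw [hζ, norm_mul, hz, hz', one_mul]
  set W : ℝ := ‖z - 1‖ + ‖z' - 1‖ with hW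
  have hW0 : 0 ≤ W := by positivity
  have hζW : ‖ζ - 1‖ ≤ W := by
    calc ‖ζ - 1‖ = ‖(z - 1) * z' + (z' - 1)‖ := by rw [hζ]; ring_nf
      _ ≤ ‖(z - 1) * z'‖ + ‖z' - 1‖ := norm_add_le _ _
      _ = W := by rw [norm_mul, hz', mul_one]
  have hW4 : W ≤ 4 := by
    have h1 := norm_sub_le z 1
    have h2 := norm_sub_le z' 1
    rw [norm_one] at h1 h2
    rw [hW]
    linarith
  have hpW : p * W ≤ 2 := by nlinarith only [hp, hW4, hp0, hW0]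
  have hpW0 : 0 ≤ p * W := by positivity
  have nr : ∀ r : ℝ, 0 ≤ r → ‖(r : ℂ)‖ = r := fun r hr => by
    rw [norm_real, Real.norm_of_nonneg hr]
  set K0 : ℂ := 1 + p * (ζ - 1) with hK0
  set c3 : ℂ := (((1 - p) * t1 * t2 : ℝ) : ℂ) + ((p * u1 * u2 : ℝ) : ℂ) * ζ with hc3
  set E2 : ℂ := u1 * (p * (ζ - 1) * x) + u2 * (p * (ζ - 1) * y) + c3 * x * y with hE2
  set Er : ℂ := P1 * x + P2 * y + E2 with hEr
  have eK : (1 - (p : ℂ)) * (1 + t1 * x) * (1 + t2 * y) + p * ζ * (1 + u1 * x) * (1 + u2 * y) =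
      K0 + Er := by
    rw [hK0, hEr, hE2, hc3, hP1, hP2]
    push_cast
    ring
  have hc3n : ‖c3‖ ≤ P1 := by
    refine (norm_add_le _ _).trans ?_
    rw [norm_mul, hζ1, nr _ (by positivity), nr _ (by positivity), hP1]
    have h1 : (1 - p) * t1 * t2 ≤ (1 - p) * t1 := mul_le_of_le_one_right (by positivity) ht2'
    have h2 : p * u1 * u2 ≤ p * u1 := mul_le_of_le_one_right (by positivity) hu2'
    linarith
  have hpx : ‖(p : ℂ) * (ζ - 1) * x‖ ≤ p * W * ‖x‖ := by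
    rw [norm_mul, norm_mul, nr p hp0]
    gcongr
  have hpy : ‖(p : ℂ) * (ζ - 1) * y‖ ≤ p * W * ‖y‖ := by
    rw [norm_mul, norm_mul, nr p hp0]
    gcongr
  have hcxy : ‖c3 * x * y‖ ≤ P1 * ‖x‖ * ‖y‖ := by
    rw [norm_mul, norm_mul]
    gcongr
  have hE2a : ‖E2‖ ≤ p * W * ‖x‖ + p * W * ‖y‖ + P1 * ‖x‖ * ‖y‖ := by
    refine norm_add₃_le.trans ?_
    rw [norm_mul (u1 : ℂ), norm_mul (u2 : ℂ), nr u1 hu1, nr u2 hu2]
    have h1 := mul_le_mul hu1' hpx (norm_nonneg _) zero_le_one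
    have h2 := mul_le_mul hu2' hpy (norm_nonneg _) zero_le_one
    linarith
  have hσX : 0 ≤ σ * X := by positivity
  have hσ2 : 2 * σ ^ 2 ≤ σ / 5 := by nlinarith only [hσ0, hσ]
  have hE2b : ‖E2‖ ≤ 33 * σ * X := by
    have h1 : P1 * ‖x‖ * ‖y‖ ≤ 2 * X * (σ / 5) :=
      mul_le_mul x3 (y2.trans hσ2) (norm_nonneg _) (by positivity)
    linarith only [h1, hE2a, x4, y4, hσX]
  have hEra : ‖Er‖ ≤ P1 * ‖x‖ + P2 * ‖y‖ + ‖E2‖ := by
    refine norm_add₃_le.trans ?_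
    rw [norm_mul, norm_mul, nr _ hP10, nr _ hP20]
  have hx1 : P1 * ‖x‖ ≤ ‖x‖ := mul_le_of_le_one_left (norm_nonneg _) hP11
  have hy1 : P2 * ‖y‖ ≤ ‖y‖ := mul_le_of_le_one_left (norm_nonneg _) hP21
  have hErb : ‖Er‖ ≤ 8 * X := by
    have := mul_le_mul_of_nonneg_right hσ hX
    linarith only [this, hEra, x3, y3, hE2b, hX]
  have hErc : ‖Er‖ ≤ 2 * σ := by
    have h1 : p * W * ‖x‖ ≤ 2 * (σ / 5) := mul_le_mul hpW (x2.trans hσ2) (norm_nonneg _) (by norm_num)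
    have h2 : p * W * ‖y‖ ≤ 2 * (σ / 5) := mul_le_mul hpW (y2.trans hσ2) (norm_nonneg _) (by norm_num)
    have h3 : P1 * ‖x‖ * ‖y‖ ≤ 1 * (σ / 5) :=
      mul_le_mul (by linarith) (y2.trans hσ2) (norm_nonneg _) zero_le_one
    linarith
  have hErd : ‖Er‖ ^ 2 ≤ 16 * σ * X := by
    calc ‖Er‖ ^ 2 = ‖Er‖ * ‖Er‖ := sq _
      _ ≤ (2 * σ) * (8 * X) := mul_le_mul hErc hErb (norm_nonneg _) (by positivity)
      _ = _ := by ring
  have hEre : p * W * ‖Er‖ ≤ 98 * σ * X := by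
    have h1 : p * W * ‖E2‖ ≤ 2 * (33 * σ * X) := mul_le_mul hpW hE2b (norm_nonneg _) (by norm_num)
    have h2 : p * W * ‖Er‖ ≤ p * W * (‖x‖ + ‖y‖ + ‖E2‖) := by gcongr; linarith
    linarith only [h1, h2, x4, y4]
  have hsq : ‖K0 + Er‖ ^ 2 = ‖K0‖ ^ 2 + ‖Er‖ ^ 2 + 2 * (K0 * (starRingEnd ℂ) Er).re := by
    simp only [Complex.sq_norm]
    exact normSq_add K0 Er
  have hK0sq : ‖K0‖ ^ 2 = 1 - 2 * (p * (1 - p)) * (1 - ζ.re) := by
    have h : ζ.re * ζ.re + ζ.im * ζ.im = 1 := by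
      rw [← normSq_apply, ← Complex.sq_norm, hζ1, one_pow]
    rw [Complex.sq_norm, normSq_apply, hK0]
    simp only [add_re, add_im, mul_re, mul_im, sub_re, sub_im, one_re, one_im, ofReal_re, ofReal_im]
    linear_combination p ^ 2 * h
  have hcross : (K0 * (starRingEnd ℂ) Er).re ≤ Er.re + p * W * ‖Er‖ := by
    have e : K0 * (starRingEnd ℂ) Er = (starRingEnd ℂ) Er + p * (ζ - 1) * (starRingEnd ℂ) Er := by
      rw [hK0]; ring
    rw [e, add_re, conj_re]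
    have h1 := re_le_norm ((p : ℂ) * (ζ - 1) * (starRingEnd ℂ) Er)
    rw [norm_mul, norm_mul, nr p hp0, norm_conj] at h1
    have h2 : p * ‖ζ - 1‖ * ‖Er‖ ≤ p * W * ‖Er‖ := by gcongr
    linarith
  have hre : Er.re - (S1 + S2).re ≤ 43 * σ * X := by
    have e : Er.re - (S1 + S2).re = ((P1 : ℂ) * x - S1).re + ((P2 : ℂ) * y - S2).re + E2.re := by
      rw [hEr]
      simp only [add_re, sub_re]
      ring
    have h1 := re_le_norm ((P1 : ℂ) * x - S1)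
    have h2 := re_le_norm ((P2 : ℂ) * y - S2)
    have h3 := re_le_norm E2
    linarith
  have h0 : -S0.re ≤ -(p * (1 - p) * (ζ.re - z.re - z'.re + 1)) + 30 * σ * X := by
    have h1 := abs_re_le_norm (S0 - ((p * (1 - p) : ℝ) : ℂ) * ((z - 1) * (z' - 1)))
    have e : (z - 1) * (z' - 1) = ζ - z - z' + 1 := by rw [hζ]; ring
    rw [e, sub_re, re_ofReal_mul] at h1
    rw [e] at z1
    simp only [add_re, sub_re, one_re] at h1
    have h2 := (abs_le.1 (h1.trans z1)).1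
    linarith
  rw [eK, hsq, hK0sq, ker_unit_sq hz, ker_unit_sq hz', add_assoc S0, add_re]
  linarith only [h0, hre, hcross, hEre, hErd, hσX]

theorem ker_sc0 {P : Par} (hP : P.Ok) :
    sc P.N P.N P.d ^ 2 = kap P.N P.d * (1 - kap P.N P.d) := by
  have h2 : (P.N : ℝ) ≠ 0 := by
    have := hP.d4
    have := hP.dN'
    exact_mod_cast (by omega : P.N ≠ 0)
  rw [sc_sq (by have := hP.d4; omega) hP.dN', lam]
  field_simp

theorem ker_sc {N D k : ℕ} (h1 : 1 ≤ k) (h2 : 4 * k ≤ D) :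
    sc N D k ^ 2 = (D : ℝ) / N * (kap D k * (1 - kap D k)) := by
  rw [sc_sq h1 (by omega), lam]
  ring

theorem ker_p_le {p : ℝ} {t u : ℕ} (hp : p ≤ 1 / 2) (ht : t ≤ 1) (hu : u ≤ 1)
    (hs : 1 ≤ t + u) : p ≤ (1 - p) * t + p * u := by
  interval_cases t <;> interval_cases u
  · omega
  all_goals push_cast; linarith

theorem ker_lam {N D k t u : ℕ} {s0 p Q σ : ℝ} (ht : t ≤ 1) (hu : u ≤ 1) (hs : 1 ≤ t + u)
    (h1 : 1 ≤ k) (hk : 4 * k ≤ D) (hs00 : 0 ≤ s0) (hs0 : s0 ^ 2 ≤ p) (hpQ : p ≤ Q)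
    (hQ : (D : ℝ) / N = Q) (hσ : σ ≤ 1 / 10) {a : ℂ} (hr : √(kap D k) * ‖a - 1‖ ≤ σ) :
    ‖lamf D k t u a - 1‖ ≤ 1 ∧ s0 * ‖lamf D k t u a - 1‖ ≤ 4 * σ * (sc N D k * ‖a - 1‖) := by
  have hK0 := kap_nonneg D k
  have hK : kap D k ≤ 1 / 4 := by simpa using kap_le (c := 4) (by norm_num) hk
  have hsq := ker_sc (N := N) h1 hk
  rw [hQ] at hsq
  have hs1 := sc_nonneg N D k
  set K := kap D k with hKdef
  have hsK : √K * √K = K := Real.mul_self_sqrt hK0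
  have hsK0 : 0 ≤ √K := Real.sqrt_nonneg _
  have hsK2 : √K ≤ 1 / 2 := by
    rw [Real.sqrt_le_iff]
    constructor <;> linarith
  have hα0 : 0 ≤ ‖a - 1‖ := norm_nonneg _
  have hr0 : 0 ≤ √K * ‖a - 1‖ := by positivity
  have h2 : K * ‖a - 1‖ ≤ 1 / 2 := by
    calc K * ‖a - 1‖ = √K * (√K * ‖a - 1‖) := by rw [← mul_assoc, hsK]
      _ ≤ 1 / 2 * (1 / 10) := mul_le_mul hsK2 (hr.trans hσ) hr0 (by norm_num)
      _ ≤ _ := by norm_num
  have h3 : ‖lamf D k t u a - 1‖ ≤ 2 * ((√K * ‖a - 1‖) * (√K * ‖a - 1‖)) := by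
    refine (lamf_sub_one ht hu hs hk h2).trans (le_of_eq ?_)
    calc 2 * K * ‖a - 1‖ ^ 2 = 2 * (√K * √K) * ‖a - 1‖ ^ 2 := by rw [hsK]
      _ = _ := by ring
  have h4 : s0 * √K ≤ 2 * sc N D k := by
    refine (sq_le_sq₀ (by positivity) (by positivity)).1 ?_
    have hp0 : 0 ≤ p := (sq_nonneg _).trans hs0
    have hQ0 : 0 ≤ Q := hp0.trans hpQ
    rw [mul_pow, mul_pow, hsq, Real.sq_sqrt hK0]
    have : s0 ^ 2 * K ≤ Q * K := mul_le_mul_of_nonneg_right (hs0.trans hpQ) hK0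
    nlinarith only [mul_nonneg hQ0 hK0, this, hK]
  refine ⟨h3.trans (by nlinarith only [hr0, hr, hσ]), ?_⟩
  calc s0 * ‖lamf D k t u a - 1‖ ≤ s0 * (2 * ((√K * ‖a - 1‖) * (√K * ‖a - 1‖))) := by gcongr
    _ = 2 * ((√K * ‖a - 1‖) * ((s0 * √K) * ‖a - 1‖)) := by ring
    _ ≤ 2 * (σ * ((2 * sc N D k) * ‖a - 1‖)) := by
        have : 0 ≤ σ := hr0.trans hr
        gcongr
    _ = _ := by ring

theorem ker_Th {P : Par} (w : ℂ × ℂ × ℂ) :
    sc P.N P.N P.d * ‖w.1 - 1‖ ≤ P.Th w ∧ sc P.N P.D1 P.k * ‖w.2.1 - 1‖ ≤ P.Th w ∧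
      sc P.N P.D2 P.k * ‖w.2.2 - 1‖ ≤ P.Th w ∧ 1 / √P.n ≤ P.Th w := by
  have h0 : 0 ≤ sc P.N P.N P.d * ‖w.1 - 1‖ := mul_nonneg (sc_nonneg _ _ _) (norm_nonneg _)
  have h1 : 0 ≤ sc P.N P.D1 P.k * ‖w.2.1 - 1‖ := mul_nonneg (sc_nonneg _ _ _) (norm_nonneg _)
  have h2 : 0 ≤ sc P.N P.D2 P.k * ‖w.2.2 - 1‖ := mul_nonneg (sc_nonneg _ _ _) (norm_nonneg _)
  have h3 : 0 ≤ 1 / √(P.n : ℝ) := by positivity
  unfold Par.Th
  refine ⟨?_, ?_, ?_, ?_⟩ <;> linarith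

theorem ker_first {P : Par} (hP : P.Ok) {σ : ℝ} (hσ0 : 0 < σ) (hσ : σ ≤ 1 / 10) {sb : Fin 3 → ℝ}
    (hsb : ∀ i, |sb i - P.scv i| ≤ σ / √P.n) {w : ℂ × ℂ × ℂ} (hw : ‖w.1‖ = 1)
    (h1 : √(kap P.D1 P.k) * ‖w.2.1 - 1‖ ≤ σ) (h2 : √(kap P.D2 P.k) * ‖w.2.2 - 1‖ ≤ σ) :
    ‖P.ss 0 w - sb 0 - P.scv 0 * (w.1 - 1)‖ ≤ 13 * σ * P.Th w := by
  obtain ⟨-, t1, t2, t3⟩ := ker_Th (P := P) w
  have hk0 := hP.kap0
  have hs0 := sc_nonneg P.N P.N P.d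
  have hs0' : sc P.N P.N P.d ^ 2 ≤ kap P.N P.d := by rw [ker_sc0 hP]; nlinarith
  obtain ⟨a1, a2⟩ := ker_lam (N := P.N) hP.t1 hP.u1 hP.s1 hP.k1 hP.kD1 hs0 hs0'
    (ker_p_le hk0.2 hP.t1 hP.u1 hP.s1) hP.D1_div hσ h1
  obtain ⟨b1, b2⟩ := ker_lam (N := P.N) hP.t2 hP.u2 hP.s2 hP.k1 hP.kD2 hs0 hs0'
    (ker_p_le hk0.2 hP.t2 hP.u2 hP.s2) hP.D2_div hσ h2
  have h0 := hsb 0
  simp only [Par.ss, Par.scv, Matrix.cons_val_zero] at h0 ⊢
  set l1 := lamf P.D1 P.k P.t1 P.u1 w.2.1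
  set l2 := lamf P.D2 P.k P.t2 P.u2 w.2.2
  set s0 := sc P.N P.N P.d
  have e : (s0 : ℂ) * w.1 * l1 * l2 - sb 0 - s0 * (w.1 - 1) =
      s0 * (l1 - 1) * (w.1 * l2) + s0 * (l2 - 1) * w.1 - ((sb 0 - s0 : ℝ) : ℂ) := by
    push_cast
    ring
  have c1 : ‖(s0 : ℂ) * (l1 - 1) * (w.1 * l2)‖ ≤ 4 * σ * P.Th w * 2 := by
    rw [norm_mul, norm_mul, norm_mul, hw, one_mul, norm_real, Real.norm_of_nonneg hs0]
    have := ker_norm_le b1
    refine mul_le_mul (a2.trans (by gcongr)) (by linarith) (norm_nonneg _) ?_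
    have : 0 ≤ P.Th w := le_trans (by positivity) t3
    positivity
  have c2 : ‖(s0 : ℂ) * (l2 - 1) * w.1‖ ≤ 4 * σ * P.Th w := by
    rw [norm_mul, norm_mul, hw, mul_one, norm_real, Real.norm_of_nonneg hs0]
    exact b2.trans (by gcongr)
  have c3 : ‖((sb 0 - s0 : ℝ) : ℂ)‖ ≤ σ * P.Th w := by
    rw [norm_real, Real.norm_eq_abs]
    refine h0.trans ?_
    rw [div_eq_mul_one_div]
    gcongr
  rw [e]
  refine (norm_sub_le _ _).trans ?_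
  have := norm_add_le ((s0 : ℂ) * (l1 - 1) * (w.1 * l2)) ((s0 : ℂ) * (l2 - 1) * w.1)
  linarith

theorem ker_lin {s η σ ν T : ℝ} {a : ℂ} (hs : 0 ≤ s) (hσ : σ ≤ 1) (hν0 : 0 ≤ ν) (hν : ν ≤ T)
    (hη : |η - s| ≤ σ * ν) (hT : s * ‖a - 1‖ ≤ T) : ‖(s : ℂ) * a - η‖ ≤ 2 * T := by
  have e : (s : ℂ) * a - η = s * (a - 1) - ((η - s : ℝ) : ℂ) := by push_cast; ring
  rw [e]
  refine (norm_sub_le _ _).trans ?_
  rw [norm_mul, norm_real, norm_real, Real.norm_of_nonneg hs, Real.norm_eq_abs]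
  nlinarith

/-- Crude bound of the kernel. -/
theorem ker_crude : ∃ C : ℝ, 1 ≤ C ∧ ∀ P : Par, P.Ok → ∀ σ : ℝ, 0 < σ → σ ≤ 1 / 10 →
    ∀ sb : Fin 3 → ℝ, (∀ i, |sb i - P.scv i| ≤ σ / √P.n) →
    (∀ w : ℂ × ℂ × ℂ, ‖w.1‖ = 1 → √(kap P.D1 P.k) * ‖w.2.1 - 1‖ ≤ σ →
      √(kap P.D2 P.k) * ‖w.2.2 - 1‖ ≤ σ →
      ‖P.ss 0 w - sb 0 - P.scv 0 * (w.1 - 1)‖ ≤ C * σ * P.Th w ∧
        ∀ i, ‖P.ss i w - sb i‖ ≤ C * P.Th w) ∧
    ∀ w w' : ℂ × ℂ × ℂ, ‖w.1‖ = 1 → √(kap P.D1 P.k) * ‖w.2.1 - 1‖ ≤ σ →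
      √(kap P.D2 P.k) * ‖w.2.2 - 1‖ ≤ σ → ‖w'.1‖ = 1 → √(kap P.D1 P.k) * ‖w'.2.1 - 1‖ ≤ σ →
      √(kap P.D2 P.k) * ‖w'.2.2 - 1‖ ≤ σ →
      ‖P.Ker w w'‖ * Real.exp (-(∑ i, (P.ss i w - sb i) * (P.ss i w' - sb i)).re) ≤
        Real.exp (-(P.scv 0 * ‖w.1 - 1‖) ^ 2 / 2 - (P.scv 0 * ‖w'.1 - 1‖) ^ 2 / 2 +
          C * σ * (P.Th w ^ 2 + P.Th w' ^ 2)) := by
  refine ⟨200, by norm_num, fun P hP σ hσ0 hσ sb hsb => ?_⟩
  have hν0 : 0 ≤ 1 / √(P.n : ℝ) := by positivity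
  have hb1 : |sb 1 - sc P.N P.D1 P.k| ≤ σ * (1 / √P.n) := by
    rw [← div_eq_mul_one_div]; exact hsb 1
  have hb2 : |sb 2 - sc P.N P.D2 P.k| ≤ σ * (1 / √P.n) := by
    rw [← div_eq_mul_one_div]; exact hsb 2
  have hs0 := sc_nonneg P.N P.N P.d
  have hscv : P.scv 0 = sc P.N P.N P.d := rfl
  have n0 : ∀ z : ℂ, ‖(P.scv 0 : ℂ) * (z - 1)‖ = sc P.N P.N P.d * ‖z - 1‖ := fun z => by
    rw [hscv, norm_mul, norm_real, Real.norm_of_nonneg hs0]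
  refine ⟨fun w hw h1 h2 => ?_, fun w w' hw h1 h2 hw' h1' h2' => ?_⟩
  · obtain ⟨t0, t1, t2, t3⟩ := ker_Th (P := P) w
    have hT : 0 ≤ P.Th w := hν0.trans t3
    have hf := ker_first hP hσ0 hσ hsb hw h1 h2
    have hσT : 0 ≤ σ * P.Th w := by positivity
    refine ⟨hf.trans (by linarith only [hσT]), fun i => ?_⟩
    fin_cases i
    · have := norm_add_le (P.ss 0 w - sb 0 - P.scv 0 * (w.1 - 1)) (P.scv 0 * (w.1 - 1))
      rw [sub_add_cancel, n0] at this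
      change ‖P.ss 0 w - sb 0‖ ≤ _
      have h3 := mul_le_mul_of_nonneg_right hσ hT
      linarith only [this, hf, t0, h3, hT]
    · exact (ker_lin (sc_nonneg _ _ _) (by linarith) hν0 t3 hb1 t1).trans (by linarith)
    · exact (ker_lin (sc_nonneg _ _ _) (by linarith) hν0 t3 hb2 t2).trans (by linarith)
  · obtain ⟨t0, t1, t2, t3⟩ := ker_Th (P := P) w
    obtain ⟨t0', t1', t2', t3'⟩ := ker_Th (P := P) w'
    have hT : 0 ≤ P.Th w := hν0.trans t3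
    have hT' : 0 ≤ P.Th w' := hν0.trans t3'
    have hk0 := hP.kap0
    have hsq0 := ker_sc0 hP
    have hps : √(kap P.N P.d) ≤ 2 * sc P.N P.N P.d := by
      rw [Real.sqrt_le_iff]
      refine ⟨by positivity, ?_⟩
      rw [mul_pow, hsq0]
      nlinarith only [hk0.1, hk0.2]
    have hZ : ∀ z : ℂ, √(kap P.N P.d) * ‖z - 1‖ ≤ 2 * (sc P.N P.N P.d * ‖z - 1‖) := fun z => by
      rw [← mul_assoc]
      exact mul_le_mul_of_nonneg_right hps (norm_nonneg _)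
    have hA : ∀ {D : ℕ} {a : ℂ}, kap D P.k ≤ 1 / 4 → √(kap D P.k) * ‖a - 1‖ ≤ σ →
        Af D P.k a ≠ 0 := by
      intro D a hK hr
      have hK0 := kap_nonneg D P.k
      have hsK2 : √(kap D P.k) ≤ 1 / 2 := by
        rw [Real.sqrt_le_iff]
        constructor <;> linarith
      refine Af_ne ?_
      calc kap D P.k * ‖a - 1‖ = √(kap D P.k) * (√(kap D P.k) * ‖a - 1‖) := by
            rw [← mul_assoc, Real.mul_self_sqrt hK0]
        _ ≤ 1 / 2 * (1 / 10) := mul_le_mul hsK2 (hr.trans hσ) (by positivity) (by norm_num)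
        _ < 1 := by norm_num
    have hsq1 := ker_sc (N := P.N) hP.k1 hP.kD1
    have hsq2 := ker_sc (N := P.N) hP.k1 hP.kD2
    rw [hP.D1_div] at hsq1
    rw [hP.D2_div] at hsq2
    obtain ⟨x1, x2, x3, x4⟩ := ker_one hP.kap1.2 hk0.1.le
      (ker_p_le hk0.2 hP.t1 hP.u1 hP.s1) (sc_nonneg _ _ _) hsq1 hσ0 hσ h1 h1' t1 t1' hν0
      t3 t3' hb1 (norm_nonneg _) (norm_nonneg _) (hZ w.1) (hZ w'.1) t0 t0'
    obtain ⟨y1, y2, y3, y4⟩ := ker_one hP.kap2.2 hk0.1.le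
      (ker_p_le hk0.2 hP.t2 hP.u2 hP.s2) (sc_nonneg _ _ _) hsq2 hσ0 hσ h2 h2' t2 t2' hν0
      t3 t3' hb2 (norm_nonneg _) (norm_nonneg _) (hZ w.1) (hZ w'.1) t0 t0'
    have hf := ker_first hP hσ0 hσ hsb hw h1 h2
    have hf' := ker_first hP hσ0 hσ hsb hw' h1' h2'
    have z1 : ‖(P.ss 0 w - sb 0) * (P.ss 0 w' - sb 0) -
        ((kap P.N P.d * (1 - kap P.N P.d) : ℝ) : ℂ) * ((w.1 - 1) * (w'.1 - 1))‖ ≤
        30 * σ * (2 * (P.Th w * P.Th w')) := by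
      set δ := P.ss 0 w - sb 0 - P.scv 0 * (w.1 - 1) with hδ
      set δ' := P.ss 0 w' - sb 0 - P.scv 0 * (w'.1 - 1) with hδ'
      have e : (P.ss 0 w - sb 0) * (P.ss 0 w' - sb 0) -
          ((kap P.N P.d * (1 - kap P.N P.d) : ℝ) : ℂ) * ((w.1 - 1) * (w'.1 - 1)) =
          P.scv 0 * (w.1 - 1) * δ' + δ * (P.scv 0 * (w'.1 - 1)) + δ * δ' := by
        rw [← hsq0, hδ, hδ', hscv]
        push_cast
        ring
      have c1 : ‖P.scv 0 * (w.1 - 1) * δ'‖ ≤ P.Th w * (13 * σ * P.Th w') := by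
        rw [norm_mul, n0]
        exact mul_le_mul t0 hf' (norm_nonneg _) hT
      have c2 : ‖δ * (P.scv 0 * (w'.1 - 1))‖ ≤ (13 * σ * P.Th w) * P.Th w' := by
        rw [norm_mul, n0]
        exact mul_le_mul hf t0' (by positivity) (by positivity)
      have c3 : ‖δ * δ'‖ ≤ (13 * σ * P.Th w) * (13 * (1 / 10) * P.Th w') := by
        rw [norm_mul]
        exact mul_le_mul hf (hf'.trans (by gcongr)) (norm_nonneg _) (by positivity)
      have c4 : 0 ≤ σ * (P.Th w * P.Th w') := by positivity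
      rw [e]
      refine norm_add₃_le.trans ?_
      linarith
    have c4 : 0 ≤ σ * (P.Th w * P.Th w') := by positivity
    have c5 : 0 ≤ P.Th w * P.Th w' := by positivity
    have main := ker_abs (X := 2 * (P.Th w * P.Th w')) hk0.1.le hk0.2 (Nat.cast_nonneg P.t1)
      (Nat.cast_nonneg P.u1) (by exact_mod_cast hP.u1) (by exact_mod_cast hP.t1)
      (Nat.cast_nonneg P.t2) (by exact_mod_cast hP.t2) (Nat.cast_nonneg P.u2)
      (by exact_mod_cast hP.u2) hσ0 hσ (by positivity) hw hw' (x1.trans (by linarith)) x2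
      (x3.trans (by linarith)) (x4.trans (by linarith)) (y1.trans (by linarith)) y2
      (y3.trans (by linarith)) (y4.trans (by linarith)) z1
    simp only [ofReal_natCast] at main
    rw [← ker_closed hP (hA hP.kap1.2 h1) (hA hP.kap2.2 h2) (hA hP.kap1.2 h1')
      (hA hP.kap2.2 h2')] at main
    refine (mul_le_mul_of_nonneg_right (ker_le_exp _) (Real.exp_pos _).le).trans ?_
    rw [← Real.exp_add, Real.exp_le_exp, Fin.sum_univ_three, hscv, mul_pow, mul_pow, hsq0]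
    have c6 : σ * (2 * (P.Th w * P.Th w')) ≤ σ * (P.Th w ^ 2 + P.Th w' ^ 2) :=
      mul_le_mul_of_nonneg_left (by nlinarith only [sq_nonneg (P.Th w - P.Th w')]) hσ0.le
    have e1 : P.ss 1 w = sc P.N P.D1 P.k * w.2.1 := rfl
    have e1' : P.ss 1 w' = sc P.N P.D1 P.k * w'.2.1 := rfl
    have e2 : P.ss 2 w = sc P.N P.D2 P.k * w.2.2 := rfl
    have e2' : P.ss 2 w' = sc P.N P.D2 P.k * w'.2.2 := rfl
    rw [e1, e1', e2, e2']
    linarith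

end Pool.Agent.Lib.MP_d20c4f_pr.H53
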