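import Pool.Agent.Lib.MP_d20c4f_pr.H53CircX
import Pool.Agent.Lib.MP_d20c4f_pr.H53CircY
import Pool.Agent.Lib.MP_d20c4f_pr.H53Ker

/-!
Moments of the normalised vertex density.
-/

namespace Pool.Agent.Lib.MP_d20c4f_pr.H53

open MeasureTheory Complex Finset

theorem mom_pt (θ : ℝ × ℝ × ℝ) : pt 1 θ = (E θ.1, E θ.2.1, E θ.2.2) := by simp [pt]

theorem mom_int {V : Type} [NormedAddCommGroup V] {f : ℝ → V} (hf : Continuous f) :
    Integrable f ang :=
  (hf.integrableOn_Ioc).smul_measure (by simp [Real.pi_pos])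

theorem mom_prod {K : Type} [RCLike K] (F G H : ℝ → K) :
    ∫ θ, F θ.1 * G θ.2.1 * H θ.2.2 ∂ang3 = (∫ x, F x ∂ang) * (∫ x, G x ∂ang) * ∫ x, H x ∂ang := by
  simp only [mul_assoc]
  rw [ang3, integral_prod_mul F fun y : ℝ × ℝ => G y.1 * H y.2, integral_prod_mul]

theorem mom_cont_dens (D k : ℕ) : Continuous fun x => dens D k (E x) := by
  unfold dens
  exact (Continuous.div (by fun_prop) (by fun_prop) fun x => pow_ne_zero _ (E_ne x)).div_const _

theorem mom_ell {D k t u : ℕ} (ht : t ≤ 1) (hu : u ≤ 1) (hs : 1 ≤ t + u) (h1 : 1 ≤ k)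
    (hk : 4 * k ≤ D) : |ell D k t u - 1| ≤ 75 / D := by
  have h2 : 2 * k ≤ D := by omega
  have hK : kap D k ≤ 1 / 4 := by simpa using kap_le (c := 4) (by norm_num) hk
  have hK0 := kap_pos h1 (show k ≤ D by omega)
  have hD : (0 : ℝ) < D := by exact_mod_cast (by omega : 0 < D)
  have hw : ∀ x, kap D k * ‖E x - 1‖ ≤ 1 / 2 := fun x => by nlinarith [norm_E_sub_one_le x]
  have hl : Continuous fun x => lamf D k t u (E x) := by
    unfold lamf
    exact Continuous.div (by fun_prop) (by fun_prop) fun x =>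
      pow_ne_zero _ (Af_ne ((hw x).trans_lt (by norm_num)))
  have hd := mom_cont_dens D k
  have hlam : 0 < lam D k := by
    have := (lam_bounds h1 h2).1
    have : (0 : ℝ) < k := by exact_mod_cast h1
    linarith
  have e : ((ell D k t u - 1 : ℝ) : ℂ) =
      ∫ x, (dens D k (E x) * lamf D k t u (E x) - dens D k (E x)) ∂ang := by
    rw [integral_sub (mom_int (by fun_prop)) (mom_int hd), int_lamf, int_dens h1 h2]
    push_cast
    rfl
  rw [← Real.norm_eq_abs, ← Complex.norm_real, e]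
  have hb : ∀ x, ‖dens D k (E x) * lamf D k t u (E x) - dens D k (E x)‖ ≤
      8 * kap D k / lam D k * (‖dens D k (E x)‖ * Real.exp (lam D k * (1 - Real.cos x) / 2)) := by
    intro x
    rw [← mul_sub_one, norm_mul, mul_left_comm]
    refine mul_le_mul_of_nonneg_left ((lamf_sub_one ht hu hs hk (hw x)).trans ?_) (norm_nonneg _)
    rw [norm_E_sub_one_sq, div_mul_eq_mul_div, le_div_iff₀ hlam]
    have := Real.add_one_le_exp (lam D k * (1 - Real.cos x) / 2)
    nlinarith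
  refine (norm_integral_le_of_norm_le (mom_int (by fun_prop)) (.of_forall hb)).trans ?_
  rw [integral_const_mul]
  refine (mul_le_mul_of_nonneg_left (psi_two h1 h2) (by positivity)).trans ?_
  rw [div_mul_eq_mul_div, div_le_div_iff₀ hlam hD, lam]
  nlinarith [mul_pos hD hK0]

theorem mom_abar {D k : ℕ} (h1 : 1 ≤ k) (h2 : 2 * k ≤ D) :
    0 ≤ abar D k ∧ abar D k ≤ 1 ∧ 1 - abar D k ≤ 2 / D := by
  have a1 : (1 : ℝ) ≤ k := by exact_mod_cast h1
  have a2 : (2 : ℝ) * k ≤ D := by exact_mod_cast h2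
  have a3 : (0 : ℝ) < (D : ℝ) - k + 1 := by linarith
  refine ⟨div_nonneg (by linarith) a3.le, (div_le_one a3).2 (by linarith), ?_⟩
  rw [abar, one_sub_div a3.ne', div_le_div_iff₀ a3 (by linarith)]
  linarith

theorem mom_sc {P : Par} (hP : P.Ok) {D k : ℕ} (h1 : 1 ≤ k) (h2 : 2 * k ≤ D) :
    P.n * sc P.N D k ^ 2 ≤ 2 * lam D k := by
  have hN : (1 : ℝ) ≤ P.N := by
    have := hP.d4; have := hP.dN'; exact_mod_cast (by omega : 1 ≤ P.N)
  have h3 := (lam_bounds h1 h2).1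
  have h4 : (0 : ℝ) ≤ k := by positivity
  rw [sc_sq h1 h2, hP.n_eq, ← mul_div_assoc, div_le_iff₀ (by linarith)]
  push_cast
  nlinarith

theorem mom_close {P : Par} (hP : P.Ok) {D k : ℕ} (h1 : 1 ≤ k) (h2 : 2 * k ≤ D) (h3 : k ≤ P.d)
    {x : ℝ} (hx : |x - 1| ≤ 240 / P.d) :
    |sc P.N D k * x - sc P.N D k| ≤ 480 / (√P.n * √P.d) := by
  have hd : (4 : ℝ) ≤ P.d := by exact_mod_cast hP.d4
  have hn : (0 : ℝ) < P.n := by have := hP.dN; exact_mod_cast (by omega : 0 < P.n)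
  have h4 := mom_sc hP h1 h2
  have h5 : lam D k ≤ P.d := (lam_bounds h1 h2).2.trans (by exact_mod_cast h3)
  have h0 := sc_nonneg P.N D k
  have h6 : sc P.N D k * (√P.n * √P.d) ≤ 2 * P.d := by
    refine le_of_sq_le_sq ?_ (by positivity)
    rw [mul_pow, mul_pow, Real.sq_sqrt hn.le, Real.sq_sqrt (by positivity)]
    nlinarith
  rw [← mul_sub_one, abs_mul, abs_of_nonneg h0, le_div_iff₀ (by positivity)]
  rw [le_div_iff₀ (by positivity)] at hx
  nlinarith [abs_nonneg (x - 1)]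

theorem mom_div {c : ℝ} (hc : 0 ≤ c) {P : Par} (hP : P.Ok) {D : ℕ} (h : P.d ≤ D) :
    c / D ≤ c / P.d := by
  have hd : (4 : ℝ) ≤ P.d := by exact_mod_cast hP.d4
  exact div_le_div_of_nonneg_left hc (by linarith) (by exact_mod_cast h)

theorem mom_ell1 {P : Par} (hP : P.Ok) : |ell P.D1 P.k P.t1 P.u1 - 1| ≤ 75 / P.d :=
  (mom_ell hP.t1 hP.u1 hP.s1 hP.k1 hP.kD1).trans (mom_div (by norm_num) hP hP.D1_bounds.1)

theorem mom_ell2 {P : Par} (hP : P.Ok) : |ell P.D2 P.k P.t2 P.u2 - 1| ≤ 75 / P.d :=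
  (mom_ell hP.t2 hP.u2 hP.s2 hP.k1 hP.kD2).trans (mom_div (by norm_num) hP hP.D2_bounds.1)

theorem sbar_close : ∃ L : ℝ, ∃ D0 : ℕ, 1 ≤ L ∧ ∀ P : Par, P.Ok → D0 ≤ P.d →
    ∀ i, |P.sbar i - P.scv i| ≤ L / (√P.n * √P.d) := by
  refine ⟨480, 75, by norm_num, fun P hP hd i => ?_⟩
  have hd' : (75 : ℝ) ≤ P.d := by exact_mod_cast hd
  have hk := hP.kd
  have key : ∀ {D k : ℕ}, 1 ≤ k → 2 * k ≤ D → P.d ≤ D → |abar D k - 1| ≤ 2 / P.d := by
    intro D k h1 h2 h3
    obtain ⟨-, a, b⟩ := mom_abar h1 h2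
    rw [abs_sub_comm, abs_of_nonneg (by linarith)]
    exact b.trans (mom_div (by norm_num) hP h3)
  have hle : (2 : ℝ) / P.d ≤ 240 / P.d := by gcongr; norm_num
  fin_cases i
  · have a := key (by omega) hP.dN' (by have := hP.dN'; omega)
    have b := mom_ell1 hP
    have c := mom_ell2 hP
    have e : (75 : ℝ) / P.d ≤ 1 := (div_le_one (by linarith)).2 hd'
    have := mom_close hP (D := P.N) (k := P.d) (by omega) hP.dN' le_rfl
      (x := abar P.N P.d * ell P.D1 P.k P.t1 P.u1 * ell P.D2 P.k P.t2 P.u2) (by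
        generalize abar P.N P.d = x at *
        generalize ell P.D1 P.k P.t1 P.u1 = y at *
        generalize ell P.D2 P.k P.t2 P.u2 = z at *
        have hy : |y| ≤ 2 := by rw [abs_le] at *; constructor <;> linarith [b.1, b.2]
        have hz : |z| ≤ 2 := by rw [abs_le] at *; constructor <;> linarith [c.1, c.2]
        have h1 : |(x - 1) * y * z| ≤ 2 / P.d * 2 * 2 := by
          rw [abs_mul, abs_mul]; gcongr
        have h2 : |(y - 1) * z| ≤ 75 / P.d * 2 := by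
          rw [abs_mul]; gcongr
        have h3 := abs_add_three ((x - 1) * y * z) ((y - 1) * z) (z - 1)
        rw [show (x - 1) * y * z + (y - 1) * z + (z - 1) = x * y * z - 1 by ring] at h3
        have h4 : 2 / (P.d : ℝ) * 2 * 2 + 75 / P.d * 2 + 75 / P.d = 233 / P.d := by ring
        have h5 : (233 : ℝ) / P.d ≤ 240 / P.d := by gcongr; norm_num
        linarith)
    simpa [Par.sbar, Par.scv, mul_assoc] using this
  · have h2 : 2 * P.k ≤ P.D1 := by have := hP.kD1; omega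
    simpa [Par.sbar, Par.scv] using mom_close hP hP.k1 h2 (by omega)
      ((key hP.k1 h2 hP.D1_bounds.1).trans hle)
  · have h2 : 2 * P.k ≤ P.D2 := by have := hP.kD2; omega
    simpa [Par.sbar, Par.scv] using mom_close hP hP.k1 h2 (by omega)
      ((key hP.k1 h2 hP.D2_bounds.1).trans hle)

theorem Bd_rho0 (P : Par) (δ : ℝ) : Bd (P.rho0 δ) := by
  refine Bd.indicator ?_ (P.measurableSet_box δ)
  have h0 : ∀ {w : ℂ} (m : ℕ), ‖w‖ = 1 → w ^ m ≠ 0 := fun m h =>
    pow_ne_zero _ (by rintro rfl; simp at h)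
  have := Bd_pt zero_le_one (F := fun w => dens P.N P.d w.1 * dens P.D1 P.k w.2.1 *
    dens P.D2 P.k w.2.2) (by
      unfold dens
      exact (((ContinuousOn.div (by fun_prop) (by fun_prop) fun w hw => h0 _ hw.1).div_const _).mul
        ((ContinuousOn.div (by fun_prop) (by fun_prop) fun w hw => h0 _ hw.2.1).div_const _)).mul
        ((ContinuousOn.div (by fun_prop) (by fun_prop) fun w hw => h0 _ hw.2.2).div_const _))
  simpa only [mom_pt] using this

theorem rho0_psi {P : Par} (hP : P.Ok) (δ : ℝ) :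
    ∫ θ, ‖P.rho0 δ θ‖ * Real.exp (P.n * P.Th (pt 1 θ) ^ 2 / 32) ∂ang3 ≤ 400 := by
  have hd : 1 ≤ P.d := by have := hP.d4; omega
  have h1 : 2 * P.k ≤ P.D1 := by have := hP.kD1; omega
  have h2 : 2 * P.k ≤ P.D2 := by have := hP.kD2; omega
  have hn : (0 : ℝ) < P.n := by have := hP.dN; exact_mod_cast (by omega : 0 < P.n)
  set f : ℕ → ℕ → ℝ → ℝ := fun D k x =>
    ‖dens D k (E x)‖ * Real.exp (lam D k * (1 - Real.cos x) / 2) with hf
  have hc : ∀ D k, Integrable (f D k) ang := fun D k => by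
    have := mom_cont_dens D k
    exact mom_int (by fun_prop)
  have h0 : ∀ D k, 0 ≤ ∫ x, f D k x ∂ang := fun D k => integral_nonneg fun x => by positivity
  have hb : ∀ θ : ℝ × ℝ × ℝ, ‖P.rho0 δ θ‖ * Real.exp (P.n * P.Th (pt 1 θ) ^ 2 / 32) ≤
      8 / 7 * (f P.N P.d θ.1 * f P.D1 P.k θ.2.1 * f P.D2 P.k θ.2.2) := by
    intro θ
    have t : ∀ {D k : ℕ}, 1 ≤ k → 2 * k ≤ D → ∀ x,
        P.n * (sc P.N D k * ‖E x - 1‖) ^ 2 ≤ 4 * (lam D k * (1 - Real.cos x)) := by
      intro D k a b x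
      rw [mul_pow, norm_E_sub_one_sq]
      nlinarith [mom_sc hP a b, Real.cos_le_one x]
    have t0 := t hd hP.dN' θ.1
    have t1 := t hP.k1 h1 θ.2.1
    have t2 := t hP.k1 h2 θ.2.2
    have t3 : P.n * (1 / √(P.n : ℝ)) ^ 2 = 1 := by
      rw [div_pow, Real.sq_sqrt hn.le]; field_simp
    have e : P.n * P.Th (pt 1 θ) ^ 2 / 32 ≤ 1 / 8 + (lam P.N P.d * (1 - Real.cos θ.1) / 2 +
        lam P.D1 P.k * (1 - Real.cos θ.2.1) / 2 + lam P.D2 P.k * (1 - Real.cos θ.2.2) / 2) := by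
      simp only [Par.Th, mom_pt]
      generalize sc P.N P.N P.d * ‖E θ.1 - 1‖ = a at *
      generalize sc P.N P.D1 P.k * ‖E θ.2.1 - 1‖ = b at *
      generalize sc P.N P.D2 P.k * ‖E θ.2.2 - 1‖ = c at *
      generalize 1 / √(P.n : ℝ) = e at *
      have : (a + b + c + e) ^ 2 ≤ 4 * (a ^ 2 + b ^ 2 + c ^ 2 + e ^ 2) := by
        nlinarith [sq_nonneg (a - b), sq_nonneg (a - c), sq_nonneg (a - e), sq_nonneg (b - c),
          sq_nonneg (b - e), sq_nonneg (c - e)]
      nlinarith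
    have e1 : Real.exp (1 / 8) ≤ 8 / 7 :=
      (Real.exp_bound_div_one_sub_of_interval (by norm_num) (by norm_num)).trans (by norm_num)
    have e2 := Real.exp_le_exp.2 e
    rw [Real.exp_add, Real.exp_add, Real.exp_add] at e2
    have e3 : ‖P.rho0 δ θ‖ ≤ ‖dens P.N P.d (E θ.1)‖ * ‖dens P.D1 P.k (E θ.2.1)‖ *
        ‖dens P.D2 P.k (E θ.2.2)‖ := by
      rw [← norm_mul, ← norm_mul]
      exact norm_indicator_le_norm_self _ _
    refine (mul_le_mul e3 (e2.trans (mul_le_mul_of_nonneg_right e1 (by positivity)))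
      (by positivity) (by positivity)).trans (le_of_eq ?_)
    simp only [hf]
    ring
  have hi : Integrable (fun θ : ℝ × ℝ × ℝ =>
      f P.N P.d θ.1 * f P.D1 P.k θ.2.1 * f P.D2 P.k θ.2.2) ang3 := by
    simpa only [mul_assoc, ang3] using (hc P.N P.d).mul_prod ((hc P.D1 P.k).mul_prod (hc P.D2 P.k))
  refine (integral_mono_of_nonneg (.of_forall fun θ => by positivity) (hi.const_mul _)
    (.of_forall hb)).trans ?_
  rw [integral_const_mul, mom_prod]
  have := mul_le_mul (mul_le_mul (psi_two hd hP.dN') (psi_two hP.k1 h1) (h0 _ _) (by norm_num))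
    (psi_two hP.k1 h2) (h0 _ _) (by norm_num)
  simp only [hf]
  linarith

/-- The integral over the first coordinate of the box. -/
noncomputable def momI (P : Par) (δ : ℝ) (F : ℂ → ℂ) : ℂ :=
  ∫ x, {x | √(kap P.N P.d) * ‖E x - 1‖ ≤ δ}.indicator (fun x => dens P.N P.d (E x) * F (E x)) x ∂ang

theorem mom_key (P : Par) (δ : ℝ) (F G H : ℂ → ℂ) {Φ : ℝ × ℝ × ℝ → ℂ}
    (h : ∀ θ, Φ θ = F (E θ.1) * G (E θ.2.1) * H (E θ.2.2)) :
    ∫ θ, P.rho0 δ θ * Φ θ ∂ang3 = momI P δ F * (∫ x, dens P.D1 P.k (E x) * G (E x) ∂ang) *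
      ∫ x, dens P.D2 P.k (E x) * H (E x) ∂ang := by
  rw [momI, ← mom_prod]
  refine integral_congr_ae (.of_forall fun θ => ?_)
  simp only [h, Par.rho0, Par.box, Set.indicator, Set.mem_ofPred_eq]
  split_ifs
  · ring
  · simp

/-- The size of the far terms. -/
noncomputable def momE (P : Par) (δ : ℝ) : ℝ :=
  Real.exp (-(((P.N - 2 : ℕ) : ℝ) * δ ^ 2 / 4)) / Bn P.N P.d

theorem mom_far {P : Par} (hP : P.Ok) {δ : ℝ} (h0 : 0 < δ) {F : ℂ → ℂ} {C : ℝ} (hC : 0 ≤ C)
    (hc : Continuous fun x => dens P.N P.d (E x) * F (E x))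
    (hb : ∀ x, ‖dens P.N P.d (E x) * F (E x)‖ ≤ C * ‖Af P.N P.d (E x)‖ ^ (P.N - 2) / Bn P.N P.d) :
    ‖momI P δ F - ∫ x, dens P.N P.d (E x) * F (E x) ∂ang‖ ≤ C * momE P δ := by
  have hS : MeasurableSet {x | √(kap P.N P.d) * ‖E x - 1‖ ≤ δ} :=
    (isClosed_le (by fun_prop) continuous_const).measurableSet
  have hB := Bn_pos (by have := hP.d4; omega) hP.dN'
  obtain ⟨k0, k1⟩ := hP.kap0
  rw [momI, ← integral_sub ((mom_int hc).indicator hS) (mom_int hc)]
  have := norm_integral_le_of_norm_le_const (μ := ang) (C := C * momE P δ)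
    (f := fun x => {x | √(kap P.N P.d) * ‖E x - 1‖ ≤ δ}.indicator
      (fun x => dens P.N P.d (E x) * F (E x)) x - dens P.N P.d (E x) * F (E x)) (.of_forall ?_)
  · simpa using this
  intro x
  by_cases hx : x ∈ {x | √(kap P.N P.d) * ‖E x - 1‖ ≤ δ}
  · rw [Set.indicator_of_mem hx, sub_self, norm_zero, momE]
    positivity
  · rw [Set.indicator_of_notMem hx, zero_sub, norm_neg, momE, ← mul_div_assoc]
    refine (hb x).trans (div_le_div_of_nonneg_right (mul_le_mul_of_nonneg_left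
      ((norm_Af_pow_le (by have := hP.dN'; omega) _ x).trans (Real.exp_le_exp.2 ?_)) hC) hB.le)
    have h1 : δ ^ 2 ≤ (√(kap P.N P.d) * ‖E x - 1‖) ^ 2 :=
      pow_le_pow_left₀ h0.le (not_le.1 hx).le 2
    rw [mul_pow, Real.sq_sqrt k0.le, norm_E_sub_one_sq] at h1
    have h2 : δ ^ 2 / 4 ≤ kap P.N P.d * (1 - kap P.N P.d) * (1 - Real.cos x) := by
      nlinarith [mul_nonneg k0.le (sub_nonneg.2 (Real.cos_le_one x))]
    rw [neg_le_neg_iff, mul_div_assoc, mul_assoc]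
    exact mul_le_mul_of_nonneg_left h2 (by positivity)

theorem mom_small {δ : ℝ} (h0 : 0 < δ) : ∃ D0 : ℕ, 144 ≤ D0 ∧ ∀ P : Par, P.Ok → D0 ≤ P.d →
    0 ≤ momE P δ ∧ 16 * momE P δ ≤ 1 / √P.d / P.n := by
  obtain ⟨M, hM⟩ := exists_nat_ge (1000000 / (δ ^ 2) ^ 3)
  refine ⟨144 + M, by omega, fun P hP hd => ?_⟩
  have h1 : 1 ≤ P.d := by omega
  have hB := Bn_pos h1 hP.dN'
  have hdN := hP.dN'
  have d1 : (144 : ℝ) ≤ P.d := by exact_mod_cast (by omega : 144 ≤ P.d)
  have d2 : (2 : ℝ) * P.d ≤ P.N := by exact_mod_cast hdN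
  have d3 : (M : ℝ) ≤ P.N := by exact_mod_cast (by omega : M ≤ P.N)
  have hn : (P.n : ℝ) = P.N + 1 := by rw [hP.n_eq]; push_cast; rfl
  have d0 : (0 : ℝ) < P.d := by linarith
  have n0 : (0 : ℝ) < P.n := by linarith
  refine ⟨by unfold momE; positivity, ?_⟩
  have hl := lam_bounds h1 hdN
  have l0 : 0 < lam P.N P.d := by linarith [hl.1]
  have b1 := Bn_ge h1 hdN
  have b2 : 1 / 3 ≤ Real.exp (-(1 / P.d)) := by
    have := Real.add_one_le_exp (-(1 / P.d : ℝ))
    have h3 : (1 : ℝ) / P.d ≤ 1 / 2 := by rw [div_le_div_iff₀ (by linarith) two_pos]; linarith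
    linarith
  have b3 : √(2 * Real.pi * lam P.N P.d) * √P.d ≤ 2 * P.N := by
    refine le_of_sq_le_sq ?_ (by positivity)
    rw [mul_pow, Real.sq_sqrt (by positivity), Real.sq_sqrt (by positivity)]
    have : 2 * Real.pi * lam P.N P.d ≤ 8 * P.d := by nlinarith [Real.pi_le_four, Real.pi_pos, hl.2]
    nlinarith
  have b4 : √P.d ≤ 6 * P.N * Bn P.N P.d := by
    rw [div_le_iff₀ (by positivity)] at b1
    have := mul_le_mul_of_nonneg_right (b2.trans b1) (Real.sqrt_nonneg (P.d : ℝ))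
    nlinarith
  have e1 : ((P.N - 2 : ℕ) : ℝ) = P.N - 2 := by rw [Nat.cast_sub (by omega)]; rfl
  have e2 := Real.pow_div_factorial_le_exp (((P.N - 2 : ℕ) : ℝ) * δ ^ 2 / 4) (by positivity) 3
  have e3 : (P.N * δ ^ 2 / 8) ^ 3 ≤ (((P.N - 2 : ℕ) : ℝ) * δ ^ 2 / 4) ^ 3 := by
    refine pow_le_pow_left₀ (by positivity) ?_ 3
    rw [e1]
    nlinarith [sq_nonneg δ]
  have e4 : 1000000 ≤ P.N * (δ ^ 2) ^ 3 := by
    rw [div_le_iff₀ (by positivity)] at hM
    exact hM.trans (mul_le_mul_of_nonneg_right d3 (by positivity))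
  have e5 : 200 * (P.N : ℝ) ^ 2 ≤ Real.exp (((P.N - 2 : ℕ) : ℝ) * δ ^ 2 / 4) := by
    have : (P.N * δ ^ 2 / 8) ^ 3 = (P.N : ℝ) ^ 2 * (P.N * (δ ^ 2) ^ 3) / 512 := by ring
    norm_num [Nat.factorial] at e2
    nlinarith [sq_nonneg (P.N : ℝ)]
  rw [momE, Real.exp_neg, div_div, ← one_div, div_div, mul_one_div,
    div_le_div_iff₀ (by positivity) (by positivity), hn]
  have f1 : √P.d * (P.N + 1) ≤ 6 * P.N * Bn P.N P.d * (2 * P.N) :=
    mul_le_mul b4 (by linarith) (by positivity) (by positivity)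
  nlinarith [mul_le_mul_of_nonneg_right e5 hB.le, mul_nonneg (sq_nonneg (P.N : ℝ)) hB.le]

theorem mom_diag {P : Par} (hP : P.Ok) (hd : 144 ≤ P.d) {D : ℕ} (h : P.d ≤ D) :
    |-((D : ℝ) / P.N) / (D - 1)| ≤ 1 ∧
      |-((D : ℝ) / P.N) / (D - 1) + 1 / P.n| ≤ 1 / √P.d / P.n / 2 := by
  have d1 : (144 : ℝ) ≤ P.d := by exact_mod_cast hd
  have d2 : (2 : ℝ) * P.d ≤ P.N := by exact_mod_cast hP.dN'
  have d3 : (P.d : ℝ) ≤ D := by exact_mod_cast h
  have hn : (P.n : ℝ) = P.N + 1 := by rw [hP.n_eq]; push_cast; rfl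
  have hN : (0 : ℝ) < P.N := by linarith
  have hD : (0 : ℝ) < (D : ℝ) - 1 := by linarith
  have s1 : 12 ≤ √(P.d : ℝ) := Real.le_sqrt_of_sq_le (by linarith)
  have s2 := Real.mul_self_sqrt (show (0 : ℝ) ≤ P.d by positivity)
  constructor
  · rw [neg_div, abs_neg, abs_of_nonneg (by positivity), div_div, div_le_one (by positivity)]
    nlinarith
  · have e : -((D : ℝ) / P.N) / (D - 1) + 1 / P.n = -((D + P.N) / (P.N * (D - 1) * (P.N + 1))) := by
      rw [hn]; field_simp; ring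
    rw [e, abs_neg, abs_of_nonneg (by positivity), hn, div_div, div_div,
      div_le_div_iff₀ (by positivity) (by positivity)]
    have f1 : (D + P.N) * (P.d : ℝ) ≤ 6 * (P.N * (D - 1)) / 2 := by nlinarith
    have f2 : 12 * √(P.d : ℝ) ≤ P.d := by nlinarith
    have f3 : (D + P.N) * (12 * √(P.d : ℝ)) ≤ (D + P.N) * P.d :=
      mul_le_mul_of_nonneg_left f2 (by positivity)
    nlinarith [mul_pos hN hD]

theorem rho0_moments {δ : ℝ} (h0 : 0 < δ) (h1 : δ ≤ 1) : ∃ D0 : ℕ, ∀ P : Par, P.Ok → D0 ≤ P.d →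
    ‖∫ θ, P.rho0 δ θ ∂ang3 - 1‖ ≤ 1 / √P.d / P.n ∧
    (∀ i, ‖∫ θ, P.rho0 δ θ * P.Ps i (pt 1 θ) ∂ang3‖ ≤ 1 / √P.d / P.n ∧
      ‖∫ θ, P.rho0 δ θ * (P.ss i (pt 1 θ) - P.sbar i) ∂ang3‖ ≤ 1 / √P.d / P.n) ∧
    (∀ i j, ‖∫ θ, P.rho0 δ θ * (P.Ps i (pt 1 θ) * P.Ps j (pt 1 θ)) ∂ang3 +
      if i = j then 1 / (P.n : ℂ) else 0‖ ≤ 1 / √P.d / P.n) ∧
    ∀ i, ∫ θ, P.rho0 δ θ * P.ph i (pt 1 θ) ∂ang3 = 0 ∧
      ∫ θ, P.rho0 δ θ * P.ph' i (pt 1 θ) ∂ang3 = 0 := by
  obtain ⟨D0, hD0, hs⟩ := mom_small h0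
  refine ⟨D0, fun P hP hd => ?_⟩
  obtain ⟨ε0, hε⟩ := hs P hP hd
  have hd' : 144 ≤ P.d := hD0.trans hd
  have d1 : 1 ≤ P.d := by omega
  have dN := hP.dN'
  have k1 : 2 * P.k ≤ P.D1 := by have := hP.kD1; omega
  have k2 : 2 * P.k ≤ P.D2 := by have := hP.kD2; omega
  have hB := Bn_pos d1 dN
  have hA : ∀ x (m : ℕ), P.N - 2 ≤ m → ‖Af P.N P.d (E x)‖ ^ m ≤ ‖Af P.N P.d (E x)‖ ^ (P.N - 2) := by
    intro x m hm
    refine pow_le_pow_of_le_one (norm_nonneg _) ?_ hm
    have := norm_Af_pow_le (D := P.N) (k := P.d) (by omega) 1 x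
    rw [pow_one] at this
    refine this.trans (Real.exp_le_one_iff.2 (neg_nonpos.2 ?_))
    have := hP.kap0
    exact mul_nonneg (mul_nonneg (by positivity) (mul_nonneg this.1.le (by linarith)))
      (sub_nonneg.2 (Real.cos_le_one x))
  have s0 := sc_nonneg P.N P.N P.d
  have s1 : sc P.N P.N P.d ≤ 1 := by
    refine le_of_sq_le_sq ?_ zero_le_one
    have : (2 : ℝ) * P.d ≤ P.N := by exact_mod_cast dN
    have : (1 : ℝ) ≤ P.d := by exact_mod_cast d1
    rw [sc_sq d1 dN, one_pow, div_le_one (by linarith)]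
    linarith [(lam_bounds d1 dN).2]
  have nd : ∀ x, ‖dens P.N P.d (E x)‖ ≤ 1 * ‖Af P.N P.d (E x)‖ ^ (P.N - 2) / Bn P.N P.d := by
    intro x
    simp only [dens, norm_div, norm_pow, norm_E, one_pow, div_one, norm_real, one_mul,
      Real.norm_of_nonneg hB.le]
    exact div_le_div_of_nonneg_right (hA x _ (by omega)) hB.le
  have c0 := mom_cont_dens P.N P.d
  have cq : ∀ {f : ℝ → ℂ}, Continuous f → Continuous fun x => f x / E x ^ P.d / Bn P.N P.d :=
    fun hf => (hf.div (by fun_prop) fun x => pow_ne_zero _ (E_ne x)).div_const _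
  have f0 : ‖momI P δ (fun _ => 1) - 1‖ ≤ momE P δ := by
    have := mom_far hP h0 (F := fun _ => 1) zero_le_one (by fun_prop) fun x => by
      simpa only [mul_one] using nd x
    simpa only [mul_one, one_mul, int_dens d1 dN] using this
  have fz : ‖momI P δ (fun w => w) - abar P.N P.d‖ ≤ momE P δ := by
    have := mom_far hP h0 (F := fun w => w) zero_le_one (by fun_prop) fun x => by
      simpa only [norm_mul, norm_E, mul_one] using nd x
    simpa only [one_mul, int_dens_E d1 dN] using this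
  have f1 : ‖momI P δ (Psi P.N P.N P.d)‖ ≤ 2 * momE P δ := by
    have := mom_far hP h0 (F := Psi P.N P.N P.d) zero_le_two
      (by simp only [dens_mul_Psi P.N P.d (show 2 ≤ P.N by omega)]; exact cq (by fun_prop))
      fun x => by
        simp only [dens_mul_Psi P.N P.d (show 2 ≤ P.N by omega), norm_div, norm_mul, norm_pow,
          norm_E, one_pow, div_one, norm_real, Real.norm_of_nonneg hB.le, Real.norm_of_nonneg s0]
        refine div_le_div_of_nonneg_right (mul_le_mul ?_ (hA x _ (by omega)) (by positivity)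
          zero_le_two) hB.le
        nlinarith [norm_E_sub_one_le x, norm_nonneg (E x - 1)]
    simpa only [int_dens_Psi P.N d1 dN, sub_zero] using this
  have f2 : ‖momI P δ (fun w => Psi P.N P.N P.d w * Psi P.N P.N P.d w) -
      ((-((P.N : ℝ) / P.N) / (P.N - 1) : ℝ) : ℂ)‖ ≤ 4 * momE P δ := by
    have := mom_far hP h0 (F := fun w => Psi P.N P.N P.d w * Psi P.N P.N P.d w) zero_le_four
      (by simp only [dens_mul_Psi_sq P.N P.d (show 3 ≤ P.N by omega)]; exact cq (by fun_prop))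
      fun x => by
        simp only [dens_mul_Psi_sq P.N P.d (show 3 ≤ P.N by omega), norm_div, norm_mul, norm_pow,
          norm_E, one_pow, div_one, norm_real, Real.norm_of_nonneg hB.le, Real.norm_of_nonneg s0]
        refine div_le_div_of_nonneg_right (mul_le_mul_of_nonneg_right ?_ (by positivity)) hB.le
        have a := pow_le_pow_left₀ (norm_nonneg _) (norm_E_sub_one_le x) 2
        have b := pow_le_pow_left₀ s0 s1 2
        nlinarith [sq_nonneg ‖E x - 1‖]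
    rwa [int_dens_Psi_sq P.N d1 dN (by omega)] at this
  have i1 : ∫ x, dens P.D1 P.k (E x) * 1 ∂ang = 1 := by simpa using int_dens hP.k1 k1
  have i2 : ∫ x, dens P.D2 P.k (E x) * 1 ∂ang = 1 := by simpa using int_dens hP.k1 k2
  have r0 : 0 ≤ 1 / √(P.d : ℝ) / P.n := by positivity
  have z1 : ∀ (F H : ℂ → ℂ) {Φ : ℝ × ℝ × ℝ → ℂ},
      (∀ θ, Φ θ = F (E θ.1) * Psi P.N P.D1 P.k (E θ.2.1) * H (E θ.2.2)) →
      ∫ θ, P.rho0 δ θ * Φ θ ∂ang3 = 0 := fun F H Φ h => by
    rw [mom_key P δ F _ H h, int_dens_Psi P.N hP.k1 k1, mul_zero, zero_mul]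
  have z2 : ∀ (F G : ℂ → ℂ) {Φ : ℝ × ℝ × ℝ → ℂ},
      (∀ θ, Φ θ = F (E θ.1) * G (E θ.2.1) * Psi P.N P.D2 P.k (E θ.2.2)) →
      ∫ θ, P.rho0 δ θ * Φ θ ∂ang3 = 0 := fun F G Φ h => by
    rw [mom_key P δ F G _ h, int_dens_Psi P.N hP.k1 k2, mul_zero]
  have zs : ∀ {D : ℕ}, 2 * P.k ≤ D → ∫ x, dens D P.k (E x) *
      (sc P.N D P.k * E x - (sc P.N D P.k * abar D P.k : ℝ)) ∂ang = 0 := by
    intro D hD
    have c := mom_cont_dens D P.k
    simp only [mul_sub, mul_left_comm (dens D P.k _)]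
    rw [integral_sub (mom_int (by fun_prop)) (mom_int (by fun_prop)), integral_const_mul,
      integral_mul_const, int_dens_E hP.k1 hD, int_dens hP.k1 hD]
    push_cast
    ring
  have m0 : ∫ θ, P.rho0 δ θ ∂ang3 = momI P δ fun _ => 1 := by
    have := mom_key P δ (fun _ => 1) (fun _ => 1) (fun _ => 1) (Φ := fun _ => 1) (by simp)
    rw [i1, i2] at this
    simpa using this
  have dg : ∀ {D : ℕ}, P.d ≤ D → ‖momI P δ (fun _ => 1) * ((-((D : ℝ) / P.N) / (D - 1) : ℝ) : ℂ) +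
      1 / (P.n : ℂ)‖ ≤ 1 / √P.d / P.n := by
    intro D hD
    obtain ⟨a, b⟩ := mom_diag hP hd' hD
    generalize -((D : ℝ) / P.N) / (D - 1) = y at *
    have e : momI P δ (fun _ => 1) * (y : ℂ) + 1 / (P.n : ℂ) =
        (momI P δ (fun _ => 1) - 1) * y + ((y + 1 / P.n : ℝ) : ℂ) := by push_cast; ring
    rw [e]
    refine (norm_add_le _ _).trans ?_
    rw [norm_mul, norm_real, norm_real, Real.norm_eq_abs, Real.norm_eq_abs]
    nlinarith [norm_nonneg (momI P δ (fun _ => 1) - 1), abs_nonneg y]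
  refine ⟨by rw [m0]; linarith, fun i => ⟨?_, ?_⟩, fun i j => ?_, fun i => ?_⟩
  · fin_cases i
    · rw [mom_key P δ (Psi P.N P.N P.d) (fun _ => 1) (fun _ => 1) (by simp [Par.Ps, mom_pt]), i1,
        i2, mul_one, mul_one]
      linarith
    · rw [z1 (fun _ => 1) (fun _ => 1) (by simp [Par.Ps, mom_pt]), norm_zero]; exact r0
    · rw [z2 (fun _ => 1) (fun _ => 1) (by simp [Par.Ps, mom_pt]), norm_zero]; exact r0
  · fin_cases i
    · have b := Par.Bd_ss P zero_le_one hP.kapR1 hP.kapR2 0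
      simp only [Fin.zero_eta, mul_sub]
      rw [integral_sub (((Bd_rho0 P δ).mul b).integrable _)
        (((Bd_rho0 P δ).integrable _).mul_const _), integral_mul_const, m0,
        mom_key P δ (fun w => w) (lamf P.D1 P.k P.t1 P.u1)
          (fun w => sc P.N P.N P.d * lamf P.D2 P.k P.t2 P.u2 w)
          (fun θ => by simp only [Par.ss, mom_pt, Matrix.cons_val_zero]; ring)]
      simp only [mul_left_comm (dens P.D2 P.k _)]
      rw [integral_const_mul, int_lamf, int_lamf]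
      have e75 : (75 : ℝ) / P.d ≤ 1 :=
        (div_le_one (by positivity)).2 (by exact_mod_cast (by omega : 75 ≤ P.d))
      have l1 := abs_le.1 ((mom_ell1 hP).trans e75)
      have l2 := abs_le.1 ((mom_ell2 hP).trans e75)
      obtain ⟨a0, a1, -⟩ := mom_abar d1 dN
      simp only [Par.sbar, Matrix.cons_val_zero]
      generalize ell P.D1 P.k P.t1 P.u1 = y at *
      generalize ell P.D2 P.k P.t2 P.u2 = z at *
      generalize sc P.N P.N P.d = s at *
      generalize abar P.N P.d = a at *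
      have e : momI P δ (fun w => w) * y * (s * z) - momI P δ (fun _ => 1) * (s * a * y * z : ℝ) =
          (s * y * z : ℝ) * ((momI P δ (fun w => w) - a) - a * (momI P δ (fun _ => 1) - 1)) := by
        push_cast; ring
      have n1 : ‖((s * y * z : ℝ) : ℂ)‖ ≤ 1 * 2 * 2 := by
        rw [norm_real, Real.norm_of_nonneg (by
          have : 0 ≤ y := by linarith
          have : 0 ≤ z := by linarith
          positivity)]
        exact mul_le_mul (mul_le_mul s1 (by linarith) (by linarith) zero_le_one) (by linarith)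
          (by linarith) (by norm_num)
      have n2 : ‖(momI P δ (fun w => w) - a) - a * (momI P δ (fun _ => 1) - 1)‖ ≤
          2 * momE P δ := by
        refine (norm_sub_le _ _).trans ?_
        rw [norm_mul, norm_real, Real.norm_of_nonneg a0]
        nlinarith [norm_nonneg (momI P δ (fun _ => 1) - 1)]
      rw [e, norm_mul]
      linarith [mul_le_mul n1 n2 (norm_nonneg _) (by norm_num)]
    · rw [mom_key P δ (fun _ => 1) (fun w => sc P.N P.D1 P.k * w -
        (sc P.N P.D1 P.k * abar P.D1 P.k : ℝ)) (fun _ => 1) (by simp [Par.ss, Par.sbar, mom_pt]),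
        zs k1]
      simpa using r0
    · rw [mom_key P δ (fun _ => 1) (fun _ => 1) (fun w => sc P.N P.D2 P.k * w -
        (sc P.N P.D2 P.k * abar P.D2 P.k : ℝ)) (by simp [Par.ss, Par.sbar, mom_pt]), zs k2]
      simpa using r0
  · fin_cases i <;> fin_cases j
    · rw [mom_key P δ (fun w => Psi P.N P.N P.d w * Psi P.N P.N P.d w) (fun _ => 1) (fun _ => 1)
        (by simp [Par.Ps, mom_pt]), i1, i2, mul_one, mul_one, if_pos rfl]
      obtain ⟨-, b⟩ := mom_diag hP hd' (show P.d ≤ P.N by omega)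
      generalize -((P.N : ℝ) / P.N) / (P.N - 1) = y at *
      generalize momI P δ (fun w => Psi P.N P.N P.d w * Psi P.N P.N P.d w) = J at *
      have e : J + 1 / (P.n : ℂ) = (J - y) + ((y + 1 / P.n : ℝ) : ℂ) := by push_cast; ring
      rw [e]
      refine (norm_add_le _ _).trans ?_
      rw [norm_real, Real.norm_eq_abs]
      linarith
    · rw [z1 (Psi P.N P.N P.d) (fun _ => 1) (by simp [Par.Ps, mom_pt])]
      simpa using r0
    · rw [z2 (Psi P.N P.N P.d) (fun _ => 1) (by simp [Par.Ps, mom_pt])]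
      simpa using r0
    · rw [z1 (Psi P.N P.N P.d) (fun _ => 1) (by simp [Par.Ps, mom_pt, mul_comm])]
      simpa using r0
    · rw [mom_key P δ (fun _ => 1) (fun w => Psi P.N P.D1 P.k w * Psi P.N P.D1 P.k w) (fun _ => 1)
        (by simp [Par.Ps, mom_pt]), i2, mul_one, if_pos rfl,
        int_dens_Psi_sq P.N hP.k1 k1 (by have := hP.D1_bounds; omega)]
      exact dg hP.D1_bounds.1
    · rw [z1 (fun _ => 1) (Psi P.N P.D2 P.k) (by simp [Par.Ps, mom_pt])]
      simpa using r0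
    · rw [z2 (Psi P.N P.N P.d) (fun _ => 1) (by simp [Par.Ps, mom_pt, mul_comm])]
      simpa using r0
    · rw [z1 (fun _ => 1) (Psi P.N P.D2 P.k) (by simp [Par.Ps, mom_pt, mul_comm])]
      simpa using r0
    · rw [mom_key P δ (fun _ => 1) (fun _ => 1) (fun w => Psi P.N P.D2 P.k w * Psi P.N P.D2 P.k w)
        (by simp [Par.Ps, mom_pt]), i1, mul_one, if_pos rfl,
        int_dens_Psi_sq P.N hP.k1 k2 (by have := hP.D2_bounds; omega)]
      exact dg hP.D2_bounds.1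
  · obtain ⟨i, g⟩ := i
    fin_cases i
    · exact ⟨z1 (fun z => √(P.cf 0 g) * (P.hg g z + 1) / 2) (fun _ => 1) fun θ => by
          simp [Par.ph, Par.Ps, mom_pt]; ring,
        z1 (fun z => √(P.cf 0 g) * (P.hg g z - 1)) (fun _ => 1) fun θ => by
          simp [Par.ph', Par.Ps, mom_pt]; ring⟩
    · exact ⟨z2 (fun z => √(P.cf 1 g) * (P.hg g z + 1) / 2) (fun _ => 1) fun θ => by
          simp [Par.ph, Par.Ps, mom_pt]; ring,
        z2 (fun z => √(P.cf 1 g) * (P.hg g z - 1)) (fun _ => 1) fun θ => by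
          simp [Par.ph', Par.Ps, mom_pt]; ring⟩
    · exact ⟨z1 (fun z => √(P.cf 2 g) * P.hg g z / 2) (Psi P.N P.D2 P.k) fun θ => by
          simp [Par.ph, Par.Ps, mom_pt]; ring,
        z1 (fun z => √(P.cf 2 g) * P.hg g z) (Psi P.N P.D2 P.k) fun θ => by
          simp [Par.ph', Par.Ps, mom_pt]; ring⟩

end Pool.Agent.Lib.MP_d20c4f_pr.H53
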