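import Pool.Agent.Lib.MP_d20c4f_pr.H53Small
import Pool.Agent.Lib.MP_d20c4f_pr.H53KerS
import Pool.Agent.Lib.MP_d20c4f_pr.H53Mom

/-!
The integral over the box.
-/

namespace Pool.Agent.Lib.MP_d20c4f_pr.H53

open MeasureTheory Complex Finset

theorem box_pt (θ : ℝ × ℝ × ℝ) : pt 1 θ = (E θ.1, E θ.2.1, E θ.2.2) := by simp [pt]

theorem box_meas_Ps (P : Par) (i : Fin 3) : Measurable fun θ => P.Ps i (pt 1 θ) := by
  have h : ∀ N D k, Measurable (Psi N D k) := fun N D k => by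
    unfold Psi
    exact (by fun_prop : Measurable fun w : ℂ => (sc N D k : ℂ) * (w - 1)).div
      (continuous_Af D k).measurable
  have hp := (continuous_pt 1).measurable
  fin_cases i
  · exact (h _ _ _).comp hp.fst
  · exact (h _ _ _).comp hp.snd.fst
  · exact (h _ _ _).comp hp.snd.snd

theorem box_meas_hg (P : Par) (g : Bool) : Measurable fun θ => P.hg g (pt 1 θ).1 := by
  have hp := (continuous_pt 1).measurable
  unfold Par.hg
  refine Measurable.div ?_ ((continuous_Af _ _).measurable.comp hp.fst)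
  cases g
  · simp
  · simpa using hp.fst

theorem box_meas_ph (P : Par) (i : Fin 3 × Bool) : (Measurable fun θ => P.ph i (pt 1 θ)) ∧
    Measurable fun θ => P.ph' i (pt 1 θ) := by
  obtain ⟨i, g⟩ := i
  have h1 := box_meas_Ps P 1
  have h2 := box_meas_Ps P 2
  have h3 := box_meas_hg P g
  unfold Par.ph Par.ph'
  fin_cases i
  · exact ⟨((h1.mul (h3.add_const 1)).const_mul _).div_const 2, (h1.mul (h3.sub_const 1)).const_mul _⟩
  · exact ⟨((h2.mul (h3.add_const 1)).const_mul _).div_const 2, (h2.mul (h3.sub_const 1)).const_mul _⟩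
  · exact ⟨(((h1.mul h2).mul h3).const_mul _).div_const 2, ((h1.mul h2).mul h3).const_mul _⟩

theorem box_be {P : Par} (hP : P.Ok) {δ : ℝ} (h0 : 0 < δ) (hk : (P.k : ℝ) ≤ δ ^ 2 / 4 * P.d)
    (hd : 1 / √P.d ≤ δ) {θ : ℝ × ℝ × ℝ} (h : θ ∈ P.box δ) : P.be (pt 1 θ) ≤ 4 * δ := by
  have h1 : ∀ (D : ℕ) (t : ℝ), P.d ≤ D → √(kap D P.k) * ‖E t - 1‖ ≤ δ := fun D t hD => by
    have hd0 : (0 : ℝ) < P.d := by have := hP.d4; positivity
    have hD' : (P.d : ℝ) ≤ D := by exact_mod_cast hD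
    have h2 : √(kap D P.k) ≤ δ / 2 := by
      refine Real.sqrt_le_iff.2 ⟨by positivity, ?_⟩
      rw [kap, div_le_iff₀ (hd0.trans_le hD')]
      refine hk.trans ?_
      rw [show (δ / 2) ^ 2 = δ ^ 2 / 4 by ring]
      gcongr
    calc _ ≤ δ / 2 * 2 := mul_le_mul h2 (norm_E_sub_one_le t) (norm_nonneg _) (by positivity)
      _ = δ := by ring
  have h2 := h1 _ θ.2.1 hP.D1_bounds.1
  have h3 := h1 _ θ.2.2 hP.D2_bounds.1
  have h4 : √(kap P.N P.d) * ‖E θ.1 - 1‖ ≤ δ := h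
  rw [box_pt, Par.be]
  dsimp only
  linarith

theorem box_eq {P : Par} (hP : P.Ok) {δ : ℝ} (γ : Fin 3 → ℝ)
    (h : ∀ θ ∈ P.box δ, Af P.N P.d (pt 1 θ).1 ≠ 0 ∧ Af P.D1 P.k (pt 1 θ).2.1 ≠ 0 ∧
      Af P.D2 P.k (pt 1 θ).2.2 ≠ 0) :
    P.Jbox δ γ = ∫ ω : Fin P.n → ℝ × ℝ × ℝ, (∏ v, P.rho0 δ (ω v)) *
      (∏ e : Pr2 P.n, (1 + ∑ i, P.Ps i (pt 1 (ω e.1.1)) * P.Ps i (pt 1 (ω e.1.2)) +
        ∑ i, (P.ph i (pt 1 (ω e.1.1)) * P.ph' i (pt 1 (ω e.1.2)) +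
          P.ph' i (pt 1 (ω e.1.1)) * P.ph i (pt 1 (ω e.1.2))))) *
      cexp (-(∑ i, ((P.gg γ i : ℂ) - ∑ v, (P.ss i (pt 1 (ω v)) - P.sbar i)) ^ 2) / 2)
      ∂(Measure.pi fun _ => ang3) := by
  unfold Par.Jbox JJ
  refine integral_congr_ae (.of_forall fun ω => ?_)
  have he : ∀ i, ((P.gg γ i : ℂ) - ∑ v, (P.ss i (pt 1 (ω v)) - P.sbar i)) =
      (γ i : ℂ) - ∑ v, P.ss i (pt 1 (ω v)) := fun i => by
    simp only [Par.gg, sum_sub_distrib, sum_const, card_univ, Fintype.card_fin, nsmul_eq_mul]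
    push_cast
    ring
  simp only [he]
  congr 1
  by_cases hb : ∀ v, ω v ∈ P.box δ
  · have hk : ∀ e : Pr2 P.n, ∑ σ, P.ff σ (pt 1 (ω e.1.1)) * P.ff σ (pt 1 (ω e.1.2)) = _ := fun e =>
      ker_eq hP (h _ (hb _)).1 (h _ (hb _)).2.1 (h _ (hb _)).2.2 (h _ (hb _)).1 (h _ (hb _)).2.1
        (h _ (hb _)).2.2
    simp only [hk]
    rw [prod_mul_distrib, prod_pairs fun v => Af P.N P.d (pt 1 (ω v)).1, ← mul_assoc,
      ← prod_mul_distrib]
    congr 1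
    refine prod_congr rfl fun v _ => ?_
    rw [Par.rho0, Set.indicator_of_mem (hb v), Set.indicator_of_mem (hb v), box_pt, Par.rho]
    simp only [dens, Par.N]
    ring
  · obtain ⟨v, hv⟩ := not_forall.1 hb
    rw [prod_eq_zero (mem_univ v) (Set.indicator_of_notMem hv _), prod_eq_zero (mem_univ v)
      (f := fun v => P.rho0 δ (ω v)) (Set.indicator_of_notMem hv _), zero_mul, zero_mul]

theorem box_est : ∃ δ ε1 κ1 C : ℝ, ∃ D1 : ℕ, 0 < δ ∧ δ ≤ 1 ∧ 0 < ε1 ∧ 0 < κ1 ∧ 0 < C ∧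
    ∀ P : Par, P.Ok → D1 ≤ P.d → (P.k : ℝ) ≤ κ1 * P.d → ∀ γ : Fin 3 → ℝ,
      ∑ i, P.gg γ i ^ 2 ≤ ε1 * P.n →
      ‖P.Jbox δ γ - (Real.exp (3 / 4 - ∑ i, P.gg γ i ^ 2) : ℝ)‖ ≤
        C / √P.d * Real.exp (-(∑ i, P.gg γ i ^ 2) / 2) := by
  obtain ⟨L, D0, hL, hsb⟩ := sbar_close
  obtain ⟨C0, hC0, hks⟩ := ker_small L hL
  obtain ⟨c0, θ0, ε1, η0, C1, hc0, hθ0, hε1, hη0, hC1, hsf⟩ :=
    small_field (max (32 * C0 ^ 2) 400) 6 (le_trans (by norm_num) (le_max_right _ _))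
  obtain ⟨δ, hδ, d1, d2, d3⟩ : ∃ δ : ℝ, 0 < δ ∧ δ ≤ 1 / 40 ∧ δ ≤ c0 / 4 ∧ δ ≤ θ0 / (4 * C0) :=
    ⟨min (1 / 40) (min (c0 / 4) (θ0 / (4 * C0))), by positivity, min_le_left _ _,
      (min_le_right _ _).trans (min_le_left _ _), (min_le_right _ _).trans (min_le_right _ _)⟩
  obtain ⟨D2, hm⟩ := rho0_moments hδ (by linarith)
  obtain ⟨D3, hD3⟩ := exists_nat_ge ((1 / δ + 2 / η0) ^ 2)
  refine ⟨δ, ε1, δ ^ 2 / 4, C1 * 2, max D0 (max D2 D3), hδ, by linarith, hε1, by positivity,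
    by positivity, fun P hP hd hk γ hγ => ?_⟩
  have hd0 : (0 : ℝ) < √P.d := by have := hP.d4; positivity
  have hn0 : (0 : ℝ) < P.n := by have := hP.dN; exact_mod_cast (by omega : 0 < P.n)
  have hsn : 0 < √(P.n : ℝ) := Real.sqrt_pos.2 hn0
  have hdn : √(P.d : ℝ) ≤ √P.n := Real.sqrt_le_sqrt (by have := hP.dN; exact_mod_cast (by omega : P.d ≤ P.n))
  have hsd : 1 / δ + 2 / η0 ≤ √P.d := Real.le_sqrt_of_sq_le (hD3.trans (by exact_mod_cast (by omega : D3 ≤ P.d)))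
  have e1 : 1 / √P.d ≤ δ := by
    rw [div_le_comm₀ hd0 hδ]
    have : 0 < 2 / η0 := by positivity
    linarith
  have e2 : 2 / √P.d ≤ η0 := by
    rw [div_le_comm₀ hd0 hη0]
    have : 0 < 1 / δ := by positivity
    linarith
  have hbe : ∀ θ ∈ P.box δ, P.be (pt 1 θ) ≤ 4 * δ := fun θ h => box_be hP hδ hk e1 h
  have hw := fun θ (h : θ ∈ P.box δ) => hks P hP P.sbar (hsb P hP (by omega)) (pt 1 θ)
    (by simp [pt]) ((hbe θ h).trans (by linarith))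
  obtain ⟨m1, m2, m3, m4⟩ := hm P hP (by omega)
  have e3 : 1 / √P.d / P.n ≤ 2 / √P.d / (P.n : ℝ) := by gcongr; norm_num
  have hTh : ∀ w, 1 / √P.n ≤ P.Th w := fun w => by
    have := sc_nonneg P.N P.N P.d
    have := sc_nonneg P.N P.D1 P.k
    have := sc_nonneg P.N P.D2 P.k
    unfold Par.Th
    exact le_add_of_nonneg_left (by positivity)
  have hTh0 : ∀ w, 0 ≤ P.Th w := fun w => le_trans (by positivity) (hTh w)
  rw [box_eq hP γ fun θ h => (hw θ h).2.2.2.2, show C1 * 2 / √P.d = C1 * (2 / √P.d) by ring]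
  refine hsf _ ang3 (Fin 3 × Bool) P.n (P.box δ) (P.rho0 δ) (fun θ => C0 * P.Th (pt 1 θ))
    (fun θ => C0 * (P.Th (pt 1 θ) * P.be (pt 1 θ))) (fun i θ => P.Ps i (pt 1 θ))
    (fun i θ => P.ss i (pt 1 θ) - P.sbar i) (fun i θ => P.ph i (pt 1 θ))
    (fun i θ => P.ph' i (pt 1 θ)) (2 / √P.d) (P.gg γ) (by simp) (by exact_mod_cast hn0)
    (P.measurableSet_box δ) (Bd_rho0 P δ) ?_ ?_ (box_meas_Ps P)
    (fun i => (P.Bd_ss zero_le_one hP.kapR1 hP.kapR2 i).1.sub_const _)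
    (fun i => (box_meas_ph P i).1) (fun i => (box_meas_ph P i).2)
    (fun θ h => Set.indicator_of_notMem h _) (fun θ h => ?_) ?_ (m1.trans e3)
    (fun i => ⟨(m2 i).1.trans e3, (m2 i).2.trans e3⟩) (fun i j => (m3 i j).trans e3)
    (fun i => by rw [(m4 i).1, (m4 i).2, norm_zero]; constructor <;> positivity) ?_ e2 hγ
  · refine Continuous.measurable ?_
    unfold Par.Th
    fun_prop
  · refine Continuous.measurable ?_
    unfold Par.Th Par.be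
    fun_prop
  · obtain ⟨w1, w2, w3, w4, -⟩ := hw θ h
    have b1 := hbe θ h
    have t0 := hTh0 (pt 1 θ)
    have b0 := t0.trans w3
    refine ⟨(hTh _).trans (le_mul_of_one_le_left t0 hC0), ?_, by positivity, ?_, ?_, w1, w2⟩
    · rw [le_div_iff₀ (by positivity)] at d3
      nlinarith
    · calc C0 * (P.Th (pt 1 θ) * P.be (pt 1 θ)) = P.be (pt 1 θ) * (C0 * P.Th (pt 1 θ)) := by ring
        _ ≤ _ := mul_le_mul_of_nonneg_right (by linarith) (by positivity)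
    · calc C0 * (P.Th (pt 1 θ) * P.be (pt 1 θ))
          ≤ C0 * (P.Th (pt 1 θ) * (2 * (√P.n / √P.d) * P.Th (pt 1 θ))) := by gcongr
        _ = 2 / √P.d * √P.n * (C0 * 1 * P.Th (pt 1 θ) ^ 2) := by ring
        _ ≤ 2 / √P.d * √P.n * (C0 * C0 * P.Th (pt 1 θ) ^ 2) := by gcongr
        _ = _ := by ring
  · refine le_trans ?_ ((rho0_psi hP δ).trans (le_max_right _ _))
    obtain ⟨b1, B, b2⟩ := Bd_rho0 P δ
    have hc : Continuous fun θ => P.Th (pt 1 θ) := by unfold Par.Th; fun_prop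
    refine integral_mono_of_nonneg (.of_forall fun θ => by positivity) ?_ (.of_forall fun θ => ?_)
    · refine Integrable.of_bound
        (b1.norm.mul (Continuous.measurable (by fun_prop))).aestronglyMeasurable
        (B * Real.exp (P.n * (2 * sc P.N P.N P.d + 2 * sc P.N P.D1 P.k + 2 * sc P.N P.D2 P.k +
          1 / √P.n) ^ 2 / 32)) (.of_forall fun θ => ?_)
      rw [Real.norm_of_nonneg (by positivity)]
      have := sc_nonneg P.N P.N P.d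
      have := sc_nonneg P.N P.D1 P.k
      have := sc_nonneg P.N P.D2 P.k
      have := hTh0 (pt 1 θ)
      have := (norm_nonneg _).trans (b2 θ)
      gcongr
      · exact b2 θ
      · rw [box_pt, Par.Th]
        dsimp only
        nlinarith [norm_E_sub_one_le θ.1, norm_E_sub_one_le θ.2.1, norm_E_sub_one_le θ.2.2]
    · refine mul_le_mul_of_nonneg_left (Real.exp_le_exp.2 ?_) (norm_nonneg _)
      calc P.n * (C0 * P.Th (pt 1 θ)) ^ 2 / max (32 * C0 ^ 2) 400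
          ≤ P.n * (C0 * P.Th (pt 1 θ)) ^ 2 / (32 * C0 ^ 2) := by
            gcongr
            exact le_max_left _ _
        _ = _ := by field_simp
  · calc 1 / √P.n ≤ 1 / √(P.d : ℝ) := by gcongr
      _ ≤ _ := by gcongr; norm_num

end Pool.Agent.Lib.MP_d20c4f_pr.H53
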