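import Pool.Agent.Lib.MP_d20c4f_pr.H53Jump
import Pool.Agent.Lib.MP_d20c4f_pr.Final

/-!
Chains of jumps.
-/

namespace Pool.Agent.Lib.MP_d20c4f_pr.H53

open MeasureTheory Complex Finset

/-- The cost scale of one jump starting at degree `e`. -/
noncomputable def chain_f (e : ℕ) : ℝ := (√(√(e : ℝ)))⁻¹

theorem chain_f_nonneg (e : ℕ) : 0 ≤ chain_f e := inv_nonneg.2 (Real.sqrt_nonneg _)

theorem chain_f_sq (e : ℕ) : chain_f e ^ 2 = (√(e : ℝ))⁻¹ := by
  rw [chain_f, inv_pow, Real.sq_sqrt (Real.sqrt_nonneg _)]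

theorem chain_f_le {e e' : ℕ} {s : ℝ} (he : 0 < e) (hs : 0 < s) (h : s * e ≤ e') :
    chain_f e' ≤ (√(√s))⁻¹ * chain_f e := by
  have he' : (0 : ℝ) < e := by exact_mod_cast he
  rw [chain_f, chain_f, ← mul_inv, ← Real.sqrt_mul (Real.sqrt_nonneg _), ← Real.sqrt_mul hs.le]
  exact inv_anti₀ (Real.sqrt_pos.2 (Real.sqrt_pos.2 (mul_pos hs he')))
    (Real.sqrt_le_sqrt (Real.sqrt_le_sqrt h))

theorem chain_f_anti {e e' : ℕ} (he : 0 < e) (h : e ≤ e') : chain_f e' ≤ chain_f e := by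
  have := chain_f_le (s := 1) (e' := e') he one_pos (by rw [one_mul]; exact_mod_cast h)
  simpa using this

theorem chain_f_tendsto : Filter.Tendsto chain_f Filter.atTop (nhds 0) :=
  tendsto_inv_atTop_zero.comp (Real.tendsto_sqrt_atTop.comp
    (Real.tendsto_sqrt_atTop.comp tendsto_natCast_atTop_atTop))

theorem chain_even_sub {n a b : ℕ} (h : a ≤ b) (ha : Even (n * a)) (hb : Even (n * b)) :
    Even (n * (b - a)) := by
  rw [Nat.mul_sub]
  exact (Nat.even_sub (Nat.mul_le_mul_left _ h)).2 (by simp [ha, hb])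

theorem chain_even_compl {n a : ℕ} (h : a ≤ n - 1) (ha : Even (n * a)) : Even (n * (n - 1 - a)) :=
  chain_even_sub h ha (Nat.even_mul_pred_self n)

/-- One jump in the lower two thirds of the range of degrees. -/
def chain_Step (c A : ℝ) (K D : ℕ) : Prop := ∀ n e k : ℕ, D ≤ e → 1 ≤ k → (k ≤ 2 ∨ K ≤ k) →
  (k : ℝ) ≤ c * e → 3 * (e + k) ≤ 2 * (n - 1) → Even (n * e) → Even (n * k) →
  Cpl (RG (Fin n) e) (RG (Fin n) (e + k)) (· ≤ ·) (A * chain_f e)

theorem chain_step (h : ChiStmt) : ∃ c A : ℝ, ∃ K D : ℕ, 0 < c ∧ 0 < A ∧ chain_Step c A K D := by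
  obtain ⟨κ, C, K, D, hκ, hC, h⟩ := h
  refine ⟨κ / 2, 2 * √(2 * C), K, 2 * D + 1, half_pos hκ, by positivity, ?_⟩
  intro n e k hD hk hK hc hn e1 e2
  have key : ∀ g : ℕ, D ≤ g → g + D + 1 ≤ n → e ≤ 2 * min g (n - 1 - g) → Even (n * g) →
      (0 : ℝ) < ∑ H ∈ Reg n g, (Xf k H : ℝ) ∧
      (Reg n g).card * ∑ H ∈ Reg n g, (Xf k H : ℝ) ^ 2 ≤
        (1 + (√(2 * C) * chain_f e) ^ 2) * (∑ H ∈ Reg n g, (Xf k H : ℝ)) ^ 2 := by
    intro g g1 g2 g3 g4
    have g5 : (e : ℝ) ≤ 2 * (min g (n - 1 - g) : ℕ) := by exact_mod_cast g3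
    obtain ⟨p1, p2⟩ := h n g k g1 g2 hk hK (hc.trans (by nlinarith)) g4 e2
    refine ⟨p1, p2.trans (mul_le_mul_of_nonneg_right ?_ (sq_nonneg _))⟩
    have he : (0 : ℝ) < e := by exact_mod_cast (show 0 < e by omega)
    have hm : (0 : ℝ) < (min g (n - 1 - g) : ℕ) := by linarith
    have hs : √(e : ℝ) ≤ 2 * √((min g (n - 1 - g) : ℕ) : ℝ) := by
      refine Real.sqrt_le_iff.2 ⟨by positivity, ?_⟩
      rw [mul_pow, Real.sq_sqrt hm.le]
      linarith
    rw [mul_pow, Real.sq_sqrt (by positivity), chain_f_sq, add_le_add_iff_left, ← div_eq_mul_inv,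
      div_le_div_iff₀ (Real.sqrt_pos.2 hm) (Real.sqrt_pos.2 he)]
    nlinarith
  have e3 : Even (n * (e + k)) := by rw [mul_add]; exact e1.add e2
  obtain ⟨p1, p2⟩ := key (e + k) (by omega) (by omega) (by omega) e3
  obtain ⟨_, p3⟩ := key (n - 1 - e) (by omega) (by omega) (by omega) (chain_even_compl (by omega) e1)
  rw [mul_assoc]
  exact jump (mul_nonneg (Real.sqrt_nonneg _) (chain_f_nonneg e)) (by omega) p1 p2 p3

theorem chain_small {c A : ℝ} {K D : ℕ} (hc : 0 < c) (hA : 0 < A) (h : chain_Step c A K D)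
    (hD : 2 ≤ c * D) {n b : ℕ} (hb : 3 * b ≤ 2 * (n - 1)) (eb : Even (n * b)) :
    ∀ j e : ℕ, e + j + 1 = b → D ≤ e → Even (n * e) →
      Cpl (RG (Fin n) e) (RG (Fin n) b) (· ≤ ·) ((j + 1) * (A * chain_f e)) := by
  intro j
  induction j using Nat.strong_induction_on with
  | _ j ih =>
  intro e hj he ee
  have hD0 : 0 < D := by
    rcases D.eq_zero_or_pos with rfl | h0
    · norm_num at hD
    · exact h0
  have hce : 2 ≤ c * e := hD.trans (mul_le_mul_of_nonneg_left (by exact_mod_cast he) hc.le)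
  have hp : 0 ≤ A * chain_f e := mul_nonneg hA.le (chain_f_nonneg e)
  have hj0 : (0 : ℝ) ≤ j := Nat.cast_nonneg j
  by_cases h2 : j ≤ 1
  · have h3 := h n e (b - e) he (by omega) (Or.inl (by omega))
      (le_trans (by exact_mod_cast (show b - e ≤ 2 by omega)) hce) (by omega) ee
      (chain_even_sub (by omega) ee eb)
    rw [show e + (b - e) = b by omega] at h3
    exact cpl_mono h3 (by nlinarith)
  · have e2 : Even (n * 2) := even_two.mul_left n
    have h3 := h n e 2 he (by omega) (Or.inl le_rfl) (by exact_mod_cast hce) (by omega) ee e2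
    have h4 := ih (j - 2) (by omega) (e + 2) (by omega) (by omega) (by rw [mul_add]; exact ee.add e2)
    refine cpl_mono (cpl_trans h3 h4) ?_
    have h5 : A * chain_f (e + 2) ≤ A * chain_f e :=
      mul_le_mul_of_nonneg_left (chain_f_anti (by omega) (by omega)) hA.le
    have h6 : ((j - 2 : ℕ) : ℝ) + 1 ≤ j := by exact_mod_cast (show j - 2 + 1 ≤ j by omega)
    have h7 := mul_le_mul h6 h5 (mul_nonneg hA.le (chain_f_nonneg _)) hj0
    linarith

theorem chain_half {c A B : ℝ} {K D : ℕ} (hc : 0 < c) (hA : 0 < A) (h : chain_Step c A K D)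
    (hD : 4 ≤ c * D) (hK : 2 * K ≤ c * D) (hB : (K + 1) * A ≤ B)
    (hB' : A + B * (√(√(1 + c / 2)))⁻¹ ≤ B) {n b : ℕ} (hb : 3 * b ≤ 2 * (n - 1))
    (eb : Even (n * b)) : ∀ j e : ℕ, e + j + 1 = b → D ≤ e → Even (n * e) →
      Cpl (RG (Fin n) e) (RG (Fin n) b) (· ≤ ·) (B * chain_f e) := by
  intro j
  induction j using Nat.strong_induction_on with
  | _ j ih =>
  intro e hj he ee
  have hD0 : 0 < D := by
    rcases D.eq_zero_or_pos with rfl | h0
    · norm_num at hD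
    · exact h0
  have hce : c * D ≤ c * e := mul_le_mul_of_nonneg_left (by exact_mod_cast he) hc.le
  have hf := chain_f_nonneg e
  have hK0 : (0 : ℝ) ≤ K := Nat.cast_nonneg K
  have hB0 : 0 ≤ B := le_trans (by positivity) hB
  by_cases h1 : j < K
  · refine cpl_mono (chain_small hc hA h (by linarith) hb eb j e hj he ee) ?_
    have h2 : (j : ℝ) + 1 ≤ K + 1 := by exact_mod_cast (show j + 1 ≤ K + 1 by omega)
    rw [← mul_assoc]
    exact mul_le_mul_of_nonneg_right ((mul_le_mul_of_nonneg_right h2 hA.le).trans hB) hf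
  by_cases h2 : ((j + 1 : ℕ) : ℝ) ≤ c * e
  · have h3 := h n e (j + 1) he (by omega) (Or.inr (by omega)) h2 (by omega) ee
      (by rw [show j + 1 = b - e by omega]; exact chain_even_sub (by omega) ee eb)
    rw [show e + (j + 1) = b by omega] at h3
    exact cpl_mono h3 (mul_le_mul_of_nonneg_right (by nlinarith) hf)
  obtain ⟨i, i1, i2⟩ : ∃ i : ℕ, (i : ℝ) ≤ c * e / 2 ∧ c * e / 2 < i + 1 :=
    ⟨⌊c * e / 2⌋₊, Nat.floor_le (by positivity), Nat.lt_floor_add_one _⟩
  have k1 : ((2 * i : ℕ) : ℝ) ≤ c * e := by push_cast; linarith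
  have k2 : c * e / 2 ≤ ((2 * i : ℕ) : ℝ) := by push_cast; linarith
  have k3 : 2 * i < j + 1 := by exact_mod_cast k1.trans_lt (not_le.1 h2)
  have k4 : K ≤ 2 * i := by exact_mod_cast (show (K : ℝ) ≤ ((2 * i : ℕ) : ℝ) by linarith)
  have k5 : 1 ≤ 2 * i := by exact_mod_cast (show ((1 : ℕ) : ℝ) ≤ ((2 * i : ℕ) : ℝ) by
    rw [Nat.cast_one]; linarith)
  have e2 : Even (n * (2 * i)) := (even_two_mul i).mul_left n
  have h3 := h n e (2 * i) he k5 (Or.inr k4) k1 (by omega) ee e2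
  have h4 := ih (j - 2 * i) (by omega) (e + 2 * i) (by omega) (by omega)
    (by rw [mul_add]; exact ee.add e2)
  refine cpl_mono (cpl_trans h3 h4) ?_
  have h5 := chain_f_le (e := e) (e' := e + 2 * i) (s := 1 + c / 2) (by omega) (by positivity)
    (by rw [Nat.cast_add]; linarith)
  have h6 := mul_le_mul_of_nonneg_left h5 hB0
  have h7 := mul_le_mul_of_nonneg_right hB' hf
  linarith

theorem chain_middle (h : ChiStmt) {ε : ℝ} (hε : 0 < ε) : ∃ D : ℕ, 4 ≤ D ∧ Even D ∧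
    ∀ n a b : ℕ, 30 ≤ n → D ≤ a → a ≤ b → b + D ≤ n - 1 → Even (n * a) → Even (n * b) →
      Cpl (RG (Fin n) a) (RG (Fin n) b) (· ≤ ·) ε := by
  obtain ⟨c, A, K, D0, hc, hA, h⟩ := chain_step h
  have hθ : (√(√(1 + c / 2)))⁻¹ < 1 :=
    inv_lt_one_of_one_lt₀ (Real.lt_sqrt_of_sq_lt (by
      rw [one_pow]; exact Real.lt_sqrt_of_sq_lt (by linarith)))
  obtain ⟨B, hB, hB'⟩ : ∃ B : ℝ, (K + 1) * A ≤ B ∧ A + B * (√(√(1 + c / 2)))⁻¹ ≤ B := by
    refine ⟨max ((K + 1) * A) (A / (1 - (√(√(1 + c / 2)))⁻¹)), le_max_left _ _, ?_⟩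
    have := (div_le_iff₀ (sub_pos.2 hθ)).1
      (le_max_right ((K + 1) * A) (A / (1 - (√(√(1 + c / 2)))⁻¹)))
    linarith
  have hB0 : 0 ≤ B := le_trans (by positivity) hB
  have t1 : Filter.Tendsto (fun D : ℕ => B * chain_f D) Filter.atTop (nhds 0) := by
    simpa using chain_f_tendsto.const_mul B
  have t2 : Filter.Tendsto (fun D : ℕ => c * D) Filter.atTop Filter.atTop :=
    tendsto_natCast_atTop_atTop.const_mul_atTop hc
  obtain ⟨D1, hD1⟩ := Filter.eventually_atTop.1 (((t1.eventually_le_const (half_pos hε)).and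
    (t2.eventually_ge_atTop 4)).and (t2.eventually_ge_atTop (2 * K)))
  obtain ⟨⟨d1, d2⟩, d3⟩ := hD1 (2 * (D1 + D0 + 2)) (by omega)
  refine ⟨2 * (D1 + D0 + 2), by omega, even_two_mul _, ?_⟩
  generalize hD : 2 * (D1 + D0 + 2) = D at d1 d2 d3
  have h' : chain_Step c A K D := fun n e k he => h n e k (by omega)
  have low : ∀ n a b : ℕ, D ≤ a → a ≤ b → 3 * (b + 2) ≤ 2 * (n - 1) → Even (n * a) → Even (n * b) →
      Cpl (RG (Fin n) a) (RG (Fin n) b) (· ≤ ·) (ε / 2) := by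
    intro n a b ha hab hb ea eb
    rcases hab.eq_or_lt with rfl | hab
    · refine cpl_mono (cpl_refl (chain_half hc hA h' d2 d3 hB hB' hb ?_ 1 a rfl ha ea).1)
        (half_pos hε).le
      rw [mul_add]
      exact ea.add (even_two.mul_left n)
    · refine cpl_mono (chain_half hc hA h' d2 d3 hB hB' (by omega) eb (b - a - 1) a (by omega) ha ea)
        ((mul_le_mul_of_nonneg_left (chain_f_anti (by omega) ha) hB0).trans d1)
  have up : ∀ n a b : ℕ, b + D ≤ n - 1 → a ≤ b → 3 * (n - 1 - a + 2) ≤ 2 * (n - 1) → Even (n * a) →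
      Even (n * b) → Cpl (RG (Fin n) a) (RG (Fin n) b) (· ≤ ·) (ε / 2) := by
    intro n a b hb hab ha ea eb
    exact (low n _ _ (by omega) (by omega) ha (chain_even_compl (by omega) eb)
      (chain_even_compl (by omega) ea)).compl (by omega) (by omega)
  intro n a b hn ha hab hb ea eb
  by_cases h1 : b ≤ 2 * (n / 4)
  · exact cpl_mono (low n a b ha hab (by omega) ea eb) (half_le_self hε.le)
  by_cases h2 : 2 * (n / 4) ≤ a
  · exact cpl_mono (up n a b hb hab (by omega) ea eb) (half_le_self hε.le)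
  have em : Even (n * (2 * (n / 4))) := (even_two_mul _).mul_left n
  exact cpl_mono (cpl_trans (low n a _ ha (by omega) (by omega) ea em)
    (up n _ b hb (by omega) (by omega) em eb)) (add_halves ε).le

theorem cpl_of_chi (h : ChiStmt) {ε : ℝ} (hε : 0 < ε) : ∀ᶠ n : ℕ in Filter.atTop, ∀ a b : ℕ,
    a ≤ b → b ≤ n - 1 → ¬ (a = 1 ∧ b = 2) → ¬ (a = n - 3 ∧ b = n - 2) →
    Even (a * n) → Even (b * n) → Cpl (RG (Fin n) a) (RG (Fin n) b) (· ≤ ·) ε := by
  have hε3 : 0 < ε / 3 := by positivity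
  obtain ⟨D, hD4, hDe, mid⟩ := chain_middle h hε3
  filter_upwards [cpl_all D hε3, Filter.eventually_ge_atTop (2 * D + 30)] with n hall hn
    a b hab hb h12 h23 ea eb
  by_cases h0 : b ≤ D ∨ n - 1 - a ≤ D
  · exact cpl_mono (hall a b h0 hab hb h12 h23 ea eb) (by linarith)
  have eD : Even (n * D) := hDe.mul_left n
  have eD' : Even (n * (n - 1 - D)) := chain_even_compl (by omega) eD
  have left : ∀ b' : ℕ, a ≤ b' → D ≤ b' → b' + D ≤ n - 1 → Even (n * b') →
      Cpl (RG (Fin n) a) (RG (Fin n) b') (· ≤ ·) (ε / 3 + ε / 3) := by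
    intro b' p1 p2 p3 p4
    by_cases h1 : D ≤ a
    · exact cpl_mono (mid n a b' (by omega) h1 p1 p3 (by rwa [mul_comm]) p4) (by linarith)
    · exact cpl_trans (hall a D (Or.inl le_rfl) (by omega) (by omega) (by omega) (by omega) ea
        (by rwa [mul_comm])) (mid n D b' (by omega) le_rfl p2 p3 eD p4)
  by_cases h1 : b + D ≤ n - 1
  · exact cpl_mono (left b hab (by omega) h1 (by rwa [mul_comm])) (by linarith)
  · exact cpl_mono (cpl_trans (left (n - 1 - D) (by omega) (by omega) (by omega) eD')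
      (hall (n - 1 - D) b (Or.inr (by omega)) (by omega) hb (by omega) (by omega)
        (by rwa [mul_comm]) eb)) (by linarith)

end Pool.Agent.Lib.MP_d20c4f_pr.H53
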