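import Pool.Agent.Lib.MP_d20c4f_pr.H53Basic

/-!
From the triple count to the second moment bound.
-/

namespace Pool.Agent.Lib.MP_d20c4f_pr.H53

open MeasureTheory Complex Finset

theorem chi_mem {n k : ℕ} {G : SimpleGraph (Fin n)} :
    G ∈ Reg n k ↔ ∀ v, (G.neighborSet v).ncard = k := by
  simp [Reg]

theorem chi_compl {n k : ℕ} {G : SimpleGraph (Fin n)} (h : G ∈ Reg n k) :
    Gᶜ ∈ Reg n (n - 1 - k) := by
  rw [chi_mem] at h ⊢
  intro v
  rw [SimpleGraph.neighborSet_compl, Set.ncard_sdiff_singleton_of_mem (by simp),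
    Set.ncard_compl, h, Nat.card_eq_fintype_card, Fintype.card_fin]
  omega

theorem chi_sum {n e : ℕ} (he : e ≤ n - 1) (f : SimpleGraph (Fin n) → ℝ) :
    ∑ G ∈ Reg n (n - 1 - e), f Gᶜ = ∑ G ∈ Reg n e, f G :=
  sum_nbij' compl compl (fun G hG => by simpa [Nat.sub_sub_self he] using chi_compl hG)
    (fun G hG => chi_compl hG) (by simp) (by simp) (by simp)

open Classical in
theorem chi_count (P : Par) : (P.Count : ℝ) = ∑ G ∈ Reg P.n P.d,
    (((Reg P.n P.k).filter fun F => Allowed P.t1 P.u1 G F).card : ℝ) *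
      ((Reg P.n P.k).filter fun F => Allowed P.t2 P.u2 G F).card := by
  simp only [Par.Count, card_filter, sum_product, Nat.cast_sum, sum_mul_sum]
  refine sum_congr rfl fun G _ => sum_congr rfl fun F _ => sum_congr rfl fun F' _ => ?_
  by_cases h1 : Allowed P.t1 P.u1 G F <;> by_cases h2 : Allowed P.t2 P.u2 G F' <;> simp [h1, h2]

theorem chi_wt {D k : ℕ} (h1 : 1 ≤ k) (h2 : 2 * k ≤ D) : 0 < wt D k := by
  have a := kap_pos h1 (show k ≤ D by omega)
  have b := kap_le (c := 2) one_le_two h2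
  have c : 0 < 1 - kap D k := by norm_num at b; linarith
  exact div_pos (Real.sqrt_pos.2 (by positivity)) (Bn_pos h1 h2)

theorem chi_mode {n h : ℕ} (hn : h + 1 ≤ n) : ∃ (t u : ℕ) (φ : SimpleGraph (Fin n) → SimpleGraph (Fin n)),
    t ≤ 1 ∧ u ≤ 1 ∧ 1 ≤ t + u ∧ (∀ G F, Allowed t u G F ↔ F ≤ φ G) ∧
      ∀ f : SimpleGraph (Fin n) → ℝ, ∑ G ∈ Reg n (min h (n - 1 - h)), f (φ G) = ∑ H ∈ Reg n h, f H := by
  rcases le_total h (n - 1 - h) with hh | hh
  · refine ⟨0, 1, id, by simp, by simp, by simp, fun G F => ?_, fun f => by rw [min_eq_left hh]; rfl⟩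
    simp only [Allowed, implies_true, true_and, zero_ne_one, imp_false, not_not, id]
    rfl
  · refine ⟨1, 0, compl, by simp, by simp, by simp, fun G F => ?_,
      fun f => by rw [min_eq_right hh, chi_sum (by omega)]⟩
    simp only [Allowed, implies_true, and_true, zero_ne_one, imp_false]
    exact ⟨fun h x y a => ⟨a.ne, h x y a⟩, fun h x y a => (h a).2⟩

theorem chi_alg {S1 S2 M R a b c L δ : ℝ} (hab : a * c = b ^ 2) (hb : 0 < b) (hS : 0 ≤ S1)
    (hL : 0 < L) (hδ : 4 * δ ≤ L) (h2 : |S2 * a - L| ≤ δ)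
    (h1 : |S1 * R * b - L| ≤ δ) (h0 : |M * R ^ 2 * c - L| ≤ δ) :
    0 < S1 ∧ M * S2 ≤ (1 + 8 * δ / L) * S1 ^ 2 := by
  have d0 : 0 ≤ δ := (abs_nonneg _).trans h2
  obtain ⟨p1, p2⟩ := abs_le.1 h2
  obtain ⟨q1, q2⟩ := abs_le.1 h1
  obtain ⟨r1, r2⟩ := abs_le.1 h0
  have e0 : 0 < S1 * R * b := by linarith
  have e1 : 0 < S1 * R := (pos_iff_pos_of_mul_pos e0).2 hb
  have e2 : 0 < S1 := lt_of_le_of_ne hS fun h => by simp [← h] at e1
  have e3 : 0 < R := (pos_iff_pos_of_mul_pos e1).1 e2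
  refine ⟨e2, le_of_mul_le_mul_right ?_ (show 0 < (R * b) ^ 2 by positivity)⟩
  have e4 : M * S2 * (R * b) ^ 2 = (S2 * a) * (M * R ^ 2 * c) := by
    linear_combination (-(M * S2 * R ^ 2)) * hab
  have e5 : (S2 * a) * (M * R ^ 2 * c) ≤ (L + δ) * (L + δ) :=
    mul_le_mul (by linarith) (by linarith) (by linarith) (by linarith)
  have e6 : (L - δ) ^ 2 ≤ (S1 * R * b) ^ 2 := pow_le_pow_left₀ (by linarith) (by linarith) 2
  have e7 : (L + δ) * (L + δ) ≤ (1 + 8 * δ / L) * (L - δ) ^ 2 := by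
    rw [← sub_nonneg, show (1 + 8 * δ / L) * (L - δ) ^ 2 - (L + δ) * (L + δ) =
      4 * δ * (L * (L - 4 * δ) + 2 * δ ^ 2) / L by field_simp; ring]
    have : 0 ≤ L - 4 * δ := by linarith
    positivity
  have e8 := mul_le_mul_of_nonneg_left e6 (show 0 ≤ 1 + 8 * δ / L by positivity)
  calc _ = _ := e4
    _ ≤ _ := e5.trans (e7.trans e8)
    _ = _ := by ring

theorem chi_of_main (h : MainStmt) : ChiStmt := by
  classical
  obtain ⟨κ0, C, L, K, D0, hκ, hC, hL, h⟩ := h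
  refine ⟨min κ0 (1 / 4), 8 * C / L, K, max D0 (⌈(4 * C / L) ^ 2⌉₊ + 1), by positivity,
    by positivity, fun n h' k a1 a2 a3 a4 a5 a6 a7 => ?_⟩
  obtain ⟨t, u, φ, ht, hu, htu, hφ, hs⟩ := chi_mode (n := n) (h := h') (by omega)
  obtain ⟨d, hd⟩ : ∃ d, d = min h' (n - 1 - h') := ⟨_, rfl⟩
  rw [← hd] at a5 hs ⊢
  have b1 : D0 ≤ d := by omega
  have b2 : ⌈(4 * C / L) ^ 2⌉₊ + 1 ≤ d := by omega
  have b3 : 2 * d + 1 ≤ n := by omega
  have d0 : (0 : ℝ) < d := by exact_mod_cast (show 0 < d by omega)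
  have b4 : (k : ℝ) ≤ κ0 * d := a5.trans (mul_le_mul_of_nonneg_right (min_le_left _ _) d0.le)
  have b5 : 4 * k ≤ d := by
    have := a5.trans (mul_le_mul_of_nonneg_right (min_le_right _ _) d0.le)
    exact_mod_cast (show (4 : ℝ) * k ≤ d by linarith)
  have b6 : Even (n * d) := by
    rcases le_total h' (n - 1 - h') with hh | hh
    · rwa [hd, min_eq_left hh]
    · rw [hd, min_eq_right hh, Nat.mul_sub, Nat.even_sub (Nat.mul_le_mul_left _ (by omega))]
      exact iff_of_true (Nat.even_mul_pred_self n) a6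
  have b7 : 4 * (C / √d) ≤ L := by
    have h1 : 4 * C / L ≤ √d := Real.le_sqrt_of_sq_le ((Nat.le_ceil _).trans (by
      exact_mod_cast (show _ ≤ d by omega)))
    rw [div_le_iff₀ hL] at h1
    rw [← mul_div_assoc, div_le_iff₀ (Real.sqrt_pos.2 d0)]
    linarith
  have o2 : Par.Ok ⟨n, d, k, t, u, t, u⟩ := ⟨ht, hu, htu, ht, hu, htu, a3, b5, b3⟩
  have o1 : Par.Ok ⟨n, d, k, t, u, 1, 1⟩ := ⟨ht, hu, htu, le_rfl, le_rfl, one_le_two, a3, b5, b3⟩
  have o0 : Par.Ok ⟨n, d, k, 1, 1, 1, 1⟩ :=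
    ⟨le_rfl, le_rfl, one_le_two, le_rfl, le_rfl, one_le_two, a3, b5, b3⟩
  have c2 := h _ o2 b1 a4 b4 b6 a7
  have c1 := h _ o1 b1 a4 b4 b6 a7
  have c0 := h _ o0 b1 a4 b4 b6 a7
  have w0 := chi_wt (show 1 ≤ d by omega) o1.dN'
  have w1 := chi_wt a3 (le_trans (by simp only; omega) o1.kD1)
  have w2 := chi_wt a3 (le_trans (by simp only; omega) o1.kD2)
  have x1 : ∀ G, ((Reg n k).filter fun F => Allowed t u G F).card = Xf k (φ G) := fun G => by
    simp only [hφ, Xf]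
  have x2 : ∀ G, ((Reg n k).filter fun F => Allowed 1 1 G F).card = (Reg n k).card := fun G => by
    simp [Allowed]
  have y0 := hs fun _ => 1
  simp only [sum_const, nsmul_one] at y0
  rw [chi_count] at c2 c1 c0
  simp only [x1, x2, ← sq, ← sum_mul, sum_const, nsmul_eq_mul] at c2 c1 c0
  rw [hs fun G => (Xf k G : ℝ) ^ 2] at c2
  rw [hs fun G => (Xf k G : ℝ)] at c1
  rw [y0] at c0
  have := chi_alg (by rw [← mul_pow, ← pow_mul, mul_comm n 2, pow_mul]; congr 1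
                      simp only [Par.D1, Par.D2, Par.N]; ring)
    (pow_pos (mul_pos (mul_pos w0 w1) w2) n) (sum_nonneg fun _ _ => Nat.cast_nonneg _) hL b7 c2 c1 c0
  refine ⟨this.1, this.2.trans_eq ?_⟩
  congr 2
  ring

end Pool.Agent.Lib.MP_d20c4f_pr.H53
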