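import Pool.Agent.Lib.MP_d20c4f_pr.H53CircY

/-!
The one-vertex bound for large `k`.
-/

namespace Pool.Agent.Lib.MP_d20c4f_pr.H53

open MeasureTheory Complex Finset

theorem cv_sqrt {a η l : ℝ} (ha : 0 < a) (hη : 0 < η) (hl : Real.pi / (a ^ 2 * η ^ 2) ≤ l) :
    √(2 * Real.pi * l) ≤ η * Real.exp (a * l) := by
  have hpi := Real.pi_pos
  have hl0 : 0 < l := lt_of_lt_of_le (by positivity) hl
  have h1 : Real.pi ≤ l * (a ^ 2 * η ^ 2) := (div_le_iff₀ (by positivity)).1 hl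
  have h2 := Real.quadratic_le_exp_of_nonneg (x := 2 * (a * l)) (by positivity)
  rw [Real.sqrt_le_left (by positivity), mul_pow, ← Real.exp_nat_mul]
  push_cast
  have h3 : 2 * (a * l) ^ 2 ≤ Real.exp (2 * (a * l)) := by nlinarith [mul_pos ha hl0]
  calc 2 * Real.pi * l ≤ 2 * (l * (a ^ 2 * η ^ 2)) * l := by gcongr
    _ = η ^ 2 * (2 * (a * l) ^ 2) := by ring
    _ ≤ η ^ 2 * Real.exp (2 * (a * l)) := by gcongr

theorem cv_point {ε c t : ℝ} (h0 : 0 < ε) (h1 : ε ≤ 1) (hc : 0 ≤ c) (ht : |t| ≤ Real.pi) :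
    Real.exp (-(c * (1 - Real.cos t))) ≤
      Real.exp (-(c * (1 - ε) / 2) * t ^ 2) + Real.exp (-(c * ε / 5)) := by
  by_cases h : t ^ 2 ≤ ε
  · have h2 : |t| ≤ 1 := by
      rw [← sq_le_one_iff_abs_le_one]; linarith
    have h3 := (abs_le.1 (Real.cos_bound h2)).2
    have h4 : |t| ^ 4 = t ^ 2 * t ^ 2 := by
      rw [show |t| ^ 4 = (|t| ^ 2) ^ 2 by ring, sq_abs]; ring
    have h5 : (1 - ε) / 2 * t ^ 2 ≤ 1 - Real.cos t := by nlinarith [sq_nonneg t]
    have h6 : Real.exp (-(c * (1 - Real.cos t))) ≤ Real.exp (-(c * (1 - ε) / 2) * t ^ 2) :=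
      Real.exp_le_exp.2 (by nlinarith)
    linarith [Real.exp_pos (-(c * ε / 5))]
  · have h3 := Real.cos_le_one_sub_mul_cos_sq ht
    have hpi := Real.pi_pos
    have h4 : Real.pi ^ 2 ≤ 10 := by nlinarith [Real.pi_lt_d2]
    have h5 : 1 / 5 ≤ 2 / Real.pi ^ 2 := by
      rw [div_le_div_iff₀ (by norm_num) (by positivity)]; linarith
    have h6 : ε / 5 ≤ 1 - Real.cos t := by nlinarith [sq_nonneg t]
    have h7 : Real.exp (-(c * (1 - Real.cos t))) ≤ Real.exp (-(c * ε / 5)) :=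
      Real.exp_le_exp.2 (by nlinarith)
    linarith [Real.exp_pos (-(c * (1 - ε) / 2) * t ^ 2)]

theorem cv_integrable {f : ℝ → ℝ} (hf : Continuous f) : Integrable f ang := by
  unfold ang
  refine Integrable.smul_measure ?_ (by simp [Real.pi_pos])
  exact (hf.integrableOn_Icc).mono_set Set.Ioc_subset_Icc_self

theorem cv_gauss {b : ℝ} (hb : 0 < b) :
    ∫ θ, Real.exp (-b * θ ^ 2) ∂ang ≤ (2 * Real.pi)⁻¹ * √(Real.pi / b) := by
  have hpi := Real.pi_pos
  rw [integral_ang, smul_eq_mul, ← integral_gaussian,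
    intervalIntegral.integral_of_le (by linarith)]
  exact mul_le_mul_of_nonneg_left (setIntegral_le_integral (integrable_exp_neg_mul_sq hb)
    (Filter.Eventually.of_forall fun x => (Real.exp_pos _).le)) (by positivity)

theorem cv_int {ε c : ℝ} (h0 : 0 < ε) (h1 : ε < 1) (hc : 0 < c) :
    ∫ θ, Real.exp (-(c * (1 - Real.cos θ))) ∂ang ≤
      (2 * Real.pi)⁻¹ * √(Real.pi / (c * (1 - ε) / 2)) + Real.exp (-(c * ε / 5)) := by
  have hb : 0 < c * (1 - ε) / 2 := by have : 0 < 1 - ε := by linarith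
                                      positivity
  have i1 : Integrable (fun θ : ℝ => Real.exp (-(c * (1 - ε) / 2) * θ ^ 2)) ang :=
    cv_integrable (by fun_prop)
  calc ∫ θ, Real.exp (-(c * (1 - Real.cos θ))) ∂ang
      ≤ ∫ θ, (Real.exp (-(c * (1 - ε) / 2) * θ ^ 2) + Real.exp (-(c * ε / 5))) ∂ang := by
        refine integral_mono_ae (cv_integrable (by fun_prop)) (i1.add (integrable_const _)) ?_
        filter_upwards [ae_ang] with θ hθ using cv_point h0 h1.le hc.le hθ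
    _ = ∫ θ, Real.exp (-(c * (1 - ε) / 2) * θ ^ 2) ∂ang + Real.exp (-(c * ε / 5)) := by
        rw [integral_add i1 (integrable_const _)]
        simp
    _ ≤ _ := by gcongr; exact cv_gauss hb

theorem cv_inv {x : ℝ} (h0 : 0 ≤ x) (h1 : x ≤ 7 / 10) : 1 ≤ (1 - x) * Real.exp (2 * x) := by
  have h2 := Real.quadratic_le_exp_of_nonneg (x := 2 * x) (by positivity)
  have h3 : (1 - x) * (1 + 2 * x + (2 * x) ^ 2 / 2) ≤ (1 - x) * Real.exp (2 * x) := by
    gcongr; linarith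
  have h4 : x ^ 2 ≤ 1 / 2 := by nlinarith
  nlinarith [mul_nonneg h0 (sub_nonneg.2 h4)]

theorem cv_core {ε : ℝ} (h0 : 0 < ε) (h1 : ε ≤ 1 / 1000) : ∃ L : ℝ, 0 < L ∧ ∀ l y : ℝ, L ≤ l →
    y ≤ 1 + 3 * ε → (∫ θ, Real.exp (-(l * (1 - ε - y) * (1 - Real.cos θ))) ∂ang) *
      √(2 * Real.pi * l) ≤ Real.exp (l * y ^ 2 / 8 + 4 * ε) := by
  have hpi := Real.pi_pos
  refine ⟨max (max (Real.pi / ((1 / 64) ^ 2 * 1 ^ 2)) (Real.pi / ((ε / 20) ^ 2 * ε ^ 2))) (2 / ε),
    lt_max_of_lt_right (by positivity), fun l y hl hy => ?_⟩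
  have hl1 := (le_max_left _ _).trans ((le_max_left _ _).trans hl)
  have hl2 := (le_max_right _ _).trans ((le_max_left _ _).trans hl)
  have hl3 := (le_max_right _ _).trans hl
  have hl0 : 0 < l := lt_of_lt_of_le (by positivity) hl3
  have hsq : 0 ≤ √(2 * Real.pi * l) := Real.sqrt_nonneg _
  by_cases hy2 : 1 / 2 < y
  · have h2 := cv_sqrt (by norm_num) one_pos hl1
    have h3 : ∫ θ, Real.exp (-(l * (1 - ε - y) * (1 - Real.cos θ))) ∂ang ≤
        Real.exp (l / 64) := by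
      calc ∫ θ, Real.exp (-(l * (1 - ε - y) * (1 - Real.cos θ))) ∂ang
          ≤ ∫ _θ, Real.exp (l / 64) ∂ang := by
            refine integral_mono (cv_integrable (by fun_prop)) (integrable_const _) fun θ => ?_
            refine Real.exp_le_exp.2 ?_
            have a1 := Real.cos_le_one θ
            have a2 := Real.neg_one_le_cos θ
            have a3 : -(1 - ε - y) * (1 - Real.cos θ) ≤ 1 / 64 := by nlinarith
            nlinarith
        _ = Real.exp (l / 64) := by simp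
    calc _ ≤ Real.exp (l / 64) * (1 * Real.exp (1 / 64 * l)) := by gcongr
      _ = Real.exp (l / 32) := by rw [one_mul, ← Real.exp_add]; ring_nf
      _ ≤ _ := Real.exp_le_exp.2 (by nlinarith [mul_pos hl0 (show 0 < y ^ 2 - 1 / 4 by nlinarith)])
  · push Not at hy2
    have hc : 0 < l * (1 - ε - y) := mul_pos hl0 (by linarith)
    have h2 := cv_int h0 (by linarith) hc
    have h3 := cv_sqrt (by positivity) h0 hl2
    set x := max y 0 with hx
    have hx0 : 0 ≤ x := le_max_right _ _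
    have hxy : y ≤ x := le_max_left _ _
    have hx1 : x ≤ 1 / 2 := max_le hy2 (by norm_num)
    have h4 : (2 * Real.pi)⁻¹ * √(Real.pi / (l * (1 - ε - y) * (1 - ε) / 2)) *
        √(2 * Real.pi * l) ≤ Real.exp (2 * ε + x) := by
      have e1 : 0 < 1 - ε := by linarith
      have e2 : 0 < 1 - ε - y := by linarith
      rw [mul_assoc, ← Real.sqrt_mul (by positivity), inv_mul_le_iff₀ (by positivity),
        Real.sqrt_le_left (by positivity), div_mul_eq_mul_div, div_le_iff₀ (by positivity)]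
      have a1 := cv_inv h0.le (by linarith)
      have a2 := cv_inv (x := ε + x) (by positivity) (by linarith)
      have a3 : 1 ≤ (1 - ε - y) * Real.exp (2 * (ε + x)) :=
        a2.trans (mul_le_mul_of_nonneg_right (by linarith) (Real.exp_pos _).le)
      have a4 : Real.exp (2 * ε + x) ^ 2 = Real.exp (2 * ε) * Real.exp (2 * (ε + x)) := by
        rw [← Real.exp_nat_mul, ← Real.exp_add]; push_cast; ring_nf
      have a5 : 1 ≤ ((1 - ε) * Real.exp (2 * ε)) * ((1 - ε - y) * Real.exp (2 * (ε + x))) :=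
        one_le_mul_of_one_le_of_one_le a1 a3
      calc Real.pi * (2 * Real.pi * l) = 2 * Real.pi ^ 2 * l * 1 := by ring
        _ ≤ 2 * Real.pi ^ 2 * l *
            (((1 - ε) * Real.exp (2 * ε)) * ((1 - ε - y) * Real.exp (2 * (ε + x)))) := by gcongr
        _ = _ := by rw [mul_pow (2 * Real.pi), a4]; ring
    have h5 : Real.exp (-(l * (1 - ε - y) * ε / 5)) * √(2 * Real.pi * l) ≤ ε := by
      calc _ ≤ Real.exp (-(ε / 20 * l)) * (ε * Real.exp (ε / 20 * l)) := by
            gcongr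
            nlinarith [mul_pos hl0 h0]
        _ = ε := by rw [mul_left_comm, ← Real.exp_add]; simp
    have h6 : x ≤ l * y ^ 2 / 8 + ε := by
      have a1 : 2 ≤ l * ε := (div_le_iff₀ h0).1 hl3
      rcases le_total y 0 with h | h
      · rw [hx, max_eq_right h]; positivity
      · rw [hx, max_eq_left h]
        have a2 : 0 ≤ (l * y - 4) ^ 2 := sq_nonneg _
        have a3 : l * y ≤ l * (l * y ^ 2 / 8 + ε) := by nlinarith
        exact le_of_mul_le_mul_left a3 hl0
    have h7 : Real.exp (2 * ε + x) + ε ≤ Real.exp (l * y ^ 2 / 8 + 4 * ε) := by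
      have a1 : 1 ≤ Real.exp (2 * ε + x) := Real.one_le_exp (by positivity)
      have a2 := Real.add_one_le_exp ε
      calc Real.exp (2 * ε + x) + ε ≤ Real.exp (2 * ε + x) * Real.exp ε := by nlinarith
        _ = Real.exp (2 * ε + x + ε) := (Real.exp_add _ _).symm
        _ ≤ _ := Real.exp_le_exp.2 (by linarith)
    calc _ ≤ ((2 * Real.pi)⁻¹ * √(Real.pi / (l * (1 - ε - y) * (1 - ε) / 2)) +
          Real.exp (-(l * (1 - ε - y) * ε / 5))) * √(2 * Real.pi * l) := by gcongr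
      _ ≤ Real.exp (2 * ε + x) + ε := by rw [add_mul]; linarith
      _ ≤ _ := h7

theorem V_large {ε : ℝ} (h0 : 0 < ε) (h1 : ε ≤ 1 / 1000) : ∃ K : ℕ, ∀ (N D k : ℕ) (g : ℝ),
    K ≤ k → 2 * k ≤ D → D ≤ N → -((N + 1) * sc N D k * (1 + ε)) ≤ g →
    ∫ θ, Real.exp (-(((1 - ε) * lam D k + g * sc N D k) * (1 - Real.cos θ))) ∂ang ≤
      Bn D k * Real.exp (g ^ 2 / (4 * (N + 1)) + 5 * ε) := by
  obtain ⟨L, hL, hcore⟩ := cv_core h0 h1
  refine ⟨⌈2 * L + 1 / ε⌉₊ + 1, fun N D k g hk hD hN hg => ?_⟩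
  have hpi := Real.pi_pos
  have hk1 : 1 ≤ k := by omega
  have hkR : 2 * L + 1 / ε ≤ k := (Nat.le_ceil _).trans (by exact_mod_cast (by omega))
  have hε : 0 < 1 / ε := by positivity
  have hk0 : (0 : ℝ) < k := by exact_mod_cast hk1
  have hkN : (k : ℝ) ≤ N := by exact_mod_cast (by omega)
  have hN1 : (1 : ℝ) ≤ N := by exact_mod_cast (by omega)
  have hkε : 1 ≤ k * ε := (div_le_iff₀ h0).1 (by linarith)
  obtain ⟨hl1, hl2⟩ := lam_bounds hk1 hD
  have hs := sc_sq (N := N) hk1 hD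
  have hs0 := sc_nonneg N D k
  have hB := Bn_ge hk1 hD
  set l := lam D k with hl
  set s := sc N D k with hsdef
  have hl0 : 0 < l := by linarith
  have hlN : l = N * s ^ 2 := by rw [hs]; field_simp
  have hy : -(g * s) / l ≤ 1 + 3 * ε := by
    rw [div_le_iff₀ hl0]
    have a1 : -(g * s) ≤ (N + 1) * s ^ 2 * (1 + ε) := by nlinarith
    have a2 : (N + 1 : ℝ) ≤ N * (1 + ε) := by nlinarith
    have a3 : (N + 1) * s ^ 2 * (1 + ε) ≤ N * (1 + ε) * s ^ 2 * (1 + ε) := by gcongr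
    have a4 : (1 + ε) * (1 + ε) ≤ 1 + 3 * ε := by nlinarith
    calc -(g * s) ≤ N * (1 + ε) * s ^ 2 * (1 + ε) := a1.trans a3
      _ = (1 + ε) * (1 + ε) * l := by rw [hlN]; ring
      _ ≤ _ := by gcongr
  have h2 := hcore l _ (by linarith) hy
  have e1 : l * (1 - ε - -(g * s) / l) = (1 - ε) * l + g * s := by field_simp; ring
  rw [e1] at h2
  have h3 : l * (-(g * s) / l) ^ 2 / 8 ≤ g ^ 2 / (4 * (N + 1)) := by
    have e2 : l * (-(g * s) / l) ^ 2 / 8 = g ^ 2 / (8 * N) := by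
      have : s ^ 2 = l / N := hs
      rw [div_pow, neg_sq, mul_pow, this]
      field_simp
    rw [e2]
    exact div_le_div_of_nonneg_left (sq_nonneg g) (by positivity) (by linarith)
  have hsq : 0 < √(2 * Real.pi * l) := Real.sqrt_pos.2 (by positivity)
  have h4 : 1 / (k : ℝ) ≤ ε := by rw [div_le_iff₀ hk0]; linarith
  calc _ ≤ Real.exp (l * (-(g * s) / l) ^ 2 / 8 + 4 * ε) / √(2 * Real.pi * l) :=
        (le_div_iff₀ hsq).2 h2
    _ ≤ Real.exp (-(1 / k) + (g ^ 2 / (4 * (N + 1)) + 5 * ε)) / √(2 * Real.pi * l) := by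
        exact div_le_div_of_nonneg_right (Real.exp_le_exp.2 (by linarith)) hsq.le
    _ = Real.exp (-(1 / k)) / √(2 * Real.pi * l) *
          Real.exp (g ^ 2 / (4 * (N + 1)) + 5 * ε) := by rw [Real.exp_add]; ring
    _ ≤ _ := by gcongr

end Pool.Agent.Lib.MP_d20c4f_pr.H53
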