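import Pool.Agent.Lib.MP_d20c4f_pr.H53Basic

/-!
Exact circle integrals of binomial type.
-/

namespace Pool.Agent.Lib.MP_d20c4f_pr.H53

open MeasureTheory Complex Finset

theorem cx_integrable {f : ℝ → ℂ} (hf : Continuous f) : Integrable f ang := by
  unfold ang
  refine Integrable.smul_measure ?_ (by simp [Real.pi_pos])
  exact (hf.continuousOn.integrableOn_Icc).mono_set Set.Ioc_subset_Icc_self

theorem cx_cont (a b : ℕ) : Continuous fun θ => E θ ^ a / E θ ^ b :=
  Continuous.div (by fun_prop) (by fun_prop) fun θ => pow_ne_zero _ (E_ne θ)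

theorem int_orth (a b : ℕ) : ∫ θ, E θ ^ a / E θ ^ b ∂ang = if a = b then 1 else 0 := by
  split_ifs with h
  · subst h
    simp [div_self (pow_ne_zero a (E_ne _))]
  · have e : ∀ θ : ℝ, E θ ^ a / E θ ^ b = cexp ((((a : ℤ) - b : ℤ) * I) * θ) := by
      intro θ
      rw [E, ← exp_nat_mul, ← exp_nat_mul, ← exp_sub]
      congr 1
      push_cast
      ring
    have h0 : (((a : ℤ) - b : ℤ) : ℂ) * I ≠ 0 :=
      mul_ne_zero (Int.cast_ne_zero.2 (by omega)) I_ne_zero
    simp only [e]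
    rw [integral_ang, integral_exp_mul_complex h0]
    have : cexp ((((a : ℤ) - b : ℤ) * I) * (Real.pi : ℝ)) =
        cexp ((((a : ℤ) - b : ℤ) * I) * (-Real.pi : ℝ)) := by
      rw [← mul_one (cexp (_ * (-Real.pi : ℝ))), ← exp_int_mul_two_pi_mul_I ((a : ℤ) - b),
        ← exp_add]
      congr 1
      push_cast
      ring
    rw [this, sub_self, zero_div, smul_zero]

theorem int_binom (D k M i j : ℕ) : ∫ θ, Af D k (E θ) ^ M * E θ ^ i / E θ ^ j ∂ang =
    if i ≤ j then ((M.choose (j - i) * kap D k ^ (j - i) * (1 - kap D k) ^ (M - (j - i)) : ℝ) : ℂ)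
    else 0 := by
  have e : ∀ θ, Af D k (E θ) ^ M * E θ ^ i / E θ ^ j = ∑ m ∈ range (M + 1),
      ((M.choose m * kap D k ^ m * (1 - kap D k) ^ (M - m) : ℝ) : ℂ) *
        (E θ ^ (m + i) / E θ ^ j) := by
    intro θ
    rw [Af, add_comm, add_pow, sum_mul, sum_div]
    refine sum_congr rfl fun m _ => ?_
    push_cast
    ring
  simp only [e]
  rw [integral_finsetSum _ fun m _ => (cx_integrable (cx_cont _ _)).const_mul _]
  simp only [integral_const_mul, int_orth, mul_ite, mul_one, mul_zero]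
  split_ifs with h
  · rw [sum_eq_single (j - i) (fun m _ hm => if_neg (by omega)) fun hm => ?_,
      if_pos (by omega)]
    rw [Nat.choose_eq_zero_of_lt (by rw [mem_range] at hm; omega)]
    simp
  · exact sum_eq_zero fun m _ => if_neg (by omega)

theorem cx_Bn_ne {D k : ℕ} (h1 : 1 ≤ k) (h2 : 2 * k ≤ D) : (Bn D k : ℂ) ≠ 0 := by
  exact_mod_cast (Bn_pos h1 h2).ne'

theorem int_dens {D k : ℕ} (h1 : 1 ≤ k) (h2 : 2 * k ≤ D) : ∫ θ, dens D k (E θ) ∂ang = 1 := by
  have := int_binom D k D 0 k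
  simp only [pow_zero, mul_one, zero_le, if_true, Nat.sub_zero] at this
  simp only [dens]
  rw [integral_div, this]
  exact div_self (cx_Bn_ne h1 h2)

theorem dens_mul_Psi (N : ℕ) {D : ℕ} (k : ℕ) (hD : 2 ≤ D) (w : ℂ) : dens D k w * Psi N D k w =
    sc N D k * (w - 1) * Af D k w ^ (D - 1) / w ^ k / Bn D k := by
  obtain ⟨M, rfl⟩ : ∃ M, D = M + 2 := ⟨D - 2, by omega⟩
  unfold dens Psi
  by_cases h : Af (M + 2) k w = 0
  · simp [h]
  · rw [show M + 2 - 1 = M + 1 from rfl, pow_succ _ (M + 1)]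
    simp only [div_eq_mul_inv]
    linear_combination (Af (M + 2) k w ^ (M + 1) * (w ^ k)⁻¹ * (Bn (M + 2) k : ℂ)⁻¹ *
      (sc N (M + 2) k * (w - 1))) * mul_inv_cancel₀ h

theorem dens_mul_Psi_sq (N : ℕ) {D : ℕ} (k : ℕ) (hD : 3 ≤ D) (w : ℂ) :
    dens D k w * (Psi N D k w * Psi N D k w) =
      sc N D k ^ 2 * (w - 1) ^ 2 * Af D k w ^ (D - 2) / w ^ k / Bn D k := by
  rw [← mul_assoc, dens_mul_Psi N k (by omega)]
  obtain ⟨M, rfl⟩ : ∃ M, D = M + 3 := ⟨D - 3, by omega⟩
  unfold Psi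
  by_cases h : Af (M + 3) k w = 0
  · simp [h]
  · rw [show M + 3 - 1 = M + 1 + 1 from rfl, show M + 3 - 2 = M + 1 from rfl, pow_succ _ (M + 1)]
    simp only [div_eq_mul_inv]
    linear_combination (Af (M + 3) k w ^ (M + 1) * (w ^ k)⁻¹ * (Bn (M + 3) k : ℂ)⁻¹ *
      (sc N (M + 3) k * (w - 1)) ^ 2) * mul_inv_cancel₀ h

theorem cx_int (D k M i j : ℕ) :
    Integrable (fun θ => Af D k (E θ) ^ M * E θ ^ i / E θ ^ j) ang :=
  cx_integrable (Continuous.div (by fun_prop) (by fun_prop) fun θ => pow_ne_zero _ (E_ne θ))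

theorem cx_choose (j r : ℕ) : (((j + r + 1).choose (j + 1) : ℕ) : ℝ) * (j + 1) =
    ((j + r + 1).choose j : ℕ) * (r + 1) := by
  have := Nat.choose_succ_right_eq (j + r + 1) j
  rw [show j + r + 1 - j = r + 1 by omega] at this
  exact_mod_cast this

theorem cx_choose' (n j : ℕ) : (((n + 1).choose (j + 1) : ℕ) : ℝ) * (j + 1) =
    (n + 1) * (n.choose j : ℕ) := by
  exact_mod_cast (Nat.add_one_mul_choose_eq n j).symm

theorem int_dens_Psi (N : ℕ) {D k : ℕ} (h1 : 1 ≤ k) (h2 : 2 * k ≤ D) :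
    ∫ θ, dens D k (E θ) * Psi N D k (E θ) ∂ang = 0 := by
  have e : ∀ θ, dens D k (E θ) * Psi N D k (E θ) = (sc N D k / Bn D k : ℂ) *
      (Af D k (E θ) ^ (D - 1) * E θ ^ 1 / E θ ^ k - Af D k (E θ) ^ (D - 1) * E θ ^ 0 / E θ ^ k) := by
    intro θ
    rw [dens_mul_Psi N k (by omega)]
    ring
  simp only [e]
  rw [integral_const_mul, integral_sub (cx_int _ _ _ _ _) (cx_int _ _ _ _ _), int_binom, int_binom,
    if_pos h1, if_pos (Nat.zero_le _), ← ofReal_sub]
  obtain ⟨j, rfl⟩ : ∃ j, k = j + 1 := ⟨k - 1, by omega⟩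
  obtain ⟨r, rfl⟩ : ∃ r, D = j + r + 2 := ⟨D - j - 2, by omega⟩
  have hk : (j + r + 2 : ℝ) * kap (j + r + 2) (j + 1) = j + 1 := by
    have := mul_kap (D := j + r + 2) (k := j + 1) (by omega)
    push_cast at this
    exact this
  have hc := cx_choose j r
  simp only [show j + r + 2 - 1 = j + r + 1 from rfl, Nat.add_sub_cancel, Nat.sub_zero,
    show j + r + 1 - j = r + 1 by omega, show j + r + 1 - (j + 1) = r by omega]
  generalize kap (j + r + 2) (j + 1) = K at hk
  have : (((j + r + 1).choose j : ℕ) : ℝ) * K ^ j * (1 - K) ^ (r + 1) -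
      ((j + r + 1).choose (j + 1) : ℕ) * K ^ (j + 1) * (1 - K) ^ r = 0 := by
    apply mul_left_cancel₀ (show (j + 1 : ℝ) ≠ 0 by positivity)
    linear_combination (-K ^ (j + 1) * (1 - K) ^ r) * hc -
      (((j + r + 1).choose j : ℕ) * K ^ j * (1 - K) ^ r) * hk
  rw [this]
  simp

theorem int_dens_E {D k : ℕ} (h1 : 1 ≤ k) (h2 : 2 * k ≤ D) :
    ∫ θ, dens D k (E θ) * E θ ∂ang = abar D k := by
  have e : ∀ θ, dens D k (E θ) * E θ = (Af D k (E θ) ^ D * E θ ^ 1 / E θ ^ k) / Bn D k := by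
    intro θ
    rw [dens]
    ring
  simp only [e]
  rw [integral_div, int_binom, if_pos h1, div_eq_iff (cx_Bn_ne h1 h2), ← ofReal_mul]
  congr 1
  obtain ⟨j, rfl⟩ : ∃ j, k = j + 1 := ⟨k - 1, by omega⟩
  obtain ⟨r, rfl⟩ : ∃ r, D = j + r + 1 := ⟨D - j - 1, by omega⟩
  have hk : (j + r + 1 : ℝ) * kap (j + r + 1) (j + 1) = j + 1 := by
    have := mul_kap (D := j + r + 1) (k := j + 1) (by omega)
    push_cast at this
    exact this
  have hc := cx_choose j r
  simp only [abar, Bn, Nat.add_sub_cancel,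
    show j + r + 1 - j = r + 1 by omega, show j + r + 1 - (j + 1) = r by omega]
  generalize kap (j + r + 1) (j + 1) = K at hk
  push_cast
  rw [show (j + r + 1 - (j + 1) : ℝ) = r by ring, div_mul_eq_mul_div, eq_div_iff (by positivity)]
  apply mul_left_cancel₀ (show (j + 1 : ℝ) ≠ 0 by positivity)
  linear_combination (-(r : ℝ) * K ^ (j + 1) * (1 - K) ^ r) * hc -
    (((j + r + 1).choose j : ℕ) * (r + 1) * K ^ j * (1 - K) ^ r) * hk

theorem cx_sq (j r : ℕ) (K a b c e : ℝ) (hk : (j + r + 3 : ℝ) * K = j + 1)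
    (ha : a * (j + r + 3) * (j + r + 2) * K = e * (j + 1) * j)
    (hb : b * (j + r + 3) * (j + r + 2) = e * (j + 1) * (r + 2))
    (hc : c * (j + r + 3) * (j + r + 2) = e * (r + 2) * (r + 1)) :
    (j + 1) * (1 - K) * (a * (1 - K) ^ 2 - 2 * b * (1 - K) + c * K) * (j + r + 2) =
      -(j + r + 3) * (e * K * (1 - K) ^ 2) := by
  have h0 : (j + r + 3 : ℝ) ≠ 0 := by positivity
  have h1 : (j + r + 2 : ℝ) ≠ 0 := by positivity
  have h2 : (j + 1 : ℝ) ≠ 0 := by positivity
  have hK : K = (j + 1) / (j + r + 3) := by rw [eq_div_iff h0]; linarith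
  have ea : a = e * j / (j + r + 2) := by
    rw [eq_div_iff h1]
    apply mul_left_cancel₀ h2
    linear_combination ha - a * (j + r + 2) * hk
  have eb : b = e * (j + 1) * (r + 2) / ((j + r + 3) * (j + r + 2)) := by
    rw [eq_div_iff (mul_ne_zero h0 h1)]; linarith
  have ec : c = e * (r + 2) * (r + 1) / ((j + r + 3) * (j + r + 2)) := by
    rw [eq_div_iff (mul_ne_zero h0 h1)]; linarith
  rw [hK, ea, eb, ec]
  field_simp
  ring

theorem int_dens_Psi_sq (N : ℕ) {D k : ℕ} (h1 : 1 ≤ k) (h2 : 2 * k ≤ D) (hD : 3 ≤ D) :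
    ∫ θ, dens D k (E θ) * (Psi N D k (E θ) * Psi N D k (E θ)) ∂ang =
      ((-((D : ℝ) / N) / (D - 1) : ℝ) : ℂ) := by
  have e : ∀ θ, dens D k (E θ) * (Psi N D k (E θ) * Psi N D k (E θ)) =
      ((sc N D k ^ 2 / Bn D k : ℝ) : ℂ) * (Af D k (E θ) ^ (D - 2) * E θ ^ 2 / E θ ^ k -
        2 * (Af D k (E θ) ^ (D - 2) * E θ ^ 1 / E θ ^ k) +
        Af D k (E θ) ^ (D - 2) * E θ ^ 0 / E θ ^ k) := by
    intro θ
    rw [dens_mul_Psi_sq N k hD]
    push_cast
    ring
  simp only [e]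
  rw [integral_const_mul, integral_add (by
    exact (cx_int _ _ _ _ _).sub ((cx_int _ _ _ _ _).const_mul _))
    (cx_int _ _ _ _ _), integral_sub (cx_int _ _ _ _ _) ((cx_int _ _ _ _ _).const_mul _),
    integral_const_mul, int_binom, int_binom, int_binom, if_pos h1, if_pos (Nat.zero_le _),
    sc_sq h1 h2, lam_eq (by omega)]
  have hB := (Bn_pos h1 h2).ne'
  have hK := (kap_pos h1 (show k ≤ D by omega)).ne'
  obtain ⟨j, rfl⟩ : ∃ j, k = j + 1 := ⟨k - 1, by omega⟩
  obtain ⟨r, rfl⟩ : ∃ r, D = j + r + 3 := ⟨D - j - 3, by omega⟩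
  have hk : (j + r + 3 : ℝ) * kap (j + r + 3) (j + 1) = j + 1 := by
    have := mul_kap (D := j + r + 3) (k := j + 1) (by omega)
    push_cast at this
    exact this
  have c1 := cx_choose j r
  have c2 := cx_choose' (j + r + 2) j
  have c3 := Nat.choose_mul_succ_eq (j + r + 1) j
  rw [show j + r + 1 + 1 - j = r + 2 by omega] at c3
  have c4 : (((j + r + 1).choose j : ℕ) : ℝ) * (j + r + 2) =
      ((j + r + 2).choose j : ℕ) * (r + 2) := by exact_mod_cast c3
  obtain ⟨a, ha, ha'⟩ : ∃ a : ℝ, (if 2 ≤ j + 1 then (((j + r + 3 - 2).choose (j + 1 - 2) *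
      kap (j + r + 3) (j + 1) ^ (j + 1 - 2) *
      (1 - kap (j + r + 3) (j + 1)) ^ (j + r + 3 - 2 - (j + 1 - 2)) : ℝ) : ℂ) else 0) =
      ((a * kap (j + r + 3) (j + 1) ^ j * (1 - kap (j + r + 3) (j + 1)) ^ (r + 2) : ℝ) : ℂ) ∧
      a * kap (j + r + 3) (j + 1) * (r + 2) = j * ((j + r + 1).choose j : ℕ) := by
    rcases j with _ | i
    · exact ⟨0, by simp, by simp⟩
    · refine ⟨((i + 1 + r + 1).choose i : ℕ) / kap (i + 1 + r + 3) (i + 1 + 1), ?_, ?_⟩
      · rw [if_pos (by omega), show i + 1 + r + 3 - 2 = i + 1 + r + 1 from rfl,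
          show i + 1 + 1 - 2 = i from rfl, show i + 1 + r + 1 - i = r + 2 by omega]
        congr 1
        field_simp
        ring
      · have := cx_choose i (r + 1)
        rw [show i + (r + 1) + 1 = i + 1 + r + 1 by ring] at this
        rw [div_mul_cancel₀ _ hK]
        push_cast at this ⊢
        linarith
  rw [ha]
  simp only [Bn, show j + r + 3 - 2 = j + r + 1 from rfl, Nat.add_sub_cancel, Nat.sub_zero,
    show j + r + 1 - j = r + 1 by omega, show j + r + 1 - (j + 1) = r by omega,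
    show j + r + 3 - (j + 1) = r + 2 by omega] at hB ⊢
  generalize kap (j + r + 3) (j + 1) = K at *
  have p1 : (r + 2 : ℝ) ≠ 0 := by positivity
  have p2 : (j + 1 : ℝ) ≠ 0 := by positivity
  have p3 : (j + r + 2 : ℝ) ≠ 0 := by positivity
  push_cast at c2
  have hb : (((j + r + 1).choose j : ℕ) : ℝ) * (j + r + 3) * (j + r + 2) =
      ((j + r + 3).choose (j + 1) : ℕ) * (j + 1) * (r + 2) := by
    linear_combination (j + r + 3 : ℝ) * c4 - (r + 2 : ℝ) * c2
  have key := cx_sq j r K a _ ((j + r + 1).choose (j + 1) : ℕ) _ hk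
    (by
      apply mul_left_cancel₀ p1
      linear_combination ((j + r + 3) * (j + r + 2) : ℝ) * ha' + (j : ℝ) * hb) hb
    (by
      apply mul_left_cancel₀ p2
      linear_combination ((j + r + 3) * (j + r + 2) : ℝ) * c1 + (r + 1 : ℝ) * hb)
  rw [show (2 : ℂ) = ((2 : ℝ) : ℂ) by simp, ← ofReal_mul, ← ofReal_sub, ← ofReal_add, ← ofReal_mul]
  congr 1
  rw [div_mul_eq_mul_div, div_eq_div_iff hB (by push_cast; intro h; apply p3; linarith)]
  push_cast
  simp only [div_eq_mul_inv]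
  linear_combination ((N : ℝ)⁻¹ * K ^ j * (1 - K) ^ r) * key

theorem int_exp (m d : ℕ) (μ : ℂ) : ∫ θ, E θ ^ m / E θ ^ d * cexp (μ * E θ) ∂ang =
    if m ≤ d then μ ^ (d - m) / ((d - m).factorial : ℂ) else 0 := by
  have hs : ∀ θ, HasSum (fun n : ℕ => μ ^ n / (n.factorial : ℂ) * (E θ ^ (n + m) / E θ ^ d))
      (E θ ^ m / E θ ^ d * cexp (μ * E θ)) := by
    intro θ
    have := (NormedSpace.expSeries_div_hasSum_exp (μ * E θ)).mul_left (E θ ^ m / E θ ^ d)
    rw [← Complex.exp_eq_exp_ℂ] at this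
    have e : ∀ n : ℕ, μ ^ n / (n.factorial : ℂ) * (E θ ^ (n + m) / E θ ^ d) =
        E θ ^ m / E θ ^ d * ((μ * E θ) ^ n / (n.factorial : ℂ)) := fun n => by ring
    simpa only [e] using this
  have hn : ∀ n θ, ‖μ ^ n / (n.factorial : ℂ) * (E θ ^ (n + m) / E θ ^ d)‖ =
      ‖μ‖ ^ n / n.factorial := by
    intro n θ
    simp
  have h1 := hasSum_integral_of_summable_integral_norm (μ := ang)
    (F := fun (n : ℕ) θ => μ ^ n / (n.factorial : ℂ) * (E θ ^ (n + m) / E θ ^ d))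
    (fun n => cx_integrable (continuous_const.mul (cx_cont _ _)))
    (by simpa only [hn, integral_const, probReal_univ, one_smul] using
      Real.summable_pow_div_factorial ‖μ‖)
  simp only [(hs _).tsum_eq, integral_const_mul, int_orth, mul_ite, mul_one, mul_zero] at h1
  refine h1.unique ?_
  split_ifs with h
  · convert hasSum_single (d - m) fun n hn => if_neg (show ¬n + m = d by omega) using 1
    rw [if_pos (by omega)]
  · convert hasSum_zero using 2 with n
    exact if_neg (by omega)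

theorem cx_E_add_pi (θ : ℝ) : E (θ + Real.pi) = -E θ := by
  simp [E, add_mul, exp_add]

theorem int_neg (F : ℂ → ℂ) : ∫ θ, F (-E θ) ∂ang = ∫ θ, F (E θ) ∂ang := by
  have hp : Function.Periodic (fun θ => F (E θ)) (2 * Real.pi) := fun θ => by
    simp only [two_mul, ← add_assoc, cx_E_add_pi, neg_neg]
  simp only [← cx_E_add_pi]
  rw [integral_ang, integral_ang, intervalIntegral.integral_comp_add_right fun θ => F (E θ)]
  have := hp.intervalIntegral_add_eq (-Real.pi + Real.pi) (-Real.pi)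
  rw [show -Real.pi + Real.pi + 2 * Real.pi = Real.pi + Real.pi by ring,
    show -Real.pi + 2 * Real.pi = Real.pi by ring] at this
  rw [this]

theorem cx_E_neg (θ : ℝ) : E (-θ) = starRingEnd ℂ (E θ) := by
  simp [E, ← exp_conj]

theorem int_real (F : ℂ → ℂ) (hF : ∀ w, F (starRingEnd ℂ w) = starRingEnd ℂ (F w)) :
    (∫ θ, F (E θ) ∂ang).im = 0 := by
  rw [← conj_eq_iff_im, ← integral_conj]
  simp only [← hF, ← cx_E_neg]
  rw [integral_ang, integral_ang, intervalIntegral.integral_comp_neg fun θ => F (E θ), neg_neg]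

theorem int_lamf (D k t u : ℕ) :
    ∫ θ, dens D k (E θ) * lamf D k t u (E θ) ∂ang = ell D k t u := by
  have := int_real (fun w => dens D k w * lamf D k t u w) fun w => by
    simp [dens, lamf, Af, map_ofNat]
  exact Complex.ext rfl this

end Pool.Agent.Lib.MP_d20c4f_pr.H53
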