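import Pool.Agent.Lib.MP_d20c4f_pr.H53Rep
import Pool.Agent.Lib.MP_d20c4f_pr.H53CircX

/-!
The total mass of the integral counts triples of graphs.
-/

namespace Pool.Agent.Lib.MP_d20c4f_pr.H53

open MeasureTheory Complex Finset

theorem cnt_prod_hc {Sg : Type} [Fintype Sg] (D k : ℕ) (al : Sg → ℕ) (b : Sg → Bool)
    (m : Sg → ℕ) (hal : ∀ σ, al σ ≤ 1) (h : ∀ σ, al σ = 0 → b σ = true → m σ = 0) :
    ∏ σ, hc D k (al σ) (b σ) ^ m σ = √(kap D k) ^ (∑ σ, (b σ).toNat * m σ) *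
      √(1 - kap D k) ^ (∑ σ, al σ * m σ - ∑ σ, (b σ).toNat * m σ) := by
  have h1 : ∑ σ, al σ * m σ - ∑ σ, (b σ).toNat * m σ = ∑ σ, (al σ - (b σ).toNat) * m σ := by
    refine Nat.sub_eq_of_eq_add ?_
    rw [← sum_add_distrib]
    refine sum_congr rfl fun σ _ => ?_
    have h2 := hal σ
    have h3 := h σ
    cases hb : b σ <;> interval_cases hs : al σ <;> simp_all
  rw [h1, ← prod_pow_eq_pow_sum, ← prod_pow_eq_pow_sum, ← prod_mul_distrib]
  refine prod_congr rfl fun σ _ => ?_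
  have h2 := hal σ
  have h3 := h σ
  cases hb : b σ <;> interval_cases hs : al σ <;> simp_all [hc]

/-- The local condition on the label counts at a vertex. -/
def Par.cnt_good (P : Par) (m : Bool × Bool × Bool → ℕ) : Prop :=
  (∑ σ, σ.1.toNat * m σ = P.d ∧ ∑ σ, σ.2.1.toNat * m σ = P.k ∧ ∑ σ, σ.2.2.toNat * m σ = P.k) ∧
    (∀ σ, P.al1 σ.1 = 0 → σ.2.1 = true → m σ = 0) ∧ ∀ σ, P.al2 σ.1 = 0 → σ.2.2 = true → m σ = 0

theorem cnt_sqrt (D k : ℕ) (h0 : 0 ≤ 1 - kap D k) :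
    √(kap D k) ^ k * √(1 - kap D k) ^ (D - k) = √(kap D k ^ k * (1 - kap D k) ^ (D - k)) := by
  have h : ∀ (x : ℝ) (j : ℕ), 0 ≤ x → √(x ^ j) = √x ^ j := fun x j hx => by
    rw [Real.sqrt_eq_iff_mul_self_eq (pow_nonneg hx j) (by positivity), ← mul_pow,
      Real.mul_self_sqrt hx]
  rw [Real.sqrt_mul (pow_nonneg (kap_nonneg D k) _), h _ _ (kap_nonneg D k), h _ _ h0]

theorem cnt_D {P : Par} {m : Bool × Bool × Bool → ℕ} (hm : ∑ σ, m σ = P.n - 1)
    (h0 : ∑ σ, σ.1.toNat * m σ = P.d) :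
    ∑ σ, P.al1 σ.1 * m σ = P.D1 ∧ ∑ σ, P.al2 σ.1 * m σ = P.D2 := by
  rw [(P.sum_al1 hm).2, P.sum_al2 hm, h0]
  exact ⟨rfl, rfl⟩

theorem cnt_prod_cc {P : Par} (hP : P.Ok) {m : Bool × Bool × Bool → ℕ}
    (hm : ∑ σ, m σ = P.n - 1) (hg : P.cnt_good m) :
    ∏ σ, P.cc σ ^ m σ = √(kap P.N P.d ^ P.d * (1 - kap P.N P.d) ^ (P.N - P.d)) *
      √(kap P.D1 P.k ^ P.k * (1 - kap P.D1 P.k) ^ (P.D1 - P.k)) *
      √(kap P.D2 P.k ^ P.k * (1 - kap P.D2 P.k) ^ (P.D2 - P.k)) := by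
  obtain ⟨⟨h0, h1, h2⟩, h3, h4⟩ := hg
  have e0 := cnt_prod_hc P.N P.d (fun _ => 1) (fun σ : Bool × Bool × Bool => σ.1) m
    (fun _ => le_rfl) (by simp)
  have e1 := cnt_prod_hc P.D1 P.k (fun σ => P.al1 σ.1) (fun σ : Bool × Bool × Bool => σ.2.1) m
    (fun σ => by have := hP.t1; have := hP.u1; unfold Par.al1; split_ifs <;> assumption) h3
  have e2 := cnt_prod_hc P.D2 P.k (fun σ => P.al2 σ.1) (fun σ : Bool × Bool × Bool => σ.2.2) m
    (fun σ => by have := hP.t2; have := hP.u2; unfold Par.al2; split_ifs <;> assumption) h4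
  simp only [one_mul] at e0
  rw [h0, hm, show P.n - 1 = P.N from rfl, cnt_sqrt _ _ (by linarith [hP.kap0.2])] at e0
  rw [h1, (cnt_D hm h0).1, cnt_sqrt _ _ (by linarith [hP.kap1.2])] at e1
  rw [h2, (cnt_D hm h0).2, cnt_sqrt _ _ (by linarith [hP.kap2.2])] at e2
  rw [← e0, ← e1, ← e2, ← prod_mul_distrib, ← prod_mul_distrib]
  refine prod_congr rfl fun σ _ => ?_
  rw [← mul_pow, ← mul_pow]
  simp [Par.cc, hc]

theorem cnt_int_dens {D k : ℕ} (h : kap D k * (1 + 1) < 1) (j : ℕ) :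
    ∫ θ, dens D k (E θ) * (E θ ^ j / Af D k (E θ) ^ D) ∂ang =
      (if j = k then 1 else 0) / (Bn D k : ℂ) := by
  rw [← int_orth, ← integral_div]
  refine integral_congr_ae (.of_forall fun θ => ?_)
  have h1 : Af D k (E θ) ^ D ≠ 0 := pow_ne_zero _ (Af_ne_of_norm (R := 1) (by simp) h)
  have h2 : E θ ^ k ≠ 0 := pow_ne_zero _ (E_ne θ)
  simp only [dens]
  rw [div_div, div_div, div_mul_div_comm, mul_comm (Af D k (E θ) ^ D), mul_div_mul_right _ _ h1]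

theorem cnt_mom_eq (P : Par) (m : Bool × Bool × Bool → ℕ) :
    Mom ang3 (fun θ => P.rho (pt 1 θ)) (fun σ θ => P.ff σ (pt 1 θ)) (fun i θ => P.ss i (pt 1 θ))
      m 0 = ((∏ σ, P.cc σ ^ m σ : ℝ) : ℂ) *
      (((if ∑ σ, σ.1.toNat * m σ = P.d then 1 else 0) / (Bn P.N P.d : ℂ)) *
      ((∫ θ, dens P.D1 P.k (E θ) * (E θ ^ (∑ σ, σ.2.1.toNat * m σ) /
        Af P.D1 P.k (E θ) ^ (∑ σ, P.al1 σ.1 * m σ)) ∂ang) *
      ∫ θ, dens P.D2 P.k (E θ) * (E θ ^ (∑ σ, σ.2.2.toNat * m σ) /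
        Af P.D2 P.k (E θ) ^ (∑ σ, P.al2 σ.1 * m σ)) ∂ang)) := by
  rw [← int_orth, ← integral_div, ← integral_prod_mul, ← integral_prod_mul,
    ← integral_const_mul, Mom, ang3]
  refine integral_congr_ae (.of_forall fun θ => ?_)
  simp only [P.prod_ff, Par.rho, pt, Pi.zero_apply, zero_mul, sum_const_zero, Complex.exp_zero,
    ofReal_one, one_mul, mul_one, ofReal_prod, ofReal_pow]
  ring

open Classical in
theorem cnt_mom {P : Par} (hP : P.Ok) {m : Bool × Bool × Bool → ℕ} (hm : ∑ σ, m σ = P.n - 1) :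
    Mom ang3 (fun θ => P.rho (pt 1 θ)) (fun σ θ => P.ff σ (pt 1 θ)) (fun i θ => P.ss i (pt 1 θ))
      m 0 = if P.cnt_good m then ((wt P.N P.d * wt P.D1 P.k * wt P.D2 P.k : ℝ) : ℂ) else 0 := by
  rw [cnt_mom_eq]
  by_cases h0 : ∑ σ, σ.1.toNat * m σ = P.d
  swap
  · rw [if_neg h0, if_neg fun h => h0 h.1.1]
    simp
  rw [(cnt_D hm h0).1, (cnt_D hm h0).2, cnt_int_dens hP.kapR1, cnt_int_dens hP.kapR2]
  by_cases hg : P.cnt_good m
  · rw [if_pos hg, if_pos h0, if_pos hg.1.2.1, if_pos hg.1.2.2, cnt_prod_cc hP hm hg]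
    simp only [wt]
    push_cast
    ring
  rw [if_neg hg]
  by_cases h1 : ∑ σ, σ.2.1.toNat * m σ = P.k
  swap
  · rw [if_neg h1]
    simp
  by_cases h2 : ∑ σ, σ.2.2.toNat * m σ = P.k
  swap
  · rw [if_neg h2]
    simp
  have h3 : ∃ σ, P.cc σ = 0 ∧ m σ ≠ 0 := by
    by_contra hc0
    push Not at hc0
    refine hg ⟨⟨h0, h1, h2⟩, fun σ ha hb => hc0 σ ?_, fun σ ha hb => hc0 σ ?_⟩ <;>
      simp [Par.cc, hc, ha, hb]
  obtain ⟨σ, h4, h5⟩ := h3
  rw [prod_eq_zero (mem_univ σ) (by rw [h4, zero_pow h5])]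
  simp

section Graphs

variable {n : ℕ}

open Classical in
theorem cnt_deg (G : SimpleGraph (Fin n)) (v : Fin n) : (G.neighborSet v).ncard =
    (univ.filter fun e : Pr2 n => (e.1.1 = v ∨ e.1.2 = v) ∧ G.Adj e.1.1 e.1.2).card := by
  rw [Set.ncard_eq_toFinset_card']
  symm
  refine card_bij (fun e _ => if e.1.1 = v then e.1.2 else e.1.1) ?_ ?_ ?_
  · rintro ⟨⟨a, b⟩, hab⟩ he
    simp only [mem_filter, mem_univ, true_and] at he
    simp only [Set.mem_toFinset, SimpleGraph.mem_neighborSet]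
    split_ifs with h1
    · exact h1 ▸ he.2
    · exact (he.1.resolve_left h1) ▸ he.2.symm
  · rintro ⟨⟨a, b⟩, hab⟩ he ⟨⟨c, d⟩, hcd⟩ he' h
    simp only [mem_filter, mem_univ, true_and] at he he' h hab hcd
    simp only [Subtype.mk.injEq, Prod.mk.injEq]
    have h3 := he.1
    have h4 := he'.1
    split_ifs at h with h1 h2 h2 <;> omega
  · intro u hu
    simp only [Set.mem_toFinset, SimpleGraph.mem_neighborSet] at hu
    rcases lt_or_gt_of_ne hu.ne' with h | h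
    · exact ⟨⟨(u, v), h⟩, by simp [hu.symm], by simp [hu.ne']⟩
    · exact ⟨⟨(v, u), h⟩, by simp [hu], by simp⟩

theorem cnt_bit {Sg : Type} [DecidableEq Sg] [Fintype Sg] (c : Pr2 n → Sg) (b : Sg → Bool)
    (v : Fin n) : ∑ σ, (b σ).toNat * cnt c v σ =
      (univ.filter fun e : Pr2 n => (e.1.1 = v ∨ e.1.2 = v) ∧ b (c e) = true).card := by
  rw [card_eq_sum_card_fiberwise (f := c) (t := univ) (by simp)]
  refine sum_congr rfl fun σ _ => ?_
  rw [cnt, filter_filter]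
  cases hb : b σ
  · simp only [Bool.toNat_false, zero_mul]
    symm
    rw [card_eq_zero, filter_eq_empty_iff]
    rintro e - ⟨⟨-, h1⟩, h2⟩
    rw [h2, hb] at h1
    exact absurd h1 (by simp)
  · simp only [Bool.toNat_true, one_mul]
    congr 1
    refine filter_congr fun e _ => ⟨fun h => ⟨⟨h.1, by rw [h.2, hb]⟩, h.2⟩, fun h => ⟨h.1.1, h.2⟩⟩

open Classical in
/-- The labeling of one graph. -/
noncomputable def cnt_lab (G : SimpleGraph (Fin n)) (e : Pr2 n) : Bool :=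
  decide (G.Adj e.1.1 e.1.2)

theorem cnt_lab_iff (G : SimpleGraph (Fin n)) (e : Pr2 n) :
    cnt_lab G e = true ↔ G.Adj e.1.1 e.1.2 := by simp [cnt_lab]

theorem cnt_lab_bij : Function.Bijective (cnt_lab (n := n)) := by
  constructor
  · intro G H h
    have key : ∀ x y, x < y → (G.Adj x y ↔ H.Adj x y) := fun x y hxy => by
      rw [← cnt_lab_iff G ⟨(x, y), hxy⟩, ← cnt_lab_iff H ⟨(x, y), hxy⟩, h]
    ext x y
    rcases lt_trichotomy x y with h1 | rfl | h1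
    · exact key x y h1
    · simp
    · rw [G.adj_comm, H.adj_comm]
      exact key y x h1
  · intro b
    refine ⟨SimpleGraph.fromRel fun x y => ∃ h : x < y, b ⟨(x, y), h⟩ = true, ?_⟩
    funext e
    obtain ⟨⟨x, y⟩, hxy⟩ := e
    rw [Bool.eq_iff_iff, cnt_lab_iff, SimpleGraph.fromRel_adj]
    have hxy' : x < y := hxy
    simp [hxy', hxy'.ne, hxy'.le]

/-- The labeling of three graphs. -/
noncomputable def cnt_lab3
    (x : SimpleGraph (Fin n) × SimpleGraph (Fin n) × SimpleGraph (Fin n)) (e : Pr2 n) :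
    Bool × Bool × Bool := (cnt_lab x.1 e, cnt_lab x.2.1 e, cnt_lab x.2.2 e)

theorem cnt_lab3_bij : Function.Bijective (cnt_lab3 (n := n)) := by
  constructor
  · rintro ⟨a, b, c⟩ ⟨a', b', c'⟩ h
    have h1 : a = a' := cnt_lab_bij.1 (funext fun e => congrArg (·.1) (congrFun h e))
    have h2 : b = b' := cnt_lab_bij.1 (funext fun e => congrArg (·.2.1) (congrFun h e))
    have h3 : c = c' := cnt_lab_bij.1 (funext fun e => congrArg (·.2.2) (congrFun h e))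
    rw [h1, h2, h3]
  · intro c
    obtain ⟨a1, h1⟩ := cnt_lab_bij.2 fun e => (c e).1
    obtain ⟨a2, h2⟩ := cnt_lab_bij.2 fun e => (c e).2.1
    obtain ⟨a3, h3⟩ := cnt_lab_bij.2 fun e => (c e).2.2
    exact ⟨(a1, a2, a3), funext fun e => by simp [cnt_lab3, h1, h2, h3]⟩

theorem cnt_reg {Sg : Type} [DecidableEq Sg] [Fintype Sg] (c : Pr2 n → Sg) (b : Sg → Bool)
    (G : SimpleGraph (Fin n)) (h : ∀ e, b (c e) = cnt_lab G e) (k : ℕ) :
    G ∈ Reg n k ↔ ∀ v, ∑ σ, (b σ).toNat * cnt c v σ = k := by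
  simp only [Reg, mem_filter, mem_univ, true_and, cnt_bit, h, cnt_lab_iff, cnt_deg]
  refine forall_congr' fun v => ?_
  congr! 4 with e
  rw [h, cnt_lab_iff]

theorem cnt_allowed {Sg : Type} [DecidableEq Sg] (c : Pr2 n → Sg) (g b : Sg → Bool)
    (G F : SimpleGraph (Fin n)) (hg : ∀ e, g (c e) = cnt_lab G e) (hb : ∀ e, b (c e) = cnt_lab F e)
    {t u : ℕ} (ht : t ≤ 1) (hu : u ≤ 1) :
    Allowed t u G F ↔ ∀ v σ, (if g σ then u else t) = 0 → b σ = true → cnt c v σ = 0 := by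
  simp only [cnt, card_eq_zero, filter_eq_empty_iff, mem_univ, true_imp_iff]
  constructor
  · rintro h v σ h1 h2 e ⟨-, rfl⟩
    rw [hb, cnt_lab_iff] at h2
    have h3 := h _ _ h2
    rw [hg] at h1
    by_cases h4 : G.Adj e.1.1 e.1.2
    · rw [if_pos ((cnt_lab_iff G e).2 h4)] at h1
      have := h3.1 h4
      omega
    · rw [if_neg fun h5 => h4 ((cnt_lab_iff G e).1 h5)] at h1
      have := h3.2 h4
      omega
  · intro h
    have key : ∀ x y, x < y → F.Adj x y → (G.Adj x y → u = 1) ∧ (¬ G.Adj x y → t = 1) := by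
      intro x y hxy hF
      have h1 := fun h0 => h x (c ⟨(x, y), hxy⟩) h0 (by rw [hb, cnt_lab_iff]; exact hF)
        (x := ⟨(x, y), hxy⟩) ⟨Or.inl rfl, rfl⟩
      rw [hg] at h1
      refine ⟨fun h2 => ?_, fun h2 => ?_⟩
      · rw [if_pos ((cnt_lab_iff G ⟨(x, y), hxy⟩).2 h2)] at h1
        by_contra h3
        exact h1 (by omega)
      · rw [if_neg fun h5 => h2 ((cnt_lab_iff G ⟨(x, y), hxy⟩).1 h5)] at h1
        by_contra h3
        exact h1 (by omega)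
    intro x y hF
    rcases lt_or_gt_of_ne hF.ne with h1 | h1
    · exact key x y h1 hF
    · rw [G.adj_comm]
      exact key y x h1 hF.symm

end Graphs

open Classical in
theorem cnt_count {P : Par} (hP : P.Ok) : P.Count =
    (univ.filter fun c : Pr2 P.n → Bool × Bool × Bool => ∀ v, P.cnt_good (cnt c v)).card := by
  refine card_bijective cnt_lab3 cnt_lab3_bij fun x => ?_
  simp only [mem_filter, mem_product, mem_univ, true_and, Par.cnt_good, forall_and]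
  rw [cnt_reg (cnt_lab3 x) (·.1) x.1 fun _ => rfl, cnt_reg (cnt_lab3 x) (·.2.1) x.2.1 fun _ => rfl,
    cnt_reg (cnt_lab3 x) (·.2.2) x.2.2 fun _ => rfl,
    cnt_allowed (cnt_lab3 x) (·.1) (·.2.1) x.1 x.2.1 (fun _ => rfl) (fun _ => rfl) hP.t1 hP.u1,
    cnt_allowed (cnt_lab3 x) (·.1) (·.2.2) x.1 x.2.2 (fun _ => rfl) (fun _ => rfl) hP.t2 hP.u2]
  rfl

theorem Jfull_total {P : Par} (hP : P.Ok) : ∫ γ, P.Jfull γ = (√(2 * Real.pi) : ℂ) ^ 3 *
    ((P.Count * (wt P.N P.d * wt P.D1 P.k * wt P.D2 P.k) ^ P.n : ℝ) : ℂ) := by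
  classical
  have h1 : kap P.D1 P.k * ((1 : ℝ) + 1) < 1 := hP.kapR1
  have h2 : kap P.D2 P.k * ((1 : ℝ) + 1) < 1 := hP.kapR2
  unfold Par.Jfull
  rw [JJ_total ang3 P.n P.Bd_rho (P.Bd_ff zero_le_one h1 h2) (P.Bd_ss zero_le_one h1 h2),
    Fintype.card_fin]
  congr 1
  simp only [fun c v => cnt_mom hP (sum_cnt (n := P.n) (Sg := Bool × Bool × Bool) c v)]
  simp only [Fintype.prod_ite_zero, prod_const, card_univ, Fintype.card_fin]
  rw [← sum_filter, sum_const, cnt_count hP, nsmul_eq_mul]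
  push_cast
  congr!

end Pool.Agent.Lib.MP_d20c4f_pr.H53
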