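import Pool.Agent.Lib.MP_d20c4f_pr.H53Swap
import Pool.Agent.Lib.MP_d20c4f_pr.H53CircV
import Pool.Agent.Lib.MP_d20c4f_pr.H53Mom

/-!
The crude bound of the integral.
-/

namespace Pool.Agent.Lib.MP_d20c4f_pr.H53

open MeasureTheory Complex Finset

section Abstract

variable {Ω Sg ι : Type} [Fintype Sg] [Fintype ι] {n : ℕ} {ρ : Ω → ℂ} {f : Sg → Ω → ℂ}
  {s : ι → Ω → ℂ} {γ sb : ι → ℝ} {b U : Ω → ℝ}

theorem cb_point
    (hK : ∀ ω ω', ‖∑ σ, f σ ω * f σ ω'‖ *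
      Real.exp (-(∑ i, (s i ω - sb i) * (s i ω' - sb i)).re) ≤ Real.exp (b ω + b ω'))
    (hV : ∀ ω, ‖ρ ω‖ * Real.exp ((∑ i, ((γ i - n * sb i : ℝ) : ℂ) * (s i ω - sb i) -
      (∑ i, (s i ω - sb i) ^ 2) / 2).re + (n - 1 : ℕ) * b ω) ≤ U ω) (ω : Fin n → Ω) :
    ‖(∏ v, ρ (ω v)) * (∏ e : Pr2 n, ∑ σ, f σ (ω e.1.1) * f σ (ω e.1.2)) *
      cexp (-(∑ i, ((γ i : ℂ) - ∑ v, s i (ω v)) ^ 2) / 2)‖ ≤
      Real.exp (-(∑ i, (γ i - n * sb i) ^ 2) / 2) * ∏ v, U (ω v) := by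
  have e1 : ∀ i, (γ i : ℂ) - ∑ v, s i (ω v) =
      ((γ i - n * sb i : ℝ) : ℂ) - ∑ v, (s i (ω v) - sb i) := fun i => by
    simp [sum_sub_distrib]
  have e2 : (-(∑ i, ((γ i - n * sb i : ℝ) : ℂ) ^ 2) / 2).re = -(∑ i, (γ i - n * sb i) ^ 2) / 2 := by
    rw [← ofReal_re (-(∑ i, (γ i - n * sb i) ^ 2) / 2)]
    congr 1
    push_cast
    rfl
  have e3 : ∏ e : Pr2 n, ‖∑ σ, f σ (ω e.1.1) * f σ (ω e.1.2)‖ *
      Real.exp (-(∑ i, (s i (ω e.1.1) - sb i) * (s i (ω e.1.2) - sb i)).re) ≤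
      ∏ v, Real.exp ((n - 1 : ℕ) * b (ω v)) := by
    refine (prod_le_prod (fun _ _ => by positivity) fun e _ => hK _ _).trans_eq ?_
    simp only [Real.exp_add, Real.exp_nat_mul]
    exact prod_pairs fun v => Real.exp (b (ω v))
  simp only [e1]
  rw [gauss_split (fun i => ((γ i - n * sb i : ℝ) : ℂ)) fun i v => s i (ω v) - sb i, norm_mul,
    norm_mul, norm_exp, sub_re, add_re, e2, re_sum, re_sum, sub_eq_add_neg,
    ← sum_neg_distrib (s := (univ : Finset (Pr2 n))),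
    Real.exp_add, Real.exp_add, Real.exp_sum, Real.exp_sum, norm_prod, norm_prod]
  rw [prod_mul_distrib] at e3
  refine le_trans ?_ (mul_le_mul_of_nonneg_left
    (prod_le_prod (fun _ _ => by positivity) fun v _ => hV (ω v)) (Real.exp_pos _).le)
  simp only [Real.exp_add, prod_mul_distrib]
  have key : ∀ a k c x y z : ℝ, 0 ≤ a → 0 ≤ c → 0 ≤ x → k * y ≤ z →
      a * k * (c * x * y) ≤ c * (a * (x * z)) := fun a k c x y z ha hc hx h =>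
    calc _ = c * a * x * (k * y) := by ring
      _ ≤ c * a * x * z := by gcongr
      _ = _ := by ring
  exact key _ _ _ _ _ _ (by positivity) (by positivity) (by positivity) e3

variable [MeasurableSpace Ω] {ν : Measure Ω} [IsProbabilityMeasure ν]

theorem cb_abs (hρ : Measurable ρ) (hf : ∀ σ, Measurable (f σ)) (hs : ∀ i, Measurable (s i))
    (hU : Integrable U ν)
    (hK : ∀ ω ω', ‖∑ σ, f σ ω * f σ ω'‖ *
      Real.exp (-(∑ i, (s i ω - sb i) * (s i ω' - sb i)).re) ≤ Real.exp (b ω + b ω'))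
    (hV : ∀ ω, ‖ρ ω‖ * Real.exp ((∑ i, ((γ i - n * sb i : ℝ) : ℂ) * (s i ω - sb i) -
      (∑ i, (s i ω - sb i) ^ 2) / 2).re + (n - 1 : ℕ) * b ω) ≤ U ω) {W : ℝ}
    (hW : ∫ ω, U ω ∂ν ≤ W) {S : Set Ω} (hS : MeasurableSet S) :
    ‖JJ ν n ρ f s γ‖ ≤ Real.exp (-(∑ i, (γ i - n * sb i) ^ 2) / 2) * W ^ n ∧
      ∀ η : ℝ, ∫ ω, Sᶜ.indicator U ω ∂ν ≤ η * W → ‖JJ ν n ρ f s γ - JJ ν n (S.indicator ρ) f s γ‖ ≤
        Real.exp (-(∑ i, (γ i - n * sb i) ^ 2) / 2) * (n * η * W ^ n) := by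
  classical
  have U0 : ∀ ω, 0 ≤ U ω := fun ω => le_trans (by positivity) (hV ω)
  have I0 : 0 ≤ ∫ ω, U ω ∂ν := integral_nonneg U0
  have h1 := cb_point hK hV
  have h2 := cb_point (ρ := S.indicator ρ) hK fun ω => (mul_le_mul_of_nonneg_right
    (norm_indicator_le_norm_self _ _) (Real.exp_pos _).le).trans (hV ω)
  set c := Real.exp (-(∑ i, (γ i - n * sb i) ^ 2) / 2)
  have c0 : 0 ≤ c := (Real.exp_pos _).le
  have i1 : Integrable (fun ω : Fin n → Ω => c * ∏ v, U (ω v)) (Measure.pi fun _ => ν) :=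
    (Integrable.fintype_prod fun _ => hU).const_mul c
  refine ⟨(norm_integral_le_of_norm_le i1 (.of_forall h1)).trans ?_, fun η hη => ?_⟩
  · rw [integral_const_mul, integral_fintype_prod_eq_pow, Fintype.card_fin]
    gcongr
  have hρ' := hρ.indicator hS
  set Uv : Fin n → Fin n → Ω → ℝ := fun v u => if u = v then Sᶜ.indicator U else U with hUv
  have i2 : ∀ v u, Integrable (Uv v u) ν := fun v u => by
    simp only [hUv]
    split_ifs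
    exacts [hU.indicator hS.compl, hU]
  have i3 : ∀ v, Integrable (fun ω : Fin n → Ω => ∏ u, Uv v u (ω u)) (Measure.pi fun _ => ν) :=
    fun v => Integrable.fintype_prod (i2 v)
  have U1 : ∀ v u ω, 0 ≤ Uv v u ω := fun v u ω => by
    simp only [hUv]
    split_ifs
    exacts [Set.indicator_nonneg (fun _ _ => U0 _) _, U0 _]
  rw [JJ, JJ, ← integral_sub (i1.mono' (Measurable.aestronglyMeasurable (by fun_prop))
    (.of_forall h1)) (i1.mono' (Measurable.aestronglyMeasurable (by fun_prop)) (.of_forall h2))]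
  refine (norm_integral_le_of_norm_le ((integrable_finsetSum univ fun v _ => i3 v).const_mul c)
    (.of_forall fun ω => ?_)).trans ?_
  · by_cases h : ∀ v, ω v ∈ S
    · simp only [Set.indicator_of_mem (h _), sub_self, norm_zero]
      exact mul_nonneg c0 (sum_nonneg fun v _ => prod_nonneg fun u _ => U1 _ _ _)
    · obtain ⟨v, hv⟩ := not_forall.1 h
      rw [prod_eq_zero (f := fun v => S.indicator ρ (ω v)) (mem_univ v)
        (Set.indicator_of_notMem hv ρ), zero_mul, zero_mul, sub_zero]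
      refine (h1 ω).trans (mul_le_mul_of_nonneg_left (le_trans (le_of_eq ?_) (single_le_sum
        (fun v _ => prod_nonneg fun u _ => U1 v u (ω u)) (mem_univ v))) c0)
      refine prod_congr rfl fun u _ => ?_
      simp only [hUv]
      split_ifs with h3
      · rw [h3, Set.indicator_of_mem hv]
      · rfl
  · rw [integral_const_mul, integral_finsetSum _ fun v _ => i3 v]
    refine mul_le_mul_of_nonneg_left ((sum_le_card_nsmul _ _ (η * W ^ n) fun v _ => ?_).trans_eq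
      (by simp [mul_assoc])) c0
    rw [integral_fintype_prod_eq_prod, ← mul_prod_erase _ _ (mem_univ v)]
    have hn : n = n - 1 + 1 := by have := v.pos; omega
    have h3 : ∏ u ∈ univ.erase v, ∫ ω, Uv v u ω ∂ν ≤ W ^ (n - 1) := by
      rw [prod_congr rfl (g := fun _ => ∫ ω, U ω ∂ν) fun u hu => by
        simp only [hUv, if_neg (ne_of_mem_erase hu)], prod_const]
      simp only [card_erase_of_mem (mem_univ v), card_univ, Fintype.card_fin]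
      gcongr
    have h4 : ∫ ω, Uv v v ω ∂ν ≤ η * W := by simpa only [hUv, if_true] using hη
    refine (mul_le_mul h4 h3 (prod_nonneg fun u _ => integral_nonneg (U1 v u))
      ((integral_nonneg (U1 v v)).trans h4)).trans_eq ?_
    conv_rhs => rw [hn, pow_succ]
    ring

end Abstract

theorem cb_amgm {n : ℝ} (hn : 0 < n) (g : ℝ) {x y : ℝ} (h : x ^ 2 ≤ y) :
    g * x ≤ g ^ 2 / (8 * n) + 2 * n * y := by
  have h1 : g ^ 2 / (8 * n) + 2 * n * x ^ 2 - g * x = (g - 4 * n * x) ^ 2 / (8 * n) := by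
    field_simp
    ring
  have h2 : 0 ≤ (g - 4 * n * x) ^ 2 / (8 * n) := by positivity
  nlinarith

theorem cb_exp {P : Par} (hP : P.Ok) {C σ μ e R : ℝ} (hσ : 0 ≤ C * σ) (hμ0 : 0 ≤ μ)
    (hμ : C * σ + 2 * (C * σ) ^ 2 + 3 * C ^ 2 / (2 * P.n) ≤ μ) (he : 16 * μ ≤ e)
    (he' : 4 * σ ^ 2 ≤ e) {sb g : Fin 3 → ℝ} (hsb : ∀ i, |sb i - P.scv i| ≤ σ / √P.n)
    (θ : ℝ × ℝ × ℝ)
    (h0 : ‖P.ss 0 (pt R θ) - sb 0 - P.scv 0 * ((pt R θ).1 - 1)‖ ≤ C * σ * P.Th (pt R θ))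
    (h1 : ∀ i, ‖P.ss i (pt R θ) - sb i‖ ≤ C * P.Th (pt R θ)) :
    (∑ i, (g i : ℂ) * (P.ss i (pt R θ) - sb i) - (∑ i, (P.ss i (pt R θ) - sb i) ^ 2) / 2).re +
      (P.n - 1 : ℕ) * (-(P.scv 0 * ‖(pt R θ).1 - 1‖) ^ 2 / 2 + C * σ * P.Th (pt R θ) ^ 2) ≤
      ((∑ i, g i ^ 2) / (8 * P.n) + 2 * e) +
      -(((1 - e) * lam P.N P.d + g 0 * sc P.N P.N P.d) * (1 - Real.cos θ.1)) +
      (g 1 * sc P.N P.D1 P.k * (R * Real.cos θ.2.1 - 1) +
        4 * μ * ((P.N + 1) * (sc P.N P.D1 P.k * ‖R * E θ.2.1 - 1‖) ^ 2)) +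
      (g 2 * sc P.N P.D2 P.k * (R * Real.cos θ.2.2 - 1) +
        4 * μ * ((P.N + 1) * (sc P.N P.D2 P.k * ‖R * E θ.2.2 - 1‖) ^ 2)) := by
  have hd := hP.d4
  have hdN := hP.dN'
  have hN : (1 : ℝ) ≤ P.N := by exact_mod_cast (by omega : 1 ≤ P.N)
  have hn : (P.n : ℝ) = P.N + 1 := by exact_mod_cast hP.n_eq
  have n0 : (0 : ℝ) < P.n := by linarith
  have hT : P.Th (pt R θ) ^ 2 ≤ 4 * ((sc P.N P.N P.d * ‖E θ.1 - 1‖) ^ 2 +
      (sc P.N P.D1 P.k * ‖R * E θ.2.1 - 1‖) ^ 2 + (sc P.N P.D2 P.k * ‖R * E θ.2.2 - 1‖) ^ 2 +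
      1 / P.n) := by
    have : ∀ a b c d : ℝ, (a + b + c + d) ^ 2 ≤ 4 * (a ^ 2 + b ^ 2 + c ^ 2 + d ^ 2) := by
      intro a b c d
      nlinarith [sq_nonneg (a - b), sq_nonneg (a - c), sq_nonneg (a - d), sq_nonneg (b - c),
        sq_nonneg (b - d), sq_nonneg (c - d)]
    refine (this _ _ _ _).trans_eq ?_
    rw [div_pow, Real.sq_sqrt n0.le, one_pow]
    rfl
  have hx : P.N * (sc P.N P.N P.d * ‖E θ.1 - 1‖) ^ 2 = 2 * (lam P.N P.d * (1 - Real.cos θ.1)) := by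
    rw [mul_pow, sc_sq (by omega) hdN, norm_E_sub_one_sq]
    field_simp
  have hq : -(∑ i, (P.ss i (pt R θ) - sb i) ^ 2).re ≤ 3 * (C * P.Th (pt R θ)) ^ 2 := by
    refine (neg_le_abs _).trans ((abs_re_le_norm _).trans ((norm_sum_le _ _).trans
      ((sum_le_card_nsmul _ _ ((C * P.Th (pt R θ)) ^ 2) fun i _ => ?_).trans_eq (by simp))))
    rw [norm_pow]
    gcongr
    exact h1 i
  have hs : ∀ i, (P.scv i - sb i) ^ 2 ≤ σ ^ 2 / P.n := fun i => by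
    rw [← Real.sq_sqrt n0.le, ← div_pow, ← neg_sub, neg_sq]
    exact sq_le_sq' (abs_le.1 (hsb i)).1 (abs_le.1 (hsb i)).2
  have a0 := cb_amgm n0 (g 0) (sq_le_sq' (abs_le.1 ((abs_re_le_norm _).trans h0)).1
    (abs_le.1 ((abs_re_le_norm _).trans h0)).2)
  have a1 := cb_amgm n0 (g 1) (hs 1)
  have a2 := cb_amgm n0 (g 2) (hs 2)
  have r1 : (P.ss 1 (pt R θ) - sb 1).re =
      sc P.N P.D1 P.k * (R * Real.cos θ.2.1 - 1) + (P.scv 1 - sb 1) := by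
    simp [Par.ss, Par.scv, pt, E_re]
    ring
  have r2 : (P.ss 2 (pt R θ) - sb 2).re =
      sc P.N P.D2 P.k * (R * Real.cos θ.2.2 - 1) + (P.scv 2 - sb 2) := by
    simp [Par.ss, Par.scv, pt, E_re]
    ring
  have r0 : (P.ss 0 (pt R θ) - sb 0 - P.scv 0 * ((pt R θ).1 - 1)).re =
      (P.ss 0 (pt R θ) - sb 0).re + sc P.N P.N P.d * (1 - Real.cos θ.1) := by
    rw [sub_re (P.ss 0 (pt R θ) - sb 0), re_ofReal_mul]
    simp [Par.scv, pt, E_re]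
    ring
  rw [r0] at a0
  rw [sub_re, div_ofNat_re, Fin.sum_univ_three fun i => (g i : ℂ) * _, add_re, add_re,
    re_ofReal_mul, re_ofReal_mul, re_ofReal_mul, r1, r2, Fin.sum_univ_three fun i => g i ^ 2,
    show P.n - 1 = P.N from rfl, show P.scv 0 = sc P.N P.N P.d from rfl,
    show (pt R θ).1 = E θ.1 from rfl, ← hn, add_div, add_div]
  set T := P.Th (pt R θ)
  set x0 := (sc P.N P.N P.d * ‖E θ.1 - 1‖) ^ 2
  set x1 := (sc P.N P.D1 P.k * ‖R * E θ.2.1 - 1‖) ^ 2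
  set x2 := (sc P.N P.D2 P.k * ‖R * E θ.2.2 - 1‖) ^ 2
  have x00 : 0 ≤ x0 := sq_nonneg _
  have b1 : P.n * (σ ^ 2 / P.n) = σ ^ 2 := by field_simp
  have b2 : 3 * (C * T) ^ 2 / 2 + P.N * (C * σ * T ^ 2) + 2 * P.n * (C * σ * T) ^ 2 ≤
      μ * (P.n * T ^ 2) := by
    refine le_trans ?_ (mul_le_mul_of_nonneg_right hμ (by positivity))
    have : 3 * C ^ 2 / (2 * P.n) * (P.n * T ^ 2) = 3 * (C * T) ^ 2 / 2 := by field_simp
    have h2 : 0 ≤ C * σ * T ^ 2 := by positivity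
    rw [add_mul, this, hn]
    linarith
  have b3 : P.n * T ^ 2 ≤ 8 * (P.N * x0) + 4 * (P.n * x1) + 4 * (P.n * x2) + 4 := by
    have h2 := mul_le_mul_of_nonneg_left hT n0.le
    have h3 : (P.n : ℝ) * (1 / P.n) = 1 := by field_simp
    have h4 := mul_le_mul_of_nonneg_right (show (P.n : ℝ) ≤ 2 * P.N by linarith) x00
    linarith
  have b4 := mul_le_mul_of_nonneg_left b3 hμ0
  have b5 : 16 * μ * (lam P.N P.d * (1 - Real.cos θ.1)) ≤ e * (lam P.N P.d * (1 - Real.cos θ.1)) :=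
    mul_le_mul_of_nonneg_right he (by linarith [mul_nonneg (zero_le_one.trans hN) x00])
  rw [hx] at b4
  linarith

/-- The bound for one of the last two coordinates. -/
def cbGood (N D k : ℕ) (g R μ e : ℝ) (r : ℝ → ℂ) : Prop :=
  Measurable r ∧ ∃ F : ℝ → ℝ, Integrable F ang ∧ (∀ θ, ‖r θ‖ *
    Real.exp (g * sc N D k * (R * Real.cos θ - 1) +
      4 * μ * ((N + 1) * (sc N D k * ‖R * E θ - 1‖) ^ 2)) ≤ F θ) ∧
    ∫ θ, F θ ∂ang ≤ Real.exp (g ^ 2 / (4 * (N + 1)) + 21 * e)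

theorem cb_int (a : ℝ) : Integrable (fun θ => Real.exp (-(a * (1 - Real.cos θ)))) ang := by
  refine Integrable.of_bound (by fun_prop) (Real.exp (|a| * 2)) (.of_forall fun θ => ?_)
  rw [Real.norm_of_nonneg (Real.exp_pos _).le, Real.exp_le_exp]
  refine (neg_le_abs _).trans ?_
  rw [abs_mul]
  gcongr
  exact abs_le.2 ⟨by linarith [Real.cos_le_one θ], by linarith [Real.neg_one_le_cos θ]⟩

theorem cb_sc {N D k : ℕ} (hN : 1 ≤ N) (h1 : 1 ≤ k) (h2 : 2 * k ≤ D) :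
    (N + 1) * sc N D k ^ 2 ≤ 2 * lam D k := by
  have h3 : (1 : ℝ) ≤ N := by exact_mod_cast hN
  have h4 : 0 ≤ lam D k := le_trans (by positivity) (lam_bounds h1 h2).1
  rw [sc_sq h1 h2, mul_div_assoc', div_le_iff₀ (by linarith)]
  nlinarith

theorem cb_large {N D k : ℕ} {g μ e : ℝ} (hN : 1 ≤ N) (h1 : 1 ≤ k) (h2 : 2 * k ≤ D) (hμ0 : 0 ≤ μ)
    (he : 16 * μ ≤ e)
    (h : ∫ θ, Real.exp (-(((1 - e) * lam D k + g * sc N D k) * (1 - Real.cos θ))) ∂ang ≤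
      Bn D k * Real.exp (g ^ 2 / (4 * (N + 1)) + 5 * e)) :
    cbGood N D k g 1 μ e fun θ => dens D k ((1 : ℝ) * E θ) := by
  have hB := Bn_pos h1 h2
  refine ⟨by unfold dens; fun_prop, _, (cb_int ((1 - e) * lam D k + g * sc N D k)).div_const
    (Bn D k), fun θ => ?_, ?_⟩
  · have h3 := norm_Af_pow_le (show k ≤ D by omega) D θ
    have h4 := cb_sc hN h1 h2
    have h5 : 0 ≤ 1 - Real.cos θ := by linarith [Real.cos_le_one θ]
    have h6 : 0 ≤ lam D k := le_trans (by positivity) (lam_bounds h1 h2).1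
    simp only [ofReal_one, one_mul, dens, norm_div, norm_pow, norm_E, one_pow, div_one, norm_real,
      Real.norm_of_nonneg hB.le, mul_pow, norm_E_sub_one_sq]
    rw [div_mul_eq_mul_div]
    refine div_le_div_of_nonneg_right ((mul_le_mul_of_nonneg_right h3 (Real.exp_pos _).le).trans ?_)
      hB.le
    rw [← Real.exp_add, Real.exp_le_exp, ← lam]
    have h7 := mul_le_mul_of_nonneg_left (mul_le_mul_of_nonneg_right h4 h5) hμ0
    have h8 := mul_le_mul_of_nonneg_right he (mul_nonneg h6 h5)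
    linarith
  · rw [integral_div, div_le_iff₀' hB]
    refine h.trans ?_
    gcongr
    · linarith
    · norm_num

theorem cb_small {N D k : ℕ} {g μ e : ℝ} (hN : 1 ≤ N) (h1 : 1 ≤ k) (h2 : 2 * k ≤ D) (h3 : k ≤ 2)
    (hμ0 : 0 ≤ μ) (he0 : 0 < e) (he : 16 * μ * (1 / e + 1) ^ 2 ≤ e)
    (h : ∀ θ, ‖densS D k (g * sc N D k) ((1 / e : ℝ) * E θ)‖ *
      Real.exp (g * sc N D k * (1 / e * Real.cos θ - 1)) ≤
      Real.exp (g ^ 2 / (4 * (N + 1)) + 20 * e)) :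
    cbGood N D k g (1 / e) μ e fun θ => densS D k (g * sc N D k) ((1 / e : ℝ) * E θ) := by
  refine ⟨(Bd_densS _ _ _ (by positivity)).1, _, integrable_const _, fun θ => ?_, by simp; rfl⟩
  have h4 := cb_sc hN h1 h2
  have h5 : lam D k ≤ 2 := (lam_bounds h1 h2).2.trans (by exact_mod_cast h3)
  have h6 : ‖((1 / e : ℝ) : ℂ) * E θ - 1‖ ≤ 1 / e + 1 := (norm_sub_le _ _).trans (by
    rw [norm_mul, norm_E, norm_real, Real.norm_of_nonneg (by positivity), mul_one, norm_one])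
  have h7 : (N + 1) * sc N D k ^ 2 * ‖((1 / e : ℝ) : ℂ) * E θ - 1‖ ^ 2 ≤ 4 * (1 / e + 1) ^ 2 := by
    gcongr
    linarith
  have h8 := mul_le_mul_of_nonneg_left h7 hμ0
  rw [Real.exp_add, ← mul_assoc]
  refine (mul_le_mul_of_nonneg_right (h θ) (Real.exp_pos _).le).trans ?_
  rw [← Real.exp_add, Real.exp_le_exp, mul_pow]
  linarith

theorem cb_core {P : Par} (hP : P.Ok) {C σ μ e R : ℝ} (hσ : 0 ≤ C * σ) (hσ1 : σ ≤ 1 / 10)
    (hμ0 : 0 ≤ μ) (hμ : C * σ + 2 * (C * σ) ^ 2 + 3 * C ^ 2 / (2 * P.n) ≤ μ) (he : 16 * μ ≤ e)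
    (he' : 4 * σ ^ 2 ≤ e) (hsb : ∀ i, |P.sbar i - P.scv i| ≤ σ / √P.n) (hR : 0 ≤ R)
    (k1 : √(kap P.D1 P.k) * (R + 1) ≤ σ) (k2 : √(kap P.D2 P.k) * (R + 1) ≤ σ)
    (hA : ∀ w : ℂ × ℂ × ℂ, ‖w.1‖ = 1 → √(kap P.D1 P.k) * ‖w.2.1 - 1‖ ≤ σ →
      √(kap P.D2 P.k) * ‖w.2.2 - 1‖ ≤ σ →
      ‖P.ss 0 w - P.sbar 0 - P.scv 0 * (w.1 - 1)‖ ≤ C * σ * P.Th w ∧
        ∀ i, ‖P.ss i w - P.sbar i‖ ≤ C * P.Th w)
    (hB : ∀ w w' : ℂ × ℂ × ℂ, ‖w.1‖ = 1 → √(kap P.D1 P.k) * ‖w.2.1 - 1‖ ≤ σ →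
      √(kap P.D2 P.k) * ‖w.2.2 - 1‖ ≤ σ → ‖w'.1‖ = 1 → √(kap P.D1 P.k) * ‖w'.2.1 - 1‖ ≤ σ →
      √(kap P.D2 P.k) * ‖w'.2.2 - 1‖ ≤ σ →
      ‖P.Ker w w'‖ * Real.exp (-(∑ i, (P.ss i w - P.sbar i) * (P.ss i w' - P.sbar i)).re) ≤
        Real.exp (-(P.scv 0 * ‖w.1 - 1‖) ^ 2 / 2 - (P.scv 0 * ‖w'.1 - 1‖) ^ 2 / 2 +
          C * σ * (P.Th w ^ 2 + P.Th w' ^ 2)))
    {γ : Fin 3 → ℝ} {r1 r2 : ℝ → ℂ} (h1 : cbGood P.N P.D1 P.k (P.gg γ 1) R μ e r1)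
    (h2 : cbGood P.N P.D2 P.k (P.gg γ 2) R μ e r2)
    (h0 : ∫ θ, Real.exp (-(((1 - e) * lam P.N P.d + P.gg γ 0 * sc P.N P.N P.d) *
      (1 - Real.cos θ))) ∂ang ≤
      Bn P.N P.d * Real.exp (P.gg γ 0 ^ 2 / (4 * (P.N + 1)) + 5 * e)) (δ : ℝ) {ρ : ℝ × ℝ × ℝ → ℂ}
    (hρ : ρ = fun θ => 1 / E θ.1 ^ P.d / (Bn P.N P.d : ℂ) * r1 θ.2.1 * r2 θ.2.2) :
    ‖JJ ang3 P.n ρ (fun σ θ => P.ff σ (pt R θ)) (fun i θ => P.ss i (pt R θ)) γ‖ ≤
      Real.exp (49 * e * P.n - (∑ i, P.gg γ i ^ 2) / 8) ∧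
    ∀ η : ℝ, 0 ≤ η → (∀ θ, δ < √(kap P.N P.d) * ‖E θ - 1‖ → Real.exp (-(((1 - e) * lam P.N P.d +
      P.gg γ 0 * sc P.N P.N P.d) * (1 - Real.cos θ))) / Bn P.N P.d ≤ η) →
      ‖JJ ang3 P.n ρ (fun σ θ => P.ff σ (pt R θ)) (fun i θ => P.ss i (pt R θ)) γ -
        JJ ang3 P.n ((P.box δ).indicator ρ) (fun σ θ => P.ff σ (pt R θ))
          (fun i θ => P.ss i (pt R θ)) γ‖ ≤
      P.n * η * Real.exp (49 * e * P.n - (∑ i, P.gg γ i ^ 2) / 8) := by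
  obtain ⟨m1, F1, i1, p1, q1⟩ := h1
  obtain ⟨m2, F2, i2, p2, q2⟩ := h2
  have hd := hP.d4
  have hn : (P.n : ℝ) = P.N + 1 := by exact_mod_cast hP.n_eq
  have n0 : (0 : ℝ) < P.n := by rw [hn]; positivity
  have e0 : 0 ≤ e := le_trans (by positivity) he'
  have B0 : 0 < Bn P.N P.d := Bn_pos (by omega) hP.dN'
  have kk : ∀ {x : ℝ}, 0 < x ∧ x ≤ 1 / 4 → √x * (R + 1) ≤ σ → x * (R + 1) < 1 ∧
      ∀ θ, √x * ‖R * E θ - 1‖ ≤ σ := fun {x} hx h => by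
    refine ⟨?_, fun θ => le_trans (mul_le_mul_of_nonneg_left ((norm_sub_le _ _).trans (by
      simp [abs_of_nonneg hR])) (Real.sqrt_nonneg _)) h⟩
    have h3 : x ≤ √x := Real.le_sqrt_of_sq_le (by nlinarith [hx.1, hx.2])
    nlinarith
  have c1 := kk hP.kap1 k1
  have c2 := kk hP.kap2 k2
  have F10 : ∀ θ, 0 ≤ F1 θ := fun θ => le_trans (by positivity) (p1 θ)
  have F20 : ∀ θ, 0 ≤ F2 θ := fun θ => le_trans (by positivity) (p2 θ)
  have i0 := (cb_int ((1 - e) * lam P.N P.d + P.gg γ 0 * sc P.N P.N P.d)).div_const (Bn P.N P.d)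
  have q0 := div_le_of_le_mul₀ B0.le (Real.exp_pos _).le (h0.trans_eq (mul_comm _ _))
  rw [← integral_div] at q0
  set F0 := fun θ => Real.exp (-(((1 - e) * lam P.N P.d + P.gg γ 0 * sc P.N P.N P.d) *
    (1 - Real.cos θ))) / Bn P.N P.d with hF0
  set c := Real.exp ((∑ i, P.gg γ i ^ 2) / (8 * P.n) + 2 * e) with hc
  have c0 : 0 ≤ c := (Real.exp_pos _).le
  have iU : ∀ {F : ℝ → ℝ}, Integrable F ang → Integrable (fun θ : ℝ × ℝ × ℝ =>
      c * (F θ.1 * (F1 θ.2.1 * F2 θ.2.2))) ang3 := fun h => (h.mul_prod (i1.mul_prod i2)).const_mul c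
  have jU : ∀ {F : ℝ → ℝ} {a : ℝ}, 0 ≤ a → ∫ θ, F θ ∂ang ≤ a →
      ∫ θ : ℝ × ℝ × ℝ, c * (F θ.1 * (F1 θ.2.1 * F2 θ.2.2)) ∂ang3 ≤
      a * (c * (Real.exp (P.gg γ 1 ^ 2 / (4 * (P.N + 1)) + 21 * e) *
        Real.exp (P.gg γ 2 ^ 2 / (4 * (P.N + 1)) + 21 * e))) := fun {F a} ha h => by
    rw [integral_const_mul, ang3, integral_prod_mul F fun θ : ℝ × ℝ => F1 θ.1 * F2 θ.2,
      integral_prod_mul, mul_left_comm]
    have := integral_nonneg (μ := ang) (f := F1) F10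
    have := integral_nonneg (μ := ang) (f := F2) F20
    gcongr
  have hW : Real.exp (-(∑ i, (γ i - P.n * P.sbar i) ^ 2) / 2) *
      (Real.exp (P.gg γ 0 ^ 2 / (4 * (P.N + 1)) + 5 * e) *
      (c * (Real.exp (P.gg γ 1 ^ 2 / (4 * (P.N + 1)) + 21 * e) *
        Real.exp (P.gg γ 2 ^ 2 / (4 * (P.N + 1)) + 21 * e)))) ^ P.n =
      Real.exp (49 * e * P.n - (∑ i, P.gg γ i ^ 2) / 8) := by
    simp only [hc, ← Real.exp_add, ← Real.exp_nat_mul, ← hn, Fin.sum_univ_three, Par.gg]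
    congr 1
    field_simp
    ring
  obtain ⟨j1, j2⟩ := cb_abs (ν := ang3) (n := P.n) (ρ := ρ) (γ := γ) (sb := P.sbar)
    (b := fun θ => -(P.scv 0 * ‖(pt R θ).1 - 1‖) ^ 2 / 2 + C * σ * P.Th (pt R θ) ^ 2)
    (by rw [hρ]; fun_prop) (fun σ => (P.Bd_ff hR c1.1 c2.1 σ).1)
    (fun i => (P.Bd_ss hR c1.1 c2.1 i).1) (iU i0)
    (fun θ θ' => (hB _ _ (norm_E _) (c1.2 _) (c2.2 _) (norm_E _) (c1.2 _) (c2.2 _)).trans_eq
      (by congr 1; ring))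
    (fun θ => by
      obtain ⟨a1, a2⟩ := hA (pt R θ) (norm_E _) (c1.2 _) (c2.2 _)
      refine (mul_le_mul_of_nonneg_left (Real.exp_le_exp.2 (cb_exp hP hσ hμ0 hμ he he'
        (g := P.gg γ) hsb θ a1 a2)) (norm_nonneg _)).trans ?_
      refine le_trans (le_of_eq ?_) (mul_le_mul_of_nonneg_left (mul_le_mul_of_nonneg_left
        (mul_le_mul (p1 _) (p2 _) (by positivity) (F10 _)) (by positivity)) c0)
      rw [Real.exp_add, Real.exp_add, Real.exp_add, hρ]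
      simp only [norm_mul, norm_div, norm_pow, norm_E, one_pow, norm_one, norm_real,
        Real.norm_of_nonneg B0.le]
      ring) (jU (Real.exp_pos _).le q0) (P.measurableSet_box δ)
  refine ⟨j1.trans_eq hW, fun η h3 h4 => (j2 η ?_).trans_eq (by rw [← hW]; ring)⟩
  refine (integral_mono ((iU i0).indicator (P.measurableSet_box δ).compl)
    (iU (integrable_const η)) fun θ => ?_).trans ((jU (F := fun _ => η) h3 (by simp)).trans ?_)
  · have := F10 θ.2.1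
    have := F20 θ.2.2
    by_cases h5 : θ ∈ (P.box δ)ᶜ
    · rw [Set.indicator_of_mem h5]
      have := h4 θ.1 (not_le.1 h5)
      beta_reduce
      gcongr
    · rw [Set.indicator_of_notMem h5]
      positivity
  · refine mul_le_mul_of_nonneg_left (le_mul_of_one_le_left (by positivity)
      (Real.one_le_exp (by positivity))) h3

theorem cb_far {P : Par} (hP : P.Ok) {δ e g : ℝ} (h0 : 0 < δ) (he0 : 0 < e) (he : e ≤ 1 / 4)
    (hg : g ^ 2 ≤ P.n) (hd : 4 / e ^ 2 ≤ P.d) (θ : ℝ) (hθ : δ < √(kap P.N P.d) * ‖E θ - 1‖) :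
    Real.exp (-(((1 - e) * lam P.N P.d + g * sc P.N P.N P.d) * (1 - Real.cos θ))) / Bn P.N P.d ≤
      3 * P.n * Real.exp (-(P.N * δ ^ 2 / 8)) := by
  have d4 := hP.d4
  have dN := hP.dN'
  have hn : (P.n : ℝ) = P.N + 1 := by exact_mod_cast hP.n_eq
  have d4' : (4 : ℝ) ≤ P.d := by exact_mod_cast d4
  have dN' : (2 : ℝ) * P.d ≤ P.N := by exact_mod_cast dN
  obtain ⟨l1, l2⟩ := lam_bounds (show 1 ≤ P.d by omega) dN
  obtain ⟨p0, p1⟩ := hP.kap0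
  have h5 : 0 ≤ 1 - Real.cos θ := by linarith [Real.cos_le_one θ]
  have a1 : δ ^ 2 ≤ kap P.N P.d * (2 * (1 - Real.cos θ)) := by
    rw [← norm_E_sub_one_sq, ← Real.sq_sqrt p0.le, ← mul_pow]
    gcongr
  have a2 : P.N * δ ^ 2 / 4 ≤ lam P.N P.d * (1 - Real.cos θ) := by
    have h1 : δ ^ 2 / 4 ≤ kap P.N P.d * (1 - kap P.N P.d) * (1 - Real.cos θ) := by
      nlinarith [mul_nonneg p0.le h5]
    rw [lam, mul_assoc, mul_div_assoc]
    gcongr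
  have a3 : -(e * lam P.N P.d) ≤ g * sc P.N P.N P.d := by
    refine (abs_le_of_sq_le_sq' ?_ (by nlinarith)).1
    have h1 := cb_sc (N := P.N) (by omega) (show 1 ≤ P.d by omega) dN
    have h2 := mul_le_mul_of_nonneg_right hg (sq_nonneg (sc P.N P.N P.d))
    rw [div_le_iff₀ (by positivity)] at hd
    have h3 : 2 ≤ e ^ 2 * lam P.N P.d := by nlinarith [sq_nonneg e]
    have h4 := mul_le_mul_of_nonneg_right h3 (show 0 ≤ lam P.N P.d by linarith)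
    rw [hn] at h2
    nlinarith
  have a4 : 1 / (3 * P.n) ≤ Bn P.N P.d := by
    refine le_trans ?_ (Bn_ge (by omega) dN)
    rw [Real.exp_neg, ← one_div, div_div]
    refine one_div_le_one_div_of_le (mul_pos (Real.exp_pos _) (Real.sqrt_pos.2
      (mul_pos (by positivity) (by linarith)))) (mul_le_mul ?_ ?_ (by positivity) (by norm_num))
    · refine le_trans (Real.exp_le_exp.2 ?_) (Real.exp_one_lt_d9.le.trans (by norm_num))
      rw [div_le_one (by linarith)]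
      linarith
    · refine Real.sqrt_le_iff.2 ⟨by positivity, ?_⟩
      nlinarith [Real.pi_le_four, Real.pi_pos]
  have n0 : (0 : ℝ) < 3 * P.n := by linarith
  refine (div_le_div₀ (Real.exp_pos (-(P.N * δ ^ 2 / 8))).le (Real.exp_le_exp.2 ?_) (by positivity)
    a4).trans_eq (by field_simp)
  have h6 : lam P.N P.d / 2 ≤ (1 - e) * lam P.N P.d + g * sc P.N P.N P.d := by nlinarith
  have h7 := mul_le_mul_of_nonneg_right h6 h5
  linarith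

theorem cb_num {δ N : ℝ} (h0 : 0 < δ) (h1 : δ ≤ 1) (hN : 54 * (40 / δ ^ 2) ^ 3 ≤ N + 1) :
    (N + 1) * (3 * (N + 1) * Real.exp (-(N * δ ^ 2 / 8))) ≤ Real.exp (-(δ ^ 2 * (N + 1) / 10)) := by
  have n0 : 0 < N + 1 := lt_of_lt_of_le (by positivity) hN
  have h2 := Real.pow_div_factorial_le_exp (δ ^ 2 * (N + 1) / 40) (by positivity) 3
  have h3 : Real.exp (δ ^ 2 / 8) ≤ 3 :=
    le_trans (Real.exp_le_exp.2 (by nlinarith)) (Real.exp_one_lt_d9.le.trans (by norm_num))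
  have h4 : 9 * (N + 1) ^ 2 ≤ Real.exp (δ ^ 2 * (N + 1) / 40) := by
    refine le_trans ?_ h2
    rw [div_pow, mul_div_assoc', div_le_iff₀ (by positivity)] at hN
    have := mul_le_mul_of_nonneg_right hN (sq_nonneg (N + 1))
    norm_num [Nat.factorial]
    nlinarith
  have h5 : Real.exp (-(N * δ ^ 2 / 8)) * Real.exp (δ ^ 2 * (N + 1) / 40) =
      Real.exp (δ ^ 2 / 8) * Real.exp (-(δ ^ 2 * (N + 1) / 10)) := by
    rw [← Real.exp_add, ← Real.exp_add]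
    congr 1
    ring
  have h6 := mul_le_mul_of_nonneg_left h4 (Real.exp_pos (-(N * δ ^ 2 / 8))).le
  have h7 := mul_le_mul_of_nonneg_right h3 (Real.exp_pos (-(δ ^ 2 * (N + 1) / 10))).le
  linarith

theorem cb_low {N D k : ℕ} (h1 : 1 ≤ k) (h2 : 2 * k ≤ D) (h3 : D ≤ N) {σ e sb γ : ℝ} (hσ : 0 ≤ σ)
    (he : 2 * σ ≤ e) (hγ : 0 ≤ γ) (h : |sb - sc N D k| ≤ σ / √(N + 1 : ℕ)) :
    -((N + 1) * sc N D k * (1 + e)) ≤ γ - (N + 1 : ℕ) * sb := by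
  have hN : (1 : ℝ) ≤ N := by exact_mod_cast (by omega : 1 ≤ N)
  have hk : (1 : ℝ) ≤ k := by exact_mod_cast h1
  have h4 : 1 / √(N + 1 : ℕ) ≤ 2 * sc N D k := by
    refine (abs_le_of_sq_le_sq' ?_ (by have := sc_nonneg N D k; positivity)).2
    rw [div_pow, Real.sq_sqrt (by positivity), mul_pow, sc_sq h1 h2, mul_div_assoc',
      div_le_div_iff₀ (by positivity) (by positivity)]
    push_cast
    nlinarith [(lam_bounds h1 h2).1]
  have h5 : sb ≤ sc N D k * (1 + e) := by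
    have h6 := mul_le_mul_of_nonneg_left h4 hσ
    have h7 := mul_le_mul_of_nonneg_right he (sc_nonneg N D k)
    rw [mul_one_div] at h6
    linarith [(abs_le.1 h).2]
  have h6 := mul_le_mul_of_nonneg_left h5 (show (0 : ℝ) ≤ N + 1 by linarith)
  push_cast
  linarith

theorem crude {δ ε : ℝ} (h0 : 0 < δ) (h1 : δ ≤ 1) (hε : 0 < ε) : ∃ κ0 : ℝ, ∃ K D0 : ℕ, 0 < κ0 ∧
    ∀ P : Par, P.Ok → D0 ≤ P.d → (P.k ≤ 2 ∨ K ≤ P.k) → (P.k : ℝ) ≤ κ0 * P.d →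
    ∀ γ : Fin 3 → ℝ, (∀ i, 0 ≤ γ i) →
      ‖P.Jfull γ‖ ≤ Real.exp (ε * P.n - (∑ i, P.gg γ i ^ 2) / 8) ∧
      (∑ i, P.gg γ i ^ 2 ≤ P.n → ‖P.Jfull γ - P.Jbox δ γ‖ ≤
        Real.exp (ε * P.n - δ ^ 2 * P.n / 10 - (∑ i, P.gg γ i ^ 2) / 8)) := by
  obtain ⟨e, e0, e1, e2⟩ : ∃ e : ℝ, 0 < e ∧ e ≤ 1 / 1000 ∧ 49 * e ≤ ε :=
    ⟨min (1 / 1000) (ε / 49), by positivity, min_le_left _ _, by
      linarith [min_le_right (1 / 1000) (ε / 49)]⟩
  obtain ⟨C, C1, hC⟩ := ker_crude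
  obtain ⟨L, Da, L1, hL⟩ := sbar_close
  obtain ⟨K, hK⟩ := V_large e0 e1
  obtain ⟨Db, hS⟩ := V_small e0 e1
  have R1 : 1 ≤ 1 / e := by rw [le_div_iff₀ e0]; linarith
  obtain ⟨μ, m0, m1⟩ : ∃ μ : ℝ, 0 < μ ∧ 16 * μ * (1 / e + 1) ^ 2 = e :=
    ⟨e / (16 * (1 / e + 1) ^ 2), by positivity, by field_simp⟩
  have m2 : 16 * μ ≤ e := by rw [← m1]; exact le_mul_of_one_le_right (by positivity) (by nlinarith)
  obtain ⟨σ, s0, s1⟩ : ∃ σ : ℝ, 0 < σ ∧ 6 * (C ^ 2 * σ) = μ :=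
    ⟨μ / (6 * C ^ 2), by positivity, by field_simp⟩
  have C2 : C * σ ≤ C ^ 2 * σ := by gcongr; nlinarith
  have s2 : σ ≤ C * σ := le_mul_of_one_le_left s0.le C1
  have s3 : C * σ + 2 * (C * σ) ^ 2 ≤ μ / 2 := by
    have : C ^ 2 * σ * σ ≤ C ^ 2 * σ * 1 := by gcongr; linarith
    linarith
  have s4 : 4 * σ ^ 2 ≤ e := by
    have : σ * σ ≤ σ * 1 := by gcongr; linarith
    linarith
  have kR : ∀ {x : ℝ}, 0 < x ∧ x ≤ 1 / 4 → √x * (1 / e + 1) ≤ σ → x * (1 / e + 1) < 1 :=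
    fun {x} hx h => by
      have h2 : x * x ≤ x * 1 := mul_le_mul_of_nonneg_left (by linarith) hx.1.le
      have h3 : x ≤ √x := Real.le_sqrt_of_sq_le (by linarith)
      have := mul_le_mul_of_nonneg_right h3 (show 0 ≤ 1 / e + 1 by linarith)
      linarith
  obtain ⟨Dc, hDc⟩ := exists_nat_ge ((L / σ) ^ 2 + 3 * C ^ 2 / μ + 4 / e ^ 2 +
    54 * (40 / δ ^ 2) ^ 3)
  refine ⟨(σ / (1 / e + 1)) ^ 2, K, Da + K + Db + Dc, by positivity,
    fun P hP hd hk hκ γ hγ => ?_⟩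
  have dN := hP.dN'
  have d4 := hP.d4
  have hn : (P.n : ℝ) = P.N + 1 := by exact_mod_cast hP.n_eq
  have d0 : (0 : ℝ) < P.d := by exact_mod_cast (by omega : 0 < P.d)
  have dn : (P.d : ℝ) ≤ P.n := by exact_mod_cast (by have := hP.dN; omega : P.d ≤ P.n)
  have hd' := hDc.trans (show (Dc : ℝ) ≤ P.d by exact_mod_cast (by omega : Dc ≤ P.d))
  have t1 : 0 ≤ (L / σ) ^ 2 := by positivity
  have t2 : 0 ≤ 3 * C ^ 2 / μ := by positivity
  have t3 : 0 ≤ 4 / e ^ 2 := by positivity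
  have t4 : 0 ≤ 54 * (40 / δ ^ 2) ^ 3 := by positivity
  have hsb : ∀ i, |P.sbar i - P.scv i| ≤ σ / √P.n := fun i => by
    refine (hL P hP (by omega) i).trans ?_
    have h2 : L / σ ≤ √P.d := Real.le_sqrt_of_sq_le (by linarith)
    have h3 := Real.sqrt_pos.2 d0
    rw [mul_comm, ← div_div]
    gcongr
    rw [div_le_iff₀ s0] at h2
    rw [div_le_iff₀ h3]
    linarith
  have hμ : C * σ + 2 * (C * σ) ^ 2 + 3 * C ^ 2 / (2 * P.n) ≤ μ := by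
    have h2 : 3 * C ^ 2 / μ ≤ P.n := by linarith
    have h3 : 3 * C ^ 2 / (2 * P.n) ≤ μ / 2 := by
      rw [div_le_iff₀ m0] at h2
      rw [div_le_iff₀ (by linarith)]
      linarith
    linarith
  have kk : ∀ {D : ℕ}, P.d ≤ D → ∀ R : ℝ, R ≤ 1 / e → √(kap D P.k) * (R + 1) ≤ σ := by
    intro D hD R hR
    have h2 : (P.d : ℝ) ≤ D := by exact_mod_cast hD
    have h3 : √(kap D P.k) ≤ σ / (1 / e + 1) := by
      refine Real.sqrt_le_iff.2 ⟨by positivity, ?_⟩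
      rw [kap, div_le_iff₀ (by linarith)]
      exact hκ.trans (by gcongr)
    rw [le_div_iff₀ (by positivity)] at h3
    exact le_trans (by gcongr) h3
  have lo : ∀ {D k : ℕ} (i : Fin 3), 1 ≤ k → 2 * k ≤ D → D ≤ P.N → P.scv i = sc P.N D k →
      -((P.N + 1) * sc P.N D k * (1 + e)) ≤ P.gg γ i := fun i a1 a2 a3 a4 => by
    have := hsb i
    rw [a4, hP.n_eq] at this
    rw [Par.gg, hP.n_eq]
    exact cb_low a1 a2 a3 s0.le (by linarith) (hγ i) this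
  have b1 : 2 * P.k ≤ P.D1 := by have := hP.kD1; omega
  have b2 : 2 * P.k ≤ P.D2 := by have := hP.kD2; omega
  have l0 := lo 0 (by omega) dN le_rfl rfl
  have l1 := lo 1 hP.k1 b1 hP.D1_bounds.2 rfl
  have l2 := lo 2 hP.k1 b2 hP.D2_bounds.2 rfl
  obtain ⟨hA, hB⟩ := hC P hP σ s0 (by linarith) P.sbar hsb
  have core := fun {R : ℝ} (hR0 : 0 ≤ R) (hR : R ≤ 1 / e) {r1 r2 : ℝ → ℂ} g1 g2 =>
    cb_core (γ := γ) (r1 := r1) (r2 := r2) hP (by positivity) (by linarith) m0.le hμ m2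
      s4 hsb hR0 (kk hP.D1_bounds.1 R hR) (kk hP.D2_bounds.1 R hR) hA hB g1 g2
      (hK _ _ _ _ (by omega) dN le_rfl l0) δ rfl
  suffices h : ‖P.Jfull γ‖ ≤ Real.exp (49 * e * P.n - (∑ i, P.gg γ i ^ 2) / 8) ∧
      ∀ η : ℝ, 0 ≤ η → (∀ θ, δ < √(kap P.N P.d) * ‖E θ - 1‖ → Real.exp (-(((1 - e) * lam P.N P.d +
      P.gg γ 0 * sc P.N P.N P.d) * (1 - Real.cos θ))) / Bn P.N P.d ≤ η) →
      ‖P.Jfull γ - P.Jbox δ γ‖ ≤ P.n * η * Real.exp (49 * e * P.n - (∑ i, P.gg γ i ^ 2) / 8) by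
    have h2 := mul_le_mul_of_nonneg_right e2 (show (0 : ℝ) ≤ P.n by positivity)
    refine ⟨h.1.trans (Real.exp_le_exp.2 (by linarith)), fun hg => (h.2 _ (by positivity)
      (cb_far hP h0 e0 (by linarith) ((single_le_sum (f := fun i => P.gg γ i ^ 2)
        (fun i _ => sq_nonneg _) (mem_univ 0)).trans hg) (by linarith))).trans ?_⟩
    have h3 := cb_num (N := P.N) h0 h1 (by linarith)
    rw [← hn] at h3
    refine (mul_le_mul_of_nonneg_right h3 (Real.exp_pos _).le).trans ?_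
    rw [← Real.exp_add, Real.exp_le_exp]
    linarith
  rcases hk with hk | hk
  · have rep := fun {S : Set ℝ} (hS : MeasurableSet S) => J_rep hP hk R1
      (kR hP.kap1 (kk hP.D1_bounds.1 _ le_rfl)) (kR hP.kap2 (kk hP.D2_bounds.1 _ le_rfl))
      (P.gg γ 1 * sc P.N P.D1 P.k) (P.gg γ 2 * sc P.N P.D2 P.k) hS γ
    have r1 := rep MeasurableSet.univ
    have r2 : P.Jbox δ γ = _ := rep (S := {t | √(kap P.N P.d) * ‖E t - 1‖ ≤ δ})
      (isClosed_le (by fun_prop) continuous_const).measurableSet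
    simp only [Set.mem_univ, Set.ofPred_true, Set.indicator_univ] at r1
    have b3 := hP.D1_bounds
    have b4 := hP.D2_bounds
    rw [Par.Jfull, r1, r2]
    have := core (by linarith) le_rfl
      (cb_small (by omega) hP.k1 b1 hk m0.le e0 m1.le fun θ =>
        hS _ _ _ _ θ hP.k1 hk (by omega) b3.2 l1)
      (cb_small (by omega) hP.k1 b2 hk m0.le e0 m1.le fun θ =>
        hS _ _ _ _ θ hP.k1 hk (by omega) b4.2 l2)
    exact this
  · have := core zero_le_one R1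
      (cb_large (by omega) hP.k1 b1 m0.le m2 (hK _ _ _ _ hk b1 hP.D1_bounds.2 l1))
      (cb_large (by omega) hP.k1 b2 m0.le m2 (hK _ _ _ _ hk b2 hP.D2_bounds.2 l2))
    exact this

end Pool.Agent.Lib.MP_d20c4f_pr.H53
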