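import Mathlib

/-!
Definitions for the torus integral that counts triples (regular graph, two regular factors).
-/

namespace Pool.Agent.Lib.MP_d20c4f_pr.H53

open MeasureTheory Complex Finset

/-- Unordered pairs of distinct vertices. -/
abbrev Pr2 (n : ℕ) : Type := {e : Fin n × Fin n // e.1 < e.2}

/-- Bounded measurable functions. -/
def Bd {Ω : Type} [MeasurableSpace Ω] (F : Ω → ℂ) : Prop := Measurable F ∧ ∃ C : ℝ, ∀ ω, ‖F ω‖ ≤ C

/-- The abstract integral with vertex density `ρ`, pair kernel `∑ σ, f σ ⊗ f σ` and a Gaussian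
factor in the linear statistics `s i`. -/
noncomputable def JJ {Ω Sg ι : Type} [MeasurableSpace Ω] [Fintype Sg] [Fintype ι] (ν : Measure Ω)
    (n : ℕ) (ρ : Ω → ℂ) (f : Sg → Ω → ℂ) (s : ι → Ω → ℂ) (γ : ι → ℝ) : ℂ :=
  ∫ ω : Fin n → Ω, (∏ v, ρ (ω v)) * (∏ e : Pr2 n, ∑ σ, f σ (ω e.1.1) * f σ (ω e.1.2)) *
    cexp (-(∑ i, ((γ i : ℂ) - ∑ v, s i (ω v)) ^ 2) / 2) ∂(Measure.pi fun _ => ν)

/-- One-vertex moments. -/
noncomputable def Mom {Ω Sg ι : Type} [MeasurableSpace Ω] [Fintype Sg] [Fintype ι] (ν : Measure Ω)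
    (ρ : Ω → ℂ) (f : Sg → Ω → ℂ) (s : ι → Ω → ℂ) (m : Sg → ℕ) (l : ι → ℂ) : ℂ :=
  ∫ ω, ρ ω * (∏ σ, f σ ω ^ m σ) * cexp (∑ i, l i * s i ω) ∂ν

/-- The number of pairs at `v` that carry the label `σ`. -/
def cnt {Sg : Type} [DecidableEq Sg] {n : ℕ} (c : Pr2 n → Sg) (v : Fin n) (σ : Sg) : ℕ :=
  (univ.filter fun e : Pr2 n => (e.1.1 = v ∨ e.1.2 = v) ∧ c e = σ).card

/-- The uniform probability measure on angles. -/
noncomputable def ang : Measure ℝ :=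
  (ENNReal.ofReal (2 * Real.pi))⁻¹ • volume.restrict (Set.Ioc (-Real.pi) Real.pi)

/-- Three independent angles. -/
noncomputable def ang3 : Measure (ℝ × ℝ × ℝ) := ang.prod (ang.prod ang)

/-- The point of the unit circle with angle `θ`. -/
noncomputable def E (θ : ℝ) : ℂ := cexp (θ * I)

/-- Three points on circles of radii `1, R, R`. -/
noncomputable def pt (R : ℝ) (θ : ℝ × ℝ × ℝ) : ℂ × ℂ × ℂ := (E θ.1, R * E θ.2.1, R * E θ.2.2)

noncomputable def kap (D k : ℕ) : ℝ := (k : ℝ) / D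

noncomputable def lam (D k : ℕ) : ℝ := D * (kap D k * (1 - kap D k))

/-- The binomial probability of the mean. -/
noncomputable def Bn (D k : ℕ) : ℝ := (D.choose k : ℝ) * kap D k ^ k * (1 - kap D k) ^ (D - k)

noncomputable def Af (D k : ℕ) (w : ℂ) : ℂ := 1 - (kap D k : ℂ) + (kap D k : ℂ) * w

/-- The normalised complex density of one coordinate. -/
noncomputable def dens (D k : ℕ) (w : ℂ) : ℂ := Af D k w ^ D / w ^ k / (Bn D k : ℂ)

noncomputable def sc (N D k : ℕ) : ℝ := √(lam D k / N)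

/-- The centred coordinate. -/
noncomputable def Psi (N D k : ℕ) (w : ℂ) : ℂ := (sc N D k : ℂ) * (w - 1) / Af D k w

noncomputable def abar (D k : ℕ) : ℝ := ((D : ℝ) - k) / ((D : ℝ) - k + 1)

/-- The correction factor in the first linear statistic. -/
noncomputable def lamf (D k t u : ℕ) (w : ℂ) : ℂ :=
  (1 + ((u : ℂ) - t) * (kap D k : ℂ) * (w ^ 2 - 1) / 2) * Af D k w ^ t / Af D k w ^ u

noncomputable def ell (D k t u : ℕ) : ℝ := (∫ θ, dens D k (E θ) * lamf D k t u (E θ) ∂ang).re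

/-- The Taylor polynomial of degree `k ∈ {1, 2}` of `Af ^ D * exp (τ w)`. -/
noncomputable def trunc (D k : ℕ) (τ : ℝ) (w : ℂ) : ℂ :=
  (1 - (kap D k : ℂ)) ^ D * (1 + ((k / (1 - kap D k) + τ : ℝ) : ℂ) * w +
    if k = 2 then (((k / (1 - kap D k) + τ) ^ 2 / 2 - (k / (1 - kap D k)) ^ 2 / (2 * D) : ℝ) : ℂ) *
      w ^ 2 else 0)

/-- The truncated density used on a large circle when `k ∈ {1, 2}`. -/
noncomputable def densS (D k : ℕ) (τ : ℝ) (w : ℂ) : ℂ :=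
  trunc D k τ w / w ^ k * cexp (-(τ * w)) / (Bn D k : ℂ)

/-- Parameters: `n` vertices, a `d`-regular graph `G` and two `k`-regular graphs; the edges of the
`j`-th one may be non-edges of `G` iff `tj = 1` and edges of `G` iff `uj = 1`. -/
structure Par where
  n : ℕ
  d : ℕ
  k : ℕ
  t1 : ℕ
  u1 : ℕ
  t2 : ℕ
  u2 : ℕ

namespace Par

variable (P : Par)

def N : ℕ := P.n - 1

def D1 : ℕ := P.t1 * (P.N - P.d) + P.u1 * P.d

def D2 : ℕ := P.t2 * (P.N - P.d) + P.u2 * P.d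

/-- Standing assumptions. -/
structure Ok : Prop where
  t1 : P.t1 ≤ 1
  u1 : P.u1 ≤ 1
  s1 : 1 ≤ P.t1 + P.u1
  t2 : P.t2 ≤ 1
  u2 : P.u2 ≤ 1
  s2 : 1 ≤ P.t2 + P.u2
  k1 : 1 ≤ P.k
  kd : 4 * P.k ≤ P.d
  dN : 2 * P.d + 1 ≤ P.n

def al1 (g : Bool) : ℕ := if g then P.u1 else P.t1

def al2 (g : Bool) : ℕ := if g then P.u2 else P.t2

end Par

/-- Square root of the weight of a label of one factor. -/
noncomputable def hc (D k al : ℕ) (m : Bool) : ℝ :=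
  if al = 1 then (if m then √(kap D k) else √(1 - kap D k)) else (if m then 0 else 1)

namespace Par

variable (P : Par)

/-- Square root of the weight of a label. -/
noncomputable def cc (σ : Bool × Bool × Bool) : ℝ :=
  (if σ.1 then √(kap P.N P.d) else √(1 - kap P.N P.d)) * hc P.D1 P.k (P.al1 σ.1) σ.2.1 *
    hc P.D2 P.k (P.al2 σ.1) σ.2.2

/-- The half-edge factor of a label. -/
noncomputable def ff (σ : Bool × Bool × Bool) (w : ℂ × ℂ × ℂ) : ℂ :=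
  (P.cc σ : ℂ) * w.1 ^ σ.1.toNat * (w.2.1 ^ σ.2.1.toNat / Af P.D1 P.k w.2.1 ^ P.al1 σ.1) *
    (w.2.2 ^ σ.2.2.toNat / Af P.D2 P.k w.2.2 ^ P.al2 σ.1)

/-- The pair kernel. -/
noncomputable def Ker (w w' : ℂ × ℂ × ℂ) : ℂ := ∑ σ, P.ff σ w * P.ff σ w'

/-- The scales of the three coordinates. -/
noncomputable def scv : Fin 3 → ℝ := ![sc P.N P.N P.d, sc P.N P.D1 P.k, sc P.N P.D2 P.k]

/-- The three linear statistics. -/
noncomputable def ss : Fin 3 → ℂ × ℂ × ℂ → ℂ :=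
  ![fun w => (sc P.N P.N P.d : ℂ) * w.1 * lamf P.D1 P.k P.t1 P.u1 w.2.1 *
      lamf P.D2 P.k P.t2 P.u2 w.2.2,
    fun w => (sc P.N P.D1 P.k : ℂ) * w.2.1, fun w => (sc P.N P.D2 P.k : ℂ) * w.2.2]

/-- Their means. -/
noncomputable def sbar : Fin 3 → ℝ :=
  ![sc P.N P.N P.d * abar P.N P.d * ell P.D1 P.k P.t1 P.u1 * ell P.D2 P.k P.t2 P.u2,
    sc P.N P.D1 P.k * abar P.D1 P.k, sc P.N P.D2 P.k * abar P.D2 P.k]

/-- The three centred coordinates. -/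
noncomputable def Ps : Fin 3 → ℂ × ℂ × ℂ → ℂ :=
  ![fun w => Psi P.N P.N P.d w.1, fun w => Psi P.N P.D1 P.k w.2.1, fun w => Psi P.N P.D2 P.k w.2.2]

/-- The size of a vertex variable. -/
noncomputable def Th (w : ℂ × ℂ × ℂ) : ℝ :=
  sc P.N P.N P.d * ‖w.1 - 1‖ + sc P.N P.D1 P.k * ‖w.2.1 - 1‖ + sc P.N P.D2 P.k * ‖w.2.2 - 1‖ +
    1 / √P.n

/-- The relative size of the small terms. -/
noncomputable def be (w : ℂ × ℂ × ℂ) : ℝ :=
  √(kap P.N P.d) * ‖w.1 - 1‖ + √(kap P.D1 P.k) * ‖w.2.1 - 1‖ + √(kap P.D2 P.k) * ‖w.2.2 - 1‖ +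
    1 / √P.d

noncomputable def hg (g : Bool) (z : ℂ) : ℂ := (if g then z else 1) / Af P.N P.d z

noncomputable def wg (g : Bool) : ℝ := if g then kap P.N P.d else 1 - kap P.N P.d

/-- Coefficients of the rank one terms of the normalised kernel. -/
noncomputable def cf : Fin 3 → Bool → ℝ :=
  ![fun g => P.wg g * P.al1 g / (P.D1 / P.N), fun g => P.wg g * P.al2 g / (P.D2 / P.N),
    fun g => P.wg g * P.al1 g * P.al2 g / (P.D1 / P.N * (P.D2 / P.N))]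

/-- Big ends of the small terms of the normalised kernel. -/
noncomputable def ph (i : Fin 3 × Bool) (w : ℂ × ℂ × ℂ) : ℂ :=
  (√(P.cf i.1 i.2) : ℂ) * (![P.Ps 1 w * (P.hg i.2 w.1 + 1), P.Ps 2 w * (P.hg i.2 w.1 + 1),
    P.Ps 1 w * P.Ps 2 w * P.hg i.2 w.1] i.1) / 2

/-- Small ends of the small terms of the normalised kernel. -/
noncomputable def ph' (i : Fin 3 × Bool) (w : ℂ × ℂ × ℂ) : ℂ :=
  (√(P.cf i.1 i.2) : ℂ) * (![P.Ps 1 w * (P.hg i.2 w.1 - 1), P.Ps 2 w * (P.hg i.2 w.1 - 1),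
    P.Ps 1 w * P.Ps 2 w * P.hg i.2 w.1] i.1)

/-- The vertex density. -/
noncomputable def rho (w : ℂ × ℂ × ℂ) : ℂ :=
  1 / w.1 ^ P.d / (Bn P.N P.d : ℂ) * dens P.D1 P.k w.2.1 * dens P.D2 P.k w.2.2

/-- The angles whose first coordinate is not far from zero. -/
def box (δ : ℝ) : Set (ℝ × ℝ × ℝ) := {θ | √(kap P.N P.d) * ‖E θ.1 - 1‖ ≤ δ}

noncomputable def Jfull (γ : Fin 3 → ℝ) : ℂ :=
  JJ ang3 P.n (fun θ => P.rho (pt 1 θ)) (fun σ θ => P.ff σ (pt 1 θ)) (fun i θ => P.ss i (pt 1 θ)) γ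

noncomputable def Jbox (δ : ℝ) (γ : Fin 3 → ℝ) : ℂ :=
  JJ ang3 P.n ((P.box δ).indicator fun θ => P.rho (pt 1 θ)) (fun σ θ => P.ff σ (pt 1 θ))
    (fun i θ => P.ss i (pt 1 θ)) γ

/-- The normalised density on the box. -/
noncomputable def rho0 (δ : ℝ) : ℝ × ℝ × ℝ → ℂ :=
  (P.box δ).indicator fun θ => dens P.N P.d (E θ.1) * dens P.D1 P.k (E θ.2.1) *
    dens P.D2 P.k (E θ.2.2)

/-- The centred Gaussian variable. -/
noncomputable def gg (γ : Fin 3 → ℝ) (i : Fin 3) : ℝ := γ i - P.n * P.sbar i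

end Par

open Classical in
/-- The regular graphs. -/
noncomputable def Reg (n k : ℕ) : Finset (SimpleGraph (Fin n)) :=
  univ.filter fun G => ∀ v, (G.neighborSet v).ncard = k

/-- The edges of `F` are allowed by the mode `(t, u)`. -/
def Allowed {n : ℕ} (t u : ℕ) (G F : SimpleGraph (Fin n)) : Prop :=
  ∀ x y, F.Adj x y → (G.Adj x y → u = 1) ∧ (¬ G.Adj x y → t = 1)

open Classical in
/-- The number of admissible triples. -/
noncomputable def Par.Count (P : Par) : ℕ :=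
  ((Reg P.n P.d ×ˢ Reg P.n P.k ×ˢ Reg P.n P.k).filter fun x =>
    Allowed P.t1 P.u1 x.1 x.2.1 ∧ Allowed P.t2 P.u2 x.1 x.2.2).card

noncomputable def wt (D k : ℕ) : ℝ := √(kap D k ^ k * (1 - kap D k) ^ (D - k)) / Bn D k

open Classical in
/-- The number of `k`-factors of `H`. -/
noncomputable def Xf {n : ℕ} (k : ℕ) (H : SimpleGraph (Fin n)) : ℕ :=
  ((Reg n k).filter fun F => F ≤ H).card

/-- The asymptotic formula for the number of admissible triples. -/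
def MainStmt : Prop := ∃ κ0 C Λ : ℝ, ∃ K D0 : ℕ, 0 < κ0 ∧ 0 < C ∧ 0 < Λ ∧ ∀ P : Par, P.Ok →
  D0 ≤ P.d → (P.k ≤ 2 ∨ K ≤ P.k) → (P.k : ℝ) ≤ κ0 * P.d → Even (P.n * P.d) → Even (P.n * P.k) →
  |P.Count * (wt P.N P.d * wt P.D1 P.k * wt P.D2 P.k) ^ P.n - Λ| ≤ C / √P.d

/-- The second moment bound for the number of `k`-factors of a random `h`-regular graph. -/
def ChiStmt : Prop := ∃ κ0 C : ℝ, ∃ K D0 : ℕ, 0 < κ0 ∧ 0 < C ∧ ∀ n h k : ℕ, D0 ≤ h →
  h + D0 + 1 ≤ n → 1 ≤ k → (k ≤ 2 ∨ K ≤ k) → (k : ℝ) ≤ κ0 * (min h (n - 1 - h) : ℕ) →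
  Even (n * h) → Even (n * k) → (0 : ℝ) < ∑ H ∈ Reg n h, (Xf k H : ℝ) ∧
    (Reg n h).card * ∑ H ∈ Reg n h, (Xf k H : ℝ) ^ 2 ≤
      (1 + C / √(min h (n - 1 - h) : ℕ)) * (∑ H ∈ Reg n h, (Xf k H : ℝ)) ^ 2

end Pool.Agent.Lib.MP_d20c4f_pr.H53
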