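import Pool.Agent.Lib.MP_d20c4f_pr.H53Basic

/-!
A real dominating model for the expansion over graphs.
-/

namespace Pool.Agent.Lib.MP_d20c4f_pr.H53

open MeasureTheory Complex Finset

theorem dom_exp0 (x : ℝ) : Real.exp x - 1 ≤ x * Real.exp x := by
  have h1 := Real.add_one_le_exp (-x)
  have h2 : Real.exp (-x) * Real.exp x = 1 := by rw [← Real.exp_add]; simp
  nlinarith [Real.exp_pos x]

theorem dom_exp1 (x : ℝ) : Real.exp x ≤ 1 + |x| * Real.exp |x| := by
  have := dom_exp0 |x|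
  have := Real.exp_le_exp.2 (le_abs_self x)
  linarith

theorem dom_exp2 (x : ℝ) : Real.exp x ≤ 1 + x + x ^ 2 * Real.exp |x| := by
  have h1 := dom_exp0 x
  rcases le_total 0 x with h | h
  · rw [abs_of_nonneg h]; nlinarith
  · have h2 := Real.add_one_le_exp x
    have h3 := Real.one_le_exp (abs_nonneg x)
    nlinarith [sq_nonneg x]

theorem dom_le_exp (u : ℝ) : u ≤ 2 * Real.exp (u / 2) := by
  have := Real.add_one_le_exp (u / 2); linarith

theorem dom_sq_le_exp {u : ℝ} (hu : 0 ≤ u) : u ^ 2 ≤ 8 * Real.exp (u / 2) := by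
  have := Real.quadratic_le_exp_of_nonneg (show 0 ≤ u / 2 by linarith); nlinarith

theorem dom_half (u : ℝ) : Real.exp (u / 2) * Real.exp (u / 2) = Real.exp u := by
  rw [← Real.exp_add]; ring_nf

/-- A function with an integrable exponential whose mean is at most `K`. -/
def DomE {Ω : Type} [MeasurableSpace Ω] (ν : Measure Ω) (F : Ω → ℝ) (K : ℝ) : Prop :=
  Integrable (fun ω => Real.exp (F ω)) ν ∧ ∫ ω, Real.exp (F ω) ∂ν ≤ K

theorem DomE.mono {Ω : Type} [MeasurableSpace Ω] {ν : Measure Ω} {F : Ω → ℝ} {K K' : ℝ}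
    (h : DomE ν F K) (hK : K ≤ K') : DomE ν F K' := ⟨h.1, h.2.trans hK⟩

theorem dom_prod {Ω : Type} [MeasurableSpace Ω] (ν : Measure Ω) [IsProbabilityMeasure ν] {n : ℕ}
    (hn : 1 ≤ n) {W L G : Ω → ℝ} {c K A : ℝ} (hW : Measurable W) (hL : Integrable L ν)
    (hL0 : ∫ ω, L ω ∂ν = 0) (hG : DomE ν G A) (hK : 0 ≤ K)
    (h : ∀ ω, Real.exp (W ω) ≤ Real.exp (c / n) * (1 + L ω + K / n * Real.exp (G ω))) :
    DomE (Measure.pi fun _ : Fin n => ν) (fun ω => ∑ v, W (ω v)) (Real.exp (c + K * A)) := by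
  have hn' : (0 : ℝ) < n := by exact_mod_cast hn
  have h0 : Integrable (fun ω => 1 + L ω) ν := (integrable_const _).add hL
  have h1 : Integrable (fun ω => Real.exp (c / n) * (1 + L ω + K / n * Real.exp (G ω))) ν :=
    (h0.add (hG.1.const_mul _)).const_mul _
  have h2 : Integrable (fun ω => Real.exp (W ω)) ν :=
    h1.mono' hW.exp.aestronglyMeasurable (.of_forall fun ω => by
      rw [Real.norm_of_nonneg (Real.exp_pos _).le]; exact h ω)
  have h3 : ∫ ω, Real.exp (W ω) ∂ν ≤ Real.exp ((c + K * A) / n) := by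
    refine (integral_mono h2 h1 h).trans ?_
    rw [integral_const_mul, integral_add h0 (hG.1.const_mul _), integral_add (integrable_const _) hL,
      hL0, integral_const_mul, add_div, Real.exp_add]
    have h4 := Real.add_one_le_exp (K * A / n)
    have h5 : K / n * ∫ ω, Real.exp (G ω) ∂ν ≤ K / n * A :=
      mul_le_mul_of_nonneg_left hG.2 (by positivity)
    have h6 : K / n * A = K * A / n := by ring
    refine mul_le_mul_of_nonneg_left ?_ (Real.exp_pos _).le
    simp only [integral_const, probReal_univ, smul_eq_mul, mul_one, add_zero]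
    linarith
  simp only [DomE, Real.exp_sum]
  refine ⟨Integrable.fintype_prod (f := fun _ ω => Real.exp (W ω)) fun _ => h2, ?_⟩
  rw [integral_fintype_prod_eq_pow fun ω => Real.exp (W ω), Fintype.card_fin]
  calc _ ≤ Real.exp ((c + K * A) / n) ^ n :=
        pow_le_pow_left₀ (integral_nonneg fun ω => (Real.exp_pos _).le) h3 n
    _ = _ := by rw [← Real.exp_nat_mul, mul_div_cancel₀ _ hn'.ne']

theorem dom_gauss {Ω : Type} [MeasurableSpace Ω] (ν : Measure Ω) [IsProbabilityMeasure ν]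
    {S : Ω → ℝ} {B : ℝ} (hB : 0 < B) (hS : Measurable S)
    (h : ∀ t : ℝ, DomE ν (fun ω => t * S ω) (Real.exp (B * t ^ 2))) :
    DomE ν (fun ω => S ω ^ 2 / (8 * B)) 2 := by
  set F : Ω → ℝ → ℝ := fun ω t => Real.exp (t * S ω) * Real.exp (-(2 * B) * t ^ 2) with hF
  have hm : AEStronglyMeasurable (Function.uncurry F) (ν.prod volume) :=
    (show Measurable fun p : Ω × ℝ => Real.exp (p.2 * S p.1) * Real.exp (-(2 * B) * p.2 ^ 2) by
      fun_prop).aestronglyMeasurable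
  have h1 : ∀ t, ∫ ω, F ω t ∂ν ≤ Real.exp (-B * t ^ 2) := fun t => by
    simp only [hF]
    rw [integral_mul_const]
    calc _ ≤ Real.exp (B * t ^ 2) * Real.exp (-(2 * B) * t ^ 2) :=
          mul_le_mul_of_nonneg_right (h t).2 (Real.exp_pos _).le
      _ = _ := by rw [← Real.exp_add]; ring_nf
  have h0 : ∀ ω t, 0 ≤ F ω t := fun ω t => by positivity
  have hi : Integrable (Function.uncurry F) (ν.prod volume) := by
    rw [integrable_prod_iff' hm]
    refine ⟨.of_forall fun t => (h t).1.mul_const (Real.exp (-(2 * B) * t ^ 2)), ?_⟩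
    refine (integrable_exp_neg_mul_sq hB).mono' hm.norm.prod_swap.integral_prod_right'
      (.of_forall fun t => ?_)
    simp only [Function.uncurry_apply_pair, Real.norm_of_nonneg (h0 _ _)]
    rw [Real.norm_of_nonneg (integral_nonneg fun ω => h0 ω t)]
    exact h1 t
  have h2 : ∀ ω, ∫ t, F ω t = √(Real.pi / (2 * B)) * Real.exp (S ω ^ 2 / (8 * B)) := fun ω => by
    rw [← integral_gaussian, ← integral_sub_right_eq_self (μ := volume)
      (fun t : ℝ => Real.exp (-(2 * B) * t ^ 2)) (S ω / (4 * B)), ← integral_mul_const]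
    refine integral_congr_ae (.of_forall fun t => ?_)
    simp only [hF, ← Real.exp_add]
    congr 1
    field_simp
    ring
  have hp : 0 < √(Real.pi / (2 * B)) := Real.sqrt_pos.2 (by have := Real.pi_pos; positivity)
  have h3 := hi.integral_prod_left
  simp only [Function.uncurry_apply_pair, h2] at h3
  have h4 := integral_integral_swap hi
  simp only [h2, integral_const_mul] at h4
  refine ⟨(integrable_const_mul_iff (IsUnit.mk0 _ hp.ne') _).1 h3, ?_⟩
  refine le_of_mul_le_mul_left ?_ hp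
  rw [h4]
  calc _ ≤ ∫ t : ℝ, Real.exp (-B * t ^ 2) := integral_mono_of_nonneg
        (.of_forall fun t => integral_nonneg fun ω => h0 ω t) (integrable_exp_neg_mul_sq hB)
        (.of_forall h1)
    _ = √(Real.pi / B) := integral_gaussian B
    _ ≤ √(Real.pi / (2 * B) * 2 ^ 2) := by
        refine Real.sqrt_le_sqrt ?_
        rw [div_mul_eq_mul_div, div_le_div_iff₀ hB (by positivity)]
        nlinarith [mul_pos Real.pi_pos hB]
    _ = _ := by rw [Real.sqrt_mul' _ (by norm_num), Real.sqrt_sq (by norm_num)]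

section One

variable {Ω : Type} [MeasurableSpace Ω] {ν : Measure Ω} [IsProbabilityMeasure ν] {n : ℕ}
  {Θ : Ω → ℝ} {A : ℝ}

theorem dom_int {X : Ω → ℝ} {c : ℝ} (hX : Measurable X) (h : ∀ ω, |X ω| ≤ c) : Integrable X ν :=
  Integrable.of_bound hX.aestronglyMeasurable c (.of_forall h)

theorem dom_mgf (hn : 1 ≤ n) (hA : 1 ≤ A) (hG : DomE ν (fun ω => n * Θ ω ^ 2 / A) A)
    (hΘ : ∀ ω, Θ ω ≤ 1) {X : Ω → ℝ} (hX : Measurable X) (h : ∀ ω, |X ω| ≤ Θ ω)
    (h0 : ∫ ω, X ω ∂ν = 0) (t : ℝ) :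
    DomE (Measure.pi fun _ : Fin n => ν) (fun ω => t * ∑ v, X (ω v))
      (Real.exp (3 * A ^ 2 * t ^ 2)) := by
  have hn' : (0 : ℝ) < n := by exact_mod_cast hn
  have hA0 : 0 < A := by linarith
  set D := Real.exp (A * t ^ 2 / 2 / n) with hD
  have hD0 : 0 < D := Real.exp_pos _
  have hD1 : 1 ≤ D := Real.one_le_exp (by positivity)
  have := dom_prod ν hn (W := fun ω => t * X ω) (L := fun ω => t / D * X ω) (c := A * t ^ 2 / 2)
    (K := 2 * A * t ^ 2) (by fun_prop) ((dom_int hX fun ω => (h ω).trans (hΘ ω)).const_mul _)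
    (by rw [integral_const_mul, h0, mul_zero]) hG (by positivity) fun ω => by
      set u := n * Θ ω ^ 2 / A with hu
      have h1 := dom_exp2 (t * X ω)
      have h2 : |t * X ω| ≤ u / 2 + A * t ^ 2 / 2 / n := by
        rw [abs_mul]
        refine (mul_le_mul_of_nonneg_left (h ω) (abs_nonneg t)).trans ?_
        rw [hu, ← sq_abs t, ← sub_nonneg]
        have : n * Θ ω ^ 2 / A / 2 + A * |t| ^ 2 / 2 / n - |t| * Θ ω =
            (n * Θ ω - A * |t|) ^ 2 / (2 * A * n) := by field_simp; ring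
        rw [this]; positivity
      have h3 : (t * X ω) ^ 2 ≤ 2 * A * t ^ 2 / n * Real.exp (u / 2) := by
        have h4 : X ω ^ 2 ≤ Θ ω ^ 2 := by
          rw [← sq_abs]; exact pow_le_pow_left₀ (abs_nonneg _) (h ω) 2
        have h5 : Θ ω ^ 2 = A / n * u := by rw [hu]; field_simp
        calc (t * X ω) ^ 2 = t ^ 2 * X ω ^ 2 := by ring
          _ ≤ t ^ 2 * (A / n * (2 * Real.exp (u / 2))) := by
              rw [h5] at h4
              exact mul_le_mul_of_nonneg_left (h4.trans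
                (mul_le_mul_of_nonneg_left (dom_le_exp u) (by positivity))) (sq_nonneg t)
          _ = _ := by ring
      have h4 : (t * X ω) ^ 2 * Real.exp |t * X ω| ≤
          2 * A * t ^ 2 / n * Real.exp (u / 2) * (Real.exp (u / 2) * D) := by
        rw [hD, ← Real.exp_add]
        exact mul_le_mul h3 (Real.exp_le_exp.2 h2) (Real.exp_pos _).le (by positivity)
      have h5 : D * (1 + t / D * X ω + 2 * A * t ^ 2 / n * Real.exp u) = D + t * X ω +
          2 * A * t ^ 2 / n * Real.exp (u / 2) * (Real.exp (u / 2) * D) := by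
        rw [← dom_half u]; field_simp
      rw [← hD, h5]
      linarith
  simp only [← mul_sum] at this
  refine this.mono (Real.exp_le_exp.2 ?_)
  nlinarith [mul_nonneg (mul_nonneg hA0.le (sub_nonneg.2 hA)) (sq_nonneg t),
    mul_nonneg (sq_nonneg A) (sq_nonneg t)]

theorem dom_first (hn : 1 ≤ n) (hG : DomE ν (fun ω => n * Θ ω ^ 2 / A) A) {W : Ω → ℝ} {K : ℝ}
    (hK : 0 ≤ K) (hW : Measurable W) (h : ∀ ω, |W ω| ≤ n * Θ ω ^ 2 / A / 2 ∧
      |W ω| ≤ K / n * Real.exp (n * Θ ω ^ 2 / A / 2)) :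
    DomE (Measure.pi fun _ : Fin n => ν) (fun ω => ∑ v, W (ω v)) (Real.exp (K * A)) := by
  have := dom_prod ν hn (L := fun _ => 0) (c := 0) hW (integrable_const _) (by simp) hG hK
    fun ω => by
      have h1 := mul_le_mul (h ω).2 (Real.exp_le_exp.2 (h ω).1) (Real.exp_pos _).le (by positivity)
      rw [mul_assoc, dom_half] at h1
      have := dom_exp1 (W ω)
      simp only [zero_div, Real.exp_zero, one_mul, add_zero]
      linarith
  simpa using this

theorem dom_second (hn : 1 ≤ n) (hG : DomE ν (fun ω => n * Θ ω ^ 2 / A) A) {W : Ω → ℝ} {K : ℝ}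
    (hK : 0 ≤ K) (hW : Measurable W) (hi : Integrable W ν) (h0 : ∫ ω, W ω ∂ν = 0)
    (h : ∀ ω, |W ω| ≤ n * Θ ω ^ 2 / A / 2 ∧ W ω ^ 2 ≤ K / n * Real.exp (n * Θ ω ^ 2 / A / 2)) :
    DomE (Measure.pi fun _ : Fin n => ν) (fun ω => ∑ v, W (ω v)) (Real.exp (K * A)) := by
  have := dom_prod ν hn (c := 0) hW hi h0 hG hK fun ω => by
    have h1 := mul_le_mul (h ω).2 (Real.exp_le_exp.2 (h ω).1) (Real.exp_pos _).le (by positivity)
    rw [mul_assoc, dom_half] at h1
    have := dom_exp2 (W ω)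
    simp only [zero_div, Real.exp_zero, one_mul]
    linarith
  simpa using this

end One

theorem dom_ineq {A N r θ : ℝ} (hA : 1 ≤ A) (hr : 2 * A ≤ r) (hN : N = r ^ 2) :
    r * θ ^ 2 ≤ N * θ ^ 2 / A / 2 ∧
      (r * θ ^ 2) ^ 2 ≤ 8 * A ^ 2 / N * Real.exp (N * θ ^ 2 / A / 2) ∧
      θ ^ 2 ≤ 8 * A ^ 2 / N * Real.exp (N * θ ^ 2 / A / 2) ∧
      r * θ ^ 3 ≤ 8 * A ^ 2 / N * Real.exp (N * θ ^ 2 / A / 2) := by
  have hA0 : 0 < A := by linarith
  have hr0 : 0 < r := by linarith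
  have hN0 : 0 < N := by rw [hN]; positivity
  set u := N * θ ^ 2 / A with hu
  have hu0 : 0 ≤ u := by positivity
  have e1 : N * θ ^ 2 = A * u := by rw [hu]; field_simp
  have h2 := dom_le_exp u
  have h3 := dom_sq_le_exp hu0
  have h4 := Real.exp_pos (u / 2)
  generalize Real.exp (u / 2) = E at *
  have h5 : A * u ≤ 2 * A ^ 2 * E := by nlinarith [mul_pos hA0 h4]
  have h6 : (A * u) ^ 2 ≤ 8 * A ^ 2 * E := by nlinarith [sq_nonneg A]
  have h7 : 0 ≤ A ^ 2 * E := by positivity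
  refine ⟨?_, ?_, ?_, ?_⟩
  · rw [hu, div_div, le_div_iff₀ (by positivity), hN]
    nlinarith [mul_nonneg hr0.le (sq_nonneg θ)]
  · rw [div_mul_eq_mul_div, le_div_iff₀ hN0]
    calc (r * θ ^ 2) ^ 2 * N = (N * θ ^ 2) ^ 2 := by rw [hN]; ring
      _ ≤ _ := by rw [e1]; exact h6
  · rw [div_mul_eq_mul_div, le_div_iff₀ hN0]
    nlinarith
  · rw [div_mul_eq_mul_div, le_div_iff₀ hN0]
    have h8 : r * θ ^ 3 * N = (r * θ) ^ 3 := by rw [hN]; ring
    have h9 : A * u = (r * θ) ^ 2 := by rw [← e1, hN]; ring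
    rw [h9] at h5 h6
    rw [h8]
    nlinarith [sq_nonneg ((r * θ) ^ 2 - r * θ)]

theorem dom_three (a b c : ℝ) :
    Real.exp ((a + b + c) / 3) ≤ Real.exp a + Real.exp b + Real.exp c := by
  have ha := Real.exp_pos a
  have hb := Real.exp_pos b
  have hc := Real.exp_pos c
  by_cases h1 : (a + b + c) / 3 ≤ a
  · linarith [Real.exp_le_exp.2 h1]
  by_cases h2 : (a + b + c) / 3 ≤ b
  · linarith [Real.exp_le_exp.2 h2]
  have h3 : (a + b + c) / 3 ≤ c := by linarith
  linarith [Real.exp_le_exp.2 h3]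

theorem dom_abs (x : ℝ) : Real.exp |x| ≤ Real.exp x + Real.exp (-x) := by
  rcases abs_cases x with h | h <;> rw [h.1] <;> linarith [Real.exp_pos x, Real.exp_pos (-x)]

theorem dom_four {p r R Q E : ℝ} (hp : 0 ≤ p) (hr : 0 ≤ r) (h1 : Real.exp p ≤ E)
    (h2 : Real.exp r ≤ E) (hR : 0 ≤ R) (h3 : Real.exp R ≤ E) (hQ : 0 ≤ Q) (h4 : Real.exp Q ≤ E) :
    ((p + 1) * (r + 1) + R + 2 + Q) ^ 2 ≤ 648 * E := by
  have hE : 0 < E := (Real.exp_pos _).trans_le h1
  rw [← Real.le_log_iff_exp_le hE] at h1 h2 h3 h4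
  have h5 := Real.pow_div_factorial_le_exp (Real.log E + 1) (by linarith) 4
  rw [Real.exp_add, Real.exp_log hE] at h5
  have h6 := Real.exp_one_lt_three
  generalize Real.log E = Z at *
  have h7 : (p + 1) * (r + 1) + R + 2 + Q ≤ 3 * (Z + 1) ^ 2 := by nlinarith
  have h8 := pow_le_pow_left₀ (by positivity) h7 2
  simp only [Nat.factorial] at h5
  push_cast at h5
  nlinarith

theorem dom_split {U a : ℝ} (ha : 0 < a) :
    Real.exp U ≤ 1 + a * (((U / a) ^ 2 + Real.exp (2 * |U|)) / 2) := by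
  have h1 := dom_exp1 U
  have h2 : Real.exp (2 * |U|) = Real.exp |U| ^ 2 := by rw [← Real.exp_nat_mul]; norm_num
  have h3 : a * (((U / a) ^ 2 + Real.exp |U| ^ 2) / 2) - |U| * Real.exp |U| =
      (|U| - a * Real.exp |U|) ^ 2 / (2 * a) := by
    rw [div_pow, ← sq_abs U]; field_simp; ring
  have h4 : 0 ≤ (|U| - a * Real.exp |U|) ^ 2 / (2 * a) := by positivity
  rw [h2]
  linarith

theorem dom_young {α a b c d : ℝ} (hα : 0 < α) :
    (a + b) * (c + d) ≤ α * (a ^ 2 + b ^ 2) + (c ^ 2 + d ^ 2) / α := by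
  have : α * (a ^ 2 + b ^ 2) + (c ^ 2 + d ^ 2) / α - (a + b) * (c + d) =
      ((α * (a + b) - (c + d)) ^ 2 + (α * (a - b)) ^ 2 + (c - d) ^ 2) / (2 * α) := by
    field_simp; ring
  have h : 0 ≤ ((α * (a + b) - (c + d)) ^ 2 + (α * (a - b)) ^ 2 + (c - d) ^ 2) / (2 * α) := by
    positivity
  linarith

/-- The pointwise bound. -/
theorem dom_point {n : ℕ} (hn : 1 ≤ n) {m α θ0 η μ μ' lam κ : ℝ} (hm : 1 ≤ m) (hl : 0 < lam)
    (hα : 0 < α) (hα1 : α ≤ 1) (hα2 : 6 * m * α ≤ κ) (hκ : κ ≤ 1 / 2) (hα3 : 4 * m * α ≤ lam)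
    (hθ : 8 * m * θ0 ^ 2 ≤ 1) (hθ1 : θ0 ≤ 1) (x y th : Fin n → ℝ)
    (h : ∀ v, th v ≤ θ0 ∧ |x v| ≤ th v ∧ |y v| ≤ α * th v ∧ |y v| ≤ η * √n * th v ^ 2)
    (hη : 0 < η) (hμ : 0 ≤ μ) (hμ1 : μ ≤ θ0 * n) (hμ' : 0 ≤ μ') (hμ1' : μ' ≤ θ0 * n) :
    0 ≤ ∏ e : Pr2 n, (1 + m * ((x e.1.1 + μ / n) * (y e.1.2 + μ' / n) +
      (y e.1.1 + μ' / n) * (x e.1.2 + μ / n))) ∧
    ∏ e : Pr2 n, (1 + m * ((x e.1.1 + μ / n) * (y e.1.2 + μ' / n) +
      (y e.1.1 + μ' / n) * (x e.1.2 + μ / n))) ≤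
      1 + (η + μ') * Real.exp (lam * μ ^ 2 + 4 * m / α * μ' ^ 2) *
        (648 * m ^ 2 * (1 + 1 / lam) * (Real.exp (1 * ∑ v, x v) + Real.exp (-1 * ∑ v, x v) +
          Real.exp (∑ v, y v / η) + Real.exp (∑ v, -(y v / η)) + Real.exp (∑ v, √n * th v ^ 3) +
          Real.exp (∑ v, th v ^ 2)) + (Real.exp (κ * (∑ v, x v) ^ 2) +
          Real.exp (κ * (∑ v, y v / α) ^ 2) + Real.exp (∑ v, th v ^ 2))) := by
  have hn1 : (1 : ℝ) ≤ n := by exact_mod_cast hn
  have hn' : (0 : ℝ) < n := by linarith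
  have hs1 : 1 ≤ √n := Real.one_le_sqrt.2 hn1
  have hs2 : √n / n ≤ 1 := by
    rw [div_le_one hn']
    nlinarith [Real.mul_self_sqrt hn'.le]
  have t0 : ∀ v, 0 ≤ th v := fun v => (abs_nonneg _).trans (h v).2.1
  have m1 : μ / n ≤ θ0 := by rwa [div_le_iff₀ hn']
  have m2 : μ' / n ≤ θ0 := by rwa [div_le_iff₀ hn']
  have m3 : 0 ≤ μ / n := by positivity
  have m4 : 0 ≤ μ' / n := by positivity
  have hx : ∀ v, |x v + μ / n| ≤ th v + μ / n := fun v =>
    (abs_add_le _ _).trans (by rw [abs_of_nonneg m3]; linarith [(h v).2.1])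
  have hy : ∀ v, |y v + μ' / n| ≤ |y v| + μ' / n := fun v =>
    (abs_add_le _ _).trans (by rw [abs_of_nonneg m4])
  have hxy : ∀ v w, |(x v + μ / n) * (y w + μ' / n)| ≤ 4 * θ0 ^ 2 := fun v w => by
    have h1 : |x v + μ / n| ≤ 2 * θ0 := by linarith [hx v, (h v).1]
    have h2 : |y w + μ' / n| ≤ 2 * θ0 := by
      have := mul_le_mul_of_nonneg_right hα1 (t0 w)
      linarith [hy w, (h w).1, (h w).2.2.1]
    rw [abs_mul]
    nlinarith [mul_le_mul h1 h2 (abs_nonneg _) ((abs_nonneg _).trans h1)]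
  have f0 : ∀ e : Pr2 n, 0 ≤ 1 + m * ((x e.1.1 + μ / n) * (y e.1.2 + μ' / n) +
      (y e.1.1 + μ' / n) * (x e.1.2 + μ / n)) := fun e => by
    have h1 := (abs_le.1 (hxy e.1.1 e.1.2)).1
    have h2 := (abs_le.1 (hxy e.1.2 e.1.1)).1
    nlinarith
  refine ⟨prod_nonneg fun e _ => f0 e, ?_⟩
  set U := m * ((∑ v, x v + μ) * (∑ v, y v + μ') - ∑ v, (x v + μ / n) * (y v + μ' / n)) with hU
  have e1 : ∀ (z : Fin n → ℝ) (c : ℝ), ∑ v, (z v + c / n) = ∑ v, z v + c := fun z c => by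
    rw [sum_add_distrib, sum_const, card_univ, Fintype.card_fin, nsmul_eq_mul,
      mul_div_cancel₀ _ hn'.ne']
  have h1 : ∏ e : Pr2 n, (1 + m * ((x e.1.1 + μ / n) * (y e.1.2 + μ' / n) +
      (y e.1.1 + μ' / n) * (x e.1.2 + μ / n))) ≤ Real.exp U := by
    rw [hU, ← e1, ← e1, ← sum_pairs_mul (fun v => x v + μ / n) (fun v => y v + μ' / n), mul_sum,
      Real.exp_sum]
    exact prod_le_prod (fun e _ => f0 e) fun e _ => by
      rw [add_comm]; exact Real.add_one_le_exp _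
  have ha : 0 < η + μ' := by linarith
  refine (h1.trans (dom_split ha)).trans ?_
  set SX := ∑ v, x v with hSX
  set Q := ∑ v, th v ^ 2 with hQ
  set R := ∑ v, √n * th v ^ 3 with hR
  have hQ0 : 0 ≤ Q := sum_nonneg fun v _ => sq_nonneg _
  have hR0 : 0 ≤ R := sum_nonneg fun v _ => by have := t0 v; positivity
  have hU1 : |U| ≤ m * ((|SX| + μ) * (|∑ v, y v| + μ') +
      ∑ v, (th v + μ / n) * (|y v| + μ' / n)) := by
    rw [hU, abs_mul, abs_of_nonneg (by linarith : 0 ≤ m)]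
    refine mul_le_mul_of_nonneg_left ((abs_sub _ _).trans (add_le_add ?_ ?_)) (by linarith)
    · rw [abs_mul]
      exact mul_le_mul ((abs_add_le _ _).trans (by rw [abs_of_nonneg hμ]))
        ((abs_add_le _ _).trans (by rw [abs_of_nonneg hμ'])) (abs_nonneg _) (by positivity)
    · refine (abs_sum_le_sum_abs _ _).trans (sum_le_sum fun v _ => ?_)
      rw [abs_mul]
      exact mul_le_mul (hx v) (hy v) (abs_nonneg _) (by have := t0 v; positivity)
  rw [← sum_div, ← sum_div, sum_neg_distrib, ← sum_div]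
  set SY := ∑ v, y v with hSY
  have hU2 : 2 * |U| ≤ (lam * μ ^ 2 + 4 * m / α * μ' ^ 2) +
      (κ * SX ^ 2 + κ * (SY / α) ^ 2 + Q) / 3 := by
    have h2 : (|SX| + μ) * (|SY| + μ') ≤ α * (SX ^ 2 + μ ^ 2) + α * (SY / α) ^ 2 + μ' ^ 2 / α := by
      refine (dom_young hα).trans (le_of_eq ?_)
      rw [sq_abs, sq_abs]; field_simp; ring
    have h3 : ∑ v, (th v + μ / n) * (|y v| + μ' / n) ≤ 2 * α * Q + α * μ ^ 2 + μ' ^ 2 / α := by
      have h4 : ∀ v, (th v + μ / n) * (|y v| + μ' / n) ≤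
          2 * α * th v ^ 2 + (α * μ ^ 2 + μ' ^ 2 / α) / n := fun v => by
        have h5 : (th v + μ / n) * (|y v| + μ' / n) ≤ (th v + μ / n) * (α * th v + μ' / n) :=
          mul_le_mul_of_nonneg_left (by linarith [(h v).2.2.1]) (by linarith [t0 v])
        refine h5.trans ((dom_young hα).trans ?_)
        have h6 : α * (th v ^ 2 + (μ / n) ^ 2) + ((α * th v) ^ 2 + (μ' / n) ^ 2) / α =
            2 * α * th v ^ 2 + (α * μ ^ 2 + μ' ^ 2 / α) / n / n := by field_simp; ring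
        rw [h6]
        have := div_le_self (show 0 ≤ (α * μ ^ 2 + μ' ^ 2 / α) / n by positivity) hn1
        linarith
      refine (sum_le_sum fun v _ => h4 v).trans (le_of_eq ?_)
      rw [e1, ← mul_sum, add_assoc]
    have h4 := hU1.trans (mul_le_mul_of_nonneg_left (add_le_add h2 h3) (by linarith))
    have h5 := mul_le_mul_of_nonneg_right hα2 (sq_nonneg SX)
    have h6 := mul_le_mul_of_nonneg_right hα2 (sq_nonneg (SY / α))
    have h7 := mul_le_mul_of_nonneg_right (hα2.trans hκ) hQ0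
    have h8 := mul_le_mul_of_nonneg_right hα3 (sq_nonneg μ)
    have h9 : 4 * m / α * μ' ^ 2 = 4 * m * (μ' ^ 2 / α) := by ring
    rw [h9]
    nlinarith
  have hU3 : |U| ≤ (η + μ') * (m * (1 + μ) * ((|SX| + 1) * (|SY / η| + 1) + R + 2 + Q)) := by
    have h2 : |SY| + μ' ≤ (η + μ') * (|SY / η| + 1) := by
      have : |SY| = η * |SY / η| := by rw [abs_div, abs_of_pos hη]; field_simp
      rw [this]
      nlinarith [abs_nonneg (SY / η)]
    have h3 : |SX| + μ ≤ (1 + μ) * (|SX| + 1) := by nlinarith [abs_nonneg SX]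
    have h4 : ∀ v, (th v + μ / n) * (|y v| + μ' / n) ≤
        (η + μ') * (1 + μ) * (√n * th v ^ 3 + th v ^ 2 + 2 / n) := fun v => by
      have h5 : |y v| + μ' / n ≤ (η + μ') * (√n * th v ^ 2 + 1 / n) := by
        have h6 : 0 ≤ μ' * (√n * th v ^ 2) := by positivity
        have h7 : 0 ≤ η * (1 / n) := by positivity
        have h8 : μ' / n = μ' * (1 / n) := by ring
        nlinarith [(h v).2.2.2]
      have h6 : th v + μ / n ≤ (1 + μ) * (th v + 1 / n) := by
        have h7 : 0 ≤ μ * th v := mul_nonneg hμ (t0 v)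
        have h8 : μ / n = μ * (1 / n) := by ring
        have h9 : (0 : ℝ) ≤ 1 / n := by positivity
        nlinarith
      have h7 : (th v + 1 / n) * (√n * th v ^ 2 + 1 / n) ≤ √n * th v ^ 3 + th v ^ 2 + 2 / n := by
        have h8 : (th v + 1 / n) * (√n * th v ^ 2 + 1 / n) =
            √n * th v ^ 3 + √n / n * th v ^ 2 + (th v + 1 / n) / n := by ring
        have h9 : (th v + 1 / n) / n ≤ 2 / n := by
          have : (1 : ℝ) / n ≤ 1 := by rwa [div_le_one hn']
          exact div_le_div_of_nonneg_right (by linarith [(h v).1]) hn'.le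
        nlinarith [sq_nonneg (th v)]
      calc _ ≤ ((1 + μ) * (th v + 1 / n)) * ((η + μ') * (√n * th v ^ 2 + 1 / n)) :=
            mul_le_mul h6 h5 (by positivity) (by have := t0 v; positivity)
        _ = (η + μ') * (1 + μ) * ((th v + 1 / n) * (√n * th v ^ 2 + 1 / n)) := by ring
        _ ≤ _ := mul_le_mul_of_nonneg_left h7 (by positivity)
    have h5 := sum_le_sum fun v (_ : v ∈ univ) => h4 v
    rw [← mul_sum, e1, sum_add_distrib] at h5
    refine hU1.trans ((mul_le_mul_of_nonneg_left (add_le_add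
      (mul_le_mul h3 h2 (by positivity) (by positivity)) h5) (by linarith)).trans (le_of_eq ?_))
    ring
  set E1 := Real.exp (1 * SX) + Real.exp (-1 * SX) + Real.exp (SY / η) + Real.exp (-(SY / η)) +
    Real.exp R + Real.exp Q with hE1
  have p1 := Real.exp_pos (1 * SX)
  have p2 := Real.exp_pos (-1 * SX)
  have p3 := Real.exp_pos (SY / η)
  have p4 := Real.exp_pos (-(SY / η))
  have p5 := Real.exp_pos R
  have p6 := Real.exp_pos Q
  have h2 := dom_four (E := E1) (abs_nonneg SX) (abs_nonneg (SY / η))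
    (by have := dom_abs SX; rw [one_mul, neg_one_mul] at hE1; linarith)
    (by have := dom_abs (SY / η); linarith) hR0 (by linarith) hQ0 (by linarith)
  set D := Real.exp (lam * μ ^ 2 + 4 * m / α * μ' ^ 2) with hD
  have h3 : (1 + μ) ^ 2 ≤ 2 * (1 + 1 / lam) * D := by
    have h4 : lam * μ ^ 2 + 1 ≤ D := (Real.add_one_le_exp _).trans
      (Real.exp_le_exp.2 (le_add_of_nonneg_right (by positivity)))
    have h5 : μ ^ 2 ≤ 1 / lam * D := by
      rw [one_div, ← div_eq_inv_mul, le_div_iff₀ hl]; linarith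
    have h6 : 0 ≤ lam * μ ^ 2 := by positivity
    nlinarith [sq_nonneg (1 - μ)]
  have h4 : (U / (η + μ')) ^ 2 ≤ m ^ 2 * (2 * (1 + 1 / lam) * D) * (648 * E1) := by
    rw [← sq_abs, abs_div, abs_of_pos ha]
    refine (pow_le_pow_left₀ (by positivity) ((div_le_iff₀' ha).2 hU3) 2).trans ?_
    rw [mul_pow, mul_pow]
    exact mul_le_mul (mul_le_mul_of_nonneg_left h3 (sq_nonneg m)) h2 (sq_nonneg _) (by positivity)
  have h5 : Real.exp (2 * |U|) ≤ D * (Real.exp (κ * SX ^ 2) + Real.exp (κ * (SY / α) ^ 2) +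
      Real.exp Q) := by
    refine (Real.exp_le_exp.2 hU2).trans ?_
    rw [Real.exp_add]
    exact mul_le_mul_of_nonneg_left (dom_three _ _ _) (Real.exp_pos _).le
  rw [mul_assoc]
  refine add_le_add_right (mul_le_mul_of_nonneg_left ?_ ha.le) _
  have h6 := Real.exp_pos (2 * |U|)
  linarith

theorem dom_bound (A m lam : ℝ) (hA : 1 ≤ A) (hm : 1 ≤ m) (hl : 0 < lam) :
    ∃ c0 θ0 C : ℝ, 0 < c0 ∧ 0 < θ0 ∧ 1 ≤ C ∧ ∀ (Ω : Type) [MeasurableSpace Ω] (ν : Measure Ω)
      [IsProbabilityMeasure ν] (n : ℕ) (X Y Θ : Ω → ℝ) (η μ μ' : ℝ), 1 ≤ n → 1 / √n ≤ θ0 →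
      Measurable X → Measurable Y → Measurable Θ →
      (∀ ω, Θ ω ≤ θ0 ∧ |X ω| ≤ Θ ω ∧ |Y ω| ≤ c0 * Θ ω ∧ |Y ω| ≤ η * √n * Θ ω ^ 2) →
      ∫ ω, X ω ∂ν = 0 → ∫ ω, Y ω ∂ν = 0 → ∫ ω, Real.exp (n * Θ ω ^ 2 / A) ∂ν ≤ A →
      0 < η → η ≤ 1 → 0 ≤ μ → μ ≤ θ0 * n → 0 ≤ μ' → μ' ≤ θ0 * n →
      ∫ ω : Fin n → Ω, ∏ e : Pr2 n, (1 + m * ((X (ω e.1.1) + μ / n) * (Y (ω e.1.2) + μ' / n) +
          (Y (ω e.1.1) + μ' / n) * (X (ω e.1.2) + μ / n))) ∂(Measure.pi fun _ => ν) ≤
        1 + C * (η + μ') * Real.exp (lam * μ ^ 2 + C * μ' ^ 2) := by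
  have hA0 : 0 < A := by linarith
  have hm0 : 0 < m := by linarith
  have hA2 : 1 ≤ A ^ 2 := one_le_pow₀ hA
  set κ := 1 / (8 * (3 * A ^ 2)) with hκ
  have hκ0 : 0 < κ := by positivity
  have hκ1 : κ ≤ 1 / 2 := one_div_le_one_div_of_le (by norm_num) (by linarith)
  set α := min (κ / (6 * m)) (lam / (4 * m)) with hα
  have hα0 : 0 < α := lt_min (by positivity) (by positivity)
  have hα2 : 6 * m * α ≤ κ := (le_div_iff₀' (by positivity)).1 (min_le_left _ _)
  have hα3 : 4 * m * α ≤ lam := (le_div_iff₀' (by positivity)).1 (min_le_right _ _)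
  have hα1 : α ≤ 1 := by nlinarith
  set θ0 := 1 / (4 * A * m) with hθ0
  have hθ : 0 < θ0 := by positivity
  have hθe : θ0 * (4 * A * m) = 1 := by rw [hθ0]; field_simp
  have hAm : 1 ≤ A * m := one_le_mul_of_one_le_of_one_le hA hm
  have hθ1 : θ0 ≤ 1 / 4 := one_div_le_one_div_of_le (by norm_num) (by linarith)
  have hθ2 : 8 * m * θ0 ^ 2 ≤ 1 := by
    have : m * θ0 ≤ 1 / 4 := by nlinarith [mul_pos hm0 hθ]
    nlinarith
  set K := Real.exp (8 * A ^ 2 * A) with hK
  have hK1 : 1 ≤ K := Real.one_le_exp (by positivity)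
  set c := 648 * m ^ 2 * (1 + 1 / lam) with hc
  have hc0 : 0 < c := by positivity
  have hq : 0 < 4 * m / α := by positivity
  have hcK : 0 < c * (6 * K) := by positivity
  refine ⟨α, θ0, 4 * m / α + (c * (6 * K) + (4 + K)), hα0, hθ, by linarith, ?_⟩
  intro Ω _ ν _ n X Y Θ η μ μ' hn hn2 hX hY hΘ h hX0 hY0 hE hη _ hμ hμ1 hμ' hμ1'
  have hn' : (0 : ℝ) < n := by exact_mod_cast hn
  have hs0 : 0 < √n := Real.sqrt_pos.2 hn'
  have hs : 2 * A ≤ √n := by
    rw [hθ0, one_div_le_one_div hs0 (by positivity)] at hn2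
    nlinarith
  have t0 : ∀ ω, 0 ≤ Θ ω := fun ω => (abs_nonneg _).trans (h ω).2.1
  have t1 : ∀ ω, Θ ω ≤ 1 := fun ω => by linarith [(h ω).1]
  have hG : DomE ν (fun ω => n * Θ ω ^ 2 / A) A :=
    ⟨dom_int (c := Real.exp (n * 1 ^ 2 / A)) (by fun_prop) fun ω => by
      rw [Real.abs_exp]
      have := t0 ω
      have := t1 ω
      beta_reduce
      gcongr, hE⟩
  have q := fun ω => dom_ineq (θ := Θ ω) hA hs (Real.sq_sqrt hn'.le).symm
  have gX := dom_mgf hn hA hG t1 hX (fun ω => (h ω).2.1) hX0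
  have gY := dom_mgf hn hA hG t1 (X := fun ω => Y ω / α) (by fun_prop) (fun ω => by
    rw [abs_div, abs_of_pos hα0, div_le_iff₀' hα0]; exact (h ω).2.2.1)
    (by rw [integral_div, hY0, zero_div])
  have y1 : ∀ ω, |Y ω / η| ≤ √n * Θ ω ^ 2 := fun ω => by
    rw [abs_div, abs_of_pos hη, div_le_iff₀' hη, ← mul_assoc]; exact (h ω).2.2.2
  have y2 : ∀ ω, |Y ω / η| ≤ n * Θ ω ^ 2 / A / 2 ∧
      (Y ω / η) ^ 2 ≤ 8 * A ^ 2 / n * Real.exp (n * Θ ω ^ 2 / A / 2) := fun ω =>
    ⟨(y1 ω).trans (q ω).1, by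
      rw [← sq_abs]; exact (pow_le_pow_left₀ (abs_nonneg _) (y1 ω) 2).trans (q ω).2.1⟩
  have yi : Integrable (fun ω => Y ω / η) ν :=
    (dom_int hY fun ω => (h ω).2.2.1.trans (mul_le_mul_of_nonneg_left (t1 ω) hα0.le)).div_const _
  have y0 : ∫ ω, Y ω / η ∂ν = 0 := by rw [integral_div, hY0, zero_div]
  have k1 : ∀ t : ℝ, t ^ 2 = 1 → Real.exp (3 * A ^ 2 * t ^ 2) ≤ K := fun t ht =>
    Real.exp_le_exp.2 (by rw [ht]; nlinarith)
  have g1 := (gX 1).mono (k1 1 (by norm_num))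
  have g2 := (gX (-1)).mono (k1 (-1) (by norm_num))
  have g3 := dom_second hn hG (W := fun ω => Y ω / η) (K := 8 * A ^ 2) (by positivity)
    (by fun_prop) yi y0 y2
  have g4 := dom_second hn hG (W := fun ω => -(Y ω / η)) (K := 8 * A ^ 2) (by positivity)
    (by fun_prop) yi.neg (by rw [integral_neg, y0, neg_zero])
    fun ω => by rw [abs_neg, neg_sq]; exact y2 ω
  have g5 := dom_first hn hG (W := fun ω => √n * Θ ω ^ 3) (K := 8 * A ^ 2) (by positivity)
    (by fun_prop) fun ω => by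
      have := t0 ω
      rw [abs_of_nonneg (by positivity)]
      exact ⟨le_trans (mul_le_mul_of_nonneg_left (pow_le_pow_of_le_one this (t1 ω) (by norm_num))
        hs0.le) (q ω).1, (q ω).2.2.2⟩
  have g6 := dom_first hn hG (W := fun ω => Θ ω ^ 2) (K := 8 * A ^ 2) (by positivity)
    (by fun_prop) fun ω => by
      rw [abs_of_nonneg (sq_nonneg _)]
      exact ⟨le_trans (le_mul_of_one_le_left (sq_nonneg _) (by linarith)) (q ω).1, (q ω).2.2.1⟩
  have g7 := dom_gauss _ (by positivity) (by fun_prop) gX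
  have g8 := dom_gauss _ (by positivity) (by fun_prop) gY
  have eκ : ∀ z : ℝ, z / (8 * (3 * A ^ 2)) = κ * z := fun z => by rw [hκ]; ring
  simp only [eκ] at g7 g8
  have pt := fun ω : Fin n → Ω => dom_point hn hm hl hα0 hα1 hα2 hκ1 hα3 hθ2 (by linarith)
    (fun v => X (ω v)) (fun v => Y (ω v)) (fun v => Θ (ω v)) (fun v => h (ω v)) hη hμ hμ1 hμ' hμ1'
  have i2 := g1.1.add g2.1
  have i3 := i2.add g3.1
  have i4 := i3.add g4.1
  have i5 := i4.add g5.1
  have i6 := i5.add g6.1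
  have j2 := g7.1.add g8.1
  have j3 := j2.add g6.1
  have i7 := (i6.const_mul c).add j3
  have i8 := i7.const_mul ((η + μ') * Real.exp (lam * μ ^ 2 + 4 * m / α * μ' ^ 2))
  refine (integral_mono_of_nonneg (.of_forall fun ω => (pt ω).1) ((integrable_const 1).add i8)
    (.of_forall fun ω => (pt ω).2)).trans ?_
  rw [integral_add' (integrable_const 1) i8, integral_const_mul, integral_add' (i6.const_mul c) j3,
    integral_const_mul, integral_add' i5 g6.1, integral_add' i4 g5.1, integral_add' i3 g4.1,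
    integral_add' i2 g3.1, integral_add' g1.1 g2.1, integral_add' j2 g6.1, integral_add' g7.1 g8.1]
  simp only [integral_const, probReal_univ, smul_eq_mul, mul_one]
  have ha : 0 < η + μ' := by linarith
  refine add_le_add_right ?_ _
  calc _ ≤ (η + μ') * Real.exp (lam * μ ^ 2 + (4 * m / α + (c * (6 * K) + (4 + K))) * μ' ^ 2) *
        (4 * m / α + (c * (6 * K) + (4 + K))) := by
        refine mul_le_mul (mul_le_mul_of_nonneg_left (Real.exp_le_exp.2 ?_) ha.le) ?_ ?_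
          (by positivity)
        · nlinarith [sq_nonneg μ']
        · have := mul_le_mul_of_nonneg_left (add_le_add (add_le_add (add_le_add (add_le_add
            (add_le_add g1.2 g2.2) g3.2) g4.2) g5.2) g6.2) hc0.le
          have h7 := g7.2
          have h8 := g8.2
          have h6 := g6.2
          linarith
        · positivity
    _ = _ := by ring

end Pool.Agent.Lib.MP_d20c4f_pr.H53
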