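import Pool.Agent.Lib.MP_d20c4f_pr.H53Dom

/-!
Expansion of a product over pairs against a complex product density.
-/

namespace Pool.Agent.Lib.MP_d20c4f_pr.H53

open MeasureTheory Complex Finset

section Bounded

/-- Bounded measurable functions with values in a normed ring. -/
def ExpB {Ω R : Type} [MeasurableSpace Ω] [NormedCommRing R] [MeasurableSpace R] (F : Ω → R) :
    Prop := Measurable F ∧ ∃ C : ℝ, ∀ ω, ‖F ω‖ ≤ C

variable {Ω R : Type} [MeasurableSpace Ω] [NormedCommRing R] [MeasurableSpace R]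

theorem ExpB.const (a : R) : ExpB fun _ : Ω => a := ⟨measurable_const, ‖a‖, fun _ => le_rfl⟩

theorem ExpB.comp {Ω' : Type} [MeasurableSpace Ω'] {F : Ω → R} (hF : ExpB F) {g : Ω' → Ω}
    (hg : Measurable g) : ExpB fun x => F (g x) := by
  obtain ⟨h1, C, h2⟩ := hF
  exact ⟨h1.comp hg, C, fun x => h2 _⟩

variable [BorelSpace R] [SecondCountableTopology R]

theorem ExpB.mul {F G : Ω → R} (hF : ExpB F) (hG : ExpB G) : ExpB fun ω => F ω * G ω := by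
  obtain ⟨h1, C, h2⟩ := hF
  obtain ⟨h3, C', h4⟩ := hG
  exact ⟨h1.mul h3, C * C', fun ω => (norm_mul_le _ _).trans
    (mul_le_mul (h2 ω) (h4 ω) (norm_nonneg _) ((norm_nonneg _).trans (h2 ω)))⟩

theorem ExpB.add {F G : Ω → R} (hF : ExpB F) (hG : ExpB G) : ExpB fun ω => F ω + G ω := by
  obtain ⟨h1, C, h2⟩ := hF
  obtain ⟨h3, C', h4⟩ := hG
  exact ⟨h1.add h3, C + C', fun ω => (norm_add_le _ _).trans (add_le_add (h2 ω) (h4 ω))⟩

theorem ExpB.prod {α : Type} (s : Finset α) {F : α → Ω → R} (hF : ∀ a ∈ s, ExpB (F a)) :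
    ExpB fun ω => ∏ a ∈ s, F a ω := by
  classical
  induction s using Finset.induction_on with
  | empty => simpa using ExpB.const (1 : R)
  | insert a s ha ih =>
    simp only [prod_insert ha]
    exact (hF a (mem_insert_self _ _)).mul (ih fun b hb => hF b (mem_insert_of_mem hb))

omit [SecondCountableTopology R] in
theorem ExpB.norm {F : Ω → R} (hF : ExpB F) : ExpB fun ω => ‖F ω‖ := by
  obtain ⟨h1, C, h2⟩ := hF
  exact ⟨h1.norm, C, fun ω => by simpa using h2 ω⟩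

theorem ExpB.integrable {F : Ω → R} (hF : ExpB F) (ν : Measure Ω) [IsFiniteMeasure ν] :
    Integrable F ν := by
  obtain ⟨h1, C, h2⟩ := hF
  exact Integrable.of_bound h1.aestronglyMeasurable C (.of_forall h2)

end Bounded

theorem exp_factor {Ω V : Type} [MeasurableSpace Ω] (ν : Measure Ω) [IsProbabilityMeasure ν]
    [Fintype V] (p : V → Prop) [DecidablePred p] (g : V → Ω → ℂ) (F : (V → Ω) → ℂ)
    (b : V → Ω → ℝ) (hb : ∀ v, Integrable (b v) ν)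
    (hF : ∀ ω ω' : V → Ω, (∀ v, ¬p v → ω v = ω' v) → F ω = F ω')
    (hFb : ∀ ω, ‖F ω‖ ≤ ∏ v : {v // ¬p v}, b v (ω v)) :
    ‖∫ ω : V → Ω, (∏ v : {v // p v}, g v (ω v)) * F ω ∂(Measure.pi fun _ => ν)‖ ≤
      ∏ v, if p v then ‖∫ ω, g v ω ∂ν‖ else ∫ ω, b v ω ∂ν := by
  obtain ⟨x0⟩ := nonempty_of_isProbabilityMeasure ν
  have hp := measurePreserving_piEquivPiSubtypeProd (fun _ : V => ν) p
  let H : ({v // ¬p v} → Ω) → ℂ := fun y => F fun v => if h : p v then x0 else y ⟨v, h⟩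
  have h1 := hp.integral_comp' fun z => (∏ v : {v // p v}, g v (z.1 v)) * H z.2
  have h2 : ∀ ω : V → Ω, F ω = H fun v => ω v := fun ω => hF _ _ fun v hv => by simp [hv]
  have h3 : ∫ ω : V → Ω, (∏ v : {v // p v}, g v (ω v)) * F ω ∂(Measure.pi fun _ => ν) =
      (∏ v : {v // p v}, ∫ ω, g v ω ∂ν) *
        ∫ y : {v // ¬p v} → Ω, H y ∂(Measure.pi fun _ => ν) := by
    rw [← integral_fintype_prod_eq_prod fun v : {v // p v} => g v,
      ← integral_prod_mul (fun x : {v // p v} → Ω => ∏ v : {v // p v}, g v (x v)) H, ← h1]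
    simp only [h2]
    rfl
  have h4 : ‖∫ y : {v // ¬p v} → Ω, H y ∂(Measure.pi fun _ => ν)‖ ≤
      ∏ v : {v // ¬p v}, ∫ ω, b v ω ∂ν := by
    rw [← integral_fintype_prod_eq_prod fun v : {v // ¬p v} => b v]
    refine norm_integral_le_of_norm_le (Integrable.fintype_prod fun v => hb v)
      (.of_forall fun y => (hFb _).trans (le_of_eq (prod_congr rfl fun v _ => ?_)))
    simp [v.2]
  rw [h3, norm_mul, norm_prod, ← Fintype.prod_subtype_mul_prod_subtype p]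
  refine mul_le_mul (le_of_eq (prod_congr rfl fun v _ => ?_)) (h4.trans (le_of_eq
    (prod_congr rfl fun v _ => ?_))) (norm_nonneg _) (prod_nonneg fun v _ => ?_)
  · rw [if_pos v.2]
  · rw [if_neg v.2]
  · rw [if_pos v.2]
    exact norm_nonneg _

theorem exp_meas {Ω : Type} [MeasurableSpace Ω] (ν : Measure Ω) [IsProbabilityMeasure ν]
    {d : Ω → ℝ} (hd : ExpB d) (h0 : ∀ ω, 0 ≤ d ω) (h1 : ∫ ω, d ω ∂ν = 1) :
    ∃ ν' : Measure (Ω × Bool), IsProbabilityMeasure ν' ∧ ∀ f : Ω × Bool → ℝ, ExpB f →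
      ∫ x, f x ∂ν' = ∫ ω, d ω * ((f (ω, true) + 2 * f (ω, false)) / 3) ∂ν := by
  let w : Ω × Bool → ℝ := fun x => d x.1 * if x.2 then 1 / 3 else 2 / 3
  have hw : ExpB w := by
    refine (hd.comp measurable_fst).mul (ExpB.comp (F := fun b : Bool => if b then (1 / 3 : ℝ)
      else 2 / 3) ⟨measurable_from_top, 1, fun b => ?_⟩ measurable_snd)
    cases b <;> norm_num
  have hw0 : ∀ x, 0 ≤ w x := fun x => mul_nonneg (h0 _) (by split_ifs <;> norm_num)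
  have key : ∀ f : Ω × Bool → ℝ, ExpB f →
      ∫ x, f x ∂((ν.prod Measure.count).withDensity fun x => ENNReal.ofReal (w x)) =
        ∫ ω, d ω * ((f (ω, true) + 2 * f (ω, false)) / 3) ∂ν := by
    intro f hf
    rw [integral_withDensity_eq_integral_toReal_smul hw.1.ennreal_ofReal
      (.of_forall fun x => ENNReal.ofReal_lt_top)]
    simp only [ENNReal.toReal_ofReal (hw0 _), smul_eq_mul]
    rw [integral_prod _ ((hw.mul hf).integrable _)]
    refine integral_congr_ae (.of_forall fun ω => ?_)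
    simp only [integral_count, Fintype.sum_bool, w, if_true, Bool.false_eq_true, if_false]
    ring
  refine ⟨_, isProbabilityMeasure_iff_real.2 ?_, key⟩
  have := key (fun _ => 1) (ExpB.const _)
  norm_num at this
  rw [this, h1]

theorem exp_alg {α : Type} (s : Finset α) (hs : 2 ≤ s.card) (y m : α → ℝ) (hy : ∀ a ∈ s, 0 ≤ y a)
    (hm : ∀ a ∈ s, 0 ≤ m a) :
    ∏ a ∈ s, y a ≤ (∏ a ∈ s, (y a * 2 + m a) + 2 * ∏ a ∈ s, (y a * (-1) + m a)) / 3 := by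
  classical
  have hk : ∀ k : ℕ, (0 : ℝ) ≤ 2 ^ k + 2 * (-1) ^ k := by
    intro k
    rcases k with _ | k
    · norm_num
    · have h1 : (1 : ℝ) ≤ 2 ^ k := one_le_pow₀ one_le_two
      rcases neg_one_pow_eq_or ℝ (k + 1) with h | h <;> rw [h, pow_succ] <;> linarith
  have hk2 : (3 : ℝ) ≤ 2 ^ s.card + 2 * (-1) ^ s.card := by
    obtain ⟨k, hk'⟩ := Nat.exists_eq_add_of_le' hs
    rw [hk']
    rcases k with _ | k
    · norm_num
    · have h1 : (1 : ℝ) ≤ 2 ^ k := one_le_pow₀ one_le_two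
      rcases neg_one_pow_eq_or ℝ (k + 1 + 2) with h | h <;> rw [h, pow_succ, pow_succ, pow_succ] <;>
        linarith
  rw [prod_add, prod_add, mul_sum, ← sum_add_distrib, le_div_iff₀ (by norm_num)]
  have h : ∀ t : Finset α, (∏ i ∈ t, y i * 2) * ∏ i ∈ s \ t, m i +
      2 * ((∏ i ∈ t, y i * (-1)) * ∏ i ∈ s \ t, m i) =
      ((∏ i ∈ t, y i) * ∏ i ∈ s \ t, m i) * (2 ^ t.card + 2 * (-1) ^ t.card) := by
    intro t
    rw [prod_mul_distrib, prod_mul_distrib, prod_const, prod_const]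
    ring
  simp only [h]
  refine le_trans ?_ (single_le_sum (fun t ht => mul_nonneg (mul_nonneg
    (prod_nonneg fun a ha => hy a (mem_powerset.1 ht ha))
    (prod_nonneg fun a ha => hm a (mem_sdiff.1 ha).1)) (hk _)) (mem_powerset_self s))
  rw [sdiff_self, bot_eq_empty, prod_empty, mul_one]
  exact mul_le_mul_of_nonneg_left hk2 (prod_nonneg hy)

/-- Value of an end: trivial, big or small. -/
def expW {R : Type} [One R] (P Q : R) : Option Bool → R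
  | none => 1
  | some true => P
  | some false => Q

theorem expW_bd {Ω R : Type} [MeasurableSpace Ω] [NormedCommRing R] [MeasurableSpace R]
    {P Q : Ω → R} (hP : ExpB P) (hQ : ExpB Q) (o : Option Bool) :
    ExpB fun ω => expW (P ω) (Q ω) o := by
  rcases o with _ | _ | _
  exacts [ExpB.const _, hQ, hP]

theorem expW_nonneg {P Q : ℝ} (hP : 0 ≤ P) (hQ : 0 ≤ Q) (o : Option Bool) : 0 ≤ expW P Q o := by
  rcases o with _ | _ | _
  exacts [zero_le_one, hQ, hP]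

theorem exp_vertex {Ω α : Type} [MeasurableSpace Ω] (ν : Measure Ω) [IsProbabilityMeasure ν]
    (ν' : Measure (Ω × Bool)) [IsProbabilityMeasure ν'] {ρ Θ Δ : Ω → ℝ} {X Y : Ω × Bool → ℝ}
    {M A a a' : ℝ} (hρ : ExpB ρ) (hΘ : ExpB Θ) (hΔ : ExpB Δ) (hX : ExpB X) (hY : ExpB Y)
    (hρ0 : ∀ ω, 0 ≤ ρ ω) (hΘ0 : ∀ ω, 0 ≤ Θ ω) (hΔ0 : ∀ ω, 0 ≤ Δ ω) (hM : 0 < M) (hMA : M ≤ A)
    (hA : 1 ≤ A) (ha : 0 ≤ a) (ha' : 0 ≤ a')
    (hν : ∀ f : Ω × Bool → ℝ, ExpB f →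
      ∫ x, f x ∂ν' = ∫ ω, ρ ω / M * ((f (ω, true) + 2 * f (ω, false)) / 3) ∂ν)
    (hX1 : ∀ ω, X (ω, true) = A * Θ ω * 2) (hX2 : ∀ ω, X (ω, false) = A * Θ ω * (-1))
    (hY1 : ∀ ω, Y (ω, true) = A * Δ ω * 2) (hY2 : ∀ ω, Y (ω, false) = A * Δ ω * (-1))
    (hX0 : ∫ x, X x ∂ν' = 0) (hY0 : ∫ x, Y x ∂ν' = 0)
    (s : Finset α) (t : α → Option Bool) (x : ℝ) (h0 : (∀ e ∈ s, t e = none) → x ≤ 1)
    (h1 : ∀ e0 ∈ s, ∀ b, t e0 = some b → (∀ e ∈ s, e ≠ e0 → t e = none) → x ≤ expW a a' (some b))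
    (h3 : x ≤ ∫ ω, ρ ω * ∏ e ∈ s, expW (Θ ω) (Δ ω) (t e) ∂ν) :
    x ≤ ∫ z, ∏ e ∈ s, expW (X z + a) (Y z + a') (t e) ∂ν' := by
  classical
  have hs : ∀ P Q : ℝ, ∏ e ∈ s, expW P Q (t e) =
      ∏ e ∈ s.filter fun e => t e ≠ none, expW P Q (t e) := fun P Q =>
    (prod_filter_of_ne (p := fun e => t e ≠ none) fun e _ h h' => h (by rw [h']; rfl)).symm
  simp only [hs] at h3 ⊢
  generalize hs' : (s.filter fun e => t e ≠ none) = s' at h3 ⊢
  have hm : ∀ e, e ∈ s' ↔ e ∈ s ∧ t e ≠ none := fun e => by rw [← hs', mem_filter]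
  rcases Nat.lt_or_ge s'.card 2 with hc | hc
  · rcases Nat.lt_or_ge s'.card 1 with hc' | hc'
    · have he : s' = ∅ := card_eq_zero.1 (by omega)
      subst he
      simpa using h0 fun e he => by simpa [he] using hm e
    · obtain ⟨e0, rfl⟩ := card_eq_one.1 (show s'.card = 1 by omega)
      obtain ⟨he0, ht0⟩ := (hm e0).1 (mem_singleton_self _)
      obtain ⟨b, hb⟩ := Option.ne_none_iff_exists'.1 ht0
      refine (h1 e0 he0 b hb fun e he hne => ?_).trans (le_of_eq ?_)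
      · simpa [he, hne] using hm e
      · simp only [prod_singleton, hb]
        cases b
        · simp only [expW]
          rw [integral_add (hY.integrable _) (integrable_const _), hY0]
          simp
        · simp only [expW]
          rw [integral_add (hX.integrable _) (integrable_const _), hX0]
          simp
  · have hZ : ExpB fun z => ∏ e ∈ s', expW (X z + a) (Y z + a') (t e) :=
      ExpB.prod _ fun e _ => expW_bd (hX.add (ExpB.const _)) (hY.add (ExpB.const _)) _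
    rw [hν _ hZ]
    refine h3.trans (integral_mono ((hρ.mul (ExpB.prod _ fun e _ => expW_bd hΘ hΔ _)).integrable _)
      ?_ fun ω => ?_)
    · simp only [div_eq_mul_inv]
      exact ((hρ.mul (ExpB.const _)).mul (((hZ.comp measurable_prodMk_right).add
        ((ExpB.const _).mul (hZ.comp measurable_prodMk_right))).mul (ExpB.const _))).integrable _
    · have h4 := exp_alg s' hc (fun e => A * expW (Θ ω) (Δ ω) (t e)) (fun e => expW a a' (t e))
        (fun e _ => mul_nonneg (by linarith) (expW_nonneg (hΘ0 ω) (hΔ0 ω) _))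
        fun e _ => expW_nonneg ha ha' _
      have h5 : ∀ c : ℝ, ∏ e ∈ s', expW (A * Θ ω * c + a) (A * Δ ω * c + a') (t e) =
          ∏ e ∈ s', (A * expW (Θ ω) (Δ ω) (t e) * c + expW a a' (t e)) := by
        refine fun c => prod_congr rfl fun e he => ?_
        obtain ⟨b, hb⟩ := Option.ne_none_iff_exists'.1 ((hm e).1 he).2
        rw [hb]
        cases b <;> rfl
      simp only [hX1, hX2, hY1, hY2, h5]
      refine le_trans ?_ (mul_le_mul_of_nonneg_left h4 (div_nonneg (hρ0 ω) hM.le))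
      rw [prod_mul_distrib, prod_const, ← mul_assoc]
      refine mul_le_mul_of_nonneg_right ?_ (prod_nonneg fun e _ => expW_nonneg (hΘ0 ω) (hΔ0 ω) _)
      rw [div_mul_eq_mul_div, le_div_iff₀ hM]
      exact mul_le_mul_of_nonneg_left (hMA.trans (le_self_pow₀ hA (by omega))) (hρ0 ω)

/-- The type of the first or second end of a label. -/
def expTy {I : Type} : Option (Option I × Bool) → Bool → Option Bool
  | none, _ => none
  | some (_, b), f => some (b == f)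

/-- The one-vertex factor of an end. -/
def expU {I : Type} (P Q : I → ℂ) : Option (Option I × Bool) → Bool → ℂ
  | some (some i, b), f => expW (P i) (Q i) (some (b == f))
  | _, _ => 1

/-- The two-vertex factor of a label. -/
def expR {I : Type} (r : Bool → ℂ) : Option (Option I × Bool) → ℂ
  | some (none, b) => r b
  | _ => 1

/-- The bound for the two-vertex factor. -/
def expQ {I : Type} (T D : ℝ) : Option (Option I × Bool) → Bool → ℝ
  | some (none, b), f => T * expW T D (some (b == f))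
  | _, _ => 1

theorem exp_prod {M L : Type} [CommMonoid M] {n : ℕ} (a : L → Bool → Fin n → M) (c : Pr2 n → L) :
    ∏ e : Pr2 n, a (c e) true e.1.1 * a (c e) false e.1.2 =
      ∏ v, ∏ e ∈ univ.filter fun e : Pr2 n => e.1.1 = v ∨ e.1.2 = v,
        a (c e) (decide (e.1.1 = v)) v := by
  rw [← prod_pairs_inc fun e v => a (c e) (decide (e.1.1 = v)) v]
  refine prod_congr rfl fun e _ => ?_
  simp [e.2.ne]

theorem exp_sumU {I : Type} [Fintype I] (P Q P' Q' : I → ℂ) (r : Bool → ℂ) :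
    ∑ l : Option (Option I × Bool), expU P Q l true * expU P' Q' l false * expR r l =
      1 + ∑ i, (P i * Q' i + Q i * P' i) + (r true + r false) := by
  simp [Fintype.sum_option, Fintype.sum_prod_type, expU, expR, expW]
  ring

theorem exp_sumW {I : Type} [Fintype I] (P Q P' Q' : ℝ) :
    ∑ l : Option (Option I × Bool), expW P Q (expTy l true) * expW P' Q' (expTy l false) =
      1 + (Fintype.card I + 1) * (P * Q' + Q * P') := by
  simp [Fintype.sum_option, Fintype.sum_prod_type, expTy, expW]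
  ring

theorem exp_cmp {C : Type} [Fintype C] (c0 : C) (T : C → ℂ) (D : C → ℝ) (hT : T c0 = 1)
    (hD : D c0 = 1) (h : ∀ c, ‖T c‖ ≤ D c) : ‖∑ c, T c - 1‖ ≤ ∑ c, D c - 1 := by
  classical
  rw [← add_sum_erase _ T (mem_univ c0), ← add_sum_erase _ D (mem_univ c0), hT, hD,
    add_sub_cancel_left, add_sub_cancel_left]
  exact norm_sum_le_of_le _ fun c _ => h c

theorem expU_bd {Ω I : Type} [MeasurableSpace Ω] {φ φ' : I → Ω → ℂ} (hφ : ∀ i, ExpB (φ i))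
    (hφ' : ∀ i, ExpB (φ' i)) (l : Option (Option I × Bool)) (f : Bool) :
    ExpB fun ω => expU (fun i => φ i ω) (fun i => φ' i ω) l f := by
  rcases l with _ | ⟨_ | i, b⟩
  exacts [ExpB.const _, ExpB.const _, expW_bd (hφ i) (hφ' i) _]

theorem expQ_bd {Ω I : Type} [MeasurableSpace Ω] {Θ Δ : Ω → ℝ} (hΘ : ExpB Θ) (hΔ : ExpB Δ)
    (l : Option (Option I × Bool)) (f : Bool) : ExpB fun ω => expQ (Θ ω) (Δ ω) l f := by
  rcases l with _ | ⟨_ | i, b⟩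
  exacts [ExpB.const _, hΘ.mul (expW_bd hΘ hΔ _), ExpB.const _]

theorem expQ_nonneg {I : Type} {T D : ℝ} (hT : 0 ≤ T) (hD : 0 ≤ D) (l : Option (Option I × Bool))
    (f : Bool) : 0 ≤ expQ T D l f := by
  rcases l with _ | ⟨_ | i, b⟩
  exacts [zero_le_one, mul_nonneg hT (expW_nonneg hT hD _), zero_le_one]

theorem expQ_one {I : Type} (T D : ℝ) {l : Option (Option I × Bool)} (h : ∀ b, l ≠ some (none, b))
    (f : Bool) : expQ T D l f = 1 := by
  rcases l with _ | ⟨_ | i, b⟩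
  exacts [rfl, (h b rfl).elim, rfl]

theorem expR_one {I : Type} (r : Bool → ℂ) {l : Option (Option I × Bool)}
    (h : ∀ b, l ≠ some (none, b)) : expR r l = 1 := by
  rcases l with _ | ⟨_ | i, b⟩
  exacts [rfl, (h b rfl).elim, rfl]

theorem expTy_none {I : Type} {l : Option (Option I × Bool)} {f : Bool} (h : expTy l f = none) :
    l = none := by
  rcases l with _ | ⟨j, b⟩
  · rfl
  · simp [expTy] at h

theorem expU_le {I : Type} {P Q : I → ℂ} {T D : ℝ} (hT : 0 ≤ T) (hT1 : T ≤ 1) (hD : 0 ≤ D)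
    (h : ∀ i, ‖P i‖ ≤ T ∧ ‖Q i‖ ≤ D) (l : Option (Option I × Bool)) (f : Bool) :
    ‖expU P Q l f‖ * expQ T D l f ≤ expW T D (expTy l f) := by
  rcases l with _ | ⟨_ | i, b⟩
  · simp [expU, expQ, expTy, expW]
  · simp only [expU, expQ, expTy, norm_one, one_mul]
    exact mul_le_of_le_one_left (expW_nonneg hT hD _) hT1
  · simp only [expU, expQ, expTy, mul_one]
    cases b == f
    exacts [(h i).2, (h i).1]

theorem exp_term {Ω I : Type} [MeasurableSpace Ω] (ν : Measure Ω) [IsProbabilityMeasure ν] {n : ℕ}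
    {ρ : Ω → ℂ} {Θ Δ : Ω → ℝ} {φ φ' : I → Ω → ℂ} {r : Bool → Ω → Ω → ℂ} {a a' : ℝ}
    (Dm : Finset (Pr2 n) → (Pr2 n → Option Bool) → ℝ)
    (hD : ∀ s t x, ((∀ e ∈ s, t e = none) → x ≤ 1) →
      (∀ e0 ∈ s, ∀ b, t e0 = some b → (∀ e ∈ s, e ≠ e0 → t e = none) → x ≤ expW a a' (some b)) →
      x ≤ ∫ ω, ‖ρ ω‖ * ∏ e ∈ s, expW (Θ ω) (Δ ω) (t e) ∂ν → x ≤ Dm s t)
    (hρ : ExpB ρ) (hΘ : ExpB Θ) (hΔ : ExpB Δ) (hφ : ∀ i, ExpB (φ i)) (hφ' : ∀ i, ExpB (φ' i))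
    (hb : ∀ ω, 0 ≤ Θ ω ∧ Θ ω ≤ 1 ∧ 0 ≤ Δ ω ∧ ∀ i, ‖φ i ω‖ ≤ Θ ω ∧ ‖φ' i ω‖ ≤ Δ ω)
    (hr : ∀ b ω ω', ‖r b ω ω'‖ ≤ Θ ω * expW (Θ ω) (Δ ω) (some (b == true)) *
      (Θ ω' * expW (Θ ω') (Δ ω') (some (b == false))))
    (h1 : ∫ ω, ρ ω ∂ν = 1) (hφm : ∀ i, ‖∫ ω, ρ ω * φ i ω ∂ν‖ ≤ a ∧ ‖∫ ω, ρ ω * φ' i ω ∂ν‖ ≤ a')
    (hΘm : ∫ ω, ‖ρ ω‖ * (Θ ω * Θ ω) ∂ν ≤ a) (hΔm : ∫ ω, ‖ρ ω‖ * (Θ ω * Δ ω) ∂ν ≤ a')
    (c : Pr2 n → Option (Option I × Bool)) :
    ‖∫ ω : Fin n → Ω, (∏ v, ρ (ω v)) * ∏ e : Pr2 n,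
      (expU (fun i => φ i (ω e.1.1)) (fun i => φ' i (ω e.1.1)) (c e) true *
        expU (fun i => φ i (ω e.1.2)) (fun i => φ' i (ω e.1.2)) (c e) false *
        expR (fun b => r b (ω e.1.1) (ω e.1.2)) (c e)) ∂(Measure.pi fun _ => ν)‖ ≤
      ∏ v, Dm (univ.filter fun e : Pr2 n => e.1.1 = v ∨ e.1.2 = v)
        fun e => expTy (c e) (decide (e.1.1 = v)) := by
  classical
  let inc : Fin n → Finset (Pr2 n) := fun v => univ.filter fun e => e.1.1 = v ∨ e.1.2 = v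
  let U : Fin n → Pr2 n → Ω → ℂ := fun v e ω =>
    expU (fun i => φ i ω) (fun i => φ' i ω) (c e) (decide (e.1.1 = v))
  let Q : Fin n → Pr2 n → Ω → ℝ := fun v e ω => expQ (Θ ω) (Δ ω) (c e) (decide (e.1.1 = v))
  let p : Fin n → Prop := fun v => ∀ e ∈ inc v, ∀ b, c e ≠ some (none, b)
  let g : Fin n → Ω → ℂ := fun v ω => ρ ω * ∏ e ∈ inc v, U v e ω
  let bb : Fin n → Ω → ℝ := fun v ω => ‖ρ ω‖ * ∏ e ∈ inc v, (‖U v e ω‖ * Q v e ω)
  let F : (Fin n → Ω) → ℂ := fun ω => (∏ v : {v // ¬p v}, g v (ω v)) *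
    ∏ e : Pr2 n, expR (fun b => r b (ω e.1.1) (ω e.1.2)) (c e)
  have hbb : ∀ v, ExpB (bb v) := fun v => hρ.norm.mul (ExpB.prod _ fun e _ =>
    (expU_bd hφ hφ' _ _).norm.mul (expQ_bd hΘ hΔ _ _))
  have hQ0 : ∀ v e ω, 0 ≤ Q v e ω := fun v e ω => expQ_nonneg (hb ω).1 (hb ω).2.2.1 _ _
  have hbb0 : ∀ v ω, 0 ≤ bb v ω := fun v ω => mul_nonneg (norm_nonneg _)
    (prod_nonneg fun e _ => mul_nonneg (norm_nonneg _) (hQ0 v e ω))
  have hQ1 : ∀ v, p v → ∀ ω, ∏ e ∈ inc v, Q v e ω = 1 := fun v hv ω =>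
    prod_eq_one fun e he => expQ_one _ _ (hv e he) _
  have hbg : ∀ v ω, bb v ω = ‖g v ω‖ * ∏ e ∈ inc v, Q v e ω := fun v ω => by
    simp only [bb, g, norm_mul, norm_prod, prod_mul_distrib, mul_assoc]
  have hint : ∀ ω : Fin n → Ω, (∏ v, ρ (ω v)) * ∏ e : Pr2 n,
      (expU (fun i => φ i (ω e.1.1)) (fun i => φ' i (ω e.1.1)) (c e) true *
        expU (fun i => φ i (ω e.1.2)) (fun i => φ' i (ω e.1.2)) (c e) false *
        expR (fun b => r b (ω e.1.1) (ω e.1.2)) (c e)) =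
      (∏ v : {v // p v}, g v (ω v)) * F ω := by
    intro ω
    rw [prod_mul_distrib, exp_prod fun l f v => expU (fun i => φ i (ω v)) (fun i => φ' i (ω v)) l f,
      ← mul_assoc, ← prod_mul_distrib, ← Fintype.prod_subtype_mul_prod_subtype p, mul_assoc]
  simp only [hint]
  refine (exp_factor ν p g F bb (fun v => (hbb v).integrable _) (fun ω ω' h => ?_)
    fun ω => ?_).trans (prod_le_prod (fun v _ => ?_) fun v _ => hD _ _ _ (fun h => ?_)
      (fun e0 he0 b ht h => ?_) ?_)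
  · refine congrArg₂ (· * ·) (prod_congr rfl fun v _ => by rw [h v v.2])
      (prod_congr rfl fun e _ => ?_)
    by_cases he : ∀ b, c e ≠ some (none, b)
    · rw [expR_one _ he, expR_one _ he]
    · rw [h e.1.1 fun hp => he (hp e (by simp [inc])), h e.1.2 fun hp => he (hp e (by simp [inc]))]
  · have h2 : ‖∏ e : Pr2 n, expR (fun b => r b (ω e.1.1) (ω e.1.2)) (c e)‖ ≤
        ∏ v : {v // ¬p v}, ∏ e ∈ inc v, Q v e (ω v) := by
      have h3 := exp_prod (fun l f v => expQ (Θ (ω v)) (Δ (ω v)) l f) c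
      rw [← Fintype.prod_subtype_mul_prod_subtype p,
        prod_eq_one fun (v : {v // p v}) _ => hQ1 v v.2 (ω v), one_mul] at h3
      rw [norm_prod]
      refine le_trans (prod_le_prod (fun e _ => norm_nonneg _) fun e _ => ?_) h3.le
      rcases c e with _ | ⟨_ | i, b⟩
      · simp [expR, expQ]
      · exact hr b _ _
      · simp [expR, expQ]
    simp only [F, hbg, norm_mul, prod_mul_distrib]
    rw [norm_prod]
    exact mul_le_mul_of_nonneg_left h2 (prod_nonneg fun v _ => norm_nonneg _)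
  · split_ifs
    exacts [norm_nonneg _, integral_nonneg (hbb0 v)]
  · have h2 : ∀ e ∈ inc v, c e = none := fun e he => expTy_none (h e he)
    rw [if_pos fun e he b => by simp [h2 e he]]
    have h3 : ∀ ω, g v ω = ρ ω := fun ω => by
      simp only [g]
      rw [prod_eq_one fun e he => by simp only [U, h2 e he, expU], mul_one]
    simp [h3, h1]
  · have h2 : ∀ e ∈ inc v, e ≠ e0 → c e = none := fun e he hne => expTy_none (h e he hne)
    have h3 : ∀ ω, g v ω = ρ ω * U v e0 ω := fun ω => by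
      simp only [g]
      rw [prod_eq_single_of_mem e0 he0 fun e he hne => by simp only [U, h2 e he hne, expU]]
    have h4 : ∀ ω, bb v ω = ‖ρ ω‖ * (‖U v e0 ω‖ * Q v e0 ω) := fun ω => by
      simp only [bb]
      rw [prod_eq_single_of_mem e0 he0 fun e he hne => by
        simp only [U, Q, h2 e he hne, expU, expQ, norm_one, mul_one]]
    simp only [h3, h4, U, Q]
    rcases hc : c e0 with _ | ⟨_ | i, b'⟩
    · simp [hc, expTy] at ht
    · rw [if_neg fun hp => hp e0 he0 b' hc]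
      simp only [hc, expTy, Option.some.injEq] at ht
      simp only [expU, expQ, norm_one, one_mul, ht]
      cases b
      exacts [hΔm, hΘm]
    · rw [if_pos fun e he b'' hh => by
        rcases eq_or_ne e e0 with rfl | hne
        · simp [hc] at hh
        · simp [h2 e he hne] at hh]
      simp only [hc, expTy, Option.some.injEq] at ht
      simp only [expU, ht]
      cases b
      exacts [(hφm i).2, (hφm i).1]
  · have h2 : ∫ ω, bb v ω ∂ν ≤ ∫ ω, ‖ρ ω‖ * ∏ e ∈ inc v,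
        expW (Θ ω) (Δ ω) (expTy (c e) (decide (e.1.1 = v))) ∂ν := by
      refine integral_mono ((hbb v).integrable _)
        ((hρ.norm.mul (ExpB.prod _ fun e _ => expW_bd hΘ hΔ _)).integrable _) fun ω => ?_
      exact mul_le_mul_of_nonneg_left (prod_le_prod (fun e _ => mul_nonneg (norm_nonneg _)
        (hQ0 v e ω)) fun e _ => expU_le (hb ω).1 (hb ω).2.1 (hb ω).2.2.1 (hb ω).2.2.2 _ _)
        (norm_nonneg _)
    split_ifs with hv
    · refine le_trans (norm_integral_le_of_norm_le ((hbb v).integrable _)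
        (.of_forall fun ω => ?_)) h2
      rw [hbg, hQ1 v hv, mul_one]
    · exact h2

theorem expR_bd {Ω I : Type} [MeasurableSpace Ω] {r : Bool → Ω → ℂ} (hr : ∀ b, ExpB (r b))
    (l : Option (Option I × Bool)) : ExpB fun ω => expR (fun b => r b ω) l := by
  rcases l with _ | ⟨_ | i, b⟩
  exacts [ExpB.const _, hr b, ExpB.const _]

theorem exp_split {Ω : Type} [MeasurableSpace Ω] {r : Ω → ℂ} {w : Bool → Ω → ℝ}
    (hr : Measurable r) (hw : ∀ b, ExpB (w b)) (h0 : ∀ b ω, 0 ≤ w b ω)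
    (h : ∀ ω, ‖r ω‖ ≤ w true ω + w false ω) : ∃ r' : Bool → Ω → ℂ, (∀ b, ExpB (r' b)) ∧
      (∀ b ω, ‖r' b ω‖ ≤ w b ω) ∧ ∀ ω, r' true ω + r' false ω = r ω := by
  have hle : ∀ b ω, ‖r ω * ((w b ω / (w true ω + w false ω) : ℝ) : ℂ)‖ ≤ w b ω := by
    intro b ω
    have h1 : 0 ≤ w true ω + w false ω := add_nonneg (h0 _ _) (h0 _ _)
    rw [norm_mul, norm_real, Real.norm_of_nonneg (div_nonneg (h0 _ _) h1)]
    refine (mul_le_mul_of_nonneg_right (h ω) (div_nonneg (h0 _ _) h1)).trans ?_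
    rcases h1.eq_or_lt with h2 | h2
    · rw [← h2, zero_mul]
      exact h0 _ _
    · rw [mul_div_cancel₀ _ h2.ne']
  refine ⟨fun b ω => r ω * ((w b ω / (w true ω + w false ω) : ℝ) : ℂ), fun b => ⟨hr.mul
    (measurable_ofReal.comp ((hw b).1.div ((hw true).1.add (hw false).1))), ?_⟩, hle, fun ω => ?_⟩
  · obtain ⟨C, hC⟩ := (hw b).2
    exact ⟨C, fun ω => (hle b ω).trans ((le_abs_self _).trans (hC ω))⟩
  · rw [← mul_add, ← ofReal_add, ← add_div]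
    rcases eq_or_ne (w true ω + w false ω) 0 with h2 | h2
    · have h3 : r ω = 0 := norm_le_zero_iff.1 (h2 ▸ h ω)
      rw [h3, zero_mul]
    · rw [div_self h2, ofReal_one, mul_one]

theorem exp_main {Ω Ω' I : Type} [MeasurableSpace Ω] [MeasurableSpace Ω'] [Fintype I]
    (ν : Measure Ω) [IsProbabilityMeasure ν] (ν' : Measure Ω') [IsProbabilityMeasure ν'] {n : ℕ}
    {ρ : Ω → ℂ} {Θ Δ : Ω → ℝ} {φ φ' : I → Ω → ℂ} {r : Ω → Ω → ℂ} {a a' : ℝ} {X Y : Ω' → ℝ}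
    (hD : ∀ (s : Finset (Pr2 n)) (t : Pr2 n → Option Bool) (x : ℝ),
      ((∀ e ∈ s, t e = none) → x ≤ 1) →
      (∀ e0 ∈ s, ∀ b, t e0 = some b → (∀ e ∈ s, e ≠ e0 → t e = none) → x ≤ expW a a' (some b)) →
      x ≤ ∫ ω, ‖ρ ω‖ * ∏ e ∈ s, expW (Θ ω) (Δ ω) (t e) ∂ν →
      x ≤ ∫ z, ∏ e ∈ s, expW (X z) (Y z) (t e) ∂ν') (hX : ExpB X) (hY : ExpB Y)
    (hρ : ExpB ρ) (hΘ : ExpB Θ) (hΔ : ExpB Δ) (hφ : ∀ i, ExpB (φ i)) (hφ' : ∀ i, ExpB (φ' i))
    (hb : ∀ ω, 0 ≤ Θ ω ∧ Θ ω ≤ 1 ∧ 0 ≤ Δ ω ∧ ∀ i, ‖φ i ω‖ ≤ Θ ω ∧ ‖φ' i ω‖ ≤ Δ ω)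
    (hrm : Measurable (Function.uncurry r))
    (hr : ∀ ω ω', ‖r ω ω'‖ ≤ Θ ω ^ 2 * (Θ ω' * Δ ω') + Θ ω * Δ ω * Θ ω' ^ 2)
    (h1 : ∫ ω, ρ ω ∂ν = 1) (hφm : ∀ i, ‖∫ ω, ρ ω * φ i ω ∂ν‖ ≤ a ∧ ‖∫ ω, ρ ω * φ' i ω ∂ν‖ ≤ a')
    (hΘm : ∫ ω, ‖ρ ω‖ * (Θ ω * Θ ω) ∂ν ≤ a) (hΔm : ∫ ω, ‖ρ ω‖ * (Θ ω * Δ ω) ∂ν ≤ a') :
    ‖∫ ω : Fin n → Ω, (∏ v, ρ (ω v)) * ∏ e : Pr2 n, (1 + ∑ i, (φ i (ω e.1.1) * φ' i (ω e.1.2) +
        φ' i (ω e.1.1) * φ i (ω e.1.2)) + r (ω e.1.1) (ω e.1.2)) ∂(Measure.pi fun _ => ν) - 1‖ ≤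
      ∫ z : Fin n → Ω', ∏ e : Pr2 n, (1 + (Fintype.card I + 1) * (X (z e.1.1) * Y (z e.1.2) +
        Y (z e.1.1) * X (z e.1.2))) ∂(Measure.pi fun _ => ν') - 1 := by
  classical
  obtain ⟨r', hr1, hr2, hr3⟩ := exp_split (w := fun b (x : Ω × Ω) =>
    Θ x.1 * expW (Θ x.1) (Δ x.1) (some (b == true)) *
      (Θ x.2 * expW (Θ x.2) (Δ x.2) (some (b == false)))) hrm
    (fun b => (((hΘ.mul (expW_bd hΘ hΔ _)).comp measurable_fst).mul
      ((hΘ.mul (expW_bd hΘ hΔ _)).comp measurable_snd)))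
    (fun b x => mul_nonneg (mul_nonneg (hb _).1 (expW_nonneg (hb _).1 (hb _).2.2.1 _))
      (mul_nonneg (hb _).1 (expW_nonneg (hb _).1 (hb _).2.2.1 _)))
    fun x => (hr x.1 x.2).trans (le_of_eq (by simp [expW, sq]))
  have hr4 : ∀ ω ω', r ω ω' = r' true (ω, ω') + r' false (ω, ω') := fun ω ω' => (hr3 (ω, ω')).symm
  have hev : ∀ v : Fin n, Measurable fun ω : Fin n → Ω => ω v := fun v => measurable_pi_apply v
  have hev' : ∀ v : Fin n, Measurable fun ω : Fin n → Ω' => ω v := fun v => measurable_pi_apply v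
  have e1 : ∀ ω ω' : Ω, 1 + ∑ i, (φ i ω * φ' i ω' + φ' i ω * φ i ω') + r ω ω' =
      ∑ l : Option (Option I × Bool), expU (fun i => φ i ω) (fun i => φ' i ω) l true *
        expU (fun i => φ i ω') (fun i => φ' i ω') l false * expR (fun b => r' b (ω, ω')) l :=
    fun ω ω' => by rw [exp_sumU, hr4]
  simp only [e1, ← exp_sumW, Fintype.prod_sum, mul_sum]
  rw [integral_finsetSum, integral_finsetSum]
  · refine exp_cmp (fun _ => none) _ _ ?_ ?_ fun c => ?_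
    · simp only [expU, expR, mul_one, prod_const_one]
      rw [integral_fintype_prod_eq_pow, h1, one_pow]
    · simp [expTy, expW]
    · refine (exp_term ν (r := fun b ω ω' => r' b (ω, ω'))
        (fun s t => ∫ z, ∏ e ∈ s, expW (X z) (Y z) (t e) ∂ν') hD hρ hΘ hΔ hφ hφ' hb
        (fun b ω ω' => hr2 b (ω, ω')) h1 hφm hΘm hΔm c).trans (le_of_eq ?_)
      rw [← integral_fintype_prod_eq_prod fun (v : Fin n) z =>
        ∏ e ∈ univ.filter fun e : Pr2 n => e.1.1 = v ∨ e.1.2 = v,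
          expW (X z) (Y z) (expTy (c e) (decide (e.1.1 = v)))]
      refine integral_congr_ae (.of_forall fun z => ?_)
      exact (exp_prod (fun l f v => expW (X (z v)) (Y (z v)) (expTy l f)) c).symm
  · exact fun c _ => (ExpB.prod _ fun e _ => ((expW_bd hX hY _).comp (hev' _)).mul
      ((expW_bd hX hY _).comp (hev' _))).integrable _
  · exact fun c _ => ((ExpB.prod _ fun v _ => hρ.comp (hev v)).mul (ExpB.prod _ fun e _ =>
      (((expU_bd hφ hφ' _ _).comp (hev _)).mul ((expU_bd hφ hφ' _ _).comp (hev _))).mul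
        ((expR_bd hr1 _).comp ((hev _).prodMk (hev _))))).integrable _

theorem exp_mom1 {A n T : ℝ} (hA : 0 < A) (hn : 0 < n) :
    T * T ≤ A / n * Real.exp (n * T ^ 2 / A) := by
  have h := Real.add_one_le_exp (n * T ^ 2 / A)
  have e : T * T = A / n * (n * T ^ 2 / A) := by field_simp
  rw [e]
  exact mul_le_mul_of_nonneg_left (by linarith) (by positivity)

theorem exp_mom2 {A n T D η : ℝ} (hA : 0 < A) (hn : 0 < n) (hη : 0 ≤ η) (hT : 1 / √n ≤ T)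
    (hD : D ≤ η * √n * T ^ 2) : T * D ≤ 2 * A ^ 2 * η / n * Real.exp (n * T ^ 2 / A) := by
  have hs : 0 < √n := Real.sqrt_pos.2 hn
  have hT0 : 0 < T := lt_of_lt_of_le (by positivity) hT
  have h1 : 1 ≤ T * √n := (div_le_iff₀ hs).1 hT
  have h := Real.quadratic_le_exp_of_nonneg (show 0 ≤ n * T ^ 2 / A by positivity)
  have h2 : (n * T ^ 2 / A) ^ 2 / 2 ≤ Real.exp (n * T ^ 2 / A) := by
    have : 0 ≤ n * T ^ 2 / A := by positivity
    linarith
  calc T * D ≤ T * (η * √n * T ^ 2) := mul_le_mul_of_nonneg_left hD hT0.le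
    _ ≤ T * (η * √n * T ^ 2) * (T * √n) := le_mul_of_one_le_right (by positivity) h1
    _ = η * (√n * √n) * T ^ 4 := by ring
    _ = 2 * A ^ 2 * η / n * ((n * T ^ 2 / A) ^ 2 / 2) := by
      rw [Real.mul_self_sqrt hn.le]
      field_simp
    _ ≤ _ := mul_le_mul_of_nonneg_left h2 (by positivity)

theorem exp_const {A Cd lam η μ μ' s : ℝ} (hA : 1 ≤ A) (hC : 1 ≤ Cd) (hl : 0 < lam) (hη : 0 < η)
    (hη1 : η ≤ 1) (hμ' : 0 ≤ μ') (hs : 0 ≤ s) (hs1 : s ≤ 1) :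
    Cd * (η + s * (μ' + 2 * A ^ 3 * η)) *
      Real.exp (lam / 2 * (μ + A ^ 2) ^ 2 + Cd * (s * (μ' + 2 * A ^ 3 * η)) ^ 2) ≤
    2 * Cd * (1 + 2 * A ^ 3) * Real.exp (lam * A ^ 4 + 8 * Cd * A ^ 6) * (η + μ') *
      Real.exp (lam * μ ^ 2 +
        2 * Cd * (1 + 2 * A ^ 3) * Real.exp (lam * A ^ 4 + 8 * Cd * A ^ 6) * μ' ^ 2) := by
  have hA3 : 0 ≤ A ^ 3 := by positivity
  have h0 : 0 ≤ μ' + 2 * A ^ 3 * η := by positivity
  have h1 : s * (μ' + 2 * A ^ 3 * η) ≤ μ' + 2 * A ^ 3 * η := mul_le_of_le_one_left h0 hs1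
  have h2 : η + s * (μ' + 2 * A ^ 3 * η) ≤ 2 * (1 + 2 * A ^ 3) * (η + μ') := by
    nlinarith [mul_nonneg hA3 hμ', mul_nonneg hA3 hη.le]
  have h3 : (s * (μ' + 2 * A ^ 3 * η)) ^ 2 ≤ 2 * μ' ^ 2 + 8 * A ^ 6 := by
    have h4 : s * (μ' + 2 * A ^ 3 * η) ≤ μ' + 2 * A ^ 3 := by
      nlinarith [mul_le_mul_of_nonneg_left hη1 hA3]
    refine (pow_le_pow_left₀ (by positivity) h4 2).trans ?_
    nlinarith [sq_nonneg (μ' - 2 * A ^ 3)]
  have h5 : lam / 2 * (μ + A ^ 2) ^ 2 ≤ lam * μ ^ 2 + lam * A ^ 4 := by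
    nlinarith [mul_nonneg hl.le (sq_nonneg (μ - A ^ 2))]
  have h6 : 1 ≤ Real.exp (lam * A ^ 4 + 8 * Cd * A ^ 6) := Real.one_le_exp (by positivity)
  have h7 : 2 * Cd * μ' ^ 2 ≤
      2 * Cd * (1 + 2 * A ^ 3) * Real.exp (lam * A ^ 4 + 8 * Cd * A ^ 6) * μ' ^ 2 := by
    refine mul_le_mul_of_nonneg_right ?_ (sq_nonneg _)
    rw [mul_assoc (2 * Cd)]
    exact le_mul_of_one_le_right (by positivity) (one_le_mul_of_one_le_of_one_le (by linarith) h6)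
  have h8 := mul_le_mul_of_nonneg_left h3 (show 0 ≤ Cd by positivity)
  calc _ ≤ Cd * (2 * (1 + 2 * A ^ 3) * (η + μ')) * Real.exp ((lam * A ^ 4 + 8 * Cd * A ^ 6) +
        (lam * μ ^ 2 +
          2 * Cd * (1 + 2 * A ^ 3) * Real.exp (lam * A ^ 4 + 8 * Cd * A ^ 6) * μ' ^ 2)) :=
        mul_le_mul (mul_le_mul_of_nonneg_left h2 (by positivity))
          (Real.exp_le_exp.2 (by linarith)) (by positivity) (by positivity)
    _ = _ := by
      rw [Real.exp_add (lam * A ^ 4 + 8 * Cd * A ^ 6)]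
      ring

theorem expand (A : ℝ) (m : ℕ) (lam : ℝ) (hA : 1 ≤ A) (hl : 0 < lam) :
    ∃ c0 θ0 C : ℝ, 0 < c0 ∧ 0 < θ0 ∧ 1 ≤ C ∧ ∀ (Ω : Type) [MeasurableSpace Ω] (ν : Measure Ω)
      [IsProbabilityMeasure ν] (I : Type) [Fintype I] (n : ℕ) (ρ : Ω → ℂ) (Θ Δ : Ω → ℝ)
      (φ φ' : I → Ω → ℂ) (r : Ω → Ω → ℂ) (η μ μ' : ℝ), Fintype.card I ≤ m → 1 ≤ n → Bd ρ →
      Measurable Θ → Measurable Δ → (∀ i, Measurable (φ i)) → (∀ i, Measurable (φ' i)) →
      Measurable (Function.uncurry r) →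
      (∀ ω, 1 / √n ≤ Θ ω ∧ Θ ω ≤ θ0 ∧ 0 ≤ Δ ω ∧ Δ ω ≤ c0 * Θ ω ∧ Δ ω ≤ η * √n * Θ ω ^ 2 ∧
        ∀ i, ‖φ i ω‖ ≤ Θ ω ∧ ‖φ' i ω‖ ≤ Δ ω) →
      (∀ ω ω', ‖r ω ω'‖ ≤ Θ ω ^ 2 * (Θ ω' * Δ ω') + Θ ω * Δ ω * Θ ω' ^ 2) →
      ∫ ω, ρ ω ∂ν = 1 → ∫ ω, ‖ρ ω‖ * Real.exp (n * Θ ω ^ 2 / A) ∂ν ≤ A →
      (∀ i, ‖∫ ω, ρ ω * φ i ω ∂ν‖ ≤ μ / n ∧ ‖∫ ω, ρ ω * φ' i ω ∂ν‖ ≤ μ' / n) →
      0 < η → η ≤ 1 → 0 ≤ μ → μ ≤ θ0 * n → 0 ≤ μ' → μ' ≤ θ0 * n →
      ‖∫ ω : Fin n → Ω, (∏ v, ρ (ω v)) * ∏ e : Pr2 n, (1 + ∑ i, (φ i (ω e.1.1) * φ' i (ω e.1.2) +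
          φ' i (ω e.1.1) * φ i (ω e.1.2)) + r (ω e.1.1) (ω e.1.2)) ∂(Measure.pi fun _ => ν) - 1‖ ≤
        C * (η + μ') * Real.exp (lam * μ ^ 2 + C * μ' ^ 2) := by
  have hA0 : 0 < A := by linarith
  have hA2 : A ≤ A ^ 2 := le_self_pow₀ hA two_ne_zero
  have hA3 : A ^ 2 ≤ A ^ 3 := pow_le_pow_right₀ hA (by norm_num)
  have hm0 : (0 : ℝ) ≤ m := Nat.cast_nonneg m
  obtain ⟨c0, θd, Cd, hc0, hθd, hCd, H⟩ := dom_bound (4 * A ^ 3) (m + 1) (lam / 2) (by linarith)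
    (by linarith) (by linarith)
  have hC1 : 1 ≤ 2 * Cd * (1 + 2 * A ^ 3) * Real.exp (lam * A ^ 4 + 8 * Cd * A ^ 6) :=
    one_le_mul_of_one_le_of_one_le (one_le_mul_of_one_le_of_one_le (by linarith) (by linarith))
      (Real.one_le_exp (by positivity))
  refine ⟨c0, min 1 (θd / (3 * A ^ 3)), _, hc0, lt_min one_pos (by positivity), hC1, ?_⟩
  intro Ω _ ν _ I _ n ρ Θ Δ φ φ' r η μ μ' hI hn hρ hΘm hΔm hφm hφm' hrm hb hr h1 hE hmean hη hη1
    hμ hμθ hμ' hμθ'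
  generalize hθ : min 1 (θd / (3 * A ^ 3)) = θ at hb hμθ hμθ'
  have hθ1 : θ ≤ 1 := hθ ▸ min_le_left _ _
  have hθ2 : θ * (3 * A ^ 3) ≤ θd := (le_div_iff₀ (by positivity)).1 (hθ ▸ min_le_right _ _)
  have hn0 : (0 : ℝ) < n := by exact_mod_cast hn
  have hs : 0 < √(n : ℝ) := Real.sqrt_pos.2 hn0
  have hΘ0 : ∀ ω, 0 ≤ Θ ω := fun ω => le_trans (by positivity) (hb ω).1
  have hΘ1 : ∀ ω, Θ ω ≤ 1 := fun ω => (hb ω).2.1.trans hθ1
  have hΔ0 : ∀ ω, 0 ≤ Δ ω := fun ω => (hb ω).2.2.1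
  have hΔ1 : ∀ ω, Δ ω ≤ c0 := fun ω => (hb ω).2.2.2.1.trans (mul_le_of_le_one_right hc0.le (hΘ1 ω))
  obtain ⟨x0⟩ := nonempty_of_isProbabilityMeasure ν
  have hnθ : 1 / √(n : ℝ) ≤ θ := (hb x0).1.trans (hb x0).2.1
  have hθ0 : 0 ≤ θ := le_trans (by positivity) hnθ
  have hnθ' : 1 ≤ θ * n := by
    have h2 : 1 ≤ θ * √(n : ℝ) := (div_le_iff₀ hs).1 hnθ
    have h3 : 1 ≤ √(n : ℝ) := Real.one_le_sqrt.2 (by exact_mod_cast hn)
    calc (1 : ℝ) ≤ θ * √(n : ℝ) * √(n : ℝ) := one_le_mul_of_one_le_of_one_le h2 h3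
      _ = θ * n := by rw [mul_assoc, Real.mul_self_sqrt hn0.le]
  have bρ : ExpB ρ := hρ
  have bΘ : ExpB Θ := ⟨hΘm, 1, fun ω => by rw [Real.norm_of_nonneg (hΘ0 ω)]; exact hΘ1 ω⟩
  have bΔ : ExpB Δ := ⟨hΔm, c0, fun ω => by rw [Real.norm_of_nonneg (hΔ0 ω)]; exact hΔ1 ω⟩
  have bφ : ∀ i, ExpB (φ i) := fun i =>
    ⟨hφm i, 1, fun ω => ((hb ω).2.2.2.2.2 i).1.trans (hΘ1 ω)⟩
  have bφ' : ∀ i, ExpB (φ' i) := fun i =>
    ⟨hφm' i, c0, fun ω => ((hb ω).2.2.2.2.2 i).2.trans (hΔ1 ω)⟩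
  have bE : ExpB fun ω => Real.exp (n * Θ ω ^ 2 / A) := by
    refine ⟨by fun_prop, Real.exp (n * 1 ^ 2 / A), fun ω => ?_⟩
    rw [Real.norm_of_nonneg (Real.exp_nonneg _)]
    have := hΘ0 ω
    have := hΘ1 ω
    gcongr
  have hmom : ∀ (f : Ω → ℝ) (K : ℝ), ExpB f → 0 ≤ K →
      (∀ ω, f ω ≤ K * Real.exp (n * Θ ω ^ 2 / A)) → ∫ ω, ‖ρ ω‖ * f ω ∂ν ≤ K * A := by
    intro f K hf hK h
    refine le_trans ?_ (mul_le_mul_of_nonneg_left hE hK)
    rw [← integral_const_mul]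
    refine integral_mono ((bρ.norm.mul hf).integrable _)
      (((ExpB.const K).mul (bρ.norm.mul bE)).integrable _) fun ω => ?_
    have := mul_le_mul_of_nonneg_left (h ω) (norm_nonneg (ρ ω))
    simp only
    linarith
  have hM1 : 1 ≤ ∫ ω, ‖ρ ω‖ ∂ν := by
    have := norm_integral_le_integral_norm (μ := ν) ρ
    rwa [h1, norm_one] at this
  have hMA : ∫ ω, ‖ρ ω‖ ∂ν ≤ A := by
    have := hmom (fun _ => 1) 1 (ExpB.const _) zero_le_one fun ω => by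
      rw [one_mul]
      exact Real.one_le_exp (by positivity)
    simpa using this
  generalize hM : ∫ ω, ‖ρ ω‖ ∂ν = M at hM1 hMA
  have hM0 : 0 < M := by linarith
  obtain ⟨ν', hν', hν⟩ := exp_meas ν (d := fun ω => ‖ρ ω‖ / M)
    (by simpa only [div_eq_mul_inv] using bρ.norm.mul (ExpB.const M⁻¹))
    (fun ω => by positivity) (by rw [integral_div, hM, div_self hM0.ne'])
  let ζ : Bool → ℝ := fun b => if b then 2 else -1
  have hζ : ∀ b, |ζ b| ≤ 2 := fun b => by cases b <;> norm_num [ζ]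
  have bζ : ExpB fun z : Ω × Bool => ζ z.2 :=
    ExpB.comp (F := ζ) ⟨measurable_from_top, 2, hζ⟩ measurable_snd
  have bX : ExpB fun z : Ω × Bool => A * Θ z.1 * ζ z.2 :=
    ((ExpB.const A).mul (bΘ.comp measurable_fst)).mul bζ
  have bY : ExpB fun z : Ω × Bool => A * Δ z.1 * ζ z.2 :=
    ((ExpB.const A).mul (bΔ.comp measurable_fst)).mul bζ
  have hX0 : ∫ z, A * Θ z.1 * ζ z.2 ∂ν' = 0 := by
    rw [hν _ bX]
    refine integral_eq_zero_of_ae (.of_forall fun ω => ?_)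
    simp only [ζ, if_true, Bool.false_eq_true, if_false, Pi.zero_apply]
    ring
  have hY0 : ∫ z, A * Δ z.1 * ζ z.2 ∂ν' = 0 := by
    rw [hν _ bY]
    refine integral_eq_zero_of_ae (.of_forall fun ω => ?_)
    simp only [ζ, if_true, Bool.false_eq_true, if_false, Pi.zero_apply]
    ring
  have ha : 0 ≤ (μ + A ^ 2) / n := by positivity
  have ha' : 0 ≤ (μ' + 2 * A ^ 3 * η) / n := by positivity
  have hmain := exp_main ν ν' (n := n) (a := (μ + A ^ 2) / n) (a' := (μ' + 2 * A ^ 3 * η) / n)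
    (fun s t x => exp_vertex ν ν' bρ.norm bΘ bΔ bX bY (fun _ => norm_nonneg _) hΘ0 hΔ0 hM0 hMA hA
      ha ha' hν (fun _ => rfl) (fun _ => rfl) (fun _ => rfl) (fun _ => rfl) hX0 hY0 s t x)
    (bX.add (ExpB.const _)) (bY.add (ExpB.const _)) bρ bΘ bΔ bφ bφ'
    (fun ω => ⟨hΘ0 ω, hΘ1 ω, hΔ0 ω, (hb ω).2.2.2.2.2⟩) hrm hr h1
    (fun i => ⟨(hmean i).1.trans (div_le_div_of_nonneg_right (by linarith) hn0.le),
      (hmean i).2.trans (div_le_div_of_nonneg_right (le_add_of_nonneg_right (by positivity))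
        hn0.le)⟩)
    ((hmom _ _ (bΘ.mul bΘ) (by positivity) fun ω => exp_mom1 hA0 hn0).trans (by
      rw [div_mul_eq_mul_div, ← sq]
      exact div_le_div_of_nonneg_right (by linarith) hn0.le))
    ((hmom _ _ (bΘ.mul bΔ) (by positivity) fun ω =>
      exp_mom2 hA0 hn0 hη.le (hb ω).1 (hb ω).2.2.2.2.1).trans (by
      rw [div_mul_eq_mul_div]
      exact div_le_div_of_nonneg_right (by linarith) hn0.le))
  refine hmain.trans ?_
  obtain ⟨s, hs0, hs1, hsm⟩ : ∃ s : ℝ, 0 ≤ s ∧ s ≤ 1 ∧ (Fintype.card I + 1 : ℝ) = (m + 1) * s := by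
    have : (Fintype.card I : ℝ) ≤ m := by exact_mod_cast hI
    refine ⟨(Fintype.card I + 1) / (m + 1), by positivity, (div_le_one (by positivity)).2
      (by linarith), by field_simp⟩
  have hYb : ∀ z : Ω × Bool, |s * (A * Δ z.1 * ζ z.2)| ≤ 2 * A * Δ z.1 := by
    intro z
    have := hΔ0 z.1
    rw [abs_mul, abs_mul, abs_of_nonneg hs0, abs_of_nonneg (by positivity : 0 ≤ A * Δ z.1)]
    refine (mul_le_of_le_one_left (by positivity) hs1).trans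
      ((mul_le_mul_of_nonneg_left (hζ _) (by positivity)).trans (le_of_eq (by ring)))
  have h0' : 0 ≤ μ' + 2 * A ^ 3 * η := by positivity
  have hdom := H (Ω × Bool) ν' n (fun z => A * Θ z.1 * ζ z.2) (fun z => s * (A * Δ z.1 * ζ z.2))
    (fun z => 2 * A * Θ z.1) η (μ + A ^ 2) (s * (μ' + 2 * A ^ 3 * η)) hn
    (hnθ.trans (by nlinarith)) bX.1 (bY.1.const_mul s) ((hΘm.comp measurable_fst).const_mul _)
    (fun z => ⟨?_, ?_, ?_, ?_⟩) hX0 (by rw [integral_const_mul, hY0, mul_zero]) ?_ hη hη1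
    (by positivity) ?_ (by positivity) ?_
  · rw [sub_le_iff_le_add']
    refine le_trans (le_of_eq (integral_congr_ae (.of_forall fun z => prod_congr rfl fun e _ => ?_)))
      (hdom.trans (add_le_add_right (exp_const hA hCd hl hη hη1 hμ' hs0 hs1) _))
    rw [hsm]
    ring
  · have := mul_le_mul_of_nonneg_left (hb z.1).2.1 (show 0 ≤ 2 * A by positivity)
    nlinarith
  · have := hΘ0 z.1
    rw [abs_mul, abs_of_nonneg (by positivity : 0 ≤ A * Θ z.1)]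
    exact (mul_le_mul_of_nonneg_left (hζ _) (by positivity)).trans (le_of_eq (by ring))
  · have := mul_le_mul_of_nonneg_left (hb z.1).2.2.2.1 (show 0 ≤ 2 * A by positivity)
    exact (hYb z).trans (by linarith)
  · have h2 := mul_le_mul_of_nonneg_left (hb z.1).2.2.2.2.1 (show 0 ≤ 2 * A by positivity)
    have h3 := mul_le_mul_of_nonneg_right (show 2 * A ≤ 4 * A ^ 2 by linarith)
      (show 0 ≤ η * √n * Θ z.1 ^ 2 by positivity)
    exact (hYb z).trans (by linarith)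
  · have e : ∀ T : ℝ, n * (2 * A * T) ^ 2 / (4 * A ^ 3) = n * T ^ 2 / A := fun T => by
      field_simp
      ring
    simp only [e]
    rw [hν _ (bE.comp measurable_fst)]
    have h2 := hmom (fun ω => M⁻¹ * Real.exp (n * Θ ω ^ 2 / A)) M⁻¹ ((ExpB.const _).mul bE)
      (by positivity) fun ω => le_rfl
    have h3 : M⁻¹ * A ≤ A := mul_le_of_le_one_left hA0.le (inv_le_one_of_one_le₀ hM1)
    refine le_trans (le_of_eq (integral_congr_ae (.of_forall fun ω => ?_)))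
      (h2.trans (h3.trans (by linarith)))
    simp only
    ring
  · have h2 := mul_le_mul_of_nonneg_left hnθ' (show 0 ≤ A ^ 2 by positivity)
    have h3 := mul_le_mul_of_nonneg_right hθ2 hn0.le
    have h4 := mul_le_mul_of_nonneg_right (show 1 + A ^ 2 ≤ 3 * A ^ 3 by linarith)
      (show 0 ≤ θ * n by positivity)
    linarith
  · have h2 := mul_le_mul_of_nonneg_left hnθ' (show 0 ≤ 2 * A ^ 3 by positivity)
    have h3 := mul_le_mul_of_nonneg_right hθ2 hn0.le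
    have h4 := mul_le_mul_of_nonneg_right (show 1 + 2 * A ^ 3 ≤ 3 * A ^ 3 by linarith)
      (show 0 ≤ θ * n by positivity)
    have h5 := mul_le_mul_of_nonneg_left hη1 (show 0 ≤ 2 * A ^ 3 by positivity)
    have h6 := mul_le_of_le_one_left h0' hs1
    linarith

end Pool.Agent.Lib.MP_d20c4f_pr.H53
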