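import Pool.Agent.Lib.MP_d20c4f_pr.H53Rep
import Pool.Agent.Lib.MP_d20c4f_pr.H53CircX

/-!
Sign symmetries of the integral.
-/

namespace Pool.Agent.Lib.MP_d20c4f_pr.H53

open MeasureTheory Complex Finset

section bd

variable {Ω : Type} [MeasurableSpace Ω]

theorem flip_Bd_const (c : ℂ) : Bd fun _ : Ω => c := ⟨measurable_const, ‖c‖, fun _ => le_rfl⟩

theorem flip_Bd_add {F G : Ω → ℂ} (hF : Bd F) (hG : Bd G) : Bd fun ω => F ω + G ω := by
  obtain ⟨h1, C, h2⟩ := hF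
  obtain ⟨h3, C', h4⟩ := hG
  exact ⟨h1.add h3, C + C', fun ω => (norm_add_le _ _).trans (add_le_add (h2 ω) (h4 ω))⟩

theorem flip_Bd_pow {F : Ω → ℂ} (hF : Bd F) (m : ℕ) : Bd fun ω => F ω ^ m := by
  induction m with
  | zero => simpa using flip_Bd_const (Ω := Ω) 1
  | succ m ih => simpa only [pow_succ] using ih.mul hF

theorem flip_Bd_prod {ι : Type} (s : Finset ι) {F : ι → Ω → ℂ} (hF : ∀ i, Bd (F i)) :
    Bd fun ω => ∏ i ∈ s, F i ω := by
  classical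
  induction s using Finset.induction_on with
  | empty => simpa using flip_Bd_const (Ω := Ω) 1
  | insert a s ha ih => simpa only [prod_insert ha] using (hF a).mul ih

theorem flip_Bd_sum {ι : Type} (s : Finset ι) {F : ι → Ω → ℂ} (hF : ∀ i, Bd (F i)) :
    Bd fun ω => ∑ i ∈ s, F i ω := by
  classical
  induction s using Finset.induction_on with
  | empty => simpa using flip_Bd_const (Ω := Ω) 0
  | insert a s ha ih => simpa only [sum_insert ha] using flip_Bd_add (hF a) ih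

theorem flip_Bd_exp {F : Ω → ℂ} (hF : Bd F) : Bd fun ω => cexp (F ω) := by
  obtain ⟨h1, C, h2⟩ := hF
  exact ⟨h1.cexp, Real.exp C, fun ω => (norm_exp_le_exp_norm _).trans
    (Real.exp_le_exp.2 (h2 ω))⟩

end bd

/-- The one-dimensional factor of a moment. -/
noncomputable def flipI (D k t u mm ll j : ℕ) (τ : ℂ) : ℂ :=
  ∫ θ, lamf D k t u (E θ) ^ j * (dens D k (E θ) * (E θ ^ mm / Af D k (E θ) ^ ll) *
    cexp (τ * E θ)) ∂ang

theorem flip_I_neg {D k t u mm ll j : ℕ} (hk : kap D k * (1 + 1) < 1) (h : D + t * j = ll + u * j)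
    (τ : ℂ) : (-1) ^ k * (-1) ^ mm * flipI D k t u mm ll j (-τ) = flipI D k t u mm ll j τ := by
  have key : ∀ τ : ℂ, flipI D k t u mm ll j τ = ∫ θ, (fun w : ℂ =>
      (1 + ((u : ℂ) - t) * (kap D k : ℂ) * (w ^ 2 - 1) / 2) ^ j * (w ^ mm / w ^ k) *
        cexp (τ * w) / (Bn D k : ℂ)) (E θ) ∂ang := by
    intro τ
    refine integral_congr_ae (.of_forall fun θ => ?_)
    have hA : Af D k (E θ) ≠ 0 := Af_ne_of_norm (R := 1) (norm_E θ).le hk
    have e : Af D k (E θ) ^ D * Af D k (E θ) ^ (t * j) =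
        Af D k (E θ) ^ ll * Af D k (E θ) ^ (u * j) := by rw [← pow_add, h, pow_add]
    have e' : Af D k (E θ) ^ (t * j) / Af D k (E θ) ^ (u * j) *
        (Af D k (E θ) ^ D / Af D k (E θ) ^ ll) = 1 := by
      field_simp
      linear_combination e
    simp only [lamf, dens, div_pow, mul_pow, ← pow_mul]
    linear_combination ((1 + ((u : ℂ) - t) * (kap D k : ℂ) * (E θ ^ 2 - 1) / 2) ^ j *
      (E θ ^ mm / E θ ^ k) * cexp (τ * E θ) / (Bn D k : ℂ)) * e'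
  rw [key, key, ← int_neg (fun w : ℂ =>
      (1 + ((u : ℂ) - t) * (kap D k : ℂ) * (w ^ 2 - 1) / 2) ^ j * (w ^ mm / w ^ k) *
        cexp (-τ * w) / (Bn D k : ℂ)), ← integral_const_mul]
  refine integral_congr_ae (.of_forall fun θ => ?_)
  have h1 : ((-1 : ℂ) ^ k) * (-1) ^ k = 1 := by rw [← mul_pow]; simp
  have h2 : ((-1 : ℂ) ^ mm) * (-1) ^ mm = 1 := by rw [← mul_pow]; simp
  have h3 : (-E θ) ^ mm / (-E θ) ^ k = (-1) ^ k * (-1) ^ mm * (E θ ^ mm / E θ ^ k) := by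
    have := pow_ne_zero k (E_ne θ)
    have h0 : ((-1 : ℂ) ^ k) ≠ 0 := pow_ne_zero _ (by norm_num)
    rw [neg_pow (E θ) mm, neg_pow (E θ) k]
    field_simp
    linear_combination (-E θ ^ mm) * h1
  simp only [neg_sq, neg_mul_neg, h3]
  linear_combination ((1 + ((u : ℂ) - t) * (kap D k : ℂ) * (E θ ^ 2 - 1) / 2) ^ j *
    (E θ ^ mm / E θ ^ k) * cexp (τ * E θ) / (Bn D k : ℂ)) * ((-1) ^ mm * (-1) ^ mm * h1 + h2)

theorem flip_Mom {P : Par} (hP : P.Ok) (m : Bool × Bool × Bool → ℕ) (l : Fin 3 → ℂ) :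
    Mom ang3 (fun θ => P.rho (pt 1 θ)) (fun σ θ => P.ff σ (pt 1 θ)) (fun i θ => P.ss i (pt 1 θ))
      m l = if ∑ σ, σ.1.toNat * m σ ≤ P.d then
        (∏ σ, (P.cc σ : ℂ) ^ m σ) / (Bn P.N P.d : ℂ) *
          ((l 0 * sc P.N P.N P.d) ^ (P.d - ∑ σ, σ.1.toNat * m σ) /
            ((P.d - ∑ σ, σ.1.toNat * m σ).factorial : ℂ)) *
          (flipI P.D1 P.k P.t1 P.u1 (∑ σ, σ.2.1.toNat * m σ) (∑ σ, P.al1 σ.1 * m σ)
              (P.d - ∑ σ, σ.1.toNat * m σ) (l 1 * sc P.N P.D1 P.k) *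
            flipI P.D2 P.k P.t2 P.u2 (∑ σ, σ.2.2.toNat * m σ) (∑ σ, P.al2 σ.1 * m σ)
              (P.d - ∑ σ, σ.1.toNat * m σ) (l 2 * sc P.N P.D2 P.k))
      else 0 := by
  have hint : Integrable (fun θ => P.rho (pt 1 θ) * (∏ σ, P.ff σ (pt 1 θ) ^ m σ) *
      cexp (∑ i, l i * P.ss i (pt 1 θ))) (ang.prod (ang.prod ang)) :=
    ((P.Bd_rho.mul (flip_Bd_prod _ fun σ => flip_Bd_pow
      (P.Bd_ff zero_le_one hP.kapR1 hP.kapR2 σ) _)).mul (flip_Bd_exp (flip_Bd_sum _ fun i =>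
      (flip_Bd_const _).mul (P.Bd_ss zero_le_one hP.kapR1 hP.kapR2 i)))).integrable _
  rw [Mom, ang3, integral_prod_symm _ hint]
  set m0 := ∑ σ, σ.1.toNat * m σ with hm0
  set m1 := ∑ σ, σ.2.1.toNat * m σ with hm1
  set m2 := ∑ σ, σ.2.2.toNat * m σ with hm2
  set l1 := ∑ σ, P.al1 σ.1 * m σ with hl1
  set l2 := ∑ σ, P.al2 σ.1 * m σ with hl2
  set c := (∏ σ, (P.cc σ : ℂ) ^ m σ) / (Bn P.N P.d : ℂ) with hc
  have inner : ∀ y : ℝ × ℝ, ∫ x, P.rho (pt 1 (x, y)) * (∏ σ, P.ff σ (pt 1 (x, y)) ^ m σ) *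
      cexp (∑ i, l i * P.ss i (pt 1 (x, y))) ∂ang =
      c * ((dens P.D1 P.k (E y.1) * (E y.1 ^ m1 / Af P.D1 P.k (E y.1) ^ l1) *
        cexp (l 1 * sc P.N P.D1 P.k * E y.1)) *
        (dens P.D2 P.k (E y.2) * (E y.2 ^ m2 / Af P.D2 P.k (E y.2) ^ l2) *
        cexp (l 2 * sc P.N P.D2 P.k * E y.2))) *
      if m0 ≤ P.d then (l 0 * sc P.N P.N P.d * lamf P.D1 P.k P.t1 P.u1 (E y.1) *
        lamf P.D2 P.k P.t2 P.u2 (E y.2)) ^ (P.d - m0) / ((P.d - m0).factorial : ℂ) else 0 := by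
    intro y
    rw [← int_exp, ← integral_const_mul]
    refine integral_congr_ae (.of_forall fun x => ?_)
    simp only [Par.prod_ff, ← hm0, ← hm1, ← hm2, ← hl1, ← hl2, Fin.sum_univ_three, Par.ss,
      Par.rho, pt, ofReal_one, one_mul, Matrix.cons_val_zero, Matrix.cons_val_one,
      Matrix.cons_val, exp_add, hc]
    rw [show l 0 * (↑(sc P.N P.N P.d) * E x * lamf P.D1 P.k P.t1 P.u1 (E y.1) *
      lamf P.D2 P.k P.t2 P.u2 (E y.2)) = l 0 * sc P.N P.N P.d * lamf P.D1 P.k P.t1 P.u1 (E y.1) *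
      lamf P.D2 P.k P.t2 P.u2 (E y.2) * E x by ring, ← mul_assoc (l 1), ← mul_assoc (l 2)]
    ring
  simp only [inner]
  split_ifs with h
  · rw [flipI, flipI, ← integral_prod_mul, ← integral_const_mul]
    refine integral_congr_ae (.of_forall fun y => ?_)
    simp only [mul_pow]
    ring
  · simp

theorem flip_sign (f : Bool × Bool × Bool → ℕ) (m : Bool × Bool × Bool → ℕ) :
    ∏ σ, ((-1 : ℂ) ^ f σ) ^ m σ = (-1) ^ ∑ σ, f σ * m σ := by
  simp only [← pow_mul, prod_pow_eq_pow_sum]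

theorem flip_sq (a : ℕ) : ((-1 : ℂ) ^ a) * (-1) ^ a = 1 := by rw [← mul_pow]; simp

theorem flip_exp {t u N d m0 : ℕ} (h1 : m0 ≤ d) (h2 : d ≤ N) :
    t * (N - d) + u * d + t * (d - m0) = t * (N - m0) + u * m0 + u * (d - m0) := by
  obtain ⟨a, rfl⟩ := Nat.exists_eq_add_of_le h1
  obtain ⟨b, rfl⟩ := Nat.exists_eq_add_of_le h2
  rw [Nat.add_sub_cancel_left, Nat.add_sub_cancel_left, add_assoc m0, Nat.add_sub_cancel_left]
  ring

theorem Jfull_flip {P : Par} (hP : P.Ok) (hd : Even (P.n * P.d)) (hk : Even (P.n * P.k))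
    (i : Fin 3) (γ : Fin 3 → ℝ) : P.Jfull (Function.update γ i (-γ i)) = P.Jfull γ := by
  have hf := P.Bd_ff zero_le_one hP.kapR1 hP.kapR2
  have hs := P.Bd_ss zero_le_one hP.kapR1 hP.kapR2
  have hdN : P.d ≤ P.N := by have := hP.dN'; omega
  have u1 : ((-1 : ℂ) ^ P.d) ^ P.n = 1 := by rw [← pow_mul, mul_comm, hd.neg_one_pow]
  have u2 : ((-1 : ℂ) ^ P.k) ^ P.n = 1 := by rw [← pow_mul, mul_comm, hk.neg_one_pow]
  unfold Par.Jfull
  fin_cases i
  · refine JJ_flip ang3 P.n P.Bd_rho hf hs 0 _ u1 (fun σ => (-1) ^ σ.1.toNat)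
      (fun σ => flip_sq _) (fun m _ l => ?_) γ
    rw [flip_Mom hP, flip_Mom hP, flip_sign]
    split_ifs with h
    · obtain ⟨j, hj⟩ := Nat.exists_eq_add_of_le h
      have e : P.d - ∑ σ, σ.1.toNat * m σ = j := by omega
      rw [e, Function.update_self, Function.update_of_ne (by decide),
        Function.update_of_ne (by decide), neg_mul, neg_pow _ j]
      have e2 : ((-1 : ℂ) ^ P.d) * (-1) ^ (∑ σ, σ.1.toNat * m σ) * (-1) ^ j = 1 := by
        rw [mul_assoc, ← pow_add, ← hj, flip_sq]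
      linear_combination ((∏ σ, (P.cc σ : ℂ) ^ m σ) / (Bn P.N P.d : ℂ) *
        ((l 0 * sc P.N P.N P.d) ^ j / (j.factorial : ℂ)) *
        (flipI P.D1 P.k P.t1 P.u1 (∑ σ, σ.2.1.toNat * m σ) (∑ σ, P.al1 σ.1 * m σ) j
          (l 1 * sc P.N P.D1 P.k) *
        flipI P.D2 P.k P.t2 P.u2 (∑ σ, σ.2.2.toNat * m σ) (∑ σ, P.al2 σ.1 * m σ) j
          (l 2 * sc P.N P.D2 P.k))) * e2
    · simp
  · refine JJ_flip ang3 P.n P.Bd_rho hf hs 1 _ u2 (fun σ => (-1) ^ σ.2.1.toNat)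
      (fun σ => flip_sq _) (fun m hm l => ?_) γ
    rw [flip_Mom hP, flip_Mom hP, flip_sign]
    split_ifs with h
    · rw [Function.update_self, Function.update_of_ne (by decide),
        Function.update_of_ne (by decide), neg_mul,
        ← flip_I_neg hP.kapR1 (by rw [(P.sum_al1 hm).2]; exact flip_exp h hdN)
          (l 1 * sc P.N P.D1 P.k)]
      ring
    · simp
  · refine JJ_flip ang3 P.n P.Bd_rho hf hs 2 _ u2 (fun σ => (-1) ^ σ.2.2.toNat)
      (fun σ => flip_sq _) (fun m hm l => ?_) γ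
    rw [flip_Mom hP, flip_Mom hP, flip_sign]
    split_ifs with h
    · rw [Function.update_self, Function.update_of_ne (by decide),
        Function.update_of_ne (by decide), neg_mul,
        ← flip_I_neg hP.kapR2 (by rw [P.sum_al2 hm]; exact flip_exp h hdN)
          (l 2 * sc P.N P.D2 P.k)]
      ring
    · simp

end Pool.Agent.Lib.MP_d20c4f_pr.H53
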