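import Pool.Agent.Lib.MP_d20c4f_pr.H53Basic
import Pool.Agent.Lib.MP_d20c4f_pr.Graphs

/-!
One jump of the coupling, and composition of couplings.
-/

namespace Pool.Agent.Lib.MP_d20c4f_pr.H53

open MeasureTheory Complex Finset

theorem cpl_mono {X : Type} [Fintype X] {A B : Finset X} {r : X → X → Prop} {ε ε' : ℝ}
    (h : Cpl A B r ε) (hε : ε ≤ ε') : Cpl A B r ε' := by
  obtain ⟨h0, μ, h1, h2, h3, h4⟩ := h
  exact ⟨h0, μ, h1, h2, h3, by linarith⟩

open Classical in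
theorem jump_su {X : Type} [Fintype X] {A : Finset X} (hA : A.Nonempty) :
    ∑ x, (if x ∈ A then (A.card : ℝ)⁻¹ else 0) = 1 := by
  rw [← sum_filter, filter_mem_eq_inter, univ_inter, sum_const, nsmul_eq_mul, mul_inv_cancel₀]
  exact_mod_cast hA.card_pos.ne'

theorem cpl_refl {X : Type} [Fintype X] [Preorder X] {A : Finset X} (h : A.Nonempty) :
    Cpl A A (· ≤ ·) 0 := by
  classical
  refine ⟨h, fun x y => if x = y then (if x ∈ A then (A.card : ℝ)⁻¹ else 0) else 0,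
    fun x y => by positivity, fun x => by simp, fun y => by simp, ?_⟩
  rw [sub_zero, ← jump_su h]
  refine sum_le_sum fun x _ => ?_
  refine le_trans ?_ (single_le_sum (fun y _ => by positivity) (mem_univ x))
  simp

theorem cpl_trans {X : Type} [Fintype X] [Preorder X] {A B C : Finset X} {ε ε' : ℝ}
    (h : Cpl A B (· ≤ ·) ε) (h' : Cpl B C (· ≤ ·) ε') : Cpl A C (· ≤ ·) (ε + ε') := by
  classical
  obtain ⟨hA, μ, a1, a2, a3, a4⟩ := h
  obtain ⟨hB, ν, b1, b2, b3, b4⟩ := h'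
  have hc : (B.card : ℝ) ≠ 0 := by exact_mod_cast hB.card_pos.ne'
  have k1 : ∀ x y, ∑ z, μ x y * ν y z * B.card = μ x y := by
    intro x y
    rw [← sum_mul, ← mul_sum, b2]
    split_ifs with hy
    · rw [mul_assoc, inv_mul_cancel₀ hc, mul_one]
    · have := a3 y
      rw [if_neg hy, sum_eq_zero_iff_of_nonneg fun x _ => a1 x y] at this
      simp [this x]
  have k2 : ∀ y z, ∑ x, μ x y * ν y z * B.card = ν y z := by
    intro y z
    rw [← sum_mul, ← sum_mul, a3]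
    split_ifs with hy
    · rw [mul_right_comm, inv_mul_cancel₀ hc, one_mul]
    · have := b2 y
      rw [if_neg hy, sum_eq_zero_iff_of_nonneg fun z _ => b1 y z] at this
      simp [this z]
  have n0 : ∀ x y z, 0 ≤ μ x y * ν y z * B.card := fun x y z => by
    have := a1 x y; have := b1 y z; positivity
  refine ⟨hA, fun x z => ∑ y, μ x y * ν y z * B.card, fun x z => sum_nonneg fun y _ => n0 x y z,
    fun x => ?_, fun z => ?_, ?_⟩
  · rw [sum_comm, ← a2]; exact sum_congr rfl fun y _ => k1 x y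
  · rw [sum_comm, ← b3]; exact sum_congr rfl fun y _ => k2 y z
  · have t0 : ∑ x, ∑ y, ∑ z, μ x y * ν y z * B.card = 1 := by
      simp only [k1, a2]; convert jump_su hA
    have t1 : (∑ x, ∑ y, if x ≤ y then μ x y else 0) =
        ∑ x, ∑ y, ∑ z, if x ≤ y then μ x y * ν y z * B.card else 0 := by
      refine sum_congr rfl fun x _ => sum_congr rfl fun y _ => ?_
      split_ifs <;> simp [k1]
    have t2 : (∑ y, ∑ z, if y ≤ z then ν y z else 0) =
        ∑ x, ∑ y, ∑ z, if y ≤ z then μ x y * ν y z * B.card else 0 := by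
      rw [sum_comm (f := fun x y => ∑ z, if y ≤ z then μ x y * ν y z * B.card else 0)]
      refine sum_congr rfl fun y _ => ?_
      rw [sum_comm]
      refine sum_congr rfl fun z _ => ?_
      split_ifs <;> simp [k2]
    have t3 : (∑ x, ∑ y, ∑ z, if x ≤ y then μ x y * ν y z * B.card else 0) +
        (∑ x, ∑ y, ∑ z, if y ≤ z then μ x y * ν y z * B.card else 0) -
        ∑ x, ∑ y, ∑ z, μ x y * ν y z * B.card ≤
        ∑ x, ∑ z, if x ≤ z then ∑ y, μ x y * ν y z * B.card else 0 := by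
      rw [← sum_add_distrib, ← sum_sub_distrib]
      refine sum_le_sum fun x _ => ?_
      have : (∑ z, if x ≤ z then ∑ y, μ x y * ν y z * B.card else 0) =
          ∑ y, ∑ z, if x ≤ z then μ x y * ν y z * B.card else 0 := by
        rw [sum_comm]
        refine sum_congr rfl fun z _ => ?_
        split_ifs <;> simp
      rw [this, ← sum_add_distrib, ← sum_sub_distrib]
      refine sum_le_sum fun y _ => ?_
      rw [← sum_add_distrib, ← sum_sub_distrib]
      refine sum_le_sum fun z _ => ?_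
      have := n0 x y z
      split_ifs with h1 h2 h3 <;> first | linarith | exact absurd (h1.trans h2) h3
    rw [← t1, ← t2, t0] at t3
    linarith

theorem jump_cs {X : Type} (A : Finset X) (a : X → ℝ) {c : ℝ} (hc : 0 ≤ c)
    (hZ : 0 < ∑ x ∈ A, a x)
    (h : A.card * ∑ x ∈ A, a x ^ 2 ≤ (1 + c ^ 2) * (∑ x ∈ A, a x) ^ 2) :
    ∑ x ∈ A, |a x - (∑ x ∈ A, a x) / A.card| ≤ c * ∑ x ∈ A, a x := by
  have hg : (0 : ℝ) < A.card := by exact_mod_cast (nonempty_of_sum_ne_zero hZ.ne').card_pos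
  set Z := ∑ x ∈ A, a x with hZd
  refine abs_le_of_sq_le_sq' (sq_sum_le_card_mul_sum_sq.trans ?_) (by positivity) |>.2
  simp only [sq_abs, sub_sq, sum_add_distrib, sum_sub_distrib, sum_const, nsmul_eq_mul]
  rw [← sum_mul, ← mul_sum, ← hZd]
  have h3 : (A.card : ℝ) * (∑ x ∈ A, a x ^ 2 - 2 * Z * (Z / A.card) +
      A.card * (Z / A.card) ^ 2) = A.card * ∑ x ∈ A, a x ^ 2 - Z ^ 2 := by
    field_simp
    ring
  rw [h3]
  nlinarith

theorem jump_mem {n k : ℕ} {G : SimpleGraph (Fin n)} :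
    G ∈ Reg n k ↔ ∀ v, (G.neighborSet v).ncard = k := by
  simp [Reg]

theorem jump_RG (n k : ℕ) : RG (Fin n) k = Reg n k := by
  ext G; rw [mem_RG, jump_mem]

theorem jump_compl {n k : ℕ} {G : SimpleGraph (Fin n)} (h : G ∈ Reg n k) :
    Gᶜ ∈ Reg n (n - 1 - k) := by
  rw [jump_mem] at h ⊢
  intro v
  rw [SimpleGraph.neighborSet_compl, Set.ncard_sdiff_singleton_of_mem (by simp),
    Set.ncard_compl, h, Nat.card_eq_fintype_card, Fintype.card_fin]
  omega

theorem jump_sdiff {n a b : ℕ} {G H : SimpleGraph (Fin n)} (hG : G ∈ Reg n a)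
    (hH : H ∈ Reg n (a + b)) (h : G ≤ H) : H \ G ∈ Reg n b := by
  rw [jump_mem] at hG hH ⊢
  intro v
  rw [SimpleGraph.neighborSet_sdiff, Set.ncard_sdiff (SimpleGraph.neighborSet_mono h v), hG, hH]
  omega

theorem jump_sup {n a b : ℕ} {G F : SimpleGraph (Fin n)} (hG : G ∈ Reg n a)
    (hF : F ∈ Reg n b) (h : F ≤ Gᶜ) : G ⊔ F ∈ Reg n (a + b) := by
  rw [jump_mem] at hG hF ⊢
  intro v
  have : Disjoint (G.neighborSet v) (F.neighborSet v) :=
    Set.disjoint_left.2 fun w h1 h2 => (h h2).2 h1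
  rw [SimpleGraph.neighborSet_sup, Set.ncard_union_eq this, hG, hF]

theorem jump_sum {n e : ℕ} (he : e ≤ n - 1) (f : SimpleGraph (Fin n) → ℝ) :
    ∑ G ∈ Reg n e, f Gᶜ = ∑ G ∈ Reg n (n - 1 - e), f G :=
  sum_nbij' compl compl (fun G hG => jump_compl hG)
    (fun G hG => by simpa [Nat.sub_sub_self he] using jump_compl hG) (by simp) (by simp) (by simp)

theorem jump {n e k : ℕ} {c : ℝ} (hc : 0 ≤ c) (he : e + k ≤ n - 1)
    (h0 : (0 : ℝ) < ∑ H ∈ Reg n (e + k), (Xf k H : ℝ))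
    (h1 : (Reg n (e + k)).card * ∑ H ∈ Reg n (e + k), (Xf k H : ℝ) ^ 2 ≤
      (1 + c ^ 2) * (∑ H ∈ Reg n (e + k), (Xf k H : ℝ)) ^ 2)
    (h2 : (Reg n (n - 1 - e)).card * ∑ H ∈ Reg n (n - 1 - e), (Xf k H : ℝ) ^ 2 ≤
      (1 + c ^ 2) * (∑ H ∈ Reg n (n - 1 - e), (Xf k H : ℝ)) ^ 2) :
    Cpl (RG (Fin n) e) (RG (Fin n) (e + k)) (· ≤ ·) (2 * c) := by
  classical
  rw [jump_RG, jump_RG]
  set T := (Reg n e ×ˢ Reg n (e + k)).filter fun p => p.1 ≤ p.2 with hT
  have mT : ∀ p, p ∈ T ↔ p.1 ∈ Reg n e ∧ p.2 ∈ Reg n (e + k) ∧ p.1 ≤ p.2 := fun p => by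
    simp [hT, and_assoc]
  have f1 : ∀ G ∈ Reg n e, ∑ _j ∈ T.filter fun j => j.1 = G, (1 : ℝ) = Xf k Gᶜ := by
    intro G hG
    rw [sum_const, nsmul_one, Xf, Nat.cast_inj]
    refine card_nbij' (fun j => j.2 \ G) (fun F => (G, G ⊔ F)) ?_ ?_ ?_ ?_
    · rintro ⟨G', H⟩ hj
      simp only [coe_filter, mT, Set.mem_ofPred_eq] at hj ⊢
      obtain ⟨⟨-, b, d⟩, rfl⟩ := hj
      exact ⟨jump_sdiff hG b d, by rw [sdiff_eq]; exact inf_le_right⟩
    · intro F hF
      simp only [coe_filter, mT, Set.mem_ofPred_eq] at hF ⊢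
      exact ⟨⟨hG, jump_sup hG hF.1 hF.2, le_sup_left⟩, trivial⟩
    · rintro ⟨G', H⟩ hj
      simp only [coe_filter, mT, Set.mem_ofPred_eq] at hj ⊢
      obtain ⟨⟨-, b, d⟩, rfl⟩ := hj
      rw [sup_sdiff_cancel_right d]
    · intro F hF
      simp only [coe_filter, Set.mem_ofPred_eq] at hF ⊢
      rw [sup_sdiff_left_self, sdiff_eq_left]
      exact le_compl_iff_disjoint_right.1 hF.2
  have f2 : ∀ H ∈ Reg n (e + k), ∑ _j ∈ T.filter fun j => j.2 = H, (1 : ℝ) = Xf k H := by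
    intro H hH
    rw [sum_const, nsmul_one, Xf, Nat.cast_inj]
    refine card_nbij' (fun j => H \ j.1) (fun F => (H \ F, H)) ?_ ?_ ?_ ?_
    · rintro ⟨G, H'⟩ hj
      simp only [coe_filter, mT, Set.mem_ofPred_eq] at hj ⊢
      obtain ⟨⟨a, -, d⟩, rfl⟩ := hj
      exact ⟨jump_sdiff a hH d, sdiff_le⟩
    · intro F hF
      simp only [coe_filter, mT, Set.mem_ofPred_eq] at hF ⊢
      exact ⟨⟨jump_sdiff hF.1 (by rwa [add_comm]) hF.2, hH, sdiff_le⟩, trivial⟩
    · rintro ⟨G, H'⟩ hj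
      simp only [coe_filter, mT, Set.mem_ofPred_eq] at hj ⊢
      obtain ⟨⟨-, -, d⟩, rfl⟩ := hj
      rw [_root_.sdiff_sdiff_eq_self d]
    · intro F hF
      simp only [coe_filter, Set.mem_ofPred_eq] at hF ⊢
      exact _root_.sdiff_sdiff_eq_self hF.2
  have z1 : ∑ _j ∈ T, (1 : ℝ) = ∑ G ∈ Reg n e, (Xf k Gᶜ : ℝ) := by
    rw [← sum_fiberwise_of_maps_to (g := Prod.fst) fun j hj => ((mT j).1 hj).1]
    exact sum_congr rfl f1
  have z2 : ∑ _j ∈ T, (1 : ℝ) = ∑ H ∈ Reg n (e + k), (Xf k H : ℝ) := by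
    rw [← sum_fiberwise_of_maps_to (g := Prod.snd) fun j hj => ((mT j).1 hj).2.1]
    exact sum_congr rfl f2
  have he' : e ≤ n - 1 := by omega
  refine cpl_of_weights _ _ _ T (fun _ => 1) Prod.fst Prod.snd (fun _ _ => zero_le_one)
    (z2 ▸ h0) (fun j hj => (mT j).1 hj) ?_ ?_
  · have := jump_cs (Reg n e) (fun G => (Xf k Gᶜ : ℝ)) hc (z1 ▸ z2 ▸ h0) (by
      have c1 := jump_sum he' fun _ => 1
      simp only [sum_const, nsmul_one] at c1
      rw [c1, jump_sum he' fun G => (Xf k G : ℝ), jump_sum he' fun G => (Xf k G : ℝ) ^ 2]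
      exact h2)
    rw [z1]
    refine le_trans (le_of_eq (sum_congr rfl fun G hG => ?_)) this
    rw [← f1 G hG]
  · have := jump_cs (Reg n (e + k)) (fun G => (Xf k G : ℝ)) hc h0 h1
    rw [z2]
    refine le_trans (le_of_eq (sum_congr rfl fun G hG => ?_)) this
    rw [← f2 G hG]

end Pool.Agent.Lib.MP_d20c4f_pr.H53
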