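import Pool.Agent.Lib.MP_d20c4f_pr.H53Box
import Pool.Agent.Lib.MP_d20c4f_pr.H53Crude
import Pool.Agent.Lib.MP_d20c4f_pr.H53Flip
import Pool.Agent.Lib.MP_d20c4f_pr.H53Count

/-!
The asymptotic formula.
-/

namespace Pool.Agent.Lib.MP_d20c4f_pr.H53

open MeasureTheory Complex Finset

theorem main_abs {ι V : Type} [Fintype ι] [DecidableEq ι] (F : (ι → ℝ) → V)
    (h : ∀ i γ, F (Function.update γ i (-γ i)) = F γ) (γ : ι → ℝ) : F (fun i => |γ i|) = F γ := by
  have key : ∀ s : Finset ι, F (fun i => if i ∈ s then |γ i| else γ i) = F γ := by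
    intro s
    induction s using Finset.induction_on with
    | empty => simp
    | insert j s hj ih =>
      rcases abs_choice (γ j) with h1 | h1
      · rw [← ih]
        congr 1
        funext i
        by_cases hi : i = j
        · simp [hi, h1]
        · simp [hi]
      · rw [← ih, ← h j fun i => if i ∈ s then |γ i| else γ i]
        congr 1
        funext i
        by_cases hi : i = j
        · simp [hi, h1, hj]
        · simp [hi]
  simpa using key univ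

theorem main_gauss {b : ℝ} (hb : 0 < b) (c : ℝ) :
    Integrable (fun x : ℝ => Real.exp (-b * (x - c) ^ 2)) ∧
      ∫ x : ℝ, Real.exp (-b * (x - c) ^ 2) = √(Real.pi / b) :=
  ⟨(integrable_exp_neg_mul_sq hb).comp_sub_right c, by
    rw [integral_sub_right_eq_self (fun x : ℝ => Real.exp (-b * x ^ 2)) c, integral_gaussian]⟩

theorem main_one {b c : ℝ} (hb : 0 < b) (hc : 0 ≤ c) :
    Integrable (fun x : ℝ => Real.exp (-b * (|x| - c) ^ 2)) ∧
      ∫ x : ℝ, Real.exp (-b * (|x| - c) ^ 2) ≤ 2 * √(Real.pi / b) ∧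
      2 * √(Real.pi / b) - Real.exp (-b * c ^ 2) * √(Real.pi / b) ≤
        ∫ x : ℝ, Real.exp (-b * (|x| - c) ^ 2) := by
  obtain ⟨i1, e1⟩ := main_gauss hb c
  obtain ⟨i2, e2⟩ := main_gauss hb (-c)
  obtain ⟨i3, e3⟩ := main_gauss hb 0
  have h1 : ∀ x : ℝ, Real.exp (-b * (|x| - c) ^ 2) + Real.exp (-b * (|x| + c) ^ 2) =
      Real.exp (-b * (x - c) ^ 2) + Real.exp (-b * (x - -c) ^ 2) := fun x => by
    rcases abs_choice x with h | h <;> rw [h]
    · simp
    · rw [add_comm]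
      congr 2 <;> ring
  have h2 : ∀ x : ℝ, Real.exp (-b * (|x| + c) ^ 2) ≤
      Real.exp (-b * c ^ 2) * Real.exp (-b * (x - 0) ^ 2) := fun x => by
    rw [← Real.exp_add, Real.exp_le_exp, sub_zero, ← sq_abs x]
    nlinarith [mul_nonneg hb.le (mul_nonneg hc (abs_nonneg x))]
  have h3 : ∀ x : ℝ, Real.exp (-b * (|x| - c) ^ 2) ≤
      Real.exp (-b * (x - c) ^ 2) + Real.exp (-b * (x - -c) ^ 2) := fun x => by
    rw [← h1]
    exact le_add_of_nonneg_right (Real.exp_pos _).le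
  have i4 : Integrable (fun x : ℝ => Real.exp (-b * (|x| - c) ^ 2)) :=
    (i1.add i2).mono' (Continuous.aestronglyMeasurable (by fun_prop))
      (.of_forall fun x => by rw [Real.norm_of_nonneg (Real.exp_pos _).le]; exact h3 x)
  refine ⟨i4, (integral_mono i4 (i1.add i2) h3).trans (by rw [integral_add' i1 i2, e1, e2]; linarith), ?_⟩
  have := integral_mono ((i1.add i2).sub (i3.const_mul (Real.exp (-b * c ^ 2)))) i4 fun x => by
    have := h1 x
    have := h2 x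
    simp only [Pi.sub_apply, Pi.add_apply]
    linarith
  rw [integral_sub' (i1.add i2) (i3.const_mul _), integral_add' i1 i2, integral_const_mul, e1, e2,
    e3] at this
  linarith

theorem main_three {b : ℝ} (hb : 0 < b) {c : Fin 3 → ℝ} {y : ℝ} (hc : ∀ i, 0 ≤ c i)
    (hy : ∀ i, Real.exp (-b * c i ^ 2) ≤ y) :
    Integrable (fun γ : Fin 3 → ℝ => Real.exp (-b * ∑ i, (|γ i| - c i) ^ 2)) ∧
      |(∫ γ : Fin 3 → ℝ, Real.exp (-b * ∑ i, (|γ i| - c i) ^ 2)) - (2 * √(Real.pi / b)) ^ 3| ≤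
        12 * y * √(Real.pi / b) ^ 3 ∧
      ∫ γ : Fin 3 → ℝ, Real.exp (-b * ∑ i, (|γ i| - c i) ^ 2) ≤ (2 * √(Real.pi / b)) ^ 3 := by
  simp only [mul_sum, Real.exp_sum]
  refine ⟨Integrable.fintype_prod (f := fun i x => Real.exp (-b * (|x| - c i) ^ 2))
    fun i => (main_one hb (hc i)).1, ?_⟩
  rw [integral_fintype_prod_volume_eq_prod (fun i x => Real.exp (-b * (|x| - c i) ^ 2)),
    Fin.prod_univ_three]
  set r := √(Real.pi / b) with hr
  have r0 : 0 ≤ r := Real.sqrt_nonneg _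
  have h : ∀ i, 0 ≤ ∫ x : ℝ, Real.exp (-b * (|x| - c i) ^ 2) ∧
      ∫ x : ℝ, Real.exp (-b * (|x| - c i) ^ 2) ≤ 2 * r ∧
      2 * r - ∫ x : ℝ, Real.exp (-b * (|x| - c i) ^ 2) ≤ y * r := fun i => by
    obtain ⟨-, h1, h2⟩ := main_one hb (hc i)
    exact ⟨integral_nonneg fun x => (Real.exp_pos _).le, h1,
      by linarith [mul_le_mul_of_nonneg_right (hy i) r0]⟩
  obtain ⟨a0, a1, a2⟩ := h 0
  obtain ⟨b0, b1, b2⟩ := h 1
  obtain ⟨c0, c1, c2⟩ := h 2
  generalize ∫ x : ℝ, Real.exp (-b * (|x| - c 0) ^ 2) = u at *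
  generalize ∫ x : ℝ, Real.exp (-b * (|x| - c 1) ^ 2) = v at *
  generalize ∫ x : ℝ, Real.exp (-b * (|x| - c 2) ^ 2) = w at *
  have y0 : 0 ≤ y * r := by linarith
  have p1 : u * v * w ≤ (2 * r) ^ 3 := by
    rw [show (2 * r) ^ 3 = 2 * r * (2 * r) * (2 * r) by ring]
    gcongr
  refine ⟨?_, p1⟩
  rw [abs_sub_comm, abs_of_nonneg (sub_nonneg.2 p1)]
  calc (2 * r) ^ 3 - u * v * w = (2 * r - u) * (2 * r) * (2 * r) + u * (2 * r - v) * (2 * r) +
        u * v * (2 * r - w) := by ring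
    _ ≤ y * r * (2 * r) * (2 * r) + 2 * r * (y * r) * (2 * r) + 2 * r * (2 * r) * (y * r) := by
        have := sub_nonneg.2 a1
        have := sub_nonneg.2 b1
        have := sub_nonneg.2 c1
        gcongr
    _ = _ := by ring

theorem main_exp {c x s : ℝ} (hc : 0 < c) (hs : 0 < s) (hx : s ≤ x) :
    Real.exp (-(c * x)) ≤ 1 / c / s := by
  have h1 : 0 < c * x := mul_pos hc (hs.trans_le hx)
  rw [Real.exp_neg, div_div, one_div]
  exact inv_anti₀ (by positivity) ((mul_le_mul_of_nonneg_left hx hc.le).trans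
    (by linarith [Real.add_one_le_exp (c * x)]))

theorem main_sqrt {P : Par} (hP : P.Ok) : √(P.d : ℝ) ≤ P.n := by
  have h1 : (1 : ℝ) ≤ P.d := by have := hP.d4; exact_mod_cast (by omega : 1 ≤ P.d)
  have h2 : (P.d : ℝ) ≤ P.n := by have := hP.dN; exact_mod_cast (by omega : P.d ≤ P.n)
  exact Real.sqrt_le_iff.2 ⟨by positivity, by nlinarith⟩

theorem main_point : ∃ κ0 C : ℝ, ∃ K D0 : ℕ, 0 < κ0 ∧ 0 < C ∧ ∀ P : Par, P.Ok → D0 ≤ P.d →
    (P.k ≤ 2 ∨ K ≤ P.k) → (P.k : ℝ) ≤ κ0 * P.d → ∀ γ : Fin 3 → ℝ, (∀ i, 0 ≤ γ i) →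
      ‖P.Jfull γ - (Real.exp (3 / 4 - ∑ i, P.gg γ i ^ 2) : ℝ)‖ ≤
        C / √P.d * Real.exp (-(1 / 16) * ∑ i, P.gg γ i ^ 2) := by
  obtain ⟨δ, ε1, κ1, C1, D1, hδ, hδ1, hε1, hκ1, hC1, hb⟩ := box_est
  obtain ⟨ε2, hε2, e1, e2⟩ : ∃ ε2 : ℝ, 0 < ε2 ∧ ε2 ≤ ε1 ∧ ε2 ≤ 1 :=
    ⟨min ε1 1, by positivity, min_le_left _ _, min_le_right _ _⟩
  obtain ⟨ε, hε, e3, e4⟩ : ∃ ε : ℝ, 0 < ε ∧ ε ≤ ε2 / 32 ∧ ε ≤ δ ^ 2 / 20 :=
    ⟨min (ε2 / 32) (δ ^ 2 / 20), by positivity, min_le_left _ _, min_le_right _ _⟩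
  obtain ⟨κ0, K, D0, hκ0, hc⟩ := crude hδ hδ1 hε
  refine ⟨min κ0 κ1, C1 + 1 / (δ ^ 2 / 20) + 1 / (ε2 / 32) + Real.exp (3 / 4) * (1 / (ε2 / 2)), K,
    max D0 D1, by positivity, by positivity, fun P hP hd hK hk γ hγ => ?_⟩
  have hd1 : (1 : ℝ) ≤ P.d := by have := hP.d4; exact_mod_cast (by omega : 1 ≤ P.d)
  have hs : (0 : ℝ) < √P.d := by positivity
  have hn := main_sqrt hP
  obtain ⟨c1, c2⟩ := hc P hP (by omega) hK (hk.trans (by gcongr; exact min_le_left _ _)) γ hγ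
  have hb' := hb P hP (by omega) (hk.trans (by gcongr; exact min_le_right _ _)) γ
  have hG : 0 ≤ ∑ i, P.gg γ i ^ 2 := by positivity
  generalize ∑ i, P.gg γ i ^ 2 = G at *
  have hn0 : (0 : ℝ) ≤ P.n := by positivity
  have x1 := main_exp (c := δ ^ 2 / 20) (by positivity) hs hn
  have x2 := main_exp (c := ε2 / 32) (by positivity) hs hn
  have x3 := main_exp (c := ε2 / 2) (by positivity) hs hn
  have p0 : 0 < Real.exp (-(1 / 16) * G) := Real.exp_pos _
  have q1 : 0 ≤ C1 / √P.d := by positivity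
  have q2 : 0 ≤ 1 / (δ ^ 2 / 20) / √P.d := by positivity
  have q3 : 0 ≤ 1 / (ε2 / 32) / √P.d := by positivity
  have q4 : 0 ≤ Real.exp (3 / 4) * (1 / (ε2 / 2) / √P.d) := by positivity
  rw [show (C1 + 1 / (δ ^ 2 / 20) + 1 / (ε2 / 32) + Real.exp (3 / 4) * (1 / (ε2 / 2))) / √P.d =
    C1 / √P.d + 1 / (δ ^ 2 / 20) / √P.d + 1 / (ε2 / 32) / √P.d +
      Real.exp (3 / 4) * (1 / (ε2 / 2) / √P.d) by ring]
  rcases le_or_gt G (ε2 * P.n) with h | h
  · have y1 := c2 (h.trans (by nlinarith))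
    have y2 := hb' (h.trans (by gcongr))
    have y3 : Real.exp (ε * P.n - δ ^ 2 * P.n / 10 - G / 8) ≤
        1 / (δ ^ 2 / 20) / √P.d * Real.exp (-(1 / 16) * G) := by
      refine le_trans ?_ (mul_le_mul_of_nonneg_right x1 p0.le)
      rw [← Real.exp_add, Real.exp_le_exp]
      nlinarith
    have y4 : C1 / √P.d * Real.exp (-G / 2) ≤ C1 / √P.d * Real.exp (-(1 / 16) * G) := by
      gcongr
      linarith
    have := norm_sub_le_norm_sub_add_norm_sub (P.Jfull γ) (P.Jbox δ γ)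
      ((Real.exp (3 / 4 - G) : ℝ) : ℂ)
    nlinarith
  · have y3 : Real.exp (ε * P.n - G / 8) ≤ 1 / (ε2 / 32) / √P.d * Real.exp (-(1 / 16) * G) := by
      refine le_trans ?_ (mul_le_mul_of_nonneg_right x2 p0.le)
      rw [← Real.exp_add, Real.exp_le_exp]
      nlinarith
    have y4 : Real.exp (3 / 4 - G) ≤
        Real.exp (3 / 4) * (1 / (ε2 / 2) / √P.d) * Real.exp (-(1 / 16) * G) := by
      refine le_trans ?_ (mul_le_mul_of_nonneg_right
        (mul_le_mul_of_nonneg_left x3 (Real.exp_pos _).le) p0.le)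
      rw [← Real.exp_add, ← Real.exp_add, Real.exp_le_exp]
      nlinarith
    have := norm_sub_le (P.Jfull γ) ((Real.exp (3 / 4 - G) : ℝ) : ℂ)
    rw [norm_real, Real.norm_of_nonneg (Real.exp_pos _).le] at this
    nlinarith

theorem main_sbar : ∃ D0 : ℕ, ∀ P : Par, P.Ok → D0 ≤ P.d → ∀ i, √P.n / 4 ≤ P.n * P.sbar i := by
  obtain ⟨L, D0, hL, h⟩ := sbar_close
  obtain ⟨D1, hD1⟩ := exists_nat_ge ((4 * L) ^ 2)
  refine ⟨max D0 D1, fun P hP hd i => ?_⟩
  have hn0 : (0 : ℝ) < P.n := by have := hP.dN; exact_mod_cast (by omega : 0 < P.n)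
  have hN0 : (0 : ℝ) < P.N := by have := hP.dN'; have := hP.d4; exact_mod_cast (by omega : 0 < P.N)
  have hNn : (P.N : ℝ) ≤ P.n := by have := hP.n_eq; exact_mod_cast (by omega : P.N ≤ P.n)
  have hsn : 0 < √(P.n : ℝ) := Real.sqrt_pos.2 hn0
  have h1 : 4 * L ≤ √P.d := Real.le_sqrt_of_sq_le (hD1.trans (by exact_mod_cast (by omega : D1 ≤ P.d)))
  have h2 : ∀ D k : ℕ, 1 ≤ k → 2 * k ≤ D → 1 / 2 / √P.n ≤ sc P.N D k := fun D k hk hD => by
    refine Real.le_sqrt_of_sq_le ?_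
    have h3 := (lam_bounds hk hD).1
    have h4 : (1 : ℝ) ≤ k := by exact_mod_cast hk
    rw [div_pow, Real.sq_sqrt hn0.le]
    exact div_le_div₀ (by linarith) (by linarith) hN0 hNn
  have h3 : 1 / 2 / √P.n ≤ P.scv i := by
    have := hP.d4
    have := hP.kD1
    have := hP.kD2
    fin_cases i
    · exact h2 _ _ (by omega) hP.dN'
    · exact h2 _ _ hP.k1 (by omega)
    · exact h2 _ _ hP.k1 (by omega)
  have h4 : L / (√P.n * √P.d) ≤ 1 / 4 / √P.n := by
    calc L / (√P.n * √P.d) ≤ L / (√P.n * (4 * L)) := by gcongr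
      _ = _ := by field_simp
  have h5 := (abs_le.1 (h P hP (by omega) i)).1
  calc √P.n / 4 = P.n * (1 / 2 / √P.n - 1 / 4 / √P.n) := by
        field_simp
        rw [Real.sq_sqrt hn0.le]
        ring
    _ ≤ _ := by gcongr; linarith

theorem main_final {C s r X Y W a b c : ℝ} (hC : 0 ≤ C / s) (hr : 1 ≤ r)
    (b1 : |Y - a| ≤ 12 * (16 / s) * c) (b2 : W ≤ b)
    (b3 : |r * X - Real.exp (3 / 4) * Y| ≤ C / s * W) :
    |X - Real.exp (3 / 4) * a / r| ≤ (C * b + Real.exp (3 / 4) * (12 * 16 * c)) / s := by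
  have b4 : |r * X - Real.exp (3 / 4) * a| ≤ C / s * b + Real.exp (3 / 4) * (12 * (16 / s) * c) := by
    refine (abs_sub_le _ (Real.exp (3 / 4) * Y) _).trans (add_le_add (b3.trans (by gcongr)) ?_)
    rw [← mul_sub, abs_mul, abs_of_pos (Real.exp_pos _)]
    gcongr
  calc _ = |r * X - Real.exp (3 / 4) * a| / r := by
        rw [← abs_of_pos (show 0 < r by linarith), ← abs_div, abs_of_pos (show 0 < r by linarith)]
        congr 1
        field_simp
    _ ≤ _ := div_le_self (abs_nonneg _) hr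
    _ ≤ _ := b4
    _ = _ := by ring

theorem main : MainStmt := by
  obtain ⟨κ0, C, K, D0, hκ0, hC, hp⟩ := main_point
  obtain ⟨D1, hs⟩ := main_sbar
  have hpi := Real.pi_pos
  have hr : 1 ≤ √(2 * Real.pi) ^ 3 :=
    one_le_pow₀ (Real.le_sqrt_of_sq_le (by linarith [Real.pi_gt_three]))
  unfold MainStmt
  refine ⟨κ0, C * (2 * √(Real.pi / (1 / 16))) ^ 3 + Real.exp (3 / 4) * (12 * 16 * √(Real.pi / 1) ^ 3),
    Real.exp (3 / 4) * (2 * √(Real.pi / 1)) ^ 3 / √(2 * Real.pi) ^ 3, K, max D0 D1, hκ0, ?_, ?_, ?_⟩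
  · positivity
  · positivity
  intro P hP hd hK hk e1 e2
  have hd1 : (1 : ℝ) ≤ P.d := by have := hP.d4; exact_mod_cast (by omega : 1 ≤ P.d)
  have hs0 : (0 : ℝ) < √P.d := by positivity
  have hn := main_sqrt hP
  have hc : ∀ i, 0 ≤ P.n * P.sbar i := fun i => le_trans (by positivity) (hs P hP (by omega) i)
  obtain ⟨i1, b1, -⟩ := main_three one_pos (y := 16 / √P.d) hc fun i => by
    have h1 := main_exp (c := 1 / 16) (by norm_num) hs0 hn
    have := pow_le_pow_left₀ (by positivity) (hs P hP (by omega) i) 2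
    rw [div_pow, Real.sq_sqrt (by positivity)] at this
    rw [one_div_one_div] at h1
    exact (Real.exp_le_exp.2 (by linarith)).trans h1
  obtain ⟨i2, -, b2⟩ := main_three (b := 1 / 16) (by norm_num) (y := 1) hc fun i =>
    Real.exp_le_one_iff.2 (by nlinarith [sq_nonneg (P.n * P.sbar i)])
  have i3 : Integrable P.Jfull := by
    unfold Par.Jfull
    exact JJ_integrable ang3 P.n P.Bd_rho
      (P.Bd_ff zero_le_one hP.kapR1 hP.kapR2) (P.Bd_ss zero_le_one hP.kapR1 hP.kapR2)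
  have i4 : Integrable fun γ : Fin 3 → ℝ => ((Real.exp (3 / 4) *
      Real.exp (-1 * ∑ i, (|γ i| - P.n * P.sbar i) ^ 2) : ℝ) : ℂ) := (i1.const_mul _).ofReal
  have b3 := norm_integral_le_of_norm_le (μ := volume) (f := fun γ : Fin 3 → ℝ => P.Jfull γ -
      ((Real.exp (3 / 4) * Real.exp (-1 * ∑ i, (|γ i| - P.n * P.sbar i) ^ 2) : ℝ) : ℂ))
    (i2.const_mul (C / √P.d)) (.of_forall fun γ => by
      have := hp P hP (by omega) hK hk (fun i => |γ i|) fun i => abs_nonneg _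
      rw [main_abs P.Jfull (Jfull_flip hP e1 e2)] at this
      rw [← Real.exp_add, neg_one_mul, ← sub_eq_add_neg]
      exact this)
  rw [integral_sub i3 i4, Jfull_total hP, integral_complex_ofReal, integral_const_mul,
    integral_const_mul, ← ofReal_pow, ← ofReal_mul, ← ofReal_sub, norm_real, Real.norm_eq_abs] at b3
  exact main_final (by positivity) hr b1 b2 b3

end Pool.Agent.Lib.MP_d20c4f_pr.H53
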