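import Pool.Agent.Lib.MP_d20c4f_pr.H53Main
import Pool.Agent.Lib.MP_d20c4f_pr.H53Chi
import Pool.Agent.Lib.MP_d20c4f_pr.H53Chain

/-! Couplings as probability measures on the product space. -/

namespace Pool.Agent.Lib.MP_d20c4f_pr.H53

open MeasureTheory ProbabilityTheory Finset

theorem graph_singleton (n : ℕ) : MeasurableSingletonClass (SimpleGraph (Fin n)) := by
  refine ⟨fun G => ?_⟩
  have : ({G} : Set (SimpleGraph (Fin n))) = SimpleGraph.Adj ⁻¹' {G.Adj} := by
    ext H
    simp only [Set.mem_singleton_iff, Set.mem_preimage]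
    exact ⟨fun h => h ▸ rfl, fun h => SimpleGraph.ext h⟩
  rw [this]
  exact SimpleGraph.measurable_adj (measurableSet_singleton _)

open Classical in
theorem uniformOn_point {X : Type} [MeasurableSpace X] [MeasurableSingletonClass X]
    {A : Finset X} (hA : A.Nonempty) (x : X) :
    uniformOn (A : Set X) {x} = ENNReal.ofReal (if x ∈ A then (A.card : ℝ)⁻¹ else 0) := by
  rw [← Finset.coe_singleton, uniformOn_apply_finset]
  split_ifs with h
  · rw [inter_singleton_of_mem h, card_singleton, ENNReal.ofReal_inv_of_pos
      (by exact_mod_cast hA.card_pos), ENNReal.ofReal_natCast]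
    simp
  · rw [inter_singleton_of_notMem h]
    simp

open Classical in
theorem cpl_measure {X : Type} [Fintype X] [MeasurableSpace X] [MeasurableSingletonClass X]
    {A B : Finset X} {r : X → X → Prop} {ε : ℝ} (h : Cpl A B r ε) :
    ∃ P : Measure (X × X), IsProbabilityMeasure P ∧ P.map Prod.fst = uniformOn (A : Set X) ∧
      P.map Prod.snd = uniformOn (B : Set X) ∧ 1 - ε ≤ P.real {p | r p.1 p.2} := by
  obtain ⟨h0, μ, m0, m1, m2, m3⟩ := h
  have tot : ∑ x, ∑ y, μ x y = 1 := by
    simp only [m1]
    rw [← sum_filter, filter_mem_eq_inter, univ_inter, sum_const, nsmul_eq_mul, mul_inv_cancel₀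
      (by exact_mod_cast h0.card_pos.ne')]
  have hB : B.Nonempty := by
    rcases B.eq_empty_or_nonempty with rfl | hB
    · rw [sum_comm] at tot
      simp [m2] at tot
    · exact hB
  let P : Measure (X × X) := ∑ p : X × X, ENNReal.ofReal (μ p.1 p.2) • Measure.dirac p
  have hP : ∀ s : Set (X × X),
      P s = ENNReal.ofReal (∑ x, ∑ y, if (x, y) ∈ s then μ x y else 0) := by
    intro s
    rw [← Fintype.sum_prod_type' (f := fun x y => if (x, y) ∈ s then μ x y else 0),
      ENNReal.ofReal_sum_of_nonneg fun p _ => by
        split_ifs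
        · exact m0 _ _
        · exact le_rfl]
    simp only [P, Measure.coe_finset_sum, Finset.sum_apply, Measure.smul_apply, smul_eq_mul,
      Measure.dirac_apply]
    refine sum_congr rfl fun p _ => ?_
    by_cases hp : p ∈ s <;> simp [hp]
  refine ⟨P, ⟨by rw [hP]; simp [tot]⟩, Measure.ext_of_singleton fun x => ?_,
    Measure.ext_of_singleton fun y => ?_, ?_⟩
  · rw [Measure.map_apply measurable_fst (measurableSet_singleton x), hP, uniformOn_point h0,
      ← m1]
    congr 1
    rw [sum_eq_single x (fun z _ hz => by simp [hz]) (by simp)]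
    simp
  · rw [Measure.map_apply measurable_snd (measurableSet_singleton y), hP, uniformOn_point hB,
      ← m2]
    congr 1
    refine sum_congr rfl fun x _ => ?_
    simp
  · rw [Measure.real, hP, ENNReal.toReal_ofReal (sum_nonneg fun x _ => sum_nonneg fun y _ => by
      split_ifs
      · exact m0 _ _
      · exact le_rfl)]
    convert m3 using 4
    simp

end Pool.Agent.Lib.MP_d20c4f_pr.H53
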