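import Pool.Agent.Lib.MP_d20c4f_pr.H53Basic

/-!
Expansion of one pair factor.
-/

namespace Pool.Agent.Lib.MP_d20c4f_pr.H53

open MeasureTheory Complex Finset

theorem pair_core {c D : ℂ} {c0 T Y K : ℝ} (hT0 : 0 ≤ T) (hT : T ≤ 1) (hc : ‖c‖ ≤ 3 * T)
    (h0 : 0 ≤ c0) (h1 : c0 ≤ 3 / 2 * T ^ 2) (hD : ‖D‖ ≤ K * Y) :
    ‖(1 + c + D) * cexp (c0 - c) - (1 + D + (-c ^ 2 / 2 + c0))‖ ≤
      405 * Real.exp 5 * T ^ 3 + 5 * Real.exp 5 * K * (T * Y) := by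
  have hE : 1 ≤ Real.exp 5 := Real.one_le_exp (by norm_num)
  have hT2 : T ^ 2 ≤ T := by nlinarith
  have hx : ‖(c0 : ℂ) - c‖ ≤ 9 / 2 * T := by
    refine (norm_sub_le _ _).trans ?_
    rw [norm_real, Real.norm_of_nonneg h0]
    linarith
  have hex : Real.exp ‖(c0 : ℂ) - c‖ ≤ Real.exp 5 := Real.exp_le_exp.2 (by linarith)
  have r3 := Complex.norm_exp_sub_sum_le_norm_mul_exp ((c0 : ℂ) - c) 3
  have r1 := Complex.norm_exp_sub_sum_le_norm_mul_exp ((c0 : ℂ) - c) 1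
  simp only [sum_range_succ, range_zero, sum_empty, pow_zero, Nat.factorial, Nat.cast_one, pow_one,
    zero_add, div_one, Nat.succ_eq_add_one, mul_one, Nat.reduceAdd, Nat.cast_ofNat] at r3 r1
  set R := cexp (c0 - c) - (1 + ((c0 : ℂ) - c) + ((c0 : ℂ) - c) ^ 2 / 2) with hR
  have a3 : ‖R‖ ≤ (9 / 2 * T) ^ 3 * Real.exp 5 :=
    r3.trans (mul_le_mul (pow_le_pow_left₀ (norm_nonneg _) hx 3) hex (by positivity)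
      (by positivity))
  have a1 : ‖cexp (c0 - c) - 1‖ ≤ 9 / 2 * T * Real.exp 5 :=
    r1.trans (mul_le_mul hx hex (by positivity) (by positivity))
  have e : (1 + c + D) * cexp (c0 - c) - (1 + D + (-c ^ 2 / 2 + c0)) =
      (c0 : ℂ) ^ 2 / 2 + c * (c0 : ℂ) ^ 2 / 2 - c0 * c ^ 2 + c ^ 3 / 2 + (1 + c) * R +
        D * (cexp (c0 - c) - 1) := by
    rw [hR]; ring
  have n0 : ‖(c0 : ℂ)‖ ≤ 3 / 2 * T ^ 2 := by rw [norm_real, Real.norm_of_nonneg h0]; exact h1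
  have hT3 : 0 ≤ T ^ 3 := by positivity
  have hT4 : T ^ 4 ≤ T ^ 3 := pow_le_pow_of_le_one hT0 hT (by norm_num)
  have hT5 : T ^ 5 ≤ T ^ 3 := pow_le_pow_of_le_one hT0 hT (by norm_num)
  have b1 : ‖(c0 : ℂ) ^ 2 / 2‖ ≤ 2 * T ^ 3 := by
    rw [norm_div, norm_pow]
    have := pow_le_pow_left₀ (norm_nonneg _) n0 2
    simp only [Complex.norm_ofNat]
    nlinarith
  have b2 : ‖c * (c0 : ℂ) ^ 2 / 2‖ ≤ 4 * T ^ 3 := by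
    rw [norm_div, norm_mul, norm_pow]
    have := mul_le_mul hc (pow_le_pow_left₀ (norm_nonneg _) n0 2) (by positivity) (by positivity)
    simp only [Complex.norm_ofNat]
    nlinarith
  have b3 : ‖(c0 : ℂ) * c ^ 2‖ ≤ 14 * T ^ 3 := by
    rw [norm_mul, norm_pow]
    have := mul_le_mul n0 (pow_le_pow_left₀ (norm_nonneg _) hc 2) (by positivity) (by positivity)
    nlinarith
  have b4 : ‖c ^ 3 / 2‖ ≤ 14 * T ^ 3 := by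
    rw [norm_div, norm_pow]
    have := pow_le_pow_left₀ (norm_nonneg _) hc 3
    simp only [Complex.norm_ofNat]
    nlinarith
  have b5 : ‖(1 + c) * R‖ ≤ 365 * Real.exp 5 * T ^ 3 := by
    rw [norm_mul]
    have h4 : ‖1 + c‖ ≤ 4 := (norm_add_le _ _).trans (by rw [norm_one]; linarith)
    have := mul_le_mul h4 a3 (norm_nonneg _) (by norm_num)
    have h5 : 0 ≤ Real.exp 5 * T ^ 3 := by positivity
    nlinarith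
  have b6 : ‖D * (cexp (c0 - c) - 1)‖ ≤ 5 * Real.exp 5 * K * (T * Y) := by
    rw [norm_mul]
    have hKY : 0 ≤ K * Y := (norm_nonneg _).trans hD
    have := mul_le_mul hD a1 (norm_nonneg _) hKY
    have h5 : 0 ≤ K * Y * (T * Real.exp 5) := by positivity
    nlinarith
  rw [e]
  have t1 := norm_add_le ((c0 : ℂ) ^ 2 / 2 + c * (c0 : ℂ) ^ 2 / 2 - c0 * c ^ 2 + c ^ 3 / 2 +
    (1 + c) * R) (D * (cexp (c0 - c) - 1))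
  have t2 := norm_add_le ((c0 : ℂ) ^ 2 / 2 + c * (c0 : ℂ) ^ 2 / 2 - c0 * c ^ 2 + c ^ 3 / 2)
    ((1 + c) * R)
  have t3 := norm_add_le ((c0 : ℂ) ^ 2 / 2 + c * (c0 : ℂ) ^ 2 / 2 - c0 * c ^ 2) (c ^ 3 / 2)
  have t4 := norm_sub_le ((c0 : ℂ) ^ 2 / 2 + c * (c0 : ℂ) ^ 2 / 2) (c0 * c ^ 2)
  have t5 := norm_add_le ((c0 : ℂ) ^ 2 / 2) (c * (c0 : ℂ) ^ 2 / 2)
  have h6 : T ^ 3 ≤ Real.exp 5 * T ^ 3 := le_mul_of_one_le_left hT3 hE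
  linarith

theorem pair_two {a b a' b' : ℂ} {Θ Θ' Δ Δ' : ℝ} (h1 : ‖a‖ ≤ Θ) (h2 : ‖b‖ ≤ Δ) (h3 : ‖a'‖ ≤ Θ')
    (h4 : ‖b'‖ ≤ Δ') : ‖a * b' + b * a'‖ ≤ Θ * Δ' + Δ * Θ' := by
  refine (norm_add_le _ _).trans ?_
  rw [norm_mul, norm_mul]
  exact add_le_add (mul_le_mul h1 h4 (norm_nonneg _) ((norm_nonneg _).trans h1))
    (mul_le_mul h2 h3 (norm_nonneg _) ((norm_nonneg _).trans h2))

theorem pair_half {a b : ℂ} {Θ : ℝ} (h1 : ‖a‖ ≤ Θ) (h2 : ‖b‖ ≤ Θ) : ‖(a + b) / 2‖ ≤ Θ := by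
  rw [norm_div]
  have := norm_add_le a b
  simp only [Complex.norm_ofNat]
  linarith

theorem pair_exp (m : ℕ) : ∃ L : ℝ, 1 ≤ L ∧ ∀ (I : Type) [Fintype I] (n : ℕ) (Θ Θ' Δ Δ' : ℝ)
    (Ψ Ψ' s s' : Fin 3 → ℂ) (φ φ' χ χ' : I → ℂ) (q : Fin 3 × Fin 3 → ℂ), Fintype.card I ≤ m →
    1 ≤ n → 1 / √n ≤ Θ → Θ ≤ 1 → 0 ≤ Δ → Δ ≤ Θ → 1 / √n ≤ Θ' → Θ' ≤ 1 → 0 ≤ Δ' → Δ' ≤ Θ' →
    (∀ i, ‖Ψ i‖ ≤ Θ ∧ ‖s i‖ ≤ Θ ∧ ‖Ψ i - s i‖ ≤ Δ) → (∀ i, ‖φ i‖ ≤ Θ ∧ ‖χ i‖ ≤ Δ) →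
    (∀ i, ‖Ψ' i‖ ≤ Θ' ∧ ‖s' i‖ ≤ Θ' ∧ ‖Ψ' i - s' i‖ ≤ Δ') → (∀ i, ‖φ' i‖ ≤ Θ' ∧ ‖χ' i‖ ≤ Δ') →
    (∀ j, q j = if j.1 = j.2 then -(1 / (n : ℂ)) else 0) →
    ‖(1 + ∑ i, Ψ i * Ψ' i + ∑ i, (φ i * χ' i + χ i * φ' i)) * cexp (-∑ i, s i * s' i) *
        cexp (3 / (2 * (n : ℂ) ^ 2)) -
      (1 + ∑ i, ((Ψ i + s i) / 2 * (Ψ' i - s' i) + (Ψ i - s i) * ((Ψ' i + s' i) / 2)) +
        ∑ i, (φ i * χ' i + χ i * φ' i) +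
        ∑ j : Fin 3 × Fin 3, (-(s j.1 * s j.2 + q j) / 2 * ((s' j.1 * s' j.2 - q j) / 2) +
          (s j.1 * s j.2 - q j) / 2 * (-(s' j.1 * s' j.2 + q j) / 2)))‖ ≤
      L * (Θ ^ 2 * (Θ' * (Δ' + Θ' ^ 2)) + Θ * (Δ + Θ ^ 2) * Θ' ^ 2) := by
  have hE : 1 ≤ Real.exp 5 := Real.one_le_exp (by norm_num)
  refine ⟨405 * Real.exp 5 + 5 * Real.exp 5 * (3 + m), ?_, ?_⟩
  · have : 0 ≤ 5 * Real.exp 5 * (3 + m) := by positivity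
    linarith
  intro I _ n Θ Θ' Δ Δ' Ψ Ψ' s s' φ φ' χ χ' q hI hn t1 t2 d1 _ t1' t2' d1' _ hΨ hφ hΨ' hφ' hq
  have hn0 : (0 : ℝ) < n := by exact_mod_cast hn
  have hs0 : 0 < 1 / √(n : ℝ) := by positivity
  have p0 : 0 ≤ Θ := hs0.le.trans t1
  have p0' : 0 ≤ Θ' := hs0.le.trans t1'
  have hT : Θ * Θ' ≤ 1 := mul_le_one₀ t2 p0' t2'
  have hT0 : 0 ≤ Θ * Θ' := by positivity
  have hn1 : 1 / (n : ℝ) ≤ Θ * Θ' := by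
    have := mul_le_mul t1 t1' hs0.le p0
    rwa [div_mul_div_comm, one_mul, Real.mul_self_sqrt hn0.le] at this
  have hc : ‖∑ i, s i * s' i‖ ≤ 3 * (Θ * Θ') := by
    refine (norm_sum_le _ _).trans ?_
    refine (sum_le_card_nsmul _ _ (Θ * Θ') fun i _ => ?_).trans (by simp)
    rw [norm_mul]
    exact mul_le_mul (hΨ i).2.1 (hΨ' i).2.1 (norm_nonneg _) p0
  have hY : 0 ≤ Θ * Δ' + Δ * Θ' := by positivity
  have hD : ‖∑ i, ((Ψ i + s i) / 2 * (Ψ' i - s' i) + (Ψ i - s i) * ((Ψ' i + s' i) / 2)) +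
      ∑ i, (φ i * χ' i + χ i * φ' i)‖ ≤ (3 + m) * (Θ * Δ' + Δ * Θ') := by
    refine (norm_add_le _ _).trans ?_
    rw [add_mul]
    refine add_le_add ((norm_sum_le _ _).trans ?_) ((norm_sum_le _ _).trans ?_)
    · refine (sum_le_card_nsmul _ _ (Θ * Δ' + Δ * Θ') fun i _ => ?_).trans
        (by rw [nsmul_eq_mul, card_univ, Fintype.card_fin]; norm_num)
      exact pair_two (pair_half (hΨ i).1 (hΨ i).2.1) (hΨ i).2.2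
        (pair_half (hΨ' i).1 (hΨ' i).2.1) (hΨ' i).2.2
    · refine (sum_le_card_nsmul _ _ (Θ * Δ' + Δ * Θ') fun i _ => ?_).trans ?_
      · exact pair_two (hφ i).1 (hφ i).2 (hφ' i).1 (hφ' i).2
      · rw [nsmul_eq_mul, card_univ]
        exact mul_le_mul_of_nonneg_right (by exact_mod_cast hI) hY
  have h1 : 3 / (2 * (n : ℝ) ^ 2) ≤ 3 / 2 * (Θ * Θ') ^ 2 := by
    have := pow_le_pow_left₀ (by positivity) hn1 2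
    calc 3 / (2 * (n : ℝ) ^ 2) = 3 / 2 * (1 / (n : ℝ)) ^ 2 := by field_simp
      _ ≤ _ := by linarith
  have key := pair_core hT0 hT hc (by positivity) h1 hD
  have e1 : ∑ j : Fin 3 × Fin 3, (-(s j.1 * s j.2 + q j) / 2 * ((s' j.1 * s' j.2 - q j) / 2) +
      (s j.1 * s j.2 - q j) / 2 * (-(s' j.1 * s' j.2 + q j) / 2)) =
      -(∑ i, s i * s' i) ^ 2 / 2 + ((3 / (2 * (n : ℝ) ^ 2) : ℝ) : ℂ) := by
    simp only [Fintype.sum_prod_type, Fin.sum_univ_three, hq]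
    simp
    ring
  have e2 : (1 + ∑ i, Ψ i * Ψ' i + ∑ i, (φ i * χ' i + χ i * φ' i)) = 1 + ∑ i, s i * s' i +
      (∑ i, ((Ψ i + s i) / 2 * (Ψ' i - s' i) + (Ψ i - s i) * ((Ψ' i + s' i) / 2)) +
      ∑ i, (φ i * χ' i + χ i * φ' i)) := by
    simp only [Fin.sum_univ_three]
    ring
  have e3 : cexp (-∑ i, s i * s' i) * cexp (3 / (2 * (n : ℂ) ^ 2)) =
      cexp (((3 / (2 * (n : ℝ) ^ 2) : ℝ) : ℂ) - ∑ i, s i * s' i) := by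
    rw [← Complex.exp_add]
    push_cast
    ring_nf
  rw [e1, mul_assoc, e3, e2, add_assoc 1 (∑ i, ((Ψ i + s i) / 2 * (Ψ' i - s' i) +
    (Ψ i - s i) * ((Ψ' i + s' i) / 2)))]
  refine key.trans ?_
  have g1 : (Θ * Θ') ^ 3 ≤ Θ ^ 2 * (Θ' * (Δ' + Θ' ^ 2)) + Θ * (Δ + Θ ^ 2) * Θ' ^ 2 := by
    have a1 : 0 ≤ Θ ^ 2 * Θ' * Δ' := by positivity
    have a2 : 0 ≤ Θ * (Δ + Θ ^ 2) * Θ' ^ 2 := by positivity
    have a3 : Θ ^ 2 * Θ' ^ 3 * Θ ≤ Θ ^ 2 * Θ' ^ 3 := mul_le_of_le_one_right (by positivity) t2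
    nlinarith
  have g2 : Θ * Θ' * (Θ * Δ' + Δ * Θ') ≤
      Θ ^ 2 * (Θ' * (Δ' + Θ' ^ 2)) + Θ * (Δ + Θ ^ 2) * Θ' ^ 2 := by
    have a1 : 0 ≤ Θ ^ 2 * Θ' ^ 3 := by positivity
    have a2 : 0 ≤ Θ ^ 3 * Θ' ^ 2 := by positivity
    nlinarith
  rw [add_mul]
  exact add_le_add (mul_le_mul_of_nonneg_left g1 (by positivity))
    (mul_le_mul_of_nonneg_left g2 (by positivity))

end Pool.Agent.Lib.MP_d20c4f_pr.H53
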