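import Pool.Agent.Lib.MP_d20c4f_pr.H53Basic

/-!
The Gaussian representation of the abstract integral.
-/

namespace Pool.Agent.Lib.MP_d20c4f_pr.H53

open MeasureTheory Complex Finset

section RepAux

variable {X : Type} [MeasurableSpace X]

theorem rep_bd_const (c : ℂ) : Bd fun _ : X => c := ⟨measurable_const, ‖c‖, fun _ => le_rfl⟩

theorem rep_bd_add {F G : X → ℂ} (hF : Bd F) (hG : Bd G) : Bd fun ω => F ω + G ω := by
  obtain ⟨h1, C, h2⟩ := hF
  obtain ⟨h3, C', h4⟩ := hG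
  exact ⟨h1.add h3, C + C', fun ω => (norm_add_le _ _).trans (add_le_add (h2 ω) (h4 ω))⟩

theorem rep_bd_sum {α : Type} (t : Finset α) {F : α → X → ℂ} (hF : ∀ a, Bd (F a)) :
    Bd fun ω => ∑ a ∈ t, F a ω := by
  classical
  induction t using Finset.induction_on with
  | empty => simpa using rep_bd_const (X := X) 0
  | insert a t ha ih => simpa [sum_insert ha] using rep_bd_add (hF a) ih

theorem rep_bd_prod {α : Type} (t : Finset α) {F : α → X → ℂ} (hF : ∀ a, Bd (F a)) :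
    Bd fun ω => ∏ a ∈ t, F a ω := by
  classical
  induction t using Finset.induction_on with
  | empty => simpa using rep_bd_const (X := X) 1
  | insert a t ha ih => simpa [prod_insert ha] using (hF a).mul ih

theorem rep_bd_pow {F : X → ℂ} (hF : Bd F) (m : ℕ) : Bd fun ω => F ω ^ m := by
  simpa using rep_bd_prod (range m) (F := fun _ => F) fun _ => hF

theorem rep_bd_exp {F : X → ℂ} (hF : Bd F) : Bd fun ω => cexp (F ω) := by
  obtain ⟨h1, C, h2⟩ := hF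
  refine ⟨h1.cexp, Real.exp C, fun ω => ?_⟩
  rw [norm_exp]
  exact Real.exp_le_exp.2 ((re_le_norm _).trans (h2 ω))

theorem rep_bd_comp {Y : Type} [MeasurableSpace Y] {F : X → ℂ} (hF : Bd F) {g : Y → X}
    (hg : Measurable g) : Bd fun y => F (g y) := by
  obtain ⟨h1, C, h2⟩ := hF
  exact ⟨h1.comp hg, C, fun y => h2 _⟩

variable {ι : Type} [Fintype ι] (μ : Measure X) [IsProbabilityMeasure μ]

theorem rep_integrable {W : X → ℂ} {S : ι → X → ℂ} (hW : Bd W) (hS : ∀ i, Bd (S i)) :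
    Integrable (fun p : X × (ι → ℝ) => W p.1 *
      cexp (-(1 / 2 : ℂ) * ∑ i, (p.2 i : ℂ) ^ 2 + ∑ i, S i p.1 * p.2 i)) (μ.prod volume) := by
  obtain ⟨h1, C, h2⟩ := hW
  choose B hB using fun i => (hS i).2
  have h3 : ∀ i, Measurable (S i) := fun i => (hS i).1
  have h4 := (GaussianFourier.integrable_cexp_neg_mul_sum_add (ι := ι) (b := (1 / 4 : ℂ)) (by norm_num) 0).norm
  have h5 := ((integrable_const (μ := μ) (C * Real.exp (∑ i, B i ^ 2))).mul_prod h4)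
  refine h5.mono' (Measurable.aestronglyMeasurable ?_) (.of_forall fun p => ?_)
  · refine (h1.comp measurable_fst).mul (Measurable.cexp (Measurable.add ?_ ?_))
    · fun_prop
    · exact Finset.measurable_sum _ fun i _ => ((h3 i).comp measurable_fst).mul (by fun_prop)
  · rw [norm_mul, mul_assoc]
    refine mul_le_mul (h2 _) ?_ (norm_nonneg _) ((norm_nonneg _).trans (h2 p.1))
    rw [norm_exp, norm_exp, ← Real.exp_add]
    refine Real.exp_le_exp.2 ?_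
    have e1 : ∀ b : ℝ, (-(b : ℂ) * ∑ i, (p.2 i : ℂ) ^ 2).re = ∑ i, -b * p.2 i ^ 2 := by
      intro b
      rw [← mul_sum]
      norm_cast
    have e2 := e1 (1 / 2)
    have e3 := e1 (1 / 4)
    push_cast at e2 e3
    simp only [add_re, e2, e3, Pi.zero_apply, zero_mul, sum_const_zero, zero_re, add_zero, re_sum,
      ← sum_add_distrib]
    refine sum_le_sum fun i _ => ?_
    have h6 : (S i p.1 * p.2 i).re ≤ B i * |p.2 i| := by
      refine (re_le_norm _).trans ?_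
      rw [norm_mul, norm_real, Real.norm_eq_abs]
      exact mul_le_mul_of_nonneg_right (hB i _) (abs_nonneg _)
    nlinarith [sq_abs (p.2 i), sq_nonneg (|p.2 i| / 2 - B i)]

theorem rep_gauss (c : ι → ℂ) :
    ∫ x : ι → ℝ, cexp (-(1 / 2 : ℂ) * ∑ i, (x i : ℂ) ^ 2 + ∑ i, c i * x i) =
      (√(2 * Real.pi) : ℂ) ^ Fintype.card ι * cexp ((∑ i, c i ^ 2) / 2) := by
  rw [GaussianFourier.integral_cexp_neg_mul_sum_add (by norm_num)]
  congr 1
  · rw [Real.sqrt_eq_rpow, ofReal_cpow (by positivity), ← cpow_nat_mul]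
    congr 1
    · push_cast; ring
    · push_cast; ring
  · congr 1; ring

theorem rep_swap {W : X → ℂ} {S : ι → X → ℂ} (hW : Bd W) (hS : ∀ i, Bd (S i)) :
    ∫ x : ι → ℝ, ∫ ω, W ω * cexp (-(1 / 2 : ℂ) * ∑ i, (x i : ℂ) ^ 2 + ∑ i, S i ω * x i) ∂μ =
      (√(2 * Real.pi) : ℂ) ^ Fintype.card ι * ∫ ω, W ω * cexp ((∑ i, S i ω ^ 2) / 2) ∂μ := by
  rw [← integral_integral_swap (f := fun ω (x : ι → ℝ) => W ω *
      cexp (-(1 / 2 : ℂ) * ∑ i, (x i : ℂ) ^ 2 + ∑ i, S i ω * x i)) (rep_integrable μ hW hS),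
    ← integral_const_mul]
  refine integral_congr_ae (.of_forall fun ω => ?_)
  simp only
  rw [integral_const_mul, rep_gauss]
  ring

end RepAux

variable {Ω Sg ι : Type} [MeasurableSpace Ω] [Fintype Sg] [DecidableEq Sg] [Fintype ι]
  [DecidableEq ι] (ν : Measure Ω) [IsProbabilityMeasure ν] (n : ℕ)

/-- The weight without the Gaussian factor. -/
noncomputable def repW (ρ : Ω → ℂ) (f : Sg → Ω → ℂ) (ω : Fin n → Ω) : ℂ :=
  (∏ v, ρ (ω v)) * (∏ e : Pr2 n, ∑ σ, f σ (ω e.1.1) * f σ (ω e.1.2))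

omit [DecidableEq Sg] in
theorem rep_bd_W {ρ : Ω → ℂ} {f : Sg → Ω → ℂ} (hρ : Bd ρ) (hf : ∀ σ, Bd (f σ)) :
    Bd (repW n ρ f) :=
  (rep_bd_prod _ fun v => rep_bd_comp hρ (measurable_pi_apply v)).mul
    (rep_bd_prod _ fun e => rep_bd_sum _ fun σ =>
      (rep_bd_comp (hf σ) (measurable_pi_apply e.1.1)).mul
        (rep_bd_comp (hf σ) (measurable_pi_apply e.1.2)))

omit [Fintype ι] [DecidableEq ι] in
theorem rep_bd_S {s : ι → Ω → ℂ} (hs : ∀ i, Bd (s i)) (i : ι) :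
    Bd fun ω : Fin n → Ω => ∑ v, s i (ω v) :=
  rep_bd_sum _ fun v => rep_bd_comp (hs i) (measurable_pi_apply v)

omit [DecidableEq ι] in
theorem rep_factor {ρ : Ω → ℂ} {f : Sg → Ω → ℂ} {s : ι → Ω → ℂ}
    (hρ : Bd ρ) (hf : ∀ σ, Bd (f σ)) (hs : ∀ i, Bd (s i)) (l : ι → ℂ) :
    ∫ ω, repW n ρ f ω * cexp (∑ i, l i * ∑ v, s i (ω v)) ∂(Measure.pi fun _ : Fin n => ν) =
      ∑ c : Pr2 n → Sg, ∏ v, Mom ν ρ f s (cnt c v) l := by
  have hb : ∀ m : Sg → ℕ, Bd fun ω => ρ ω * (∏ σ, f σ ω ^ m σ) * cexp (∑ i, l i * s i ω) :=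
    fun m => (hρ.mul (rep_bd_prod _ fun σ => rep_bd_pow (hf σ) _)).mul
      (rep_bd_exp (rep_bd_sum _ fun i => (rep_bd_const _).mul (hs i)))
  have key : ∀ ω : Fin n → Ω, repW n ρ f ω * cexp (∑ i, l i * ∑ v, s i (ω v)) =
      ∑ c : Pr2 n → Sg, ∏ v, (ρ (ω v) * (∏ σ, f σ (ω v) ^ cnt c v σ) *
        cexp (∑ i, l i * s i (ω v))) := by
    intro ω
    rw [repW, Fintype.prod_sum, mul_sum, sum_mul]
    refine sum_congr rfl fun c _ => ?_
    rw [prod_cnt c fun σ v => f σ (ω v), prod_mul_distrib, prod_mul_distrib, ← exp_sum, sum_comm]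
    simp only [mul_sum]
  simp only [key]
  rw [integral_finsetSum _ fun c _ =>
    (rep_bd_prod _ fun v => rep_bd_comp (hb (cnt c v)) (measurable_pi_apply v)).integrable _]
  refine sum_congr rfl fun c _ => ?_
  exact integral_fintype_prod_eq_prod
    (fun v ω => ρ ω * (∏ σ, f σ ω ^ cnt c v σ) * cexp (∑ i, l i * s i ω))

omit [DecidableEq Sg] [DecidableEq ι] [IsProbabilityMeasure ν] in
theorem rep_JJ (ρ : Ω → ℂ) (f : Sg → Ω → ℂ) (s : ι → Ω → ℂ) (γ : ι → ℝ) :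
    JJ ν n ρ f s γ = ∫ ω, repW n ρ f ω * cexp (-(∑ i, (∑ v, s i (ω v)) ^ 2) / 2) *
      cexp (-(1 / 2 : ℂ) * ∑ i, (γ i : ℂ) ^ 2 + ∑ i, (∑ v, s i (ω v)) * γ i)
        ∂(Measure.pi fun _ : Fin n => ν) := by
  refine integral_congr_ae (.of_forall fun ω => ?_)
  simp only [repW]
  rw [mul_assoc _ (cexp _), ← exp_add]
  congr 2
  have : ∀ i, ((γ i : ℂ) - ∑ v, s i (ω v)) ^ 2 =
      (∑ v, s i (ω v)) ^ 2 + (γ i : ℂ) ^ 2 - 2 * ((∑ v, s i (ω v)) * γ i) := fun i => by ring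
  simp only [this, sum_sub_distrib, sum_add_distrib, ← mul_sum]
  ring

omit [DecidableEq Sg] [DecidableEq ι] in
theorem rep_bd_W' {ρ : Ω → ℂ} {f : Sg → Ω → ℂ} {s : ι → Ω → ℂ}
    (hρ : Bd ρ) (hf : ∀ σ, Bd (f σ)) (hs : ∀ i, Bd (s i)) :
    Bd fun ω : Fin n → Ω => repW n ρ f ω * cexp (-(∑ i, (∑ v, s i (ω v)) ^ 2) / 2) := by
  refine (rep_bd_W n hρ hf).mul (rep_bd_exp ?_)
  have := (rep_bd_const (-1 / 2)).mul (rep_bd_sum univ fun i => rep_bd_pow (rep_bd_S n hs i) 2)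
  convert this using 2 with ω
  ring

omit [DecidableEq ι] in
theorem rep_formula {ρ : Ω → ℂ} {f : Sg → Ω → ℂ} {s : ι → Ω → ℂ}
    (hρ : Bd ρ) (hf : ∀ σ, Bd (f σ)) (hs : ∀ i, Bd (s i)) (γ : ι → ℝ) :
    (√(2 * Real.pi) : ℂ) ^ Fintype.card ι * JJ ν n ρ f s γ =
      cexp (-(1 / 2 : ℂ) * ∑ i, (γ i : ℂ) ^ 2) * ∫ x : ι → ℝ,
        cexp (-(1 / 2 : ℂ) * ∑ i, (x i : ℂ) ^ 2) *
          ∑ c : Pr2 n → Sg, ∏ v, Mom ν ρ f s (cnt c v) fun i => γ i + I * x i := by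
  have h1 := rep_swap (Measure.pi fun _ : Fin n => ν)
    ((rep_bd_W n hρ hf).mul (rep_bd_exp
      (rep_bd_sum univ fun i => (rep_bd_S n hs i).mul (rep_bd_const (γ i : ℂ)))))
    fun i => (rep_bd_const I).mul (rep_bd_S n hs i)
  have h2 : ∀ x : ι → ℝ, cexp (-(1 / 2 : ℂ) * ∑ i, (x i : ℂ) ^ 2) *
      ∑ c : Pr2 n → Sg, ∏ v, (Mom ν ρ f s (cnt c v) fun i => γ i + I * x i) =
      ∫ ω, repW n ρ f ω * cexp (∑ i, (∑ v, s i (ω v)) * γ i) *
        cexp (-(1 / 2 : ℂ) * ∑ i, (x i : ℂ) ^ 2 + ∑ i, I * (∑ v, s i (ω v)) * x i)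
          ∂(Measure.pi fun _ : Fin n => ν) := by
    intro x
    rw [← rep_factor ν n hρ hf hs, ← integral_const_mul]
    refine integral_congr_ae (.of_forall fun ω => ?_)
    have : ∀ i, ((γ i : ℂ) + I * x i) * ∑ v, s i (ω v) =
        (∑ v, s i (ω v)) * γ i + I * (∑ v, s i (ω v)) * x i := fun i => by ring
    simp only [this, sum_add_distrib, exp_add]
    ring
  simp only [h2]
  rw [h1, rep_JJ, mul_left_comm, ← integral_const_mul (cexp _)]
  congr 1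
  refine integral_congr_ae (.of_forall fun ω => ?_)
  have : ∀ i, (I * ∑ v, s i (ω v)) ^ 2 = -(∑ v, s i (ω v)) ^ 2 := fun i => by
    rw [mul_pow, I_sq, neg_one_mul]
  simp only [this, sum_neg_distrib, exp_add]
  ring

theorem JJ_congr {ρ ρ' : Ω → ℂ} {f f' : Sg → Ω → ℂ} {s s' : ι → Ω → ℂ}
    (hρ : Bd ρ) (hf : ∀ σ, Bd (f σ)) (hs : ∀ i, Bd (s i))
    (hρ' : Bd ρ') (hf' : ∀ σ, Bd (f' σ)) (hs' : ∀ i, Bd (s' i))
    (h : ∀ m : Sg → ℕ, ∑ σ, m σ = n - 1 → ∀ l : ι → ℂ, Mom ν ρ f s m l = Mom ν ρ' f' s' m l)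
    (γ : ι → ℝ) : JJ ν n ρ f s γ = JJ ν n ρ' f' s' γ := by
  have h0 : (√(2 * Real.pi) : ℂ) ^ Fintype.card ι ≠ 0 :=
    pow_ne_zero _ (ofReal_ne_zero.2 (Real.sqrt_ne_zero'.2 (by positivity)))
  refine mul_left_cancel₀ h0 ?_
  rw [rep_formula ν n hρ hf hs, rep_formula ν n hρ' hf' hs']
  simp only [fun c v => h _ (sum_cnt (n := n) c v)]

theorem JJ_integrable {ρ : Ω → ℂ} {f : Sg → Ω → ℂ} {s : ι → Ω → ℂ}
    (hρ : Bd ρ) (hf : ∀ σ, Bd (f σ)) (hs : ∀ i, Bd (s i)) : Integrable (JJ ν n ρ f s) := by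
  have h := (rep_integrable (Measure.pi fun _ : Fin n => ν) (rep_bd_W' n hρ hf hs)
    (rep_bd_S n hs)).integral_prod_right
  exact h.congr (.of_forall fun γ => (rep_JJ ν n ρ f s γ).symm)

theorem JJ_total {ρ : Ω → ℂ} {f : Sg → Ω → ℂ} {s : ι → Ω → ℂ}
    (hρ : Bd ρ) (hf : ∀ σ, Bd (f σ)) (hs : ∀ i, Bd (s i)) :
    ∫ γ, JJ ν n ρ f s γ = (√(2 * Real.pi) : ℂ) ^ Fintype.card ι *
      ∑ c : Pr2 n → Sg, ∏ v, Mom ν ρ f s (cnt c v) 0 := by
  simp only [rep_JJ]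
  rw [rep_swap _ (rep_bd_W' n hρ hf hs) (rep_bd_S n hs), ← rep_factor ν n hρ hf hs]
  congr 1
  refine integral_congr_ae (.of_forall fun ω => ?_)
  simp only [Pi.zero_apply, zero_mul, sum_const_zero]
  rw [mul_assoc, ← exp_add]
  congr 2
  ring

theorem JJ_flip {ρ : Ω → ℂ} {f : Sg → Ω → ℂ} {s : ι → Ω → ℂ}
    (hρ : Bd ρ) (hf : ∀ σ, Bd (f σ)) (hs : ∀ i, Bd (s i)) (i : ι) (u : ℂ) (hu : u ^ n = 1)
    (sg : Sg → ℂ) (hsg : ∀ σ, sg σ * sg σ = 1)
    (h : ∀ m : Sg → ℕ, ∑ σ, m σ = n - 1 → ∀ l : ι → ℂ,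
      u * (∏ σ, sg σ ^ m σ) * Mom ν ρ f s m (Function.update l i (-l i)) = Mom ν ρ f s m l)
    (γ : ι → ℝ) : JJ ν n ρ f s (Function.update γ i (-γ i)) = JJ ν n ρ f s γ := by
  have h1 := JJ_congr ν n (ρ := fun ω => u * ρ ω) (f := fun σ ω => sg σ * f σ ω)
    (s := fun j ω => (if j = i then -1 else 1) * s j ω) ((rep_bd_const u).mul hρ)
    (fun σ => (rep_bd_const _).mul (hf σ)) (fun j => (rep_bd_const _).mul (hs j)) hρ hf hs
    (fun m hm l => ?_) γ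
  · rw [← h1]
    refine integral_congr_ae (.of_forall fun ω => ?_)
    have e1 : ∀ (σ : Sg) (a b : ℂ), sg σ * a * (sg σ * b) = a * b := fun σ a b => by
      linear_combination a * b * hsg σ
    have e2 : ∀ j, (((Function.update γ i (-γ i) j : ℝ) : ℂ) - ∑ v, s j (ω v)) ^ 2 =
        ((γ j : ℂ) - ∑ v, (if j = i then -1 else 1) * s j (ω v)) ^ 2 := by
      intro j
      rw [← mul_sum]
      by_cases hj : j = i
      · subst hj
        rw [Function.update_self, if_pos rfl]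
        push_cast
        ring
      · rw [Function.update_of_ne hj, if_neg hj, one_mul]
    simp only [e1, e2, prod_mul_distrib, prod_const, card_univ, Fintype.card_fin, hu, one_mul]
  · rw [← h m hm l, Mom, Mom, ← integral_const_mul]
    refine integral_congr_ae (.of_forall fun ω => ?_)
    have e2 : ∀ j, l j * ((if j = i then -1 else 1) * s j ω) =
        Function.update l i (-l i) j * s j ω := by
      intro j
      by_cases hj : j = i
      · subst hj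
        rw [Function.update_self, if_pos rfl]
        ring
      · rw [Function.update_of_ne hj, if_neg hj, one_mul]
    simp only [e2, mul_pow, prod_mul_distrib]
    ring

end Pool.Agent.Lib.MP_d20c4f_pr.H53
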