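import Pool.Agent.Lib.MP_d20c4f_pr.H53Basic

/-!
The tilted one-vertex density.
-/

namespace Pool.Agent.Lib.MP_d20c4f_pr.H53

open MeasureTheory Complex Finset

theorem tilt_exp_two : Real.exp 2 ≤ 9 := by
  have := Real.exp_one_lt_three
  have h : Real.exp 2 = Real.exp 1 * Real.exp 1 := by rw [← Real.exp_add]; norm_num
  nlinarith [Real.exp_pos 1]

theorem tilt_one_add_pow (y : ℂ) (n : ℕ) :
    ‖(1 + y) ^ n - 1‖ ≤ n * ‖y‖ * Real.exp (n * ‖y‖) := by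
  induction n with
  | zero => simp
  | succ n ih =>
    have h1 : ‖1 + y‖ ≤ Real.exp ‖y‖ :=
      (norm_add_le _ _).trans (by simpa [add_comm] using Real.add_one_le_exp ‖y‖)
    have h2 : 1 ≤ Real.exp ‖y‖ * Real.exp (n * ‖y‖) := by
      rw [← Real.exp_add]; exact Real.one_le_exp (by positivity)
    have h3 : (1 + y) ^ (n + 1) - 1 = (1 + y) * ((1 + y) ^ n - 1) + y := by ring
    have h4 := mul_le_mul h1 ih (norm_nonneg _) (Real.exp_pos _).le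
    rw [h3, Nat.cast_succ, add_mul (n : ℝ) 1, one_mul, Real.exp_add]
    refine (norm_add_le _ _).trans ?_
    rw [norm_mul]
    nlinarith [norm_nonneg y]

theorem tilt_pow {M δ η G e : ℝ} {n : ℕ} {Z : ℂ} (hM : 1 ≤ M) (hδ : δ * (240 * M) ≤ 1)
    (hG : 0 ≤ G) (he : 0 < e) (hn : n * e ^ 2 = 1) (h1 : e ≤ η) (h2 : η ≤ δ)
    (h3 : (1 + G) * e ≤ 2 * δ)
    (hD : ‖Z - 1 - ((3 - G ^ 2) / 2 * e ^ 2 : ℝ)‖ ≤
      M * (η * ((1 + G) * e) ^ 2 + ((1 + G) * e) ^ 3)) :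
    1 / 2 ≤ ‖Z‖ ∧ ‖Z ^ n - (Real.exp ((3 - G ^ 2) / 2) : ℝ)‖ ≤
      50000 * M * η * Real.exp (-G ^ 2 / 4) := by
  set v := (3 - G ^ 2) / 2 * e ^ 2 with hv
  set p := (1 + G) * e with hp
  have p0 : 0 < p := by positivity
  have d0 : 0 < δ := by linarith
  have d1 : δ ≤ 1 / 240 := by nlinarith
  have v1 : |v| ≤ 2 * p ^ 2 := by
    rw [hv, hp, abs_mul, abs_of_nonneg (sq_nonneg e), mul_pow, ← mul_assoc]
    exact mul_le_mul_of_nonneg_right (abs_le.2 ⟨by nlinarith, by nlinarith⟩) (sq_nonneg e)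
  have p1 : p ^ 2 ≤ 1 / 100 := by nlinarith
  have D1 : M * (η * p ^ 2 + p ^ 3) ≤ p ^ 2 * (3 * M * δ) := by
    have : η * p ^ 2 + p ^ 3 ≤ p ^ 2 * (3 * δ) := by nlinarith [sq_nonneg p]
    nlinarith
  have p2 : p ≤ (1 + G) * η := mul_le_mul_of_nonneg_left h1 (by linarith)
  have D2 : M * (η * p ^ 2 + p ^ 3) ≤ p ^ 2 * (2 * M * ((1 + G) * η)) := by
    have : η * p ^ 2 + p ^ 3 ≤ p ^ 2 * (2 * ((1 + G) * η)) := by
      have : η ≤ (1 + G) * η := by nlinarith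
      nlinarith [sq_nonneg p]
    nlinarith
  refine ⟨?_, ?_⟩
  · have h4 := norm_sub_norm_le (1 : ℂ) (-(Z - 1 - v) - v)
    have h5 := norm_sub_le (-(Z - 1 - v)) (v : ℂ)
    rw [norm_neg, norm_real, Real.norm_eq_abs] at h5
    rw [norm_one, show 1 - (-(Z - 1 - v) - v) = Z by ring] at h4
    nlinarith
  set y := Z * (Real.exp (-v) : ℝ) - 1 with hy
  have e1 : Real.exp (-v) * Real.exp v = 1 := by rw [← Real.exp_add]; simp
  have y1 : ‖y‖ ≤ 3 * (M * (η * p ^ 2 + p ^ 3) + 4 * p ^ 4) := by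
    have a1 : y = (Real.exp (-v) : ℝ) * ((Z - 1 - v) - (Real.exp v - 1 - v : ℝ)) := by
      have := congrArg (fun x : ℝ => (x : ℂ)) e1
      simp only [ofReal_mul, ofReal_one, ofReal_sub] at this ⊢
      linear_combination hy + this
    have a2 := Real.abs_exp_sub_one_sub_id_le (x := v) (by linarith)
    have a3 : Real.exp (-v) ≤ 3 := (Real.exp_le_exp.2 (by linarith [neg_abs_le v])).trans
      Real.exp_one_lt_three.le
    have a4 : v ^ 2 ≤ 4 * p ^ 4 := by nlinarith [sq_abs v, abs_nonneg v]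
    rw [a1, norm_mul, norm_real, Real.norm_of_nonneg (Real.exp_pos _).le]
    refine mul_le_mul a3 ((norm_sub_le _ _).trans ?_) (norm_nonneg _) (by norm_num)
    rw [norm_real, Real.norm_eq_abs]
    linarith
  have np : n * p ^ 2 = (1 + G) ^ 2 := by rw [hp]; linear_combination (1 + G) ^ 2 * hn
  have y2 : ∀ c, M * (η * p ^ 2 + p ^ 3) + 4 * p ^ 4 ≤ p ^ 2 * c →
      n * ‖y‖ ≤ 3 * (1 + G) ^ 2 * c := fun c hc => by
    have := mul_le_mul_of_nonneg_left (y1.trans (mul_le_mul_of_nonneg_left hc (by norm_num)))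
      (Nat.cast_nonneg (α := ℝ) n)
    rw [← np]
    linarith
  have p3 : 4 * p ^ 4 ≤ p ^ 2 * p := by nlinarith [pow_pos p0 3]
  have y3 := y2 (3 * M * ((1 + G) * η)) (by
    have : p ≤ M * ((1 + G) * η) := by nlinarith
    nlinarith [sq_nonneg p])
  have y4 := y2 (1 / 48) (by
    have : 3 * M * δ + p ≤ 1 / 48 := by nlinarith
    nlinarith [sq_nonneg p])
  have z1 : Z ^ n - (Real.exp ((3 - G ^ 2) / 2) : ℝ) =
      (Real.exp ((3 - G ^ 2) / 2) : ℝ) * ((1 + y) ^ n - 1) := by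
    have : Real.exp ((3 - G ^ 2) / 2) * Real.exp (-v) ^ n = 1 := by
      rw [← Real.exp_nat_mul, ← Real.exp_add, Real.exp_eq_one_iff, hv]
      linear_combination (-(3 - G ^ 2) / 2) * hn
    have := congrArg (fun x : ℝ => (x : ℂ)) this
    simp only [ofReal_mul, ofReal_one, ofReal_pow] at this
    rw [hy, add_sub_cancel, mul_pow]
    linear_combination (-Z ^ n) * this
  have z2 : (1 + G) ^ 3 ≤ 512 * Real.exp (G ^ 2 / 8) := by
    have := Real.quadratic_le_exp_of_nonneg (x := G ^ 2 / 8) (by positivity)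
    nlinarith [sq_nonneg (G - 1), sq_nonneg (G ^ 2 - G), sq_nonneg G, sq_nonneg (G ^ 2)]
  have z3 : Real.exp ((3 - G ^ 2) / 2) * Real.exp (G ^ 2 / 8) * Real.exp (n * ‖y‖) ≤
      9 * Real.exp (-G ^ 2 / 4) := by
    refine le_trans ?_ (mul_le_mul_of_nonneg_right tilt_exp_two (Real.exp_pos _).le)
    simp only [← Real.exp_add]
    exact Real.exp_le_exp.2 (by nlinarith [sq_nonneg (G - 1)])
  have η0 : 0 ≤ M * η := by nlinarith
  have z4 : n * ‖y‖ ≤ 4608 * (M * η) * Real.exp (G ^ 2 / 8) := by nlinarith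
  rw [z1, norm_mul, norm_real, Real.norm_of_nonneg (Real.exp_pos _).le]
  calc _ ≤ Real.exp ((3 - G ^ 2) / 2) * (4608 * (M * η) * Real.exp (G ^ 2 / 8) *
        Real.exp (n * ‖y‖)) := by
        gcongr
        exact (tilt_one_add_pow y n).trans (by gcongr)
    _ = 4608 * (M * η) * (Real.exp ((3 - G ^ 2) / 2) * Real.exp (G ^ 2 / 8) *
        Real.exp (n * ‖y‖)) := by ring
    _ ≤ 4608 * (M * η) * (9 * Real.exp (-G ^ 2 / 4)) := by gcongr
    _ ≤ _ := by nlinarith [mul_nonneg η0 (Real.exp_pos (-G ^ 2 / 4)).le]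

theorem tilt_rem {a b : ℂ} {G Θ : ℝ} (hG : 0 ≤ G) (h0 : 0 ≤ Θ) (h1 : Θ ≤ 1) (ha : ‖a‖ ≤ 3 * G * Θ)
    (hb : ‖b‖ ≤ 3 / 2 * Θ ^ 2) : ‖a - b‖ ≤ 3 * (1 + G) * Θ ∧
      ‖cexp (a - b) - (1 + a - b + a ^ 2 / 2)‖ ≤ 32 * (1 + G) ^ 3 * Θ ^ 3 * Real.exp ‖a - b‖ := by
  have h2 : ‖a - b‖ ≤ 3 * (1 + G) * Θ := (norm_sub_le _ _).trans (by nlinarith)
  refine ⟨h2, ?_⟩
  have h3 := norm_exp_sub_sum_le_norm_mul_exp (a - b) 3
  have h4 : cexp (a - b) - (1 + a - b + a ^ 2 / 2) = (cexp (a - b) -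
      ∑ m ∈ range 3, (a - b) ^ m / m.factorial) + b * (b / 2 - a) := by
    simp [sum_range_succ]
    ring
  have h5 : ‖b * (b / 2 - a)‖ ≤ 3 / 2 * Θ ^ 2 * (3 * (1 + G) * Θ) := by
    rw [norm_mul]
    refine mul_le_mul hb ((norm_sub_le _ _).trans ?_) (norm_nonneg _) (by positivity)
    rw [norm_div, Complex.norm_two]
    nlinarith
  have h6 := pow_le_pow_left₀ (norm_nonneg _) h2 3
  have h7 := Real.one_le_exp (norm_nonneg (a - b))
  have h8 : (1 + G) * Θ ^ 3 ≤ (1 + G) ^ 3 * Θ ^ 3 := by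
    gcongr
    exact le_self_pow₀ (by linarith) (by norm_num)
  have h9 : 0 ≤ (1 + G) ^ 3 * Θ ^ 3 := by positivity
  rw [h4]
  refine (norm_add_le _ _).trans ?_
  nlinarith [mul_le_mul_of_nonneg_right h6 (Real.exp_pos ‖a - b‖).le]

theorem tilt (A : ℝ) (hA : 1 ≤ A) : ∃ ε1 η0 C : ℝ, 0 < ε1 ∧ 0 < η0 ∧ 1 ≤ C ∧
    ∀ (Ω : Type) [MeasurableSpace Ω] (ν : Measure Ω) [IsProbabilityMeasure ν] (n : ℕ) (ρ : Ω → ℂ)
      (Θ : Ω → ℝ) (s : Fin 3 → Ω → ℂ) (η : ℝ) (g : Fin 3 → ℝ) (u : Ω → ℂ) (Z : ℂ), 1 ≤ n → Bd ρ →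
      Measurable Θ → (∀ i, Measurable (s i)) →
      (∀ ω, 1 / √n ≤ Θ ω ∧ Θ ω ≤ 1 ∧ ∀ i, ‖s i ω‖ ≤ Θ ω) →
      ∫ ω, ‖ρ ω‖ * Real.exp (n * Θ ω ^ 2 / A) ∂ν ≤ A →
      ‖∫ ω, ρ ω ∂ν - 1‖ ≤ η / n → (∀ i, ‖∫ ω, ρ ω * s i ω ∂ν‖ ≤ η / n) →
      (∀ i j, ‖∫ ω, ρ ω * (s i ω * s j ω) ∂ν + if i = j then 1 / (n : ℂ) else 0‖ ≤ η / n) →
      1 / √n ≤ η → η ≤ η0 → ∑ i, g i ^ 2 ≤ ε1 * n →
      (∀ ω, u ω = ∑ i, g i * s i ω - (∑ i, s i ω ^ 2) / 2) → Z = ∫ ω, ρ ω * cexp (u ω) ∂ν →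
      1 / 2 ≤ ‖Z‖ ∧
      ‖Z ^ n - (Real.exp ((3 - ∑ i, g i ^ 2) / 2) : ℝ)‖ ≤ C * η * Real.exp (-(∑ i, g i ^ 2) / 4) ∧
      ∫ ω, ‖ρ ω * cexp (u ω) / Z‖ * Real.exp (n * Θ ω ^ 2 / (2 * A)) ∂ν ≤ C ∧
      (∀ φ : Ω → ℂ, Measurable φ → (∀ ω, ‖φ ω‖ ≤ Θ ω) → ‖∫ ω, ρ ω * φ ω ∂ν‖ ≤ 2 / n →
        ‖∫ ω, ρ ω * cexp (u ω) / Z * φ ω ∂ν‖ ≤ C * (1 + √(∑ i, g i ^ 2)) / n) ∧
      ∀ φ : Ω → ℂ, Measurable φ → (∀ ω, ‖φ ω‖ ≤ η * √n * Θ ω ^ 2) → ‖∫ ω, ρ ω * φ ω ∂ν‖ ≤ η / n →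
        ‖∫ ω, ρ ω * cexp (u ω) / Z * φ ω ∂ν‖ ≤ C * η * (1 + √(∑ i, g i ^ 2)) / n := by
  have A3 : A ≤ A ^ 3 := le_self_pow₀ hA (by norm_num)
  set K := 288 * A ^ 3 with hK
  set δ := 1 / (240 * (32 * K)) with hδ
  have d0 : 0 < δ := by positivity
  have d1 : δ * (240 * (32 * K)) = 1 := one_div_mul_cancel (by positivity)
  refine ⟨δ ^ 2, δ, 50000 * (32 * K), by positivity, d0, by linarith, ?_⟩
  intro Ω _ ν _ n ρ Θ s η g u Z hn hρ hΘ hs hb hI h0 h1 h2 he hη hg hu hZ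
  have n0 : (0 : ℝ) < n := by exact_mod_cast hn
  set e := 1 / √n with he'
  have e0 : 0 < e := by positivity
  have en : n * e ^ 2 = 1 := by rw [he', div_pow, Real.sq_sqrt n0.le]; field_simp
  have e1 : ∀ x : ℝ, x / n = x * e ^ 2 := fun x => by field_simp; linear_combination -x * en
  have e2 : √n * e = 1 := by rw [he']; field_simp
  set G := √(∑ i, g i ^ 2) with hG
  have G0 : 0 ≤ G := Real.sqrt_nonneg _
  have G2 : ∑ i, g i ^ 2 = G ^ 2 := (Real.sq_sqrt (by positivity)).symm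
  rw [G2] at hg ⊢
  have G1 : G * e ≤ δ := abs_le_of_sq_le_sq' (by
    have := mul_le_mul_of_nonneg_right hg (sq_nonneg e)
    rw [mul_assoc, en] at this
    linarith [mul_pow G e 2]) d0.le |>.2
  have G3 : ∀ i, |g i| ≤ G := fun i =>
    Real.abs_le_sqrt (single_le_sum (f := fun i => g i ^ 2) (fun _ _ => sq_nonneg _) (mem_univ i))
  have T0 : ∀ ω, 0 < Θ ω := fun ω => e0.trans_le (hb ω).1
  have a1 : ∀ ω, ‖∑ i, g i * s i ω‖ ≤ 3 * G * Θ ω := fun ω => (norm_sum_le _ _).trans (by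
    refine (sum_le_card_nsmul _ _ (G * Θ ω) fun i _ => ?_).trans (by simp [mul_assoc])
    rw [norm_mul, norm_real]
    exact mul_le_mul (G3 i) ((hb ω).2.2 i) (norm_nonneg _) G0)
  have a2 : ∀ ω, ‖(∑ i, s i ω ^ 2) / 2‖ ≤ 3 / 2 * Θ ω ^ 2 := fun ω => by
    have := (norm_sum_le _ _).trans (sum_le_card_nsmul univ (fun i => ‖s i ω ^ 2‖) (Θ ω ^ 2)
      fun i _ => by rw [norm_pow]; exact pow_le_pow_left₀ (norm_nonneg _) ((hb ω).2.2 i) 2)
    rw [norm_div, Complex.norm_two]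
    simp only [card_univ, Fintype.card_fin, nsmul_eq_mul, Nat.cast_ofNat] at this
    linarith
  have a3 := fun ω => tilt_rem G0 (T0 ω).le (hb ω).2.1 (a1 ω) (a2 ω)
  simp only [← hu] at a3
  have a4 : ∀ ω, Real.exp ‖u ω‖ ≤ 9 * Real.exp (n * Θ ω ^ 2 / (4 * A)) := fun ω => by
    refine le_trans ?_ (mul_le_mul_of_nonneg_right tilt_exp_two (Real.exp_pos _).le)
    rw [← Real.exp_add, hu]
    refine Real.exp_le_exp.2 ((norm_sub_le _ _).trans ?_)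
    have b1 : 3 * G * Θ ω ≤ 9 * A * (G * e) ^ 2 + n * Θ ω ^ 2 / (4 * A) := by
      rw [← sub_le_iff_le_add', le_div_iff₀ (by positivity)]
      have := mul_nonneg n0.le (sq_nonneg (Θ ω - 6 * A * G * e ^ 2))
      linear_combination this - (12 * A * G * Θ ω - 36 * A ^ 2 * G ^ 2 * e ^ 2) * en
    have b2 : (G * e) ^ 2 ≤ δ ^ 2 := pow_le_pow_left₀ (by positivity) G1 2
    have b3 : δ * A ≤ 1 / 240 := by nlinarith
    have b4 : δ ≤ 1 / 240 := by nlinarith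
    have b5 : Θ ω ^ 2 ≤ 1 := pow_le_one₀ (T0 ω).le (hb ω).2.1
    have b6 := mul_le_mul_of_nonneg_left b2 (by positivity : 0 ≤ 9 * A)
    nlinarith [a1 ω, a2 ω]
  have hm : Measurable u := by rw [funext hu]; fun_prop
  have hi : Integrable (fun ω => ‖ρ ω‖ * Real.exp (n * Θ ω ^ 2 / A)) ν := by
    obtain ⟨h3, C, h4⟩ := hρ
    refine Integrable.of_bound (Measurable.aestronglyMeasurable (by fun_prop))
      (C * Real.exp (n * 1 ^ 2 / A)) (.of_forall fun ω => ?_)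
    rw [Real.norm_of_nonneg (by positivity)]
    gcongr
    exacts [(norm_nonneg _).trans (h4 ω), h4 ω, (T0 ω).le, (hb ω).2.1]
  have key : ∀ (F : Ω → ℂ) (c : ℝ), Measurable F → 0 ≤ c →
      (∀ ω, ‖F ω‖ ≤ c * Θ ω ^ 3 * Real.exp ‖u ω‖) →
      Integrable (fun ω => ρ ω * F ω) ν ∧ ‖∫ ω, ρ ω * F ω ∂ν‖ ≤ c * e ^ 3 * K := by
    intro F c hF hc h
    have b1 : ∀ ω, ‖ρ ω * F ω‖ ≤
        c * e ^ 3 * (288 * A ^ 2) * (‖ρ ω‖ * Real.exp (n * Θ ω ^ 2 / A)) := fun ω => by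
      have c1 := Real.quadratic_le_exp_of_nonneg (x := n * Θ ω ^ 2 / (4 * A)) (by positivity)
      have c2 : Θ ω ^ 3 ≤ e ^ 3 * (n * Θ ω ^ 2) ^ 2 := le_of_mul_le_mul_left (by
        have := mul_le_mul_of_nonneg_right (hb ω).1 (pow_pos (T0 ω) 3).le
        linear_combination this - Θ ω ^ 4 * (n * e ^ 2 + 1) * en) e0
      have c3 : (n * Θ ω ^ 2) ^ 2 ≤ 32 * A ^ 2 * Real.exp (n * Θ ω ^ 2 / (4 * A)) := by
        have c0 : (n * Θ ω ^ 2) ^ 2 = 32 * A ^ 2 * ((n * Θ ω ^ 2 / (4 * A)) ^ 2 / 2) := by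
          field_simp; ring
        have : 0 ≤ n * Θ ω ^ 2 / (4 * A) := by positivity
        rw [c0]
        gcongr
        linarith
      have c4 : Real.exp (n * Θ ω ^ 2 / (4 * A)) * Real.exp (n * Θ ω ^ 2 / (4 * A)) ≤
          Real.exp (n * Θ ω ^ 2 / A) := by
        rw [← Real.exp_add, Real.exp_le_exp, ← add_div, div_le_div_iff₀ (by positivity)
          (by positivity)]
        nlinarith [mul_pos (mul_pos n0 (pow_pos (T0 ω) 2)) (zero_lt_one.trans_le hA)]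
      calc _ ≤ ‖ρ ω‖ * (c * (e ^ 3 * (32 * A ^ 2 * Real.exp (n * Θ ω ^ 2 / (4 * A)))) *
            (9 * Real.exp (n * Θ ω ^ 2 / (4 * A)))) := by
            rw [norm_mul]
            gcongr
            refine (h ω).trans ?_
            gcongr
            exacts [c2.trans (by gcongr), a4 ω]
        _ = c * e ^ 3 * (288 * A ^ 2) * (‖ρ ω‖ * (Real.exp (n * Θ ω ^ 2 / (4 * A)) *
            Real.exp (n * Θ ω ^ 2 / (4 * A)))) := by ring
        _ ≤ _ := by gcongr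
    refine ⟨(hi.const_mul _).mono' (hρ.1.mul hF).aestronglyMeasurable (.of_forall b1),
      (norm_integral_le_of_norm_le (hi.const_mul _) (.of_forall b1)).trans ?_⟩
    rw [integral_const_mul]
    calc _ ≤ c * e ^ 3 * (288 * A ^ 2) * A := by gcongr
      _ = _ := by rw [hK]; ring
  have ib : ∀ (F : Ω → ℂ) (c : ℝ), Measurable F → (∀ ω, ‖F ω‖ ≤ c) →
      Integrable (fun ω => ρ ω * F ω) ν := fun F c h3 h4 => (hρ.mul ⟨h3, c, h4⟩).integrable ν
  have i1 : ∀ i, Integrable (fun ω => ρ ω * s i ω) ν := fun i =>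
    ib _ 1 (hs i) fun ω => ((hb ω).2.2 i).trans (hb ω).2.1
  have i2 : ∀ i j, Integrable (fun ω => ρ ω * (s i ω * s j ω)) ν := fun i j =>
    ib _ 1 ((hs i).mul (hs j)) fun ω => (norm_mul_le _ _).trans (mul_le_one₀
      (((hb ω).2.2 i).trans (hb ω).2.1) (norm_nonneg _) (((hb ω).2.2 j).trans (hb ω).2.1))
  have η0 : 0 < η := e0.trans_le he
  have hD : ‖Z - 1 - ((3 - G ^ 2) / 2 * e ^ 2 : ℝ)‖ ≤
      32 * K * (η * ((1 + G) * e) ^ 2 + ((1 + G) * e) ^ 3) := by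
    obtain ⟨b1, b2⟩ := key _ _ (by fun_prop) (by positivity) fun ω => (a3 ω).2
    have b3 : Z = ∫ ω, (ρ ω * (cexp (u ω) - (1 + ∑ i, g i * s i ω - (∑ i, s i ω ^ 2) / 2 +
        (∑ i, g i * s i ω) ^ 2 / 2)) + ρ ω + ∑ i, g i * (ρ ω * s i ω) +
        ∑ i, ∑ j, ((g i * g j - if i = j then 1 else 0) / 2) * (ρ ω * (s i ω * s j ω))) ∂ν := by
      rw [hZ]
      congr 1
      ext ω
      simp [Fin.sum_univ_three]
      ring
    have i3 := fun i => (i1 i).const_mul (g i : ℂ)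
    have i4 := fun i j => (i2 i j).const_mul ((g i * g j - if i = j then 1 else 0 : ℂ) / 2)
    rw [integral_add ((b1.fun_add (hρ.integrable ν)).fun_add
      (integrable_finset_sum _ fun i _ => i3 i))
      (integrable_finset_sum _ fun i _ => integrable_finset_sum _ fun j _ => i4 i j),
      integral_add (b1.fun_add (hρ.integrable ν)) (integrable_finset_sum _ fun i _ => i3 i),
      integral_add b1 (hρ.integrable ν), integral_finset_sum _ fun i _ => i3 i,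
      integral_finset_sum _ fun i _ => integrable_finset_sum _ fun j _ => i4 i j] at b3
    simp only [integral_finset_sum _ fun j _ => i4 _ j, integral_const_mul] at b3
    generalize ∫ ω, ρ ω * (cexp (u ω) - _) ∂ν = R at b2 b3
    have b4 : Z - 1 - ((3 - G ^ 2) / 2 * e ^ 2 : ℝ) = R + (∫ ω, ρ ω ∂ν - 1) +
        ∑ i, g i * ∫ ω, ρ ω * s i ω ∂ν + ∑ i, ∑ j, ((g i * g j - if i = j then 1 else 0) / 2) *
        (∫ ω, ρ ω * (s i ω * s j ω) ∂ν + if i = j then 1 / (n : ℂ) else 0) := by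
      rw [b3, ← e1, ← G2]
      simp [Fin.sum_univ_three]
      ring
    have b5 : ‖∑ i, g i * ∫ ω, ρ ω * s i ω ∂ν‖ ≤ 3 * (G * (η / n)) :=
      (norm_sum_le _ _).trans ((sum_le_card_nsmul _ _ (G * (η / n)) fun i _ => by
        rw [norm_mul, norm_real]
        exact mul_le_mul (G3 i) (h1 i) (norm_nonneg _) G0).trans (by simp))
    have b6 : ‖∑ i, ∑ j, ((g i * g j - if i = j then 1 else 0 : ℂ) / 2) *
        (∫ ω, ρ ω * (s i ω * s j ω) ∂ν + if i = j then 1 / (n : ℂ) else 0)‖ ≤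
        3 * (3 * ((G * G + 1) / 2 * (η / n))) :=
      (norm_sum_le _ _).trans ((sum_le_card_nsmul _ _ (3 * ((G * G + 1) / 2 * (η / n)))
        fun i _ => (norm_sum_le _ _).trans ((sum_le_card_nsmul _ _ ((G * G + 1) / 2 * (η / n))
          fun j _ => by
            rw [norm_mul, norm_div, Complex.norm_two]
            gcongr
            · refine (norm_sub_le _ _).trans (add_le_add ?_ (by split_ifs <;> simp))
              rw [norm_mul, norm_real, norm_real]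
              exact mul_le_mul (G3 i) (G3 j) (norm_nonneg _) G0
            · exact h2 i j).trans (by simp))).trans (by simp))
    rw [b4]
    refine (norm_add_le_of_le (norm_add_le_of_le (norm_add_le_of_le b2 h0) b5) b6).trans ?_
    have b7 : 0 ≤ η * e ^ 2 := by positivity
    have b8 : 6 * (η * ((1 + G) * e) ^ 2) ≤ 32 * K * (η * ((1 + G) * e) ^ 2) := by
      gcongr
      linarith
    rw [e1]
    nlinarith [mul_nonneg b7 G0, mul_nonneg b7 (sq_nonneg G)]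
  obtain ⟨z1, z2⟩ := tilt_pow (by linarith) d1.le G0 e0 en he hη (by linarith) hD
  have fin : ∀ (φ : Ω → ℂ) (c x : ℝ), Measurable φ → 0 ≤ c → (∀ ω, ‖φ ω‖ ≤ c * Θ ω ^ 2) →
      ‖∫ ω, ρ ω * φ ω ∂ν‖ ≤ x →
      ‖∫ ω, ρ ω * cexp (u ω) / Z * φ ω ∂ν‖ ≤ 2 * (x + c * (3 * (1 + G)) * e ^ 3 * K) := by
    intro φ c x h3 h4 h5 h6
    obtain ⟨b1, b2⟩ := key (fun ω => φ ω * (cexp (u ω) - 1)) (c * (3 * (1 + G))) (by fun_prop)
      (by positivity) fun ω => by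
        have := norm_exp_sub_sum_le_norm_mul_exp (u ω) 1
        simp only [range_one, sum_singleton, pow_zero, Nat.factorial_zero, Nat.cast_one, div_one,
          pow_one] at this
        rw [norm_mul]
        calc _ ≤ c * Θ ω ^ 2 * (3 * (1 + G) * Θ ω * Real.exp ‖u ω‖) := by
              gcongr
              exacts [h5 ω, this.trans (by gcongr; exact (a3 ω).1)]
          _ = _ := by ring
    have b3 := ib φ c h3 fun ω => (h5 ω).trans
      (mul_le_of_le_one_right h4 (pow_le_one₀ (T0 ω).le (hb ω).2.1))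
    have b4 : ∫ ω, ρ ω * cexp (u ω) / Z * φ ω ∂ν = (∫ ω, ρ ω * φ ω ∂ν +
        ∫ ω, ρ ω * (φ ω * (cexp (u ω) - 1)) ∂ν) / Z := by
      rw [← integral_add b3 b1, ← integral_div]
      congr 1
      ext ω
      ring
    have b5 := norm_add_le_of_le h6 b2
    rw [b4, norm_div, div_le_iff₀ (by linarith)]
    nlinarith [norm_nonneg (∫ ω, ρ ω * φ ω ∂ν + ∫ ω, ρ ω * (φ ω * (cexp (u ω) - 1)) ∂ν)]
  have r0 : 0 ≤ √n := Real.sqrt_nonneg _
  have K1 : 1 ≤ K := by linarith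
  have K2 : 0 ≤ K * G := by positivity
  refine ⟨z1, z2, ?_, fun φ h3 h4 h5 => ?_, fun φ h3 h4 h5 => ?_⟩
  · refine (integral_mono_of_nonneg (.of_forall fun ω => by positivity) (hi.const_mul 18)
      (.of_forall fun ω => ?_)).trans (by rw [integral_const_mul]; linarith)
    have c4 : Real.exp (n * Θ ω ^ 2 / (4 * A)) * Real.exp (n * Θ ω ^ 2 / (2 * A)) ≤
        Real.exp (n * Θ ω ^ 2 / A) := by
      rw [← Real.exp_add, Real.exp_le_exp, div_add_div _ _ (by positivity) (by positivity),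
        div_le_div_iff₀ (by positivity) (by positivity)]
      nlinarith [mul_pos (mul_pos n0 (pow_pos (T0 ω) 2)) (pow_pos (zero_lt_one.trans_le hA) 2)]
    calc _ ≤ ‖ρ ω‖ * (9 * Real.exp (n * Θ ω ^ 2 / (4 * A))) / (1 / 2) *
          Real.exp (n * Θ ω ^ 2 / (2 * A)) := by
          rw [norm_div, norm_mul]
          gcongr
          exact (norm_exp_le_exp_norm _).trans (a4 ω)
      _ = 18 * (‖ρ ω‖ * (Real.exp (n * Θ ω ^ 2 / (4 * A)) *
          Real.exp (n * Θ ω ^ 2 / (2 * A)))) := by ring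
      _ ≤ 18 * (‖ρ ω‖ * Real.exp (n * Θ ω ^ 2 / A)) := by gcongr
  · refine (fin φ √n _ h3 r0 (fun ω => (h4 ω).trans ?_) h5).trans ?_
    · have := mul_le_mul_of_nonneg_left (hb ω).1 (mul_nonneg r0 (T0 ω).le)
      linear_combination this - Θ ω * e2
    · have : √n * (3 * (1 + G)) * e ^ 3 * K = 3 * (1 + G) * K * e ^ 2 := by
        linear_combination 3 * (1 + G) * K * e ^ 2 * e2
      rw [this, e1, e1, ← add_mul, ← mul_assoc]
      exact mul_le_mul_of_nonneg_right (by nlinarith) (sq_nonneg e)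
  · refine (fin φ (η * √n) _ h3 (by positivity) h4 h5).trans ?_
    have : η * √n * (3 * (1 + G)) * e ^ 3 * K = η * (3 * (1 + G) * K) * e ^ 2 := by
      linear_combination η * (3 * (1 + G) * K) * e ^ 2 * e2
    rw [this, e1, e1, ← add_mul, ← mul_assoc]
    exact mul_le_mul_of_nonneg_right (by
      nlinarith [mul_le_mul_of_nonneg_left K1 η0.le, mul_nonneg η0.le K2]) (sq_nonneg e)

end Pool.Agent.Lib.MP_d20c4f_pr.H53
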