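import Pool.Agent.Lib.MP_d20c4f_pr.H53Exp
import Pool.Agent.Lib.MP_d20c4f_pr.H53Tilt
import Pool.Agent.Lib.MP_d20c4f_pr.H53Pair

/-!
The abstract small field estimate.
-/

namespace Pool.Agent.Lib.MP_d20c4f_pr.H53

open MeasureTheory Complex Finset

theorem sf_final {Zn X : ℂ} {G2 η x K1 K2 : ℝ} (hG : 0 ≤ G2) (hη : 0 ≤ η) (hx0 : 0 ≤ x)
    (hx : x ≤ 3 / 4) (hxη : x ≤ η) (hK1 : 0 ≤ K1) (hK2 : 0 ≤ K2) (hη1 : K1 * η ≤ K2)
    {K3 : ℝ} (hK3 : 0 ≤ K3)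
    (h1 : ‖Zn - (Real.exp ((3 - G2) / 2) : ℝ)‖ ≤ K1 * η * Real.exp (-G2 / 4))
    (h2 : ‖X - 1‖ ≤ K3 * η * (1 + √G2) * Real.exp ((1 + G2) / 8)) :
    ‖cexp (-G2 / 2) * Zn * cexp (-(3 / 4) + x) * X - (Real.exp (3 / 4 - G2) : ℝ)‖ ≤
      (18 * (5 + K2) * K3 + 2 * (5 + K2) + K1) * η * Real.exp (-G2 / 2) := by
  have e1 : Real.exp 1 ≤ 2.72 := Real.exp_one_lt_d9.le.trans (by norm_num)
  have q0 : Real.exp (-G2 / 4) ≤ 1 := Real.exp_le_one_iff.2 (by linarith)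
  have q1 : Real.exp ((3 - G2) / 2) ≤ 5 * Real.exp (-G2 / 4) := by
    have a1 : Real.exp (3 / 2) ≤ 5 := by
      have h3 : Real.exp (3 / 2) ^ 2 = Real.exp 1 ^ 3 := by
        rw [← Real.exp_nat_mul, ← Real.exp_nat_mul]; norm_num
      have h4 : Real.exp 1 ^ 3 ≤ 2.72 ^ 3 := pow_le_pow_left₀ (Real.exp_pos _).le e1 3
      nlinarith [Real.exp_pos (3 / 2)]
    calc Real.exp ((3 - G2) / 2) ≤ Real.exp (3 / 2 + -G2 / 4) := Real.exp_le_exp.2 (by linarith)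
      _ = Real.exp (3 / 2) * Real.exp (-G2 / 4) := Real.exp_add _ _
      _ ≤ _ := mul_le_mul_of_nonneg_right a1 (Real.exp_pos _).le
  have q2 : ‖Zn‖ ≤ (5 + K2) * Real.exp (-G2 / 4) := by
    have := norm_add_le (Zn - (Real.exp ((3 - G2) / 2) : ℝ)) (Real.exp ((3 - G2) / 2) : ℝ)
    rw [sub_add_cancel, norm_real, Real.norm_of_nonneg (Real.exp_pos _).le] at this
    have h3 := mul_le_mul_of_nonneg_right hη1 (Real.exp_pos (-G2 / 4)).le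
    linarith
  have q3 : ‖cexp x‖ ≤ 3 := by
    rw [← ofReal_exp, norm_real, Real.norm_of_nonneg (Real.exp_pos _).le]
    exact (Real.exp_le_exp.2 (by linarith : x ≤ 1)).trans (by linarith)
  have q4 : ‖cexp x - 1‖ ≤ 2 * η := by
    have := Complex.norm_exp_sub_one_le (x := (x : ℂ))
      (by rw [norm_real, Real.norm_of_nonneg hx0]; linarith)
    rw [norm_real, Real.norm_of_nonneg hx0] at this
    linarith
  have q5 : (1 + √G2) * Real.exp ((1 + G2) / 8) * Real.exp (-G2 / 4) ≤ 6 := by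
    have a1 : √G2 ≤ G2 / 8 + 2 := by nlinarith [Real.sq_sqrt hG, sq_nonneg (√G2 - 4)]
    have a2 : G2 / 8 + 1 ≤ Real.exp (G2 / 8) := Real.add_one_le_exp _
    have a3 : Real.exp (G2 / 8) * (Real.exp ((1 + G2) / 8) * Real.exp (-G2 / 4)) =
        Real.exp (1 / 8) := by
      rw [← Real.exp_add, ← Real.exp_add]; ring_nf
    have a4 : Real.exp (1 / 8) ≤ 2 := by
      have := Real.abs_exp_sub_one_le (x := 1 / 8) (by norm_num)
      have h5 := le_abs_self (Real.exp (1 / 8) - 1)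
      norm_num at this
      linarith
    have a5 : 1 + √G2 ≤ 3 * Real.exp (G2 / 8) := by linarith
    calc (1 + √G2) * Real.exp ((1 + G2) / 8) * Real.exp (-G2 / 4) =
        (1 + √G2) * (Real.exp ((1 + G2) / 8) * Real.exp (-G2 / 4)) := mul_assoc _ _ _
      _ ≤ 3 * Real.exp (G2 / 8) * (Real.exp ((1 + G2) / 8) * Real.exp (-G2 / 4)) :=
        mul_le_mul_of_nonneg_right a5 (by positivity)
      _ = 3 * Real.exp (1 / 8) := by rw [mul_assoc, a3]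
      _ ≤ 6 := by linarith
  have e : cexp (-G2 / 2) * Zn * cexp (-(3 / 4) + x) * X - (Real.exp (3 / 4 - G2) : ℝ) =
      ((Real.exp (-G2 / 2) : ℝ) : ℂ) * ((Real.exp (-(3 / 4)) : ℝ) : ℂ) *
        (Zn * cexp x * (X - 1) + Zn * (cexp x - 1) + (Zn - (Real.exp ((3 - G2) / 2) : ℝ))) := by
    have : Real.exp (3 / 4 - G2) =
        Real.exp (-G2 / 2) * Real.exp (-(3 / 4)) * Real.exp ((3 - G2) / 2) := by
      rw [← Real.exp_add, ← Real.exp_add]; ring_nf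
    rw [this, Complex.exp_add]
    push_cast
    ring
  have b1 : ‖Zn * cexp x * (X - 1)‖ ≤ 18 * (5 + K2) * K3 * η := by
    rw [norm_mul, norm_mul]
    calc ‖Zn‖ * ‖cexp x‖ * ‖X - 1‖ ≤ (5 + K2) * Real.exp (-G2 / 4) * 3 *
          (K3 * η * (1 + √G2) * Real.exp ((1 + G2) / 8)) := by gcongr
      _ = 3 * (5 + K2) * K3 * η *
          ((1 + √G2) * Real.exp ((1 + G2) / 8) * Real.exp (-G2 / 4)) := by ring
      _ ≤ 3 * (5 + K2) * K3 * η * 6 := by gcongr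
      _ = _ := by ring
  have b2 : ‖Zn * (cexp x - 1)‖ ≤ 2 * (5 + K2) * η := by
    rw [norm_mul]
    calc ‖Zn‖ * ‖cexp x - 1‖ ≤ (5 + K2) * Real.exp (-G2 / 4) * (2 * η) := by gcongr
      _ ≤ (5 + K2) * 1 * (2 * η) := by gcongr
      _ = _ := by ring
  have b3 : ‖Zn - (Real.exp ((3 - G2) / 2) : ℝ)‖ ≤ K1 * η :=
    h1.trans (mul_le_of_le_one_right (by positivity) q0)
  have b4 : ‖Zn * cexp x * (X - 1) + Zn * (cexp x - 1) + (Zn - (Real.exp ((3 - G2) / 2) : ℝ))‖ ≤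
      (18 * (5 + K2) * K3 + 2 * (5 + K2) + K1) * η := by
    have t1 := norm_add_le (Zn * cexp x * (X - 1) + Zn * (cexp x - 1))
      (Zn - (Real.exp ((3 - G2) / 2) : ℝ))
    have t2 := norm_add_le (Zn * cexp x * (X - 1)) (Zn * (cexp x - 1))
    linarith
  rw [e, norm_mul, norm_mul, norm_real, norm_real, Real.norm_of_nonneg (Real.exp_pos _).le,
    Real.norm_of_nonneg (Real.exp_pos _).le]
  have q6 : Real.exp (-(3 / 4)) ≤ 1 := Real.exp_le_one_iff.2 (by norm_num)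
  calc _ ≤ Real.exp (-G2 / 2) * 1 * ((18 * (5 + K2) * K3 + 2 * (5 + K2) + K1) * η) := by gcongr
    _ = _ := by ring

theorem sf_split {n : ℕ} (hn : 1 ≤ n) (ρ : Fin n → ℂ) (s : Fin 3 → Fin n → ℂ) (W : Pr2 n → ℂ)
    (g : Fin 3 → ℝ) {Z : ℂ} (hZ : Z ≠ 0) :
    (∏ v, ρ v) * (∏ e, W e) * cexp (-(∑ i, ((g i : ℂ) - ∑ v, s i v) ^ 2) / 2) =
      cexp (-((∑ i, g i ^ 2 : ℝ) : ℂ) / 2) * Z ^ n * cexp (-(3 / 4) + ((3 / (4 * n) : ℝ) : ℂ)) *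
        ((∏ v, ρ v * cexp (∑ i, g i * s i v - (∑ i, s i v ^ 2) / 2) / Z) *
          ∏ e : Pr2 n, W e * cexp (-∑ i, s i e.1.1 * s i e.1.2) * cexp (3 / (2 * (n : ℂ) ^ 2))) := by
  have hn0 : (n : ℂ) ≠ 0 := by exact_mod_cast (by omega : n ≠ 0)
  have hc : (Fintype.card (Pr2 n) : ℂ) = n * (n - 1) / 2 := by
    have := congrArg (Nat.cast : ℕ → ℂ) (card_pairs (n := n))
    push_cast [Nat.cast_sub hn] at this
    linear_combination this / 2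
  have e1 : cexp (-(3 / 4) + ((3 / (4 * n) : ℝ) : ℂ)) *
      cexp (3 / (2 * (n : ℂ) ^ 2)) ^ Fintype.card (Pr2 n) = 1 := by
    rw [← Complex.exp_nat_mul, ← Complex.exp_add, hc]
    convert Complex.exp_zero using 2
    push_cast
    field_simp
    ring
  rw [gauss_split, sub_eq_add_neg, Complex.exp_add, Complex.exp_add, Complex.exp_sum,
    ← sum_neg_distrib (s := (univ : Finset (Pr2 n))), Complex.exp_sum]
  simp only [prod_mul_distrib, prod_div_distrib, prod_const, card_univ, Fintype.card_fin]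
  have hZn : Z ^ n * (Z ^ n)⁻¹ = 1 := mul_inv_cancel₀ (pow_ne_zero _ hZ)
  push_cast at e1 ⊢
  generalize cexp (-(3 / 4) + 3 / (4 * (n : ℂ))) = a at *
  generalize cexp (3 / (2 * (n : ℂ) ^ 2)) ^ Fintype.card (Pr2 n) = b at *
  rw [div_eq_mul_inv _ (Z ^ n)]
  generalize (Z ^ n)⁻¹ = c at *
  generalize Z ^ n = d at *
  calc _ = _ * ((a * b) * (d * c)) := by rw [e1, hZn, mul_one, mul_one]
    _ = _ := by ring

section One

variable {Ω : Type} [MeasurableSpace Ω] {ν : Measure Ω} [IsProbabilityMeasure ν] {ρ : Ω → ℂ}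

theorem sf_int (hρ : Bd ρ) {f : Ω → ℂ} (hf : Measurable f) {B : ℝ} (hB : ∀ ω, ‖f ω‖ ≤ B) :
    Integrable (fun ω => ρ ω * f ω) ν := (hρ.mul ⟨hf, B, hB⟩).integrable ν

theorem sf_mom {A η : ℝ} {n : ℕ} {Θ Δ : Ω → ℝ} {a b a' b' : Ω → ℂ} (hA : 1 ≤ A) (hn : 1 ≤ n)
    (hη : 0 ≤ η) (hρ : Bd ρ) (hΘ : Measurable Θ) (ha : Measurable a) (hb : Measurable b)
    (ha' : Measurable a') (hb' : Measurable b')
    (h : ∀ ω, 1 / √n ≤ Θ ω ∧ Θ ω ≤ 1 ∧ Δ ω ≤ η * √n * Θ ω ^ 2 ∧ ‖a ω‖ ≤ Θ ω ∧ ‖b ω‖ ≤ Θ ω ∧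
      ‖a' ω‖ ≤ Θ ω ∧ ‖b' ω‖ ≤ Θ ω ∧ ‖a ω - a' ω‖ ≤ Δ ω ∧ ‖b ω - b' ω‖ ≤ Δ ω)
    (hI : ∫ ω, ‖ρ ω‖ * Real.exp (n * Θ ω ^ 2 / A) ∂ν ≤ A) :
    ‖∫ ω, ρ ω * (a' ω * b' ω) ∂ν - ∫ ω, ρ ω * (a ω * b ω) ∂ν‖ ≤ 4 * A ^ 3 * η / n := by
  have hn0 : (0 : ℝ) < n := by exact_mod_cast hn
  have hs : 0 < √(n : ℝ) := Real.sqrt_pos.2 hn0
  have hA0 : 0 < A := by linarith
  have p0 : ∀ ω, 0 ≤ Θ ω := fun ω => le_trans (by positivity) (h ω).1
  have m1 : ∀ {x y : ℂ} {t : ℝ}, ‖x‖ ≤ t → ‖y‖ ≤ t → t ≤ 1 → ‖x * y‖ ≤ 1 := fun h1 h2 h3 => by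
    rw [norm_mul]
    exact mul_le_one₀ (h1.trans h3) (norm_nonneg _) (h2.trans h3)
  rw [← integral_sub (sf_int hρ (f := fun ω => a' ω * b' ω) (ha'.mul hb') fun ω =>
    m1 (h ω).2.2.2.2.2.1 (h ω).2.2.2.2.2.2.1 (h ω).2.1) (sf_int hρ (f := fun ω => a ω * b ω)
    (ha.mul hb) fun ω => m1 (h ω).2.2.2.1 (h ω).2.2.2.2.1 (h ω).2.1)]
  have hint : Integrable (fun ω => ‖ρ ω‖ * Real.exp (n * Θ ω ^ 2 / A)) ν := by
    obtain ⟨h1, B, h2⟩ := hρ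
    refine Integrable.of_bound (by fun_prop : Measurable _).aestronglyMeasurable
      (B * Real.exp (n * 1 ^ 2 / A)) (.of_forall fun ω => ?_)
    rw [Real.norm_of_nonneg (by positivity)]
    have := (h ω).2.1
    have := p0 ω
    have := h2 ω
    have := (norm_nonneg _).trans (h2 ω)
    gcongr
  refine (norm_integral_le_of_norm_le (hint.const_mul (4 * A ^ 2 * η / n))
    (.of_forall fun ω => ?_)).trans ?_
  · obtain ⟨h1, -, h3, h4, -, -, h7, h8, h9⟩ := h ω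
    have p := p0 ω
    have hd : 0 ≤ Δ ω := (norm_nonneg _).trans h8
    have e : ρ ω * (a' ω * b' ω) - ρ ω * (a ω * b ω) =
        -(ρ ω * (a ω * (b ω - b' ω) + (a ω - a' ω) * b' ω)) := by ring
    rw [e, norm_neg, norm_mul, mul_left_comm]
    refine mul_le_mul_of_nonneg_left ((pair_two h4 h8 h7 h9).trans ?_) (norm_nonneg _)
    have k1 : 1 ≤ √n * Θ ω := by rwa [div_le_iff₀' hs] at h1
    have k2 : (n * Θ ω ^ 2 / A) ^ 2 ≤ 2 * Real.exp (n * Θ ω ^ 2 / A) := by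
      have := Real.quadratic_le_exp_of_nonneg (x := n * Θ ω ^ 2 / A) (by positivity)
      have : 0 ≤ n * Θ ω ^ 2 / A := by positivity
      linarith
    have k3 : Θ ω * Δ ω ≤ Θ ω * (η * √n * Θ ω ^ 2) * (√n * Θ ω) :=
      (mul_le_mul_of_nonneg_left h3 p).trans (le_mul_of_one_le_right (by positivity) k1)
    have k4 : Θ ω * (η * √n * Θ ω ^ 2) * (√n * Θ ω) =
        A ^ 2 * η / n * (n * Θ ω ^ 2 / A) ^ 2 := by
      have : Θ ω * (η * √n * Θ ω ^ 2) * (√n * Θ ω) = η * (√n * √n) * Θ ω ^ 4 := by ring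
      rw [this, Real.mul_self_sqrt hn0.le]
      field_simp
    have k5 := mul_le_mul_of_nonneg_left k2 (by positivity : 0 ≤ A ^ 2 * η / n)
    have k6 : 4 * A ^ 2 * η / n * Real.exp (n * Θ ω ^ 2 / A) =
        2 * (A ^ 2 * η / n * (2 * Real.exp (n * Θ ω ^ 2 / A))) := by ring
    rw [k6, mul_comm (Δ ω)]
    linarith
  · rw [integral_const_mul]
    calc _ ≤ 4 * A ^ 2 * η / n * A := mul_le_mul_of_nonneg_left hI (by positivity)
      _ = _ := by ring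

end One

theorem sf_univ (A : ℝ) (m : ℕ) (hA : 1 ≤ A) :
    ∃ c0 θ0 ε1 η0 C : ℝ, 0 < c0 ∧ 0 < θ0 ∧ 0 < ε1 ∧ 0 < η0 ∧ 1 ≤ C ∧
      ∀ (Ω : Type) [MeasurableSpace Ω] (ν : Measure Ω) [IsProbabilityMeasure ν] (I : Type)
      [Fintype I] (n : ℕ) (ρ : Ω → ℂ) (Θ Δ : Ω → ℝ) (Ψ s : Fin 3 → Ω → ℂ)
      (φ φ' : I → Ω → ℂ) (η : ℝ) (g : Fin 3 → ℝ), Fintype.card I ≤ m → 1 ≤ n →
      Bd ρ → Measurable Θ → Measurable Δ → (∀ i, Measurable (Ψ i)) →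
      (∀ i, Measurable (s i)) → (∀ i, Measurable (φ i)) → (∀ i, Measurable (φ' i)) →
      (∀ ω, 1 / √n ≤ Θ ω ∧ Θ ω ≤ θ0 ∧ 0 ≤ Δ ω ∧ Δ ω ≤ c0 * Θ ω ∧ Δ ω ≤ η * √n * Θ ω ^ 2 ∧
        (∀ i, ‖Ψ i ω‖ ≤ Θ ω ∧ ‖s i ω‖ ≤ Θ ω ∧ ‖Ψ i ω - s i ω‖ ≤ Δ ω) ∧
        ∀ i, ‖φ i ω‖ ≤ Θ ω ∧ ‖φ' i ω‖ ≤ Δ ω) →
      ∫ ω, ‖ρ ω‖ * Real.exp (n * Θ ω ^ 2 / A) ∂ν ≤ A →
      ‖∫ ω, ρ ω ∂ν - 1‖ ≤ η / n →
      (∀ i, ‖∫ ω, ρ ω * Ψ i ω ∂ν‖ ≤ η / n ∧ ‖∫ ω, ρ ω * s i ω ∂ν‖ ≤ η / n) →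
      (∀ i j, ‖∫ ω, ρ ω * (Ψ i ω * Ψ j ω) ∂ν + if i = j then 1 / (n : ℂ) else 0‖ ≤ η / n) →
      (∀ i, ‖∫ ω, ρ ω * φ i ω ∂ν‖ ≤ η / n ∧ ‖∫ ω, ρ ω * φ' i ω ∂ν‖ ≤ η / n) →
      1 / √n ≤ η → η ≤ η0 → ∑ i, g i ^ 2 ≤ ε1 * n →
      ‖∫ ω : Fin n → Ω, (∏ v, ρ (ω v)) * (∏ e : Pr2 n, (1 + ∑ i, Ψ i (ω e.1.1) * Ψ i (ω e.1.2) +
          ∑ i, (φ i (ω e.1.1) * φ' i (ω e.1.2) + φ' i (ω e.1.1) * φ i (ω e.1.2)))) *
          cexp (-(∑ i, ((g i : ℂ) - ∑ v, s i (ω v)) ^ 2) / 2) ∂(Measure.pi fun _ => ν) -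
          (Real.exp (3 / 4 - ∑ i, g i ^ 2) : ℝ)‖ ≤
        C * η * Real.exp (-(∑ i, g i ^ 2) / 2) := by
  obtain ⟨ε1, ηt, Ct, hε1, hηt, hCt, HT⟩ := tilt A hA
  obtain ⟨L, hL, HP⟩ := pair_exp m
  obtain ⟨M, hM⟩ : ∃ M, M = L * Ct := ⟨_, rfl⟩
  have hLM : L ≤ M := by rw [hM]; exact le_mul_of_one_le_right (by linarith) hCt
  have hCM : Ct ≤ M := by rw [hM]; exact le_mul_of_one_le_left (by linarith) hL
  have hM1 : 1 ≤ M := hL.trans hLM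
  have hM2 : M ≤ 2 * A * M ^ 2 := by nlinarith
  obtain ⟨ce, θe, Ce, hce, hθe, hCe, HE⟩ := expand (2 * A * M ^ 2) (3 + (m + 9))
    (1 / (32 * Ct ^ 2)) (hM1.trans hM2) (by positivity)
  obtain ⟨L1, hL1⟩ : ∃ L1, L1 = 1 + 4 * A ^ 3 := ⟨_, rfl⟩
  have hL2 : 2 ≤ L1 := by have := one_le_pow₀ (n := 3) hA; linarith
  have hA0 : 0 < A := by linarith
  have hCt0 : 0 < Ct := by linarith
  have hCe0 : 0 < Ce := by linarith
  have hM0 : 0 < M := by linarith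
  have hL10 : 0 < L1 := by linarith
  refine ⟨min 1 (ce / 2), min 1 (min (ce / 2) (θe / M)), min ε1 1,
    min (min (ηt / L1) (1 / (32 * Ce * Ct ^ 2) / L1)) (θe / (2 * Ct)),
    18 * (5 + Ct) * (Ce * (2 + Ct * L1)) + 2 * (5 + Ct) + Ct * L1, by positivity, by positivity,
    by positivity, by positivity, ?_, ?_⟩
  · have : 0 ≤ 18 * (5 + Ct) * (Ce * (2 + Ct * L1)) := by positivity
    have : 0 ≤ Ct * L1 := by positivity
    linarith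
  intro Ω _ ν _ I _ n ρ Θ Δ Ψ s φ φ' η g hI hn hρ mΘ mΔ mΨ ms mφ mφ' hp hint h0 h1 h2 h3 hη1 hη2
    hg
  have hn1 : (1 : ℝ) ≤ n := by exact_mod_cast hn
  have hn0 : (0 : ℝ) < n := by linarith
  have hs1 : 1 ≤ √(n : ℝ) := Real.one_le_sqrt.2 hn1
  have hs0 : 0 < √(n : ℝ) := by linarith
  have hss : √(n : ℝ) * √(n : ℝ) = n := Real.mul_self_sqrt hn0.le
  have hη0 : 0 < η := lt_of_lt_of_le (by positivity) hη1
  have hηs : 1 ≤ η * √n := by rwa [div_le_iff₀ hs0] at hη1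
  have hnη : 1 / (n : ℝ) ≤ η :=
    (one_div_le_one_div_of_le hs0 (by nlinarith)).trans hη1
  have a1 : L1 * η ≤ ηt := (le_div_iff₀' hL10).1 (hη2.trans ((min_le_left _ _).trans
    (min_le_left _ _)))
  have a2 : L1 * η ≤ 1 / (32 * Ce * Ct ^ 2) := (le_div_iff₀' hL10).1 (hη2.trans
    ((min_le_left _ _).trans (min_le_right _ _)))
  have a3 : η ≤ θe / (2 * Ct) := hη2.trans (min_le_right _ _)
  have a4 : L1 * η ≤ 1 := a2.trans (by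
    rw [div_le_one (by positivity)]
    have := one_le_pow₀ (n := 2) hCt
    nlinarith)
  have a5 : 2 * η ≤ L1 * η := mul_le_mul_of_nonneg_right hL2 hη0.le
  have a6 : η / n ≤ L1 * η / n := div_le_div_of_nonneg_right (by linarith) hn0.le
  have a7 : L1 * η / n ≤ 1 / n := div_le_div_of_nonneg_right a4 hn0.le
  have p0 : ∀ ω, 0 ≤ Θ ω := fun ω => le_trans (by positivity) (hp ω).1
  have p1 : ∀ ω, Θ ω ≤ 1 := fun ω => (hp ω).2.1.trans (min_le_left _ _)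
  have p2 : ∀ ω, Δ ω ≤ Θ ω := fun ω => (hp ω).2.2.2.1.trans
    (mul_le_of_le_one_left (p0 ω) (min_le_left _ _))
  have p3 : ∀ ω, 1 / (n : ℝ) ≤ Θ ω ^ 2 := fun ω => by
    have := pow_le_pow_left₀ (by positivity) (hp ω).1 2
    rwa [div_pow, one_pow, Real.sq_sqrt hn0.le] at this
  have p4 : ∀ ω, Θ ω ^ 2 ≤ Θ ω := fun ω => by have := p0 ω; have := p1 ω; nlinarith
  have p5 : ∀ ω, Θ ω ^ 2 ≤ η * √n * Θ ω ^ 2 := fun ω =>
    le_mul_of_one_le_left (by positivity) hηs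
  have p6 : ∀ ω, η * √n * Θ ω ^ 2 ≤ L1 * η * √n * Θ ω ^ 2 := fun ω => by
    have : η ≤ L1 * η := by linarith
    gcongr
  have p7 : ∀ i j ω, ‖s i ω * s j ω‖ ≤ Θ ω ^ 2 := fun i j ω => by
    rw [norm_mul, sq]
    exact mul_le_mul ((hp ω).2.2.2.2.2.1 i).2.1 ((hp ω).2.2.2.2.2.1 j).2.1 (norm_nonneg _) (p0 ω)
  have hss2 : ∀ i j, ‖∫ ω, ρ ω * (s i ω * s j ω) ∂ν + if i = j then 1 / (n : ℂ) else 0‖ ≤
      L1 * η / n := fun i j => by
    have k := sf_mom (ν := ν) hA hn hη0.le hρ mΘ (mΨ i) (mΨ j) (ms i) (ms j) (fun ω =>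
      ⟨(hp ω).1, p1 ω, (hp ω).2.2.2.2.1, ((hp ω).2.2.2.2.2.1 i).1, ((hp ω).2.2.2.2.2.1 j).1,
        ((hp ω).2.2.2.2.2.1 i).2.1, ((hp ω).2.2.2.2.2.1 j).2.1, ((hp ω).2.2.2.2.2.1 i).2.2,
        ((hp ω).2.2.2.2.2.1 j).2.2⟩) hint
    have k2 := (norm_add_le _ _).trans (add_le_add k (h2 i j))
    rw [← add_assoc, sub_add_cancel] at k2
    refine k2.trans (le_of_eq ?_)
    rw [hL1]; ring
  obtain ⟨G2, hG2⟩ : ∃ G2, G2 = ∑ i, g i ^ 2 := ⟨_, rfl⟩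
  have hG0 : 0 ≤ G2 := by rw [hG2]; positivity
  obtain ⟨Z, hZ⟩ : ∃ Z, Z = ∫ ω, ρ ω * cexp (∑ i, g i * s i ω - (∑ i, s i ω ^ 2) / 2) ∂ν :=
    ⟨_, rfl⟩
  obtain ⟨t1, t2, t3, t4, t5⟩ := HT Ω ν n ρ Θ s (L1 * η) g
    (fun ω => ∑ i, g i * s i ω - (∑ i, s i ω ^ 2) / 2) Z hn hρ mΘ ms
    (fun ω => ⟨(hp ω).1, p1 ω, fun i => ((hp ω).2.2.2.2.2.1 i).2.1⟩) hint (h0.trans a6)
    (fun i => (h1 i).2.trans a6) hss2 (hη1.trans (by linarith)) a1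
    (hg.trans (mul_le_mul_of_nonneg_right (min_le_left _ _) hn0.le)) (fun _ => rfl) hZ
  have hZ0 : Z ≠ 0 := by rintro rfl; norm_num at t1
  rw [← hG2] at t2 t4 t5 hg ⊢
  let q : Fin 3 × Fin 3 → ℂ := fun j => if j.1 = j.2 then -(1 / (n : ℂ)) else 0
  have hq : ∀ j, ‖q j‖ ≤ 1 / n := fun j => by
    simp only [q]
    split_ifs
    · simp
    · simp
  let big : Fin 3 ⊕ I ⊕ Fin 3 × Fin 3 → Ω → ℂ := Sum.elim (fun i ω => (Ψ i ω + s i ω) / 2)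
    (Sum.elim φ fun j ω => -(s j.1 ω * s j.2 ω + q j) / 2)
  let sml : Fin 3 ⊕ I ⊕ Fin 3 × Fin 3 → Ω → ℂ := Sum.elim (fun i ω => Ψ i ω - s i ω)
    (Sum.elim φ' fun j ω => (s j.1 ω * s j.2 ω - q j) / 2)
  have mb : ∀ i, Measurable (big i) := by
    rintro (i | i | i)
    · exact ((mΨ i).add (ms i)).div_const _
    · exact mφ i
    · exact (((ms i.1).mul (ms i.2)).add_const _).neg.div_const _
  have msm : ∀ i, Measurable (sml i) := by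
    rintro (i | i | i)
    · exact (mΨ i).sub (ms i)
    · exact mφ' i
    · exact (((ms i.1).mul (ms i.2)).sub_const _).div_const _
  have nb : ∀ i ω, ‖big i ω‖ ≤ Θ ω := by
    rintro (i | i | i) ω
    · exact pair_half ((hp ω).2.2.2.2.2.1 i).1 ((hp ω).2.2.2.2.2.1 i).2.1
    · exact ((hp ω).2.2.2.2.2.2 i).1
    · change ‖-(s i.1 ω * s i.2 ω + q i) / 2‖ ≤ _
      rw [neg_div, norm_neg]
      exact (pair_half (p7 _ _ ω) ((hq i).trans (p3 ω))).trans (p4 ω)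
  have nsm : ∀ i ω, ‖sml i ω‖ ≤ Δ ω ∨ ‖sml i ω‖ ≤ Θ ω ^ 2 := by
    rintro (i | i | i) ω
    · exact Or.inl ((hp ω).2.2.2.2.2.1 i).2.2
    · exact Or.inl ((hp ω).2.2.2.2.2.2 i).2
    · right
      change ‖(s i.1 ω * s i.2 ω - q i) / 2‖ ≤ _
      rw [sub_eq_add_neg]
      exact pair_half (p7 _ _ ω) (by rw [norm_neg]; exact (hq i).trans (p3 ω))
  have iΨ : ∀ i, Integrable (fun ω => ρ ω * Ψ i ω) ν := fun i =>
    sf_int hρ (mΨ i) fun ω => ((hp ω).2.2.2.2.2.1 i).1.trans (p1 ω)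
  have is : ∀ i, Integrable (fun ω => ρ ω * s i ω) ν := fun i =>
    sf_int hρ (ms i) fun ω => ((hp ω).2.2.2.2.2.1 i).2.1.trans (p1 ω)
  have iss : ∀ i j, Integrable (fun ω => ρ ω * (s i ω * s j ω)) ν := fun i j =>
    sf_int hρ (f := fun ω => s i ω * s j ω) ((ms i).mul (ms j)) fun ω =>
      (p7 i j ω).trans ((p4 ω).trans (p1 ω))
  have hqe : ∀ j : Fin 3 × Fin 3, (if j.1 = j.2 then 1 / (n : ℂ) else 0) = -q j := fun j => by
    simp only [q]; split_ifs <;> simp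
  have hqρ : ∀ j, ‖q j * (∫ ω, ρ ω ∂ν - 1)‖ ≤ η / n := fun j => by
    rw [norm_mul]
    refine (mul_le_mul (hq j) h0 (norm_nonneg _) (by positivity)).trans ?_
    exact mul_le_of_le_one_left (by positivity) ((div_le_one hn0).2 hn1)
  have ib : ∀ i, ‖∫ ω, ρ ω * big i ω ∂ν‖ ≤ 2 / n := by
    have a8 : η / n ≤ 1 / n := a6.trans a7
    have a9 : (2 : ℝ) / n = 1 / n + 1 / n := by ring
    have a10 : (0 : ℝ) ≤ 1 / n := by positivity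
    rintro (i | i | i)
    · have : ∫ ω, ρ ω * big (.inl i) ω ∂ν = (∫ ω, ρ ω * Ψ i ω ∂ν + ∫ ω, ρ ω * s i ω ∂ν) / 2 := by
        rw [← integral_add (iΨ i) (is i), ← integral_div]
        exact integral_congr_ae (.of_forall fun ω => by simp only [big, Sum.elim_inl]; ring)
      rw [this]
      exact (pair_half (h1 i).1 (h1 i).2).trans (by linarith)
    · exact (h3 i).1.trans (by linarith)
    · have : ∫ ω, ρ ω * big (.inr (.inr i)) ω ∂ν =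
          -(∫ ω, ρ ω * (s i.1 ω * s i.2 ω) ∂ν + q i * ∫ ω, ρ ω ∂ν) / 2 := by
        rw [← integral_const_mul, ← integral_add (iss _ _) ((hρ.integrable ν).const_mul _),
          ← integral_neg, ← integral_div]
        exact integral_congr_ae (.of_forall fun ω => by simp only [big, Sum.elim_inr]; ring)
      have k1 := hss2 i.1 i.2
      rw [hqe] at k1
      have e : -(∫ ω, ρ ω * (s i.1 ω * s i.2 ω) ∂ν + q i * ∫ ω, ρ ω ∂ν) / 2 =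
          -(((∫ ω, ρ ω * (s i.1 ω * s i.2 ω) ∂ν + -q i) + q i * (∫ ω, ρ ω ∂ν - 1)) / 2 + q i) := by
        ring
      rw [this, e, norm_neg, a9]
      exact (norm_add_le _ _).trans (add_le_add (pair_half (k1.trans a7) ((hqρ i).trans a8)) (hq i))
  have ism : ∀ i, ‖∫ ω, ρ ω * sml i ω ∂ν‖ ≤ L1 * η / n := by
    rintro (i | i | i)
    · have : ∫ ω, ρ ω * sml (.inl i) ω ∂ν = ∫ ω, ρ ω * Ψ i ω ∂ν - ∫ ω, ρ ω * s i ω ∂ν := by
        rw [← integral_sub (iΨ i) (is i)]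
        exact integral_congr_ae (.of_forall fun ω => by simp only [sml, Sum.elim_inl]; ring)
      rw [this]
      refine (norm_sub_le _ _).trans ((add_le_add (h1 i).1 (h1 i).2).trans ?_)
      rw [← add_div]
      exact div_le_div_of_nonneg_right (by linarith) hn0.le
    · exact (h3 i).2.trans a6
    · have : ∫ ω, ρ ω * sml (.inr (.inr i)) ω ∂ν =
          (∫ ω, ρ ω * (s i.1 ω * s i.2 ω) ∂ν - q i * ∫ ω, ρ ω ∂ν) / 2 := by
        rw [← integral_const_mul, ← integral_sub (iss _ _) ((hρ.integrable ν).const_mul _),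
          ← integral_div]
        exact integral_congr_ae (.of_forall fun ω => by simp only [sml, Sum.elim_inr]; ring)
      have k1 := hss2 i.1 i.2
      rw [hqe] at k1
      have e : (∫ ω, ρ ω * (s i.1 ω * s i.2 ω) ∂ν - q i * ∫ ω, ρ ω ∂ν) / 2 =
          ((∫ ω, ρ ω * (s i.1 ω * s i.2 ω) ∂ν + -q i) + -(q i * (∫ ω, ρ ω ∂ν - 1))) / 2 := by
        ring
      rw [this, e]
      exact pair_half k1 (by rw [norm_neg]; exact (hqρ i).trans a6)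
  have hGs : √G2 ≤ √n := Real.sqrt_le_sqrt
    (hg.trans (mul_le_of_le_one_left hn0.le (min_le_right _ _)))
  have hμ : Ct * (1 + √G2) ≤ θe * n := by
    have b1 : 2 * Ct * η ≤ θe := (le_div_iff₀' (by positivity)).1 a3
    calc Ct * (1 + √G2) ≤ Ct * (√n + √n) := by gcongr
      _ = 2 * Ct * 1 * √n := by ring
      _ ≤ 2 * Ct * (η * √n) * √n := by gcongr
      _ = 2 * Ct * η * (√n * √n) := by ring
      _ ≤ θe * n := by rw [hss]; gcongr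
  have hμ' : Ct * (L1 * η) * (1 + √G2) ≤ Ct * (1 + √G2) := by
    have : Ct * (L1 * η) ≤ Ct := mul_le_of_le_one_right hCt0.le a4
    gcongr
  have hρt : Bd fun ω => ρ ω * cexp (∑ i, g i * s i ω - (∑ i, s i ω ^ 2) / 2) / Z := by
    simp only [div_eq_mul_inv _ Z]
    refine (hρ.mul ⟨by fun_prop, Real.exp (∑ i, |g i| + 3 / 2), fun ω => ?_⟩).mul
      ⟨measurable_const, _, fun _ => le_rfl⟩
    refine (Complex.norm_exp_le_exp_norm _).trans (Real.exp_le_exp.2 ((norm_sub_le _ _).trans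
      (add_le_add ((norm_sum_le _ _).trans (sum_le_sum fun i _ => ?_)) ?_)))
    · rw [norm_mul, norm_real, Real.norm_eq_abs]
      exact mul_le_of_le_one_right (abs_nonneg _) (((hp ω).2.2.2.2.2.1 i).2.1.trans (p1 ω))
    · rw [norm_div, Complex.norm_ofNat]
      refine div_le_div_of_nonneg_right ((norm_sum_le _ _).trans
        ((sum_le_card_nsmul _ _ 1 fun i _ => ?_).trans (by simp))) (by norm_num)
      rw [sq]
      exact (p7 i i ω).trans ((p4 ω).trans (p1 ω))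
  let r : Ω → Ω → ℂ := fun ω ω' => (1 + ∑ i, Ψ i ω * Ψ i ω' +
    ∑ i, (φ i ω * φ' i ω' + φ' i ω * φ i ω')) * cexp (-∑ i, s i ω * s i ω') *
      cexp (3 / (2 * (n : ℂ) ^ 2)) - (1 + ∑ i, (big i ω * sml i ω' + sml i ω * big i ω'))
  have mr : Measurable (Function.uncurry r) := by
    change Measurable fun x : Ω × Ω => r x.1 x.2
    simp only [r]
    fun_prop
  have key := HE Ω ν (Fin 3 ⊕ I ⊕ Fin 3 × Fin 3) n
    (fun ω => ρ ω * cexp (∑ i, g i * s i ω - (∑ i, s i ω ^ 2) / 2) / Z) (fun ω => M * Θ ω)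
    (fun ω => M * (Δ ω + Θ ω ^ 2)) big sml r (2 * η) (Ct * (1 + √G2))
    (Ct * (L1 * η) * (1 + √G2)) (by simp [hI]) hn hρt (by fun_prop) (by fun_prop) mb msm mr
    (fun ω => ?_) (fun ω ω' => ?_) (by rw [integral_div, ← hZ, div_self hZ0]) ?_
    (fun i => ⟨t4 _ (mb i) (nb i) (ib i), t5 _ (msm i) (fun ω => ((nsm i ω).elim
      (fun k => k.trans (hp ω).2.2.2.2.1) (fun k => k.trans (p5 ω))).trans (p6 ω)) (ism i)⟩)
    (by positivity) (by linarith) (by positivity) hμ (by positivity) (hμ'.trans hμ)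
  · simp only [r, add_sub_cancel] at key
    have hsp := fun ω : Fin n → Ω => sf_split hn (fun v => ρ (ω v)) (fun i v => s i (ω v))
      (fun e : Pr2 n => 1 + ∑ i, Ψ i (ω e.1.1) * Ψ i (ω e.1.2) +
        ∑ i, (φ i (ω e.1.1) * φ' i (ω e.1.2) + φ' i (ω e.1.1) * φ i (ω e.1.2))) g hZ0
    rw [← hG2] at hsp
    simp only [hsp]
    rw [integral_const_mul]
    have b0 : 3 / (4 * (n : ℝ)) = 3 / 4 * (1 / n) := by field_simp
    have b1 : (1 : ℝ) / n ≤ 1 := (div_le_one hn0).2 hn1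
    refine sf_final (K1 := Ct * L1) (K2 := Ct) (K3 := Ce * (2 + Ct * L1)) hG0 hη0.le
      (by positivity) (by linarith) (by linarith) (by positivity) hCt0.le
      (by rw [mul_assoc]; exact mul_le_of_le_one_right hCt0.le a4) (by positivity)
      (by rw [mul_assoc Ct]; exact t2) (key.trans ?_)
    have hG1 : 0 ≤ √G2 := Real.sqrt_nonneg _
    have b2 : (1 + √G2) ^ 2 ≤ 2 * (1 + G2) := by
      nlinarith [Real.sq_sqrt hG0, sq_nonneg (√G2 - 1)]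
    have b3 : 1 / (32 * Ct ^ 2) * (Ct * (1 + √G2)) ^ 2 ≤ (1 + G2) / 16 := by
      have : 1 / (32 * Ct ^ 2) * (Ct * (1 + √G2)) ^ 2 = (1 + √G2) ^ 2 / 32 := by field_simp
      rw [this]; linarith
    have b4 : Ce * (Ct * (L1 * η) * (1 + √G2)) ^ 2 ≤ (1 + G2) / 16 := by
      have c1 : (L1 * η) ^ 2 ≤ 1 / (32 * Ce * Ct ^ 2) := by
        refine le_trans ?_ a2
        rw [sq]
        exact mul_le_of_le_one_right (by positivity) a4
      calc Ce * (Ct * (L1 * η) * (1 + √G2)) ^ 2 =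
            Ce * Ct ^ 2 * (L1 * η) ^ 2 * (1 + √G2) ^ 2 := by ring
        _ ≤ Ce * Ct ^ 2 * (1 / (32 * Ce * Ct ^ 2)) * (2 * (1 + G2)) := by gcongr
        _ = _ := by field_simp; ring
    have b5 : 2 * η + Ct * (L1 * η) * (1 + √G2) ≤ (2 + Ct * L1) * η * (1 + √G2) := by
      have : 0 ≤ η * √G2 := by positivity
      nlinarith
    calc _ ≤ Ce * ((2 + Ct * L1) * η * (1 + √G2)) * Real.exp ((1 + G2) / 8) := by
          gcongr
          linarith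
      _ = _ := by ring
  · obtain ⟨k1, k2, k3, k4, k5, -, -⟩ := hp ω
    have := p0 ω
    have c1 : Θ ω ≤ M * Θ ω := le_mul_of_one_le_left this hM1
    have c2 : Δ ω + Θ ω ^ 2 ≤ M * (Δ ω + Θ ω ^ 2) := le_mul_of_one_le_left (by positivity) hM1
    refine ⟨k1.trans c1, (le_div_iff₀' hM0).1 (k2.trans ((min_le_right _ _).trans
      (min_le_right _ _))), by positivity, ?_, ?_, fun i => ⟨(nb i ω).trans c1,
        le_trans ((nsm i ω).elim (fun k => k.trans (le_add_of_nonneg_right (by positivity)))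
          fun k => k.trans (le_add_of_nonneg_left k3)) c2⟩⟩
    · have c3 : Θ ω ≤ ce / 2 := k2.trans ((min_le_right _ _).trans (min_le_left _ _))
      have c4 : Δ ω ≤ ce / 2 * Θ ω :=
        k4.trans (mul_le_mul_of_nonneg_right (min_le_right _ _) this)
      have c5 : Θ ω ^ 2 ≤ ce / 2 * Θ ω := by rw [sq]; gcongr
      rw [mul_left_comm]
      exact mul_le_mul_of_nonneg_left (by linarith) hM0.le
    · have c3 := p5 ω
      calc M * (Δ ω + Θ ω ^ 2) ≤ M * (2 * (η * √n * Θ ω ^ 2)) :=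
            mul_le_mul_of_nonneg_left (by linarith) hM0.le
        _ ≤ M * (2 * (η * √n * Θ ω ^ 2)) * M := le_mul_of_one_le_right (by positivity) hM1
        _ = _ := by ring
  · have k := HP I n (Θ ω) (Θ ω') (Δ ω) (Δ ω') (fun i => Ψ i ω) (fun i => Ψ i ω') (fun i => s i ω)
      (fun i => s i ω') (fun i => φ i ω) (fun i => φ i ω') (fun i => φ' i ω) (fun i => φ' i ω') q
      hI hn (hp ω).1 (p1 ω) (hp ω).2.2.1 (p2 ω) (hp ω').1 (p1 ω') (hp ω').2.2.1 (p2 ω')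
      (hp ω).2.2.2.2.2.1 (hp ω).2.2.2.2.2.2 (hp ω').2.2.2.2.2.1 (hp ω').2.2.2.2.2.2 (fun _ => rfl)
    simp only [r, Fintype.sum_sum_type, big, sml, Sum.elim_inl, Sum.elim_inr, ← add_assoc]
    refine k.trans ?_
    have c1 : L ≤ M ^ 4 := hLM.trans (le_self_pow₀ hM1 (by norm_num))
    have := p0 ω
    have := p0 ω'
    have := (hp ω).2.2.1
    have := (hp ω').2.2.1
    calc _ ≤ M ^ 4 * (Θ ω ^ 2 * (Θ ω' * (Δ ω' + Θ ω' ^ 2)) + Θ ω * (Δ ω + Θ ω ^ 2) * Θ ω' ^ 2) := by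
          gcongr
      _ = _ := by ring
  · refine le_trans (le_of_eq ?_) (t3.trans (hCM.trans hM2))
    refine integral_congr_ae (.of_forall fun ω => ?_)
    simp only
    congr 2
    field_simp

theorem small_field (A : ℝ) (m : ℕ) (hA : 1 ≤ A) :
    ∃ c0 θ0 ε1 η0 C : ℝ, 0 < c0 ∧ 0 < θ0 ∧ 0 < ε1 ∧ 0 < η0 ∧ 1 ≤ C ∧
      ∀ (Ω : Type) [MeasurableSpace Ω] (ν : Measure Ω) [IsProbabilityMeasure ν] (I : Type)
      [Fintype I] (n : ℕ) (S : Set Ω) (ρ : Ω → ℂ) (Θ Δ : Ω → ℝ) (Ψ s : Fin 3 → Ω → ℂ)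
      (φ φ' : I → Ω → ℂ) (η : ℝ) (g : Fin 3 → ℝ), Fintype.card I ≤ m → 1 ≤ n →
      MeasurableSet S → Bd ρ → Measurable Θ → Measurable Δ → (∀ i, Measurable (Ψ i)) →
      (∀ i, Measurable (s i)) → (∀ i, Measurable (φ i)) → (∀ i, Measurable (φ' i)) →
      (∀ ω ∉ S, ρ ω = 0) →
      (∀ ω ∈ S, 1 / √n ≤ Θ ω ∧ Θ ω ≤ θ0 ∧ 0 ≤ Δ ω ∧ Δ ω ≤ c0 * Θ ω ∧ Δ ω ≤ η * √n * Θ ω ^ 2 ∧
        (∀ i, ‖Ψ i ω‖ ≤ Θ ω ∧ ‖s i ω‖ ≤ Θ ω ∧ ‖Ψ i ω - s i ω‖ ≤ Δ ω) ∧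
        ∀ i, ‖φ i ω‖ ≤ Θ ω ∧ ‖φ' i ω‖ ≤ Δ ω) →
      ∫ ω, ‖ρ ω‖ * Real.exp (n * Θ ω ^ 2 / A) ∂ν ≤ A →
      ‖∫ ω, ρ ω ∂ν - 1‖ ≤ η / n →
      (∀ i, ‖∫ ω, ρ ω * Ψ i ω ∂ν‖ ≤ η / n ∧ ‖∫ ω, ρ ω * s i ω ∂ν‖ ≤ η / n) →
      (∀ i j, ‖∫ ω, ρ ω * (Ψ i ω * Ψ j ω) ∂ν + if i = j then 1 / (n : ℂ) else 0‖ ≤ η / n) →
      (∀ i, ‖∫ ω, ρ ω * φ i ω ∂ν‖ ≤ η / n ∧ ‖∫ ω, ρ ω * φ' i ω ∂ν‖ ≤ η / n) →
      1 / √n ≤ η → η ≤ η0 → ∑ i, g i ^ 2 ≤ ε1 * n →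
      ‖∫ ω : Fin n → Ω, (∏ v, ρ (ω v)) * (∏ e : Pr2 n, (1 + ∑ i, Ψ i (ω e.1.1) * Ψ i (ω e.1.2) +
          ∑ i, (φ i (ω e.1.1) * φ' i (ω e.1.2) + φ' i (ω e.1.1) * φ i (ω e.1.2)))) *
          cexp (-(∑ i, ((g i : ℂ) - ∑ v, s i (ω v)) ^ 2) / 2) ∂(Measure.pi fun _ => ν) -
          (Real.exp (3 / 4 - ∑ i, g i ^ 2) : ℝ)‖ ≤
        C * η * Real.exp (-(∑ i, g i ^ 2) / 2) := by
  obtain ⟨c0, θ0, ε1, η0, C, h1, h2, h3, h4, h5, H⟩ := sf_univ A m hA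
  refine ⟨c0, θ0, ε1, min η0 θ0, C, h1, h2, h3, lt_min h4 h2, h5, ?_⟩
  intro Ω _ ν _ I _ n S ρ Θ Δ Ψ s φ φ' η g hI hn hS hρ mΘ mΔ mΨ ms mφ mφ' h0 hp hint k0 k1 k2 k3
    hη1 hη2 hg
  classical
  have hη0 : 0 ≤ η := le_trans (by positivity) hη1
  have e1 : ∀ f : Ω → ℂ, (fun ω => ρ ω * S.indicator f ω) = fun ω => ρ ω * f ω := fun f => by
    funext ω
    by_cases h : ω ∈ S
    · rw [Set.indicator_of_mem h]
    · rw [h0 ω h, zero_mul, zero_mul]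
  have e2 : ∀ f f' : Ω → ℂ, (fun ω => ρ ω * (S.indicator f ω * S.indicator f' ω)) =
      fun ω => ρ ω * (f ω * f' ω) := fun f f' => by
    funext ω
    by_cases h : ω ∈ S
    · rw [Set.indicator_of_mem h, Set.indicator_of_mem h]
    · rw [h0 ω h, zero_mul, zero_mul]
  have key := H Ω ν I n ρ (S.piecewise Θ fun _ => 1 / √n) (S.indicator Δ)
    (fun i => S.indicator (Ψ i)) (fun i => S.indicator (s i)) (fun i => S.indicator (φ i))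
    (fun i => S.indicator (φ' i)) η g hI hn hρ (mΘ.piecewise hS measurable_const)
    (mΔ.indicator hS) (fun i => (mΨ i).indicator hS) (fun i => (ms i).indicator hS)
    (fun i => (mφ i).indicator hS) (fun i => (mφ' i).indicator hS) (fun ω => ?_) ?_ k0
    (by simp only [e1]; exact k1) (by simp only [e2]; exact k2) (by simp only [e1]; exact k3) hη1
    (hη2.trans (min_le_left _ _)) hg
  · refine le_trans (le_of_eq ?_) key
    congr 2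
    refine integral_congr_ae (.of_forall fun ω => ?_)
    by_cases h : ∀ v, ω v ∈ S
    · simp only [Set.indicator_of_mem (h _)]
    · push Not at h
      obtain ⟨v, hv⟩ := h
      have : ∏ v, ρ (ω v) = 0 := prod_eq_zero (mem_univ v) (h0 _ hv)
      simp only [this, zero_mul]
  · by_cases h : ω ∈ S
    · simp only [Set.indicator_of_mem h, Set.piecewise_eq_of_mem _ _ _ h]
      exact hp ω h
    · simp only [Set.indicator_of_notMem h, Set.piecewise_eq_of_notMem _ _ _ h, sub_self, norm_zero]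
      have : (0 : ℝ) ≤ 1 / √n := by positivity
      exact ⟨le_rfl, hη1.trans (hη2.trans (min_le_right _ _)), le_rfl, by positivity,
        by positivity, fun _ => ⟨this, this, le_rfl⟩, fun _ => ⟨this, le_rfl⟩⟩
  · refine le_trans (le_of_eq ?_) hint
    refine integral_congr_ae (.of_forall fun ω => ?_)
    by_cases h : ω ∈ S
    · simp only [Set.piecewise_eq_of_mem _ _ _ h]
    · simp only [h0 ω h, norm_zero, zero_mul]

end Pool.Agent.Lib.MP_d20c4f_pr.H53
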