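import Pool.Agent.Lib.MP_d20c4f_pr.H53Rep

/-!
Change of the contour for small `k`.
-/

namespace Pool.Agent.Lib.MP_d20c4f_pr.H53

open MeasureTheory Complex Finset

theorem swap_avg (F : ℂ → ℂ) {R : ℝ} (hR : 0 < R) : ∫ θ, F (R * E θ) ∂ang =
    (2 * Real.pi * I)⁻¹ • ∮ z in C(0, R), (z - 0)⁻¹ • F z := by
  rw [← Real.circleAverage_eq_circleIntegral hR.ne', Real.circleAverage_eq_integral_add (-Real.pi),
    integral_ang]
  congr 1
  rw [intervalIntegral.integral_comp_add_right (fun θ => F (circleMap 0 R θ)) (-Real.pi)]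
  rw [zero_add, show 2 * Real.pi + -Real.pi = Real.pi by ring]
  simp [circleMap, E]

theorem swap_radius {F : ℂ → ℂ} {R : ℝ} (hR : 1 ≤ R)
    (hF : DifferentiableOn ℂ F (Metric.closedBall 0 R \ {0})) :
    ∫ θ, F (E θ) ∂ang = ∫ θ, F (R * E θ) ∂ang := by
  have h1 := swap_avg F one_pos
  simp only [ofReal_one, one_mul] at h1
  rw [h1, swap_avg F (by linarith)]
  congr 1
  refine (circleIntegral_sub_center_inv_smul_eq_of_differentiable_on_annulus_off_countable one_pos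
    hR Set.countable_empty (hF.continuousOn.mono ?_) fun z hz => hF.differentiableAt ?_).symm
  · rintro z ⟨h2, h3⟩
    refine ⟨h2, ?_⟩
    rintro rfl
    exact h3 (Metric.mem_ball_self one_pos)
  · refine Filter.mem_of_superset ((Metric.isOpen_ball.sdiff isClosed_singleton).mem_nhds
      (show z ∈ Metric.ball 0 R \ {0} from ⟨hz.1.1, ?_⟩))
      (Set.sdiff_subset_sdiff_left Metric.ball_subset_closedBall)
    rintro rfl
    exact hz.1.2 (Metric.mem_closedBall_self zero_le_one)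

theorem swap_mean {F : ℂ → ℂ} {R : ℝ} (hR : 0 < R)
    (hF : DifferentiableOn ℂ F (Metric.closedBall 0 R)) : ∫ θ, F (R * E θ) ∂ang = F 0 := by
  rw [swap_avg F hR, circleIntegral_sub_center_inv_smul_of_differentiable_on_off_countable hR
    Set.countable_empty hF.continuousOn fun z hz => hF.differentiableAt
      (Filter.mem_of_superset (Metric.isOpen_ball.mem_nhds hz.1) Metric.ball_subset_closedBall),
    smul_smul, inv_mul_cancel₀ two_pi_I_ne_zero, one_smul]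

theorem swap_pow (x : ℂ) (D : ℕ) : ∃ H : ℂ → ℂ, Differentiable ℂ H ∧ ∀ w,
    (1 + x * w) ^ D = 1 + D * x * w + D * (D - 1) / 2 * x ^ 2 * w ^ 2 + w ^ 3 * H w := by
  induction D with
  | zero => exact ⟨fun _ => 0, by fun_prop, fun w => by simp⟩
  | succ D ih =>
    obtain ⟨H, h1, h2⟩ := ih
    refine ⟨fun w => D * (D - 1) / 2 * x ^ 3 + H w * (1 + x * w), by fun_prop, fun w => ?_⟩
    rw [pow_succ, h2]
    push_cast
    ring

theorem swap_exp (c : ℂ) : ∃ H : ℂ → ℂ, Differentiable ℂ H ∧ ∀ w,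
    cexp (c * w) = 1 + c * w + c ^ 2 / 2 * w ^ 2 + w ^ 3 * H w := by
  have h0 : AnalyticAt ℂ (fun w => cexp (c * w)) 0 := by fun_prop
  obtain ⟨H, h1, h2⟩ := h0.exists_eq_sum_add_pow_mul 3
  have h3 : ∀ w, cexp (c * w) = 1 + c * w + c ^ 2 / 2 * w ^ 2 + w ^ 3 * H w := by
    intro w
    rw [h2 w]
    simp only [sum_range_succ, range_zero, sum_empty, iteratedDeriv_cexp_const_mul, smul_eq_mul,
      mul_zero, exp_zero, Nat.factorial]
    push_cast
    ring
  refine ⟨H, fun w => ?_, h3⟩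
  by_cases hw : w = 0
  · exact hw ▸ h1.differentiableAt
  · have h4 : DifferentiableAt ℂ
        (fun w => (cexp (c * w) - (1 + c * w + c ^ 2 / 2 * w ^ 2)) / w ^ 3) w :=
      DifferentiableAt.div (by fun_prop) (by fun_prop) (pow_ne_zero _ hw)
    refine h4.congr_of_eventuallyEq ?_
    filter_upwards [isOpen_ne.mem_nhds hw] with z hz
    rw [h3 z]
    field_simp
    ring

theorem swap_rem {D k : ℕ} (h1 : 1 ≤ k) (h2 : k ≤ 2) (h3 : 2 * k ≤ D) (τ : ℝ) :
    ∃ H : ℂ → ℂ, Differentiable ℂ H ∧ ∀ w,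
      Af D k w ^ D = trunc D k τ w * cexp (-(τ * w)) + w ^ (k + 1) * H w := by
  have hK : kap D k ≤ 1 / 2 := by simpa using kap_le (c := 2) (by norm_num) h3
  have hK1 : (1 - (kap D k : ℂ)) ≠ 0 := by
    have : (1 - kap D k : ℝ) ≠ 0 := by linarith
    exact_mod_cast this
  have hD : (D : ℂ) ≠ 0 := by exact_mod_cast (by omega : D ≠ 0)
  have hk : (k : ℂ) = D * (kap D k : ℂ) := by exact_mod_cast (mul_kap (by omega)).symm
  set K : ℂ := (kap D k : ℂ) with hKdef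
  obtain ⟨H1, d1, e1⟩ := swap_pow (K / (1 - K)) D
  obtain ⟨H2, d2, e2⟩ := swap_exp (-τ)
  have hA : ∀ w, Af D k w ^ D = (1 - K) ^ D * (1 + K / (1 - K) * w) ^ D := by
    intro w
    rw [← mul_pow, Af, ← hKdef]
    congr 1
    field_simp
  have hu : (k : ℂ) / (1 - K) = D * (K / (1 - K)) := by rw [hk]; ring
  set x := K / (1 - K) with hx
  rcases (by omega : k = 1 ∨ k = 2) with hk1 | hk2
  · refine ⟨fun w => (1 - K) ^ D * (D * (D - 1) / 2 * x ^ 2 + w * H1 w + (D * x + τ) * τ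
      - (τ ^ 2 / 2 + w * H2 w) * (1 + (D * x + τ) * w)), by fun_prop, fun w => ?_⟩
    rw [hA, e1, ← neg_mul, e2, trunc, if_neg (by omega)]
    push_cast
    rw [← hKdef, hu, hk1]
    ring
  · refine ⟨fun w => (1 - K) ^ D * (H1 w - ((D * x + τ) * τ ^ 2 / 2
      - ((D * x + τ) ^ 2 / 2 - D * x ^ 2 / 2) * τ
      + ((D * x + τ) ^ 2 / 2 - D * x ^ 2 / 2) * τ ^ 2 * w / 2
      + H2 w * (1 + (D * x + τ) * w + ((D * x + τ) ^ 2 / 2 - D * x ^ 2 / 2) * w ^ 2))),
      by fun_prop, fun w => ?_⟩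
    rw [hA, e1, ← neg_mul, e2, trunc, if_pos hk2]
    push_cast
    rw [← hKdef, hu, hk2, show ((D : ℂ) * x) ^ 2 / (2 * D) = D * x ^ 2 / 2 by field_simp]
    ring

theorem swap_densS_cont (D k : ℕ) (τ : ℝ) {R : ℝ} (hR : 0 < R) :
    ContinuousOn (densS D k τ) {w | ‖w‖ = R} := by
  have ht : Continuous (trunc D k τ) := by
    unfold trunc
    split_ifs <;> fun_prop
  unfold densS
  refine ((ContinuousOn.div ht.continuousOn (by fun_prop) fun w hw => pow_ne_zero _ ?_).mul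
    (by fun_prop)).div_const _
  rintro rfl
  simp only [Set.mem_ofPred_eq, norm_zero] at hw
  exact hR.ne hw

theorem int_rep {D k : ℕ} (h1 : 1 ≤ k) (h2 : k ≤ 2) (h3 : 2 * k ≤ D) {R : ℝ} (hR : 1 ≤ R) (τ : ℝ)
    {G : ℂ → ℂ} (hG : DifferentiableOn ℂ G (Metric.closedBall 0 R)) :
    ∫ θ, dens D k (E θ) * G (E θ) ∂ang = ∫ θ, densS D k τ (R * E θ) * G (R * E θ) ∂ang := by
  have hR0 : 0 < R := by linarith
  obtain ⟨H, dH, eH⟩ := swap_rem h1 h2 h3 τ
  have hsub : {w : ℂ | ‖w‖ = R} ⊆ Metric.closedBall 0 R := fun w hw => by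
    simpa using le_of_eq hw
  have hF : DifferentiableOn ℂ (fun w => dens D k w * G w) (Metric.closedBall 0 R \ {0}) := by
    refine DifferentiableOn.mul ?_ (hG.mono Set.sdiff_subset)
    unfold dens
    exact (DifferentiableOn.div (by fun_prop) (by fun_prop)
      fun w hw => pow_ne_zero _ hw.2).div_const _
  have hM : DifferentiableOn ℂ (fun w => w * H w / (Bn D k : ℂ) * G w) (Metric.closedBall 0 R) :=
    DifferentiableOn.mul (by fun_prop) hG
  rw [swap_radius hR hF]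
  have e : ∀ θ, dens D k (R * E θ) * G (R * E θ) = densS D k τ (R * E θ) * G (R * E θ)
      + (R * E θ) * H (R * E θ) / (Bn D k : ℂ) * G (R * E θ) := by
    intro θ
    have hw : (R : ℂ) * E θ ≠ 0 := mul_ne_zero (by exact_mod_cast hR0.ne') (E_ne θ)
    rw [dens, densS, eH]
    generalize (R : ℂ) * E θ = w at hw
    field_simp
    ring
  simp only [e]
  rw [integral_add ((Bd_E hR0.le (F := fun w => densS D k τ w * G w)
    ((swap_densS_cont D k τ hR0).mul (hG.continuousOn.mono hsub))).integrable ang)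
    ((Bd_E hR0.le (hM.continuousOn.mono hsub)).integrable ang), swap_mean hR0 hM]
  simp

theorem Bd_densS (D k : ℕ) (τ : ℝ) {R : ℝ} (hR : 0 < R) :
    Bd fun θ : ℝ => densS D k τ (R * E θ) := Bd_E hR.le (swap_densS_cont D k τ hR)

theorem swap_Bd_comp {Ω Ω' : Type} [MeasurableSpace Ω] [MeasurableSpace Ω'] {F : Ω → ℂ}
    (hF : Bd F) {g : Ω' → Ω} (hg : Measurable g) : Bd fun ω => F (g ω) := by
  obtain ⟨h1, C, h2⟩ := hF
  exact ⟨h1.comp hg, C, fun ω => h2 _⟩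

theorem swap_Bd_dens (D k : ℕ) : Bd fun θ : ℝ => dens D k (E θ) := by
  have := Bd_E (R := 1) zero_le_one (F := dens D k) (by
    unfold dens
    refine (ContinuousOn.div (by fun_prop) (by fun_prop) fun w hw => pow_ne_zero _ ?_).div_const _
    rintro rfl
    simp at hw)
  simpa using this

theorem swap_Bd_two {R : ℝ} {J : ℂ × ℂ → ℂ}
    (hJ : ContinuousOn J (Metric.closedBall 0 R ×ˢ Metric.closedBall 0 R)) {u v : ℝ → ℂ}
    (hu : Continuous u) (hv : Continuous v) (hu' : ∀ θ, ‖u θ‖ ≤ R) (hv' : ∀ θ, ‖v θ‖ ≤ R) :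
    Bd fun θ : ℝ × ℝ => J (u θ.1, v θ.2) := by
  have hm : ∀ θ : ℝ × ℝ, (u θ.1, v θ.2) ∈ Metric.closedBall (0 : ℂ) R ×ˢ Metric.closedBall 0 R :=
    fun θ => ⟨by simpa using hu' _, by simpa using hv' _⟩
  obtain ⟨C, hC⟩ := ((isCompact_closedBall (0 : ℂ) R).prod
    (isCompact_closedBall (0 : ℂ) R)).exists_bound_of_continuousOn hJ
  exact ⟨(hJ.comp_continuous (by fun_prop) hm).measurable, C, fun θ => hC _ (hm θ)⟩

theorem swap_two {D1 D2 k : ℕ} (h1 : 1 ≤ k) (h2 : k ≤ 2) (h3 : 2 * k ≤ D1) (h4 : 2 * k ≤ D2)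
    {R : ℝ} (hR : 1 ≤ R) (τ1 τ2 : ℝ) {J : ℂ × ℂ → ℂ}
    (hJ : DifferentiableOn ℂ J (Metric.closedBall 0 R ×ˢ Metric.closedBall 0 R)) :
    ∫ θ : ℝ × ℝ, dens D1 k (E θ.1) * dens D2 k (E θ.2) * J (E θ.1, E θ.2) ∂(ang.prod ang) =
      ∫ θ : ℝ × ℝ, densS D1 k τ1 (R * E θ.1) * densS D2 k τ2 (R * E θ.2) *
        J (R * E θ.1, R * E θ.2) ∂(ang.prod ang) := by
  have hR0 : 0 < R := by linarith
  have n1 : ∀ θ, ‖E θ‖ ≤ R := fun θ => by simpa using hR
  have n2 : ∀ θ, ‖(R : ℂ) * E θ‖ ≤ R := fun θ => by simp [abs_of_pos hR0]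
  have b1 := ((swap_Bd_comp (swap_Bd_dens D1 k) measurable_fst).mul
    (swap_Bd_comp (swap_Bd_dens D2 k) measurable_snd)).mul
    (swap_Bd_two hJ.continuousOn continuous_E continuous_E n1 n1)
  have b2 := ((swap_Bd_comp (swap_Bd_dens D1 k) measurable_fst).mul
    (swap_Bd_comp (Bd_densS D2 k τ2 hR0) measurable_snd)).mul
    (swap_Bd_two hJ.continuousOn continuous_E (v := fun θ => R * E θ) (by fun_prop) n1 n2)
  have b3 := ((swap_Bd_comp (Bd_densS D1 k τ1 hR0) measurable_fst).mul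
    (swap_Bd_comp (Bd_densS D2 k τ2 hR0) measurable_snd)).mul
    (swap_Bd_two hJ.continuousOn (u := fun θ => R * E θ) (v := fun θ => R * E θ) (by fun_prop)
      (by fun_prop) n2 n2)
  have dr : ∀ a : ℂ, ‖a‖ ≤ R → DifferentiableOn ℂ (fun b => J (a, b)) (Metric.closedBall 0 R) :=
    fun a ha => hJ.comp (by fun_prop) fun b hb => ⟨by simpa using ha, hb⟩
  have dl : ∀ b : ℂ, ‖b‖ ≤ R → DifferentiableOn ℂ (fun a => J (a, b)) (Metric.closedBall 0 R) :=
    fun b hb => hJ.comp (by fun_prop) fun a ha => ⟨ha, by simpa using hb⟩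
  trans ∫ θ : ℝ × ℝ, dens D1 k (E θ.1) * densS D2 k τ2 (R * E θ.2) * J (E θ.1, R * E θ.2)
    ∂(ang.prod ang)
  · rw [integral_prod _ (b1.integrable _), integral_prod _ (b2.integrable _)]
    congr 1
    funext x
    simp only [mul_assoc, integral_const_mul]
    rw [int_rep h1 h2 h4 hR τ2 (dr _ (n1 x))]
  · rw [integral_prod_symm _ (b2.integrable _), integral_prod_symm _ (b3.integrable _)]
    congr 1
    funext y
    simp only [mul_right_comm _ (densS D2 k τ2 (R * E y)), integral_mul_const]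
    rw [int_rep h1 h2 h3 hR τ1 (dl _ (n2 y))]

theorem swap_diff (P : Par) {R : ℝ} (h1 : kap P.D1 P.k * (R + 1) < 1)
    (h2 : kap P.D2 P.k * (R + 1) < 1) (m : Bool × Bool × Bool → ℕ) (l : Fin 3 → ℂ) (z : ℂ) :
    DifferentiableOn ℂ (fun w : ℂ × ℂ => (∏ σ, P.ff σ (z, w) ^ m σ) *
      cexp (∑ i, l i * P.ss i (z, w))) (Metric.closedBall 0 R ×ˢ Metric.closedBall 0 R) := by
  have a1 : ∀ w ∈ Metric.closedBall (0 : ℂ) R ×ˢ Metric.closedBall (0 : ℂ) R,
      Af P.D1 P.k w.1 ≠ 0 := fun w hw => Af_ne_of_norm (by simpa using hw.1) h1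
  have a2 : ∀ w ∈ Metric.closedBall (0 : ℂ) R ×ˢ Metric.closedBall (0 : ℂ) R,
      Af P.D2 P.k w.2 ≠ 0 := fun w hw => Af_ne_of_norm (by simpa using hw.2) h2
  simp only [Par.prod_ff, Fin.sum_univ_three, Par.ss, lamf, Matrix.cons_val_zero,
    Matrix.cons_val_one, Matrix.cons_val, div_eq_mul_inv]
  refine DifferentiableOn.mul (DifferentiableOn.mul (DifferentiableOn.mul (by fun_prop)
    (DifferentiableOn.mul (by fun_prop) (DifferentiableOn.inv (by fun_prop)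
      fun w hw => pow_ne_zero _ (a1 w hw))))
    (DifferentiableOn.mul (by fun_prop) (DifferentiableOn.inv (by fun_prop)
      fun w hw => pow_ne_zero _ (a2 w hw)))) (DifferentiableOn.cexp ?_)
  refine DifferentiableOn.add (DifferentiableOn.add (DifferentiableOn.const_mul ?_ _)
    (by fun_prop)) (by fun_prop)
  exact DifferentiableOn.mul (DifferentiableOn.const_mul
    (DifferentiableOn.mul (by fun_prop) (DifferentiableOn.inv (by fun_prop)
      fun w hw => pow_ne_zero _ (a1 w hw))) _)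
    (DifferentiableOn.mul (by fun_prop) (DifferentiableOn.inv (by fun_prop)
      fun w hw => pow_ne_zero _ (a2 w hw)))

theorem swap_Bd_mom {Ω Sg ι : Type} [MeasurableSpace Ω] [Fintype Sg] [Fintype ι] {ρ : Ω → ℂ}
    {f : Sg → Ω → ℂ} {s : ι → Ω → ℂ} (hρ : Bd ρ) (hf : ∀ σ, Bd (f σ)) (hs : ∀ i, Bd (s i))
    (m : Sg → ℕ) (l : ι → ℂ) :
    Bd fun ω => ρ ω * (∏ σ, f σ ω ^ m σ) * cexp (∑ i, l i * s i ω) := by
  choose C hC using fun σ => (hf σ).2
  choose C' hC' using fun i => (hs i).2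
  have m1 := fun σ => (hf σ).1
  have m2 := fun i => (hs i).1
  refine (hρ.mul ⟨by fun_prop, ∏ σ, C σ ^ m σ, fun ω => ?_⟩).mul
    ⟨by fun_prop, Real.exp (∑ i, ‖l i‖ * C' i), fun ω => ?_⟩
  · rw [norm_prod]
    exact prod_le_prod (fun σ _ => norm_nonneg _) fun σ _ => by
      rw [norm_pow]; exact pow_le_pow_left₀ (norm_nonneg _) (hC σ ω) _
  · refine (norm_exp_le_exp_norm _).trans (Real.exp_le_exp.2 ((norm_sum_le _ _).trans
      (sum_le_sum fun i _ => ?_)))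
    rw [norm_mul]
    exact mul_le_mul_of_nonneg_left (hC' i ω) (norm_nonneg _)

/-- For `k ≤ 2` the last two coordinates may be moved to a large circle. -/
theorem J_rep {P : Par} (hP : P.Ok) (hk : P.k ≤ 2) {R : ℝ} (hR : 1 ≤ R)
    (h1 : kap P.D1 P.k * (R + 1) < 1) (h2 : kap P.D2 P.k * (R + 1) < 1) (τ1 τ2 : ℝ) {S : Set ℝ}
    (hS : MeasurableSet S) (γ : Fin 3 → ℝ) :
    JJ ang3 P.n ({θ : ℝ × ℝ × ℝ | θ.1 ∈ S}.indicator fun θ => P.rho (pt 1 θ))
        (fun σ θ => P.ff σ (pt 1 θ)) (fun i θ => P.ss i (pt 1 θ)) γ =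
      JJ ang3 P.n ({θ : ℝ × ℝ × ℝ | θ.1 ∈ S}.indicator fun θ => 1 / E θ.1 ^ P.d / (Bn P.N P.d : ℂ) *
          densS P.D1 P.k τ1 (R * E θ.2.1) * densS P.D2 P.k τ2 (R * E θ.2.2))
        (fun σ θ => P.ff σ (pt R θ)) (fun i θ => P.ss i (pt R θ)) γ := by
  have hR0 : 0 < R := by linarith
  have hS' : MeasurableSet {θ : ℝ × ℝ × ℝ | θ.1 ∈ S} := measurable_fst hS
  have b0 : Bd fun θ : ℝ => 1 / E θ ^ P.d / (Bn P.N P.d : ℂ) := by
    refine ⟨Continuous.measurable ?_, ‖((Bn P.N P.d : ℝ) : ℂ)‖⁻¹, fun θ => by simp⟩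
    exact (continuous_const.div (by fun_prop) fun θ => pow_ne_zero _ (E_ne θ)).div_const _
  have r1 := P.Bd_rho.indicator hS'
  have r2 := (((swap_Bd_comp b0 measurable_fst).mul
    (swap_Bd_comp (Bd_densS P.D1 P.k τ1 hR0) (measurable_fst.comp measurable_snd))).mul
    (swap_Bd_comp (Bd_densS P.D2 P.k τ2 hR0) (measurable_snd.comp measurable_snd))).indicator hS'
  have f1 := P.Bd_ff zero_le_one hP.kapR1 hP.kapR2
  have f2 := P.Bd_ff hR0.le h1 h2
  have s1 := P.Bd_ss zero_le_one hP.kapR1 hP.kapR2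
  have s2 := P.Bd_ss hR0.le h1 h2
  refine JJ_congr ang3 P.n r1 f1 s1 r2 f2 s2 (fun m _ l => ?_) γ
  have i1 := (swap_Bd_mom r1 f1 s1 m l).integrable (ang.prod (ang.prod ang))
  have i2 := (swap_Bd_mom r2 f2 s2 m l).integrable (ang.prod (ang.prod ang))
  unfold Mom ang3
  rw [integral_prod _ i1]
  refine Eq.trans ?_ (integral_prod _ i2).symm
  congr 1
  funext x
  by_cases hx : x ∈ S
  · have key := swap_two (D1 := P.D1) (D2 := P.D2) hP.k1 hk (by have := hP.kD1; omega)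
      (by have := hP.kD2; omega) hR τ1 τ2
      (swap_diff P h1 h2 m l (E x))
    have hi : ∀ (F : ℝ × ℝ × ℝ → ℂ) (y : ℝ × ℝ),
        {θ : ℝ × ℝ × ℝ | θ.1 ∈ S}.indicator F (x, y) = F (x, y) := fun F y =>
      Set.indicator_of_mem (show (x, y) ∈ {θ : ℝ × ℝ × ℝ | θ.1 ∈ S} from hx) F
    simp only [hi, Par.rho, pt, ofReal_one, one_mul,
      Function.comp_apply, mul_assoc, integral_const_mul] at key ⊢
    rw [key]
  · simp [hx]

end Pool.Agent.Lib.MP_d20c4f_pr.H53
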