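import Pool.Agent.Lib.MP_d20c4f_pr.Cycles

/-!
Random subsets of fixed size.
-/

namespace Pool.Agent.Lib.MP_d20c4f_pr

open Finset

/-- The subsets of size `k`. -/
def TH (d k : ℕ) : Finset (Finset (Fin d)) := powersetCard k univ

/-- The number of subsets of size `k` that contain a given set of size `s`. -/
def rr (d k s : ℕ) : ℕ := if s ≤ k then (d - s).choose (k - s) else 0

variable {d k : ℕ}

theorem mem_TH {S : Finset (Fin d)} : S ∈ TH d k ↔ S.card = k := by simp [TH]

theorem card_sub (A : Finset (Fin d)) : ((TH d k).filter (A ⊆ ·)).card = rr d k A.card := by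
  unfold rr
  split_ifs with h
  · simpa [TH] using card_filter_powersetCard_subset A univ k (subset_univ _) h
  · rw [card_eq_zero, filter_eq_empty_iff]
    exact fun S hS h' => h (mem_TH.1 hS ▸ card_le_card h')

theorem rr_zero : rr d k 0 = (TH d k).card := by simp [rr, TH]

theorem rr_succ (hk : k ≤ d) {s : ℕ} (hs : s < d) :
    (rr d k (s + 1) : ℝ) * (d - s) = rr d k s * (k - s) := by
  unfold rr
  by_cases h : s + 1 ≤ k
  · rw [if_pos h, if_pos (by omega)]
    obtain ⟨a, rfl⟩ := Nat.exists_eq_add_of_le h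
    obtain ⟨b, rfl⟩ := Nat.exists_eq_add_of_le hk
    have := Nat.add_one_mul_choose_eq (a + b) a
    rw [show s + 1 + a + b - (s + 1) = a + b by omega, show s + 1 + a - (s + 1) = a by omega,
      show s + 1 + a + b - s = a + b + 1 by omega, show s + 1 + a - s = a + 1 by omega]
    have h2 : ((a : ℝ) + b + 1) * (a + b).choose a = (a + b + 1).choose (a + 1) * (a + 1) := by
      exact_mod_cast this
    push_cast
    linarith
  · rw [if_neg h]
    split_ifs with h'
    · simp [show s = k by omega]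
    · simp

theorem rr_le (hk : k ≤ d) (s m : ℕ) (h : s + m ≤ d) :
    (rr d k (s + m) : ℝ) ≤ rr d k s * (k / d) ^ m := by
  induction m with
  | zero => simp
  | succ m ih =>
    have h1 := rr_succ hk (show s + m < d by omega)
    have h2 : ((s + m : ℕ) : ℝ) < d := by exact_mod_cast (show s + m < d by omega)
    have h3 : (0 : ℝ) ≤ (s + m : ℕ) := by positivity
    have h4 : (k : ℝ) ≤ d := by exact_mod_cast hk
    rw [pow_succ, ← mul_assoc, ← add_assoc]
    refine le_trans ?_ (mul_le_mul_of_nonneg_right (ih (by omega)) (by positivity))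
    refine le_of_mul_le_mul_right ?_ (sub_pos.2 h2)
    rw [h1, mul_assoc]
    gcongr
    rw [div_mul_eq_mul_div, le_div_iff₀ (by linarith)]
    nlinarith

theorem rr_two (hk : k ≤ d) (hd : 2 ≤ d) : (rr d k 1 : ℝ) * d = (TH d k).card * k ∧
    (rr d k 2 : ℝ) * (d * (d - 1)) = (TH d k).card * (k * (k - 1)) := by
  have h1 := rr_succ hk (show 0 < d by omega)
  have h2 := rr_succ hk (show 1 < d by omega)
  rw [rr_zero] at h1
  simp only [zero_add, CharP.cast_eq_zero, sub_zero, Nat.reduceAdd, Nat.cast_one] at h1 h2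
  exact ⟨h1, by linear_combination d * h2 + (k - 1) * h1⟩

theorem dom (hk : k ≤ d) {T B : Finset (Fin d)} (hB : B ⊆ T) {α β c : ℝ} (h0 : 0 ≤ β) (h1 : β ≤ α)
    (h : k / d * (α - β) = 1 - β)
    (hr : ∀ s, B.card ≤ s → s ≤ d → (rr d k s : ℝ) ≤ (TH d k).card * (k / d) ^ s * (1 - c)) :
    ∑ S ∈ TH d k, ∏ i ∈ T, (if i ∈ S then α else β) ≤
      (TH d k).card * (1 - c * (1 - β) ^ B.card) := by
  have e1 : ∀ S : Finset (Fin d), ∏ i ∈ T, (if i ∈ S then α else β) = ∑ A ∈ T.powerset,
      (if A ⊆ S then (α - β) ^ A.card * β ^ (T \ A).card else 0) := by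
    intro S
    rw [prod_congr rfl (g := fun i => (if i ∈ S then α - β else 0) + β) fun i _ => by
      split_ifs <;> ring, prod_add]
    refine sum_congr rfl fun A _ => ?_
    rw [prod_ite_zero, prod_const, prod_const]
    simp [subset_iff]
  have e2 : ∑ A ∈ T.powerset, (1 - β) ^ A.card * β ^ (T \ A).card = 1 := by
    have := prod_add (fun _ => 1 - β) (fun _ => β) T
    simp only [sub_add_cancel, prod_const, one_pow] at this
    exact this.symm
  have e3 : ∑ A ∈ T.powerset, (if B ⊆ A then (1 - β) ^ A.card * β ^ (T \ A).card else 0) =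
      (1 - β) ^ B.card := by
    have := prod_add (fun _ => 1 - β) (fun i => if i ∉ B then β else 0) T
    rw [prod_congr rfl (g := fun i => if i ∈ B then 1 - β else 1) fun i _ => by
      by_cases hi : i ∈ B <;> simp [hi], prod_ite_mem, inter_eq_right.2 hB, prod_const] at this
    rw [this]
    refine sum_congr rfl fun A _ => ?_
    rw [prod_ite_zero, prod_const, prod_const, mul_ite, mul_zero]
    split_ifs with a1 a2 a2
    · rfl
    · exact (a2 fun i hi hb => (mem_sdiff.1 hi).2 (a1 hb)).elim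
    · exact (a1 fun i hi => by_contra fun hA => a2 i (mem_sdiff.2 ⟨hB hi, hA⟩) hi).elim
    · rfl
  simp only [e1]
  rw [sum_comm, ← e3]
  nth_rewrite 1 [← e2]
  rw [mul_sum, ← sum_sub_distrib, mul_sum]
  refine sum_le_sum fun A _ => ?_
  rw [← sum_filter, sum_const, card_sub, nsmul_eq_mul, ← h, mul_pow]
  have a0 : 0 ≤ (α - β) ^ A.card * β ^ (T \ A).card := mul_nonneg (pow_nonneg (by linarith) _)
    (by positivity)
  have a1 : A.card ≤ d := (card_le_univ A).trans (by simp)
  split_ifs with h2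
  · have := mul_le_mul_of_nonneg_right (hr _ (card_le_card h2) a1) a0
    linarith
  · have := rr_le hk 0 A.card (by omega)
    rw [zero_add, rr_zero] at this
    have := mul_le_mul_of_nonneg_right this a0
    linarith

theorem dom₁ (hk : k < d) (T : Finset (Fin d)) {α β τ : ℝ} (h0 : 0 ≤ β) (h1 : β ≤ α)
    (h : k / d * (α - β) = 1 - β) (hτ : τ ^ 2 ≤ (1 - β) ^ 2) :
    ∑ S ∈ TH d k, ∏ i ∈ T, (if i ∈ S then α else β) ≤
      (TH d k).card * (1 - if 2 ≤ T.card then τ ^ 2 / d ^ 2 else 0) := by
  split_ifs with h2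
  · obtain ⟨B, hB, hc⟩ := exists_subset_card_eq h2
    have hd : 2 ≤ d := h2.trans ((card_le_univ T).trans (by simp))
    have d2 : (2 : ℝ) ≤ d := by exact_mod_cast hd
    have k1 : (k : ℝ) + 1 ≤ d := by exact_mod_cast hk
    refine (dom hk.le hB h0 h1 (c := 1 / d ^ 2) h fun s hs hs' => ?_).trans ?_
    · obtain ⟨m, rfl⟩ := Nat.exists_eq_add_of_le (hc ▸ hs : 2 ≤ s)
      refine (rr_le hk.le 2 m hs').trans ?_
      rw [pow_add, ← mul_assoc, mul_right_comm]
      gcongr
      refine le_of_mul_le_mul_right ?_ (show (0 : ℝ) < d * (d - 1) by nlinarith)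
      rw [(rr_two hk.le hd).2, mul_assoc, mul_assoc]
      refine mul_le_mul_of_nonneg_left ?_ (by positivity)
      have : ((k : ℝ) / d) ^ 2 * ((1 - 1 / d ^ 2) * (d * (d - 1))) =
          k * (k * ((d ^ 2 - 1) * (d - 1)) / d ^ 3) := by field_simp
      rw [this]
      refine mul_le_mul_of_nonneg_left ?_ (by positivity)
      rw [le_div_iff₀ (by positivity)]
      nlinarith [mul_le_mul_of_nonneg_right k1 (show (0 : ℝ) ≤ d ^ 2 + d - 1 by nlinarith)]
    · rw [hc, one_div, inv_mul_eq_div]
      gcongr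
  · refine (dom hk.le (empty_subset T) h0 h1 (c := 0) h fun s _ hs => ?_).trans (by simp)
    simpa [rr_zero] using rr_le hk.le 0 s (by omega)

theorem dom₂ (h0 : 0 < k) (hk : k < d) (T : Finset (Fin d)) {α β τ : ℝ} (ha : 0 ≤ α) (hb : 0 ≤ β)
    (h : k / d * (α - β) = 1 - β) (hτ : τ ^ 2 ≤ (1 - β) ^ 2) (hτ' : τ ^ 2 ≤ (1 - α) ^ 2) :
    ∑ S ∈ TH d k, ∏ i ∈ T, (if i ∈ S then α else β) ≤
      (TH d k).card * (1 - if 2 ≤ T.card then τ ^ 2 / d ^ 2 else 0) := by
  rcases le_total β α with h1 | h1
  · exact dom₁ hk T hb h1 h hτ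
  have d0 : (0 : ℝ) < d := by exact_mod_cast h0.trans hk
  have := dom₁ (show d - k < d by omega) T ha h1 (by
    rw [Nat.cast_sub hk.le, sub_div, div_self d0.ne']
    linarith) hτ'
  rw [show (TH d (d - k)).card = (TH d k).card by simp [TH, Nat.choose_symm hk.le]] at this
  refine le_trans (le_of_eq ?_) this
  refine sum_nbij' compl compl (fun S hS => ?_) (fun S hS => ?_) (by simp) (by simp) fun S _ => ?_
  · rw [mem_TH, card_compl, mem_TH.1 hS, Fintype.card_fin]
  · rw [mem_TH, card_compl, mem_TH.1 hS, Fintype.card_fin]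
    omega
  · exact prod_congr rfl fun i _ => by by_cases hi : i ∈ S <;> simp [hi]

/-- The sizes of the two colour classes at a vertex. -/
def mm (d k : ℕ) (b : Bool) : ℝ := if b then k else d - k

/-- The numbers of ordered pairs of distinct points with given colours at a vertex. -/
def A1 (d k : ℕ) (b b' : Bool) : ℝ := mm d k b * (mm d k b' - if b = b' then 1 else 0)

theorem one_pt (hk : k ≤ d) (hd : 2 ≤ d) (b : Bool) (p : Fin d) :
    (∑ S ∈ TH d k, if decide (p ∈ S) = b then (1 : ℝ) else 0) * d = (TH d k).card * mm d k b := by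
  have h1 : (∑ S ∈ TH d k, if p ∈ S then (1 : ℝ) else 0) * d = (TH d k).card * k := by
    rw [← (rr_two hk hd).1, ← card_singleton p, ← card_sub]
    simp
  cases b
  · rw [sum_congr rfl (g := fun S => 1 - if p ∈ S then 1 else 0) fun S _ => by
      by_cases h : p ∈ S <;> simp [h], sum_sub_distrib]
    simp only [sum_const, nsmul_eq_mul, mm, Bool.false_eq_true, if_false]
    linarith
  · simpa [mm] using h1

theorem two_pt (hk : k ≤ d) (hd : 2 ≤ d) (b b' : Bool) {p q : Fin d} (h : p ≠ q) :
    (∑ S ∈ TH d k, (if decide (p ∈ S) = b then (1 : ℝ) else 0) *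
      if decide (q ∈ S) = b' then 1 else 0) * (d * (d - 1)) = (TH d k).card * A1 d k b b' := by
  have h1 := one_pt hk hd true p
  have h2 := one_pt hk hd true q
  have h3 : (∑ S ∈ TH d k, (if p ∈ S then (1 : ℝ) else 0) * if q ∈ S then 1 else 0) *
      (d * (d - 1)) = (TH d k).card * (k * (k - 1)) := by
    rw [← (rr_two hk hd).2, ← card_pair h, ← card_sub, card_filter]
    push_cast
    congr 1
    exact sum_congr rfl fun S _ => by
      by_cases h1 : p ∈ S <;> by_cases h2 : q ∈ S <;> simp [insert_subset_iff, h1, h2]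
  simp only [decide_eq_true_eq, mm, if_true] at h1 h2
  have e : ∀ (p : Fin d) (S : Finset (Fin d)), (if decide (p ∈ S) = false then (1 : ℝ) else 0) =
      1 - if p ∈ S then 1 else 0 := fun p S => by by_cases h : p ∈ S <;> simp [h]
  cases b <;> cases b' <;> simp only [e, decide_eq_true_eq, mul_sub, sub_mul, one_mul, mul_one,
    sum_sub_distrib, sum_const, nsmul_eq_mul, A1, mm, Bool.false_eq_true, Bool.true_eq_false,
    if_true, if_false] at h3 ⊢
  · linear_combination h3 - (d - 1) * h1 - (d - 1) * h2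
  · linear_combination -h3 + (d - 1) * h2
  · linear_combination -h3 + (d - 1) * h1
  · linear_combination h3

open Classical in
theorem AT_loc {ι κ : Type} [Fintype ι] [DecidableEq ι] (g : ι → κ) (c c' : κ) :
    (AT (fun _ => ()) g c c' : ℝ) = NC g c * (NC g c' - if c = c' then 1 else 0) := by
  have h := card_filter_add_card_filter_not (s := (univ.filter fun p => g p = c) ×ˢ
    univ.filter fun p => g p = c') fun e => e.1 ≠ e.2
  have h1 : (((univ.filter fun p => g p = c) ×ˢ univ.filter fun p => g p = c').filter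
      fun e => ¬ e.1 ≠ e.2).card = if c = c' then NC g c else 0 := by
    split_ifs with h2
    · subst h2
      exact card_bij (fun e _ => e.1) (by simp +contextual) (by simp +contextual)
        fun p hp => ⟨(p, p), by simpa using hp, rfl⟩
    · simp only [card_eq_zero, filter_eq_empty_iff, mem_product, mem_filter]
      exact fun e he h3 => h2 (by rw [← he.1.2, ← he.2.2, not_not.1 h3])
  have h2 : (((univ.filter fun p => g p = c) ×ˢ univ.filter fun p => g p = c').filter
      fun e => e.1 ≠ e.2).card = AT (fun _ => ()) g c c' := by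
    unfold AT
    congr 1
    ext e
    simp [and_comm]
  rw [h1, h2, card_product] at h
  have h3 : (AT (fun _ => ()) g c c' : ℝ) + (if c = c' then NC g c else 0 : ℕ) = NC g c * NC g c' := by
    exact_mod_cast h
  split_ifs at h3 ⊢
  · linarith
  · simpa using h3

theorem NC_glob {V ι κ : Type} [Fintype V] [DecidableEq V] [Fintype ι] [DecidableEq ι]
    (g : V → ι → κ) (c : κ) : NC (fun p : V × ι => g p.1 p.2) c = ∑ v, NC (g v) c := by
  simp only [NC, card_filter, Fintype.sum_prod_type]

theorem AT_glob {V ι κ : Type} [Fintype V] [DecidableEq V] [Fintype ι] [DecidableEq ι]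
    (g : V → ι → κ) (c c' : κ) :
    AT Prod.fst (fun p : V × ι => g p.1 p.2) c c' = ∑ v, AT (fun _ => ()) (g v) c c' := by
  classical
  unfold AT
  rw [card_eq_sum_card_fiberwise (f := fun e => e.1.1) (t := univ) (by simp)]
  refine sum_congr rfl fun v _ => card_bij (fun e _ => (e.1.2, e.2.2)) ?_ ?_ ?_
  · rintro ⟨⟨a, b⟩, a', b'⟩
    simp only [mem_filter, mem_univ, true_and]
    rintro ⟨⟨⟨rfl, h1⟩, h2⟩, rfl⟩
    exact ⟨fun h => h1 (by rw [h]), h2⟩
  · rintro ⟨⟨a, b⟩, a', b'⟩ h1 ⟨⟨e, f⟩, e', f'⟩ h2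
    simp only [mem_filter, mem_univ, true_and] at h1 h2
    obtain ⟨⟨⟨rfl, _⟩, _⟩, rfl⟩ := h1
    obtain ⟨⟨⟨rfl, _⟩, _⟩, rfl⟩ := h2
    simp
  · rintro ⟨a, b⟩ h
    exact ⟨((v, a), (v, b)), by simpa using h, rfl⟩

/-- The four-colouring at a vertex. -/
def c2 (θ : Finset (Fin d) × Finset (Fin d)) (p : Fin d) : Bool × Bool :=
  (decide (p ∈ θ.1), decide (p ∈ θ.2))

theorem sum_NC (hk : k ≤ d) (hd : 2 ≤ d) (c : Bool × Bool) :
    ∑ θ ∈ TH d k ×ˢ TH d k, (NC (c2 θ) c : ℝ) =
      (TH d k ×ˢ TH d k).card * (mm d k c.1 * mm d k c.2 / d) := by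
  have d0 : (0 : ℝ) < d := by positivity
  simp only [NC, card_filter]
  push_cast
  rw [sum_comm, sum_congr rfl (g := fun _ => (TH d k).card * mm d k c.1 / d *
    ((TH d k).card * mm d k c.2 / d)) fun p _ => ?_]
  · simp only [sum_const, card_univ, Fintype.card_fin, nsmul_eq_mul, card_product]
    push_cast
    field_simp
  · rw [← one_pt hk hd c.1 p, ← one_pt hk hd c.2 p, mul_div_cancel_right₀ _ d0.ne',
      mul_div_cancel_right₀ _ d0.ne', sum_mul_sum, sum_product]
    refine sum_congr rfl fun S _ => sum_congr rfl fun S' _ => ?_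
    simp only [c2, Prod.ext_iff, ite_and]
    split_ifs <;> simp

theorem sum_AT (hk : k ≤ d) (hd : 2 ≤ d) (c c' : Bool × Bool) :
    ∑ θ ∈ TH d k ×ˢ TH d k, (AT (fun _ => ()) (c2 θ) c c' : ℝ) =
      (TH d k ×ˢ TH d k).card * (A1 d k c.1 c'.1 * A1 d k c.2 c'.2 / (d * (d - 1))) := by
  have d2 : (2 : ℝ) ≤ d := by exact_mod_cast hd
  have d0 : (0 : ℝ) < d * (d - 1) := by nlinarith
  simp only [AT, card_filter, true_and, ite_and]
  push_cast
  rw [sum_comm, sum_congr rfl (g := fun e => if e.1 ≠ e.2 then (TH d k).card * A1 d k c.1 c'.1 /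
    (d * (d - 1)) * ((TH d k).card * A1 d k c.2 c'.2 / (d * (d - 1))) else 0) fun e _ => ?_]
  · have h := AT_loc (fun _ : Fin d => ()) () ()
    simp only [AT, NC, true_and, and_true, filter_true, card_univ, Fintype.card_fin, if_true] at h
    rw [← sum_filter, sum_const, nsmul_eq_mul, card_product]
    rw [show ((univ.filter fun e : Fin d × Fin d => e.1 ≠ e.2).card : ℝ) = d * (d - 1) by
      convert h]
    push_cast
    field_simp
  · split_ifs with h
    · rw [← two_pt hk hd c.1 c'.1 h, ← two_pt hk hd c.2 c'.2 h, mul_div_cancel_right₀ _ d0.ne',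
        mul_div_cancel_right₀ _ d0.ne', sum_mul_sum, sum_product]
      refine sum_congr rfl fun S _ => sum_congr rfl fun S' _ => ?_
      simp only [c2, Prod.ext_iff, ite_and]
      split_ifs <;> simp
    · simp

end Pool.Agent.Lib.MP_d20c4f_pr
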