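import Pool.Agent.Lib.MP_d20c4f_pr.Basic

/-!
Stirling bounds for the number of pairings, and two estimates for sums of independent terms.
-/

namespace Pool.Agent.Lib.MP_d20c4f_pr

open Finset Filter Topology Real

theorem MM_fact (m : ℕ) : MM (2 * m) * 2 ^ m * m.factorial = (2 * m).factorial := by
  induction m with
  | zero => simp [MM]
  | succ m ih =>
    rw [show 2 * (m + 1) = 2 * m + 1 + 1 by ring, Nat.factorial_succ (2 * m + 1),
      Nat.factorial_succ (2 * m), ← ih, MM, Nat.factorial_succ]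
    ring

theorem MM_sq {m : ℕ} (hm : m ≠ 0) : (MM (2 * m) : ℝ) ^ 2 =
    2 * (Stirling.stirlingSeq (2 * m) / Stirling.stirlingSeq m) ^ 2 *
      (((2 * m : ℕ) : ℝ) / exp 1) ^ (2 * m) := by
  have h : (MM (2 * m) : ℝ) * 2 ^ m * m.factorial = (2 * m).factorial := by exact_mod_cast MM_fact m
  have h0 : (0 : ℝ) < m := by positivity
  have h1 : (0 : ℝ) < m.factorial := by positivity
  unfold Stirling.stirlingSeq
  push_cast
  have h2 : (0 : ℝ) < m / exp 1 := by positivity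
  rw [← h, show (2 * (m : ℝ) / exp 1) = 2 * (m / exp 1) by ring]
  generalize (m : ℝ) / exp 1 = x at h2
  rw [div_pow, div_pow, div_pow, mul_pow (√_), mul_pow (√_), sq_sqrt (by positivity),
    sq_sqrt (by positivity), mul_pow 2 x, pow_mul' (2 : ℝ), pow_mul' x]
  field_simp

theorem MM_sq_le (N : ℕ) : (MM N : ℝ) ^ 2 ≤ 2 * ((N : ℝ) / exp 1) ^ N := by
  by_cases h : Even N
  · obtain ⟨m, rfl⟩ := h.two_dvd
    rcases m with _ | m
    · simp [MM]
    rw [MM_sq (by omega)]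
    refine mul_le_mul_of_nonneg_right (mul_le_of_le_one_right zero_le_two (pow_le_one₀ (div_nonneg
      (Stirling.stirlingSeq'_pos (2 * m + 1)).le (Stirling.stirlingSeq'_pos m).le) ?_)) (by positivity)
    rw [div_le_one (Stirling.stirlingSeq'_pos m)]
    exact Stirling.stirlingSeq'_antitone (show m ≤ 2 * m + 1 by omega)
  · rw [MM_odd h]
    simp only [CharP.cast_eq_zero, ne_eq, OfNat.ofNat_ne_zero, not_false_eq_true, zero_pow]
    positivity

theorem MM_sq_ge {η : ℝ} (hη : 0 < η) : ∀ᶠ N : ℕ in atTop, Even N →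
    2 * (1 - η) * ((N : ℝ) / exp 1) ^ N ≤ (MM N : ℝ) ^ 2 := by
  have h1 : Tendsto (fun m : ℕ => (Stirling.stirlingSeq (2 * m) / Stirling.stirlingSeq m) ^ 2)
      atTop (𝓝 1) := by
    have := ((Stirling.tendsto_stirlingSeq_sqrt_pi.comp (tendsto_id.const_mul_atTop' two_pos)).div
      Stirling.tendsto_stirlingSeq_sqrt_pi (by positivity)).pow 2
    rw [div_self (by positivity), one_pow] at this
    exact this
  obtain ⟨m₀, h2⟩ := eventually_atTop.1 (h1.eventually (le_mem_nhds (show 1 - η < 1 by linarith)))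
  filter_upwards [eventually_ge_atTop (2 * m₀ + 2)] with N hN h
  obtain ⟨m, rfl⟩ := h.two_dvd
  rw [MM_sq (by omega)]
  have := h2 m (by omega)
  gcongr

variable {α : Type} (T : Finset α)

theorem sum_exp_sum (n : ℕ) (y : α → ℝ) (g : α → ℝ) :
    ∑ ω ∈ Fintype.piFinset fun _ : Fin n => T, (∏ v, g (ω v)) * exp (∑ v, y (ω v)) =
      (∑ a ∈ T, g a * exp (y a)) ^ n := by
  simp only [exp_sum, ← prod_mul_distrib]
  rw [← prod_univ_sum (fun _ => T) fun _ a => g a * exp (y a)]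
  simp

open Classical in
theorem chernoff₁ (n : ℕ) {y : α → ℝ} {b δ : ℝ} (h0 : ∑ a ∈ T, y a = 0) (hb : 0 < b)
    (hy : ∀ a ∈ T, |y a| ≤ b) (hδ : 0 ≤ δ) (hδ' : δ ≤ 2 * b) :
    (((Fintype.piFinset fun _ : Fin n => T).filter fun ω => δ * n ≤ ∑ v, y (ω v)).card : ℝ) ≤
      T.card ^ n * exp (-(δ ^ 2 / (4 * b ^ 2)) * n) := by
  set s := δ / (2 * b ^ 2) with hs
  have s0 : 0 ≤ s := by positivity
  have h1 := sum_exp_sum T n (fun a => s * y a) fun _ => 1
  simp only [prod_const_one, one_mul] at h1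
  have h2 : ∑ a ∈ T, exp (s * y a) ≤ T.card * exp ((s * b) ^ 2) := by
    calc _ ≤ ∑ a ∈ T, (1 + (s * b) ^ 2 + s * y a) := by
          refine sum_le_sum fun a ha => ?_
          have h3 : |s * y a| ≤ s * b := by
            rw [abs_mul, abs_of_nonneg s0]
            exact mul_le_mul_of_nonneg_left (hy a ha) s0
          have h4 : s * b ≤ 1 := by
            rw [hs, div_mul_eq_mul_div, div_le_one (by positivity)]
            nlinarith
          have h5 := (abs_le.1 (abs_exp_sub_one_sub_id_le (h3.trans h4))).2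
          have h6 : (s * y a) ^ 2 ≤ (s * b) ^ 2 := by
            rw [← sq_abs]
            exact pow_le_pow_left₀ (abs_nonneg _) h3 _
          linarith
      _ ≤ _ := by
          rw [sum_add_distrib, ← mul_sum, h0, mul_zero, add_zero, sum_const, nsmul_eq_mul]
          gcongr
          linarith [add_one_le_exp ((s * b) ^ 2)]
  have h3 : (((Fintype.piFinset fun _ : Fin n => T).filter fun ω => δ * n ≤ ∑ v, y (ω v)).card : ℝ) *
      exp (s * (δ * n)) ≤ (T.card * exp ((s * b) ^ 2)) ^ n := by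
    refine le_trans ?_ (h1.le.trans (pow_le_pow_left₀ (by positivity) h2 n))
    rw [← nsmul_eq_mul]
    refine (card_nsmul_le_sum _ _ _ fun ω hω => ?_).trans
      (sum_le_sum_of_subset_of_nonneg (filter_subset _ _) fun _ _ _ => (exp_pos _).le)
    rw [← mul_sum]
    exact exp_le_exp.2 (mul_le_mul_of_nonneg_left (mem_filter.1 hω).2 s0)
  rw [← le_div_iff₀ (exp_pos _), mul_pow, ← exp_nat_mul, mul_div_assoc, ← exp_sub] at h3
  refine h3.trans_eq ?_
  congr 2
  rw [hs]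
  field_simp
  ring

open Classical in
theorem chernoff (n : ℕ) {y : α → ℝ} {b δ : ℝ} (h0 : ∑ a ∈ T, y a = 0) (hb : 0 < b)
    (hy : ∀ a ∈ T, |y a| ≤ b) (hδ : 0 ≤ δ) (hδ' : δ ≤ 2 * b) :
    (((Fintype.piFinset fun _ : Fin n => T).filter fun ω => δ * n ≤ |∑ v, y (ω v)|).card : ℝ) ≤
      2 * (T.card ^ n * exp (-(δ ^ 2 / (4 * b ^ 2)) * n)) := by
  have h1 := chernoff₁ T n h0 hb hy hδ hδ'
  have h2 := chernoff₁ T n (y := fun a => -y a) (by simp [h0]) hb (by simpa using hy) hδ hδ'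
  rw [two_mul]
  refine le_trans ?_ (add_le_add h1 h2)
  rw [← Nat.cast_add, Nat.cast_le]
  refine le_trans (card_le_card fun ω hω => ?_) (card_union_le _ _)
  simp only [mem_union, mem_filter, sum_neg_distrib] at hω ⊢
  exact (le_abs.1 hω.2).imp (fun h => ⟨hω.1, h⟩) fun h => ⟨hω.1, h⟩

theorem gauss_shift (a : ℝ) : MeasureTheory.Integrable (fun z : ℝ => exp (-(1 / 2) * z ^ 2 + a * z)) ∧
    ∫ z : ℝ, exp (-(1 / 2) * z ^ 2 + a * z) = √(2 * π) * exp (a ^ 2 / 2) := by
  have h : (fun z : ℝ => exp (-(1 / 2) * z ^ 2 + a * z)) =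
      fun z => exp (-(1 / 2) * (z - a) ^ 2) * exp (a ^ 2 / 2) := by
    funext z
    rw [← exp_add]
    congr 1
    ring
  rw [h]
  refine ⟨((integrable_exp_neg_mul_sq (by norm_num)).comp_sub_right a).mul_const _, ?_⟩
  rw [MeasureTheory.integral_mul_const, MeasureTheory.integral_sub_right_eq_self
    (fun z : ℝ => exp (-(1 / 2) * z ^ 2)), integral_gaussian]
  congr 2
  ring

open Classical in
theorem even_mgf (n : ℕ) (j : α → ℕ) {y : α → ℝ} (hy : ∀ a ∈ T, |y a| ≤ 1)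
    (h0 : ∃ a ∈ T, Even (j a)) (h1 : ∃ a ∈ T, ¬ Even (j a)) :
    ∑ ω ∈ (Fintype.piFinset fun _ : Fin n => T).filter fun ω => Even (∑ v, j (ω v)),
      exp (∑ v, y (ω v)) ≤
      (1 + (1 - 2 / (T.card * exp 2)) ^ n) / 2 * (∑ a ∈ T, exp (y a)) ^ n := by
  have a1 := sum_exp_sum T n y fun _ => 1
  have a2 := sum_exp_sum T n y fun a => (-1) ^ j a
  simp only [prod_const_one, one_mul, prod_pow_eq_pow_sum] at a1 a2
  have a3 : 2 * ∑ ω ∈ (Fintype.piFinset fun _ : Fin n => T).filter fun ω => Even (∑ v, j (ω v)),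
      exp (∑ v, y (ω v)) = (∑ a ∈ T, exp (y a)) ^ n + (∑ a ∈ T, (-1) ^ j a * exp (y a)) ^ n := by
    rw [← a1, ← a2, ← sum_add_distrib, sum_filter, mul_sum]
    refine sum_congr rfl fun ω _ => ?_
    split_ifs with h
    · rw [h.neg_one_pow]
      ring
    · rw [(Nat.not_even_iff_odd.1 h).neg_one_pow]
      ring
  have b0 : ∀ (q : α → Prop) [DecidablePred q], (∃ a ∈ T, q a) →
      exp (-1) ≤ ∑ a ∈ T.filter q, exp (y a) := by
    rintro q _ ⟨a, ha, hq⟩
    exact (exp_le_exp.2 (abs_le.1 (hy a ha)).1).trans (single_le_sum (f := fun a => exp (y a))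
      (fun _ _ => (exp_pos _).le) (mem_filter.2 ⟨ha, hq⟩))
  have b1 := b0 _ h0
  have b2 := b0 _ h1
  have b3 := sum_filter_add_sum_filter_not T (fun a => Even (j a)) fun a => exp (y a)
  have b4 : ∑ a ∈ T, (-1) ^ j a * exp (y a) = ∑ a ∈ T.filter fun a => Even (j a), exp (y a) -
      ∑ a ∈ T.filter fun a => ¬ Even (j a), exp (y a) := by
    rw [← sum_filter_add_sum_filter_not T fun a => Even (j a), sub_eq_add_neg, ← sum_neg_distrib]
    congr 1
    · exact sum_congr rfl fun a ha => by rw [(mem_filter.1 ha).2.neg_one_pow, one_mul]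
    · exact sum_congr rfl fun a ha => by
        rw [(Nat.not_even_iff_odd.1 (mem_filter.1 ha).2).neg_one_pow, neg_one_mul]
  have b5 : ∑ a ∈ T, exp (y a) ≤ T.card * exp 1 := by
    rw [← nsmul_eq_mul]
    exact sum_le_card_nsmul _ _ _ fun a ha => exp_le_exp.2 (abs_le.1 (hy a ha)).2
  have b6 : (0 : ℝ) < T.card := by
    obtain ⟨a, ha, _⟩ := h0
    exact_mod_cast card_pos.2 ⟨a, ha⟩
  have b7 : 2 / (T.card * exp 2) * ∑ a ∈ T, exp (y a) ≤ 2 * exp (-1) := by
    refine (mul_le_mul_of_nonneg_left b5 (by positivity)).trans (le_of_eq ?_)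
    rw [show (-1 : ℝ) = 1 - 2 by norm_num, exp_sub]
    field_simp
  have b8 : |∑ a ∈ T, (-1) ^ j a * exp (y a)| ≤ (1 - 2 / (T.card * exp 2)) * ∑ a ∈ T, exp (y a) := by
    rw [b4, sub_mul, one_mul, abs_le]
    constructor <;> linarith
  have b9 := (le_abs_self _).trans ((abs_pow _ n).le.trans (pow_le_pow_left₀ (abs_nonneg _) b8 n))
  rw [mul_pow] at b9
  linarith

theorem mgf_le {y : α → ℝ} {σ κ b s : ℝ} (h0 : ∑ a ∈ T, y a = 0) (h2 : ∑ a ∈ T, y a ^ 2 = T.card * σ)
    (hy : ∀ a ∈ T, |y a| ≤ b) (hs : |s| * b ≤ 1) (hκ : |s| * b ^ 3 ≤ κ / 2) :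
    ∑ a ∈ T, exp (s * y a) ≤ T.card * exp ((σ + κ) * s ^ 2 / 2) := by
  calc _ ≤ ∑ a ∈ T, (1 + κ * s ^ 2 / 2 + s * y a + s ^ 2 / 2 * y a ^ 2) := by
        refine sum_le_sum fun a ha => ?_
        have h3 : |s * y a| ≤ |s| * b := by
          rw [abs_mul]
          exact mul_le_mul_of_nonneg_left (hy a ha) (abs_nonneg _)
        have h4 := (abs_le.1 (Real.exp_bound (h3.trans hs) (n := 3) (by norm_num))).2
        simp only [sum_range_succ, range_zero, sum_empty, Nat.factorial] at h4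
        norm_num at h4
        have h5 : (|s| * |y a|) ^ 3 ≤ (|s| * b) ^ 3 :=
          pow_le_pow_left₀ (by positivity) (abs_mul s _ ▸ h3) _
        have h6 : (|s| * b) ^ 3 ≤ s ^ 2 * (κ / 2) := by
          rw [show (|s| * b) ^ 3 = |s| ^ 2 * (|s| * b ^ 3) by ring, sq_abs]
          exact mul_le_mul_of_nonneg_left hκ (sq_nonneg _)
        have h7 : 0 ≤ (|s| * |y a|) ^ 3 := by positivity
        nlinarith
    _ ≤ _ := by
        rw [sum_add_distrib, sum_add_distrib, ← mul_sum, ← mul_sum, h0, h2, sum_const, nsmul_eq_mul]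
        have := mul_le_mul_of_nonneg_left (add_one_le_exp ((σ + κ) * s ^ 2 / 2))
          (Nat.cast_nonneg T.card)
        linarith

open Classical in
theorem hs_bound (j : α → ℕ) {y : α → ℝ} {σ γ η b : ℝ} (h0 : ∑ a ∈ T, y a = 0)
    (h2 : ∑ a ∈ T, y a ^ 2 = T.card * σ) (hb : 0 < b) (hy : ∀ a ∈ T, |y a| ≤ b)
    (e0 : ∃ a ∈ T, Even (j a)) (e1 : ∃ a ∈ T, ¬ Even (j a)) (hγ : 0 < γ) (hσ : 2 * γ * σ < 1)
    (hη : 0 < η) : ∀ᶠ δ in 𝓝[>] (0 : ℝ), ∀ᶠ n : ℕ in atTop,
    ∑ ω ∈ (Fintype.piFinset fun _ : Fin n => T).filter fun ω => Even (∑ v, j (ω v)) ∧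
      |∑ v, y (ω v)| ≤ δ * n, exp (γ * (∑ v, y (ω v)) ^ 2 / n) ≤
      T.card ^ n * ((√(1 - 2 * γ * σ))⁻¹ / 2 + η) := by
  have hT : (0 : ℝ) < T.card := by
    obtain ⟨a, ha, _⟩ := e0
    exact_mod_cast card_pos.2 ⟨a, ha⟩
  have hT1 : (1 : ℝ) ≤ T.card := by exact_mod_cast hT
  obtain ⟨κ, k0, k1, k2⟩ : ∃ κ : ℝ, 0 < κ ∧ 2 * γ * (σ + κ) < 1 ∧
      (√(1 - 2 * γ * (σ + κ)))⁻¹ / 2 < (√(1 - 2 * γ * σ))⁻¹ / 2 + η / 2 := by
    have a1 : ∀ᶠ κ in 𝓝 (0 : ℝ), 2 * γ * (σ + κ) < 1 :=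
      ContinuousAt.eventually_lt (by fun_prop) (by fun_prop) (by simpa using hσ)
    have a2 : ∀ᶠ κ in 𝓝 (0 : ℝ), (√(1 - 2 * γ * (σ + κ)))⁻¹ / 2 < (√(1 - 2 * γ * σ))⁻¹ / 2 + η / 2 :=
      ContinuousAt.eventually_lt (ContinuousAt.div_const (ContinuousAt.inv₀
        (f := fun κ : ℝ => √(1 - 2 * γ * (σ + κ))) (by fun_prop)
        (sqrt_pos.2 (by linarith)).ne') _) (by fun_prop) (by simpa using hη)
    obtain ⟨κ, h⟩ := (((a1.and a2).filter_mono nhdsWithin_le_nhds).and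
      (self_mem_nhdsWithin (s := Set.Ioi 0))).exists
    exact ⟨κ, h.2, h.1.1, h.1.2⟩
  have d1 : ∀ᶠ δ in 𝓝 (0 : ℝ), 8 * γ * δ * b < 1 :=
    ContinuousAt.eventually_lt (by fun_prop) (by fun_prop) (by simp)
  have d2 : ∀ᶠ δ in 𝓝 (0 : ℝ), 8 * γ * δ * b ^ 3 < κ / 2 :=
    ContinuousAt.eventually_lt (by fun_prop) (by fun_prop) (by simpa using k0)
  filter_upwards [(d1.and d2).filter_mono nhdsWithin_le_nhds, self_mem_nhdsWithin] with δ ⟨d1, d2⟩ d0
  have d0 : 0 < δ := d0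
  set θ := 1 - 2 / (T.card * exp 2) with hθ
  have t1 : θ < 1 := sub_lt_self _ (by positivity)
  have t0 : 0 ≤ θ := by
    rw [hθ, sub_nonneg, div_le_one (by positivity)]
    nlinarith [add_one_le_exp (2 : ℝ)]
  set β := 1 / 2 - γ * (σ + κ) with hβ
  have b0 : 0 < β := by linarith
  have l1 : Tendsto (fun n : ℕ => (1 + θ ^ n) / 2 * (√(1 - 2 * γ * (σ + κ)))⁻¹ +
      exp (-(4 * γ * δ ^ 2)) ^ n * 2) atTop (𝓝 ((1 + 0) / 2 * (√(1 - 2 * γ * (σ + κ)))⁻¹ + 0 * 2)) :=
    ((((tendsto_pow_atTop_nhds_zero_of_lt_one t0 t1).const_add 1).div_const 2).mul_const _).add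
      ((tendsto_pow_atTop_nhds_zero_of_lt_one (exp_pos _).le (exp_lt_one_iff.2 (by
        have : 0 < 4 * γ * δ ^ 2 := by positivity
        linarith))).mul_const 2)
  filter_upwards [l1.eventually (ge_mem_nhds (show _ < (√(1 - 2 * γ * σ))⁻¹ / 2 + η by linarith)),
    eventually_gt_atTop 0] with n l1 hn
  have hn' : (0 : ℝ) < n := by exact_mod_cast hn
  set c := √(2 * γ / n) with hc
  have c0 : 0 ≤ c := sqrt_nonneg _
  have c2 : c ^ 2 = 2 * γ / n := sq_sqrt (by positivity)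
  set S := (Fintype.piFinset fun _ : Fin n => T).filter fun ω => Even (∑ v, j (ω v)) ∧
      |∑ v, y (ω v)| ≤ δ * n with hS
  have p1 : ∀ z : ℝ, ∑ ω ∈ S, exp (-(1 / 2) * z ^ 2 + c * (∑ v, y (ω v)) * z) ≤
      T.card ^ n * ((1 + θ ^ n) / 2 * exp (-β * z ^ 2) +
        exp (-(4 * γ * δ ^ 2)) ^ n * exp (-(1 / 8) * z ^ 2)) := by
    intro z
    rcases le_total |z| (4 * c * δ * n) with hz | hz
    · have q1 : |c * z| ≤ 8 * γ * δ := by
        rw [abs_mul, abs_of_nonneg c0]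
        refine (mul_le_mul_of_nonneg_left hz c0).trans (le_of_eq ?_)
        rw [show c * (4 * c * δ * n) = 4 * c ^ 2 * δ * n by ring, c2]
        field_simp
        norm_num
      have q2 : |c * z| * b ≤ 1 := (mul_le_mul_of_nonneg_right q1 hb.le).trans d1.le
      have q3 := mgf_le T h0 h2 hy q2 ((mul_le_mul_of_nonneg_right q1 (by positivity)).trans d2.le)
      have q4 := even_mgf T n j (y := fun a => c * z * y a) (fun a ha => by
        rw [abs_mul]
        exact (mul_le_mul_of_nonneg_left (hy a ha) (abs_nonneg _)).trans q2) e0 e1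
      have q5 := q4.trans (mul_le_mul_of_nonneg_left (pow_le_pow_left₀ (by positivity) q3 n)
        (by positivity))
      rw [mul_add]
      refine le_trans ?_ (le_add_of_nonneg_right (by positivity))
      calc _ ≤ exp (-(1 / 2) * z ^ 2) * ∑ ω ∈ (Fintype.piFinset fun _ : Fin n => T).filter fun ω =>
            Even (∑ v, j (ω v)), exp (∑ v, c * z * y (ω v)) := by
            rw [mul_sum]
            refine le_trans (le_of_eq (sum_congr rfl fun ω _ => ?_)) (sum_le_sum_of_subset_of_nonneg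
              (fun ω hω => mem_filter.2 ⟨(mem_filter.1 hω).1, (mem_filter.1 hω).2.1⟩)
              fun _ _ _ => by positivity)
            rw [← exp_add, ← mul_sum, mul_right_comm]
        _ ≤ _ := by
            refine (mul_le_mul_of_nonneg_left q5 (exp_pos _).le).trans (le_of_eq ?_)
            rw [mul_pow, ← exp_nat_mul, mul_pow c, c2, show -β * z ^ 2 = -(1 / 2) * z ^ 2 +
              n * ((σ + κ) * (2 * γ / n * z ^ 2) / 2) by rw [hβ]; field_simp; ring, exp_add]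
            ring
    · rw [mul_add]
      refine le_trans ?_ (le_add_of_nonneg_left (by positivity))
      refine (sum_le_card_nsmul _ _ (exp (-(4 * γ * δ ^ 2)) ^ n * exp (-(1 / 8) * z ^ 2))
        fun ω hω => ?_).trans ?_
      · rw [← exp_nat_mul, ← exp_add, exp_le_exp]
        have q1 : c * (∑ v, y (ω v)) * z ≤ c * (δ * n) * |z| := by
          refine (le_abs_self _).trans ?_
          rw [abs_mul, abs_mul, abs_of_nonneg c0]
          gcongr
          exact (mem_filter.1 hω).2.2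
        have q2 : (4 * c * δ * n) ^ 2 ≤ |z| ^ 2 := pow_le_pow_left₀ (by positivity) hz _
        have q3 : (4 * c * δ * n) ^ 2 = 32 * γ * δ ^ 2 * n := by
          rw [show (4 * c * δ * n) ^ 2 = 16 * c ^ 2 * δ ^ 2 * n ^ 2 by ring, c2]
          field_simp
          norm_num
        have q4 := mul_le_mul_of_nonneg_right hz (abs_nonneg z)
        rw [← sq_abs z]
        nlinarith
      · rw [nsmul_eq_mul]
        gcongr
        exact_mod_cast (card_filter_le _ _).trans (by simp)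
  have i1 := integrable_exp_neg_mul_sq b0
  have i2 := integrable_exp_neg_mul_sq (show (0 : ℝ) < 1 / 8 by norm_num)
  have p2 := MeasureTheory.integral_mono (MeasureTheory.integrable_finsetSum S fun ω _ =>
    (gauss_shift (c * ∑ v, y (ω v))).1) (((i1.const_mul _).add (i2.const_mul _)).const_mul _) p1
  rw [MeasureTheory.integral_finsetSum S fun ω _ => (gauss_shift (c * ∑ v, y (ω v))).1,
    MeasureTheory.integral_const_mul] at p2
  simp only [(gauss_shift _).2, Pi.add_apply] at p2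
  rw [MeasureTheory.integral_add (i1.const_mul _) (i2.const_mul _), MeasureTheory.integral_const_mul,
    MeasureTheory.integral_const_mul, integral_gaussian, integral_gaussian, ← mul_sum] at p2
  have p3 : √(π / β) = √(2 * π) * (√(1 - 2 * γ * (σ + κ)))⁻¹ := by
    rw [← sqrt_inv, ← sqrt_mul (by positivity), show 1 - 2 * γ * (σ + κ) = 2 * β by rw [hβ]; ring]
    congr 1
    field_simp
  have p4 : √(π / (1 / 8)) = √(2 * π) * 2 := by
    rw [show π / (1 / 8) = 2 * π * 2 ^ 2 by ring, sqrt_mul (by positivity), sqrt_sq zero_le_two]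
  rw [p3, p4] at p2
  refine le_of_mul_le_mul_left ?_ (show 0 < √(2 * π) by positivity)
  refine le_trans (le_of_eq ?_) (p2.trans ?_)
  · congr 1
    refine sum_congr rfl fun ω _ => ?_
    rw [mul_pow, c2]
    congr 1
    field_simp
  · have := mul_le_mul_of_nonneg_left l1 (show 0 ≤ √(2 * π) * T.card ^ n by positivity)
    linarith

end Pool.Agent.Lib.MP_d20c4f_pr
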