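import Pool.Agent.Lib.MP_d20c4f_pr.Graphs

/-!
The marginal of the smaller graph in the weighted planted model.
-/

namespace Pool.Agent.Lib.MP_d20c4f_pr

open Finset Filter Topology

set_option linter.unusedSectionVars false

variable {Ω Ω' V κ κ' : Type} [Fintype Ω] [DecidableEq Ω] [Fintype Ω'] [DecidableEq Ω'] [Fintype V]
  [DecidableEq V] {vert : Ω → V}

/-- The restriction of a pairing. -/
def res (Q : Finset Ω) (π : Ω → Ω) : Ω → Ω := fun p => if p ∈ Q then π p else p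

/-- All points lie in `Q`. -/
def Ins (Q : Finset Ω) (C : Finset (Ω × Ω)) : Prop := ∀ e ∈ C, e.1 ∈ Q

theorem simple_iff {col : Ω → κ} {π : Ω → Ω} (hπ : IsP col π) {Q : Finset Ω} (hQ : ∀ p ∈ Q, π p ∈ Q)
    {K : ℕ} (hK : 2 ≤ K) :
    IsS vert Q (res Q π) ↔ ∀ C ∈ CYs vert K, C.card ≤ 4 → Ins Q C → ¬ Has π C := by
  constructor
  · intro h C hC h4 hin hh
    obtain ⟨k, _, hC⟩ := mem_biUnion.1 hC
    obtain ⟨t, ht, rfl⟩ := mem_CY.1 hC
    rw [ht.card] at h4
    have a1 := fun i => mem_toSet.2 ⟨i, Or.inl (rfl : _ = ((t i).2, (t (i + 1)).1))⟩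
    have a2 := fun i => mem_toSet.2 ⟨i, Or.inr (rfl : _ = ((t (i + 1)).1, (t i).2))⟩
    obtain rfl | rfl : k = 0 ∨ k = 1 := by omega
    · refine (h.1 _ (hin _ (a1 0))).2.2.1 ?_
      simp only [res, if_pos (hin _ (a1 0))]
      rw [hh _ (a1 0), (ht.1 0).1, Subsingleton.elim (0 + 1 : Fin 1) 0]
    · have b1 : (t 0).1 ∈ Q := hin ((t (1 + 1)).1, (t 1).2) (a2 1)
      have b2 : (t 0).2 ∈ Q := hin _ (a1 0)
      have b3 : π (t 0).1 = (t 1).2 := hh ((t (1 + 1)).1, (t 1).2) (a2 1)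
      have b4 : π (t 0).2 = (t 1).1 := hh _ (a1 0)
      refine (ht.1 0).2 ((h.1 _ b2).2.2.2 _ b1 (ht.1 0).1.symm ?_)
      simp only [res, if_pos b1, if_pos b2, b3, b4]
      exact (ht.1 1).1
  · intro h
    have h1 : ∀ p ∈ Q, vert (π p) ≠ vert p := by
      intro p hp e
      have ht : IsT (k := 0) vert fun _ => (π p, p) :=
        ⟨fun _ => ⟨e.symm, (hπ p).2.1⟩, fun a b _ => Subsingleton.elim (α := Fin 1) a b⟩
      refine h _ (mem_biUnion.2 ⟨0, mem_range.2 (by omega), mem_CY.2 ⟨_, ht, rfl⟩⟩)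
        (by rw [ht.card]; omega) (fun e he => ?_) fun e he => ?_
      · obtain ⟨i, rfl | rfl⟩ := mem_toSet.1 he
        · exact hp
        · exact hQ p hp
      · obtain ⟨i, rfl | rfl⟩ := mem_toSet.1 he
        · rfl
        · exact (hπ p).1
    refine ⟨fun p hp => ?_, fun p hp => if_neg hp⟩
    simp only [res, if_pos hp, if_pos (hQ p hp)]
    refine ⟨hQ p hp, (hπ p).1, h1 p hp, fun q hq e1 e2 => by_contra fun hne => ?_⟩
    rw [if_pos hq] at e2
    have ht : IsT (k := 1) vert ![(q, p), (π p, π q)] := by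
      refine ⟨fun i => ?_, fun i j => ?_⟩
      · fin_cases i
        · exact ⟨e1.symm, hne⟩
        · exact ⟨e2, fun e => hne (hπ.inj e).symm⟩
      · have := h1 p hp
        fin_cases i <;> fin_cases j <;> simp [e1, this, this.symm]
    refine h _ (mem_biUnion.2 ⟨1, mem_range.2 (by omega), mem_CY.2 ⟨_, ht, rfl⟩⟩)
      (by rw [ht.card]) (fun e he => ?_) fun e he => ?_
    · obtain ⟨i, rfl | rfl⟩ := mem_toSet.1 he <;> fin_cases i <;> simp [hp, hq, hQ]
    · obtain ⟨i, rfl | rfl⟩ := mem_toSet.1 he <;> fin_cases i <;> simp [(hπ _).1]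

/-- The two-colouring given by a set of points. -/
def colR (R : Finset Ω) : Ω → Bool := fun p => decide (p ∈ R)

open Classical in
/-- The weight of a cycle. -/
noncomputable def fw (ρ : ℕ → ℝ) (R : Finset Ω) (C : Finset (Ω × Ω)) : ℝ :=
  if C.card ≤ 4 then 0 else if Ins R C then 1 else ρ C.card

theorem fw_bd {ρ : ℕ → ℝ} (h : ∀ j, 0 ≤ ρ j ∧ ρ j ≤ 2) (R : Finset Ω) (C : Finset (Ω × Ω)) :
    0 ≤ fw ρ R C ∧ fw ρ R C ≤ 2 := by
  unfold fw
  split_ifs
  · simp
  · simp
  · exact h _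

theorem WW_bd {A : Finset (Finset (Ω × Ω))} {f : Finset (Ω × Ω) → ℝ} {b : ℝ} (hb : 1 ≤ b)
    (h : ∀ C, 0 ≤ f C ∧ f C ≤ b) (M : ℕ) (π : Ω → Ω) : 0 ≤ WW A f M π ∧ WW A f M π ≤ b ^ M := by
  unfold WW
  split_ifs with h1
  · refine ⟨prod_nonneg fun C _ => (h C).1, le_trans ?_ (pow_le_pow_right₀ hb h1)⟩
    rw [← prod_const]
    exact prod_le_prod (fun C _ => (h C).1) fun C _ => (h C).2
  · exact ⟨le_rfl, by positivity⟩

theorem res_univ (π : Ω → Ω) : res univ π = π := funext fun p => by simp [res]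

theorem WW_eq_zero {col : Ω → κ} {π : Ω → Ω} (hπ : IsP col π) {K : ℕ} (hK : 2 ≤ K)
    {f : Finset (Ω × Ω) → ℝ} (hf : ∀ C, C.card ≤ 4 → f C = 0) (M : ℕ) (h : ¬ IsS vert univ π) :
    WW (CYs vert K) f M π = 0 := by
  classical
  rw [← res_univ π, simple_iff hπ (by simp) hK] at h
  simp only [not_forall, not_not] at h
  obtain ⟨C, hC, h4, _, hh⟩ := h
  unfold WW
  split_ifs
  · exact prod_eq_zero (mem_filter.2 ⟨hC, hh⟩) (hf C h4)
  · rfl

open Classical in
theorem WW_eq_one {col : Ω → κ} {π : Ω → Ω} (hπ : IsP col π) {Q : Finset Ω} (hQ : ∀ p ∈ Q, π p ∈ Q)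
    {K : ℕ} (hK : 2 ≤ K) (f : Finset (Ω × Ω) → ℝ) (M : ℕ) (h : IsS vert Q (res Q π)) :
    WW ((CYs vert K).filter fun C => C.card ≤ 4 ∧ Ins Q C) f M π = 1 := by
  rw [simple_iff hπ hQ hK] at h
  unfold WW
  rw [filter_eq_empty_iff.2 fun C hC => h C (mem_filter.1 hC).1 (mem_filter.1 hC).2.1
    (mem_filter.1 hC).2.2]
  simp

theorem IsP.red {R : Finset Ω} {π : Ω → Ω} (h : IsP (colR R) π) (p : Ω) : π p ∈ R ↔ p ∈ R := by
  simpa [colR] using (h p).2.2

theorem IsS.res {R : Finset Ω} {π : Ω → Ω} (hπ : IsP (colR R) π) (h : IsS vert univ π) :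
    IsS vert R (res R π) := by
  refine ⟨fun p hp => ?_, fun p hp => if_neg hp⟩
  simp only [MP_d20c4f_pr.res, if_pos hp, if_pos ((hπ.red p).2 hp)]
  refine ⟨(hπ.red p).2 hp, (hπ p).1, (h.1 p (mem_univ _)).2.2.1, fun q hq e1 e2 => ?_⟩
  rw [if_pos hq] at e2
  exact (h.1 p (mem_univ _)).2.2.2 q (mem_univ _) e1 e2

theorem Gr_res_le (R : Finset Ω) (π : Ω → Ω) : Gr vert (res R π) ≤ Gr vert π := by
  intro u v
  simp only [Gr, SimpleGraph.fromRel_adj, res]
  rintro ⟨h, ⟨p, rfl, rfl⟩ | ⟨p, rfl, rfl⟩⟩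
  · by_cases hp : p ∈ R
    · exact ⟨h, Or.inl ⟨p, rfl, by rw [if_pos hp]⟩⟩
    · simp [hp] at h
  · by_cases hp : p ∈ R
    · exact ⟨h, Or.inr ⟨p, rfl, by rw [if_pos hp]⟩⟩
    · simp [hp] at h

/-- The image of a set of pairs. -/
def mapS (ι : Ω → Ω') (C : Finset (Ω × Ω)) : Finset (Ω' × Ω') := C.image (Prod.map ι ι)

theorem mapS_mapS {ι : Ω → Ω'} {pr : Ω' → Ω} (h : ∀ p, pr (ι p) = p) (C : Finset (Ω × Ω)) :
    mapS pr (mapS ι C) = C := by
  rw [mapS, mapS, image_image, image_congr (g := id) fun e _ => by simp [h, Prod.map], image_id]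

theorem mapS_cyc {ι : Ω → Ω'} {vert' : Ω' → V} (hi : Function.Injective ι)
    (hv : ∀ p, vert' (ι p) = vert p) {K : ℕ} {C : Finset (Ω × Ω)} (hC : C ∈ CYs vert K) :
    mapS ι C ∈ CYs vert' K := by
  obtain ⟨k, hk, hC⟩ := mem_biUnion.1 hC
  obtain ⟨t, ht, rfl⟩ := mem_CY.1 hC
  refine mem_biUnion.2 ⟨k, hk, mem_CY.2 ⟨fun i => Prod.map ι ι (t i), ⟨fun i => ?_, ?_⟩, ?_⟩⟩
  · simpa [hv, hi.eq_iff] using ht.1 i
  · simpa [hv] using ht.2
  · simp [mapS, toSet, image_union, image_image, Function.comp_def]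

theorem pw_mapS {ι : Ω → Ω'} (hi : Function.Injective ι) {col : Ω → κ} {col' : Ω' → κ'}
    (h1 : ∀ p q, col' (ι p) = col' (ι q) ↔ col p = col q)
    (h2 : ∀ p, NC col' (col' (ι p)) = NC col (col p)) (C : Finset (Ω × Ω)) :
    pw col' (mapS ι C) = pw col C := by
  classical
  have : Mono col' (mapS ι C) ↔ Mono col C := by
    simp only [Mono, mapS, forall_mem_image, Prod.map_fst, Prod.map_snd, h1]
  unfold pw
  refine if_congr this ?_ rfl
  rw [mapS, prod_image fun a _ b _ e => hi.prodMap hi e]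
  simp only [Prod.map_fst, h2]

theorem has_mapS {ι : Ω → Ω'} (hi : Function.Injective ι) {π : Ω → Ω} {π' : Ω' → Ω'}
    (h : ∀ p, π' (ι p) = ι (π p)) (C : Finset (Ω × Ω)) : Has π' (mapS ι C) ↔ Has π C := by
  simp only [Has, mapS, forall_mem_image, Prod.map_fst, Prod.map_snd, h, hi.eq_iff]

/-- The second embedding into the doubled model. -/
def io (R : Finset Ω) (p : Ω) : Ω ⊕ {p // p ∉ R} := if h : p ∈ R then .inl p else .inr ⟨p, h⟩

/-- The projection from the doubled model. -/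
def pj (R : Finset Ω) : Ω ⊕ {p // p ∉ R} → Ω := Sum.elim id Subtype.val

theorem pj_io (R : Finset Ω) (p : Ω) : pj R (io R p) = p := by
  unfold io
  split_ifs <;> rfl

theorem io_inj (R : Finset Ω) : Function.Injective (io R) :=
  Function.LeftInverse.injective (pj_io R)

/-- The colouring of the doubled model. -/
def col3 (R : Finset Ω) : Ω ⊕ {p // p ∉ R} → Option Bool :=
  Sum.elim (fun p => some (colR R p)) fun _ => none

theorem NC_some (R : Finset Ω) (b : Bool) : NC (col3 R) (some b) = NC (colR R) b := by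
  unfold NC
  symm
  refine card_bij (fun p _ => .inl p) (by simp [col3]) (by simp) ?_
  rintro (p | p) <;> simp [col3]

theorem NC_none (R : Finset Ω) : NC (col3 R) none = NC (colR R) false := by
  unfold NC
  refine card_bij (fun p _ => pj R p) ?_ ?_ ?_
  · rintro (p | p)
    · simp [col3]
    · simp [col3, pj, colR, p.2]
  · rintro (p | p) hp (q | q) hq <;> simp_all [col3, pj, Subtype.ext_iff]
  · intro p hp
    exact ⟨.inr ⟨p, by simpa [colR] using hp⟩, by simp [col3], rfl⟩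

theorem mdl3 {D : ℕ} {c₀ : ℝ} {R : Finset Ω} (h : Mdl D c₀ vert (colR R)) :
    Mdl (2 * D) c₀ (fun p => vert (pj R p)) (col3 R) := by
  refine ⟨fun v => ?_, ?_⟩
  · refine (card_le_mul_card_image_of_maps_to (f := pj R) (t := univ.filter fun p => vert p = v)
      (by simp) 2 fun p _ => ?_).trans (Nat.mul_le_mul_left _ (h.1 v))
    refine (card_le_card (t := {.inl p, io R p}) ?_).trans card_le_two
    rintro (q | q) hq
    · simp [← (mem_filter.1 hq).2, pj]
    · simp [← (mem_filter.1 hq).2, pj, io, q.2]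
  · rintro (_ | b)
    · rw [NC_none]
      exact h.2 _
    · rw [NC_some]
      exact h.2 _

theorem inter_red {R : Finset Ω} {C C' : Finset (Ω × Ω)} (h : mapS .inl C = mapS (io R) C') :
    C = C' ∧ Ins R C := by
  refine ⟨by rw [← mapS_mapS (ι := .inl) (pr := pj R) (fun _ => rfl) C, h, mapS_mapS (pj_io R)],
    fun e he => ?_⟩
  obtain ⟨e', _, h1⟩ := mem_image.1 (h.le (mem_image_of_mem _ he))
  have h2 : io R e'.1 = .inl e.1 := congrArg Prod.fst h1
  unfold io at h2
  split_ifs at h2 with h3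
  rwa [← Sum.inl.inj h2]

theorem pair_le {R : Finset Ω} {ρ : ℕ → ℝ} (hρ : ∀ j, 0 ≤ ρ j ∧ ρ j ≤ 2)
    (A : Finset (Finset (Ω × Ω))) (M : ℕ) (T : Finset ((Ω → Ω) × (Ω → Ω)))
    (hT : ∀ x ∈ T, IsP (colR R) x.1 ∧ IsP (colR R) x.2 ∧ res R x.1 = res R x.2) :
    ∑ x ∈ T, WW A (fw ρ R) M x.1 * WW A (fw ρ R) M x.2 ≤ ∑ π ∈ PP (col3 R),
      WW (A.image (mapS .inl) ∪ A.image (mapS (io R))) (fun C => fw ρ R (mapS (pj R) C)) (2 * M) π := by
  classical
  let Φ : (Ω → Ω) × (Ω → Ω) → Ω ⊕ {p // p ∉ R} → Ω ⊕ {p // p ∉ R} := fun x =>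
    Sum.elim (fun p => .inl (x.1 p)) fun p => io R (x.2 p)
  have h1 : ∀ x ∈ T, ∀ p, Φ x (io R p) = io R (x.2 p) := by
    intro x hx p
    obtain ⟨a1, a2, a3⟩ := hT x hx
    by_cases hp : p ∈ R
    · have := congrFun a3 p
      simp only [res, if_pos hp] at this
      simp [Φ, io, hp, (a2.red p).2 hp, this]
    · simp [Φ, io, hp]
  have i1 : Function.Injective (mapS (.inl : Ω → Ω ⊕ {p // p ∉ R})) :=
    Function.LeftInverse.injective (mapS_mapS (pr := pj R) fun _ => rfl)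
  have i2 : Function.Injective (mapS (io R)) := Function.LeftInverse.injective (mapS_mapS (pj_io R))
  have hb := fun C => fw_bd hρ R (mapS (pj R) C)
  refine le_trans ?_ (sum_le_sum_of_subset_of_nonneg (s := T.image Φ) (fun π hπ => ?_)
    fun π _ _ => (WW_bd one_le_two hb _ _).1)
  · rw [sum_image fun x hx y hy e => Prod.ext (funext fun p => Sum.inl.inj (congrFun e (.inl p)))
      (funext fun p => io_inj R (by rw [← h1 x hx, ← h1 y hy, e]))]
    refine sum_le_sum fun x hx => ?_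
    have h2 : (A.image (mapS .inl) ∪ A.image (mapS (io R))).filter (Has (Φ x)) =
        (A.filter (Has x.1)).image (mapS .inl) ∪ (A.filter (Has x.2)).image (mapS (io R)) := by
      rw [filter_union, filter_image, filter_image]
      congr 2
      · exact filter_congr fun C _ => has_mapS Sum.inl_injective (fun _ => rfl) C
      · exact filter_congr fun C _ => has_mapS (io_inj R) (h1 x hx) C
    by_cases h3 : (A.filter (Has x.1)).card ≤ M ∧ (A.filter (Has x.2)).card ≤ M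
    · unfold WW
      rw [if_pos h3.1, if_pos h3.2, h2, if_pos ((card_union_le _ _).trans (by
        have := card_image_le (s := A.filter (Has x.1)) (f := mapS (.inl : Ω → Ω ⊕ {p // p ∉ R}))
        have := card_image_le (s := A.filter (Has x.2)) (f := mapS (io R))
        omega))]
      have h4 := prod_union_inter (s₁ := (A.filter (Has x.1)).image (mapS .inl))
        (s₂ := (A.filter (Has x.2)).image (mapS (io R))) (f := fun C => fw ρ R (mapS (pj R) C))
      rw [prod_image i1.injOn, prod_image i2.injOn] at h4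
      simp only [mapS_mapS (pj_io R), mapS_mapS (ι := .inl) (pr := pj R) fun _ => rfl] at h4
      rw [← h4]
      refine mul_le_of_le_one_right (prod_nonneg fun C _ => (hb C).1)
        (prod_le_one (fun C _ => (hb C).1) fun C hC => ?_)
      obtain ⟨C₁, _, rfl⟩ := mem_image.1 (mem_inter.1 hC).1
      obtain ⟨C₂, _, e⟩ := mem_image.1 (mem_inter.1 hC).2
      rw [mapS_mapS (pr := pj R) fun _ => rfl, fw, if_pos (inter_red e.symm).2]
      split_ifs <;> simp
    · refine le_trans (le_of_eq ?_) (WW_bd one_le_two hb _ _).1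
      unfold WW
      rcases not_and_or.1 h3 with h | h <;> simp [h]
  · obtain ⟨x, hx, rfl⟩ := mem_image.1 hπ
    obtain ⟨a1, a2, _⟩ := hT x hx
    refine mem_PP.2 ?_
    rintro (p | p)
    · simpa [Φ, col3] using a1 p
    · have h2 : io R p = .inr p := by simp [io, p.2]
      have h3 : x.2 p ∉ R := fun h => p.2 ((a2.red p).1 h)
      rw [← h2, h1 x hx, h1 x hx, (a2 p).1]
      exact ⟨rfl, fun e => (a2 p).2.1 (io_inj R e), by simp [io, h3, p.2, col3]⟩

open Classical in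
theorem sum_A3 {R : Finset Ω} (ρ : ℕ → ℝ) (K : ℕ) :
    ∑ C ∈ (CYs vert K).image (mapS .inl) ∪ (CYs vert K).image (mapS (io R)),
      (fw ρ R (mapS (pj R) C) - 1) * pw (col3 R) C =
      2 * ∑ C ∈ CYs vert K, (fw ρ R C - 1) * pw (colR R) C -
      ∑ C ∈ (CYs vert K).filter fun C => C.card ≤ 4 ∧ Ins R C, (fw ρ R C - 1) * pw (colR R) C := by
  have i1 : Function.Injective (mapS (.inl : Ω → Ω ⊕ {p // p ∉ R})) :=
    Function.LeftInverse.injective (mapS_mapS (pr := pj R) fun _ => rfl)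
  have i2 : Function.Injective (mapS (io R)) := Function.LeftInverse.injective (mapS_mapS (pj_io R))
  have p1 := pw_mapS (Sum.inl_injective (β := {p // p ∉ R})) (col := colR R) (col' := col3 R)
    (by simp [col3]) fun p => NC_some R _
  have p2 := pw_mapS (io_inj R) (col := colR R) (col' := col3 R) (fun p q => by
    by_cases hp : p ∈ R <;> by_cases hq : q ∈ R <;> simp [io, col3, colR, hp, hq]) fun p => by
    by_cases hp : p ∈ R
    · rw [io, dif_pos hp]
      exact NC_some R _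
    · rw [io, dif_neg hp, show colR R p = false by simp [colR, hp]]
      exact NC_none R
  have h1 : (CYs vert K).image (mapS .inl) ∩ (CYs vert K).image (mapS (io R)) =
      ((CYs vert K).filter (Ins R)).image (mapS .inl) := by
    ext C
    simp only [mem_inter, mem_image, mem_filter]
    constructor
    · rintro ⟨⟨C₁, h1, rfl⟩, C₂, _, e⟩
      exact ⟨C₁, ⟨h1, (inter_red e.symm).2⟩, rfl⟩
    · rintro ⟨C, ⟨h1, h2⟩, rfl⟩
      refine ⟨⟨C, h1, rfl⟩, C, h1, image_congr fun e he => ?_⟩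
      have := h2 _ ((CYs_cyc C h1).1.2.1.1 e he).1
      simp only [Prod.fst_swap] at this
      simp [Prod.map, io, h2 e he, this]
  have h2 := sum_union_inter (s₁ := (CYs vert K).image (mapS .inl))
    (s₂ := (CYs vert K).image (mapS (io R))) (f := fun C => (fw ρ R (mapS (pj R) C) - 1) * pw (col3 R) C)
  rw [h1, sum_image i1.injOn, sum_image i1.injOn, sum_image i2.injOn] at h2
  simp only [mapS_mapS (pj_io R), mapS_mapS (ι := .inl) (pr := pj R) fun _ => rfl, p1, p2] at h2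
  rw [← sum_subset (s₁ := (CYs vert K).filter fun C => C.card ≤ 4 ∧ Ins R C)
    (s₂ := (CYs vert K).filter (Ins R)) (fun C hC => mem_filter.2 ⟨(mem_filter.1 hC).1,
    (mem_filter.1 hC).2.2⟩) fun C hC h => by
      have h3 := mem_filter.1 hC
      rw [fw, if_neg fun h4 => h (mem_filter.2 ⟨h3.1, h4, h3.2⟩), if_pos h3.2]
      simp] at h2
  linarith

theorem exists_eta {ε : ℝ} (hε : 0 < ε) (a b : ℕ) :
    ∃ η : ℝ, 0 < η ∧ η < 1 ∧ (1 + η) ^ a ≤ (1 + ε ^ 2) * (1 - η) ^ b := by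
  have h1 : ∀ᶠ η in 𝓝 (0 : ℝ), (1 + η) ^ a < (1 + ε ^ 2) * (1 - η) ^ b :=
    ContinuousAt.eventually_lt (by fun_prop) (by fun_prop) (by simp; positivity)
  obtain ⟨η, h⟩ := ((h1.and (gt_mem_nhds one_pos)).filter_mono nhdsWithin_le_nhds).and
    (self_mem_nhdsWithin (s := Set.Ioi 0)) |>.exists
  exact ⟨η, h.2, h.1.2, h.1.1.le⟩

open Classical in
theorem small_side (D K : ℕ) (hK : 2 ≤ K) {c₀ ε : ℝ} (hc : 0 < c₀) (hε : 0 < ε) {ρ : ℕ → ℝ}
    (hρ : ∀ j, 0 ≤ ρ j ∧ ρ j ≤ 2) :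
    ∀ᶠ M : ℕ in atTop, ∀ᶠ n : ℕ in atTop, ∀ (Ω V : Type) [Fintype Ω] [DecidableEq Ω] [Fintype V]
      [DecidableEq V] (vert : Ω → V) (R : Finset Ω) (k : ℕ), Fintype.card V = n →
      Mdl D c₀ vert (colR R) → (∀ v, (R.filter fun p => vert p = v).card = k) →
      ∑ G ∈ RG V k, |∑ π ∈ ((PP (colR R)).filter (IsS vert univ)).filter fun π =>
        Gr vert (res R π) = G, WW (CYs vert K) (fw ρ R) M π -
        (∑ π ∈ (PP (colR R)).filter (IsS vert univ), WW (CYs vert K) (fw ρ R) M π) / (RG V k).card| ≤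
        ε * ∑ π ∈ (PP (colR R)).filter (IsS vert univ), WW (CYs vert K) (fw ρ R) M π := by
  obtain ⟨η, h0, h1, h2⟩ := exists_eta hε 2 2
  filter_upwards [T1 D (2 * K) hc zero_le_one h0, (tendsto_id.const_mul_atTop' two_pos).eventually
    (T1 (2 * D) (2 * K) hc zero_le_one h0)] with M t1 t3
  filter_upwards [t1, t3] with n t1 t3
  intro Ω V _ _ _ _ vert R k hV hm hk
  have hb := fw_bd hρ R
  have hb' : ∀ C, |fw ρ R C - 1| ≤ 1 := fun C => abs_le.2 ⟨by linarith [hb C], by linarith [hb C]⟩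
  have a1 := abs_le.1 (t1 Ω V Bool vert (colR R) _ (fw ρ R) hV hm CYs_cyc fun C _ => hb' C)
  have a2 := abs_le.1 (t1 Ω V Bool vert (colR R) ((CYs vert K).filter fun C => C.card ≤ 4 ∧ Ins R C)
    (fw ρ R) hV hm (fun C hC => CYs_cyc C (mem_filter.1 hC).1) fun C _ => hb' C)
  have a3 := abs_le.1 (t3 _ V _ _ (col3 R) ((CYs vert K).image (mapS .inl) ∪
    (CYs vert K).image (mapS (io R))) (fun C => fw ρ R (mapS (pj R) C)) hV (mdl3 hm) (fun C hC => by
      refine CYs_cyc C ?_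
      rcases mem_union.1 hC with h | h
      · obtain ⟨C, hC', rfl⟩ := mem_image.1 h
        exact mapS_cyc Sum.inl_injective (fun _ => rfl) hC'
      · obtain ⟨C, hC', rfl⟩ := mem_image.1 h
        exact mapS_cyc (io_inj R) (fun p => by rw [pj_io]) hC') fun C _ => hb' _)
  rw [sum_A3] at a3
  set T := (PP (colR R)).filter (IsS vert univ) with hT
  set W := WW (CYs vert K) (fw ρ R) M with hW
  have hmap : ∀ π ∈ T, res R π ∈ SP vert R := fun π hπ =>
    mem_SP.2 ((mem_filter.1 hπ).2.res (mem_PP.1 (mem_filter.1 hπ).1))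
  let Y : (Ω → Ω) → ℝ := fun σ => ∑ π ∈ T.filter fun π => res R π = σ, W π
  have y1 : ∑ σ ∈ SP vert R, Y σ = ∑ π ∈ T, W π := sum_fiberwise_of_maps_to hmap _
  have y2 : ∑ π ∈ T, W π = ∑ π ∈ PP (colR R), W π := sum_filter_of_ne fun π hπ h => by_contra
    fun h' => h (WW_eq_zero (mem_PP.1 hπ) hK (fun C hC => if_pos hC) M h')
  have y3 : ∑ σ ∈ SP vert R, Y σ ^ 2 =
      ∑ x ∈ (T ×ˢ T).filter fun x => res R x.1 = res R x.2, W x.1 * W x.2 := by
    rw [← sum_fiberwise_of_maps_to (g := fun x => res R x.1) (t := SP vert R) fun x hx =>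
      hmap _ (mem_product.1 (mem_filter.1 hx).1).1]
    refine sum_congr rfl fun σ _ => ?_
    rw [sq, sum_mul_sum, ← sum_product']
    refine sum_congr ?_ fun _ _ => rfl
    ext x
    simp only [mem_product, mem_filter]
    constructor
    · rintro ⟨⟨b1, b2⟩, b3, b4⟩
      exact ⟨⟨⟨b1, b3⟩, b2.trans b4.symm⟩, b2⟩
    · rintro ⟨⟨⟨b1, b3⟩, b2⟩, b4⟩
      exact ⟨⟨b1, b4⟩, b3, b2.symm.trans b4⟩
  have y4 := pair_le hρ (CYs vert K) M ((T ×ˢ T).filter fun x => res R x.1 = res R x.2) fun x hx =>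
    ⟨mem_PP.1 (mem_filter.1 (mem_product.1 (mem_filter.1 hx).1).1).1,
      mem_PP.1 (mem_filter.1 (mem_product.1 (mem_filter.1 hx).1).2).1, (mem_filter.1 hx).2⟩
  have c1 : (PP (col3 R)).card = (PP (colR R)).card * MM (NC (colR R) false) := by
    rw [card_PP, card_PP, Fintype.prod_option, NC_none, mul_comm]
    simp only [NC_some]
  have c2 : (SP vert R).card * MM (NC (colR R) false) =
      ((PP (colR R)).filter fun π => res R π ∈ SP vert R).card := by
    rw [card_eq_sum_card_fiberwise (f := res R) (t := SP vert R)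
      (s := (PP (colR R)).filter fun π => res R π ∈ SP vert R) fun π hπ => (mem_filter.1 hπ).2,
      ← smul_eq_mul, ← sum_const]
    refine sum_congr rfl fun σ hσ => ?_
    have hs := mem_SP.1 hσ
    have := card_ext (colR R) R σ fun x hx => ⟨(hs.1 x hx).1, (hs.1 x hx).2.1,
      fun e => (hs.1 x hx).2.2.1 (by rw [e]), by simp [colR, hx, (hs.1 x hx).1]⟩
    rw [Fintype.prod_bool, (@filter_eq_empty_iff _ _ (_) Rᶜ).2 (by simp [colR]), card_empty, MM,
      one_mul] at this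
    rw [filter_filter]
    convert this.symm using 2
    · unfold NC
      congr 1
      ext p
      simp [colR]
    · refine filter_congr fun π _ => ⟨fun h x hx => by rw [← h.2, res, if_pos hx], fun h => ?_⟩
      have : res R π = σ := funext fun x => by
        unfold res
        split_ifs with hx
        · exact h x hx
        · exact (hs.2 x hx).symm
      exact ⟨this ▸ hσ, this⟩
  have c3 : (((PP (colR R)).filter fun π => res R π ∈ SP vert R).card : ℝ) ≤ ∑ π ∈ PP (colR R),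
      WW ((CYs vert K).filter fun C => C.card ≤ 4 ∧ Ins R C) (fw ρ R) M π := by
    refine le_trans ?_ (sum_le_sum_of_subset_of_nonneg (filter_subset (fun π => res R π ∈ SP vert R) _)
      fun π _ _ => (WW_bd one_le_two hb _ _).1)
    rw [sum_congr rfl fun π hπ => WW_eq_one (mem_PP.1 (mem_filter.1 hπ).1) (fun p hp =>
      ((mem_PP.1 (mem_filter.1 hπ).1).red p).2 hp) hK _ M (mem_SP.1 (mem_filter.1 hπ).2)]
    simp
  have hm0 : (0 : ℝ) < MM (NC (colR R) false) := by exact_mod_cast MM_pos (hm.2 _).1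
  have hP : (0 : ℝ) < (PP (colR R)).card := by
    rw [card_PP]
    exact_mod_cast prod_pos fun c _ => MM_pos (hm.2 c).1
  rw [← c2] at c3
  rw [c1, Real.exp_sub, two_mul, Real.exp_add] at a3
  push_cast at c3 a3
  set E := Real.exp (∑ C ∈ CYs vert K, (fw ρ R C - 1) * pw (colR R) C) with hE
  set E' := Real.exp (∑ C ∈ (CYs vert K).filter fun C => C.card ≤ 4 ∧ Ins R C,
    (fw ρ R C - 1) * pw (colR R) C) with hE'
  have e0 : 0 < E := Real.exp_pos _
  have e1 : 0 < E' := Real.exp_pos _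
  have z1 : (1 - η) * ((PP (colR R)).card * E) ≤ ∑ σ ∈ SP vert R, Y σ := by
    rw [y1, y2]
    linarith [a1.1]
  have z0 : 0 < (1 - η) * ((PP (colR R)).card * E) := mul_pos (by linarith) (by positivity)
  have := chi hk Y hε.le (z0.trans_le z1) (by
    have b1 : ((SP vert R).card : ℝ) ≤ (1 + η) * ((PP (colR R)).card * E') / MM (NC (colR R) false) := by
      rw [le_div_iff₀ hm0]
      linarith [a2.2]
    have b2 : ∑ σ ∈ SP vert R, Y σ ^ 2 ≤
        (1 + η) * ((PP (colR R)).card * MM (NC (colR R) false) * (E * E / E')) := by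
      rw [y3]
      refine y4.trans ?_
      simp only [id] at a3
      linarith [a3.2]
    calc _ ≤ (1 + η) * ((PP (colR R)).card * E') / MM (NC (colR R) false) *
          ((1 + η) * ((PP (colR R)).card * MM (NC (colR R) false) * (E * E / E'))) :=
          mul_le_mul b1 b2 (sum_nonneg fun _ _ => sq_nonneg _) (by positivity)
      _ = (1 + η) ^ 2 * ((PP (colR R)).card * E) ^ 2 := by field_simp
      _ ≤ (1 + ε ^ 2) * (1 - η) ^ 2 * ((PP (colR R)).card * E) ^ 2 := by gcongr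
      _ ≤ _ := by
        rw [mul_assoc, ← mul_pow]
        gcongr)
  rw [y1] at this
  refine le_trans (le_of_eq (sum_congr rfl fun G _ => ?_)) this
  congr 2
  rw [← sum_fiberwise_of_maps_to (g := res R) (t := (SP vert R).filter fun σ => Gr vert σ = G)
    fun π hπ => mem_filter.2 ⟨hmap _ (mem_filter.1 hπ).1, (mem_filter.1 hπ).2⟩]
  refine sum_congr rfl fun σ hσ => sum_congr ?_ fun _ _ => rfl
  rw [filter_filter]
  exact filter_congr fun π _ => ⟨fun h => h.2, fun h => ⟨h ▸ (mem_filter.1 hσ).2, h⟩⟩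

end Pool.Agent.Lib.MP_d20c4f_pr
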