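import Pool.Agent.Lib.MP_d20c4f_pr.Second
import Pool.Agent.Lib.MP_d20c4f_pr.Small

/-!
The mean numbers of short cycles.
-/

namespace Pool.Agent.Lib.MP_d20c4f_pr

open Finset Filter Topology

variable {d k : ℕ}

/-- The transition numbers of the planted model. -/
def T2 (d k : ℕ) (b b' : Bool) : ℝ := mm d k b' - if b = b' then 1 else 0

theorem path_sum (hd : 0 < d) (b : Bool) (j : ℕ) (h : Bool → ℝ) :
    ∑ c : Fin (j + 1) → Bool, h (c 0) * (∏ i : Fin j, T2 d k (c i.castSucc) (c i.succ)) *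
      T2 d k (c (Fin.last j)) b = ∑ a, h a * ((((d : ℝ) - 1) ^ (j + 1) - (-1) ^ (j + 1)) *
        mm d k b / d + if a = b then (-1) ^ (j + 1) else 0) := by
  have d0 : (0 : ℝ) < d := by positivity
  induction j generalizing h with
  | zero =>
    rw [← (Equiv.funUnique (Fin 1) Bool).symm.sum_comp]
    refine sum_congr rfl fun a _ => ?_
    have : (((d : ℝ) - 1) ^ (0 + 1) - (-1) ^ (0 + 1)) * mm d k b / d = mm d k b := by
      field_simp
      ring
    rw [this, T2]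
    split_ifs <;> simp_all [sub_eq_add_neg]
  | succ j ih =>
    rw [← (Fin.consEquiv fun _ => Bool).sum_comp, Fintype.sum_prod_type]
    refine sum_congr rfl fun a _ => ?_
    have := ih fun a' => h a * T2 d k a a'
    refine Eq.trans (sum_congr rfl fun c _ => ?_) (this.trans ?_)
    · simp only [Fin.consEquiv, Equiv.coe_fn_mk, Fin.prod_univ_succ, Fin.cons_zero, Fin.cons_succ,
        Fin.castSucc_zero, ← Fin.succ_castSucc, ← Fin.succ_last]
      ring
    · cases a <;> cases b <;> simp [T2, mm, pow_succ] <;> field_simp <;> ring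

theorem PS_one (hd : 0 < d) (j : ℕ) :
    PS j (T2 d k) (fun _ => 1) = ((d : ℝ) - 1) ^ (j + 1) + (-1) ^ (j + 1) := by
  have d0 : (0 : ℝ) < d := by positivity
  have h := fun b => path_sum (k := k) hd b j fun a => if a = b then 1 else 0
  have h2 : PS j (T2 d k) (fun _ => 1) = ∑ b, ∑ c : Fin (j + 1) → Bool,
      (if c 0 = b then 1 else 0) * (∏ i : Fin j, T2 d k (c i.castSucc) (c i.succ)) *
      T2 d k (c (Fin.last j)) b := by
    rw [sum_comm]
    refine sum_congr rfl fun c _ => ?_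
    rw [Fin.prod_univ_castSucc]
    simp [Fin.coeSucc_eq_succ]
  rw [h2]
  simp only [h]
  simp [mm]
  field_simp
  ring

theorem PS_sub {κ : Type} [Fintype κ] (j : ℕ) (T : κ → κ → ℝ) (φ ψ : (Fin (j + 1) → κ) → ℝ) :
    PS j T (fun c => φ c - ψ c) = PS j T φ - PS j T ψ := by
  simp only [PS, sub_mul, sum_sub_distrib]

theorem PS_tensor (j : ℕ) (T : Bool → Bool → ℝ) (s : ℝ) (φ : (Fin (j + 1) → Bool) → ℝ) :
    PS j (fun c c' : Bool × Bool => T c.1 c'.1 * T c.2 c'.2 / s)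
      (fun c => φ (fun i => (c i).1) * φ fun i => (c i).2) = PS j T φ ^ 2 / s ^ (j + 1) := by
  unfold PS
  rw [← (Equiv.arrowProdEquivProdArrow _ _ _).symm.sum_comp, Fintype.sum_prod_type, sq, sum_mul_sum,
    sum_div]
  refine sum_congr rfl fun a _ => ?_
  rw [sum_div]
  refine sum_congr rfl fun b _ => ?_
  simp only [Equiv.arrowProdEquivProdArrow, Equiv.coe_fn_symm_mk, prod_div_distrib, prod_mul_distrib,
    prod_const, card_univ, Fintype.card_fin]
  ring

/-- The weight of a short cycle that is not contained in the smaller graph. -/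
noncomputable def rho (d k : ℕ) (m : ℕ) : ℝ := if m ≤ 4 then 0 else
  (((d : ℝ) - 1) ^ (m / 2) - (k - 1) ^ (m / 2)) / ((d - 1) ^ (m / 2) - (k - 1) ^ (m / 2) + (-1) ^ (m / 2))

theorem gap (h0 : 0 < k) (hk : k < d) (hd : 3 ≤ d) {l : ℕ} (hl : 2 ≤ l) :
    2 ≤ ((d : ℝ) - 1) ^ l - (k - 1) ^ l ∧ -1 ≤ (-1 : ℝ) ^ l := by
  have h1 : (1 : ℝ) ≤ k := by exact_mod_cast h0
  have h2 : (k : ℝ) + 1 ≤ d := by exact_mod_cast hk
  have h3 : (3 : ℝ) ≤ d := by exact_mod_cast hd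
  obtain ⟨m, rfl⟩ : ∃ m, l = m + 1 := ⟨l - 1, by omega⟩
  have h4 : ((k : ℝ) - 1) ^ m ≤ (d - 1) ^ m := pow_le_pow_left₀ (by linarith) (by linarith) _
  have h5 : (d : ℝ) - 1 ≤ (d - 1) ^ m := le_self_pow₀ (by linarith) (by omega)
  refine ⟨?_, by rcases neg_one_pow_eq_or ℝ (m + 1) with h | h <;> simp [h]⟩
  rw [pow_succ, pow_succ]
  nlinarith

theorem rho_bd (h0 : 0 < k) (hk : k < d) (hd : 3 ≤ d) (m : ℕ) : 0 ≤ rho d k m ∧ rho d k m ≤ 2 := by
  unfold rho
  split_ifs with h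
  · simp
  obtain ⟨h1, h2⟩ := gap h0 hk hd (show 2 ≤ m / 2 by omega)
  exact ⟨div_nonneg (by linarith) (by linarith), by rw [div_le_iff₀ (by linarith)]; linarith⟩

/-- The weight as a function of the colour pattern. -/
noncomputable def ph (ρ : ℕ → ℝ) (j : ℕ) (c : Fin (j + 1) → Bool) : ℝ :=
  if 2 * (j + 1) ≤ 4 then 0 else if ∀ i, c i = true then 1 else ρ (2 * (j + 1))

theorem ph_bd {ρ : ℕ → ℝ} (h : ∀ j, 0 ≤ ρ j ∧ ρ j ≤ 2) (j : ℕ) (c : Fin (j + 1) → Bool) :
    0 ≤ ph ρ j c ∧ ph ρ j c ≤ 2 := by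
  unfold ph
  split_ifs
  · simp
  · simp
  · exact h _

theorem PS_ph (h0 : 0 < k) (hk : k < d) (hd : 3 ≤ d) (j : ℕ) :
    PS j (T2 d k) (ph (rho d k) j) = if j < 2 then 0 else ((d : ℝ) - 1) ^ (j + 1) := by
  split_ifs with h
  · simp [PS, ph, show 2 * (j + 1) ≤ 4 by omega]
  have h1 := PS_one (k := k) (h0.trans hk) j
  obtain ⟨h2, h3⟩ := gap h0 hk hd (show 2 ≤ j + 1 by omega)
  have h4 : PS j (T2 d k) (ph (rho d k) j) = rho d k (2 * (j + 1)) * PS j (T2 d k) (fun _ => 1) +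
      (1 - rho d k (2 * (j + 1))) * ((k : ℝ) - 1) ^ (j + 1) := by
    unfold PS
    rw [sum_congr rfl (g := fun c : Fin (j + 1) → Bool => rho d k (2 * (j + 1)) *
      (1 * ∏ i, T2 d k (c i) (c (i + 1))) + if c = fun _ => true then (1 - rho d k (2 * (j + 1))) *
      ∏ i, T2 d k (c i) (c (i + 1)) else 0) fun c _ => ?_, sum_add_distrib, ← mul_sum, sum_ite_eq']
    · simp [T2, mm]
    · simp only [ph, if_neg (show ¬ 2 * (j + 1) ≤ 4 by omega), funext_iff]
      split_ifs <;> ring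
  rw [h4, h1, rho, if_neg (by omega), Nat.mul_div_cancel_left _ two_pos]
  have : ((d : ℝ) - 1) ^ (j + 1) - (k - 1) ^ (j + 1) + (-1) ^ (j + 1) ≠ 0 := by linarith
  field_simp
  ring

theorem fw_toSet {Ω V : Type} [Fintype Ω] [DecidableEq Ω] [Fintype V] [DecidableEq V]
    {vert : Ω → V} (ρ : ℕ → ℝ) (R : Finset Ω) {j : ℕ} {t : Fin (j + 1) → Ω × Ω} (ht : IsT vert t)
    (hm : Mono (colR R) (toSet t)) : fw ρ R (toSet t) = ph ρ j fun i => colR R (t i).2 := by
  have : Ins R (toSet t) ↔ ∀ i, colR R (t i).2 = true := by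
    refine ⟨fun h i => by simpa [colR] using h _ (mem_toSet.2 ⟨i, Or.inl rfl⟩), fun h e he => ?_⟩
    obtain ⟨i, rfl | rfl⟩ := mem_toSet.1 he
    · simpa [colR] using h i
    · simpa [colR] using (hm _ he).symm.trans (h i)
  simp only [fw, ph, ht.card, this]

theorem mean_sum (D K : ℕ) {c₀ B η : ℝ} (hc : 0 < c₀) (hB : 0 ≤ B) (hη : 0 < η) :
    ∀ᶠ n : ℕ in atTop, ∀ (Ω V κ : Type) [Fintype Ω] [DecidableEq Ω] [Fintype V]
      [DecidableEq V] [Fintype κ] (vert : Ω → V) (col : Ω → κ) (x : Finset (Ω × Ω) → ℝ)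
      (φ : ∀ j, (Fin (j + 1) → κ) → ℝ), Fintype.card V = n → Mdl D c₀ vert col →
      (∀ j c, |φ j c| ≤ B) → (∀ j (t : Fin (j + 1) → Ω × Ω), IsT vert t → Mono col (toSet t) →
        x (toSet t) = φ j fun i => col (t i).2) →
      |∑ C ∈ CYs vert K, x C * pw col C - ∑ j ∈ range K,
        PS j (fun c c' => AT vert col c c' / NC col c) (φ j) / (2 * (j + 1))| ≤ η := by
  have e1 : ∀ᶠ t : ℝ in 𝓝 0, ∑ j ∈ range K, B * t * (((j + 1) * D) ^ (2 * (j + 1)) : ℕ) *
      Real.exp (2 / c₀) < η := ContinuousAt.eventually_lt (by fun_prop) (by fun_prop) (by simpa using hη)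
  filter_upwards [(tendsto_t hc).eventually (e1.and (ge_mem_nhds one_pos)), eventually_gt_atTop 0]
    with n ⟨e1, e2⟩ hn
  intro Ω V κ _ _ _ _ _ vert col x φ hV hm hφ hx
  set t := (√(c₀ * n / 2))⁻¹ with ht
  have hn' : (0 : ℝ) < n := by exact_mod_cast hn
  have ht3 : Fintype.card V * t ^ 2 = 2 / c₀ := by
    rw [hV, ht, inv_pow, Real.sq_sqrt (by positivity), inv_div]
    field_simp
  have hθ' : ∀ c, (√(NC col c))⁻¹ ≤ t := fun c =>
    inv_anti₀ (by positivity) (Real.sqrt_le_sqrt (by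
      have := (hm.2 c).2
      rw [hV] at this
      nlinarith [mul_pos hc hn']))
  rw [sum_CYs, ← sum_sub_distrib]
  refine (abs_sum_le_sum_abs _ _).trans (le_trans (sum_le_sum fun j _ => ?_) e1.le)
  have := mean hm.1 (by positivity) e2 hθ' x (φ j) hB (hφ j) (hx j)
  rw [ht3] at this
  have h1 : (1 : ℝ) ≤ 2 * (j + 1) := by linarith [Nat.cast_nonneg (α := ℝ) j]
  rw [sub_div' (by linarith), abs_div, abs_of_pos (a := 2 * _) (by linarith), mul_comm _ (2 * _)]
  exact (div_le_self (abs_nonneg _) h1).trans this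

/-- The three exponents. -/
noncomputable def E0 (d K : ℕ) : ℝ :=
  ∑ j ∈ range K, (if j < 2 then -((d : ℝ) - 1) ^ (j + 1) else 0) / (2 * (j + 1))

/-- The exponent of the first moment. -/
noncomputable def E1 (d k K : ℕ) : ℝ :=
  ∑ j ∈ range K, PS j (T2 d k) (fun c => ph (rho d k) j c - 1) / (2 * (j + 1))

/-- The weight of a pattern in the second moment. -/
noncomputable def ph2 (d k j : ℕ) (c : Fin (j + 1) → Bool × Bool) : ℝ :=
  (ph (rho d k) j (fun i => (c i).1) * ph (rho d k) j fun i => (c i).2) - 1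

/-- The exponent of the second moment. -/
noncomputable def E2 (d k K : ℕ) (T : Bool × Bool → Bool × Bool → ℝ) : ℝ :=
  ∑ j ∈ range K, PS j T (ph2 d k j) / (2 * (j + 1))

theorem E_id (h0 : 0 < k) (hk : k < d) (hd : 3 ≤ d) (K : ℕ) :
    E0 d K + E2 d k K (fun c c' => T2 d k c.1 c'.1 * T2 d k c.2 c'.2 / (d - 1)) - 2 * E1 d k K =
      -(∑ j ∈ range K, (1 / ((d : ℝ) - 1)) ^ (j + 1) / (j + 1)) / 2 := by
  have h3 : (3 : ℝ) ≤ d := by exact_mod_cast hd
  have h4 : (0 : ℝ) < d - 1 := by linarith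
  rw [E0, E1, E2, mul_sum, ← sum_add_distrib, ← sum_sub_distrib, ← sum_neg_distrib, sum_div]
  refine sum_congr rfl fun j _ => ?_
  have h1 := PS_tensor j (T2 d k) (d - 1) fun _ => 1
  simp only [mul_one] at h1
  unfold ph2
  rw [PS_sub, PS_sub, PS_tensor, h1, PS_one (by omega), PS_ph h0 hk hd, one_div, inv_pow]
  have h2 := neg_one_pow_eq_or ℝ (j + 1)
  have h5 := pow_pos h4 (j + 1)
  generalize ((d : ℝ) - 1) ^ (j + 1) = a at h5
  split_ifs <;> rcases h2 with h | h <;> rw [h] <;> field_simp <;> ring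

theorem exists_K (hd : 3 ≤ d) {ε : ℝ} (hε : 0 < ε) : ∃ K, 2 ≤ K ∧
    Real.exp (-(∑ j ∈ range K, (1 / ((d : ℝ) - 1)) ^ (j + 1) / (j + 1)) / 2) *
      (√(1 - 1 / (d - 1)))⁻¹ < 1 + ε ^ 2 := by
  have h3 : (3 : ℝ) ≤ d := by exact_mod_cast hd
  have h1 : 1 / ((d : ℝ) - 1) < 1 := by
    rw [div_lt_one (by linarith)]
    linarith
  have h2 := (Real.hasSum_pow_div_log_of_abs_lt_one (x := 1 / ((d : ℝ) - 1)) (by
    rwa [abs_of_pos (one_div_pos.2 (by linarith))])).tendsto_sum_nat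
  have h4 := ((Real.continuous_exp.tendsto _).comp (h2.neg.div_const 2)).mul_const
    (√(1 - 1 / ((d : ℝ) - 1)))⁻¹
  rw [neg_neg, ← Real.log_sqrt (by linarith), Real.exp_log (Real.sqrt_pos.2 (by linarith)),
    mul_inv_cancel₀ (Real.sqrt_pos.2 (by linarith)).ne'] at h4
  exact ((eventually_ge_atTop 2).and (h4.eventually (gt_mem_nhds (by simp; positivity)))).exists

theorem exists_delta (h0 : 0 < k) (hk : k < d) (K : ℕ) {η : ℝ} (hη : 0 < η) : ∃ δ : ℝ, 0 < δ ∧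
    δ ≤ 1 / (2 * d) ∧ ∀ (A : Bool × Bool → Bool × Bool → ℝ) (N : Bool × Bool → ℝ),
      (∀ c c', |A c c' - A1 d k c.1 c'.1 * A1 d k c.2 c'.2 / (d * (d - 1))| < δ) →
      (∀ c, |N c - mm d k c.1 * mm d k c.2 / d| < δ) → E2 d k K (fun c c' => A c c' / N c) ≤
        E2 d k K (fun c c' => T2 d k c.1 c'.1 * T2 d k c.2 c'.2 / (d - 1)) + η := by
  have d0 : (0 : ℝ) < d := by exact_mod_cast h0.trans hk
  have m0 : ∀ b, 0 < mm d k b := fun b => one_pos.trans_le (mm_bd h0 hk b).1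
  have h1 : ContinuousAt (fun x : (Bool × Bool → Bool × Bool → ℝ) × (Bool × Bool → ℝ) =>
      E2 d k K fun c c' => x.1 c c' / x.2 c)
      (fun c c' => A1 d k c.1 c'.1 * A1 d k c.2 c'.2 / (d * (d - 1)),
        fun c => mm d k c.1 * mm d k c.2 / d) := by
    unfold E2 PS
    refine tendsto_finsetSum _ fun j _ => ContinuousAt.div_const (tendsto_finsetSum _ fun c _ =>
      ContinuousAt.const_mul (tendsto_finsetProd _ fun i _ => ContinuousAt.div (by fun_prop)
        (by fun_prop) ?_) _) _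
    exact (div_pos (mul_pos (m0 _) (m0 _)) d0).ne'
  obtain ⟨δ, h2, h3⟩ := Metric.continuousAt_iff.1 h1 η hη
  refine ⟨min δ (1 / (2 * d)), by positivity, min_le_right _ _, fun A N hA hN => ?_⟩
  have h4 := h3 (x := (A, N)) (by
    rw [Prod.dist_eq, max_lt_iff, dist_pi_lt_iff h2, dist_pi_lt_iff h2]
    exact ⟨fun c => (dist_pi_lt_iff h2).2 fun c' => (hA c c').trans_le (min_le_left _ _),
      fun c => (hN c).trans_le (min_le_left _ _)⟩)
  have h5 : (fun c c' : Bool × Bool => A1 d k c.1 c'.1 * A1 d k c.2 c'.2 / (d * (d - 1)) /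
      (mm d k c.1 * mm d k c.2 / d)) = fun c c' => T2 d k c.1 c'.1 * T2 d k c.2 c'.2 / (d - 1) := by
    funext c c'
    have := m0 c.1
    have := m0 c.2
    unfold A1 T2
    field_simp
  simp only [h5] at h4
  linarith [(abs_lt.1 h4).2]

end Pool.Agent.Lib.MP_d20c4f_pr
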