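import Pool.Agent.Lib.MP_d20c4f_pr.Basic

/-!
Cycles as minimal two-regular matchings, and the comparison of their joint probabilities with
the product of the idealised probabilities.
-/

namespace Pool.Agent.Lib.MP_d20c4f_pr

open Finset

set_option linter.unusedSectionVars false

variable {Ω V κ : Type} [Fintype Ω] [DecidableEq Ω] [Fintype V] [DecidableEq V]

/-- The vertices touched by a set of pairs. -/
def UV (vert : Ω → V) (F : Finset (Ω × Ω)) : Finset V := F.image fun e => vert e.1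

/-- Every touched vertex carries exactly two points. -/
def TwoReg (vert : Ω → V) (F : Finset (Ω × Ω)) : Prop :=
  Mt F ∧ ∀ e ∈ F, (F.filter fun e' => vert e'.1 = vert e.1).card = 2

/-- A cycle. -/
def Cyc (vert : Ω → V) (C : Finset (Ω × Ω)) : Prop :=
  C.Nonempty ∧ TwoReg vert C ∧ ∀ C' ⊆ C, C'.Nonempty → TwoReg vert C' → C' = C

variable {vert : Ω → V}

theorem card_eq_deg (F : Finset (Ω × Ω)) :
    F.card = ∑ v ∈ UV vert F, (F.filter fun e => vert e.1 = v).card :=
  card_eq_sum_card_fiberwise fun _ he => mem_image_of_mem _ he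

theorem TwoReg.card {F : Finset (Ω × Ω)} (h : TwoReg vert F) : F.card = 2 * (UV vert F).card := by
  rw [card_eq_deg (vert := vert), sum_congr rfl (g := fun _ => 2), sum_const, smul_eq_mul, mul_comm]
  intro v hv
  obtain ⟨e, he, rfl⟩ := mem_image.1 hv
  exact h.2 e he

/-- Pairwise vertex-disjoint families. -/
def Good (vert : Ω → V) (S : Finset (Finset (Ω × Ω))) : Prop :=
  ∀ C ∈ S, ∀ C' ∈ S, C ≠ C' → Disjoint (UV vert C) (UV vert C')

theorem excess {S : Finset (Finset (Ω × Ω))} (hS : ∀ C ∈ S, Cyc vert C)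
    (hG : ¬ Good vert S) : 2 * (UV vert (S.biUnion id)).card + 1 ≤ (S.biUnion id).card := by
  set F := S.biUnion id with hFd
  have hsub : ∀ C ∈ S, C ⊆ F := fun C hC => subset_biUnion_of_mem id hC
  have h2 : ∀ v ∈ UV vert F, 2 ≤ (F.filter fun e => vert e.1 = v).card := by
    intro v hv
    obtain ⟨e, he, rfl⟩ := mem_image.1 hv
    obtain ⟨C, hC, heC⟩ := mem_biUnion.1 he
    rw [← (hS C hC).2.1.2 e heC]
    exact card_le_card (filter_subset_filter _ (hsub C hC))
  by_contra hcon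
  have h3 : ∀ v ∈ UV vert F, (F.filter fun e => vert e.1 = v).card ≤ 2 := by
    intro v hv
    by_contra h
    have := sum_lt_sum h2 ⟨v, hv, by omega⟩
    rw [← card_eq_deg, sum_const, smul_eq_mul] at this
    omega
  have h4 : ∀ C ∈ S, ∀ e ∈ C, (C.filter fun e' => vert e'.1 = vert e.1) =
      F.filter fun e' => vert e'.1 = vert e.1 := fun C hC e he =>
    eq_of_subset_of_card_le (filter_subset_filter _ (hsub C hC))
      ((h3 _ (mem_image_of_mem _ (hsub C hC he))).trans ((hS C hC).2.1.2 e he).ge)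
  refine hG fun C hC C' hC' hne => disjoint_left.2 fun v hv hv' => hne ?_
  obtain ⟨e, he, rfl⟩ := mem_image.1 hv
  obtain ⟨e', he', h5⟩ := mem_image.1 hv'
  have h6 : e ∈ C' := by
    have := h4 C' hC' e' he'
    rw [h5] at this
    have h : e ∈ F.filter fun e' : Ω × Ω => vert e'.1 = vert e.1 := mem_filter.2 ⟨hsub C hC he, rfl⟩
    rw [← this] at h
    exact (mem_filter.1 h).1
  have h7 : TwoReg vert (C ∩ C') := by
    refine ⟨fun x hx => ?_, fun x hx => ?_⟩
    · obtain ⟨x1, x2⟩ := mem_inter.1 hx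
      exact ⟨mem_inter.2 ⟨((hS C hC).2.1.1 x x1).1, ((hS C' hC').2.1.1 x x2).1⟩,
        ((hS C hC).2.1.1 x x1).2.1, fun y hy => ((hS C hC).2.1.1 x x1).2.2 y (mem_inter.1 hy).1⟩
    · obtain ⟨x1, x2⟩ := mem_inter.1 hx
      rw [filter_inter_distrib, h4 C hC x x1, h4 C' hC' x x2, inter_self, ← h4 C hC x x1]
      exact (hS C hC).2.1.2 x x1
  have h8 : (C ∩ C').Nonempty := ⟨e, mem_inter.2 ⟨he, h6⟩⟩
  rw [← (hS C hC).2.2 _ inter_subset_left h8 h7, (hS C' hC').2.2 _ inter_subset_right h8 h7]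

theorem excess' {S : Finset (Finset (Ω × Ω))} (hS : ∀ C ∈ S, Cyc vert C) (hG : ¬ Good vert S) :
    2 * (UV vert (S.biUnion id)).card + 1 ≤ ∑ C ∈ S, C.card :=
  (excess hS hG).trans card_biUnion_le

theorem sum_small {α : Type} (T : Finset α) (u : α → Finset V) (h : α → ℝ) {a β : ℝ} {Cn : ℕ}
    (ha : 0 ≤ a) (hβ : 0 ≤ β) (hC : ∀ U, (T.filter fun s => u s = U).card ≤ Cn)
    (hh : ∀ s ∈ T, h s ≤ a * β ^ (u s).card) :
    ∑ s ∈ T, h s ≤ a * Cn * Real.exp (Fintype.card V * β) := by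
  rw [← sum_fiberwise_of_maps_to (g := u) (t := (univ : Finset V).powerset) (by simp)]
  calc _ ≤ ∑ U ∈ (univ : Finset V).powerset, a * Cn * ∏ _v ∈ U, β := by
        refine sum_le_sum fun U _ => ?_
        refine (sum_le_card_nsmul _ _ (a * β ^ U.card) fun s hs => ?_).trans ?_
        · rw [← (mem_filter.1 hs).2]
          exact hh s (mem_filter.1 hs).1
        · rw [nsmul_eq_mul, prod_const, mul_right_comm, mul_comm (a * _)]
          gcongr
          exact hC U
    _ ≤ _ := by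
        rw [← mul_sum, ← prod_one_add]
        gcongr
        refine (Real.prod_one_add_le_exp_sum _ fun _ => hβ).trans_eq ?_
        simp

theorem card_pts {D : ℕ} (hD : ∀ v, (univ.filter fun p => vert p = v).card ≤ D) (U : Finset V) :
    (univ.filter fun p => vert p ∈ U).card ≤ U.card * D := by
  refine le_trans (card_le_card fun p hp => ?_) (card_biUnion_le_card_mul U
    (fun v => univ.filter fun p => vert p = v) D fun v _ => hD v)
  simpa using hp

theorem fibre_sets {D L : ℕ} (hD : ∀ v, (univ.filter fun p => vert p = v).card ≤ D)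
    (T : Finset (Finset (Ω × Ω))) (hT : ∀ C ∈ T, C.card ≤ L ∧ ∀ e ∈ C, e.swap ∈ C) (U : Finset V) :
    (T.filter fun C => UV vert C = U).card ≤ 2 ^ (L * D) ^ 2 := by
  rcases (T.filter fun C => UV vert C = U).eq_empty_or_nonempty with h | ⟨C₀, h⟩
  · simp [h]
  have hU : U.card ≤ L := by
    rw [← (mem_filter.1 h).2]
    exact card_image_le.trans (hT _ (mem_filter.1 h).1).1
  let P := univ.filter fun p => vert p ∈ U
  refine (card_le_card (t := (P ×ˢ P).powerset) fun C hC => ?_).trans ?_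
  · obtain ⟨h1, rfl⟩ := mem_filter.1 hC
    refine mem_powerset.2 fun e he => mem_product.2 ⟨?_, ?_⟩
    · exact mem_filter.2 ⟨mem_univ _, mem_image_of_mem _ he⟩
    · exact mem_filter.2 ⟨mem_univ _, mem_image.2 ⟨_, (hT C h1).2 e he, rfl⟩⟩
  · rw [card_powerset, card_product, ← sq]
    exact Nat.pow_le_pow_right (by omega) (Nat.pow_le_pow_left
      ((card_pts hD U).trans (Nat.mul_le_mul_right _ hU)) _)

theorem fibre_fams {D L : ℕ} (hD : ∀ v, (univ.filter fun p => vert p = v).card ≤ D)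
    (T : Finset (Finset (Finset (Ω × Ω))))
    (hT : ∀ S ∈ T, (S.biUnion id).card ≤ L ∧ ∀ C ∈ S, ∀ e ∈ C, e.swap ∈ C) (U : Finset V) :
    (T.filter fun S => UV vert (S.biUnion id) = U).card ≤ 2 ^ 2 ^ (L * D) ^ 2 := by
  rcases (T.filter fun S => UV vert (S.biUnion id) = U).eq_empty_or_nonempty with h | ⟨C₀, h⟩
  · simp [h]
  have hU : U.card ≤ L := by
    rw [← (mem_filter.1 h).2]
    exact card_image_le.trans (hT _ (mem_filter.1 h).1).1
  let P := univ.filter fun p => vert p ∈ U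
  refine (card_le_card (t := (P ×ˢ P).powerset.powerset) fun S hS => ?_).trans ?_
  · obtain ⟨h1, rfl⟩ := mem_filter.1 hS
    refine mem_powerset.2 fun C hC => mem_powerset.2 fun e he => mem_product.2 ⟨?_, ?_⟩
    · exact mem_filter.2 ⟨mem_univ _, mem_image_of_mem _ (mem_biUnion.2 ⟨C, hC, he⟩)⟩
    · exact mem_filter.2 ⟨mem_univ _, mem_image.2 ⟨_, mem_biUnion.2 ⟨C, hC, (hT S h1).2 C hC e he⟩,
        rfl⟩⟩
  · rw [card_powerset, card_powerset, card_product, ← sq]
    exact Nat.pow_le_pow_right (by omega) (Nat.pow_le_pow_right (by omega) (Nat.pow_le_pow_left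
      ((card_pts hD U).trans (Nat.mul_le_mul_right _ hU)) _))

theorem pw_le {col : Ω → κ} {t : ℝ} (ht : ∀ c, (√(NC col c))⁻¹ ≤ t) (h0 : 0 ≤ t)
    (F : Finset (Ω × Ω)) : pw col F ≤ t ^ F.card := by
  unfold pw
  split_ifs
  · rw [← prod_const]
    exact prod_le_prod (fun _ _ => by positivity) fun _ _ => ht _
  · positivity

theorem pw_good {col : Ω → κ} {S : Finset (Finset (Ω × Ω))} (hG : Good vert S) :
    pw col (S.biUnion id) = ∏ C ∈ S, pw col C := by
  unfold pw
  split_ifs with h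
  · rw [prod_biUnion]
    · exact prod_congr rfl fun C hC => (if_pos fun e he => h e (mem_biUnion.2 ⟨C, hC, he⟩)).symm
    · intro C hC C' hC' hne
      exact disjoint_left.2 fun e he he' => disjoint_left.1 (hG C hC C' hC' hne)
        (mem_image_of_mem _ he) (mem_image_of_mem _ he')
  · simp only [Mono, mem_biUnion, id, not_forall] at h
    obtain ⟨e, ⟨C, hC, he⟩, h⟩ := h
    exact (prod_eq_zero hC (if_neg fun h' => h (h' e he))).symm

theorem Mt_good {S : Finset (Finset (Ω × Ω))} (hS : ∀ C ∈ S, Cyc vert C) (hG : Good vert S) :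
    Mt (S.biUnion id) := by
  intro e he
  obtain ⟨C, hC, he⟩ := mem_biUnion.1 he
  have h := (hS C hC).2.1.1 e he
  refine ⟨mem_biUnion.2 ⟨C, hC, h.1⟩, h.2.1, fun e' he' h1 => ?_⟩
  obtain ⟨C', hC', he'⟩ := mem_biUnion.1 he'
  by_cases h2 : C = C'
  · subst h2
    exact h.2.2 e' he' h1
  · exact (disjoint_left.1 (hG C hC C' hC' h2) (mem_image_of_mem _ he)
      (mem_image.2 ⟨e', he', by rw [h1]⟩)).elim

theorem sum_pw_le {col : Ω → κ} {D L : ℕ} (hD : ∀ v, (univ.filter fun p => vert p = v).card ≤ D)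
    {A : Finset (Finset (Ω × Ω))} (hA : ∀ C ∈ A, Cyc vert C ∧ C.card ≤ L) {t : ℝ}
    (ht : ∀ c, (√(NC col c))⁻¹ ≤ t) (h0 : 0 ≤ t) :
    ∑ C ∈ A, pw col C ≤ (2 ^ (L * D) ^ 2 : ℕ) * Real.exp (Fintype.card V * t ^ 2) := by
  have := sum_small A (UV vert) (pw col) zero_le_one (sq_nonneg t) (fibre_sets hD A fun C hC =>
    ⟨(hA C hC).2, fun e he => ((hA C hC).1.2.1.1 e he).1⟩) fun C hC => by
      rw [one_mul, ← pow_mul, ← (hA C hC).1.2.1.card]
      exact pw_le ht h0 C
  rwa [one_mul] at this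

theorem key [Fintype κ] {col : Ω → κ} (hev : ∀ c, Even (NC col c)) (hN : ∀ c, 0 < NC col c)
    {D L M : ℕ} (hD : ∀ v, (univ.filter fun p => vert p = v).card ≤ D)
    {A : Finset (Finset (Ω × Ω))} (hA : ∀ C ∈ A, Cyc vert C ∧ C.card ≤ L) {θ t : ℝ} (hθ : 0 < θ)
    (hθ1 : θ ≤ 1) (hc : ∀ c, ((M * L : ℕ) : ℝ) ≤ (1 - θ) * NC col c)
    (ht : ∀ c, (√(θ * NC col c))⁻¹ ≤ t) (h0 : 0 ≤ t) (h1 : t ≤ 1) :
    ∑ S ∈ A.powerset.filter fun S => S.card ≤ M, |Pr col (S.biUnion id) - ∏ C ∈ S, pw col C| ≤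
      (θ⁻¹ ^ (M * L) - 1) * Real.exp (∑ C ∈ A, pw col C) +
        2 * t * (2 ^ 2 ^ (M * L * D) ^ 2 : ℕ) * Real.exp (Fintype.card V * t ^ 2) := by
  classical
  have hN' : ∀ c, (0 : ℝ) < NC col c := fun c => by exact_mod_cast hN c
  have ht' : ∀ c, (√(NC col c))⁻¹ ≤ t := fun c => le_trans (inv_anti₀ (Real.sqrt_pos.2
    (mul_pos hθ (hN' c))) (Real.sqrt_le_sqrt (mul_le_of_le_one_left (hN' c).le hθ1))) (ht c)
  set T := A.powerset.filter fun S => S.card ≤ M with hT
  have hTS : ∀ S ∈ T, (∀ C ∈ S, Cyc vert C) ∧ (S.biUnion id).card ≤ M * L := by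
    intro S hS
    obtain ⟨h2, h3⟩ := mem_filter.1 hS
    have h4 := mem_powerset.1 h2
    exact ⟨fun C hC => (hA C (h4 hC)).1, (card_biUnion_le_card_mul _ _ L fun C hC =>
      (hA C (h4 hC)).2).trans (Nat.mul_le_mul_right _ h3)⟩
  have hsw : ∀ S ∈ T, ∀ e ∈ S.biUnion id, e.swap ∈ S.biUnion id := fun S hS e he => by
    obtain ⟨C, hC, he⟩ := mem_biUnion.1 he
    exact mem_biUnion.2 ⟨C, hC, (((hTS S hS).1 C hC).2.1.1 e he).1⟩
  have hcS : ∀ S ∈ T, ∀ c, ((S.biUnion id).card : ℝ) ≤ (1 - θ) * NC col c := fun S hS c =>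
    (Nat.cast_le.2 (hTS S hS).2).trans (hc c)
  have hi : 1 ≤ θ⁻¹ := one_le_inv₀ hθ |>.2 hθ1
  have he : 0 ≤ θ⁻¹ ^ (M * L) - 1 := sub_nonneg.2 (one_le_pow₀ hi)
  rw [← sum_filter_add_sum_filter_not T (Good vert)]
  refine add_le_add ?_ ?_
  · calc _ ≤ ∑ S ∈ T.filter (Good vert), (θ⁻¹ ^ (M * L) - 1) * ∏ C ∈ S, pw col C := by
          refine sum_le_sum fun S hS => ?_
          obtain ⟨hS, hG⟩ := mem_filter.1 hS
          rw [← pw_good hG]
          by_cases hm : Mono col (S.biUnion id)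
          · obtain ⟨b1, b2⟩ := Pr_bounds hev (Mt_good (hTS S hS).1 hG) hm hθ hN (hcS S hS)
            rw [abs_of_nonneg (sub_nonneg.2 b1), sub_mul, one_mul, sub_le_sub_iff_right]
            refine b2.trans ?_
            unfold pw
            rw [if_pos hm]
            refine le_trans ?_ (mul_le_mul_of_nonneg_right (pow_le_pow_right₀ hi (hTS S hS).2)
              (by positivity))
            rw [← prod_const, ← prod_mul_distrib]
            refine prod_le_prod (fun _ _ => by positivity) fun e _ => ?_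
            rw [Real.sqrt_mul hθ.le, mul_inv]
            gcongr
            exact Real.le_sqrt_of_sq_le (by nlinarith)
          · rw [Pr_eq_zero (hsw S hS) fun h => hm h.2]
            unfold pw
            simp [hm]
      _ ≤ _ := by
          rw [← mul_sum]
          gcongr
          refine le_trans ?_ (Real.prod_one_add_le_exp_sum _ fun C => pw_nonneg col C)
          rw [prod_one_add]
          exact sum_le_sum_of_subset_of_nonneg ((filter_subset _ _).trans (filter_subset _ _))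
            fun S _ _ => prod_nonneg fun C _ => pw_nonneg col C
  · refine sum_small _ (fun S => UV vert (S.biUnion id)) _ (by positivity) (sq_nonneg t)
      (fibre_fams hD _ fun S hS => ⟨(hTS S (mem_filter.1 hS).1).2, fun C hC e he =>
        (((hTS S (mem_filter.1 hS).1).1 C hC).2.1.1 e he).1⟩) fun S hS => ?_
    obtain ⟨hS, hG⟩ := mem_filter.1 hS
    have b1 : ∏ C ∈ S, pw col C ≤ t ^ (2 * (UV vert (S.biUnion id)).card + 1) := by
      refine (prod_le_prod (fun C _ => pw_nonneg col C) fun C _ => pw_le ht' h0 C).trans ?_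
      rw [prod_pow_eq_pow_sum]
      exact pow_le_pow_of_le_one h0 h1 (excess' (hTS S hS).1 hG)
    have b2 : Pr col (S.biUnion id) ≤ t ^ (2 * (UV vert (S.biUnion id)).card + 1) := by
      by_cases hm : Mt (S.biUnion id) ∧ Mono col (S.biUnion id)
      · refine (Pr_bounds hev hm.1 hm.2 hθ hN (hcS S hS)).2.trans ?_
        refine le_trans ?_ (pow_le_pow_of_le_one h0 h1 (excess (hTS S hS).1 hG))
        rw [← prod_const]
        exact prod_le_prod (fun _ _ => by positivity) fun _ _ => ht _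
      · rw [Pr_eq_zero (hsw S hS) hm]
        positivity
    have b3 := Pr_nonneg col (S.biUnion id)
    have b4 : 0 ≤ ∏ C ∈ S, pw col C := prod_nonneg fun C _ => pw_nonneg col C
    rw [pow_succ, pow_mul] at b1 b2
    rw [abs_le]
    constructor <;> nlinarith

end Pool.Agent.Lib.MP_d20c4f_pr
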