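import Pool.Agent.Lib.MP_d20c4f_pr.Moments

/-!
The expectation of a truncated product of weights over the short cycles of a random pairing.
-/

namespace Pool.Agent.Lib.MP_d20c4f_pr

open Finset Filter Topology

set_option linter.unusedSectionVars false

variable {Ω V κ : Type} [Fintype Ω] [DecidableEq Ω] [Fintype V] [DecidableEq V]

theorem sum_biUnion_le' {α β : Type} [DecidableEq β] (s : Finset α) (t : α → Finset β) {g : β → ℝ}
    (hg : ∀ b, 0 ≤ g b) : ∑ b ∈ s.biUnion t, g b ≤ ∑ a ∈ s, ∑ b ∈ t a, g b := by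
  classical
  induction s using Finset.induction_on with
  | empty => simp
  | insert a s ha ih =>
    rw [biUnion_insert, sum_insert ha]
    have := sum_union_inter (s₁ := t a) (s₂ := s.biUnion t) (f := g)
    have h : 0 ≤ ∑ b ∈ t a ∩ s.biUnion t, g b := sum_nonneg fun b _ => hg b
    linarith

theorem abs_prod_le {α : Type} {x : α → ℝ} {B : ℝ} (S : Finset α) (hx : ∀ a ∈ S, |x a| ≤ B) :
    |∏ a ∈ S, x a| ≤ B ^ S.card := by
  rw [abs_prod, ← prod_const]
  exact prod_le_prod (fun _ _ => abs_nonneg _) hx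

theorem trunc {α : Type} [DecidableEq α] (P : Finset α) (x : α → ℝ) {B : ℝ} (hB : 0 ≤ B)
    (hx : ∀ a ∈ P, |x a| ≤ B) (M : ℕ) :
    |(if P.card ≤ M then ∏ a ∈ P, (1 + x a) else 0) -
      ∑ S ∈ P.powerset.filter fun S => S.card ≤ M, ∏ a ∈ S, x a| ≤
      (1 + B) ^ (M + 1) * (P.powerset.filter fun S => S.card = M + 1).card := by
  split_ifs with h
  · rw [filter_true_of_mem fun S hS => (card_le_card (mem_powerset.1 hS)).trans h, prod_one_add,
      sub_self, abs_zero]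
    positivity
  rw [zero_sub, abs_neg]
  calc _ ≤ ∑ S ∈ P.powerset.filter fun S => S.card ≤ M, B ^ S.card :=
        (abs_sum_le_sum_abs _ _).trans (sum_le_sum fun S hS => abs_prod_le S fun a ha =>
          hx a (mem_powerset.1 (mem_filter.1 hS).1 ha))
    _ ≤ ∑ S ∈ (P.powerset.filter fun S => S.card = M + 1).biUnion powerset, B ^ S.card := by
        refine sum_le_sum_of_subset_of_nonneg (fun S hS => ?_) fun _ _ _ => by positivity
        obtain ⟨h1, h2⟩ := mem_filter.1 hS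
        obtain ⟨T, t1, t2, t3⟩ := exists_subsuperset_card_eq (mem_powerset.1 h1)
          (n := M + 1) (by omega) (by omega)
        exact mem_biUnion.2 ⟨T, mem_filter.2 ⟨mem_powerset.2 t2, t3⟩, mem_powerset.2 t1⟩
    _ ≤ _ := by
        refine (sum_biUnion_le' _ _ fun S => by positivity).trans ?_
        rw [mul_comm, ← nsmul_eq_mul]
        refine sum_le_card_nsmul _ _ _ fun T hT => ?_
        rw [← (mem_filter.1 hT).2, ← prod_const, prod_one_add]
        simp

theorem tail_sum {α : Type} (A : Finset α) {y : α → ℝ} (hy : ∀ a, 0 ≤ y a) (M : ℕ) :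
    ∑ S ∈ A.powerset.filter fun S => ¬ S.card ≤ M, ∏ a ∈ S, y a ≤
      (2 ^ M)⁻¹ * Real.exp (2 * ∑ a ∈ A, y a) := by
  rw [mul_sum]
  refine le_trans ?_ (mul_le_mul_of_nonneg_left (Real.prod_one_add_le_exp_sum _ fun a => by
    have := hy a; positivity) (by positivity))
  rw [prod_one_add, mul_sum]
  refine le_trans (sum_le_sum fun S hS => ?_) (sum_le_sum_of_subset_of_nonneg (filter_subset _ _)
    fun S _ _ => mul_nonneg (by positivity) (prod_nonneg fun a _ => by have := hy a; positivity))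
  rw [prod_mul_distrib, prod_const, ← mul_assoc]
  refine le_mul_of_one_le_left (prod_nonneg fun a _ => hy a) ?_
  rw [le_inv_mul_iff₀ (by positivity), mul_one]
  exact pow_le_pow_right₀ one_le_two (by have := (mem_filter.1 hS).2; omega)

theorem prod_exp {α : Type} (A : Finset α) {y : α → ℝ} {τ : ℝ} (hτ : τ ≤ 1 / 2)
    (hy : ∀ a ∈ A, |y a| ≤ τ) :
    |∏ a ∈ A, (1 + y a) - Real.exp (∑ a ∈ A, y a)| ≤
      2 * τ * (∑ a ∈ A, |y a|) * Real.exp (∑ a ∈ A, |y a|) := by
  have h1 : ∏ a ∈ A, (1 + y a) ≤ Real.exp (∑ a ∈ A, y a) := by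
    rw [Real.exp_sum]
    refine prod_le_prod (fun a ha => ?_) fun a _ => by linarith [Real.add_one_le_exp (y a)]
    linarith [(abs_le.1 (hy a ha)).1]
  have h2 : Real.exp (∑ a ∈ A, (y a - 2 * τ * |y a|)) ≤ ∏ a ∈ A, (1 + y a) := by
    rw [Real.exp_sum]
    refine prod_le_prod (fun a _ => (Real.exp_pos _).le) fun a ha => ?_
    have h := abs_le.1 (hy a ha)
    have h3 : 0 < 1 + y a := by linarith
    rw [← Real.le_log_iff_exp_le h3]
    refine le_trans ?_ (Real.one_sub_inv_le_log_of_pos h3)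
    have h4 : y a ^ 2 ≤ τ * |y a| := by
      rw [← sq_abs, sq]
      exact mul_le_mul_of_nonneg_right (hy a ha) (abs_nonneg _)
    have h5 : 1 - (1 + y a)⁻¹ = y a - y a ^ 2 / (1 + y a) := by
      field_simp
      ring
    have h6 : y a ^ 2 / (1 + y a) ≤ 2 * y a ^ 2 := by
      rw [div_le_iff₀ h3]
      nlinarith [sq_nonneg (y a)]
    linarith
  rw [sum_sub_distrib, ← mul_sum, Real.exp_sub, div_eq_mul_inv, ← Real.exp_neg] at h2
  have h3 := Real.add_one_le_exp (-(2 * τ * ∑ a ∈ A, |y a|))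
  have h4 : Real.exp (∑ a ∈ A, y a) ≤ Real.exp (∑ a ∈ A, |y a|) :=
    Real.exp_le_exp.2 (sum_le_sum fun a _ => le_abs_self _)
  have h5 := Real.exp_pos (∑ a ∈ A, y a)
  rcases A.eq_empty_or_nonempty with rfl | ⟨a, ha⟩
  · simp
  have h6 : 0 ≤ 2 * τ * ∑ a ∈ A, |y a| :=
    mul_nonneg (by linarith [abs_nonneg (y a), hy a ha]) (sum_nonneg fun _ _ => abs_nonneg _)
  rw [abs_sub_comm, abs_of_nonneg (sub_nonneg.2 h1)]
  nlinarith

open Classical in
/-- The truncated weight of a pairing. -/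
noncomputable def WW (A : Finset (Finset (Ω × Ω))) (f : Finset (Ω × Ω) → ℝ) (M : ℕ) (π : Ω → Ω) : ℝ :=
  if (A.filter (Has π)).card ≤ M then ∏ C ∈ A.filter (Has π), f C else 0

open Classical in
theorem sum_exch (col : Ω → κ) (A : Finset (Finset (Ω × Ω))) (q : ℕ → Prop) [DecidablePred q]
    (g : Finset (Finset (Ω × Ω)) → ℝ) (h0 : (PP col).card ≠ 0) :
    ∑ π ∈ PP col, ∑ S ∈ (A.filter (Has π)).powerset.filter fun S => q S.card, g S =
      (PP col).card * ∑ S ∈ A.powerset.filter fun S => q S.card, g S * Pr col (S.biUnion id) := by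
  have h1 : ∀ π, ((A.filter (Has π)).powerset.filter fun S => q S.card) =
      (A.powerset.filter fun S => q S.card).filter fun S => Has π (S.biUnion id) := by
    intro π
    ext S
    simp only [mem_filter, mem_powerset, subset_iff, Has, mem_biUnion, id]
    constructor
    · rintro ⟨h, h'⟩
      exact ⟨⟨fun C hC => (h hC).1, h'⟩, fun e ⟨C, hC, he⟩ => (h hC).2 e he⟩
    · rintro ⟨⟨h, h'⟩, h''⟩
      exact ⟨fun C hC => ⟨h hC, fun e he => h'' e ⟨C, hC, he⟩⟩, h'⟩
  simp only [h1, sum_filter (p := fun S => Has _ (Finset.biUnion S id))]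
  rw [sum_comm, mul_sum]
  refine sum_congr rfl fun S _ => ?_
  rw [← sum_filter, sum_const, nsmul_eq_mul, Pr]
  have : ((PP col).card : ℝ) ≠ 0 := by exact_mod_cast h0
  field_simp

theorem T1_explicit (col : Ω → κ) (A : Finset (Finset (Ω × Ω))) (f : Finset (Ω × Ω) → ℝ) (M : ℕ)
    (h0 : (PP col).card ≠ 0) {B K Λ τ : ℝ} (hB : 0 ≤ B) (hf : ∀ C ∈ A, |f C - 1| ≤ B)
    (hK : ∑ S ∈ A.powerset.filter fun S => S.card ≤ M + 1,
      |Pr col (S.biUnion id) - ∏ C ∈ S, pw col C| ≤ K) (hΛ : ∑ C ∈ A, pw col C ≤ Λ)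
    (hτ0 : 0 ≤ τ) (hτ : B * τ ≤ 1 / 2) (hp : ∀ C ∈ A, pw col C ≤ τ) :
    |(∑ π ∈ PP col, WW A f M π) / (PP col).card - Real.exp (∑ C ∈ A, (f C - 1) * pw col C)| ≤
      2 * (1 + B) ^ (M + 1) * K + 2 * ((2 ^ M)⁻¹ * Real.exp (2 * ((1 + B) * Λ))) +
        2 * (B * τ) * (B * Λ) * Real.exp (B * Λ) := by
  classical
  have hP : (0 : ℝ) < (PP col).card := by positivity
  have hpw := pw_nonneg col
  have hΛ0 : 0 ≤ ∑ C ∈ A, pw col C := sum_nonneg fun C _ => hpw C
  set x : Finset (Ω × Ω) → ℝ := fun C => f C - 1 with hx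
  have s1 : |(∑ π ∈ PP col, WW A f M π) / (PP col).card -
      ∑ S ∈ A.powerset.filter fun S => S.card ≤ M, (∏ C ∈ S, x C) * Pr col (S.biUnion id)| ≤
      (1 + B) ^ (M + 1) * ∑ S ∈ A.powerset.filter fun S => S.card = M + 1,
        1 * Pr col (S.biUnion id) := by
    rw [div_sub' hP.ne', abs_div, abs_of_pos hP, div_le_iff₀ hP, mul_assoc, mul_comm _ ((PP col).card : ℝ),
      ← sum_exch col A (· = M + 1) (fun _ => 1) h0, ← sum_exch col A (· ≤ M) _ h0,
      ← sum_sub_distrib, mul_sum]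
    refine (abs_sum_le_sum_abs _ _).trans (sum_le_sum fun π _ => ?_)
    have := trunc (A.filter (Has π)) x hB (fun C hC => hf C (mem_filter.1 hC).1) M
    simp only [hx, add_sub_cancel] at this
    simpa [WW] using this
  have hsub : ∀ (q : ℕ → Prop) [DecidablePred q], (∀ m, q m → m ≤ M + 1) →
      ∑ S ∈ A.powerset.filter fun S => q S.card,
      |Pr col (S.biUnion id) - ∏ C ∈ S, pw col C| ≤ K := fun q _ hq =>
    le_trans (sum_le_sum_of_subset_of_nonneg (fun S hS => mem_filter.2 ⟨(mem_filter.1 hS).1,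
      hq _ (mem_filter.1 hS).2⟩) fun _ _ _ => abs_nonneg _) hK
  have hK0 : 0 ≤ K := (sum_nonneg fun _ _ => abs_nonneg _).trans hK
  have s2 : (1 + B) ^ (M + 1) * ∑ S ∈ A.powerset.filter fun S => S.card = M + 1,
      1 * Pr col (S.biUnion id) ≤
      (1 + B) ^ (M + 1) * K + (2 ^ M)⁻¹ * Real.exp (2 * ((1 + B) * Λ)) := by
    have a1 := hsub (· = M + 1) fun m h => h.le
    have a2 := tail_sum A (y := fun C => (1 + B) * pw col C) (fun C => by have := hpw C; positivity) M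
    have a3 : (1 + B) ^ (M + 1) * ∑ S ∈ A.powerset.filter fun S => S.card = M + 1,
        ∏ C ∈ S, pw col C ≤ ∑ S ∈ A.powerset.filter fun S => ¬ S.card ≤ M,
        ∏ C ∈ S, (1 + B) * pw col C := by
      rw [mul_sum]
      refine le_trans (sum_le_sum fun S hS => le_of_eq ?_) (sum_le_sum_of_subset_of_nonneg
        (fun S hS => mem_filter.2 ⟨(mem_filter.1 hS).1, by have := (mem_filter.1 hS).2; omega⟩)
        fun S _ _ => prod_nonneg fun C _ => by have := hpw C; positivity)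
      rw [prod_mul_distrib, prod_const, (mem_filter.1 hS).2]
    have a4 : ∑ S ∈ A.powerset.filter fun S => S.card = M + 1, 1 * Pr col (S.biUnion id) ≤
        K + ∑ S ∈ A.powerset.filter fun S => S.card = M + 1, ∏ C ∈ S, pw col C := by
      refine le_trans ?_ (add_le_add_left a1 _)
      rw [← sum_add_distrib]
      exact sum_le_sum fun S _ => by linarith [le_abs_self (Pr col (S.biUnion id) - ∏ C ∈ S, pw col C)]
    have a5 : (2 ^ M : ℝ)⁻¹ * Real.exp (2 * ∑ C ∈ A, (1 + B) * pw col C) ≤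
        (2 ^ M)⁻¹ * Real.exp (2 * ((1 + B) * Λ)) := by
      rw [← mul_sum]
      gcongr
    have a6 := mul_le_mul_of_nonneg_left a4 (by positivity : 0 ≤ (1 + B) ^ (M + 1))
    rw [mul_add] at a6
    linarith
  have s3 : |∑ S ∈ A.powerset.filter fun S => S.card ≤ M, (∏ C ∈ S, x C) * Pr col (S.biUnion id) -
      ∑ S ∈ A.powerset.filter fun S => S.card ≤ M, ∏ C ∈ S, x C * pw col C| ≤
      (1 + B) ^ (M + 1) * K := by
    rw [← sum_sub_distrib]
    refine (abs_sum_le_sum_abs _ _).trans (le_trans ?_ (mul_le_mul_of_nonneg_left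
      (hsub (· ≤ M) fun m h => by omega) (by positivity)))
    rw [mul_sum]
    refine sum_le_sum fun S hS => ?_
    obtain ⟨h1, h2⟩ := mem_filter.1 hS
    rw [prod_mul_distrib, ← mul_sub, abs_mul]
    gcongr
    refine (abs_prod_le S fun C hC => hf C (mem_powerset.1 h1 hC)).trans ?_
    exact (pow_le_pow_left₀ hB (by linarith) _).trans (pow_le_pow_right₀ (by linarith) (by omega))
  have hxp : ∀ C ∈ A, |x C * pw col C| ≤ B * pw col C := fun C hC => by
    rw [abs_mul, abs_of_nonneg (hpw C)]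
    exact mul_le_mul_of_nonneg_right (hf C hC) (hpw C)
  have hxs : ∑ C ∈ A, |x C * pw col C| ≤ B * Λ :=
    (sum_le_sum hxp).trans (by rw [← mul_sum]; gcongr)
  have s4 : |∑ S ∈ A.powerset.filter fun S => S.card ≤ M, ∏ C ∈ S, x C * pw col C -
      ∏ C ∈ A, (1 + x C * pw col C)| ≤ (2 ^ M)⁻¹ * Real.exp (2 * ((1 + B) * Λ)) := by
    rw [prod_one_add, ← sum_filter_add_sum_filter_not A.powerset fun S => S.card ≤ M,
      sub_add_cancel_left, abs_neg]
    refine (abs_sum_le_sum_abs _ _).trans ?_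
    simp only [abs_prod]
    refine (tail_sum A (fun C => abs_nonneg _) M).trans ?_
    gcongr
    nlinarith
  have s5 := prod_exp A (y := fun C => x C * pw col C) hτ fun C hC =>
    (hxp C hC).trans (mul_le_mul_of_nonneg_left (hp C hC) hB)
  have s6 : 2 * (B * τ) * (∑ C ∈ A, |x C * pw col C|) * Real.exp (∑ C ∈ A, |x C * pw col C|) ≤
      2 * (B * τ) * (B * Λ) * Real.exp (B * Λ) := by
    have : 0 ≤ Λ := hΛ0.trans hΛ
    gcongr
  rw [abs_le] at s1 s3 s4 s5 ⊢
  constructor <;> linarith [s1.1, s1.2, s3.1, s3.2, s4.1, s4.2, s5.1, s5.2]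

/-- The standing assumptions on a coloured configuration model. -/
def Mdl (D : ℕ) (c₀ : ℝ) (vert : Ω → V) (col : Ω → κ) : Prop :=
  (∀ v, (univ.filter fun p => vert p = v).card ≤ D) ∧
    ∀ c, Even (NC col c) ∧ c₀ * Fintype.card V ≤ NC col c

theorem tendsto_t {c₀ : ℝ} (hc : 0 < c₀) :
    Tendsto (fun n : ℕ => (√(c₀ * n / 2))⁻¹) atTop (𝓝 0) :=
  tendsto_inv_atTop_zero.comp (Real.tendsto_sqrt_atTop.comp
    ((tendsto_natCast_atTop_atTop.const_mul_atTop hc).atTop_div_const two_pos))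

theorem T1 (D L : ℕ) {c₀ B η : ℝ} (hc : 0 < c₀) (hB : 0 ≤ B) (hη : 0 < η) :
    ∀ᶠ M : ℕ in atTop, ∀ᶠ n : ℕ in atTop, ∀ (Ω V κ : Type) [Fintype Ω] [DecidableEq Ω] [Fintype V]
      [DecidableEq V] [Fintype κ] (vert : Ω → V) (col : Ω → κ) (A : Finset (Finset (Ω × Ω)))
      (f : Finset (Ω × Ω) → ℝ), Fintype.card V = n → Mdl D c₀ vert col →
      (∀ C ∈ A, Cyc vert C ∧ C.card ≤ L) → (∀ C ∈ A, |f C - 1| ≤ B) →
      |∑ π ∈ PP col, WW A f M π - (PP col).card * Real.exp (∑ C ∈ A, (f C - 1) * pw col C)| ≤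
        η * ((PP col).card * Real.exp (∑ C ∈ A, (f C - 1) * pw col C)) := by
  set Λ : ℝ := (2 ^ (L * D) ^ 2 : ℕ) * Real.exp (2 / c₀) with hΛ
  set η' := η * Real.exp (-(B * Λ)) with hη'
  have h1 : 0 < η' / 2 := by positivity
  have h2 : Tendsto (fun M : ℕ => 2 * ((2 ^ M : ℝ)⁻¹ * Real.exp (2 * ((1 + B) * Λ)))) atTop (𝓝 0) := by
    have := ((tendsto_inv_atTop_zero.comp (tendsto_pow_atTop_atTop_of_one_lt
      (one_lt_two (α := ℝ)))).mul_const (Real.exp (2 * ((1 + B) * Λ)))).const_mul 2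
    simpa using this
  filter_upwards [h2.eventually (ge_mem_nhds h1)] with M hM
  set L' := (M + 1) * L with hL'
  let g : ℝ → ℝ := fun t => 2 * (1 + B) ^ (M + 1) * (((1 - L' * t ^ 2 / 2)⁻¹ ^ L' - 1) * Real.exp Λ +
    2 * t * (2 ^ 2 ^ (L' * D) ^ 2 : ℕ) * Real.exp (2 / c₀)) + 2 * (B * t) * (B * Λ) * Real.exp (B * Λ)
  have hg : ContinuousAt g 0 := by
    refine ContinuousAt.add (ContinuousAt.mul continuousAt_const (ContinuousAt.add
      (ContinuousAt.mul (ContinuousAt.sub (ContinuousAt.pow (ContinuousAt.inv₀ (by fun_prop)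
      (by simp)) _) continuousAt_const) continuousAt_const) (by fun_prop))) (by fun_prop)
  have e1 : ∀ᶠ t in 𝓝 (0 : ℝ), g t ≤ η' / 2 := hg.eventually (ge_mem_nhds (by simpa [g] using h1))
  have e2 : ∀ᶠ t in 𝓝 (0 : ℝ), t ≤ 1 := ge_mem_nhds one_pos
  have e3 : ∀ᶠ t in 𝓝 (0 : ℝ), B * t ≤ 1 / 2 :=
    (show ContinuousAt (fun t : ℝ => B * t) 0 by fun_prop).eventually (ge_mem_nhds (by simp))
  have e4 : ∀ᶠ t in 𝓝 (0 : ℝ), (L' : ℝ) * t ^ 2 / 2 ≤ 1 / 2 :=
    (show ContinuousAt (fun t : ℝ => (L' : ℝ) * t ^ 2 / 2) 0 by fun_prop).eventually_le_const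
      (by simp)
  filter_upwards [(tendsto_t hc).eventually (e1.and (e2.and (e3.and e4))), eventually_gt_atTop 0]
    with n ⟨e1, e2, e3, e4⟩ hn
  intro Ω V κ _ _ _ _ _ vert col A f hV hm hA hf
  set t := (√(c₀ * n / 2))⁻¹ with ht
  have hn' : (0 : ℝ) < n := by exact_mod_cast hn
  have ht0 : 0 ≤ t := by positivity
  have ht2 : t ^ 2 = 2 / (c₀ * n) := by
    rw [ht, inv_pow, Real.sq_sqrt (by positivity), inv_div]
  have ht3 : Fintype.card V * t ^ 2 = 2 / c₀ := by
    rw [hV, ht2]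
    field_simp
  have hN : ∀ c, c₀ * n ≤ NC col c := fun c => hV ▸ (hm.2 c).2
  have hN0 : ∀ c, (0 : ℝ) < NC col c := fun c => lt_of_lt_of_le (by positivity) (hN c)
  have hN1 : ∀ c, 0 < NC col c := fun c => by exact_mod_cast hN0 c
  have hθ : ∀ c, (√((1 - L' * t ^ 2 / 2) * NC col c))⁻¹ ≤ t := fun c =>
    inv_anti₀ (by positivity) (Real.sqrt_le_sqrt (by nlinarith [hN c, hN0 c]))
  have hθ' : ∀ c, (√(NC col c))⁻¹ ≤ t := fun c =>
    inv_anti₀ (by positivity) (Real.sqrt_le_sqrt (by nlinarith [hN c, hN0 c]))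
  have k1 := key (fun c => (hm.2 c).1) hN1 (M := M + 1) hm.1 hA (θ := 1 - L' * t ^ 2 / 2)
    (by linarith) (by have : 0 ≤ L' * t ^ 2 / 2 := by positivity
                      linarith) (fun c => by
      rw [sub_sub_cancel, ← hL', ht2]
      have := hN c
      calc (L' : ℝ) = L' * (2 / (c₀ * n)) / 2 * (c₀ * n) := by field_simp
        _ ≤ _ := by gcongr) hθ ht0 e2
  have k2 := sum_pw_le hm.1 hA hθ' ht0
  rw [ht3] at k1 k2
  have hP : (PP col).card ≠ 0 := by
    rw [card_PP]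
    exact prod_ne_zero_iff.2 fun c _ => (MM_pos (hm.2 c).1).ne'
  have hP' : (0 : ℝ) < (PP col).card := by positivity
  have hi : 0 ≤ (1 - L' * t ^ 2 / 2)⁻¹ ^ L' - 1 := sub_nonneg.2 (one_le_pow₀ ((one_le_inv₀
    (by linarith)).2 (by have : 0 ≤ L' * t ^ 2 / 2 := by positivity
                         linarith)))
  have k3 := T1_explicit col A f M hP hB hf (k1.trans (add_le_add_left
    (mul_le_mul_of_nonneg_left (Real.exp_le_exp.2 k2) hi) _)) k2 ht0 e3 fun C hC =>
    (pw_le hθ' ht0 C).trans (pow_le_of_le_one ht0 e2 (card_pos.2 (hA C hC).1.1).ne')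
  have k4 : η' ≤ η * Real.exp (∑ C ∈ A, (f C - 1) * pw col C) := by
    refine mul_le_mul_of_nonneg_left (Real.exp_le_exp.2 ?_) hη.le
    refine le_trans (neg_le_neg (mul_le_mul_of_nonneg_left k2 hB)) ?_
    rw [mul_sum, ← sum_neg_distrib]
    exact sum_le_sum fun C hC => by
      rw [← neg_mul]
      exact mul_le_mul_of_nonneg_right (abs_le.1 (hf C hC)).1 (pw_nonneg _ _)
  rw [div_sub' hP'.ne', abs_div, abs_of_pos hP', div_le_iff₀ hP'] at k3
  refine k3.trans ?_
  rw [mul_left_comm η, mul_comm]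
  refine mul_le_mul_of_nonneg_left ?_ hP'.le
  simp only [g] at e1
  rw [← hΛ, ← hL']
  linarith

end Pool.Agent.Lib.MP_d20c4f_pr
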