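import Pool.Agent.Lib.MP_d20c4f_pr.Hyper
import Pool.Agent.Lib.MP_d20c4f_pr.Iid

/-!
The second moment of the number of planted sub-pairings.
-/

namespace Pool.Agent.Lib.MP_d20c4f_pr

open Finset Filter Topology Real

variable {d k n : ℕ}

/-- Pairs of subsets. -/
def TT (d k : ℕ) : Finset (Finset (Fin d) × Finset (Fin d)) := TH d k ×ˢ TH d k

/-- The four-colouring. -/
def col2 (ω : Fin n → Finset (Fin d) × Finset (Fin d)) (p : Fin n × Fin d) : Bool × Bool :=
  c2 (ω p.1) p.2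

/-- The natural size of a colour class at a vertex. -/
def mn (d k : ℕ) (b : Bool) : ℕ := if b then k else d - k

theorem mn_cast (hk : k ≤ d) (b : Bool) : (mn d k b : ℝ) = mm d k b := by
  cases b <;> simp [mn, mm, hk]

theorem card_col {S : Finset (Fin d)} (hS : S ∈ TH d k) (b : Bool) :
    (univ.filter fun p => decide (p ∈ S) = b).card = mn d k b := by
  cases b
  · rw [show (univ.filter fun p => decide (p ∈ S) = false) = Sᶜ by ext; simp, card_compl,
      mem_TH.1 hS]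
    simp [mn]
  · simp [mn, mem_TH.1 hS]

theorem marg {θ : Finset (Fin d) × Finset (Fin d)} (h : θ ∈ TT d k) (b : Bool) :
    NC (c2 θ) (b, true) + NC (c2 θ) (b, false) = mn d k b ∧
      NC (c2 θ) (true, b) + NC (c2 θ) (false, b) = mn d k b := by
  constructor
  · rw [← card_col (mem_product.1 h).1, ← card_filter_add_card_filter_not fun p => p ∈ θ.2]
    unfold NC
    congr 2 <;> ext <;> simp [c2]
  · rw [← card_col (mem_product.1 h).2, ← card_filter_add_card_filter_not fun p => p ∈ θ.1]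
    unfold NC
    congr 2 <;> ext <;> simp [c2, and_comm]

theorem NC_le {Ω κ : Type} [Fintype Ω] (col : Ω → κ) (c : κ) : NC col c ≤ Fintype.card Ω :=
  card_le_univ _

/-- The centred overlap at a vertex. -/
noncomputable def yy (k : ℕ) (θ : Finset (Fin d) × Finset (Fin d)) : ℝ :=
  NC (c2 θ) (true, true) - k * k / d

/-- The sign of a colour. -/
def sg (c : Bool × Bool) : ℝ := if c.1 = c.2 then 1 else -1

theorem loc_rel (hk : k ≤ d) (hd : 0 < d) {θ : Finset (Fin d) × Finset (Fin d)} (h : θ ∈ TT d k)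
    (c : Bool × Bool) : (NC (c2 θ) c : ℝ) = mm d k c.1 * mm d k c.2 / d + sg c * yy k θ := by
  have d0 : (0 : ℝ) < d := by positivity
  have h1 := congrArg (Nat.cast : ℕ → ℝ) (marg h true).1
  have h2 := congrArg (Nat.cast : ℕ → ℝ) (marg h true).2
  have h3 := congrArg (Nat.cast : ℕ → ℝ) (marg h false).1
  rw [Nat.cast_add, mn_cast hk] at h1 h2 h3
  obtain ⟨_ | _, _ | _⟩ := c <;> simp only [mm, sg, yy, Bool.false_eq_true, Bool.true_eq_false,
    if_true, if_false] at h1 h2 h3 ⊢ <;> field_simp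
  · linear_combination d * h3 - d * h2
  · linear_combination d * h2
  · linear_combination d * h1
  · ring

/-- The typical size of a colour class. -/
noncomputable def N0 (d k n : ℕ) (c : Bool × Bool) : ℝ := n * (mm d k c.1 * mm d k c.2 / d)

theorem NC_col2 (ω : Fin n → Finset (Fin d) × Finset (Fin d)) (c : Bool × Bool) :
    NC (col2 ω) c = ∑ v, NC (c2 (ω v)) c := NC_glob (fun v => c2 (ω v)) c

theorem glob_rel (hk : k ≤ d) (hd : 0 < d) {ω : Fin n → Finset (Fin d) × Finset (Fin d)}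
    (h : ω ∈ Fintype.piFinset fun _ => TT d k) (c : Bool × Bool) :
    (NC (col2 ω) c : ℝ) = N0 d k n c + sg c * ∑ v, yy k (ω v) := by
  rw [NC_col2, Nat.cast_sum, sum_congr rfl fun v _ => loc_rel hk hd (Fintype.mem_piFinset.1 h v) c,
    sum_add_distrib, ← mul_sum]
  simp [N0]

theorem mm_bd (h0 : 0 < k) (hk : k < d) (b : Bool) : 1 ≤ mm d k b ∧ mm d k b ≤ d := by
  have h1 : (1 : ℝ) ≤ k := by exact_mod_cast h0
  have h2 : (k : ℝ) + 1 ≤ d := by exact_mod_cast hk
  cases b <;> simp only [mm, Bool.false_eq_true, if_true, if_false] <;> constructor <;> linarith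

theorem N0_bd (h0 : 0 < k) (hk : k < d) (c : Bool × Bool) :
    n / d ≤ N0 d k n c ∧ N0 d k n c ≤ n * d := by
  have h1 := mm_bd h0 hk c.1
  have h2 := mm_bd h0 hk c.2
  have d0 : (0 : ℝ) < d := by exact_mod_cast h0.trans hk
  unfold N0
  constructor
  · rw [div_eq_mul_one_div]
    gcongr
    nlinarith
  · gcongr
    rw [div_le_iff₀ d0]
    nlinarith

/-- The entropy factor. -/
noncomputable def GG (k : ℕ) (ω : Fin n → Finset (Fin d) × Finset (Fin d)) : ℝ :=
  ∏ c, (NC (col2 ω) c / N0 d k n c) ^ NC (col2 ω) c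

/-- The normalisation. -/
noncomputable def Nm (d k n : ℕ) : ℝ := (MM (n * k) * MM (n * (d - k))) ^ 2 / MM (n * d)

theorem cnt_le (h0 : 0 < k) (hk : k < d) (hn : 0 < n) (he : Even (n * d)) {η : ℝ} (hη : η < 1)
    (hl : ∀ b, 2 * (1 - η) * (((n * mn d k b : ℕ) : ℝ) / exp 1) ^ (n * mn d k b) ≤
      (MM (n * mn d k b) : ℝ) ^ 2) {ω : Fin n → Finset (Fin d) × Finset (Fin d)}
    (h : ω ∈ Fintype.piFinset fun _ => TT d k) :
    ((PP (col2 ω)).card : ℝ) ≤ √2 / (1 - η) ^ 2 * Nm d k n * √(GG k ω) := by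
  have d0 : (0 : ℝ) < d := by exact_mod_cast h0.trans hk
  have n0 : (0 : ℝ) < n := by exact_mod_cast hn
  have e0 : 0 < 1 - η := by linarith
  have m0 : (0 : ℝ) < MM (n * d) := by exact_mod_cast MM_pos he
  have g0 : ∀ c, 0 < N0 d k n c := fun c => lt_of_lt_of_le (by positivity) (N0_bd h0 hk c).1
  have g1 : 0 ≤ GG k ω := prod_nonneg fun c _ => pow_nonneg (div_nonneg (by positivity) (g0 c).le) _
  have s1 : ∀ b, NC (col2 ω) (b, true) + NC (col2 ω) (b, false) = n * mn d k b ∧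
      NC (col2 ω) (true, b) + NC (col2 ω) (false, b) = n * mn d k b := fun b => by
    simp only [NC_col2, ← sum_add_distrib, (marg (Fintype.mem_piFinset.1 h _) b).1,
      (marg (Fintype.mem_piFinset.1 h _) b).2]
    simp
  have s2 : ∑ c, NC (col2 ω) c = n * d := by
    rw [Fintype.sum_prod_type, Fintype.sum_bool, Fintype.sum_bool, Fintype.sum_bool, (s1 _).1,
      (s1 _).1, ← mul_add]
    simp [mn, hk.le]
  let X : Bool → ℝ := fun b => ((n * mn d k b : ℕ) : ℝ) / exp 1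
  have s3 : (∏ c, ((NC (col2 ω) c : ℝ) / exp 1) ^ NC (col2 ω) c) * (((n * d : ℕ) : ℝ) / exp 1) ^ (n * d) =
      GG k ω * (X true ^ (n * mn d k true) * X false ^ (n * mn d k false)) ^ 2 := by
    have a1 : (X true ^ (n * mn d k true) * X false ^ (n * mn d k false)) ^ 2 =
        ∏ c : Bool × Bool, (X c.1 * X c.2) ^ NC (col2 ω) c := by
      rw [sq]
      nth_rewrite 1 [← (s1 true).1, ← (s1 false).1]
      rw [← (s1 true).2, ← (s1 false).2]
      simp only [Fintype.prod_prod_type, Fintype.prod_bool, mul_pow, pow_add]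
      ring
    rw [a1, GG, ← prod_mul_distrib]
    nth_rewrite 2 [← s2]
    rw [← prod_pow_eq_pow_sum, ← prod_mul_distrib]
    refine prod_congr rfl fun c _ => ?_
    rw [← mul_pow, ← mul_pow]
    congr 1
    have := (mm_bd h0 hk c.1).1
    have := (mm_bd h0 hk c.2).1
    simp only [X, N0, Nat.cast_mul, mn_cast hk.le]
    field_simp
  have s4 : ((PP (col2 ω)).card : ℝ) ^ 2 ≤
      2 ^ 4 * ∏ c, ((NC (col2 ω) c : ℝ) / exp 1) ^ NC (col2 ω) c := by
    rw [card_PP, Nat.cast_prod, ← prod_pow]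
    refine (prod_le_prod (fun _ _ => sq_nonneg _) fun c _ => MM_sq_le _).trans (le_of_eq ?_)
    rw [prod_mul_distrib]
    simp
  have s5 := mul_le_mul s4 (MM_sq_le (n * d)) (sq_nonneg _) (by positivity)
  rw [mul_mul_mul_comm, s3] at s5
  have s6 := pow_le_pow_left₀ (by positivity) (mul_le_mul (hl true) (hl false) (by positivity)
    (sq_nonneg _)) 2
  refine abs_le_of_sq_le_sq' ?_ (by unfold Nm; positivity) |>.2
  rw [mul_pow, mul_pow, div_pow, sq_sqrt zero_le_two, sq_sqrt g1, Nm, div_pow, div_mul_div_comm,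
    div_mul_eq_mul_div, le_div_iff₀ (by positivity)]
  simp only [mn, if_true, Bool.false_eq_true, if_false, X] at s5 s6
  have s7 := mul_le_mul_of_nonneg_left s6 (show 0 ≤ 2 * GG k ω by positivity)
  have s8 := mul_le_mul_of_nonneg_left s5 (show 0 ≤ ((1 - η) ^ 2) ^ 2 by positivity)
  linarith

theorem ent_le {z u : ℝ} (h1 : |z| ≤ 1 / 2) (h2 : 8 * |z| ≤ u) :
    (1 + z) * log (1 + z) ≤ z + (1 + u) * z ^ 2 / 2 := by
  have h3 := (abs_le.1 (abs_log_sub_add_sum_range_le (x := -z) (by rw [abs_neg]; linarith) 2)).2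
  simp only [sum_range_succ, range_zero, sum_empty, abs_neg, sub_neg_eq_add] at h3
  norm_num at h3
  have h4 : |z| ^ 3 / (1 - |z|) ≤ 2 * |z| ^ 3 := by
    rw [div_le_iff₀ (by linarith)]
    nlinarith [pow_nonneg (abs_nonneg z) 3]
  have h5 := abs_le.1 h1
  have h6 := mul_le_mul_of_nonneg_left (show log (1 + z) ≤ z - z ^ 2 / 2 + 2 * |z| ^ 3 by linarith)
    (show 0 ≤ 1 + z by linarith)
  have h7 : |z| ^ 3 = |z| * z ^ 2 := by rw [← sq_abs z]; ring
  have h8 := mul_le_mul_of_nonneg_right h2 (sq_nonneg z)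
  have h9 := mul_le_mul_of_nonneg_right (neg_abs_le z) (sq_nonneg z)
  have h10 := mul_le_mul_of_nonneg_right h5.2 (mul_nonneg (abs_nonneg z) (sq_nonneg z))
  have h11 := mul_nonneg (abs_nonneg z) (sq_nonneg z)
  rw [h7] at h6
  nlinarith

theorem bulk (h0 : 0 < k) (hk : k < d) (hn : 0 < n) {δ u : ℝ} (h1 : δ * d ≤ 1 / 2)
    (h2 : 8 * (δ * d) ≤ u) {ω : Fin n → Finset (Fin d) × Finset (Fin d)}
    (h : ω ∈ Fintype.piFinset fun _ => TT d k) (hx : |∑ v, yy k (ω v)| ≤ δ * n) :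
    √(GG k ω) ≤ exp ((1 + u) * d ^ 3 / (4 * k ^ 2 * (d - k) ^ 2) * (∑ v, yy k (ω v)) ^ 2 / n) := by
  have d0 : (0 : ℝ) < d := by exact_mod_cast h0.trans hk
  have n0 : (0 : ℝ) < n := by exact_mod_cast hn
  have g0 : ∀ c, 0 < N0 d k n c := fun c => lt_of_lt_of_le (by positivity) (N0_bd h0 hk c).1
  set x := ∑ v, yy k (ω v) with hxd
  rw [sqrt_le_left (exp_pos _).le, ← exp_nat_mul]
  calc _ ≤ ∏ c, exp (sg c * x + (1 + u) * x ^ 2 / 2 / N0 d k n c) := by
        refine prod_le_prod (fun c _ => pow_nonneg (div_nonneg (by positivity) (g0 c).le) _)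
          fun c _ => ?_
        have a0 := g0 c
        have a1 : |sg c| = 1 := by unfold sg; split_ifs <;> simp
        have a2 : |sg c * x / N0 d k n c| ≤ δ * d := by
          rw [abs_div, abs_mul, a1, one_mul, abs_of_pos a0, div_le_iff₀ a0]
          refine hx.trans ?_
          have a3 : 0 ≤ δ := nonneg_of_mul_nonneg_left ((abs_nonneg _).trans hx) n0
          calc δ * n = δ * d * (n / d) := by field_simp
            _ ≤ _ := mul_le_mul_of_nonneg_left (N0_bd h0 hk c).1 (by positivity)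
        have a3 := ent_le (a2.trans h1) (le_trans (by linarith) h2)
        have a4 : (NC (col2 ω) c : ℝ) / N0 d k n c = 1 + sg c * x / N0 d k n c := by
          rw [glob_rel hk.le (h0.trans hk) h c]
          field_simp
          rfl
        have a5 : 0 < 1 + sg c * x / N0 d k n c := by linarith [(abs_le.1 (a2.trans h1)).1]
        rw [a4, ← exp_log a5, ← exp_nat_mul, exp_le_exp, (div_eq_iff a0.ne').1 a4, mul_right_comm]
        refine (mul_le_mul_of_nonneg_right a3 a0.le).trans (le_of_eq ?_)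
        rw [div_pow, mul_pow, ← sq_abs (sg c), a1]
        field_simp
    _ = _ := by
        have k0 : (0 : ℝ) < k := by positivity
        have k1 : (0 : ℝ) < d - k := sub_pos.2 (by exact_mod_cast hk)
        rw [← exp_sum]
        congr 1
        simp only [Fintype.sum_prod_type, Fintype.sum_bool, sg, N0, mm, if_true, if_false,
          Bool.false_eq_true, Bool.true_eq_false]
        push_cast
        field_simp
        ring

theorem loc_dom (h0 : 0 < k) (hk : k < d) (b : Bool) {α β τ : ℝ} (ha : 0 ≤ α) (hb : 0 ≤ β)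
    (h : k / d * (α - β) = 1 - β) (hτ : τ ^ 2 ≤ (1 - β) ^ 2) (hτ' : τ ^ 2 ≤ (1 - α) ^ 2) :
    ∑ θ ∈ TT d k, α ^ NC (c2 θ) (b, true) * β ^ NC (c2 θ) (b, false) ≤
      (TT d k).card * (1 - if 2 ≤ mn d k b then τ ^ 2 / d ^ 2 else 0) := by
  rw [TT, sum_product, card_product, Nat.cast_mul, mul_assoc, ← nsmul_eq_mul]
  refine sum_le_card_nsmul _ _ _ fun S hS => ?_
  rw [← card_col hS b]
  refine le_trans (le_of_eq (sum_congr rfl fun S' _ => ?_)) (dom₂ h0 hk _ ha hb h hτ hτ')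
  rw [prod_ite, prod_const, prod_const]
  unfold NC
  congr 3 <;> ext <;> simp [c2]

open Classical in
theorem tail (h0 : 0 < k) (hk : k < d) (hd : 3 ≤ d) (hn : 0 < n) {δ : ℝ} (hδ : 0 ≤ δ) (h1 : δ ≤ 1) :
    ∑ ω ∈ (Fintype.piFinset fun _ : Fin n => TT d k).filter fun ω => ¬ |∑ v, yy k (ω v)| ≤ δ * n,
      √(GG k ω) ≤ (n * d + 1) * ((TT d k).card ^ n * √(1 - (δ / d) ^ 2 / d ^ 2) ^ n) := by
  have d0 : (1 : ℝ) ≤ d := by exact_mod_cast h0.trans hk
  have n0 : (0 : ℝ) < n := by exact_mod_cast hn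
  have g0 : ∀ c, 0 < N0 d k n c := fun c => lt_of_lt_of_le (by positivity) (N0_bd h0 hk c).1
  have z0 : 0 ≤ 1 - (δ / d) ^ 2 / d ^ 2 := by
    rw [sub_nonneg, div_le_one (by positivity)]
    exact pow_le_pow_left₀ (by positivity) ((div_le_self hδ d0).trans (h1.trans d0)) _
  set F := (Fintype.piFinset fun _ : Fin n => TT d k).filter fun ω => ¬ |∑ v, yy k (ω v)| ≤ δ * n
  rw [← sum_fiberwise_of_maps_to (g := fun ω => NC (col2 ω) (true, true)) (t := range (n * d + 1))
    fun ω _ => mem_range.2 (Nat.lt_succ_of_le ((NC_le _ _).trans (by simp)))]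
  refine (sum_le_card_nsmul _ _ _ fun a _ => ?_).trans (le_of_eq (by rw [card_range, nsmul_eq_mul]; push_cast; rfl))
  rcases (F.filter fun ω => NC (col2 ω) (true, true) = a).eq_empty_or_nonempty with h | ⟨ω₀, h⟩
  · rw [h, sum_empty]
    positivity
  set F' := F.filter fun ω => NC (col2 ω) (true, true) = a
  have f0 : ∀ ω ∈ F', ω ∈ Fintype.piFinset fun _ : Fin n => TT d k := fun ω hω =>
    (mem_filter.1 (mem_filter.1 hω).1).1
  have f1 : ∀ ω ∈ F', ∀ c, NC (col2 ω) c = NC (col2 ω₀) c := fun ω hω c => by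
    have a1 := glob_rel hk.le (by omega) (f0 ω hω) (true, true)
    have a2 := glob_rel hk.le (by omega) (f0 _ h) (true, true)
    rw [(mem_filter.1 hω).2] at a1
    rw [(mem_filter.1 h).2, a1] at a2
    simp only [sg, if_true, one_mul, add_right_inj] at a2
    rw [← Nat.cast_inj (R := ℝ), glob_rel hk.le (by omega) (f0 ω hω),
      glob_rel hk.le (by omega) (f0 _ h), a2]
  set x := ∑ v, yy k (ω₀ v) with hx
  have f2 : δ * n ≤ |x| := (not_le.1 (mem_filter.1 (mem_filter.1 h).1).2).le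
  let α : Bool × Bool → ℝ := fun c => NC (col2 ω₀) c / N0 d k n c
  have α0 : ∀ c, 0 ≤ α c := fun c => div_nonneg (by positivity) (g0 c).le
  have α1 : ∀ c, α c = 1 + sg c * x / N0 d k n c := fun c => by
    have := g0 c
    simp only [α]
    rw [glob_rel hk.le (h0.trans hk) (f0 _ h) c]
    field_simp
    rfl
  have α2 : ∀ c, (δ / d) ^ 2 ≤ (1 - α c) ^ 2 := fun c => by
    have a1 : |sg c| = 1 := by unfold sg; split_ifs <;> simp
    rw [α1, sub_add_cancel_left, neg_sq, ← sq_abs (_ / N0 _ _ _ _), abs_div, abs_mul, a1, one_mul,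
      abs_of_pos (g0 c)]
    refine pow_le_pow_left₀ (by positivity) ?_ _
    rw [div_le_div_iff₀ (by positivity) (g0 c)]
    nlinarith [mul_le_mul_of_nonneg_left (N0_bd (n := n) h0 hk c).2 hδ]
  have f3 : ∀ b, F'.card * (α (b, true) ^ NC (col2 ω₀) (b, true) * α (b, false) ^ NC (col2 ω₀) (b, false))
      ≤ ((TT d k).card * (1 - if 2 ≤ mn d k b then (δ / d) ^ 2 / d ^ 2 else 0)) ^ n := fun b => by
    refine le_trans ?_ (pow_le_pow_left₀ (sum_nonneg fun _ _ => mul_nonneg (pow_nonneg (α0 _) _)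
      (pow_nonneg (α0 _) _)) (loc_dom h0 hk b (α0 (b, true)) (α0 (b, false)) ?_ (α2 _) (α2 _)) n)
    · have := prod_univ_sum (fun _ : Fin n => TT d k) fun _ θ =>
        α (b, true) ^ NC (c2 θ) (b, true) * α (b, false) ^ NC (c2 θ) (b, false)
      rw [prod_const, card_univ, Fintype.card_fin] at this
      rw [this, ← nsmul_eq_mul]
      refine (card_nsmul_le_sum _ _ _ fun ω hω => le_of_eq ?_).trans (sum_le_sum_of_subset_of_nonneg f0
        fun _ _ _ => prod_nonneg fun _ _ => mul_nonneg (pow_nonneg (α0 _) _) (pow_nonneg (α0 _) _))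
      rw [prod_mul_distrib, prod_pow_eq_pow_sum, prod_pow_eq_pow_sum, ← NC_col2, ← NC_col2, f1 ω hω,
        f1 ω hω]
    · have k0 : (0 : ℝ) < k := by positivity
      have k1 : (0 : ℝ) < d - k := sub_pos.2 (by exact_mod_cast hk)
      rw [α1, α1]
      cases b <;> simp only [sg, N0, mm, if_true, if_false, Bool.false_eq_true, Bool.true_eq_false] <;>
        field_simp <;> ring
  have f4 : (1 - if 2 ≤ mn d k true then (δ / d) ^ 2 / d ^ 2 else 0) *
      (1 - if 2 ≤ mn d k false then (δ / d) ^ 2 / d ^ 2 else 0) ≤ 1 - (δ / d) ^ 2 / d ^ 2 := by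
    have : 0 ≤ (δ / d) ^ 2 / d ^ 2 := by positivity
    split_ifs with a1 a2 a2
    · nlinarith
    · simp
    · simp
    · simp only [mn, if_true, Bool.false_eq_true, if_false] at a1 a2
      omega
  rw [sum_congr rfl (g := fun _ => √(GG k ω₀)) fun ω hω => by simp only [GG, f1 ω hω], sum_const,
    nsmul_eq_mul]
  refine abs_le_of_sq_le_sq' ?_ (by positivity) |>.2
  have g1 : 0 ≤ GG k ω₀ := prod_nonneg fun c _ => pow_nonneg (α0 c) _
  have f5 := mul_le_mul (f3 true) (f3 false) (mul_nonneg (by positivity) (mul_nonneg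
    (pow_nonneg (α0 _) _) (pow_nonneg (α0 _) _))) (le_trans (mul_nonneg (by positivity) (mul_nonneg
    (pow_nonneg (α0 _) _) (pow_nonneg (α0 _) _))) (f3 true))
  rw [← mul_pow, mul_mul_mul_comm ((TT d k).card : ℝ)] at f5
  rw [mul_pow, sq_sqrt g1, ← mul_pow, ← pow_mul, mul_comm n, pow_mul, mul_pow, sq_sqrt z0]
  refine le_trans (le_of_eq ?_) (f5.trans (pow_le_pow_left₀ ?_ ?_ n))
  · simp only [GG, Fintype.prod_prod_type, Fintype.prod_bool, α]
    ring
  · refine mul_nonneg (by positivity) (mul_nonneg ?_ ?_) <;> split_ifs <;> simp [z0]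
  · rw [sq ((TT d k).card : ℝ)]
    exact mul_le_mul_of_nonneg_left f4 (by positivity)

open Classical in
theorem split (h0 : 0 < k) (hk : k < d) (hd : 3 ≤ d) {u : ℝ} (hu : 0 < u) (hu1 : u < 1) :
    ∀ᶠ δ in 𝓝[>] (0 : ℝ), ∀ᶠ n : ℕ in atTop, Even (n * k) → Even (n * d) →
      ∀ Z ⊆ Fintype.piFinset fun _ : Fin n => TT d k, ∑ ω ∈ Z, ((PP (col2 ω)).card : ℝ) ≤
        √2 / (1 - u) ^ 2 * Nm d k n * (∑ ω ∈ Z.filter fun ω =>
          Even (∑ v, NC (c2 (ω v)) (true, true)) ∧ |∑ v, yy k (ω v)| ≤ δ * n,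
          exp ((1 + u) * d ^ 3 / (4 * k ^ 2 * (d - k) ^ 2) * (∑ v, yy k (ω v)) ^ 2 / n) +
          (TT d k).card ^ n * u) := by
  have d1 : ∀ᶠ δ : ℝ in 𝓝 0, δ * d < 1 / 2 :=
    ContinuousAt.eventually_lt (by fun_prop) (by fun_prop) (by simp)
  have d2 : ∀ᶠ δ : ℝ in 𝓝 0, 8 * (δ * d) < u :=
    ContinuousAt.eventually_lt (by fun_prop) (by fun_prop) (by simpa using hu)
  filter_upwards [(d1.and (d2.and (ge_mem_nhds one_pos))).filter_mono nhdsWithin_le_nhds,
    self_mem_nhdsWithin] with δ ⟨d1, d2, d3⟩ d0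
  have d0 : 0 < δ := d0
  have dd : (0 : ℝ) < d := by positivity
  have l1 : Tendsto (fun n : ℕ => ((n : ℝ) * d + 1) * √(1 - (δ / d) ^ 2 / d ^ 2) ^ n) atTop (𝓝 0) := by
    have a1 : √(1 - (δ / d) ^ 2 / d ^ 2) < 1 := by
      rw [sqrt_lt' one_pos, one_pow]
      exact sub_lt_self _ (by positivity)
    have := ((tendsto_self_mul_const_pow_of_lt_one (sqrt_nonneg _) a1).const_mul (d : ℝ)).add
      (tendsto_pow_atTop_nhds_zero_of_lt_one (sqrt_nonneg _) a1)
    simp only [mul_zero, add_zero] at this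
    exact this.congr fun n => by ring
  have l2 : ∀ b, ∀ᶠ n : ℕ in atTop, Even (n * mn d k b) → 2 * (1 - u) *
      (((n * mn d k b : ℕ) : ℝ) / exp 1) ^ (n * mn d k b) ≤ (MM (n * mn d k b) : ℝ) ^ 2 := fun b =>
    (tendsto_id.atTop_mul_const' (show 0 < mn d k b by
      cases b <;> simp [mn, h0, hk])).eventually (MM_sq_ge hu)
  filter_upwards [l1.eventually (ge_mem_nhds hu), l2 true, l2 false, eventually_gt_atTop 0]
    with n l1 l2 l3 hn e1 e2 Z hZ
  have hl : ∀ b, 2 * (1 - u) * (((n * mn d k b : ℕ) : ℝ) / exp 1) ^ (n * mn d k b) ≤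
      (MM (n * mn d k b) : ℝ) ^ 2 := by
    rintro (_ | _)
    · refine l3 ?_
      simp only [mn, Bool.false_eq_true, if_false, Nat.mul_sub]
      exact (Nat.even_sub (Nat.mul_le_mul_left _ hk.le)).2 (by simp [e1, e2])
    · exact l2 e1
  have c0 : 0 ≤ √2 / (1 - u) ^ 2 * Nm d k n := by unfold Nm; positivity
  rw [← sum_filter_add_sum_filter_not _ fun ω => |∑ v, yy k (ω v)| ≤ δ * n, mul_add]
  refine add_le_add ?_ ?_
  · rw [← sum_filter_of_ne (p := fun ω => Even (∑ v, NC (c2 (ω v)) (true, true))) fun ω _ h => ?_,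
      filter_filter, mul_sum]
    · refine sum_le_sum_of_subset_of_nonneg (fun ω hω => ?_) (fun _ _ _ => by positivity) |>.trans'
        (sum_le_sum fun ω hω => ?_)
      · simpa only [mem_filter, and_comm] using hω
      · have a1 := hZ (mem_filter.1 hω).1
        exact (cnt_le h0 hk hn e2 hu1 hl a1).trans (mul_le_mul_of_nonneg_left
          (bulk h0 hk hn d1.le d2.le a1 (mem_filter.1 hω).2.1) c0)
    · by_contra h'
      rw [card_PP, prod_eq_zero (mem_univ (true, true)) (MM_odd (by rwa [NC_col2]))] at h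
      simp at h
  · refine (sum_le_sum fun ω hω => cnt_le h0 hk hn e2 hu1 hl
      (hZ (mem_filter.1 hω).1)).trans ?_
    rw [← mul_sum]
    refine mul_le_mul_of_nonneg_left (le_trans (sum_le_sum_of_subset_of_nonneg (filter_subset_filter _
      hZ) fun _ _ _ => sqrt_nonneg _) ((tail h0 hk hd hn d0.le d3).trans ?_)) c0
    rw [mul_left_comm]
    gcongr

theorem yy_facts (h0 : 0 < k) (hk : k < d) (hd : 3 ≤ d) : ∑ θ ∈ TT d k, yy k θ = 0 ∧
    ∑ θ ∈ TT d k, yy k θ ^ 2 = (TT d k).card * (k ^ 2 * (d - k) ^ 2 / (d ^ 2 * (d - 1))) ∧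
    (∀ θ ∈ TT d k, |yy k θ| ≤ d) ∧ (∃ θ ∈ TT d k, Even (NC (c2 θ) (true, true))) ∧
    ∃ θ ∈ TT d k, ¬ Even (NC (c2 θ) (true, true)) := by
  have d3 : (3 : ℝ) ≤ d := by exact_mod_cast hd
  have d1 : (0 : ℝ) < d - 1 := by linarith
  have h1 := sum_NC hk.le (by omega) (true, true)
  have h2 := sum_AT hk.le (by omega) (true, true) (true, true)
  simp only [AT_loc, mm, A1, if_true, ← TT.eq_1] at h1 h2
  refine ⟨?_, ?_, fun θ hθ => ?_, ?_⟩
  · simp only [yy, sum_sub_distrib, h1, sum_const, nsmul_eq_mul, sub_self]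
  · rw [sum_congr rfl (g := fun θ => (NC (c2 θ) (true, true) : ℝ) * (NC (c2 θ) (true, true) - 1) +
      (1 - 2 * (k * k / d)) * NC (c2 θ) (true, true) + (k * k / d) ^ 2) fun θ _ => by
        unfold yy; ring, sum_add_distrib, sum_add_distrib, ← mul_sum, h1, h2, sum_const, nsmul_eq_mul]
    field_simp
    ring
  · have a1 : (NC (c2 θ) (true, true) : ℝ) ≤ d := by
      exact_mod_cast (NC_le _ _).trans (by simp)
    have a2 : (k : ℝ) ≤ d := by exact_mod_cast hk.le
    have a3 : (k : ℝ) * k / d ≤ d := by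
      rw [div_le_iff₀ (by linarith)]
      exact mul_le_mul a2 a2 (by positivity) (by positivity)
    have a4 : (0 : ℝ) ≤ k * k / d := by positivity
    have a5 : (0 : ℝ) ≤ NC (c2 θ) (true, true) := by positivity
    unfold yy
    rw [abs_le]
    constructor <;> linarith
  · obtain ⟨S, _, hS⟩ := exists_subset_card_eq (s := (univ : Finset (Fin d))) (n := k) (by simpa using hk.le)
    obtain ⟨a, ha⟩ := card_pos.1 (hS ▸ h0 : 0 < S.card)
    obtain ⟨b, _, hb⟩ := exists_mem_notMem_of_card_lt_card (s := S) (t := univ) (by simpa [hS] using hk)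
    have t1 : (S, S) ∈ TT d k := mem_product.2 ⟨mem_TH.2 hS, mem_TH.2 hS⟩
    have t2 : (S, insert b (S.erase a)) ∈ TT d k := mem_product.2 ⟨mem_TH.2 hS, mem_TH.2 (by
      rw [card_insert_of_notMem (by simp [hb]), card_erase_add_one ha, hS])⟩
    have j1 : NC (c2 (S, S)) (true, true) = k := by
      rw [← hS]
      unfold NC
      congr 1
      ext
      simp [c2]
    have j2 : NC (c2 (S, insert b (S.erase a))) (true, true) + 1 = k := by
      rw [← hS, ← card_erase_add_one ha]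
      unfold NC
      congr 2
      ext x
      simp only [c2, Prod.mk.injEq, decide_eq_true_eq, mem_filter, mem_univ, true_and, mem_insert,
        mem_erase]
      exact ⟨fun h => h.2.resolve_left fun e => hb (e ▸ h.1), fun h => ⟨h.2, Or.inr h⟩⟩
    by_cases h : Even k
    · exact ⟨⟨_, t1, j1 ▸ h⟩, _, t2, by rwa [← j2, Nat.even_add_one] at h⟩
    · exact ⟨⟨_, t2, by rwa [← j2, Nat.even_add_one, not_not] at h⟩, _, t1, j1 ▸ h⟩

theorem T2a (h0 : 0 < k) (hk : k < d) (hd : 3 ≤ d) {ε : ℝ} (hε : 0 < ε) :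
    ∀ᶠ n : ℕ in atTop, Even (n * k) → Even (n * d) →
      ∑ ω ∈ Fintype.piFinset fun _ : Fin n => TT d k, ((PP (col2 ω)).card : ℝ) ≤
        ((√(1 - 1 / (d - 1)))⁻¹ + ε) * ((TT d k).card ^ n * Nm d k n) := by
  classical
  have d3 : (3 : ℝ) ≤ d := by exact_mod_cast hd
  have d1 : (0 : ℝ) < d - 1 := by linarith
  have k0 : (0 : ℝ) < k := by positivity
  have k1 : (0 : ℝ) < d - k := sub_pos.2 (by exact_mod_cast hk)
  have a0 : (d : ℝ) / (2 * (d - 1)) < 1 := by
    rw [div_lt_one (by positivity)]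
    linarith
  have a1 : ∀ᶠ u : ℝ in 𝓝 0, (1 + u) * (d / (2 * (d - 1))) < 1 :=
    ContinuousAt.eventually_lt (by fun_prop) (by fun_prop) (by simpa using a0)
  have a2 : ∀ᶠ u in 𝓝 (0 : ℝ), √2 / (1 - u) ^ 2 * ((√(1 - (1 + u) * (d / (2 * (d - 1)))))⁻¹ / 2 + u + u)
      < (√(1 - 1 / (d - 1)))⁻¹ + ε := by
    refine ContinuousAt.eventually_lt (ContinuousAt.mul (ContinuousAt.div (by fun_prop) (by fun_prop)
      (by simp)) (ContinuousAt.add (ContinuousAt.add (ContinuousAt.div_const (ContinuousAt.inv₀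
        (f := fun u : ℝ => √(1 - (1 + u) * (d / (2 * (d - 1))))) (by fun_prop)
        (sqrt_pos.2 (by linarith)).ne') _) (by fun_prop)) (by fun_prop))) (by fun_prop) ?_
    have : 1 - (1 + 0) * ((d : ℝ) / (2 * (d - 1))) = (1 - 1 / (d - 1)) / 2 := by
      field_simp
      ring
    rw [this]
    simp only [sqrt_div' _ zero_le_two, inv_div, sub_zero, one_pow, div_one, add_zero]
    have h2 : √2 * (√2 / √(1 - 1 / ((d : ℝ) - 1)) / 2) = (√(1 - 1 / (d - 1)))⁻¹ := by
      rw [← mul_div_assoc, ← mul_div_assoc, mul_self_sqrt zero_le_two]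
      ring
    linarith
  obtain ⟨u, ⟨a1, a2, a3⟩, u0⟩ := (((a1.and (a2.and (gt_mem_nhds one_pos))).filter_mono
    nhdsWithin_le_nhds).and (self_mem_nhdsWithin (s := Set.Ioi 0))).exists
  have u0 : 0 < u := u0
  obtain ⟨y1, y2, y3, y4, y5⟩ := yy_facts h0 hk hd
  have a4 : 2 * ((1 + u) * d ^ 3 / (4 * k ^ 2 * (d - k) ^ 2)) *
      (k ^ 2 * (d - k) ^ 2 / (d ^ 2 * (d - 1))) = (1 + u) * ((d : ℝ) / (2 * (d - 1))) := by
    field_simp
    ring
  obtain ⟨δ, b1, b2⟩ := ((split h0 hk hd u0 a3).and (hs_bound (TT d k) _ y1 y2 (by linarith) y3 y4 y5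
    (γ := (1 + u) * d ^ 3 / (4 * k ^ 2 * (d - k) ^ 2)) (by positivity) (a4 ▸ a1) u0)).exists
  filter_upwards [b1, b2] with n b1 b2 e1 e2
  have b3 := b1 e1 e2 _ subset_rfl
  rw [a4] at b2
  have c0 : 0 ≤ Nm d k n := by unfold Nm; positivity
  refine b3.trans ((mul_le_mul_of_nonneg_left (add_le_add_left b2 _) (by positivity)).trans ?_)
  have := mul_le_mul_of_nonneg_right a2.le (show 0 ≤ (TT d k).card ^ n * Nm d k n by positivity)
  linarith

open Classical in
theorem T2b (h0 : 0 < k) (hk : k < d) (hd : 3 ≤ d) {y : Finset (Fin d) × Finset (Fin d) → ℝ}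
    {b δ ε : ℝ} (y0 : ∑ θ ∈ TT d k, y θ = 0) (hb : 0 < b) (hy : ∀ θ ∈ TT d k, |y θ| ≤ b) (hδ : 0 < δ)
    (hδ' : δ ≤ 2 * b) (hε : 0 < ε) : ∀ᶠ n : ℕ in atTop, Even (n * k) → Even (n * d) →
      ∑ ω ∈ (Fintype.piFinset fun _ : Fin n => TT d k).filter fun ω => δ * n ≤ |∑ v, y (ω v)|,
        ((PP (col2 ω)).card : ℝ) ≤ ε * ((TT d k).card ^ n * Nm d k n) := by
  have k1 : (0 : ℝ) < d - k := sub_pos.2 (by exact_mod_cast hk)
  have a2 : ∀ᶠ u in 𝓝 (0 : ℝ), √2 / (1 - u) ^ 2 * (u + u) < ε :=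
    ContinuousAt.eventually_lt (ContinuousAt.mul (ContinuousAt.div (by fun_prop) (by fun_prop)
      (by simp)) (by fun_prop)) (by fun_prop) (by simpa using hε)
  obtain ⟨u, ⟨a2, a3⟩, u0⟩ := (((a2.and (gt_mem_nhds one_pos)).filter_mono
    nhdsWithin_le_nhds).and (self_mem_nhdsWithin (s := Set.Ioi 0))).exists
  have u0 : 0 < u := u0
  set γ := (1 + u) * d ^ 3 / (4 * k ^ 2 * (d - k) ^ 2) with hγ
  have g0 : 0 < γ := by positivity
  have a4 : ∀ᶠ δ' in 𝓝 (0 : ℝ), γ * δ' ^ 2 < δ ^ 2 / (4 * b ^ 2) :=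
    ContinuousAt.eventually_lt (by fun_prop) (by fun_prop) (by simp; positivity)
  obtain ⟨δ', b1, b2⟩ := ((split h0 hk hd u0 a3).and (a4.filter_mono nhdsWithin_le_nhds)).exists
  have l1 := (tendsto_pow_atTop_nhds_zero_of_lt_one (exp_pos _).le (exp_lt_one_iff.2
    (sub_neg.2 b2))).const_mul 2
  rw [mul_zero] at l1
  filter_upwards [b1, l1.eventually (ge_mem_nhds u0), eventually_gt_atTop 0] with n b1 l1 hn e1 e2
  have n0 : (0 : ℝ) < n := by exact_mod_cast hn
  have c0 : 0 ≤ Nm d k n := by unfold Nm; positivity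
  refine (b1 e1 e2 _ (filter_subset _ _)).trans
    ((mul_le_mul_of_nonneg_left (add_le_add (b := (TT d k).card ^ n * u) ?_ le_rfl)
    (mul_nonneg (div_nonneg (sqrt_nonneg _) (sq_nonneg _)) c0)).trans ?_)
  · refine (sum_le_card_nsmul _ _ (exp (γ * δ' ^ 2 * n)) fun ω hω => ?_).trans ?_
    · rw [exp_le_exp, div_le_iff₀ n0, ← sq_abs (∑ v, _), show γ * δ' ^ 2 * n * n = γ * (δ' * n) ^ 2 by ring]
      exact mul_le_mul_of_nonneg_left (pow_le_pow_left₀ (abs_nonneg _) (mem_filter.1 hω).2.2 _) g0.le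
    · rw [nsmul_eq_mul]
      refine (mul_le_mul_of_nonneg_right ((Nat.cast_le.2 (card_filter_le _ _)).trans
        (chernoff (TT d k) n y0 hb hy hδ.le hδ')) (exp_pos _).le).trans ?_
      rw [mul_left_comm, mul_assoc, mul_assoc, ← exp_add]
      rw [← exp_nat_mul] at l1
      refine mul_le_mul_of_nonneg_left (le_trans (le_of_eq ?_) l1) (by positivity)
      congr 2
      ring
  · have := mul_le_mul_of_nonneg_right a2.le (show 0 ≤ (TT d k).card ^ n * Nm d k n by positivity)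
    linarith

end Pool.Agent.Lib.MP_d20c4f_pr
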